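import Mathlib

set_option autoImplicit false

namespace Pool.Agent.H.MP_711652_nt.QW

open Finset

lemma tau_mul_le (a b : ℕ) : (a * b).divisors.card ≤ a.divisors.card * b.divisors.card := by
  rcases eq_or_ne a 0 with rfl | ha
  · simp
  rcases eq_or_ne b 0 with rfl | hb
  · simp
  have h1 : (a * b).divisors ⊆ (a.divisors ×ˢ b.divisors).image (fun q => q.1 * q.2) := by
    intro d hd
    rw [Nat.mem_divisors] at hd
    obtain ⟨d1, d2, h1, h2, rfl⟩ := (Nat.dvd_mul).1 hd.1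
    rw [mem_image]
    refine ⟨(d1, d2), ?_, ?_⟩
    · rw [mem_product, Nat.mem_divisors, Nat.mem_divisors]
      exact ⟨⟨h1, ha⟩, ⟨h2, hb⟩⟩
    · rfl
  calc _ ≤ _ := card_le_card h1
    _ ≤ _ := card_image_le
    _ = _ := card_product _ _

/-- `∑_{n ≤ Z} τ(n)^j / n`. -/
noncomputable def Ts (j Z : ℕ) : ℝ := ∑ n ∈ Icc 1 Z, ((n.divisors.card : ℝ) ^ j) / n

lemma Ts_nonneg (j Z : ℕ) : 0 ≤ Ts j Z := by
  unfold Ts
  exact sum_nonneg (fun n _ => by positivity)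

lemma Ts_zero (Z : ℕ) : Ts 0 Z ≤ 1 + Real.log Z := by
  unfold Ts
  have h1 := harmonic_le_one_add_log Z
  rw [harmonic_eq_sum_Icc] at h1
  push_cast at h1
  simp only [pow_zero, one_div]
  exact h1

lemma Ts_succ (j Z : ℕ) : Ts (j + 1) Z ≤ (Ts j Z) ^ 2 := by
  unfold Ts
  rw [sq, sum_mul_sum, ← sum_product']
  set T := (Icc 1 Z ×ˢ Icc 1 Z).filter (fun q : ℕ × ℕ => q.1 * q.2 ≤ Z) with hT
  have hsub : ∑ q ∈ T, ((q.1.divisors.card : ℝ) ^ j) / q.1 * (((q.2.divisors.card : ℝ) ^ j) / q.2) ≤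
      ∑ q ∈ Icc 1 Z ×ˢ Icc 1 Z,
        ((q.1.divisors.card : ℝ) ^ j) / q.1 * (((q.2.divisors.card : ℝ) ^ j) / q.2) :=
    sum_le_sum_of_subset_of_nonneg (filter_subset _ _) (fun q _ _ => by positivity)
  refine le_trans ?_ hsub
  have hmaps : ∀ q ∈ T, q.1 * q.2 ∈ Icc 1 Z := by
    intro q hq
    rw [hT, mem_filter, mem_product, mem_Icc, mem_Icc] at hq
    rw [mem_Icc]
    exact ⟨Nat.mul_pos hq.1.1.1 hq.1.2.1, hq.2⟩
  rw [← sum_fiberwise_of_maps_to hmaps]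
  apply sum_le_sum
  intro n hn
  rw [mem_Icc] at hn
  have hn0 : (0 : ℝ) < n := by exact_mod_cast (show 0 < n by omega)
  have h2 : ∀ q ∈ T.filter (fun q : ℕ × ℕ => q.1 * q.2 = n), ((n.divisors.card : ℝ) ^ j) / n ≤
      ((q.1.divisors.card : ℝ) ^ j) / q.1 * (((q.2.divisors.card : ℝ) ^ j) / q.2) := by
    intro q hq
    rw [mem_filter] at hq
    rw [← hq.2, div_mul_div_comm, ← mul_pow]
    push_cast
    apply div_le_div_of_nonneg_right _ (by positivity)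
    apply pow_le_pow_left₀ (by positivity)
    exact_mod_cast tau_mul_le q.1 q.2
  have hcard : n.divisors.card ≤ (T.filter (fun q : ℕ × ℕ => q.1 * q.2 = n)).card := by
    apply card_le_card_of_injOn (fun d => (d, n / d))
    · intro d hd
      rw [Finset.mem_coe, Nat.mem_divisors] at hd
      have hd1 : 0 < d := Nat.pos_of_dvd_of_pos hd.1 (by omega)
      have hd2 : d * (n / d) = n := Nat.mul_div_cancel' hd.1
      have hd3 : 0 < n / d := by
        rcases Nat.eq_zero_or_pos (n / d) with h0 | h0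
        · rw [h0, mul_zero] at hd2; omega
        · exact h0
      have hd4 : d ≤ n := Nat.le_of_dvd (by omega) hd.1
      have hd5 : n / d ≤ n := Nat.div_le_self n d
      rw [Finset.mem_coe, mem_filter, hT, mem_filter, mem_product, mem_Icc, mem_Icc]
      simp only
      rw [hd2]
      exact ⟨⟨⟨⟨hd1, by omega⟩, ⟨hd3, by omega⟩⟩, hn.2⟩, rfl⟩
    · intro a _ b _ hab
      simp only [Prod.mk.injEq] at hab
      exact hab.1
  calc ((n.divisors.card : ℝ) ^ (j + 1)) / n = n.divisors.card * (((n.divisors.card : ℝ) ^ j) / n) := by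
        rw [pow_succ]; ring
    _ ≤ ((T.filter (fun q : ℕ × ℕ => q.1 * q.2 = n)).card : ℝ) * (((n.divisors.card : ℝ) ^ j) / n) := by
        apply mul_le_mul_of_nonneg_right _ (by positivity)
        exact_mod_cast hcard
    _ = ∑ q ∈ T.filter (fun q : ℕ × ℕ => q.1 * q.2 = n), ((n.divisors.card : ℝ) ^ j) / n := by
        rw [sum_const, nsmul_eq_mul]
    _ ≤ _ := sum_le_sum h2

lemma Ts_le (j Z : ℕ) : Ts j Z ≤ (1 + Real.log Z) ^ (2 ^ j) := by
  induction j with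
  | zero => simpa using Ts_zero Z
  | succ j ih =>
    calc Ts (j + 1) Z ≤ (Ts j Z) ^ 2 := Ts_succ j Z
      _ ≤ ((1 + Real.log Z) ^ (2 ^ j)) ^ 2 := pow_le_pow_left₀ (Ts_nonneg j Z) ih 2
      _ = (1 + Real.log Z) ^ (2 ^ (j + 1)) := by rw [← pow_mul, pow_succ]

lemma inner_sum (j Z k : ℕ) (hk : 1 ≤ k) :
    ∑ q ∈ Icc 1 Z with k ∣ q, ((q.divisors.card : ℝ) ^ j) / q ≤
      ((k.divisors.card : ℝ) ^ j) / k * Ts j Z := by
  have hk0 : 0 < k := hk
  have h1 : ∑ q ∈ Icc 1 Z with k ∣ q, ((q.divisors.card : ℝ) ^ j) / q ≤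
      ∑ q ∈ Icc 1 Z with k ∣ q, ((k.divisors.card : ℝ) ^ j) / k *
        ((((q / k).divisors.card : ℝ) ^ j) / ((q / k : ℕ) : ℝ)) := by
    apply sum_le_sum
    intro q hq
    rw [mem_filter] at hq
    obtain ⟨m, rfl⟩ := hq.2
    rw [Nat.mul_div_cancel_left _ hk0, div_mul_div_comm, ← mul_pow]
    push_cast
    apply div_le_div_of_nonneg_right _ (by positivity)
    apply pow_le_pow_left₀ (by positivity)
    exact_mod_cast tau_mul_le k m
  refine h1.trans ?_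
  rw [← mul_sum]
  apply mul_le_mul_of_nonneg_left _ (by positivity)
  rw [← sum_image (f := fun m : ℕ => ((m.divisors.card : ℝ) ^ j) / (m : ℝ)) (g := fun q : ℕ => q / k)]
  · unfold Ts
    apply sum_le_sum_of_subset_of_nonneg
    · intro m hm
      rw [mem_image] at hm
      obtain ⟨q, hq, rfl⟩ := hm
      rw [mem_filter, mem_Icc] at hq
      obtain ⟨⟨h2, h3⟩, m, rfl⟩ := hq
      rw [Nat.mul_div_cancel_left _ hk0, mem_Icc]
      refine ⟨?_, ?_⟩
      · rcases Nat.eq_zero_or_pos m with h0 | h0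
        · subst h0; omega
        · exact h0
      · exact (Nat.le_mul_of_pos_left m hk0).trans h3
    · intro m _ _; positivity
  · intro a ha b hb hab
    rw [Finset.mem_coe, mem_filter] at ha hb
    obtain ⟨m, rfl⟩ := ha.2
    obtain ⟨m', rfl⟩ := hb.2
    simp only [Nat.mul_div_cancel_left _ hk0] at hab
    rw [hab]

/-- Divisor sum with gcd. -/
theorem gcd_sum (j Z : ℕ) :
    ∑ q ∈ Icc 1 Z, ∑ q' ∈ Icc 1 Z, ((q.divisors.card : ℝ) ^ j) * ((q'.divisors.card : ℝ) ^ j) *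
      ((Nat.gcd q q' : ℕ) / (q * q')) ≤ (1 + Real.log Z) ^ (2 ^ (2 * j) + 2 * 2 ^ j) := by
  have h1 : ∀ q ∈ Icc 1 Z, ∀ q' ∈ Icc 1 Z, ((Nat.gcd q q' : ℕ) : ℝ) ≤
      ∑ k ∈ Icc 1 Z, (k : ℝ) * ((if k ∣ q then 1 else 0) * (if k ∣ q' then 1 else 0)) := by
    intro q hq q' _
    rw [mem_Icc] at hq
    have hg : Nat.gcd q q' ∈ Icc 1 Z := by
      rw [mem_Icc]
      exact ⟨Nat.gcd_pos_of_pos_left _ hq.1,
        (Nat.le_of_dvd hq.1 (Nat.gcd_dvd_left q q')).trans hq.2⟩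
    have := single_le_sum (f := fun k : ℕ => (k : ℝ) * ((if k ∣ q then 1 else 0) *
      (if k ∣ q' then 1 else 0))) (s := Icc 1 Z) (fun k _ => by positivity) hg
    simp only [Nat.gcd_dvd_left, Nat.gcd_dvd_right, if_true, mul_one] at this
    exact this
  set f : ℕ → ℝ := fun q => ((q.divisors.card : ℝ) ^ j) / q with hf
  have hf0 : ∀ q, 0 ≤ f q := fun q => by rw [hf]; positivity
  have h2 : ∑ q ∈ Icc 1 Z, ∑ q' ∈ Icc 1 Z, ((q.divisors.card : ℝ) ^ j) * ((q'.divisors.card : ℝ) ^ j) *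
      ((Nat.gcd q q' : ℕ) / (q * q')) ≤
      ∑ q ∈ Icc 1 Z, ∑ q' ∈ Icc 1 Z, ∑ k ∈ Icc 1 Z,
        (k : ℝ) * ((f q * (if k ∣ q then 1 else 0)) * (f q' * (if k ∣ q' then 1 else 0))) := by
    apply sum_le_sum; intro q hq; apply sum_le_sum; intro q' hq'
    calc ((q.divisors.card : ℝ) ^ j) * ((q'.divisors.card : ℝ) ^ j) *
        ((Nat.gcd q q' : ℕ) / (q * q')) = (f q * f q') * (Nat.gcd q q' : ℕ) := by
          rw [hf]; simp only; ring
      _ ≤ (f q * f q') * ∑ k ∈ Icc 1 Z, (k : ℝ) * ((if k ∣ q then 1 else 0) *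
          (if k ∣ q' then 1 else 0)) :=
          mul_le_mul_of_nonneg_left (h1 q hq q' hq') (mul_nonneg (hf0 q) (hf0 q'))
      _ = _ := by
          rw [mul_sum]
          apply sum_congr rfl
          intro k _
          ring
  refine h2.trans ?_
  have h3 : ∑ q ∈ Icc 1 Z, ∑ q' ∈ Icc 1 Z, ∑ k ∈ Icc 1 Z,
        (k : ℝ) * ((f q * (if k ∣ q then 1 else 0)) * (f q' * (if k ∣ q' then 1 else 0))) =
      ∑ k ∈ Icc 1 Z, (k : ℝ) * (∑ q ∈ Icc 1 Z with k ∣ q, f q) ^ 2 := by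
    have h4 : ∀ q ∈ Icc 1 Z, ∑ q' ∈ Icc 1 Z, ∑ k ∈ Icc 1 Z,
        (k : ℝ) * ((f q * (if k ∣ q then 1 else 0)) * (f q' * (if k ∣ q' then 1 else 0))) =
        ∑ k ∈ Icc 1 Z, ∑ q' ∈ Icc 1 Z,
        (k : ℝ) * ((f q * (if k ∣ q then 1 else 0)) * (f q' * (if k ∣ q' then 1 else 0))) := by
      intro q _
      exact sum_comm
    rw [sum_congr rfl h4, sum_comm]
    apply sum_congr rfl
    intro k _
    rw [sum_filter, sq, sum_mul_sum, mul_sum]
    apply sum_congr rfl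
    intro q _
    rw [mul_sum]
    apply sum_congr rfl
    intro q' _
    split_ifs <;> ring
  rw [h3]
  have h5 : ∀ k ∈ Icc 1 Z, (k : ℝ) * (∑ q ∈ Icc 1 Z with k ∣ q, f q) ^ 2 ≤
      ((k.divisors.card : ℝ) ^ (2 * j)) / k * (Ts j Z) ^ 2 := by
    intro k hk
    rw [mem_Icc] at hk
    have hk0 : (0 : ℝ) < k := by exact_mod_cast (show 0 < k by omega)
    have h6 := inner_sum j Z k hk.1
    have h7 : 0 ≤ ∑ q ∈ Icc 1 Z with k ∣ q, f q := sum_nonneg (fun q _ => hf0 q)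
    calc (k : ℝ) * (∑ q ∈ Icc 1 Z with k ∣ q, f q) ^ 2 ≤
        k * (((k.divisors.card : ℝ) ^ j) / k * Ts j Z) ^ 2 := by
          apply mul_le_mul_of_nonneg_left _ hk0.le
          exact pow_le_pow_left₀ h7 h6 2
      _ = _ := by
          rw [mul_comm 2 j, pow_mul]
          field_simp
  refine (sum_le_sum h5).trans ?_
  rw [← sum_mul]
  change Ts (2 * j) Z * (Ts j Z) ^ 2 ≤ _
  calc Ts (2 * j) Z * (Ts j Z) ^ 2 ≤ (1 + Real.log Z) ^ (2 ^ (2 * j)) * ((1 + Real.log Z) ^ (2 ^ j)) ^ 2 := by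
        apply mul_le_mul (Ts_le _ _) _ (by positivity)
        · exact (Ts_nonneg _ _).trans (Ts_le _ _)
        · exact pow_le_pow_left₀ (Ts_nonneg j Z) (Ts_le j Z) 2
    _ = _ := by
        rw [← pow_mul, ← pow_add, mul_comm (2 ^ j) 2]

end Pool.Agent.H.MP_711652_nt.QW
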