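import Mathlib
import Pool.Agent.H.MP_711652_nt.PairSieve

set_option autoImplicit false

/-!
# Windows: definitions

Common definitions for the window (quenched) forms of the theorems on prime gaps.
-/

namespace Pool.Agent.H.MP_711652_nt.QW

open Finset BoundingSieve MeasureTheory

/-- The number of primes in `(u, v]`. -/
def prIn (u v : ℕ) : ℕ := ((Ioc u v).filter Nat.Prime).card

/-- The primes `p` with `|p - y| ≤ H`. -/
def prNear (y H : ℕ) : Finset ℕ := (Icc (y - H) (y + H)).filter Nat.Prime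

/-- The number of `n` with `|n - y| ≤ H` and `n`, `n + h` prime. -/
def prPairs (y H h : ℕ) : ℕ :=
  ((Icc (y - H) (y + H)).filter (fun n => n.Prime ∧ (n + h).Prime)).card

/-- The pair bound for the window of radius `H` around `y`; `L` stands for `log X`. -/
def PairOK (C L : ℝ) (y H : ℕ) : Prop :=
  ∀ s : ℕ, (s : ℝ) ≤ 8 * L → ∑ h ∈ Icc 1 s, (prPairs y H h : ℝ) ≤ C * s * H / L ^ 2

/-- `p` is `t`-regular up to the scale `H` with respect to `log X`. -/
def Regular (X H : ℕ) (t : ℝ) (p : ℕ) : Prop :=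
  ∀ u v : ℕ, u < p → p ≤ v → v ≤ u + H →
    ((v : ℝ) - u) / (t * Real.log X) - 1 ≤ prIn u v ∧
    (prIn u v : ℝ) ≤ 1 + t * ((v : ℝ) - u) / Real.log X

/-- Some interval `(u, u + H]` with `|u - p| ≤ K * H` contains no prime. -/
def GapNear (K : ℕ) (H : ℝ) (p : ℕ) : Prop :=
  ∃ u : ℕ, |(u : ℝ) - p| ≤ K * H ∧ ∀ q : ℕ, u < q → (q : ℝ) ≤ u + H → ¬ q.Prime

/-- The logarithms `s` of the bad scales `e ^ s` between `log X` and `H`. -/
def badS (X H K p : ℕ) : Set ℝ :=
  {s | Real.log (Real.log X) ≤ s ∧ Real.exp s ≤ H ∧ GapNear K (Real.exp s) p}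

/-- What is used of the sieve problem `s` for the sequence `a`. -/
structure Adm (s : BoundingSieve) (a : ℕ → ℕ) : Prop where
  per : ∀ m, m ∣ s.prodPrimes → ∀ n, (m ∣ a (n % m) ↔ m ∣ a n)
  cnt : ∀ m, m ∣ s.prodPrimes → (((range m).filter (fun r => m ∣ a r)).card : ℝ) = m * s.nu m
  rho : ∀ m, m ∣ s.prodPrimes → m * s.nu m ≤ 2 ^ m.primeFactors.card
  inv : ∀ p, p.Prime → p ∣ s.prodPrimes → (1 - s.nu p)⁻¹ ≤ 3

/-- Selberg's majorant of the sifted elements. -/
noncomputable def maj (s : BoundingSieve) (z : ℕ) (a : ℕ → ℕ) (n : ℕ) : ℝ :=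
  (∑ d ∈ s.prodPrimes.divisors, if d ∣ a n then selW s z d else 0) ^ 2

/-- Its sum over a window. -/
noncomputable def winSum (s : BoundingSieve) (z : ℕ) (a : ℕ → ℕ) (y H : ℕ) : ℝ :=
  ∑ n ∈ Ioc y (y + H), maj s z a n

/-- The number of `n ∈ (y, y + H]` with `n % m = r`. -/
def cls (m r y H : ℕ) : ℕ := ((Ioc y (y + H)).filter (fun n => n % m = r)).card

end Pool.Agent.H.MP_711652_nt.QW
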