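import Mathlib
import Pool.Agent.H.MP_711652_nt.BiLip
import Pool.Agent.H.MP_711652_nt.QW.Defs

set_option autoImplicit false

/-!
# From one scale to all larger scales
-/

namespace Pool.Agent.H.MP_711652_nt.QW

open Finset

/-- Points around which the set `E0` is sparse at all scales. -/
theorem sparse_max (E0 : Finset ℕ) (c : ℝ) (hc : 0 ≤ c) (N : ℕ) :
    ∃ E ⊆ range N, (E.card : ℝ) ≤ 2 * c * E0.card ∧ ∀ y < N, y ∉ E → ∀ a b : ℕ, a ≤ y → y ≤ b →
      b ≤ N → c * ((E0.filter (fun i => a ≤ i ∧ i < b)).card : ℝ) ≤ (b : ℝ) - a := by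
  classical
  set F : ℕ → ℝ := fun i => c * ((E0.filter (fun j => j < i)).card : ℝ) with hF
  have hmono : Monotone F := by
    intro i j hij
    have h1 : E0.filter (fun l => l < i) ⊆ E0.filter (fun l => l < j) := by
      intro l hl
      rw [mem_filter] at hl ⊢
      exact ⟨hl.1, by omega⟩
    have h2 : ((E0.filter (fun l => l < i)).card : ℝ) ≤ ((E0.filter (fun l => l < j)).card : ℝ) := by
      exact_mod_cast card_le_card h1
    exact mul_le_mul_of_nonneg_left h2 hc
  have hF0 : F N - F 0 ≤ c * E0.card := by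
    have h1 : F 0 = 0 := by
      rw [hF]
      simp
    have h2 : ((E0.filter (fun l => l < N)).card : ℝ) ≤ E0.card := by
      exact_mod_cast card_filter_le _ _
    rw [h1, sub_zero]
    exact mul_le_mul_of_nonneg_left h2 hc
  have hdiff : ∀ a b : ℕ, a ≤ b →
      c * ((E0.filter (fun i => a ≤ i ∧ i < b)).card : ℝ) = F b - F a := by
    intro a b hab
    have h1 : (E0.filter (fun i => i < a)).card + (E0.filter (fun i => a ≤ i ∧ i < b)).card =
        (E0.filter (fun i => i < b)).card := by
      rw [← card_union_of_disjoint]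
      · congr 1
        ext i
        simp only [mem_union, mem_filter]
        constructor
        · rintro (⟨h5, h6⟩ | ⟨h5, h6, h7⟩)
          · exact ⟨h5, by omega⟩
          · exact ⟨h5, h7⟩
        · rintro ⟨h5, h6⟩
          by_cases h7 : i < a
          · exact Or.inl ⟨h5, h7⟩
          · exact Or.inr ⟨h5, by omega, h6⟩
      · rw [disjoint_left]
        intro i hi hi'
        rw [mem_filter] at hi hi'
        omega
    have h2 : ((E0.filter (fun i => i < a)).card : ℝ) +
        ((E0.filter (fun i => a ≤ i ∧ i < b)).card : ℝ) =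
        ((E0.filter (fun i => i < b)).card : ℝ) := by exact_mod_cast h1
    rw [hF]
    simp only
    rw [← h2]
    ring
  set B1 := (range N).filter (fun k : ℕ => ∃ m : ℕ, k < m ∧ m ≤ N ∧ ((m : ℝ) - k) ≤ F m - F k)
    with hB1
  set B2 := (range N).filter (fun k : ℕ => ∃ m : ℕ, m < k ∧ ((k : ℝ) - m) ≤ F k - F m) with hB2
  have c1 : (B1.card : ℝ) ≤ c * E0.card :=
    (BiLip.rising_right F hmono N B1 (fun k hk => (mem_filter.1 hk).2)).trans hF0
  have c2 : (B2.card : ℝ) ≤ c * E0.card :=
    (BiLip.rising_left F hmono N B2 (filter_subset _ _) (fun k hk => (mem_filter.1 hk).2)).trans hF0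
  refine ⟨B1 ∪ B2, ?_, ?_, ?_⟩
  · intro k hk
    rw [mem_union, hB1, hB2, mem_filter, mem_filter] at hk
    rcases hk with h | h
    · exact h.1
    · exact h.1
  · have h1 : ((B1 ∪ B2).card : ℝ) ≤ B1.card + B2.card := by exact_mod_cast card_union_le _ _
    linarith
  · intro y hy hyE a b hay hyb hbN
    rw [mem_union, not_or] at hyE
    obtain ⟨n1, n2⟩ := hyE
    rw [hdiff a b (hay.trans hyb)]
    have h1 : F b - F y ≤ (b : ℝ) - y := by
      rcases hyb.eq_or_lt with h | h
      · rw [← h, sub_self, sub_self]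
      · by_contra hcon
        exact n1 (mem_filter.2 ⟨mem_range.2 hy, b, h, hbN, (not_le.1 hcon).le⟩)
    have h2 : F y - F a ≤ (y : ℝ) - a := by
      rcases hay.eq_or_lt with h | h
      · rw [h, sub_self, sub_self]
      · by_contra hcon
        exact n2 (mem_filter.2 ⟨mem_range.2 hy, a, h, (not_le.1 hcon).le⟩)
    linarith

/-- Each `n ∈ (u, v]` with `n ≥ H` lies in exactly `H` of the windows `(w, w + H]`. -/
theorem avg_windows (u v H : ℕ) (P : ℕ → Prop) [DecidablePred P] :
    H * ((Ioc u v).filter P).card ≤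
      H * H + ∑ w ∈ Ico (u + 1 - H) v, ((Ioc w (w + H)).filter P).card := by
  classical
  set A := (Ioc u v).filter P with hA
  set A1 := A.filter (fun n => n < H) with hA1
  set A2 := A.filter (fun n => ¬ n < H) with hA2
  have h1 : A1.card + A2.card = A.card := Finset.card_filter_add_card_filter_not _
  have h2 : A1.card ≤ H := by
    have : A1 ⊆ range H := by
      intro n hn
      rw [hA1, mem_filter] at hn
      exact mem_range.2 hn.2
    simpa using card_le_card this
  have h3 : H * A2.card ≤ ∑ w ∈ Ico (u + 1 - H) v, ((Ioc w (w + H)).filter P).card := by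
    have h4 : (A2.sigma (fun n => Ico (n - H) n)).card = H * A2.card := by
      rw [card_sigma, mul_comm, ← smul_eq_mul, ← sum_const]
      apply sum_congr rfl
      intro n hn
      rw [hA2, mem_filter] at hn
      rw [Nat.card_Ico]
      omega
    have h5 : ((Ico (u + 1 - H) v).sigma (fun w => (Ioc w (w + H)).filter P)).card =
        ∑ w ∈ Ico (u + 1 - H) v, ((Ioc w (w + H)).filter P).card := by
      rw [card_sigma]
    rw [← h4, ← h5]
    apply card_le_card_of_injOn (fun q => (⟨q.2, q.1⟩ : Sigma (fun _ : ℕ => ℕ)))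
    · intro q hq
      rw [mem_coe, mem_sigma, hA2, hA, mem_filter, mem_filter, mem_Ioc, mem_Ico] at hq
      rw [mem_coe, mem_sigma, mem_Ico, mem_filter, mem_Ioc]
      simp only
      obtain ⟨⟨⟨⟨g1, g2⟩, g3⟩, g4⟩, g5, g6⟩ := hq
      exact ⟨⟨by omega, by omega⟩, ⟨by omega, by omega⟩, g3⟩
    · intro q _ r _ hqr
      simp only [Sigma.mk.injEq, heq_eq_eq] at hqr
      exact Sigma.ext hqr.2 (heq_of_eq hqr.1)
  calc H * A.card = H * A1.card + H * A2.card := by rw [← h1, mul_add]
    _ ≤ _ := add_le_add (Nat.mul_le_mul_left H h2) h3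

end Pool.Agent.H.MP_711652_nt.QW
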