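import Mathlib
import Pool.Agent.H.MP_711652_nt.QW.Defs

set_option autoImplicit false

/-!
# The sieve problem for the primes
-/

namespace Pool.Agent.H.MP_711652_nt.QW

open Finset BoundingSieve

/-- `n ↦ 1 / n` as a monoid homomorphism. -/
noncomputable def invHom : ℕ →* ℝ where
  toFun := fun n => (n : ℝ)⁻¹
  map_one' := by simp
  map_mul' := fun m n => by push_cast; rw [mul_inv]

/-- The multiplicative function `∏_{p ∣ d} 1 / p`. -/
noncomputable def nu1 : ArithmeticFunction ℝ :=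
  ArithmeticFunction.prodPrimeFactors (fun p => 1 / p)

lemma nu1_apply {d : ℕ} (hd : d ≠ 0) : nu1 d = ∏ p ∈ d.primeFactors, (1 / (p : ℝ)) := by
  unfold nu1
  rw [ArithmeticFunction.prodPrimeFactors_apply hd]

lemma nu1_mult : nu1.IsMultiplicative := by
  unfold nu1
  exact ArithmeticFunction.IsMultiplicative.prodPrimeFactors _

lemma nu1_prime {p : ℕ} (hp : p.Prime) : nu1 p = 1 / p := by
  rw [nu1_apply hp.ne_zero, hp.primeFactors, prod_singleton]

lemma nu1_squarefree {d : ℕ} (hd : Squarefree d) : nu1 d = 1 / d := by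
  rw [nu1_apply hd.ne_zero, prod_div_distrib, prod_const_one, ← Nat.cast_prod,
    Nat.prod_primeFactors_of_squarefree hd]

/-- The sieve problem for the primes, sieving by the primes `≤ z`. -/
noncomputable def sieve1 (z : ℕ) : BoundingSieve where
  support := ∅
  prodPrimes := Pz 1 z
  prodPrimes_squarefree := Pz_squarefree 1 z
  weights := fun _ => 1
  weights_nonneg := fun _ => zero_le_one
  totalMass := 0
  nu := nu1
  nu_mult := nu1_mult
  nu_pos_of_prime := by
    intro p hp _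
    rw [nu1_prime hp]
    have : (0 : ℝ) < p := by exact_mod_cast hp.pos
    positivity
  nu_lt_one_of_prime := by
    intro p hp _
    rw [nu1_prime hp]
    have : (1 : ℝ) < p := by exact_mod_cast hp.one_lt
    rw [div_lt_one (by linarith)]
    exact this

lemma adm1 (z : ℕ) : Adm (sieve1 z) (fun n => n) := by
  refine ⟨?_, ?_, ?_, ?_⟩
  · intro m _ n
    show m ∣ n % m ↔ m ∣ n
    rw [Nat.dvd_mod_iff dvd_rfl]
  · intro m hm
    change m ∣ Pz 1 z at hm
    have hsq : Squarefree m := (Pz_squarefree 1 z).squarefree_of_dvd hm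
    have hm0 : 0 < m := Nat.pos_of_ne_zero hsq.ne_zero
    have h1 : (range m).filter (fun r => m ∣ r) = {0} := by
      ext r
      rw [mem_filter, mem_range, mem_singleton]
      constructor
      · rintro ⟨h1, h2⟩
        exact Nat.eq_zero_of_dvd_of_lt h2 h1
      · rintro rfl
        exact ⟨hm0, dvd_zero _⟩
    rw [h1, card_singleton]
    change ((1 : ℕ) : ℝ) = m * nu1 m
    rw [nu1_squarefree hsq]
    have : (m : ℝ) ≠ 0 := by exact_mod_cast hm0.ne'
    field_simp
    norm_num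
  · intro m hm
    change m ∣ Pz 1 z at hm
    have hsq : Squarefree m := (Pz_squarefree 1 z).squarefree_of_dvd hm
    change (m : ℝ) * nu1 m ≤ _
    rw [nu1_squarefree hsq]
    have : (m : ℝ) ≠ 0 := by exact_mod_cast hsq.ne_zero
    have h1 : (m : ℝ) * (1 / m) = 1 := by field_simp
    rw [h1]
    exact one_le_pow₀ (by norm_num)
  · intro p hp _
    change (1 - nu1 p)⁻¹ ≤ 3
    rw [nu1_prime hp]
    have hp2 : (2 : ℝ) ≤ p := by exact_mod_cast hp.two_le
    have h1 : (1 : ℝ) / p ≤ 1 / 2 := one_div_le_one_div_of_le (by norm_num) hp2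
    have h2 : (1 / 2 : ℝ) ≤ 1 - 1 / p := by linarith
    calc (1 - 1 / (p : ℝ))⁻¹ ≤ (1 / 2 : ℝ)⁻¹ := inv_anti₀ (by norm_num) h2
      _ ≤ 3 := by norm_num

/-- `∑_{rad n = l} 1 / n ≤ (1 / l) ∏ (1 - 1 / p)⁻¹`. -/
lemma sum_rad1_le (z l : ℕ) (hl : Squarefree l) :
    ∑ n ∈ (Icc 1 z).filter (fun n => n.primeFactors = l.primeFactors), (n : ℝ)⁻¹ ≤
      (l : ℝ)⁻¹ * ∏ p ∈ l.primeFactors, (1 - (p : ℝ)⁻¹)⁻¹ := by
  have hl0 : l ≠ 0 := hl.ne_zero
  have hlt : ∀ {p : ℕ}, p.Prime → ‖invHom p‖ < 1 := by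
    intro p hp
    change ‖(p : ℝ)⁻¹‖ < 1
    rw [Real.norm_of_nonneg (by positivity)]
    exact inv_lt_one_of_one_lt₀ (by exact_mod_cast hp.one_lt)
  have hs := (EulerProduct.summable_and_hasSum_factoredNumbers_prod_filter_prime_geometric
    (f := invHom) hlt l.primeFactors).2
  have hfilter : l.primeFactors.filter (fun p => p.Prime) = l.primeFactors := by
    apply filter_true_of_mem
    intro p hp
    exact Nat.prime_of_mem_primeFactors hp
  rw [hfilter] at hs
  have hs2 : HasSum ((Nat.factoredNumbers l.primeFactors).indicator (fun n : ℕ => (n : ℝ)⁻¹))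
      (∏ p ∈ l.primeFactors, (1 - (p : ℝ)⁻¹)⁻¹) := by
    rw [← hasSum_subtype_iff_indicator]
    exact hs
  set T := (Icc 1 z).filter (fun n => n.primeFactors = l.primeFactors) with hT
  have hmem : ∀ n ∈ T, n ≠ 0 ∧ n.primeFactors = l.primeFactors := by
    intro n hn
    rw [hT, mem_filter, mem_Icc] at hn
    exact ⟨by omega, hn.2⟩
  have hldvd : ∀ n ∈ T, l ∣ n := by
    intro n hn
    obtain ⟨-, h2⟩ := hmem n hn
    rw [← Nat.prod_primeFactors_of_squarefree hl, ← h2]
    exact Nat.prod_primeFactors_dvd n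
  have h1 : ∑ n ∈ T, (n : ℝ)⁻¹ = (l : ℝ)⁻¹ * ∑ m ∈ T.image (fun n => n / l), (m : ℝ)⁻¹ := by
    rw [sum_image, mul_sum]
    · apply sum_congr rfl
      intro n hn
      obtain ⟨k, hk⟩ := hldvd n hn
      rw [hk, Nat.mul_div_cancel_left _ (Nat.pos_of_ne_zero hl0)]
      push_cast
      rw [mul_inv]
    · intro a ha b hb hab
      obtain ⟨k, hk⟩ := hldvd a ha
      obtain ⟨j, hj⟩ := hldvd b hb
      simp only [hk, hj, Nat.mul_div_cancel_left _ (Nat.pos_of_ne_zero hl0)] at hab
      rw [hk, hj, hab]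
  rw [h1]
  apply mul_le_mul_of_nonneg_left _ (by positivity)
  have h2 : ∑ m ∈ T.image (fun n => n / l), (m : ℝ)⁻¹ =
      ∑ m ∈ T.image (fun n => n / l),
        (Nat.factoredNumbers l.primeFactors).indicator (fun n : ℕ => (n : ℝ)⁻¹) m := by
    apply sum_congr rfl
    intro m hm
    rw [mem_image] at hm
    obtain ⟨n, hn, rfl⟩ := hm
    obtain ⟨hn0, hn2⟩ := hmem n hn
    obtain ⟨k, hk⟩ := hldvd n hn
    rw [hk, Nat.mul_div_cancel_left _ (Nat.pos_of_ne_zero hl0)]
    rw [Set.indicator_of_mem]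
    rw [Nat.mem_factoredNumbers_iff_primeFactors_subset]
    have hk0 : k ≠ 0 := by rintro rfl; apply hn0; rw [hk, mul_zero]
    refine ⟨hk0, ?_⟩
    rw [← hn2, hk]
    exact Nat.primeFactors_mono (dvd_mul_left _ _) (mul_ne_zero hl0 hk0)
  rw [h2]
  exact sum_le_hasSum _ (fun i _ => Set.indicator_nonneg (fun x _ => by positivity) i) hs2

/-- Lower bound for the Selberg sum. -/
theorem log_le_Gsum1 (z : ℕ) (hz : 1 ≤ z) : Real.log z ≤ Gsum (sieve1 z) z := by
  refine (harm_ge z hz).trans ?_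
  have h0 : Gsum (sieve1 z) z = ∑ l ∈ (Pz 1 z).divisors with l ≤ z,
      (l : ℝ)⁻¹ * ∏ p ∈ l.primeFactors, (1 - (p : ℝ)⁻¹)⁻¹ := by
    unfold Gsum
    apply sum_congr rfl
    intro l hl
    rw [mem_filter, Nat.mem_divisors] at hl
    have hlP : l ∣ Pz 1 z := hl.1.1
    rw [selbergTerms_apply]
    change nu1 l * ∏ p ∈ l.primeFactors, (1 - nu1 p)⁻¹ = _
    have hsq : Squarefree l := (Pz_squarefree 1 _).squarefree_of_dvd hlP
    rw [nu1_squarefree hsq, one_div]
    congr 1
    apply prod_congr rfl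
    intro p hp
    rw [nu1_prime (Nat.prime_of_mem_primeFactors hp), one_div]
  rw [h0]
  have hmaps : ∀ n ∈ Icc 1 z,
      (∏ p ∈ n.primeFactors, p) ∈ (Pz 1 z).divisors.filter (fun l => l ≤ z) := by
    intro n hn
    rw [mem_Icc] at hn
    rw [mem_filter, Nat.mem_divisors]
    refine ⟨⟨?_, (Pz_squarefree 1 z).ne_zero⟩, ?_⟩
    · unfold Pz
      apply prod_dvd_prod_of_subset
      intro p hp
      have hpp := Nat.prime_of_mem_primeFactors hp
      have hpd := Nat.dvd_of_mem_primeFactors hp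
      rw [mem_filter, mem_range]
      have := Nat.le_of_dvd (by omega) hpd
      refine ⟨by omega, hpp, ?_⟩
      intro hph
      exact hpp.one_lt.ne' (Nat.dvd_one.1 hph)
    · exact (Nat.le_of_dvd (by omega) (Nat.prod_primeFactors_dvd n)).trans hn.2
  rw [← sum_fiberwise_of_maps_to hmaps]
  apply sum_le_sum
  intro l hl
  rw [mem_filter, Nat.mem_divisors] at hl
  have hlsq : Squarefree l := (Pz_squarefree 1 z).squarefree_of_dvd hl.1.1
  refine le_trans ?_ (sum_rad1_le z l hlsq)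
  have h1 : ∀ n ∈ (Icc 1 z).filter (fun n => ∏ p ∈ n.primeFactors, p = l),
      (1 : ℝ) / n = (n : ℝ)⁻¹ := fun n _ => one_div _
  rw [sum_congr rfl h1]
  apply sum_le_sum_of_subset_of_nonneg
  · intro n hn
    rw [mem_filter] at hn
    rw [mem_filter]
    refine ⟨hn.1, ?_⟩
    rw [← hn.2]
    symm
    apply Nat.primeFactors_prod
    intro p hp
    exact Nat.prime_of_mem_primeFactors hp
  · intro n _ _
    positivity

/-- A prime larger than `z` is coprime to the sifting primes. -/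
lemma coprime_Pz {z p : ℕ} (hp : p.Prime) (hpz : z < p) : Nat.Coprime (Pz 1 z) p := by
  apply Nat.coprime_of_dvd
  intro q hq hqP hqp
  have h1 := ((prime_dvd_Pz hq).1 hqP).1
  have h2 := (Nat.prime_dvd_prime_iff_eq hq hp).1 hqp
  omega

end Pool.Agent.H.MP_711652_nt.QW
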