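import Mathlib
import Pool.Agent.H.MP_711652_nt.Selberg

set_option autoImplicit false

namespace Pool.Agent.H.MP_711652_nt.QW

open Finset BoundingSieve Pool.Agent.H.MP_711652_nt
open scoped ArithmeticFunction.Moebius

variable {s : BoundingSieve} {z : ℕ}

/-- `G(z) ≥ (∑_{k ∣ d} g(k)) * ∑_{m ∣ P, (m, d) = 1, d m ≤ z} g(m)`. -/
lemma Gsum_ge_mul {d : ℕ} (hd : d ∣ s.prodPrimes) :
    (s.selbergTerms d * (s.nu d)⁻¹) *
      ∑ m ∈ s.prodPrimes.divisors with m.Coprime d ∧ d * m ≤ z, s.selbergTerms m ≤ Gsum s z := by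
  have hd0 : 0 < d := Nat.pos_of_ne_zero (ne_zero_of_dvd_ne_zero prodPrimes_ne_zero hd)
  have hsq : Squarefree s.prodPrimes := s.prodPrimes_squarefree
  rw [← sum_divisors_selbergTerms_eq_selbergTerms_mul_nu_inv hd, ← sum_filter, sum_mul_sum,
    ← sum_product']
  unfold Gsum
  set A := (s.prodPrimes.divisors.filter (fun l => l ∣ d)) ×ˢ
    (s.prodPrimes.divisors.filter (fun m => m.Coprime d ∧ d * m ≤ z)) with hA
  have hmem : ∀ x ∈ A, x.1 ∣ d ∧ x.2 ∣ s.prodPrimes ∧ x.2.Coprime d ∧ d * x.2 ≤ z := by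
    intro x hx
    rw [hA, mem_product, mem_filter, mem_filter, mem_div, mem_div] at hx
    exact ⟨hx.1.2, hx.2.1, hx.2.2.1, hx.2.2.2⟩
  have hterm : ∀ x ∈ A, s.selbergTerms x.1 * s.selbergTerms x.2 = s.selbergTerms (x.1 * x.2) := by
    intro x hx
    obtain ⟨h1, -, h3, -⟩ := hmem x hx
    rw [selbergTerms_isMultiplicative.map_mul_of_coprime]
    exact (Nat.Coprime.coprime_dvd_right h1 h3).symm
  rw [sum_congr rfl hterm]
  have hinj : Set.InjOn (fun x : ℕ × ℕ => x.1 * x.2) (A : Set (ℕ × ℕ)) := by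
    intro x hx y hy hxy
    obtain ⟨h1, h2, h3, -⟩ := hmem x hx
    obtain ⟨g1, g2, g3, -⟩ := hmem y hy
    simp only at hxy
    have e1 : Nat.gcd (x.1 * x.2) d = x.1 := by
      rw [Nat.Coprime.gcd_mul_right_cancel _ h3]
      exact Nat.gcd_eq_left h1
    have e2 : Nat.gcd (y.1 * y.2) d = y.1 := by
      rw [Nat.Coprime.gcd_mul_right_cancel _ g3]
      exact Nat.gcd_eq_left g1
    have e3 : x.1 = y.1 := by rw [← e1, ← e2, hxy]
    have hx0 : 0 < x.1 := Nat.pos_of_dvd_of_pos h1 hd0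
    rw [e3] at hxy hx0
    exact Prod.ext e3 (Nat.eq_of_mul_eq_mul_left hx0 hxy)
  rw [← sum_image (f := fun l => s.selbergTerms l) hinj]
  apply sum_le_sum_of_subset_of_nonneg
  · intro l hl
    rw [mem_image] at hl
    obtain ⟨x, hx, rfl⟩ := hl
    obtain ⟨h1, h2, h3, h4⟩ := hmem x hx
    rw [mem_filter, mem_div]
    constructor
    · apply Nat.Coprime.mul_dvd_of_dvd_of_dvd _ (h1.trans hd) h2
      exact (Nat.Coprime.coprime_dvd_right h1 h3).symm
    · exact (Nat.mul_le_mul_right _ (Nat.le_of_dvd hd0 h1)).trans h4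
  · intro l hl _
    rw [mem_filter, mem_div] at hl
    exact (selbergTerms_pos hl.1).le

/-- The sum over the multiples of `d`. -/
lemma sum_multiples {d : ℕ} (hd : d ∣ s.prodPrimes) :
    (∑ l ∈ s.prodPrimes.divisors with l ≤ z, (if d ∣ l then s.selbergTerms l else 0)) =
      s.selbergTerms d *
        ∑ m ∈ s.prodPrimes.divisors with m.Coprime d ∧ d * m ≤ z, s.selbergTerms m := by
  have hd0 : 0 < d := Nat.pos_of_ne_zero (ne_zero_of_dvd_ne_zero prodPrimes_ne_zero hd)
  rw [← sum_filter, filter_filter, mul_sum]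
  have h1 : s.prodPrimes.divisors.filter (fun l => l ≤ z ∧ d ∣ l) =
      (s.prodPrimes.divisors.filter (fun m => m.Coprime d ∧ d * m ≤ z)).image (fun m => d * m) := by
    ext l
    rw [mem_filter, mem_image, mem_div]
    constructor
    · rintro ⟨h1, h2, ⟨m, rfl⟩⟩
      refine ⟨m, ?_, rfl⟩
      rw [mem_filter, mem_div]
      exact ⟨(dvd_mul_left m d).trans h1,
        (Nat.coprime_of_squarefree_mul (s.prodPrimes_squarefree.squarefree_of_dvd h1)).symm, h2⟩
    · rintro ⟨m, hm, rfl⟩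
      rw [mem_filter, mem_div] at hm
      exact ⟨Nat.Coprime.mul_dvd_of_dvd_of_dvd hm.2.1.symm hd hm.1, hm.2.2, dvd_mul_right _ _⟩
  rw [h1, sum_image (by
    intro a _ b _ hab
    exact Nat.eq_of_mul_eq_mul_left hd0 hab)]
  apply sum_congr rfl
  intro m hm
  rw [mem_filter] at hm
  exact selbergTerms_isMultiplicative.map_mul_of_coprime hm.2.1.symm

/-- The Selberg weights are bounded by `1`. -/
theorem abs_selW_le_one (hz : 1 ≤ z) (d : ℕ) : |selW s z d| ≤ 1 := by
  unfold selW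
  by_cases hd : d ∣ s.prodPrimes
  · rw [if_pos hd, sum_multiples hd]
    have hG := Gsum_pos (s := s) hz
    have hG1 := Gsum_ge_mul (s := s) (z := z) hd
    have hT : 0 ≤ ∑ m ∈ s.prodPrimes.divisors with m.Coprime d ∧ d * m ≤ z, s.selbergTerms m := by
      apply sum_nonneg
      intro m hm
      rw [mem_filter, mem_div] at hm
      exact (selbergTerms_pos hm.1).le
    have hnu : 0 < (s.nu d)⁻¹ := inv_pos.2 (nu_pos_of_dvd_prodPrimes hd)
    have hg : 0 < s.selbergTerms d := selbergTerms_pos hd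
    have hmu : |((μ d : ℤ) : ℝ)| ≤ 1 := by
      have := ArithmeticFunction.abs_moebius_le_one (n := d)
      exact_mod_cast this
    set T := ∑ m ∈ s.prodPrimes.divisors with m.Coprime d ∧ d * m ≤ z, s.selbergTerms m with hTdef
    have e : ((μ d : ℤ) : ℝ) * (s.nu d)⁻¹ * (Gsum s z)⁻¹ * (s.selbergTerms d * T) =
        ((μ d : ℤ) : ℝ) * ((Gsum s z)⁻¹ * (s.selbergTerms d * (s.nu d)⁻¹ * T)) := by ring
    rw [e, abs_mul]
    have h1 : |(Gsum s z)⁻¹ * (s.selbergTerms d * (s.nu d)⁻¹ * T)| ≤ 1 := by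
      rw [abs_of_nonneg (by positivity), inv_mul_le_iff₀ hG, mul_one]
      exact hG1
    calc _ ≤ (1 : ℝ) * 1 := mul_le_mul hmu h1 (abs_nonneg _) (by norm_num)
      _ = 1 := one_mul 1
  · rw [if_neg hd]
    simp

/-- The Selberg weights vanish above `z`. -/
lemma selW_eq_zero {d : ℕ} (hd : z < d) : selW s z d = 0 := by
  unfold selW
  split_ifs with h
  · have : (∑ l ∈ s.prodPrimes.divisors with l ≤ z, (if d ∣ l then s.selbergTerms l else 0)) = 0 := by
      apply sum_eq_zero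
      intro l hl
      rw [mem_filter, mem_div] at hl
      rw [if_neg]
      intro hdl
      have hl0 : 0 < l := Nat.pos_of_ne_zero (ne_zero_of_dvd_ne_zero prodPrimes_ne_zero hl.1)
      have := (Nat.le_of_dvd hl0 hdl).trans hl.2
      omega
    rw [this, mul_zero]
  · rfl

end Pool.Agent.H.MP_711652_nt.QW
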