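import Mathlib

set_option autoImplicit false

namespace Pool.Agent.H.MP_711652_nt.QW

open Finset

/-- Indicator of `q ∣ y + c`. -/
noncomputable def ind (q : ℕ) (c : ℤ) (y : ℕ) : ℝ := if (q : ℤ) ∣ (y : ℤ) + c then 1 else 0

lemma ind_nonneg (q : ℕ) (c : ℤ) (y : ℕ) : 0 ≤ ind q c y := by
  unfold ind; split_ifs <;> norm_num

lemma sum_ind (q : ℕ) (hq : 0 < q) (c : ℤ) (N : ℕ) :
    |(∑ y ∈ range N, ind q c y) - (N : ℝ) / q| ≤ 1 := by
  unfold ind
  rw [← sum_filter, sum_const, nsmul_eq_mul, mul_one]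
  have hq' : (q : ℤ) ≠ 0 := by exact_mod_cast hq.ne'
  obtain ⟨v, hv⟩ : ∃ v : ℕ, (q : ℤ) ∣ (v : ℤ) + c := by
    refine ⟨((-c) % q).toNat, ?_⟩
    rw [Int.toNat_of_nonneg (Int.emod_nonneg _ hq')]
    have h1 : (-c) % (q : ℤ) + c = (-c) - q * ((-c) / q) + c := by
      rw [Int.emod_def]
    rw [h1]
    exact ⟨-((-c) / q), by ring⟩
  have hfib : (range N).filter (fun y : ℕ => (q : ℤ) ∣ (y : ℤ) + c) =
      (range N).filter (fun n : ℕ => n ≡ v [MOD q]) := by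
    apply filter_congr
    intro y _
    rw [← Int.natCast_modEq_iff, Int.modEq_comm, Int.modEq_iff_dvd]
    constructor
    · intro h
      have := dvd_sub h hv
      have h2 : (y : ℤ) + c - (v + c) = y - v := by ring
      rwa [h2] at this
    · intro h
      have := dvd_add h hv
      have h2 : (y : ℤ) - v + (v + c) = y + c := by ring
      rwa [h2] at this
  rw [hfib, ← Nat.count_eq_card_filter_range, Nat.count_modEq_card N hq v]
  have h1 : ((N / q : ℕ) : ℝ) ≤ (N : ℝ) / q := Nat.cast_div_le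
  have h2 : (N : ℝ) / q < ((N / q : ℕ) : ℝ) + 1 := by
    rw [div_lt_iff₀ (by exact_mod_cast hq)]
    have := Nat.lt_div_mul_add (a := N) (b := q) hq
    have h3 : N < (N / q) * q + q := this
    have h4 : (N : ℝ) < ((N / q : ℕ) : ℝ) * q + q := by exact_mod_cast h3
    linarith
  rw [abs_le]
  split_ifs <;> push_cast <;> constructor <;> linarith

lemma crt (q1 q2 : ℕ) (c1 c2 : ℤ) (h : ((Nat.gcd q1 q2 : ℕ) : ℤ) ∣ c1 - c2) :
    ∃ c : ℤ, ∀ y : ℤ, ((q1 : ℤ) ∣ y + c1 ∧ (q2 : ℤ) ∣ y + c2) ↔ ((Nat.lcm q1 q2 : ℕ) : ℤ) ∣ y + c := by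
  obtain ⟨t, ht⟩ := h
  have hb := Nat.gcd_eq_gcd_ab q1 q2
  set u := Nat.gcdA q1 q2
  set v := Nat.gcdB q1 q2
  refine ⟨c1 - q1 * u * t, fun y => ?_⟩
  have hc : c1 - q1 * u * t = c2 + q2 * v * t := by
    rw [hb] at ht
    linarith
  have e1 : ((q1 : ℤ) ∣ y + c1) ↔ (q1 : ℤ) ∣ y + (c1 - q1 * u * t) := by
    have : y + (c1 - q1 * u * t) = (y + c1) + q1 * (-(u * t)) := by ring
    rw [this]
    exact (dvd_add_left (dvd_mul_right _ _)).symm
  have e2 : ((q2 : ℤ) ∣ y + c2) ↔ (q2 : ℤ) ∣ y + (c1 - q1 * u * t) := by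
    rw [hc]
    have : y + (c2 + q2 * v * t) = (y + c2) + q2 * (v * t) := by ring
    rw [this]
    exact (dvd_add_left (dvd_mul_right _ _)).symm
  rw [e1, e2]
  constructor
  · rintro ⟨h1, h2⟩
    have := Int.natAbs_dvd_natAbs.2 h1
    have := Int.natAbs_dvd_natAbs.2 h2
    rw [← Int.natAbs_dvd_natAbs]
    simp only [Int.natAbs_natCast] at *
    exact Nat.lcm_dvd ‹_› ‹_›
  · intro h
    exact ⟨(Int.natCast_dvd_natCast.2 (Nat.dvd_lcm_left q1 q2)).trans h,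
      (Int.natCast_dvd_natCast.2 (Nat.dvd_lcm_right q1 q2)).trans h⟩

lemma sum_ind_mul (q1 q2 : ℕ) (h1 : 0 < q1) (h2 : 0 < q2) (c1 c2 : ℤ) (N : ℕ) :
    |(∑ y ∈ range N, ind q1 c1 y * ind q2 c2 y) -
      (N : ℝ) / (Nat.lcm q1 q2 : ℕ) * (if ((Nat.gcd q1 q2 : ℕ) : ℤ) ∣ c1 - c2 then 1 else 0)| ≤
      (if ((Nat.gcd q1 q2 : ℕ) : ℤ) ∣ c1 - c2 then 1 else 0) := by
  by_cases hg : ((Nat.gcd q1 q2 : ℕ) : ℤ) ∣ c1 - c2
  · rw [if_pos hg, mul_one]
    obtain ⟨c, hc⟩ := crt q1 q2 c1 c2 hg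
    have h3 : ∀ y : ℕ, ind q1 c1 y * ind q2 c2 y = ind (Nat.lcm q1 q2) c y := by
      intro y
      unfold ind
      have := hc y
      by_cases ha : (q1 : ℤ) ∣ (y : ℤ) + c1
      · by_cases hb : (q2 : ℤ) ∣ (y : ℤ) + c2
        · rw [if_pos ha, if_pos hb, if_pos (this.1 ⟨ha, hb⟩), one_mul]
        · rw [if_pos ha, if_neg hb, if_neg (fun h => hb (this.2 h).2), mul_zero]
      · rw [if_neg ha, if_neg (fun h => ha (this.2 h).1), zero_mul]
    simp only [h3]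
    exact sum_ind _ (Nat.lcm_pos h1 h2) c N
  · rw [if_neg hg, mul_zero, sub_zero]
    have h3 : ∀ y ∈ range N, ind q1 c1 y * ind q2 c2 y = 0 := by
      intro y _
      unfold ind
      by_cases ha : (q1 : ℤ) ∣ (y : ℤ) + c1
      · by_cases hb : (q2 : ℤ) ∣ (y : ℤ) + c2
        · exfalso
          apply hg
          have g1 : ((Nat.gcd q1 q2 : ℕ) : ℤ) ∣ (y : ℤ) + c1 :=
            (Int.natCast_dvd_natCast.2 (Nat.gcd_dvd_left q1 q2)).trans ha
          have g2 : ((Nat.gcd q1 q2 : ℕ) : ℤ) ∣ (y : ℤ) + c2 :=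
            (Int.natCast_dvd_natCast.2 (Nat.gcd_dvd_right q1 q2)).trans hb
          have := dvd_sub g1 g2
          have e : (y : ℤ) + c1 - (y + c2) = c1 - c2 := by ring
          rwa [e] at this
        · rw [if_neg hb, mul_zero]
      · rw [if_neg ha, zero_mul]
    rw [sum_eq_zero h3, abs_zero]

/-- Covariance of the counting functions of two residue classes in short intervals. -/
lemma cov_bound (q1 q2 : ℕ) (h1 : 0 < q1) (h2 : 0 < q2) (c1 c2 : ℤ) (X H : ℕ) :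
    |∑ y ∈ range X, ((∑ i ∈ range H, ind q1 (c1 + i) y) - (H : ℝ) / q1) *
      ((∑ j ∈ range H, ind q2 (c2 + j) y) - (H : ℝ) / q2)| ≤
      (X : ℝ) * H * (Nat.gcd q1 q2 : ℕ) / (q1 * q2) + 3 * (H : ℝ) ^ 2 := by
  set g := Nat.gcd q1 q2 with hg
  have hg0 : 0 < g := Nat.gcd_pos_of_pos_left _ h1
  have q1pos : (0 : ℝ) < q1 := by exact_mod_cast h1
  have q2pos : (0 : ℝ) < q2 := by exact_mod_cast h2
  have q1one : (1 : ℝ) ≤ q1 := by exact_mod_cast h1
  have q2one : (1 : ℝ) ≤ q2 := by exact_mod_cast h2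
  have gpos : (0 : ℝ) < g := by exact_mod_cast hg0
  have hH0 : (0 : ℝ) ≤ H := Nat.cast_nonneg H
  have hX0 : (0 : ℝ) ≤ X := Nat.cast_nonneg X
  set e : ℕ → ℕ → ℝ := fun i j => if (g : ℤ) ∣ (c1 + i) - (c2 + j) then 1 else 0 with he
  -- the number of compatible pairs
  have hK : |(∑ i ∈ range H, ∑ j ∈ range H, e i j) - (H : ℝ) ^ 2 / g| ≤ H := by
    have h3 : ∀ i ∈ range H, |(∑ j ∈ range H, e i j) - (H : ℝ) / g| ≤ 1 := by
      intro i _
      have h4 : ∀ j : ℕ, e i j = ind g (c2 - c1 - i) j := by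
        intro j
        rw [he]
        unfold ind
        have : ((g : ℤ) ∣ (c1 + i) - (c2 + j)) ↔ (g : ℤ) ∣ (j : ℤ) + (c2 - c1 - i) := by
          rw [← dvd_neg]
          have e1 : -((c1 + (i : ℤ)) - (c2 + j)) = (j : ℤ) + (c2 - c1 - i) := by ring
          rw [e1]
        simp only [this]
      simp only [h4]
      exact sum_ind g hg0 _ H
    have h5 : (∑ i ∈ range H, ∑ j ∈ range H, e i j) - (H : ℝ) ^ 2 / g =
        ∑ i ∈ range H, ((∑ j ∈ range H, e i j) - (H : ℝ) / g) := by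
      rw [sum_sub_distrib, sum_const, card_range, nsmul_eq_mul]
      ring
    rw [h5]
    calc _ ≤ ∑ i ∈ range H, |(∑ j ∈ range H, e i j) - (H : ℝ) / g| := abs_sum_le_sum_abs _ _
      _ ≤ ∑ i ∈ range H, (1 : ℝ) := sum_le_sum h3
      _ = H := by simp
  set K := ∑ i ∈ range H, ∑ j ∈ range H, e i j with hKd
  have hK2 : K ≤ (H : ℝ) ^ 2 := by
    calc K ≤ ∑ i ∈ range H, ∑ j ∈ range H, (1 : ℝ) := by
          apply sum_le_sum; intro i _; apply sum_le_sum; intro j _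
          rw [he]; simp only; split_ifs <;> norm_num
      _ = (H : ℝ) ^ 2 := by simp [sq]
  -- second moment
  set S12 := ∑ y ∈ range X, (∑ i ∈ range H, ind q1 (c1 + i) y) * (∑ j ∈ range H, ind q2 (c2 + j) y)
    with hS12
  set S1 := ∑ y ∈ range X, ∑ i ∈ range H, ind q1 (c1 + i) y with hS1
  set S2 := ∑ y ∈ range X, ∑ j ∈ range H, ind q2 (c2 + j) y with hS2
  have hs12 : |S12 - (X : ℝ) / (Nat.lcm q1 q2 : ℕ) * K| ≤ K := by
    have e1 : S12 = ∑ i ∈ range H, ∑ j ∈ range H, ∑ y ∈ range X,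
        ind q1 (c1 + i) y * ind q2 (c2 + j) y := by
      rw [hS12]
      simp only [sum_mul_sum]
      rw [sum_comm]
      apply sum_congr rfl
      intro i _
      rw [sum_comm]
    have e2 : S12 - (X : ℝ) / (Nat.lcm q1 q2 : ℕ) * K = ∑ i ∈ range H, ∑ j ∈ range H,
        ((∑ y ∈ range X, ind q1 (c1 + i) y * ind q2 (c2 + j) y) -
          (X : ℝ) / (Nat.lcm q1 q2 : ℕ) * e i j) := by
      rw [e1, hKd, mul_sum, ← sum_sub_distrib]
      apply sum_congr rfl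
      intro i _
      rw [mul_sum, ← sum_sub_distrib]
    rw [e2]
    refine (abs_sum_le_sum_abs _ _).trans ?_
    rw [hKd]
    apply sum_le_sum
    intro i _
    refine (abs_sum_le_sum_abs _ _).trans ?_
    apply sum_le_sum
    intro j _
    exact sum_ind_mul q1 q2 h1 h2 (c1 + i) (c2 + j) X
  have hfirst : ∀ (q : ℕ) (hq : 0 < q) (c : ℤ),
      |(∑ y ∈ range X, ∑ i ∈ range H, ind q (c + i) y) - (X : ℝ) * H / q| ≤ H := by
    intro q hq c
    rw [sum_comm]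
    have e3 : (∑ i ∈ range H, ∑ y ∈ range X, ind q (c + i) y) - (X : ℝ) * H / q =
        ∑ i ∈ range H, ((∑ y ∈ range X, ind q (c + i) y) - (X : ℝ) / q) := by
      rw [sum_sub_distrib, sum_const, card_range, nsmul_eq_mul]
      ring
    rw [e3]
    calc _ ≤ ∑ i ∈ range H, |(∑ y ∈ range X, ind q (c + i) y) - (X : ℝ) / q| :=
          abs_sum_le_sum_abs _ _
      _ ≤ ∑ i ∈ range H, (1 : ℝ) := sum_le_sum (fun i _ => sum_ind q hq _ X)
      _ = H := by simp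
  have hs1 := hfirst q1 h1 c1
  have hs2 := hfirst q2 h2 c2
  rw [← hS1] at hs1
  rw [← hS2] at hs2
  have expand : ∑ y ∈ range X, ((∑ i ∈ range H, ind q1 (c1 + i) y) - (H : ℝ) / q1) *
      ((∑ j ∈ range H, ind q2 (c2 + j) y) - (H : ℝ) / q2) =
      S12 - (H : ℝ) / q1 * S2 - (H : ℝ) / q2 * S1 + X * ((H : ℝ) / q1 * ((H : ℝ) / q2)) := by
    rw [hS12, hS1, hS2, mul_sum, mul_sum, ← sum_sub_distrib, ← sum_sub_distrib]
    have : (X : ℝ) * ((H : ℝ) / q1 * ((H : ℝ) / q2)) =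
        ∑ y ∈ range X, ((H : ℝ) / q1 * ((H : ℝ) / q2)) := by simp
    rw [this, ← sum_add_distrib]
    apply sum_congr rfl
    intro y _
    ring
  rw [expand]
  have hlcm : ((Nat.lcm q1 q2 : ℕ) : ℝ) * g = q1 * q2 := by
    have := Nat.gcd_mul_lcm q1 q2
    have h7 : ((Nat.gcd q1 q2 : ℕ) : ℝ) * (Nat.lcm q1 q2 : ℕ) = q1 * q2 := by exact_mod_cast this
    rw [hg]; linarith
  have lpos : (0 : ℝ) < (Nat.lcm q1 q2 : ℕ) := by exact_mod_cast Nat.lcm_pos h1 h2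
  have hmain : |(X : ℝ) / (Nat.lcm q1 q2 : ℕ) * K - X * ((H : ℝ) / q1 * ((H : ℝ) / q2))| ≤
      (X : ℝ) * H * g / (q1 * q2) := by
    have e4 : (X : ℝ) / (Nat.lcm q1 q2 : ℕ) * K - X * ((H : ℝ) / q1 * ((H : ℝ) / q2)) =
        (X : ℝ) / (Nat.lcm q1 q2 : ℕ) * (K - (H : ℝ) ^ 2 / g) := by
      have : (H : ℝ) / q1 * ((H : ℝ) / q2) = (H : ℝ) ^ 2 / ((Nat.lcm q1 q2 : ℕ) * g) := by
        rw [hlcm]; field_simp
      rw [this]
      field_simp
    rw [e4, abs_mul, abs_of_nonneg (by positivity)]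
    calc (X : ℝ) / (Nat.lcm q1 q2 : ℕ) * |K - (H : ℝ) ^ 2 / g| ≤ (X : ℝ) / (Nat.lcm q1 q2 : ℕ) * H := by
          gcongr
      _ = (X : ℝ) * H * g / (q1 * q2) := by
          rw [← hlcm]; field_simp
  have hA : |(H : ℝ) / q1 * S2 - X * ((H : ℝ) / q1 * ((H : ℝ) / q2))| ≤ (H : ℝ) ^ 2 := by
    have e5 : (H : ℝ) / q1 * S2 - X * ((H : ℝ) / q1 * ((H : ℝ) / q2)) =
        (H : ℝ) / q1 * (S2 - (X : ℝ) * H / q2) := by ring
    rw [e5, abs_mul, abs_of_nonneg (by positivity)]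
    calc (H : ℝ) / q1 * |S2 - (X : ℝ) * H / q2| ≤ (H : ℝ) / q1 * H := by gcongr
      _ ≤ H * H := by
        apply mul_le_mul_of_nonneg_right _ hH0
        exact div_le_self hH0 q1one
      _ = (H : ℝ) ^ 2 := by ring
  have hB : |(H : ℝ) / q2 * S1 - X * ((H : ℝ) / q1 * ((H : ℝ) / q2))| ≤ (H : ℝ) ^ 2 := by
    have e5 : (H : ℝ) / q2 * S1 - X * ((H : ℝ) / q1 * ((H : ℝ) / q2)) =
        (H : ℝ) / q2 * (S1 - (X : ℝ) * H / q1) := by ring
    rw [e5, abs_mul, abs_of_nonneg (by positivity)]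
    calc (H : ℝ) / q2 * |S1 - (X : ℝ) * H / q1| ≤ (H : ℝ) / q2 * H := by gcongr
      _ ≤ H * H := by
        apply mul_le_mul_of_nonneg_right _ hH0
        exact div_le_self hH0 q2one
      _ = (H : ℝ) ^ 2 := by ring
  rw [abs_le] at *
  constructor <;> linarith [hs12.1, hs12.2, hmain.1, hmain.2, hA.1, hA.2, hB.1, hB.2]

/-- Variance of a sum of indicator functions of residue classes over short intervals. -/
theorem variance {ι : Type*} (s : Finset ι) (c : ι → ℝ) (q : ι → ℕ) (r : ι → ℤ)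
    (hq : ∀ k ∈ s, 0 < q k) (X H : ℕ) :
    ∑ y ∈ range X, ((∑ n ∈ Ioc y (y + H), ∑ k ∈ s, c k * (if (q k : ℤ) ∣ (n : ℤ) - r k then 1 else 0))
      - H * ∑ k ∈ s, c k / q k) ^ 2 ≤
    ∑ k ∈ s, ∑ l ∈ s, |c k| * |c l| *
      ((X : ℝ) * H * (Nat.gcd (q k) (q l) : ℕ) / (q k * q l) + 3 * (H : ℝ) ^ 2) := by
  have h1 : ∀ y : ℕ, (∑ n ∈ Ioc y (y + H), ∑ k ∈ s,
      c k * (if (q k : ℤ) ∣ (n : ℤ) - r k then 1 else 0)) - H * ∑ k ∈ s, c k / q k =
      ∑ k ∈ s, c k * ((∑ i ∈ range H, ind (q k) ((1 - r k) + i) y) - (H : ℝ) / q k) := by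
    intro y
    rw [sum_comm, mul_sum, ← sum_sub_distrib]
    apply sum_congr rfl
    intro k _
    rw [← mul_sum, mul_sub]
    congr 1
    · congr 1
      have : Ioc y (y + H) = (range H).image (fun i => y + 1 + i) := by
        ext n
        simp only [mem_Ioc, mem_image, mem_range]
        constructor
        · intro h
          exact ⟨n - (y + 1), by omega, by omega⟩
        · rintro ⟨i, hi, rfl⟩
          omega
      rw [this, sum_image (by intro a _ b _ h; simpa using h)]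
      apply sum_congr rfl
      intro i _
      unfold ind
      have e : ((y + 1 + i : ℕ) : ℤ) - r k = (y : ℤ) + ((1 - r k) + i) := by push_cast; ring
      rw [e]
    · ring
  simp only [h1, sq, sum_mul_sum]
  rw [sum_comm]
  apply sum_le_sum
  intro k hk
  rw [sum_comm]
  apply sum_le_sum
  intro l hl
  have h2 : ∑ y ∈ range X, c k * ((∑ i ∈ range H, ind (q k) ((1 - r k) + i) y) - (H : ℝ) / q k) *
      (c l * ((∑ i ∈ range H, ind (q l) ((1 - r l) + i) y) - (H : ℝ) / q l)) =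
      c k * c l * ∑ y ∈ range X, ((∑ i ∈ range H, ind (q k) ((1 - r k) + i) y) - (H : ℝ) / q k) *
        ((∑ i ∈ range H, ind (q l) ((1 - r l) + i) y) - (H : ℝ) / q l) := by
    rw [mul_sum]
    apply sum_congr rfl
    intro y _
    ring
  rw [h2]
  refine (le_abs_self _).trans ?_
  rw [abs_mul, abs_mul]
  have h3 := cov_bound (q k) (q l) (hq k hk) (hq l hl) (1 - r k) (1 - r l) X H
  rw [sq] at h3
  exact mul_le_mul_of_nonneg_left h3 (by positivity)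

end Pool.Agent.H.MP_711652_nt.QW
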