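import Mathlib
import Pool.Agent.H.MP_711652_nt.QW.Variance
import Pool.Agent.H.MP_711652_nt.QW.DivSums

set_option autoImplicit false

namespace Pool.Agent.H.MP_711652_nt.QW

open Finset

lemma fiber_sum (D : Finset ℕ) (z : ℕ) (hD : ∀ d ∈ D, 0 < d ∧ d ≤ z) (g : ℕ → ℝ)
    (hg : ∀ q, 0 ≤ g q) :
    ∑ p ∈ D ×ˢ D, g (Nat.lcm p.1 p.2) ≤
      ∑ q ∈ Icc 1 (z ^ 2), ((q.divisors.card : ℝ) ^ 2) * g q := by
  have hmaps : ∀ p ∈ D ×ˢ D, Nat.lcm p.1 p.2 ∈ Icc 1 (z ^ 2) := by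
    intro p hp
    rw [mem_product] at hp
    have h1 := hD p.1 hp.1
    have h2 := hD p.2 hp.2
    rw [mem_Icc]
    refine ⟨Nat.lcm_pos h1.1 h2.1, ?_⟩
    calc Nat.lcm p.1 p.2 ≤ p.1 * p.2 :=
          Nat.le_of_dvd (Nat.mul_pos h1.1 h2.1) (Nat.lcm_dvd_mul p.1 p.2)
      _ ≤ z * z := Nat.mul_le_mul h1.2 h2.2
      _ = z ^ 2 := (sq z).symm
  rw [← sum_fiberwise_of_maps_to hmaps]
  apply sum_le_sum
  intro q hq
  rw [mem_Icc] at hq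
  have h1 : ∑ p ∈ D ×ˢ D with Nat.lcm p.1 p.2 = q, g (Nat.lcm p.1 p.2) =
      (((D ×ˢ D).filter (fun p => Nat.lcm p.1 p.2 = q)).card : ℝ) * g q := by
    rw [← nsmul_eq_mul, ← sum_const]
    apply sum_congr rfl
    intro p hp
    rw [(mem_filter.1 hp).2]
  rw [h1]
  apply mul_le_mul_of_nonneg_right _ (hg q)
  have h2 : (D ×ˢ D).filter (fun p => Nat.lcm p.1 p.2 = q) ⊆ q.divisors ×ˢ q.divisors := by
    intro p hp
    rw [mem_filter] at hp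
    rw [mem_product, Nat.mem_divisors, Nat.mem_divisors, ← hp.2]
    have h0 : Nat.lcm p.1 p.2 ≠ 0 := by rw [hp.2]; omega
    exact ⟨⟨Nat.dvd_lcm_left _ _, h0⟩, ⟨Nat.dvd_lcm_right _ _, h0⟩⟩
  have h3 := card_le_card h2
  rw [card_product] at h3
  rw [sq]
  exact_mod_cast h3

/-- Variance over short intervals of the square of a divisor sum. -/
theorem var_sq (D : Finset ℕ) (z : ℕ) (hD : ∀ d ∈ D, 0 < d ∧ d ≤ z) (w : ℕ → ℝ)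
    (hw : ∀ d ∈ D, |w d| ≤ 1) (a : ℕ → ℕ) (R : ℕ → Finset ℤ)
    (hR : ∀ d1 ∈ D, ∀ d2 ∈ D, ∀ n : ℕ, (if Nat.lcm d1 d2 ∣ a n then (1 : ℝ) else 0) =
      ∑ r ∈ R (Nat.lcm d1 d2), (if ((Nat.lcm d1 d2 : ℕ) : ℤ) ∣ (n : ℤ) - r then (1 : ℝ) else 0))
    (hRc : ∀ d1 ∈ D, ∀ d2 ∈ D, (R (Nat.lcm d1 d2)).card ≤ (Nat.lcm d1 d2).divisors.card)
    (X H : ℕ) :
    ∑ y ∈ range X, ((∑ n ∈ Ioc y (y + H), (∑ d ∈ D with d ∣ a n, w d) ^ 2) -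
      H * ∑ p ∈ D ×ˢ D, w p.1 * w p.2 * ((R (Nat.lcm p.1 p.2)).card / (Nat.lcm p.1 p.2 : ℕ))) ^ 2 ≤
    (X : ℝ) * H * (1 + Real.log ((z ^ 2 : ℕ) : ℝ)) ^ 80 +
      3 * (H : ℝ) ^ 2 * (∑ p ∈ D ×ˢ D, ((R (Nat.lcm p.1 p.2)).card : ℝ)) ^ 2 := by
  classical
  set s : Finset (Σ _ : ℕ × ℕ, ℤ) := (D ×ˢ D).sigma (fun p => R (Nat.lcm p.1 p.2)) with hs
  set c : (Σ _ : ℕ × ℕ, ℤ) → ℝ := fun k => w k.1.1 * w k.1.2 with hc
  set q : (Σ _ : ℕ × ℕ, ℤ) → ℕ := fun k => Nat.lcm k.1.1 k.1.2 with hq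
  set r : (Σ _ : ℕ × ℕ, ℤ) → ℤ := fun k => k.2 with hr
  have hqpos : ∀ k ∈ s, 0 < q k := by
    intro k hk
    rw [hs, mem_sigma, mem_product] at hk
    exact Nat.lcm_pos (hD _ hk.1.1).1 (hD _ hk.1.2).1
  have hv := variance s c q r hqpos X H
  -- rewriting F
  have hF : ∀ n : ℕ, (∑ d ∈ D with d ∣ a n, w d) ^ 2 =
      ∑ k ∈ s, c k * (if (q k : ℤ) ∣ (n : ℤ) - r k then 1 else 0) := by
    intro n
    rw [hs, sum_sigma, sum_filter, sq, sum_mul_sum, ← sum_product']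
    apply sum_congr rfl
    rintro ⟨d1, d2⟩ hp
    rw [mem_product] at hp
    simp only [hc, hq, hr]
    rw [← mul_sum, ← hR d1 hp.1 d2 hp.2 n]
    by_cases h1 : d1 ∣ a n
    · by_cases h2 : d2 ∣ a n
      · rw [if_pos h1, if_pos h2, if_pos (Nat.lcm_dvd h1 h2), mul_one]
      · rw [if_neg h2, if_neg (fun h => h2 ((Nat.dvd_lcm_right d1 d2).trans h))]
        ring
    · rw [if_neg h1, if_neg (fun h => h1 ((Nat.dvd_lcm_left d1 d2).trans h))]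
      ring
  have hM : ∑ p ∈ D ×ˢ D, w p.1 * w p.2 * ((R (Nat.lcm p.1 p.2)).card / (Nat.lcm p.1 p.2 : ℕ)) =
      ∑ k ∈ s, c k / q k := by
    rw [hs, sum_sigma]
    apply sum_congr rfl
    rintro ⟨d1, d2⟩ _
    simp only [hc, hq]
    rw [sum_const, nsmul_eq_mul]
    ring
  simp only [hF, hM]
  refine hv.trans ?_
  -- bound of the double sum
  have hbound : ∑ k ∈ s, ∑ l ∈ s, |c k| * |c l| *
      ((X : ℝ) * H * (Nat.gcd (q k) (q l) : ℕ) / (q k * q l) + 3 * (H : ℝ) ^ 2) ≤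
      ∑ k ∈ s, ∑ l ∈ s,
      ((X : ℝ) * H * (Nat.gcd (q k) (q l) : ℕ) / (q k * q l) + 3 * (H : ℝ) ^ 2) := by
    apply sum_le_sum
    intro k hk
    apply sum_le_sum
    intro l hl
    have hck : ∀ k ∈ s, |c k| ≤ 1 := by
      intro k hk
      rw [hs, mem_sigma, mem_product] at hk
      rw [hc]
      simp only
      rw [abs_mul]
      exact mul_le_one₀ (hw _ hk.1.1) (abs_nonneg _) (hw _ hk.1.2)
    have h1 : |c k| * |c l| ≤ 1 := mul_le_one₀ (hck k hk) (abs_nonneg _) (hck l hl)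
    apply mul_le_of_le_one_left (by positivity) h1
  refine hbound.trans ?_
  simp only [sum_add_distrib, sum_const, nsmul_eq_mul]
  have hcard : ((s.card : ℕ) : ℝ) = ∑ p ∈ D ×ˢ D, ((R (Nat.lcm p.1 p.2)).card : ℝ) := by
    rw [hs, card_sigma]
    push_cast
    rfl
  have hmain : ∑ k ∈ s, ∑ l ∈ s, (X : ℝ) * H * (Nat.gcd (q k) (q l) : ℕ) / (q k * q l) ≤
      (X : ℝ) * H * (1 + Real.log ((z ^ 2 : ℕ) : ℝ)) ^ 80 := by
    have e1 : ∑ k ∈ s, ∑ l ∈ s, (X : ℝ) * H * (Nat.gcd (q k) (q l) : ℕ) / (q k * q l) =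
        (X : ℝ) * H * ∑ p ∈ D ×ˢ D, ∑ p' ∈ D ×ˢ D, ((R (Nat.lcm p.1 p.2)).card : ℝ) *
          ((R (Nat.lcm p'.1 p'.2)).card : ℝ) *
          ((Nat.gcd (Nat.lcm p.1 p.2) (Nat.lcm p'.1 p'.2) : ℕ) /
            ((Nat.lcm p.1 p.2 : ℕ) * (Nat.lcm p'.1 p'.2 : ℕ))) := by
      rw [hs, sum_sigma, mul_sum]
      apply sum_congr rfl
      intro p _
      simp only [sum_sigma, hq]
      rw [sum_const, nsmul_eq_mul, mul_sum, mul_sum]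
      apply sum_congr rfl
      intro p' _
      rw [sum_const, nsmul_eq_mul]
      ring
    rw [e1]
    apply mul_le_mul_of_nonneg_left _ (by positivity)
    have e2 : ∑ p ∈ D ×ˢ D, ∑ p' ∈ D ×ˢ D, ((R (Nat.lcm p.1 p.2)).card : ℝ) *
          ((R (Nat.lcm p'.1 p'.2)).card : ℝ) *
          ((Nat.gcd (Nat.lcm p.1 p.2) (Nat.lcm p'.1 p'.2) : ℕ) /
            ((Nat.lcm p.1 p.2 : ℕ) * (Nat.lcm p'.1 p'.2 : ℕ))) ≤
        ∑ p ∈ D ×ˢ D, ∑ p' ∈ D ×ˢ D, ((Nat.lcm p.1 p.2).divisors.card : ℝ) *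
          ((Nat.lcm p'.1 p'.2).divisors.card : ℝ) *
          ((Nat.gcd (Nat.lcm p.1 p.2) (Nat.lcm p'.1 p'.2) : ℕ) /
            ((Nat.lcm p.1 p.2 : ℕ) * (Nat.lcm p'.1 p'.2 : ℕ))) := by
      apply sum_le_sum; intro p hp; apply sum_le_sum; intro p' hp'
      rw [mem_product] at hp hp'
      apply mul_le_mul_of_nonneg_right _ (by positivity)
      have h1 := hRc p.1 hp.1 p.2 hp.2
      have h2 := hRc p'.1 hp'.1 p'.2 hp'.2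
      exact_mod_cast Nat.mul_le_mul h1 h2
    refine e2.trans ?_
    have e3 : ∑ p ∈ D ×ˢ D, ∑ p' ∈ D ×ˢ D, ((Nat.lcm p.1 p.2).divisors.card : ℝ) *
          ((Nat.lcm p'.1 p'.2).divisors.card : ℝ) *
          ((Nat.gcd (Nat.lcm p.1 p.2) (Nat.lcm p'.1 p'.2) : ℕ) /
            ((Nat.lcm p.1 p.2 : ℕ) * (Nat.lcm p'.1 p'.2 : ℕ))) ≤
        ∑ p ∈ D ×ˢ D, ∑ q' ∈ Icc 1 (z ^ 2), ((q'.divisors.card : ℝ) ^ 2) *
          (((Nat.lcm p.1 p.2).divisors.card : ℝ) * (q'.divisors.card : ℝ) *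
          ((Nat.gcd (Nat.lcm p.1 p.2) q' : ℕ) / ((Nat.lcm p.1 p.2 : ℕ) * (q' : ℕ)))) := by
      apply sum_le_sum; intro p _
      exact fiber_sum D z hD (fun q' => ((Nat.lcm p.1 p.2).divisors.card : ℝ) *
          (q'.divisors.card : ℝ) *
          ((Nat.gcd (Nat.lcm p.1 p.2) q' : ℕ) / ((Nat.lcm p.1 p.2 : ℕ) * (q' : ℕ))))
          (fun q' => by positivity)
    refine e3.trans ?_
    have e4 := fiber_sum D z hD (fun q => ∑ q' ∈ Icc 1 (z ^ 2), ((q'.divisors.card : ℝ) ^ 2) *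
          ((q.divisors.card : ℝ) * (q'.divisors.card : ℝ) *
          ((Nat.gcd q q' : ℕ) / ((q : ℕ) * (q' : ℕ))))) (fun q => sum_nonneg (fun q' _ => by positivity))
    refine e4.trans ?_
    have e5 := gcd_sum 3 (z ^ 2)
    have h80 : 2 ^ (2 * 3) + 2 * 2 ^ 3 = 80 := by norm_num
    rw [h80] at e5
    refine le_trans (le_of_eq ?_) e5
    apply sum_congr rfl
    intro q _
    rw [mul_sum]
    apply sum_congr rfl
    intro q' _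
    ring
  rw [hcard]
  have e6 : (∑ p ∈ D ×ˢ D, ((R (Nat.lcm p.1 p.2)).card : ℝ)) *
      ((∑ p ∈ D ×ˢ D, ((R (Nat.lcm p.1 p.2)).card : ℝ)) * (3 * (H : ℝ) ^ 2)) =
      3 * (H : ℝ) ^ 2 * (∑ p ∈ D ×ˢ D, ((R (Nat.lcm p.1 p.2)).card : ℝ)) ^ 2 := by ring
  rw [e6]
  linarith

end Pool.Agent.H.MP_711652_nt.QW
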