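import Mathlib
import Pool.Agent.H.MP_711652_nt.QW.Defs
import Pool.Agent.H.MP_711652_nt.QW.VarSq
import Pool.Agent.H.MP_711652_nt.QW.SelOne

set_option autoImplicit false

namespace Pool.Agent.H.MP_711652_nt.QW

open Finset BoundingSieve

lemma maj_nonneg (s : BoundingSieve) (z : ℕ) (a : ℕ → ℕ) (n : ℕ) : 0 ≤ maj s z a n :=
  sq_nonneg _

lemma maj_ge_one (s : BoundingSieve) (z : ℕ) (a : ℕ → ℕ) (n : ℕ) (hz : 1 ≤ z)
    (h : Nat.Coprime s.prodPrimes (a n)) : 1 ≤ maj s z a n := by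
  unfold maj
  have h1 : (∑ d ∈ s.prodPrimes.divisors, if d ∣ a n then selW s z d else 0) = 1 := by
    rw [sum_eq_single 1]
    · rw [if_pos (one_dvd _), selW_one hz]
    · intro d hd hd1
      rw [if_neg]
      intro hda
      apply hd1
      have hdP := Nat.dvd_of_mem_divisors hd
      have := Nat.dvd_gcd hdP hda
      rw [h] at this
      exact Nat.dvd_one.1 this
    · intro h1
      exfalso
      apply h1
      rw [mem_div]
      exact one_dvd _
  rw [h1]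
  norm_num

/-- The roots of `a` modulo `q`. -/
noncomputable def rts (a : ℕ → ℕ) (q : ℕ) : Finset ℤ :=
  ((range q).filter (fun r => q ∣ a r)).image (fun r : ℕ => (r : ℤ))

lemma rts_card (a : ℕ → ℕ) (q : ℕ) :
    (rts a q).card = ((range q).filter (fun r => q ∣ a r)).card :=
  card_image_of_injective _ Nat.cast_injective

lemma rts_sum {s : BoundingSieve} {a : ℕ → ℕ} (h : Adm s a) (m : ℕ) (hm : m ∣ s.prodPrimes) (n : ℕ) :
    (if m ∣ a n then (1 : ℝ) else 0) =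
      ∑ r ∈ rts a m, (if (m : ℤ) ∣ (n : ℤ) - r then (1 : ℝ) else 0) := by
  have hm0 : 0 < m := Nat.pos_of_ne_zero (ne_zero_of_dvd_ne_zero prodPrimes_ne_zero hm)
  unfold rts
  rw [sum_image (by intro x _ y _ hxy; exact Nat.cast_injective (R := ℤ) hxy)]
  have h1 : ∀ r ∈ (range m).filter (fun r => m ∣ a r),
      (if (m : ℤ) ∣ (n : ℤ) - (r : ℤ) then (1 : ℝ) else 0) = if r = n % m then 1 else 0 := by
    intro r hr
    rw [mem_filter, mem_range] at hr
    have : ((m : ℤ) ∣ (n : ℤ) - (r : ℤ)) ↔ r = n % m := by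
      rw [← Nat.modEq_iff_dvd]
      unfold Nat.ModEq
      rw [Nat.mod_eq_of_lt hr.1]
    simp only [this]
  rw [sum_congr rfl h1, sum_ite_eq']
  by_cases h2 : m ∣ a n
  · rw [if_pos h2, if_pos]
    rw [mem_filter, mem_range]
    exact ⟨Nat.mod_lt _ hm0, (h.per m hm n).2 h2⟩
  · rw [if_neg h2, if_neg]
    rw [mem_filter]
    rintro ⟨-, h3⟩
    exact h2 ((h.per m hm n).1 h3)

lemma rts_card_nu {s : BoundingSieve} {a : ℕ → ℕ} (h : Adm s a) (m : ℕ) (hm : m ∣ s.prodPrimes) :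
    ((rts a m).card : ℝ) / (m : ℕ) = s.nu m := by
  have hm0 : 0 < m := Nat.pos_of_ne_zero (ne_zero_of_dvd_ne_zero prodPrimes_ne_zero hm)
  have hm1 : (0 : ℝ) < m := by exact_mod_cast hm0
  rw [rts_card, h.cnt m hm]
  field_simp

lemma two_pow_le_tau {m : ℕ} (hm : m ≠ 0) : 2 ^ m.primeFactors.card ≤ m.divisors.card := by
  rw [Nat.card_divisors hm, ← prod_const]
  apply prod_le_prod'
  intro p hp
  have := (Nat.prime_of_mem_primeFactors hp).factorization_pos_of_dvd hm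
    (Nat.dvd_of_mem_primeFactors hp)
  omega

lemma rts_card_le {s : BoundingSieve} {a : ℕ → ℕ} (h : Adm s a) (m : ℕ) (hm : m ∣ s.prodPrimes) :
    (rts a m).card ≤ m.divisors.card := by
  have h1 := h.rho m hm
  rw [← h.cnt m hm, ← rts_card] at h1
  refine le_trans ?_ (two_pow_le_tau (ne_zero_of_dvd_ne_zero prodPrimes_ne_zero hm))
  exact_mod_cast h1

/-- The divisors up to `z`. -/
noncomputable def Dz (s : BoundingSieve) (z : ℕ) : Finset ℕ :=
  s.prodPrimes.divisors.filter (fun d => d ≤ z)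

lemma mem_Dz {s : BoundingSieve} {z d : ℕ} : d ∈ Dz s z ↔ d ∣ s.prodPrimes ∧ d ≤ z := by
  unfold Dz
  rw [mem_filter, mem_div]

lemma maj_eq (s : BoundingSieve) (z : ℕ) (a : ℕ → ℕ) (n : ℕ) :
    maj s z a n = (∑ d ∈ Dz s z with d ∣ a n, selW s z d) ^ 2 := by
  unfold maj
  congr 1
  rw [sum_filter]
  symm
  apply sum_subset
  · exact filter_subset _ _
  · intro d hd hd2
    have : z < d := by
      by_contra h
      apply hd2
      rw [mem_Dz, ← mem_div]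
      exact ⟨hd, not_lt.1 h⟩
    rw [selW_eq_zero this]
    simp

lemma lcm_dvd_P {s : BoundingSieve} {z d1 d2 : ℕ} (h1 : d1 ∈ Dz s z) (h2 : d2 ∈ Dz s z) :
    Nat.lcm d1 d2 ∣ s.prodPrimes :=
  Nat.lcm_dvd (mem_Dz.1 h1).1 (mem_Dz.1 h2).1

lemma mean_eq {s : BoundingSieve} {a : ℕ → ℕ} (h : Adm s a) (z : ℕ) (hz : 1 ≤ z) :
    ∑ p ∈ Dz s z ×ˢ Dz s z, selW s z p.1 * selW s z p.2 *
      ((rts a (Nat.lcm p.1 p.2)).card / (Nat.lcm p.1 p.2 : ℕ)) = (Gsum s z)⁻¹ := by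
  rw [← mainSum_selW hz, mainSum_lambdaSquared_eq_sum_sum_mul, ← sum_product']
  have hsub : Dz s z ×ˢ Dz s z ⊆ s.prodPrimes.divisors ×ˢ s.prodPrimes.divisors :=
    product_subset_product (filter_subset _ _) (filter_subset _ _)
  rw [← sum_subset hsub]
  · apply sum_congr rfl
    rintro ⟨d1, d2⟩ hp
    rw [mem_product] at hp
    simp only at hp ⊢
    rw [rts_card_nu h _ (lcm_dvd_P hp.1 hp.2), s.nu_mult.map_lcm]
    · ring
    · refine (nu_pos_of_dvd_prodPrimes ?_).ne'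
      exact (Nat.gcd_dvd_left d1 d2).trans (mem_Dz.1 hp.1).1
  · rintro ⟨d1, d2⟩ hp hp2
    rw [mem_product] at hp hp2
    simp only at hp hp2 ⊢
    rw [not_and_or] at hp2
    rcases hp2 with h1 | h1
    · have : z < d1 := by
        by_contra h
        exact h1 (mem_Dz.2 ⟨mem_div.1 hp.1, not_lt.1 h⟩)
      rw [selW_eq_zero this]
      ring
    · have : z < d2 := by
        by_contra h
        exact h1 (mem_Dz.2 ⟨mem_div.1 hp.2, not_lt.1 h⟩)
      rw [selW_eq_zero this]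
      ring

lemma sum_rts_le {s : BoundingSieve} {a : ℕ → ℕ} (h : Adm s a) (z : ℕ) :
    ∑ p ∈ Dz s z ×ˢ Dz s z, ((rts a (Nat.lcm p.1 p.2)).card : ℝ) ≤
      (z : ℝ) ^ 2 * (1 + Real.log z) ^ 4 := by
  have h1 : ∑ p ∈ Dz s z ×ˢ Dz s z, ((rts a (Nat.lcm p.1 p.2)).card : ℝ) ≤
      ∑ p ∈ Dz s z ×ˢ Dz s z, (p.1.divisors.card : ℝ) * (p.2.divisors.card : ℝ) := by
    apply sum_le_sum
    rintro ⟨d1, d2⟩ hp
    rw [mem_product] at hp
    have h2 := rts_card_le h _ (lcm_dvd_P hp.1 hp.2)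
    have hP := lcm_dvd_P hp.1 hp.2
    have h3 : (Nat.lcm d1 d2).divisors.card ≤ d1.divisors.card * d2.divisors.card := by
      have h5 : (Nat.lcm d1 d2).divisors.card ≤ (d1 * d2).divisors.card := by
        apply card_le_card
        apply Nat.divisors_subset_of_dvd
        · have e1 := ne_zero_of_dvd_ne_zero prodPrimes_ne_zero (mem_Dz.1 hp.1).1
          have e2 := ne_zero_of_dvd_ne_zero prodPrimes_ne_zero (mem_Dz.1 hp.2).1
          exact mul_ne_zero e1 e2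
        · exact Nat.lcm_dvd_mul d1 d2
      exact h5.trans (tau_mul_le d1 d2)
    exact_mod_cast h2.trans h3
  refine h1.trans ?_
  have h6 : ∑ p ∈ Dz s z ×ˢ Dz s z, (p.1.divisors.card : ℝ) * (p.2.divisors.card : ℝ) =
      (∑ d ∈ Dz s z, (d.divisors.card : ℝ)) * (∑ d ∈ Dz s z, (d.divisors.card : ℝ)) := by
    rw [sum_mul_sum, sum_product]
  rw [h6]
  have h2 : ∑ d ∈ Dz s z, (d.divisors.card : ℝ) ≤ z * (1 + Real.log z) ^ 2 := by
    calc ∑ d ∈ Dz s z, (d.divisors.card : ℝ) ≤ ∑ d ∈ Icc 1 z, (d.divisors.card : ℝ) := by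
          apply sum_le_sum_of_subset_of_nonneg
          · intro d hd
            rw [mem_Dz] at hd
            rw [mem_Icc]
            exact ⟨Nat.pos_of_ne_zero (ne_zero_of_dvd_ne_zero prodPrimes_ne_zero hd.1), hd.2⟩
          · intro d _ _; positivity
      _ ≤ ∑ d ∈ Icc 1 z, (z : ℝ) * (((d.divisors.card : ℝ) ^ 1) / d) := by
          apply sum_le_sum
          intro d hd
          rw [mem_Icc] at hd
          have hd0 : (0 : ℝ) < d := by exact_mod_cast (show 0 < d by omega)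
          have hdz : (d : ℝ) ≤ z := by exact_mod_cast hd.2
          rw [pow_one, ← mul_div_assoc, le_div_iff₀ hd0, mul_comm]
          apply mul_le_mul_of_nonneg_right hdz (by positivity)
      _ = z * Ts 1 z := by rw [← mul_sum]; rfl
      _ ≤ z * (1 + Real.log z) ^ 2 := by
          apply mul_le_mul_of_nonneg_left _ (Nat.cast_nonneg z)
          simpa using Ts_le 1 z
  have h3 : 0 ≤ ∑ d ∈ Dz s z, (d.divisors.card : ℝ) := sum_nonneg (fun d _ => by positivity)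
  calc (∑ d ∈ Dz s z, (d.divisors.card : ℝ)) * (∑ d ∈ Dz s z, (d.divisors.card : ℝ)) ≤
      (z * (1 + Real.log z) ^ 2) * (z * (1 + Real.log z) ^ 2) := mul_le_mul h2 h2 h3 (h3.trans h2)
    _ = _ := by ring

lemma logfac_ge {z : ℕ} (hz : 1 ≤ z) : 1 ≤ 1 + Real.log z ∧ 1 + Real.log z ≤ 1 + 2 * Real.log z := by
  have : 0 ≤ Real.log z := Real.log_nonneg (by exact_mod_cast hz)
  constructor <;> linarith

theorem window_variance_gen (s : BoundingSieve) (z : ℕ) (a : ℕ → ℕ) (hz : 1 ≤ z) (h : Adm s a)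
    (X H N : ℕ) (hN : 80 ≤ N) :
    ∑ y ∈ range X, (winSum s z a y H - H * (Gsum s z)⁻¹) ^ 2 ≤
      3 * (X * H + (H : ℝ) ^ 2 * (z : ℝ) ^ 4) * (1 + 2 * Real.log z) ^ N := by
  have hv := var_sq (Dz s z) z
    (fun d hd => ⟨Nat.pos_of_ne_zero (ne_zero_of_dvd_ne_zero prodPrimes_ne_zero (mem_Dz.1 hd).1),
      (mem_Dz.1 hd).2⟩) (selW s z) (fun d _ => abs_selW_le_one hz d) a (rts a)
    (fun d1 h1 d2 h2 n => rts_sum h _ (lcm_dvd_P h1 h2) n)
    (fun d1 h1 d2 h2 => rts_card_le h _ (lcm_dvd_P h1 h2)) X H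
  rw [mean_eq h z hz] at hv
  unfold winSum
  simp only [maj_eq]
  refine hv.trans ?_
  obtain ⟨hl1, hl2⟩ := logfac_ge hz
  set T := 1 + 2 * Real.log z with hT
  have hT1 : 1 ≤ T := hl1.trans hl2
  have e1 : 1 + Real.log ((z ^ 2 : ℕ) : ℝ) = T := by
    push_cast
    rw [Real.log_pow]
    push_cast
    rw [hT]
  rw [e1]
  have h3 := sum_rts_le h z
  have h30 : 0 ≤ ∑ p ∈ Dz s z ×ˢ Dz s z, ((rts a (Nat.lcm p.1 p.2)).card : ℝ) :=
    sum_nonneg (fun p _ => Nat.cast_nonneg _)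
  have h4 : (∑ p ∈ Dz s z ×ˢ Dz s z, ((rts a (Nat.lcm p.1 p.2)).card : ℝ)) ^ 2 ≤
      (z : ℝ) ^ 4 * T ^ N := by
    calc _ ≤ ((z : ℝ) ^ 2 * (1 + Real.log z) ^ 4) ^ 2 := pow_le_pow_left₀ h30 h3 2
      _ ≤ ((z : ℝ) ^ 2 * T ^ 4) ^ 2 := by gcongr
      _ = (z : ℝ) ^ 4 * T ^ 8 := by ring
      _ ≤ (z : ℝ) ^ 4 * T ^ N := by
        apply mul_le_mul_of_nonneg_left _ (by positivity)
        exact pow_le_pow_right₀ hT1 (by omega)
  have h5 : T ^ 80 ≤ T ^ N := pow_le_pow_right₀ hT1 hN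
  have h6 : (X : ℝ) * H * T ^ 80 ≤ (X : ℝ) * H * T ^ N :=
    mul_le_mul_of_nonneg_left h5 (by positivity)
  have h7 : 3 * (H : ℝ) ^ 2 * (∑ p ∈ Dz s z ×ˢ Dz s z, ((rts a (Nat.lcm p.1 p.2)).card : ℝ)) ^ 2 ≤
      3 * (H : ℝ) ^ 2 * ((z : ℝ) ^ 4 * T ^ N) := mul_le_mul_of_nonneg_left h4 (by positivity)
  have h8 : 0 ≤ (X : ℝ) * H * T ^ N := by positivity
  have h9 : 3 * (X * H + (H : ℝ) ^ 2 * (z : ℝ) ^ 4) * T ^ N = 3 * ((X : ℝ) * H * T ^ N) +
      3 * (H : ℝ) ^ 2 * ((z : ℝ) ^ 4 * T ^ N) := by ring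
  rw [h9]
  linarith

theorem window_variance (s : BoundingSieve) (z : ℕ) (a : ℕ → ℕ) (hz : 1 ≤ z) (h : Adm s a)
    (X H : ℕ) :
    ∑ y ∈ range X, (winSum s z a y H - H * (Gsum s z)⁻¹) ^ 2 ≤
      3 * (X * H + (H : ℝ) ^ 2 * (z : ℝ) ^ 4) * (1 + 2 * Real.log z) ^ 1088 :=
  window_variance_gen s z a hz h X H 1088 (by omega)

theorem window_pointwise (s : BoundingSieve) (z : ℕ) (a : ℕ → ℕ) (hz : 1 ≤ z) (h : Adm s a)
    (y H : ℕ) :
    |winSum s z a y H - H * (Gsum s z)⁻¹| ≤ (z : ℝ) ^ 2 * (1 + 2 * Real.log z) ^ 32 := by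
  obtain ⟨hl1, hl2⟩ := logfac_ge hz
  set T := 1 + 2 * Real.log z with hT
  have hT1 : 1 ≤ T := hl1.trans hl2
  have e0 : winSum s z a y H = ∑ p ∈ Dz s z ×ˢ Dz s z, ∑ r ∈ rts a (Nat.lcm p.1 p.2),
      selW s z p.1 * selW s z p.2 *
        ∑ i ∈ range H, ind (Nat.lcm p.1 p.2) ((1 - r) + i) y := by
    unfold winSum
    have e1 : ∀ n : ℕ, maj s z a n = ∑ p ∈ Dz s z ×ˢ Dz s z, ∑ r ∈ rts a (Nat.lcm p.1 p.2),
        selW s z p.1 * selW s z p.2 *
          (if ((Nat.lcm p.1 p.2 : ℕ) : ℤ) ∣ (n : ℤ) - r then (1 : ℝ) else 0) := by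
      intro n
      rw [maj_eq, sum_filter, sq, sum_mul_sum, ← sum_product']
      apply sum_congr rfl
      rintro ⟨d1, d2⟩ hp
      rw [mem_product] at hp
      rw [← mul_sum, ← rts_sum h _ (lcm_dvd_P hp.1 hp.2) n]
      by_cases h1 : d1 ∣ a n
      · by_cases h2 : d2 ∣ a n
        · rw [if_pos h1, if_pos h2, if_pos (Nat.lcm_dvd h1 h2), mul_one]
        · rw [if_neg h2, if_neg (fun h => h2 ((Nat.dvd_lcm_right d1 d2).trans h))]
          ring
      · rw [if_neg h1, if_neg (fun h => h1 ((Nat.dvd_lcm_left d1 d2).trans h))]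
        ring
    simp only [e1]
    rw [sum_comm]
    apply sum_congr rfl
    intro p _
    rw [sum_comm]
    apply sum_congr rfl
    intro r _
    rw [← mul_sum]
    congr 1
    have : Ioc y (y + H) = (range H).image (fun i => y + 1 + i) := by
      ext n
      simp only [mem_Ioc, mem_image, mem_range]
      constructor
      · intro h
        exact ⟨n - (y + 1), by omega, by omega⟩
      · rintro ⟨i, hi, rfl⟩
        omega
    rw [this, sum_image (by intro a _ b _ h; simpa using h)]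
    apply sum_congr rfl
    intro i _
    unfold ind
    have e : ((y + 1 + i : ℕ) : ℤ) - r = (y : ℤ) + ((1 - r) + i) := by push_cast; ring
    rw [e]
  have e2 : (H : ℝ) * (Gsum s z)⁻¹ = ∑ p ∈ Dz s z ×ˢ Dz s z, ∑ r ∈ rts a (Nat.lcm p.1 p.2),
      selW s z p.1 * selW s z p.2 * ((H : ℝ) / (Nat.lcm p.1 p.2 : ℕ)) := by
    rw [← mean_eq h z hz, mul_sum]
    apply sum_congr rfl
    intro p _
    rw [sum_const, nsmul_eq_mul]
    ring
  rw [e0, e2, ← sum_sub_distrib]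
  simp only [← sum_sub_distrib, ← mul_sub]
  have h1 : ∀ p ∈ Dz s z ×ˢ Dz s z, |∑ r ∈ rts a (Nat.lcm p.1 p.2), selW s z p.1 * selW s z p.2 *
      ((∑ i ∈ range H, ind (Nat.lcm p.1 p.2) ((1 - r) + i) y) - (H : ℝ) / (Nat.lcm p.1 p.2 : ℕ))| ≤
      ((rts a (Nat.lcm p.1 p.2)).card : ℝ) := by
    rintro ⟨d1, d2⟩ hp
    rw [mem_product] at hp
    have hq0 : 0 < Nat.lcm d1 d2 :=
      Nat.pos_of_ne_zero (ne_zero_of_dvd_ne_zero prodPrimes_ne_zero (lcm_dvd_P hp.1 hp.2))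
    refine (abs_sum_le_sum_abs _ _).trans ?_
    have h2 : ∀ r ∈ rts a (Nat.lcm d1 d2), |selW s z d1 * selW s z d2 *
      ((∑ i ∈ range H, ind (Nat.lcm d1 d2) ((1 - r) + i) y) - (H : ℝ) / (Nat.lcm d1 d2 : ℕ))| ≤ 1 := by
      intro r _
      rw [abs_mul, abs_mul]
      have h3 : |(∑ i ∈ range H, ind (Nat.lcm d1 d2) ((1 - r) + i) y) -
          (H : ℝ) / (Nat.lcm d1 d2 : ℕ)| ≤ 1 := by
        have h4 : ∀ i : ℕ, ind (Nat.lcm d1 d2) ((1 - r) + i) y =
            ind (Nat.lcm d1 d2) ((y : ℤ) + (1 - r)) i := by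
          intro i
          unfold ind
          have : (y : ℤ) + ((1 - r) + i) = (i : ℤ) + ((y : ℤ) + (1 - r)) := by ring
          rw [this]
        simp only [h4]
        exact sum_ind _ hq0 _ H
      have h5 : |selW s z d1| * |selW s z d2| ≤ 1 :=
        mul_le_one₀ (abs_selW_le_one hz d1) (abs_nonneg _) (abs_selW_le_one hz d2)
      exact mul_le_one₀ h5 (abs_nonneg _) h3
    calc _ ≤ ∑ r ∈ rts a (Nat.lcm d1 d2), (1 : ℝ) := sum_le_sum h2
      _ = _ := by simp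
  refine (abs_sum_le_sum_abs _ _).trans ((sum_le_sum h1).trans ((sum_rts_le h z).trans ?_))
  apply mul_le_mul_of_nonneg_left _ (by positivity)
  calc (1 + Real.log z) ^ 4 ≤ T ^ 4 := by gcongr
    _ ≤ T ^ 32 := pow_le_pow_right₀ hT1 (by norm_num)

end Pool.Agent.H.MP_711652_nt.QW
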