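import Mathlib
import Pool.Agent.H.MP_711652_nt.QW.SelS
import Pool.Agent.H.MP_711652_nt.QW.Prim
import Pool.Agent.H.MP_711652_nt.QW.Maxi

set_option autoImplicit false

namespace Pool.Agent.H.MP_711652_nt.QW

open Finset BoundingSieve

/-- Chebyshev's inequality for the windows. -/
lemma cheb (s : BoundingSieve) (z : ℕ) (a : ℕ → ℕ) (hz : 1 ≤ z) (h : Adm s a) (N H M : ℕ)
    (hM : 80 ≤ M) (τ : ℝ) (hτ : 0 < τ) :
    (((range N).filter (fun w => H * ((Gsum s z)⁻¹ + τ) < winSum s z a w H)).card : ℝ) *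
      (H * τ) ^ 2 ≤ 3 * (N * H + (H : ℝ) ^ 2 * (z : ℝ) ^ 4) * (1 + 2 * Real.log z) ^ M := by
  refine le_trans ?_ (window_variance_gen s z a hz h N H M hM)
  rw [← nsmul_eq_mul, ← sum_const]
  refine le_trans (sum_le_sum (f := fun _ => ((H : ℝ) * τ) ^ 2)
    (g := fun y => (winSum s z a y H - H * (Gsum s z)⁻¹) ^ 2) ?_) ?_
  · intro w hw
    rw [mem_filter] at hw
    have h1 := hw.2
    have h2 : (H : ℝ) * τ ≤ winSum s z a w H - H * (Gsum s z)⁻¹ := by
      have h3 : (H : ℝ) * ((Gsum s z)⁻¹ + τ) = H * (Gsum s z)⁻¹ + H * τ := by ring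
      linarith
    exact pow_le_pow_left₀ (by positivity) h2 2
  · exact sum_le_sum_of_subset_of_nonneg (filter_subset _ _) fun _ _ _ => sq_nonneg _

/-- The majorant bounds the primes beyond `z`. -/
lemma prIn_le_winSum (z w H : ℕ) (hz : 1 ≤ z) (hw : z ≤ w) :
    (prIn w (w + H) : ℝ) ≤ winSum (sieve1 z) z (fun n => n) w H := by
  unfold prIn winSum
  rw [card_filter, Nat.cast_sum]
  apply sum_le_sum
  intro n hn
  rw [mem_Ioc] at hn
  split_ifs with h
  · rw [Nat.cast_one]
    apply maj_ge_one _ _ _ _ hz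
    exact coprime_Pz h (by omega)
  · rw [Nat.cast_zero]
    exact maj_nonneg _ _ _ _

lemma prIn_triv (u v : ℕ) : prIn u v ≤ v - u := by
  unfold prIn
  refine (card_filter_le _ _).trans ?_
  rw [Nat.card_Ioc]

/-- Averaging over the windows of one scale. -/
lemma prIn_avg (u v H z : ℕ) (β : ℝ) (E0 : Finset ℕ) (hH : 0 < H) (hβ : 0 ≤ β) (huv : u ≤ v)
    (hgood : ∀ w, w < v → w ∉ E0 → z ≤ w → (prIn w (w + H) : ℝ) ≤ H * β) :
    (prIn u v : ℝ) ≤ H + (v - u + H) * β +
      ((E0.filter (fun i => u + 1 - H ≤ i ∧ i < v)).card : ℝ) +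
      (((range z).filter (fun i => u + 1 - H ≤ i ∧ i < v)).card : ℝ) := by
  classical
  have hHR : (0 : ℝ) < H := by exact_mod_cast hH
  have h1 := avg_windows u v H Nat.Prime
  have h2 : (H : ℝ) * prIn u v ≤ H * H +
      ∑ w ∈ Ico (u + 1 - H) v, (prIn w (w + H) : ℝ) := by
    unfold prIn
    exact_mod_cast h1
  have h3 : ∀ w ∈ Ico (u + 1 - H) v, (prIn w (w + H) : ℝ) ≤
      H * β + (if w ∈ E0 then (H : ℝ) else 0) + (if w < z then (H : ℝ) else 0) := by
    intro w hw
    rw [mem_Ico] at hw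
    have h4 : (prIn w (w + H) : ℝ) ≤ H := by
      have := prIn_triv w (w + H)
      rw [Nat.add_sub_cancel_left] at this
      exact_mod_cast this
    have h5 : 0 ≤ (H : ℝ) * β := by positivity
    by_cases h6 : w ∈ E0
    · rw [if_pos h6]
      split_ifs <;> linarith
    · by_cases h7 : w < z
      · rw [if_neg h6, if_pos h7]; linarith
      · rw [if_neg h6, if_neg h7]
        have := hgood w hw.2 h6 (not_lt.1 h7)
        linarith
  have h4 := sum_le_sum h3
  rw [sum_add_distrib, sum_add_distrib, sum_const, nsmul_eq_mul, ← sum_filter, ← sum_filter,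
    sum_const, sum_const, nsmul_eq_mul, nsmul_eq_mul, Nat.card_Ico] at h4
  have h5 : ((v - (u + 1 - H) : ℕ) : ℝ) ≤ v - u + H := by
    have : v - (u + 1 - H) ≤ (v - u) + H := by omega
    have h6 : ((v - (u + 1 - H) : ℕ) : ℝ) ≤ ((v - u : ℕ) : ℝ) + H := by exact_mod_cast this
    rwa [Nat.cast_sub huv] at h6
  have h6 : ((Ico (u + 1 - H) v).filter (fun w => w ∈ E0)).card ≤
      (E0.filter (fun i => u + 1 - H ≤ i ∧ i < v)).card := by
    apply card_le_card
    intro w hw
    rw [mem_filter, mem_Ico] at hw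
    rw [mem_filter]
    exact ⟨hw.2, hw.1⟩
  have h7 : ((Ico (u + 1 - H) v).filter (fun w => w < z)).card ≤
      ((range z).filter (fun i => u + 1 - H ≤ i ∧ i < v)).card := by
    apply card_le_card
    intro w hw
    rw [mem_filter, mem_Ico] at hw
    rw [mem_filter, mem_range]
    exact ⟨hw.2, hw.1⟩
  have h6' : (((Ico (u + 1 - H) v).filter (fun w => w ∈ E0)).card : ℝ) ≤
      ((E0.filter (fun i => u + 1 - H ≤ i ∧ i < v)).card : ℝ) := by exact_mod_cast h6
  have h7' : (((Ico (u + 1 - H) v).filter (fun w => w < z)).card : ℝ) ≤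
      (((range z).filter (fun i => u + 1 - H ≤ i ∧ i < v)).card : ℝ) := by exact_mod_cast h7
  set e1 := ((E0.filter (fun i => u + 1 - H ≤ i ∧ i < v)).card : ℝ) with he1
  set e2 := (((range z).filter (fun i => u + 1 - H ≤ i ∧ i < v)).card : ℝ) with he2
  have h8 : (H : ℝ) * prIn u v ≤ H * (H + (v - u + H) * β + e1 + e2) := by
    calc (H : ℝ) * prIn u v ≤ H * H + (((v - (u + 1 - H) : ℕ) : ℝ) * (H * β) +
          (((Ico (u + 1 - H) v).filter (fun w => w ∈ E0)).card : ℝ) * H +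
          (((Ico (u + 1 - H) v).filter (fun w => w < z)).card : ℝ) * H) := by linarith
      _ ≤ H * H + ((v - u + H) * (H * β) + e1 * H + e2 * H) := by gcongr
      _ = _ := by ring
  exact le_of_mul_le_mul_left h8 hHR

end Pool.Agent.H.MP_711652_nt.QW
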