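import Mathlib
import Pool.Agent.H.MP_711652_nt.QW.S1A

set_option autoImplicit false

namespace Pool.Agent.H.MP_711652_nt.QW

open Finset BoundingSieve

open Filter in
lemma ev_log_pow_rpow (m : ℕ) (s : ℝ) (hs : 0 < s) :
    ∀ᶠ X : ℕ in atTop, (Real.log X) ^ m ≤ (X : ℝ) ^ s := by
  have h1 := (isLittleO_log_rpow_rpow_atTop (m : ℝ) hs).bound (c := 1) one_pos
  have h2 := tendsto_natCast_atTop_atTop (R := ℝ) |>.eventually h1
  filter_upwards [h2, eventually_ge_atTop 1] with X hX hX1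
  have hlog : 0 ≤ Real.log X := Real.log_nonneg (by exact_mod_cast hX1)
  rw [Real.norm_of_nonneg (by positivity), Real.norm_of_nonneg (by positivity), one_mul,
    Real.rpow_natCast] at hX
  exact hX

open Filter in
lemma ev_log_ge (M : ℝ) : ∀ᶠ X : ℕ in atTop, M ≤ Real.log X :=
  (Real.tendsto_log_atTop.comp (tendsto_natCast_atTop_atTop (R := ℝ))).eventually_ge_atTop M

open Filter in
/-- The choice of the sieve level. -/
lemma s1_params (ε : ℝ) (hε : 0 < ε) (hε1 : ε ≤ 1) (m : ℕ) : ∀ᶠ X : ℕ in atTop, ∃ z : ℕ, 2 ≤ z ∧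
    Real.log X ≤ (4 + ε / 2) * Real.log z ∧ 1 + 2 * Real.log z ≤ Real.log X ∧
    (z : ℝ) ^ 4 * (Real.log X) ^ m ≤ X := by
  set δ : ℝ := ε / 100 with hδ
  have hδ0 : 0 < δ := by positivity
  filter_upwards [ev_log_pow_rpow m (4 * δ) (by positivity), ev_log_ge (10 + 1 / δ),
    eventually_ge_atTop 1] with X h1 h2 h3
  set L := Real.log X with hL
  have hX0 : (0 : ℝ) < X := by exact_mod_cast (by omega : 0 < X)
  have h4 : 10 ≤ L := by
    have : 0 ≤ 1 / δ := by positivity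
    linarith
  have h5 : 1 ≤ δ * L := by
    have h6 : δ * (10 + 1 / δ) ≤ δ * L := mul_le_mul_of_nonneg_left h2 hδ0.le
    have h7 : δ * (10 + 1 / δ) = 10 * δ + 1 := by field_simp
    linarith
  have hδ1 : δ ≤ 1 / 100 := by rw [hδ]; linarith
  set x : ℝ := (X : ℝ) ^ (1 / 4 - δ) with hx
  have hx0 : 0 < x := Real.rpow_pos_of_pos hX0 _
  have hlogx : Real.log x = (1 / 4 - δ) * L := by rw [hx, Real.log_rpow hX0]
  have hx2 : 2 ≤ x := by
    have h6 : 1 ≤ Real.log x := by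
      rw [hlogx]
      have : (0.24 : ℝ) * 10 ≤ (1 / 4 - δ) * L := by
        apply mul_le_mul _ h4 (by norm_num) (by linarith)
        linarith
      linarith
    have h7 : Real.exp 1 ≤ x := by rwa [← Real.le_log_iff_exp_le hx0]
    have h8 := Real.add_one_le_exp (1 : ℝ)
    linarith
  have hz1 : (⌊x⌋₊ : ℝ) ≤ x := Nat.floor_le hx0.le
  have hz2 : x < ⌊x⌋₊ + 1 := Nat.lt_floor_add_one x
  have hz3 : 2 ≤ ⌊x⌋₊ := Nat.le_floor (by exact_mod_cast hx2)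
  have hz3' : (2 : ℝ) ≤ (⌊x⌋₊ : ℝ) := by exact_mod_cast hz3
  refine ⟨⌊x⌋₊, hz3, ?_, ?_, ?_⟩
  · have h6 : x / 2 ≤ (⌊x⌋₊ : ℝ) := by linarith
    have h7 : Real.log (x / 2) ≤ Real.log (⌊x⌋₊ : ℝ) := Real.log_le_log (by positivity) h6
    rw [Real.log_div hx0.ne' (by norm_num), hlogx] at h7
    have h8 := Real.log_two_lt_d9
    have h9 : (1 / 4 - 2 * δ) * L ≤ Real.log (⌊x⌋₊ : ℝ) := by nlinarith
    have h10 : (4 + ε / 2) * ((1 / 4 - 2 * δ) * L) ≤ (4 + ε / 2) * Real.log (⌊x⌋₊ : ℝ) :=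
      mul_le_mul_of_nonneg_left h9 (by positivity)
    refine le_trans ?_ h10
    have h11 : 1 ≤ (4 + ε / 2) * (1 / 4 - 2 * δ) := by
      rw [hδ]
      nlinarith
    have h12 : 1 * L ≤ ((4 + ε / 2) * (1 / 4 - 2 * δ)) * L :=
      mul_le_mul_of_nonneg_right h11 (by linarith)
    linarith
  · have h7 : Real.log (⌊x⌋₊ : ℝ) ≤ Real.log x := Real.log_le_log (by linarith) hz1
    rw [hlogx] at h7
    nlinarith
  · have h6 : ((⌊x⌋₊ : ℝ)) ^ 4 ≤ x ^ 4 := pow_le_pow_left₀ (Nat.cast_nonneg _) hz1 4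
    have h7 : x ^ 4 = (X : ℝ) ^ (1 - 4 * δ) := by
      rw [hx, ← Real.rpow_natCast, ← Real.rpow_mul hX0.le]
      congr 1
      push_cast
      ring
    have hLm : 0 ≤ L ^ m := by positivity
    calc ((⌊x⌋₊ : ℝ)) ^ 4 * L ^ m ≤ x ^ 4 * (X : ℝ) ^ (4 * δ) := by gcongr
      _ = (X : ℝ) ^ (1 - 4 * δ) * (X : ℝ) ^ (4 * δ) := by rw [h7]
      _ = X := by
        rw [← Real.rpow_add hX0]
        have : 1 - 4 * δ + 4 * δ = 1 := by ring
        rw [this, Real.rpow_one]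

/-- The size of the exceptional set at one scale. -/
lemma s1_card (A N : ℕ) (X L z4 H0 c0 η : ℝ) (hη : 0 < η) (hη1 : η ≤ 1) (hL : 1000 / η ^ 2 ≤ L)
    (hX : 0 < X) (hz : z4 * L ^ (A + N + 12) ≤ X) (hz0 : 0 ≤ z4)
    (hH : L ^ (A + N + 12) ≤ H0)
    (hc : c0 * (H0 * (η / L)) ^ 2 ≤ 3 * (2 * X * H0 + H0 ^ 2 * z4) * L ^ N) (_hc0 : 0 ≤ c0) :
    4 * L ^ 2 * c0 ≤ X / (4 * L ^ A) := by
  have hη2 : η ^ 2 ≤ 1 := pow_le_one₀ hη.le hη1
  have hη20 : 0 < η ^ 2 := by positivity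
  have hL1000 : 1000 ≤ L := by
    have h1 : (1000 : ℝ) / 1 ≤ 1000 / η ^ 2 := div_le_div_of_nonneg_left (by norm_num) hη20 hη2
    linarith
  have hL0 : 0 < L := by linarith
  have hLη : 1000 ≤ L * η ^ 2 := by
    rw [div_le_iff₀ hη20] at hL
    exact hL
  have hP0 : 0 < L ^ (A + N + 12) := by positivity
  have hH0 : 0 < H0 := lt_of_lt_of_le hP0 hH
  -- divide by H0 ^ 2
  have h1 : c0 * (η / L) ^ 2 ≤ 3 * (2 * X / H0 + z4) * L ^ N := by
    have h2 : c0 * (η / L) ^ 2 * H0 ^ 2 ≤ (3 * (2 * X / H0 + z4) * L ^ N) * H0 ^ 2 := by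
      have e1 : c0 * (η / L) ^ 2 * H0 ^ 2 = c0 * (H0 * (η / L)) ^ 2 := by ring
      have e2 : (3 * (2 * X / H0 + z4) * L ^ N) * H0 ^ 2 =
          3 * (2 * X * H0 + H0 ^ 2 * z4) * L ^ N := by
        field_simp
      rw [e1, e2]
      exact hc
    exact le_of_mul_le_mul_right h2 (by positivity)
  have h2 : 2 * X / H0 ≤ 2 * X / L ^ (A + N + 12) :=
    div_le_div_of_nonneg_left (by positivity) hP0 hH
  have h3 : z4 ≤ X / L ^ (A + N + 12) := by rw [le_div_iff₀ hP0]; exact hz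
  have h4 : 2 * X / H0 + z4 ≤ 3 * X / L ^ (A + N + 12) := by
    have : 3 * X / L ^ (A + N + 12) = 2 * X / L ^ (A + N + 12) + X / L ^ (A + N + 12) := by ring
    linarith
  have h5 : c0 * (η / L) ^ 2 ≤ 3 * (3 * X / L ^ (A + N + 12)) * L ^ N := by
    refine h1.trans ?_
    gcongr
  have h6 : 3 * (3 * X / L ^ (A + N + 12)) * L ^ N = 9 * X / L ^ (A + 12) := by
    have e1 : L ^ (A + N + 12) = L ^ (A + 12) * L ^ N := by
      rw [← pow_add]
      congr 1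
      omega
    rw [e1]
    field_simp
    norm_num
  rw [h6] at h5
  have h7 : c0 ≤ 9 * X / L ^ (A + 10) / η ^ 2 := by
    rw [le_div_iff₀ hη20, le_div_iff₀ (by positivity)]
    have e1 : c0 * (η / L) ^ 2 * L ^ (A + 12) = c0 * η ^ 2 * L ^ (A + 10) := by
      have : L ^ (A + 12) = L ^ (A + 10) * L ^ 2 := by rw [← pow_add]
      rw [this, div_pow]
      field_simp
    have h8 := mul_le_mul_of_nonneg_right h5 (by positivity : 0 ≤ L ^ (A + 12))
    rw [e1, div_mul_cancel₀ _ (by positivity)] at h8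
    exact h8
  have h8 : 4 * L ^ 2 * c0 ≤ 4 * L ^ 2 * (9 * X / L ^ (A + 10) / η ^ 2) := by gcongr
  refine h8.trans ?_
  rw [div_div, ← mul_div_assoc, div_le_div_iff₀ (by positivity) (by positivity)]
  have e1 : L ^ (A + 10) = L ^ A * L ^ 2 * L ^ 8 := by rw [← pow_add, ← pow_add]
  rw [e1]
  have h9 : (144 : ℝ) ≤ L ^ 8 * η ^ 2 := by
    have h10 : L ≤ L ^ 8 := by
      calc L = L ^ 1 := (pow_one L).symm
        _ ≤ L ^ 8 := pow_le_pow_right₀ (by linarith) (by norm_num)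
    have h11 : L * η ^ 2 ≤ L ^ 8 * η ^ 2 := by gcongr
    linarith
  have h12 : (X * L ^ A * L ^ 2) * 144 ≤ (X * L ^ A * L ^ 2) * (L ^ 8 * η ^ 2) :=
    mul_le_mul_of_nonneg_left h9 (by positivity)
  linarith

/-- The final inequality. -/
lemma s1_final (L W H0 β e1 e2 ε : ℝ) (hε : 0 < ε) (hε1 : ε ≤ 1) (hL : 40 / ε ≤ L)
    (hW : 0 < W) (hβ : β ≤ (4 + ε / 2) / L + ε / 4 / L) (_hβ0 : 0 ≤ β) (hH : H0 * L ^ 3 ≤ W)
    (hH0 : 0 ≤ H0)
    (he1 : 2 * L ^ 2 * e1 ≤ W + H0) (he2 : e2 * L ^ 2 ≤ 2 * W) :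
    H0 + (W + H0) * β + e1 + e2 ≤ (4 + ε) * W / L := by
  have hL40 : 40 ≤ L := by
    have h1 : (40 : ℝ) / 1 ≤ 40 / ε := div_le_div_of_nonneg_left (by norm_num) hε hε1
    linarith
  have hL0 : 0 < L := by linarith
  have hLε : 40 ≤ L * ε := by rwa [div_le_iff₀ hε] at hL
  have h1 : H0 ≤ W / L ^ 3 := by rw [le_div_iff₀ (by positivity)]; exact hH
  have h2 : W / L ^ 3 ≤ W / L ^ 2 / 40 := by
    rw [div_div, div_le_div_iff₀ (by positivity) (by positivity)]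
    have : L ^ 2 * 40 ≤ L ^ 3 := by nlinarith [sq_nonneg L]
    exact mul_le_mul_of_nonneg_left this hW.le
  have h3 : e1 ≤ W / L ^ 2 := by
    rw [le_div_iff₀ (by positivity)]
    have h4 : W / L ^ 3 ≤ W := div_le_self hW.le (one_le_pow₀ (by linarith))
    linarith
  have h4 : e2 ≤ 2 * W / L ^ 2 := by rw [le_div_iff₀ (by positivity)]; exact he2
  have h5 : β ≤ 1 := by
    refine hβ.trans ?_
    rw [← add_div, div_le_one hL0]
    linarith
  have h6 : (W + H0) * β ≤ W * β + H0 := by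
    have : H0 * β ≤ H0 * 1 := mul_le_mul_of_nonneg_left h5 hH0
    linarith
  have h7 : W * β ≤ W * ((4 + ε / 2) / L + ε / 4 / L) := mul_le_mul_of_nonneg_left hβ hW.le
  have hU : 0 ≤ W / L ^ 2 := by positivity
  have h8 : H0 + (W + H0) * β + e1 + e2 ≤
      W * ((4 + ε / 2) / L + ε / 4 / L) + 5 * (W / L ^ 2) := by
    have : 2 * W / L ^ 2 = 2 * (W / L ^ 2) := by ring
    linarith
  refine h8.trans ?_
  have h9 : 5 * (W / L ^ 2) ≤ ε / 4 * W / L := by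
    rw [← mul_div_assoc, div_le_div_iff₀ (by positivity) hL0]
    have h10 : 5 ≤ L * (ε / 4) := by linarith
    have h11 : (W * L) * 5 ≤ (W * L) * (L * (ε / 4)) :=
      mul_le_mul_of_nonneg_left h10 (by positivity)
    nlinarith
  have h10 : W * ((4 + ε / 2) / L + ε / 4 / L) + ε / 4 * W / L = (4 + ε) * W / L := by
    field_simp
    ring
  linarith

end Pool.Agent.H.MP_711652_nt.QW
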