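import Mathlib
import Pool.Agent.H.MP_711652_nt.QW.S1B

set_option autoImplicit false

namespace Pool.Agent.H.MP_711652_nt.QW

open Finset BoundingSieve

/-- **Brun-Titchmarsh in almost all windows**, for `ε ≤ 1`. -/
lemma primes_windows_aux (ε : ℝ) (hε : 0 < ε) (hε1 : ε ≤ 1) (A : ℕ) : ∃ B X₀ : ℕ, ∀ X : ℕ,
    X₀ ≤ X →
    ∃ E : Finset ℕ, (E.card : ℝ) ≤ X / (Real.log X) ^ A ∧ ∀ y < X, y ∉ E →
    ∀ u v : ℕ, u ≤ y → y ≤ v → (Real.log X) ^ B ≤ (v : ℝ) - u → v ≤ u + X →
    (prIn u v : ℝ) ≤ (4 + ε) * ((v : ℝ) - u) / Real.log X := by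
  set η : ℝ := ε / 4 with hη
  have hη0 : 0 < η := by positivity
  have hη1 : η ≤ 1 := by rw [hη]; linarith
  obtain ⟨N, hN⟩ : ∃ N : ℕ, N = 80 := ⟨_, rfl⟩
  obtain ⟨X₁, hX₁⟩ := Filter.eventually_atTop.1 ((s1_params ε hε hε1 (A + N + 12)).and
    (ev_log_ge (1000 / η ^ 2 + 40 / ε)))
  refine ⟨A + N + 16, max X₁ 3, ?_⟩
  intro X hX
  obtain ⟨⟨z, hz2, hz3, hz4, hz5⟩, hL⟩ := hX₁ X (le_trans (le_max_left _ _) hX)
  have hX3 : 3 ≤ X := le_trans (le_max_right _ _) hX
  set L := Real.log X with hLdef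
  have hX0 : (0 : ℝ) < X := by exact_mod_cast (by omega : 0 < X)
  have hηL : 1000 / η ^ 2 ≤ L := by
    have : 0 ≤ 40 / ε := by positivity
    linarith
  have hεL : 40 / ε ≤ L := by
    have : 0 ≤ 1000 / η ^ 2 := by positivity
    linarith
  have hL1000 : 1000 ≤ L := by
    have h1 : (1000 : ℝ) / 1 ≤ 1000 / η ^ 2 :=
      div_le_div_of_nonneg_left (by norm_num) (by positivity) (pow_le_one₀ hη0.le hη1)
    linarith
  have hL0 : 0 < L := by linarith
  have hz1 : 1 ≤ z := by omega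
  have hzR : (1 : ℝ) ≤ z := by exact_mod_cast hz1
  have hlogz : 0 < Real.log z := Real.log_pos (by exact_mod_cast (by omega : 1 < z))
  -- the scale
  set P := L ^ (A + N + 12) with hP
  have hP1 : 1 ≤ P := one_le_pow₀ (by linarith)
  set H0 := ⌈P⌉₊ with hH0
  have hH0P : P ≤ H0 := Nat.le_ceil _
  have hH0P2 : (H0 : ℝ) ≤ 2 * P := by
    have := (Nat.ceil_lt_add_one (a := P) (by linarith)).le
    rw [← hH0] at this
    linarith
  have hH0R : (0 : ℝ) < H0 := by linarith
  have hH0pos : 0 < H0 := by exact_mod_cast hH0R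
  -- the exceptional windows at this scale
  set G := Gsum (sieve1 z) z with hG
  have hGlog : Real.log z ≤ G := log_le_Gsum1 z hz1
  have hG0 : 0 < G := by linarith
  set τ : ℝ := η / L with hτ
  have hτ0 : 0 < τ := by positivity
  set E0 := (range (2 * X)).filter
    (fun w => H0 * (G⁻¹ + τ) < winSum (sieve1 z) z (fun n => n) w H0) with hE0
  have hcheb := cheb (sieve1 z) z (fun n => n) hz1 (adm1 z) (2 * X) H0 N
    (by omega) τ hτ0
  rw [← hG, ← hE0] at hcheb
  have hpow : (1 + 2 * Real.log z) ^ N ≤ L ^ N :=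
    pow_le_pow_left₀ (by linarith) hz4 _
  have hcheb2 : (E0.card : ℝ) * (H0 * (η / L)) ^ 2 ≤
      3 * (2 * X * H0 + (H0 : ℝ) ^ 2 * (z : ℝ) ^ 4) * L ^ N := by
    refine hcheb.trans ?_
    have h1 : (((2 * X : ℕ) : ℝ)) = 2 * X := by push_cast; ring
    rw [h1]
    exact mul_le_mul_of_nonneg_left hpow (by positivity)
  have hcard := s1_card A N X L ((z : ℝ) ^ 4) H0 E0.card η hη0 hη1 hηL hX0 hz5 (by positivity)
    hH0P hcheb2 (Nat.cast_nonneg _)
  -- the exceptional points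
  obtain ⟨E1, hE1N, hE1c, hE1⟩ := sparse_max E0 (2 * L ^ 2) (by positivity) (2 * X)
  set E := E1 ∪ range ⌈z * L ^ 3⌉₊ with hE
  refine ⟨E, ?_, ?_⟩
  · have h1 : (E.card : ℝ) ≤ E1.card + ⌈z * L ^ 3⌉₊ := by
      have := card_union_le E1 (range ⌈z * L ^ 3⌉₊)
      rw [card_range] at this
      exact_mod_cast this
    have h2 : (⌈z * L ^ 3⌉₊ : ℝ) ≤ 2 * (z * L ^ 3) := by
      have h3 : 1 ≤ z * L ^ 3 := by
        have : 1 ≤ L ^ 3 := one_le_pow₀ (by linarith)
        nlinarith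
      have := (Nat.ceil_lt_add_one (a := z * L ^ 3) (by linarith)).le
      linarith
    have h3 : 2 * (z * L ^ 3) ≤ X / (4 * L ^ A) := by
      rw [le_div_iff₀ (by positivity)]
      have h4 : (z : ℝ) ≤ z ^ 4 := by
        calc (z : ℝ) = z ^ 1 := (pow_one _).symm
          _ ≤ z ^ 4 := pow_le_pow_right₀ hzR (by norm_num)
      have h5 : 8 * (L ^ 3 * L ^ A) ≤ L ^ (A + N + 12) := by
        have e1 : L ^ (A + N + 12) = L ^ 3 * L ^ A * L ^ (N + 9) := by
          rw [← pow_add, ← pow_add]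
          congr 1
          omega
        rw [e1]
        have h6 : 8 ≤ L ^ (N + 9) := by
          calc (8 : ℝ) ≤ L := by linarith
            _ = L ^ 1 := (pow_one _).symm
            _ ≤ L ^ (N + 9) := pow_le_pow_right₀ (by linarith) (by omega)
        have h7 : 0 ≤ L ^ 3 * L ^ A := by positivity
        have h8 := mul_le_mul_of_nonneg_left h6 h7
        linarith
      calc 2 * (z * L ^ 3) * (4 * L ^ A) = z * (8 * (L ^ 3 * L ^ A)) := by ring
        _ ≤ (z : ℝ) ^ 4 * L ^ (A + N + 12) := by gcongr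
        _ ≤ X := hz5
    have h4 : (E1.card : ℝ) ≤ X / (4 * L ^ A) := by
      refine hE1c.trans (le_trans (le_of_eq ?_) hcard)
      ring
    have h5 : X / (4 * L ^ A) + X / (4 * L ^ A) ≤ X / L ^ A := by
      have : X / (4 * L ^ A) + X / (4 * L ^ A) = X / L ^ A / 2 := by
        field_simp
        ring
      rw [this]
      have h6 : 0 ≤ X / L ^ A := by positivity
      linarith
    linarith
  · intro y hy hyE u v huy hyv hW hvX
    rw [hE, mem_union, not_or, mem_range, not_lt] at hyE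
    obtain ⟨hyE1, hyz⟩ := hyE
    have huv : u ≤ v := huy.trans hyv
    have hv2 : v ≤ 2 * X := by omega
    have hgood : ∀ w, w < v → w ∉ E0 → z ≤ w → (prIn w (w + H0) : ℝ) ≤ H0 * (G⁻¹ + τ) := by
      intro w hw hwE hzw
      refine (prIn_le_winSum z w H0 hz1 hzw).trans ?_
      by_contra hcon
      exact hwE (mem_filter.2 ⟨mem_range.2 (by omega), not_le.1 hcon⟩)
    have hβ0 : 0 ≤ G⁻¹ + τ := by positivity
    have h1 := prIn_avg u v H0 z (G⁻¹ + τ) E0 hH0pos hβ0 huv hgood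
    refine h1.trans ?_
    set W : ℝ := (v : ℝ) - u with hWdef
    have hPW : P * L ^ 4 ≤ W := by
      refine le_trans (le_of_eq ?_) hW
      rw [hP, ← pow_add]
    have hW0 : 0 < W := by
      have : 0 < P * L ^ 4 := by positivity
      linarith
    have hHW : H0 * L ^ 3 ≤ W := by
      refine le_trans ?_ hPW
      calc H0 * L ^ 3 ≤ 2 * P * L ^ 3 := by gcongr
        _ ≤ L * P * L ^ 3 := by
          gcongr
          linarith
        _ = P * L ^ 4 := by ring
    have hlt0 : (v : ℝ) - ((u + 1 - H0 : ℕ) : ℝ) ≤ W + H0 := by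
      have h2 : u ≤ (u + 1 - H0) + H0 := by omega
      have h3 : (u : ℝ) ≤ ((u + 1 - H0 : ℕ) : ℝ) + H0 := by exact_mod_cast h2
      rw [hWdef]
      linarith
    have he1 := hE1 y (by omega) hyE1 (u + 1 - H0) v (by omega) hyv hv2
    apply s1_final L W H0 (G⁻¹ + τ) _ _ ε hε hε1 hεL hW0 ?_ hβ0 hHW hH0R.le
    · exact he1.trans hlt0
    · -- the part below `z`
      by_cases hcase : z ≤ u + 1 - H0
      · have h2 : (range z).filter (fun i => u + 1 - H0 ≤ i ∧ i < v) = ∅ := by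
          apply filter_eq_empty_iff.2
          intro i hi h3
          rw [mem_range] at hi
          omega
        rw [h2, card_empty, Nat.cast_zero, zero_mul]
        positivity
      · have h2 : (((range z).filter (fun i => u + 1 - H0 ≤ i ∧ i < v)).card : ℝ) ≤ z := by
          have := card_filter_le (range z) (fun i => u + 1 - H0 ≤ i ∧ i < v)
          rw [card_range] at this
          exact_mod_cast this
        have h3 : u ≤ z + H0 := by omega
        have h4 : (u : ℝ) ≤ z + H0 := by exact_mod_cast h3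
        have h5 : z * L ^ 3 ≤ y := (Nat.le_ceil _).trans (by exact_mod_cast hyz)
        have h6 : (y : ℝ) ≤ v := by exact_mod_cast hyv
        have h7 : z * L ^ 3 ≤ W + z + H0 := by
          rw [hWdef]
          linarith
        have h8 : (H0 : ℝ) ≤ W := by
          have h9 : (H0 : ℝ) * 1 ≤ H0 * L ^ 3 := by
            apply mul_le_mul_of_nonneg_left _ hH0R.le
            exact one_le_pow₀ (by linarith)
          linarith
        have h9 : (z : ℝ) * L ^ 2 ≤ 2 * W := by
          have h10 : (z : ℝ) * L ^ 2 + z ≤ z * L ^ 3 := by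
            have h11 : L ^ 2 + 1 ≤ L ^ 3 := by nlinarith [sq_nonneg L]
            have := mul_le_mul_of_nonneg_left h11 (by linarith : (0 : ℝ) ≤ z)
            linarith
          linarith
        calc _ ≤ (z : ℝ) * L ^ 2 := by gcongr
          _ ≤ 2 * W := h9
    · -- the density
      have h2 : G⁻¹ ≤ (4 + ε / 2) / L := by
        rw [inv_eq_one_div, div_le_div_iff₀ hG0 hL0, one_mul]
        calc L ≤ (4 + ε / 2) * Real.log z := hz3
          _ ≤ (4 + ε / 2) * G := by gcongr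
      rw [hτ, hη]
      linarith

/-- **Brun-Titchmarsh in almost all windows.** -/
theorem primes_windows : ∀ ε : ℝ, 0 < ε → ∀ A : ℕ, ∃ B X₀ : ℕ, ∀ X : ℕ, X₀ ≤ X →
    ∃ E : Finset ℕ, (E.card : ℝ) ≤ X / (Real.log X) ^ A ∧ ∀ y < X, y ∉ E →
    ∀ u v : ℕ, u ≤ y → y ≤ v → (Real.log X) ^ B ≤ (v : ℝ) - u → v ≤ u + X →
    (prIn u v : ℝ) ≤ (4 + ε) * ((v : ℝ) - u) / Real.log X := by
  intro ε hε A
  obtain ⟨B, X₀, h⟩ := primes_windows_aux (min ε 1) (lt_min hε one_pos) (min_le_right _ _) A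
  refine ⟨B, max X₀ 3, fun X hX => ?_⟩
  obtain ⟨E, hE, h2⟩ := h X (le_trans (le_max_left _ _) hX)
  refine ⟨E, hE, fun y hy hyE u v huy hyv hW hv => ?_⟩
  refine (h2 y hy hyE u v huy hyv hW hv).trans ?_
  have hX3 : 3 ≤ X := le_trans (le_max_right _ _) hX
  have hL : 0 < Real.log X := Real.log_pos (by exact_mod_cast (by omega : 1 < X))
  have huv : (0 : ℝ) ≤ (v : ℝ) - u := by
    have : (u : ℝ) ≤ v := by exact_mod_cast huy.trans hyv
    linarith
  have h3 : min ε 1 ≤ ε := min_le_left _ _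
  gcongr

end Pool.Agent.H.MP_711652_nt.QW
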