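import Mathlib
import Pool.Agent.H.MP_b3c6db_nt.WI6
import Pool.Agent.H.MP_711652_nt.QW.S1S
import Pool.Agent.H.MP_711652_nt.Moments

set_option autoImplicit false

namespace Pool.Agent.H.MP_711652_nt.QW

open Finset Classical

/-- Rising sun lemma, sparse intervals to the right. -/
lemma rise_right (D : ℕ → ℝ) (hD : ∀ k, 0 ≤ D k) (θ : ℝ) (hθ : 0 ≤ θ) (N R : ℕ) (S : Finset ℕ)
    (hS : ∀ k ∈ S, k < N)
    (h : ∀ k ∈ S, ∃ r, 1 ≤ r ∧ r ≤ R ∧ ∑ i ∈ range r, D (k + i) ≤ θ * r) :
    ∑ k ∈ S, D k ≤ θ * (N + R) := by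
  have key : ∀ n a : ℕ, a + n = N + R → ∑ k ∈ S.filter (fun k => a ≤ k), D k ≤ θ * n := by
    intro n
    induction n using Nat.strong_induction_on with
    | _ n ih =>
      intro a ha
      by_cases haN : N ≤ a
      · have h0 : S.filter (fun k => a ≤ k) = ∅ := by
          refine filter_eq_empty_iff.2 fun k hk => ?_
          have := hS k hk
          omega
        rw [h0, sum_empty]
        exact mul_nonneg hθ (Nat.cast_nonneg _)
      · by_cases haS : a ∈ S
        · obtain ⟨r, hr1, hrR, hr⟩ := h a haS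
          have hrn : r ≤ n := by omega
          have h1 := ih (n - r) (by omega) (a + r) (by omega)
          have h2 : S.filter (fun k => a ≤ k) ⊆
              (range r).image (fun i => a + i) ∪ S.filter (fun k => a + r ≤ k) := by
            intro k hk
            rw [mem_filter] at hk
            rw [mem_union, mem_image, mem_filter]
            by_cases h3 : a + r ≤ k
            · exact Or.inr ⟨hk.1, h3⟩
            · exact Or.inl ⟨k - a, by rw [mem_range]; omega, by omega⟩
          have h3 : ∑ k ∈ (range r).image (fun i => a + i), D k = ∑ i ∈ range r, D (a + i) := by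
            rw [sum_image]
            intro i _ j _ hij
            simp only at hij
            omega
          have h4 : ∑ k ∈ S.filter (fun k => a ≤ k), D k ≤
              ∑ k ∈ (range r).image (fun i => a + i), D k +
              ∑ k ∈ S.filter (fun k => a + r ≤ k), D k := by
            refine (sum_le_sum_of_subset_of_nonneg h2 fun k _ _ => hD k).trans ?_
            have h5 := sum_union_inter (s₁ := (range r).image (fun i => a + i))
              (s₂ := S.filter (fun k => a + r ≤ k)) (f := D)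
            have h6 : 0 ≤ ∑ k ∈ (range r).image (fun i => a + i) ∩ S.filter (fun k => a + r ≤ k),
              D k := sum_nonneg fun k _ => hD k
            linarith
          rw [h3] at h4
          have h5 : ((n - r : ℕ) : ℝ) = n - r := by
            rw [Nat.cast_sub hrn]
          rw [h5] at h1
          calc _ ≤ _ := h4
            _ ≤ θ * r + θ * (n - r) := add_le_add hr h1
            _ = θ * n := by ring
        · have h2 : S.filter (fun k => a ≤ k) = S.filter (fun k => a + 1 ≤ k) := by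
            ext k
            rw [mem_filter, mem_filter]
            constructor
            · rintro ⟨h3, h4⟩
              refine ⟨h3, ?_⟩
              rcases Nat.eq_or_lt_of_le h4 with h5 | h5
              · rw [← h5] at h3
                exact absurd h3 haS
              · exact h5
            · rintro ⟨h3, h4⟩
              exact ⟨h3, by omega⟩
          rw [h2]
          have h1 := ih (n - 1) (by omega) (a + 1) (by omega)
          refine h1.trans ?_
          apply mul_le_mul_of_nonneg_left _ hθ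
          have : n - 1 ≤ n := by omega
          exact_mod_cast this
  have h1 := key (N + R) 0 (by omega)
  have h2 : S.filter (fun k => 0 ≤ k) = S := filter_true_of_mem fun k _ => Nat.zero_le k
  rw [h2] at h1
  push_cast at h1
  exact h1

/-- Rising sun lemma, sparse intervals to the left. -/
lemma rise_left (D : ℕ → ℝ) (hD : ∀ k, 0 ≤ D k) (θ : ℝ) (hθ : 0 ≤ θ) (N : ℕ) (S : Finset ℕ)
    (hS : ∀ k ∈ S, k < N)
    (h : ∀ k ∈ S, ∃ r, 1 ≤ r ∧ r ≤ k + 1 ∧ ∑ i ∈ range r, D (k - i) ≤ θ * r) :
    ∑ k ∈ S, D k ≤ θ * N := by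
  have key : ∀ n : ℕ, ∑ k ∈ S.filter (fun k => k < n), D k ≤ θ * n := by
    intro n
    induction n using Nat.strong_induction_on with
    | _ n ih =>
      rcases Nat.eq_zero_or_pos n with hn | hn
      · subst hn
        simp
      · obtain ⟨m, rfl⟩ : ∃ m, n = m + 1 := ⟨n - 1, by omega⟩
        by_cases hmS : m ∈ S
        · obtain ⟨r, hr1, hrm, hr⟩ := h m hmS
          have h1 := ih (m + 1 - r) (by omega)
          have h2 : S.filter (fun k => k < m + 1) ⊆
              (range r).image (fun i => m - i) ∪ S.filter (fun k => k < m + 1 - r) := by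
            intro k hk
            rw [mem_filter] at hk
            rw [mem_union, mem_image, mem_filter]
            by_cases h3 : k < m + 1 - r
            · exact Or.inr ⟨hk.1, h3⟩
            · exact Or.inl ⟨m - k, by rw [mem_range]; omega, by omega⟩
          have h3 : ∑ k ∈ (range r).image (fun i => m - i), D k = ∑ i ∈ range r, D (m - i) := by
            rw [sum_image]
            intro i hi j hj hij
            rw [mem_coe, mem_range] at hi hj
            simp only at hij
            omega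
          have h4 : ∑ k ∈ S.filter (fun k => k < m + 1), D k ≤
              ∑ k ∈ (range r).image (fun i => m - i), D k +
              ∑ k ∈ S.filter (fun k => k < m + 1 - r), D k := by
            refine (sum_le_sum_of_subset_of_nonneg h2 fun k _ _ => hD k).trans ?_
            have h5 := sum_union_inter (s₁ := (range r).image (fun i => m - i))
              (s₂ := S.filter (fun k => k < m + 1 - r)) (f := D)
            have h6 : 0 ≤ ∑ k ∈ (range r).image (fun i => m - i) ∩
              S.filter (fun k => k < m + 1 - r), D k := sum_nonneg fun k _ => hD k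
            linarith
          rw [h3] at h4
          have h5 : ((m + 1 - r : ℕ) : ℝ) = (m + 1 : ℕ) - r := by
            rw [Nat.cast_sub hrm]
          rw [h5] at h1
          calc _ ≤ _ := h4
            _ ≤ θ * r + θ * ((m + 1 : ℕ) - r) := add_le_add hr h1
            _ = θ * (m + 1 : ℕ) := by ring
        · have h2 : S.filter (fun k => k < m + 1) = S.filter (fun k => k < m) := by
            ext k
            rw [mem_filter, mem_filter]
            constructor
            · rintro ⟨h3, h4⟩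
              refine ⟨h3, ?_⟩
              rcases Nat.lt_succ_iff_lt_or_eq.1 h4 with h5 | h5
              · exact h5
              · rw [h5] at h3
                exact absurd h3 hmS
            · rintro ⟨h3, h4⟩
              exact ⟨h3, by omega⟩
          rw [h2]
          have h1 := ih m (by omega)
          refine h1.trans ?_
          apply mul_le_mul_of_nonneg_left _ hθ
          push_cast
          linarith
  have h1 := key N
  have h2 : S.filter (fun k => k < N) = S := filter_true_of_mem fun k hk => hS k hk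
  rw [h2] at h1
  exact h1

lemma pos_of_mul_pos_of_pos {a b : ℝ} (h : 0 < a * b) (ha : 0 ≤ a) : 0 < b := by
  by_contra hb
  rw [not_lt] at hb
  have := mul_nonpos_of_nonneg_of_nonpos ha hb
  linarith

lemma prIn_eq_sum (z H : ℕ) : prIn z (z + H) = ∑ i ∈ range H, if (z + 1 + i).Prime then 1 else 0 := by
  unfold prIn
  rw [card_filter]
  apply sum_bij (fun q _ => q - (z + 1))
  · intro q hq
    rw [mem_Ioc] at hq
    rw [mem_range]
    omega
  · intro q hq q' hq' h
    rw [mem_Ioc] at hq hq'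
    omega
  · intro i hi
    rw [mem_range] at hi
    exact ⟨z + 1 + i, by rw [mem_Ioc]; omega, by omega⟩
  · intro q hq
    rw [mem_Ioc] at hq
    have : z + 1 + (q - (z + 1)) = q := by omega
    rw [this]

lemma sum_shift_prime (a v i : ℕ) (_hav : a ≤ v) :
    (∑ z ∈ Ico a v, if (z + 1 + i).Prime then 1 else 0) = prIn (a + i) (v + i) := by
  unfold prIn
  rw [card_filter]
  apply sum_bij (fun z _ => z + 1 + i)
  · intro z hz
    rw [mem_Ico] at hz
    rw [mem_Ioc]
    omega
  · intro z _ z' _ h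
    omega
  · intro q hq
    rw [mem_Ioc] at hq
    exact ⟨q - 1 - i, by rw [mem_Ico]; omega, by omega⟩
  · intro z _
    rfl

lemma prIn_mono {u v u' v' : ℕ} (hu : u' ≤ u) (hv : v ≤ v') : prIn u v ≤ prIn u' v' := by
  unfold prIn
  apply card_le_card
  apply filter_subset_filter
  exact Ioc_subset_Ioc hu hv

lemma prIn_le (u v : ℕ) : prIn u v ≤ v - u := by
  unfold prIn
  refine (card_filter_le _ _).trans ?_
  rw [Nat.card_Ioc]

lemma prIn_split {u v w : ℕ} (huv : u ≤ v) (hvw : v ≤ w) : prIn u w = prIn u v + prIn v w := by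
  unfold prIn
  rw [← card_union_of_disjoint]
  · rw [← filter_union, Ioc_union_Ioc_eq_Ioc huv hvw]
  · apply disjoint_filter_filter
    rw [Finset.disjoint_left]
    intro x h1 h2
    rw [mem_Ioc] at h1 h2
    omega

/-- Averaging over the windows of length `H`: upper bound. -/
lemma sum_prIn_le (a v H : ℕ) (hav : a ≤ v) :
    ∑ z ∈ Ico a v, prIn z (z + H) ≤ H * (prIn a v + H) := by
  have h1 : ∑ z ∈ Ico a v, prIn z (z + H) =
      ∑ i ∈ range H, prIn (a + i) (v + i) := by
    rw [sum_congr rfl fun z _ => prIn_eq_sum z H, sum_comm]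
    exact sum_congr rfl fun i _ => sum_shift_prime a v i hav
  rw [h1]
  calc ∑ i ∈ range H, prIn (a + i) (v + i) ≤ ∑ i ∈ range H, (prIn a v + H) := by
        apply sum_le_sum
        intro i hi
        rw [mem_range] at hi
        have h2 : prIn (a + i) (v + i) ≤ prIn a (v + H) := prIn_mono (by omega) (by omega)
        have h3 : prIn a (v + H) = prIn a v + prIn v (v + H) := prIn_split hav (by omega)
        have h4 := prIn_le v (v + H)
        omega
    _ = _ := by rw [sum_const, card_range, smul_eq_mul]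

/-- Averaging over the windows of length `H`: lower bound. -/
lemma sum_prIn_ge (X H : ℕ) (hHX : H ≤ X) :
    H * prIn 0 X ≤ ∑ z ∈ range X, prIn z (z + H) + H * H := by
  have h1 : ∑ z ∈ range X, prIn z (z + H) = ∑ i ∈ range H, prIn (0 + i) (X + i) := by
    rw [sum_congr rfl fun z _ => prIn_eq_sum z H, sum_comm]
    apply sum_congr rfl
    intro i _
    rw [range_eq_Ico]
    exact sum_shift_prime 0 X i (Nat.zero_le _)
  rw [h1]
  have h2 : ∀ i ∈ range H, prIn 0 X ≤ prIn (0 + i) (X + i) + H := by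
    intro i hi
    rw [mem_range] at hi
    have h3 : prIn 0 X = prIn 0 i + prIn i X := prIn_split (Nat.zero_le _) (by omega)
    have h4 := prIn_le 0 i
    have h5 : prIn i X ≤ prIn (0 + i) (X + i) := prIn_mono (by omega) (by omega)
    omega
  calc H * prIn 0 X = ∑ i ∈ range H, prIn 0 X := by rw [sum_const, card_range, smul_eq_mul]
    _ ≤ ∑ i ∈ range H, (prIn (0 + i) (X + i) + H) := sum_le_sum h2
    _ = _ := by rw [sum_add_distrib, sum_const, card_range, smul_eq_mul]

/-- The prime number theorem in the form used here. -/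
lemma pnt_lower (e : ℝ) (he : 0 < e) : ∃ X₀ : ℕ, ∀ X : ℕ, X₀ ≤ X →
    (1 - e) * X ≤ prIn 0 X * Real.log X := by
  have h1 : Filter.Tendsto (fun x : ℝ => B3WI.thetaq (0 : ZMod 1) x / x) Filter.atTop
      (nhds (((1 : ℕ).totient : ℝ)⁻¹)) := B3WI.thetaq_asymp (isUnit_of_subsingleton _)
  rw [Nat.totient_one, Nat.cast_one, inv_one] at h1
  have h2 := h1.eventually (lt_mem_nhds (show 1 - e < 1 by linarith))
  obtain ⟨x₀, hx₀⟩ := Filter.eventually_atTop.1 h2
  refine ⟨max ⌈x₀⌉₊ 1, ?_⟩
  intro X hX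
  have hX0 : x₀ ≤ X := (Nat.le_ceil _).trans (by exact_mod_cast (le_max_left _ _).trans hX)
  have hX1 : 1 ≤ X := (le_max_right _ _).trans hX
  have hXr : (0 : ℝ) < X := by exact_mod_cast hX1
  have h3 := hx₀ X hX0
  rw [lt_div_iff₀ hXr] at h3
  refine h3.le.trans ?_
  unfold B3WI.thetaq
  rw [Nat.floor_natCast]
  have h4 : (prIn 0 X : ℝ) * Real.log X = ∑ k ∈ Icc 1 X, if k.Prime then Real.log X else 0 := by
    rw [← sum_filter, sum_const, nsmul_eq_mul]
    congr 2
  rw [h4]
  apply sum_le_sum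
  intro k hk
  rw [mem_Icc] at hk
  have h5 : Real.log k ≤ Real.log X := Real.log_le_log (by exact_mod_cast hk.1) (by exact_mod_cast hk.2)
  by_cases hp : k.Prime
  · rw [if_pos hp]
    split_ifs
    · exact h5
    · exact Real.log_nonneg (by exact_mod_cast hX1)
  · rw [if_neg hp, if_neg (fun h => hp h.1)]

/-- The core of the argument at one `X`. -/
lemma quarter_core (X H0 : ℕ) (L e Q : ℝ) (E : Finset ℕ) (he : 0 < e) (_he1 : e ≤ 1) (hL : 1 ≤ L)
    (hH0 : 1 ≤ H0) (hH0X : H0 ≤ X) (hX : 0 < X)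
    (hQ : 24 * (L * (H0 + 1)) ≤ e * Q)
    (hpnt : (1 - e) * X ≤ prIn 0 X * L)
    (hE : (E.card : ℝ) * L ≤ e / 4 * X) (hLH : L * H0 ≤ e / 4 * X)
    (hup : ∀ z < X, z ∉ E → (prIn z (z + H0) : ℝ) ≤ (4 + e) * H0 / L) :
    (1 / 4 - e) * X ≤ (((range X).filter (fun y => ∀ u v : ℕ, u ≤ y → y ≤ v →
      Q ≤ (v : ℝ) - u → v ≤ u + X → e / 24 * ((v : ℝ) - u) / L ≤ prIn u v)).card : ℝ) := by
  have hL0 : 0 < L := by linarith
  have hH0r : (0 : ℝ) < H0 := by exact_mod_cast hH0
  have hXr : (0 : ℝ) < X := by exact_mod_cast hX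
  obtain ⟨D, hD⟩ : ∃ D : ℕ → ℝ, ∀ z, D z = prIn z (z + H0) * (L / H0) := ⟨_, fun _ => rfl⟩
  have hD0 : ∀ z, 0 ≤ D z := fun z => by rw [hD]; positivity
  have hDL : ∀ z, D z ≤ L := by
    intro z
    rw [hD]
    have h1 := prIn_le z (z + H0)
    have h2 : (prIn z (z + H0) : ℝ) ≤ H0 := by
      have : prIn z (z + H0) ≤ H0 := by omega
      exact_mod_cast this
    calc (prIn z (z + H0) : ℝ) * (L / H0) ≤ H0 * (L / H0) := by gcongr
      _ = L := by field_simp
  set G := (range X).filter (fun y => ∀ u v : ℕ, u ≤ y → y ≤ v →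
      Q ≤ (v : ℝ) - u → v ≤ u + X → e / 24 * ((v : ℝ) - u) / L ≤ prIn u v) with hG
  set P1 : ℕ → Prop := fun y => ∃ r, 1 ≤ r ∧ r ≤ X ∧ ∑ i ∈ range r, D (y + i) ≤ e / 6 * r with hP1
  set P2 : ℕ → Prop := fun y => ∃ r, 1 ≤ r ∧ r ≤ y + 1 ∧
    ∑ i ∈ range r, D (y - i) ≤ e / 6 * r with hP2
  -- windows of the averaged function
  have hwin : ∀ a v : ℕ, a ≤ v → ∑ z ∈ Ico a v, D z ≤ L * (prIn a v + H0) := by
    intro a v hav
    have h1 := sum_prIn_le a v H0 hav
    have h2 : (∑ z ∈ Ico a v, (prIn z (z + H0) : ℝ)) ≤ H0 * (prIn a v + H0) := by exact_mod_cast h1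
    have h3 : ∑ z ∈ Ico a v, D z = (∑ z ∈ Ico a v, (prIn z (z + H0) : ℝ)) * (L / H0) := by
      rw [sum_mul]
      exact sum_congr rfl fun z _ => hD z
    rw [h3]
    calc _ ≤ H0 * (prIn a v + H0) * (L / H0) := by gcongr
      _ = L * (prIn a v + H0) := by field_simp
  -- bad points
  have hbad : ∀ y, y < X → y ∉ G → P1 y ∨ P2 y := by
    intro y hy hyG
    rw [hG, mem_filter, mem_range] at hyG
    have h1 : ∃ u v : ℕ, u ≤ y ∧ y ≤ v ∧ Q ≤ (v : ℝ) - u ∧ v ≤ u + X ∧
        (prIn u v : ℝ) < e / 24 * ((v : ℝ) - u) / L := by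
      by_contra hc
      apply hyG
      refine ⟨hy, fun u v h2 h3 h4 h5 => ?_⟩
      by_contra h6
      exact hc ⟨u, v, h2, h3, h4, h5, not_le.1 h6⟩
    obtain ⟨u, v, huy, hyv, hQv, hvX, hsp⟩ := h1
    rw [lt_div_iff₀ hL0] at hsp
    have hQpos : 0 < e * Q := by
      refine lt_of_lt_of_le ?_ hQ
      positivity
    have hlen : 24 * (L * (H0 + 1)) ≤ e * ((v : ℝ) - u) := by
      refine hQ.trans ?_
      exact mul_le_mul_of_nonneg_left hQv he.le
    have huv : (u : ℝ) ≤ v := by exact_mod_cast huy.trans hyv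
    by_cases hhalf : (v : ℝ) - u ≤ 2 * ((v : ℝ) - y)
    · left
      have hyv' : y < v := by
        have h2 : 0 < (v : ℝ) - u := by
          have : 0 < e * ((v : ℝ) - u) := lt_of_lt_of_le (by positivity) hlen
          exact pos_of_mul_pos_of_pos this he.le
        have h3 : (y : ℝ) < v := by linarith
        exact_mod_cast h3
      refine ⟨v - y, by omega, by omega, ?_⟩
      have h2 := hwin y v hyv
      have h3 : ∑ i ∈ range (v - y), D (y + i) = ∑ z ∈ Ico y v, D z := by
        rw [sum_Ico_eq_sum_range]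
      rw [h3]
      refine h2.trans ?_
      have h4 : (prIn y v : ℝ) ≤ prIn u v := by exact_mod_cast prIn_mono huy le_rfl
      have h5 : ((v - y : ℕ) : ℝ) = v - y := by rw [Nat.cast_sub hyv]
      rw [h5]
      have h6 : (prIn y v : ℝ) * L ≤ e / 24 * ((v : ℝ) - u) :=
        (mul_le_mul_of_nonneg_right h4 hL0.le).trans hsp.le
      have h7 : e * ((v : ℝ) - u) ≤ e * (2 * ((v : ℝ) - y)) := mul_le_mul_of_nonneg_left hhalf he.le
      linarith
    · right
      rw [not_le] at hhalf
      have huy' : u < y := by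
        have h3 : (u : ℝ) < y := by
          have h2 : (v : ℝ) - u ≤ 2 * (v - u) := by linarith
          linarith
        exact_mod_cast h3
      refine ⟨y - u, by omega, by omega, ?_⟩
      have h2 := hwin (u + 1) (y + 1) (by omega)
      have h3 : ∑ i ∈ range (y - u), D (y - i) = ∑ z ∈ Ico (u + 1) (y + 1), D z := by
        rw [← sum_range_reflect, sum_Ico_eq_sum_range]
        have h4 : y + 1 - (u + 1) = y - u := by omega
        rw [h4]
        apply sum_congr rfl
        intro i hi
        rw [mem_range] at hi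
        congr 1
        omega
      rw [h3]
      refine h2.trans ?_
      have h4 : (prIn (u + 1) (y + 1) : ℝ) ≤ prIn u v + 1 := by
        have h5 : prIn (u + 1) (y + 1) ≤ prIn u (y + 1) := prIn_mono (by omega) le_rfl
        have h6 : prIn u (y + 1) = prIn u y + prIn y (y + 1) := prIn_split huy (by omega)
        have h7 := prIn_le y (y + 1)
        have h8 : prIn u y ≤ prIn u v := prIn_mono le_rfl hyv
        have h9 : prIn (u + 1) (y + 1) ≤ prIn u v + 1 := by omega
        exact_mod_cast h9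
      have h5 : ((y - u : ℕ) : ℝ) = y - u := by rw [Nat.cast_sub huy]
      rw [h5]
      have h6 : ((prIn (u + 1) (y + 1) : ℝ)) * L ≤ e / 24 * ((v : ℝ) - u) + L := by
        have := mul_le_mul_of_nonneg_right h4 hL0.le
        linarith
      have h7 : e * ((v : ℝ) - u) ≤ e * (2 * ((y : ℝ) - u)) :=
        mul_le_mul_of_nonneg_left (by linarith) he.le
      linarith
  -- the mass
  have htot : (1 - e) * X - e / 4 * X ≤ ∑ z ∈ range X, D z := by
    have h1 := sum_prIn_ge X H0 hH0X
    have h2 : (H0 : ℝ) * prIn 0 X ≤ (∑ z ∈ range X, (prIn z (z + H0) : ℝ)) + H0 * H0 := by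
      exact_mod_cast h1
    have h3 : ∑ z ∈ range X, D z = (∑ z ∈ range X, (prIn z (z + H0) : ℝ)) * (L / H0) := by
      rw [sum_mul]
      exact sum_congr rfl fun z _ => hD z
    have h4 : (H0 : ℝ) * prIn 0 X * (L / H0) ≤
        ((∑ z ∈ range X, (prIn z (z + H0) : ℝ)) + H0 * H0) * (L / H0) := by gcongr
    have h5 : (H0 : ℝ) * prIn 0 X * (L / H0) = prIn 0 X * L := by field_simp
    have h6 : ((∑ z ∈ range X, (prIn z (z + H0) : ℝ)) + H0 * H0) * (L / H0) =
        (∑ z ∈ range X, (prIn z (z + H0) : ℝ)) * (L / H0) + L * H0 := by field_simp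
    rw [h5, h6, ← h3] at h4
    linarith
  have hS1 := rise_right D hD0 (e / 6) (by positivity) X X ((range X).filter P1)
    (fun k hk => mem_range.1 (mem_filter.1 hk).1) (fun k hk => (mem_filter.1 hk).2)
  have hS2 := rise_left D hD0 (e / 6) (by positivity) X ((range X).filter P2)
    (fun k hk => mem_range.1 (mem_filter.1 hk).1) (fun k hk => (mem_filter.1 hk).2)
  have hcov : range X ⊆ (range X).filter P1 ∪ ((range X).filter P2 ∪ (G ∩ E ∪ (G \ E))) := by
    intro y hy
    rw [mem_union, mem_union, mem_filter, mem_filter]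
    by_cases hyG : y ∈ G
    · right; right
      rw [mem_union, mem_inter, mem_sdiff]
      by_cases hyE : y ∈ E
      · exact Or.inl ⟨hyG, hyE⟩
      · exact Or.inr ⟨hyG, hyE⟩
    · rcases hbad y (mem_range.1 hy) hyG with h | h
      · exact Or.inl ⟨hy, h⟩
      · exact Or.inr (Or.inl ⟨hy, h⟩)
  have hun : ∀ S T : Finset ℕ, ∑ k ∈ S ∪ T, D k ≤ ∑ k ∈ S, D k + ∑ k ∈ T, D k := by
    intro S T
    have h5 := sum_union_inter (s₁ := S) (s₂ := T) (f := D)
    have h6 : 0 ≤ ∑ k ∈ S ∩ T, D k := sum_nonneg fun k _ => hD0 k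
    linarith
  have hGE : ∑ k ∈ G ∩ E, D k ≤ e / 4 * X := by
    refine le_trans ?_ hE
    calc ∑ k ∈ G ∩ E, D k ≤ ∑ k ∈ E, D k :=
          sum_le_sum_of_subset_of_nonneg inter_subset_right fun k _ _ => hD0 k
      _ ≤ ∑ k ∈ E, L := sum_le_sum fun k _ => hDL k
      _ = E.card * L := by rw [sum_const, nsmul_eq_mul]
  have hGn : ∑ k ∈ G \ E, D k ≤ (4 + e) * G.card := by
    calc ∑ k ∈ G \ E, D k ≤ ∑ k ∈ G \ E, (4 + e) := by
          apply sum_le_sum
          intro k hk
          rw [mem_sdiff, hG, mem_filter, mem_range] at hk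
          have h1 := hup k hk.1.1 hk.2
          rw [hD]
          calc (prIn k (k + H0) : ℝ) * (L / H0) ≤ (4 + e) * H0 / L * (L / H0) := by gcongr
            _ = 4 + e := by field_simp
      _ = (G \ E).card * (4 + e) := by rw [sum_const, nsmul_eq_mul]
      _ ≤ G.card * (4 + e) := by
          apply mul_le_mul_of_nonneg_right _ (by linarith)
          exact_mod_cast card_le_card sdiff_subset
      _ = _ := by ring
  have h1 : ∑ z ∈ range X, D z ≤ e / 6 * (X + X) + (e / 6 * X + (e / 4 * X + (4 + e) * G.card)) := by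
    refine (sum_le_sum_of_subset_of_nonneg hcov fun k _ _ => hD0 k).trans ?_
    refine (hun _ _).trans (add_le_add hS1 ?_)
    refine (hun _ _).trans (add_le_add hS2 ?_)
    exact (hun _ _).trans (add_le_add hGE hGn)
  have h2 : (1 - 2 * e) * X ≤ (4 + e) * G.card := by linarith
  have h3 : (1 / 4 - e) * X * (4 + e) ≤ (1 - 2 * e) * X := by
    have h4 : (1 / 4 - e) * (4 + e) ≤ 1 - 2 * e := by nlinarith
    calc (1 / 4 - e) * X * (4 + e) = (1 / 4 - e) * (4 + e) * X := by ring
      _ ≤ _ := mul_le_mul_of_nonneg_right h4 hXr.le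
  have h4 : (1 / 4 - e) * X * (4 + e) ≤ G.card * (4 + e) := by linarith
  exact le_of_mul_le_mul_right h4 (by linarith)

/-- **A quarter of all integers.** -/
theorem quarter : ∀ ε : ℝ, 0 < ε → ∃ δ : ℝ, 0 < δ ∧ ∃ B X₀ : ℕ, ∀ X : ℕ, X₀ ≤ X →
    (1 / 4 - ε) * X ≤ (((range X).filter (fun y => ∀ u v : ℕ, u ≤ y → y ≤ v →
      (Real.log X) ^ B ≤ (v : ℝ) - u → v ≤ u + X →
      δ * ((v : ℝ) - u) / Real.log X ≤ prIn u v)).card : ℝ) := by
  intro ε hε
  obtain ⟨e, he⟩ : ∃ e, e = min ε 1 := ⟨_, rfl⟩
  have he0 : 0 < e := by rw [he]; exact lt_min hε one_pos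
  have he1 : e ≤ 1 := by rw [he]; exact min_le_right _ _
  have heε : e ≤ ε := by rw [he]; exact min_le_left _ _
  obtain ⟨B0, X1, h1⟩ := primes_windows e he0 2
  obtain ⟨X2, h2⟩ := pnt_lower e he0
  have ev1 := eventually_log_pow (B0 + 1) (8 / e) (by positivity)
  have ev2 : ∀ᶠ X : ℕ in Filter.atTop, max (48 * 3 / e) 4 ≤ Real.log X :=
    (Real.tendsto_log_atTop.comp tendsto_natCast_atTop_atTop).eventually
      (Filter.eventually_ge_atTop _)
  obtain ⟨X3, hX3⟩ := Filter.eventually_atTop.1 (ev1.and ev2)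
  refine ⟨e / 24, by positivity, B0 + 2, max (max X1 X2) (max X3 1), ?_⟩
  intro X hX
  have hX1 : X1 ≤ X := le_trans (le_trans (le_max_left _ _) (le_max_left _ _)) hX
  have hX2 : X2 ≤ X := le_trans (le_trans (le_max_right _ _) (le_max_left _ _)) hX
  have hX3' : X3 ≤ X := le_trans (le_trans (le_max_left _ _) (le_max_right _ _)) hX
  have hX0 : 1 ≤ X := le_trans (le_trans (le_max_right _ _) (le_max_right _ _)) hX
  obtain ⟨hlog1, hlog2⟩ := hX3 X hX3'
  obtain ⟨L, hL⟩ : ∃ L, L = Real.log X := ⟨_, rfl⟩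
  rw [← hL] at hlog1 hlog2 ⊢
  have hL4 : 4 ≤ L := (le_max_right _ _).trans hlog2
  have hLe : 144 ≤ e * L := by
    have h3 := (le_max_left _ _).trans hlog2
    rw [div_le_iff₀ he0] at h3
    linarith
  have hXr : (0 : ℝ) < X := by exact_mod_cast hX0
  have hLB : 1 ≤ L ^ B0 := one_le_pow₀ (by linarith)
  have hH0 : (⌈L ^ B0⌉₊ : ℝ) ≤ 2 * L ^ B0 := by
    have := Nat.ceil_lt_add_one (a := L ^ B0) (by positivity)
    linarith
  have hlogX : 8 * L ^ (B0 + 1) ≤ e * X := by
    have h3 : 8 / e * L ^ (B0 + 1) * e ≤ X * e := mul_le_mul_of_nonneg_right hlog1 he0.le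
    have h4 : 8 / e * L ^ (B0 + 1) * e = 8 * L ^ (B0 + 1) := by field_simp
    rw [h4] at h3
    linarith
  have hLH : L * ⌈L ^ B0⌉₊ ≤ e / 4 * X := by
    calc L * ⌈L ^ B0⌉₊ ≤ L * (2 * L ^ B0) := by gcongr
      _ = 2 * L ^ (B0 + 1) := by ring
      _ ≤ e / 4 * X := by linarith
  obtain ⟨E, hE, hup⟩ := h1 X hX1
  rw [← hL] at hE hup
  have hcore := quarter_core X ⌈L ^ B0⌉₊ L e (L ^ (B0 + 2)) E he0 he1 (by linarith)
    (Nat.ceil_pos.2 (by positivity)) (by
      have h3 : (⌈L ^ B0⌉₊ : ℝ) ≤ X := by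
        calc (⌈L ^ B0⌉₊ : ℝ) = 1 * ⌈L ^ B0⌉₊ := (one_mul _).symm
          _ ≤ L * ⌈L ^ B0⌉₊ := by gcongr; linarith
          _ ≤ e / 4 * X := hLH
          _ ≤ 1 * X := by gcongr; linarith
          _ = X := one_mul _
      exact_mod_cast h3) hX0 (by
      calc 24 * (L * (⌈L ^ B0⌉₊ + 1)) ≤ 24 * (L * (2 * L ^ B0 + L ^ B0)) := by gcongr
        _ = 72 * L ^ (B0 + 1) := by ring
        _ ≤ e * L * L ^ (B0 + 1) := by gcongr; linarith
        _ = e * L ^ (B0 + 2) := by ring) (by
      rw [hL]; exact h2 X hX2) (by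
      calc (E.card : ℝ) * L ≤ X / L ^ 2 * L := by gcongr
        _ = X / L := by field_simp
        _ ≤ e / 4 * X := by
          rw [div_le_iff₀ (by linarith)]
          calc (X : ℝ) = 1 * X := (one_mul _).symm
            _ ≤ e * L / 4 * X := by gcongr; linarith
            _ = e / 4 * X * L := by ring) hLH (by
      intro z hz hzE
      have h3 := hup z hz hzE z (z + ⌈L ^ B0⌉₊) le_rfl (by omega) (by
        push_cast
        have := Nat.le_ceil (L ^ B0)
        linarith) (by
        have h3 : (⌈L ^ B0⌉₊ : ℝ) ≤ X := by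
          calc (⌈L ^ B0⌉₊ : ℝ) = 1 * ⌈L ^ B0⌉₊ := (one_mul _).symm
            _ ≤ L * ⌈L ^ B0⌉₊ := by gcongr; linarith
            _ ≤ e / 4 * X := hLH
            _ ≤ 1 * X := by gcongr; linarith
            _ = X := one_mul _
        have h4 : ⌈L ^ B0⌉₊ ≤ X := by exact_mod_cast h3
        omega)
      push_cast at h3
      have e1 : (z : ℝ) + ⌈L ^ B0⌉₊ - z = ⌈L ^ B0⌉₊ := by ring
      rw [e1] at h3
      exact h3)
  refine le_trans ?_ hcore
  apply mul_le_mul_of_nonneg_right _ hXr.le
  linarith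

end Pool.Agent.H.MP_711652_nt.QW
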