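import Mathlib
import Pool.Agent.H.MP_711652_nt.QW.QuarterS

set_option autoImplicit false

namespace Pool.Agent.H.MP_711652_nt.QW

open Finset Classical

/-! ## A quarter of all integers with an explicit density -/

/-- The mass of one point. -/
noncomputable def qmu (L : ℝ) (z : ℕ) : ℝ := if (z + 1).Prime then L else 0

lemma qmu_nonneg {L : ℝ} (hL : 0 ≤ L) (z : ℕ) : 0 ≤ qmu L z := by
  unfold qmu
  split_ifs
  · exact hL
  · exact le_rfl

lemma qmu_le {L : ℝ} (hL : 0 ≤ L) (z : ℕ) : qmu L z ≤ L := by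
  unfold qmu
  split_ifs
  · exact le_rfl
  · exact hL

lemma sum_qmu (L : ℝ) (a b : ℕ) (hab : a ≤ b) : ∑ z ∈ Ico a b, qmu L z = prIn a b * L := by
  have h := sum_shift_prime a b 0 hab
  rw [add_zero, add_zero] at h
  rw [← h]
  push_cast
  rw [sum_mul]
  apply sum_congr rfl
  intro z _
  unfold qmu
  rw [add_zero]
  split_ifs
  · rw [one_mul]
  · rw [zero_mul]

/-- The sparse points, to the right or to the left. -/
lemma sparse_side (L d η θ Q : ℝ) (R y u v : ℕ) (hL : 0 < L) (hd : 0 ≤ d) (hη : 0 < η)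
    (hη2 : η ≤ 1 / 2) (hQ0 : 0 < Q) (hθ : d / (1 - η) + L / (η * Q) ≤ θ)
    (huy : u ≤ y) (hyv : y ≤ v) (hQv : Q ≤ (v : ℝ) - u) (hvR : v ≤ u + R)
    (hsp : (prIn u v : ℝ) * L < d * ((v : ℝ) - u)) :
    (∃ r, 1 ≤ r ∧ r ≤ R ∧ ∑ i ∈ range r, qmu L (y + i) ≤ θ * r) ∨
    (∃ r, 1 ≤ r ∧ r ≤ y + 1 ∧ ∑ i ∈ range r, qmu L (y - i) ≤ θ * r) := by
  have h1η : 0 < 1 - η := by linarith
  have huyR : (u : ℝ) ≤ y := by exact_mod_cast huy
  have hyvR : (y : ℝ) ≤ v := by exact_mod_cast hyv
  have hsplit : (prIn u v : ℝ) = prIn u y + prIn y v := by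
    exact_mod_cast prIn_split huy hyv
  have hp1 : (0 : ℝ) ≤ prIn u y := Nat.cast_nonneg _
  have hp2 : (0 : ℝ) ≤ prIn y v := Nat.cast_nonneg _
  have hd1 : d ≤ d / (1 - η) := by
    rw [le_div_iff₀ h1η]
    nlinarith
  -- one of the two sides is sparse and long
  have key : (η * ((v : ℝ) - u) ≤ (v : ℝ) - y ∧ (prIn y v : ℝ) * L ≤ d / (1 - η) * ((v : ℝ) - y)) ∨
      (η * ((v : ℝ) - u) ≤ (y : ℝ) - u ∧ (prIn u y : ℝ) * L ≤ d / (1 - η) * ((y : ℝ) - u)) := by
    by_cases ha : (v : ℝ) - y < η * ((v : ℝ) - u)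
    · right
      have hW : 0 ≤ (v : ℝ) - u := by linarith
      constructor
      · have : η * ((v : ℝ) - u) ≤ 1 / 2 * ((v : ℝ) - u) := mul_le_mul_of_nonneg_right hη2 hW
        linarith
      · have h2 : (1 - η) * ((v : ℝ) - u) ≤ (y : ℝ) - u := by linarith
        calc (prIn u y : ℝ) * L ≤ (prIn u v : ℝ) * L := by
              apply mul_le_mul_of_nonneg_right _ hL.le
              linarith
          _ ≤ d * ((v : ℝ) - u) := hsp.le
          _ = d / (1 - η) * ((1 - η) * ((v : ℝ) - u)) := by field_simp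
          _ ≤ d / (1 - η) * ((y : ℝ) - u) := mul_le_mul_of_nonneg_left h2 (by positivity)
    · rw [not_lt] at ha
      by_cases hb : (y : ℝ) - u < η * ((v : ℝ) - u)
      · left
        have hW : 0 ≤ (v : ℝ) - u := by linarith
        refine ⟨ha, ?_⟩
        have h2 : (1 - η) * ((v : ℝ) - u) ≤ (v : ℝ) - y := by linarith
        calc (prIn y v : ℝ) * L ≤ (prIn u v : ℝ) * L := by
              apply mul_le_mul_of_nonneg_right _ hL.le
              linarith
          _ ≤ d * ((v : ℝ) - u) := hsp.le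
          _ = d / (1 - η) * ((1 - η) * ((v : ℝ) - u)) := by field_simp
          _ ≤ d / (1 - η) * ((v : ℝ) - y) := mul_le_mul_of_nonneg_left h2 (by positivity)
      · rw [not_lt] at hb
        by_cases hc : (prIn y v : ℝ) * L ≤ d / (1 - η) * ((v : ℝ) - y)
        · exact Or.inl ⟨ha, hc⟩
        · right
          refine ⟨hb, ?_⟩
          rw [not_le] at hc
          have h3 : d * ((v : ℝ) - y) ≤ d / (1 - η) * ((v : ℝ) - y) :=
            mul_le_mul_of_nonneg_right hd1 (by linarith)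
          have h4 : d * ((y : ℝ) - u) ≤ d / (1 - η) * ((y : ℝ) - u) :=
            mul_le_mul_of_nonneg_right hd1 (by linarith)
          rw [hsplit] at hsp
          nlinarith
  rcases key with ⟨h1, h2⟩ | ⟨h1, h2⟩
  · left
    have h3 : η * Q ≤ (v : ℝ) - y := (mul_le_mul_of_nonneg_left hQv hη.le).trans h1
    have h4 : 0 < (v : ℝ) - y := lt_of_lt_of_le (by positivity) h3
    have h5 : y < v := by
      have : (y : ℝ) < v := by linarith
      exact_mod_cast this
    refine ⟨v - y, by omega, by omega, ?_⟩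
    have e1 : ∑ i ∈ range (v - y), qmu L (y + i) = ∑ z ∈ Ico y v, qmu L z := by
      rw [sum_Ico_eq_sum_range]
    rw [e1, sum_qmu L y v hyv, Nat.cast_sub hyv]
    refine h2.trans (mul_le_mul_of_nonneg_right ?_ h4.le)
    refine le_trans ?_ hθ
    have : 0 ≤ L / (η * Q) := by positivity
    linarith
  · right
    have h3 : η * Q ≤ (y : ℝ) - u := (mul_le_mul_of_nonneg_left hQv hη.le).trans h1
    have hηQ : 0 < η * Q := by positivity
    have h4 : 0 < (y : ℝ) - u := lt_of_lt_of_le hηQ h3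
    have h5 : u < y := by
      have : (u : ℝ) < y := by linarith
      exact_mod_cast this
    refine ⟨y - u, by omega, by omega, ?_⟩
    have e1 : ∑ i ∈ range (y - u), qmu L (y - i) = ∑ z ∈ Ico (u + 1) (y + 1), qmu L z := by
      rw [← sum_range_reflect, sum_Ico_eq_sum_range]
      have h4 : y + 1 - (u + 1) = y - u := by omega
      rw [h4]
      apply sum_congr rfl
      intro i hi
      rw [mem_range] at hi
      congr 1
      omega
    rw [e1, sum_qmu L (u + 1) (y + 1) (by omega), Nat.cast_sub huy]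
    have h6 : (prIn (u + 1) (y + 1) : ℝ) ≤ prIn u y + 1 := by
      have h5 : prIn (u + 1) (y + 1) ≤ prIn u (y + 1) := prIn_mono (by omega) le_rfl
      have h6 : prIn u (y + 1) = prIn u y + prIn y (y + 1) := prIn_split huy (by omega)
      have h7 := prIn_le y (y + 1)
      have h9 : prIn (u + 1) (y + 1) ≤ prIn u y + 1 := by omega
      exact_mod_cast h9
    have h7 : L ≤ L / (η * Q) * ((y : ℝ) - u) := by
      calc L = L / (η * Q) * (η * Q) := by field_simp
        _ ≤ _ := mul_le_mul_of_nonneg_left h3 (by positivity)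
    calc (prIn (u + 1) (y + 1) : ℝ) * L ≤ (prIn u y + 1) * L := mul_le_mul_of_nonneg_right h6 hL.le
      _ = (prIn u y : ℝ) * L + L := by ring
      _ ≤ d / (1 - η) * ((y : ℝ) - u) + L / (η * Q) * ((y : ℝ) - u) := add_le_add h2 h7
      _ = (d / (1 - η) + L / (η * Q)) * ((y : ℝ) - u) := by ring
      _ ≤ _ := mul_le_mul_of_nonneg_right hθ h4.le

/-- Shifted copies of the boundary layer are disjoint. -/
lemma shift_count (X H K : ℕ) (T : Finset ℕ) (hT : ∀ z ∈ T, z < X)
    (hlow : ∀ z ∈ T, K * H ≤ z + H)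
    (hsep : ∀ z ∈ T, ∀ j, 1 ≤ j → j < K → z - j * H ∉ T) : T.card * K ≤ X := by
  have h1 : (T ×ˢ range K).card ≤ (range X).card := by
    apply card_le_card_of_injOn (fun p => p.1 - p.2 * H)
    · intro p hp
      rw [mem_coe, mem_product, mem_range] at hp
      rw [mem_coe, mem_range]
      have := hT p.1 hp.1
      simp only
      omega
    · intro p hp q hq hpq
      rw [mem_coe, mem_product, mem_range] at hp hq
      simp only at hpq
      have lowp : p.2 * H ≤ p.1 := by
        have h2 := hlow p.1 hp.1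
        have h3 : (p.2 + 1) * H ≤ K * H := Nat.mul_le_mul_right _ hp.2
        rw [add_mul, one_mul] at h3
        omega
      have lowq : q.2 * H ≤ q.1 := by
        have h2 := hlow q.1 hq.1
        have h3 : (q.2 + 1) * H ≤ K * H := Nat.mul_le_mul_right _ hq.2
        rw [add_mul, one_mul] at h3
        omega
      rcases lt_trichotomy p.2 q.2 with h | h | h
      · exfalso
        have h4 : q.1 - (q.2 - p.2) * H = p.1 := by
          rw [Nat.sub_mul]
          have h5 : p.2 * H ≤ q.2 * H := Nat.mul_le_mul_right _ h.le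
          omega
        exact hsep q.1 hq.1 (q.2 - p.2) (by omega) (by omega) (h4 ▸ hp.1)
      · have h2 : p.1 = q.1 := by
          rw [h] at hpq lowp
          omega
        exact Prod.ext h2 h
      · exfalso
        have h4 : p.1 - (p.2 - q.2) * H = q.1 := by
          rw [Nat.sub_mul]
          have h5 : q.2 * H ≤ p.2 * H := Nat.mul_le_mul_right _ h.le
          omega
        exact hsep p.1 hp.1 (p.2 - q.2) (by omega) (by omega) (h4 ▸ hq.1)
  rw [card_product, card_range, card_range] at h1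
  exact h1

/-- The core of the argument at one `X`. -/
lemma quarter_core_x (X H K R : ℕ) (L e d η θ Q S : ℝ)
    (hH : 1 ≤ H) (hL : 0 < L) (hd : 0 ≤ d) (hη : 0 < η) (hη2 : η ≤ 1 / 2)
    (hQ0 : 0 < Q) (hθ : d / (1 - η) + L / (η * Q) ≤ θ) (hQ : (K : ℝ) * H ≤ Q)
    (hS : 0 ≤ S)
    (hpnt : (1 - e) * X ≤ prIn 0 X * L)
    (hlong : ∀ u v : ℕ, u < X → u + R < v → v ≤ u + X → d * ((v : ℝ) - u) ≤ prIn u v * L)
    (hexc : ∑ z ∈ range X, max 0 ((prIn z (z + H) : ℝ) * L / H - S) ≤ e * X)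
    (hHL : H * L ≤ e * X) :
    K * ((1 - 3 * e) * X - θ * (2 * X + R)) ≤
      S * (K * (((range X).filter (fun y => ∀ u v : ℕ, u ≤ y → y ≤ v →
      Q ≤ (v : ℝ) - u → v ≤ u + X → d * ((v : ℝ) - u) / L ≤ prIn u v)).card : ℝ) + X) := by
  have hHr : (0 : ℝ) < H := by exact_mod_cast hH
  have hθ0 : 0 ≤ θ := by
    have h1η : 0 < 1 - η := by linarith
    exact le_trans (by positivity) hθ
  set G := (range X).filter (fun y => ∀ u v : ℕ, u ≤ y → y ≤ v →
      Q ≤ (v : ℝ) - u → v ≤ u + X → d * ((v : ℝ) - u) / L ≤ prIn u v) with hG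
  have hμ := fun z => qmu_nonneg hL.le z
  -- a bad point has a sparse interval
  have hbad : ∀ y, y < X → y ∉ G → ∃ u v : ℕ, u ≤ y ∧ y ≤ v ∧ Q ≤ (v : ℝ) - u ∧ v ≤ u + X ∧
      v ≤ u + R ∧ (prIn u v : ℝ) * L < d * ((v : ℝ) - u) := by
    intro y hy hyG
    rw [hG, mem_filter, mem_range] at hyG
    by_contra hc
    apply hyG
    refine ⟨hy, fun u v h2 h3 h4 h5 => ?_⟩
    rw [div_le_iff₀ hL]
    by_contra h6
    rw [not_le] at h6
    by_cases h7 : v ≤ u + R
    · exact hc ⟨u, v, h2, h3, h4, h5, h7, h6⟩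
    · have := hlong u v (by omega) (by omega) h5
      linarith
  have hbad2 : ∀ u v w : ℕ, u ≤ w → w ≤ v → w < X → Q ≤ (v : ℝ) - u → v ≤ u + X →
      (prIn u v : ℝ) * L < d * ((v : ℝ) - u) → w ∉ G := by
    intro u v w h1 h2 h3 h4 h5 h6 h7
    rw [hG, mem_filter] at h7
    have h8 := h7.2 u v h1 h2 h4 h5
    rw [div_le_iff₀ hL] at h8
    linarith
  set P1 : ℕ → Prop := fun y => ∃ r, 1 ≤ r ∧ r ≤ R ∧ ∑ i ∈ range r, qmu L (y + i) ≤ θ * r with hP1
  set P2 : ℕ → Prop := fun y => ∃ r, 1 ≤ r ∧ r ≤ y + 1 ∧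
    ∑ i ∈ range r, qmu L (y - i) ≤ θ * r with hP2
  have hS1 := rise_right (qmu L) hμ θ hθ0 X R ((range X).filter P1)
    (fun k hk => mem_range.1 (mem_filter.1 hk).1) (fun k hk => (mem_filter.1 hk).2)
  have hS2 := rise_left (qmu L) hμ θ hθ0 X ((range X).filter P2)
    (fun k hk => mem_range.1 (mem_filter.1 hk).1) (fun k hk => (mem_filter.1 hk).2)
  have hcov : range X ⊆ (range X).filter P1 ∪ ((range X).filter P2 ∪ G) := by
    intro y hy
    rw [mem_union, mem_union, mem_filter, mem_filter]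
    by_cases hyG : y ∈ G
    · exact Or.inr (Or.inr hyG)
    · obtain ⟨u, v, h1, h2, h3, _, h5, h6⟩ := hbad y (mem_range.1 hy) hyG
      rcases sparse_side L d η θ Q R y u v hL hd hη hη2 hQ0 hθ h1 h2 h3 h5 h6 with h | h
      · exact Or.inl ⟨hy, h⟩
      · exact Or.inr (Or.inl ⟨hy, h⟩)
  have hun : ∀ S T : Finset ℕ, ∑ k ∈ S ∪ T, qmu L k ≤ ∑ k ∈ S, qmu L k + ∑ k ∈ T, qmu L k := by
    intro S T
    have h5 := sum_union_inter (s₁ := S) (s₂ := T) (f := qmu L)
    have h6 : 0 ≤ ∑ k ∈ S ∩ T, qmu L k := sum_nonneg fun k _ => hμ k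
    linarith
  have hmass : (1 - e) * X - θ * (2 * X + R) ≤ ∑ z ∈ G, qmu L z := by
    have h1 : ∑ z ∈ range X, qmu L z = prIn 0 X * L := by
      rw [range_eq_Ico]
      exact sum_qmu L 0 X (Nat.zero_le _)
    have h2 : ∑ z ∈ range X, qmu L z ≤ θ * (X + R) + (θ * X + ∑ z ∈ G, qmu L z) := by
      refine (sum_le_sum_of_subset_of_nonneg hcov fun k _ _ => hμ k).trans ?_
      refine (hun _ _).trans (add_le_add hS1 ?_)
      exact (hun _ _).trans (add_le_add hS2 le_rfl)
    rw [h1] at h2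
    linarith
  -- thickening
  set T := (range X).filter (fun z => z ∉ G ∧ ∃ i < H, z + i ∈ G) with hTdef
  set GH := (range X).filter (fun z => ∃ i < H, z + i ∈ G) with hGH
  have hGHT : GH ⊆ G ∪ T := by
    intro z hz
    have hz2 := mem_filter.1 hz
    by_cases hzG : z ∈ G
    · exact mem_union_left _ hzG
    · exact mem_union_right _ (mem_filter.2 ⟨hz2.1, hzG, hz2.2⟩)
  have hTK : T.card * K ≤ X := by
    have hT2 : ∀ z ∈ T, ∃ u v : ℕ, u ≤ z ∧ z ≤ v ∧ v < z + H ∧ u + K * H ≤ v ∧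
        ∀ w, u ≤ w → w ≤ z → w ∉ G := by
      intro z hz
      rw [hTdef, mem_filter, mem_range] at hz
      obtain ⟨hzX, hzG, i, hi, hzi⟩ := hz
      obtain ⟨u, v, h1, h2, h3, h4, h5, h6⟩ := hbad z hzX hzG
      have hziX : z + i < X := by
        rw [hG, mem_filter, mem_range] at hzi
        exact hzi.1
      refine ⟨u, v, h1, h2, ?_, ?_, ?_⟩
      · by_contra hc
        exact hbad2 u v (z + i) (by omega) (by omega) hziX h3 h4 h6 hzi
      · have h7 : ((u + K * H : ℕ) : ℝ) ≤ v := by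
          push_cast
          linarith
        exact_mod_cast h7
      · intro w hw1 hw2
        exact hbad2 u v w hw1 (by omega) (by omega) h3 h4 h6
    apply shift_count X H K T
    · intro z hz
      rw [hTdef, mem_filter, mem_range] at hz
      exact hz.1
    · intro z hz
      obtain ⟨u, v, h1, h2, h3, h4, h5⟩ := hT2 z hz
      omega
    · intro z hz j hj1 hjK hzT
      obtain ⟨u, v, h1, h2, h3, h4, h5⟩ := hT2 z hz
      rw [hTdef, mem_filter, mem_range] at hzT
      obtain ⟨_, _, i, hi, hzi⟩ := hzT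
      have h6 : (j + 1) * H ≤ K * H := Nat.mul_le_mul_right _ hjK
      rw [add_mul, one_mul] at h6
      have h7 : 1 * H ≤ j * H := Nat.mul_le_mul_right _ hj1
      exact h5 (z - j * H + i) (by omega) (by omega) hzi
  -- averaging
  have havg : (∑ z ∈ G, qmu L z) ≤ ∑ z ∈ GH, (prIn z (z + H) : ℝ) * L / H + H * L := by
    have h1 : ∑ z ∈ G, qmu L z = ∑ z ∈ G.filter (fun w => H ≤ w), qmu L z +
        ∑ z ∈ G.filter (fun w => ¬ H ≤ w), qmu L z := (sum_filter_add_sum_filter_not _ _ _).symm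
    have h2 : ∑ z ∈ G.filter (fun w => ¬ H ≤ w), qmu L z ≤ H * L := by
      calc ∑ z ∈ G.filter (fun w => ¬ H ≤ w), qmu L z ≤ ∑ z ∈ range H, qmu L z := by
            apply sum_le_sum_of_subset_of_nonneg _ fun k _ _ => hμ k
            intro z hz
            rw [mem_filter, not_le] at hz
            exact mem_range.2 hz.2
        _ ≤ ∑ z ∈ range H, L := sum_le_sum fun z _ => qmu_le hL.le z
        _ = H * L := by rw [sum_const, card_range, nsmul_eq_mul]
    have h3 : H * ∑ z ∈ G.filter (fun w => H ≤ w), qmu L z ≤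
        ∑ z ∈ GH, (prIn z (z + H) : ℝ) * L := by
      calc (H : ℝ) * ∑ z ∈ G.filter (fun w => H ≤ w), qmu L z
          = ∑ i ∈ range H, ∑ w ∈ G.filter (fun w => H ≤ w), qmu L w := by
            rw [sum_const, card_range, nsmul_eq_mul]
        _ ≤ ∑ i ∈ range H, ∑ z ∈ GH, qmu L (z + i) := by
            apply sum_le_sum
            intro i hi
            rw [mem_range] at hi
            have h4 : ∑ w ∈ G.filter (fun w => H ≤ w), qmu L w =
                ∑ z ∈ (G.filter (fun w => H ≤ w)).image (fun w => w - i), qmu L (z + i) := by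
              rw [sum_image]
              · apply sum_congr rfl
                intro w hw
                rw [mem_filter] at hw
                congr 1
                omega
              · intro w hw w' hw' h
                rw [mem_coe, mem_filter] at hw hw'
                simp only at h
                omega
            rw [h4]
            apply sum_le_sum_of_subset_of_nonneg _ fun k _ _ => hμ _
            intro z hz
            rw [mem_image] at hz
            obtain ⟨w, hw, rfl⟩ := hz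
            rw [mem_filter] at hw
            have hwX : w < X := by
              have := hw.1
              rw [hG, mem_filter, mem_range] at this
              exact this.1
            rw [hGH, mem_filter, mem_range]
            refine ⟨by omega, i, hi, ?_⟩
            have : w - i + i = w := by omega
            rw [this]
            exact hw.1
        _ = ∑ z ∈ GH, ∑ i ∈ range H, qmu L (z + i) := sum_comm
        _ = ∑ z ∈ GH, (prIn z (z + H) : ℝ) * L := by
            apply sum_congr rfl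
            intro z _
            rw [← sum_qmu L z (z + H) (by omega), sum_Ico_eq_sum_range]
            congr 2
            omega
    have h4 : ∑ z ∈ G.filter (fun w => H ≤ w), qmu L z ≤
        ∑ z ∈ GH, (prIn z (z + H) : ℝ) * L / H := by
      rw [← sum_div, le_div_iff₀ hHr]
      linarith
    linarith
  have hexc2 : ∑ z ∈ GH, (prIn z (z + H) : ℝ) * L / H ≤ S * GH.card + e * X := by
    calc ∑ z ∈ GH, (prIn z (z + H) : ℝ) * L / H
        ≤ ∑ z ∈ GH, (S + max 0 ((prIn z (z + H) : ℝ) * L / H - S)) := by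
          apply sum_le_sum
          intro z _
          have := le_max_right 0 ((prIn z (z + H) : ℝ) * L / H - S)
          linarith
      _ = S * GH.card + ∑ z ∈ GH, max 0 ((prIn z (z + H) : ℝ) * L / H - S) := by
          rw [sum_add_distrib, sum_const, nsmul_eq_mul]
          ring
      _ ≤ S * GH.card + ∑ z ∈ range X, max 0 ((prIn z (z + H) : ℝ) * L / H - S) := by
          apply add_le_add le_rfl
          apply sum_le_sum_of_subset_of_nonneg (filter_subset _ _)
          intro k _ _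
          exact le_max_left _ _
      _ ≤ _ := add_le_add le_rfl hexc
  have hcard : (GH.card : ℝ) ≤ G.card + T.card := by
    have := (card_le_card hGHT).trans (card_union_le _ _)
    exact_mod_cast this
  have hTKr : (T.card : ℝ) * K ≤ X := by exact_mod_cast hTK
  have h1 : (1 - 3 * e) * X - θ * (2 * X + R) ≤ S * (G.card + T.card) := by
    have h2 : S * GH.card ≤ S * (G.card + T.card) := mul_le_mul_of_nonneg_left hcard hS
    linarith
  have hK0 : (0 : ℝ) ≤ K := Nat.cast_nonneg _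
  calc (K : ℝ) * ((1 - 3 * e) * X - θ * (2 * X + R)) ≤ K * (S * (G.card + T.card)) :=
        mul_le_mul_of_nonneg_left h1 hK0
    _ = S * (K * G.card + T.card * K) := by ring
    _ ≤ S * (K * G.card + X) := by
        apply mul_le_mul_of_nonneg_left _ hS
        linarith

/-- The prime number theorem, two-sided, uniformly up to `2 X`. -/
lemma pnt_two (e : ℝ) (he : 0 < e) (he1 : e ≤ 1) : ∃ X₀ : ℕ, ∀ X : ℕ, X₀ ≤ X →
    (∀ v : ℕ, v ≤ 2 * X → (v : ℝ) - e * X ≤ prIn 0 v * Real.log X) ∧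
    (∀ u : ℕ, u ≤ X → (prIn 0 u : ℝ) * Real.log X ≤ u + e * X) := by
  obtain ⟨e1, he1d⟩ : ∃ e1, e1 = e / 8 := ⟨_, rfl⟩
  have he10 : 0 < e1 := by rw [he1d]; positivity
  have he11 : e1 ≤ 1 / 8 := by rw [he1d]; linarith
  have h1 : Filter.Tendsto (fun x : ℝ => B3WI.thetaq (0 : ZMod 1) x / x) Filter.atTop
      (nhds (((1 : ℕ).totient : ℝ)⁻¹)) := B3WI.thetaq_asymp (isUnit_of_subsingleton _)
  rw [Nat.totient_one, Nat.cast_one, inv_one] at h1
  have h2 := h1.eventually (lt_mem_nhds (show 1 - e1 < 1 by linarith))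
  have h2' := h1.eventually (gt_mem_nhds (show 1 < 1 + e1 by linarith))
  obtain ⟨x₀, hx₀⟩ := Filter.eventually_atTop.1 (h2.and h2')
  -- the theta function at integers
  have hth : ∀ k : ℕ, B3WI.thetaq (0 : ZMod 1) (k : ℝ) =
      ∑ p ∈ (Ioc 0 k).filter Nat.Prime, Real.log p := by
    intro k
    unfold B3WI.thetaq
    rw [Nat.floor_natCast, sum_filter]
    have e1 : Icc 1 k = Ioc 0 k := by
      ext j
      rw [mem_Icc, mem_Ioc]
      omega
    rw [← e1]
    apply sum_congr rfl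
    intro j _
    by_cases hp : j.Prime
    · rw [if_pos hp, if_pos ⟨hp, Subsingleton.elim _ _⟩]
    · rw [if_neg hp, if_neg (fun h => hp h.1)]
  obtain ⟨k₀, hk₀⟩ : ∃ k₀ : ℕ, k₀ = max ⌈x₀⌉₊ 1 := ⟨_, rfl⟩
  have hth2 : ∀ k : ℕ, k₀ ≤ k → (1 - e1) * k ≤ ∑ p ∈ (Ioc 0 k).filter Nat.Prime, Real.log p ∧
      ∑ p ∈ (Ioc 0 k).filter Nat.Prime, Real.log p ≤ (1 + e1) * k := by
    intro k hk
    have hk0 : x₀ ≤ k := (Nat.le_ceil _).trans (by
      exact_mod_cast (le_max_left _ _).trans (hk₀ ▸ hk))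
    have hk1 : 1 ≤ k := (le_max_right _ _).trans (hk₀ ▸ hk)
    have hkr : (0 : ℝ) < k := by exact_mod_cast hk1
    obtain ⟨h3, h4⟩ := hx₀ k hk0
    rw [lt_div_iff₀ hkr, hth] at h3
    rw [div_lt_iff₀ hkr, hth] at h4
    exact ⟨h3.le, h4.le⟩
  have ev1 : ∀ᶠ X : ℕ in Filter.atTop, max (2 / e1) 1 ≤ Real.log X :=
    (Real.tendsto_log_atTop.comp tendsto_natCast_atTop_atTop).eventually
      (Filter.eventually_ge_atTop _)
  have ev2 := ev_log_pow_rpow 2 e1 he10
  have ev3 := eventually_log_pow 1 ((k₀ : ℝ) / e1 + 1) (by positivity)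
  obtain ⟨X1, hX1⟩ := Filter.eventually_atTop.1 (ev1.and (ev2.and ev3))
  refine ⟨max X1 1, fun X hX => ?_⟩
  have hX0 : 1 ≤ X := (le_max_right _ _).trans hX
  have hXr : (0 : ℝ) < X := by exact_mod_cast hX0
  obtain ⟨ha, hb, hc⟩ := hX1 X ((le_max_left _ _).trans hX)
  obtain ⟨L, hL⟩ : ∃ L, L = Real.log X := ⟨_, rfl⟩
  rw [← hL] at ha hb hc ⊢
  have hL1 : 1 ≤ L := (le_max_right _ _).trans ha
  have hL2 : 2 ≤ e1 * L := by
    have h3 := (le_max_left _ _).trans ha
    rw [div_le_iff₀ he10] at h3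
    linarith
  rw [pow_one] at hc
  have hk₀L : (k₀ : ℝ) * L ≤ e1 * X := by
    have h3 : (k₀ : ℝ) / e1 * L ≤ X := by
      refine le_trans ?_ hc
      apply mul_le_mul_of_nonneg_right _ (by linarith)
      linarith
    have h4 := mul_le_mul_of_nonneg_left h3 he10.le
    have h5 : e1 * ((k₀ : ℝ) / e1 * L) = k₀ * L := by field_simp
    linarith
  have hk₀X : (k₀ : ℝ) ≤ e1 * X := by
    refine le_trans ?_ hk₀L
    exact le_mul_of_one_le_right (Nat.cast_nonneg _) hL1
  constructor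
  · intro v hv
    by_cases hvk : k₀ ≤ v
    · obtain ⟨h3, _⟩ := hth2 v hvk
      have hvr : (v : ℝ) ≤ 2 * X := by exact_mod_cast hv
      have hv1 : 1 ≤ v := le_trans (by rw [hk₀]; exact le_max_right _ _) hvk
      -- `log (2 X) ≤ (1 + e1) L`
      have h4 : ∀ p ∈ (Ioc 0 v).filter Nat.Prime, Real.log p ≤ (1 + e1) * L := by
        intro p hp
        rw [mem_filter, mem_Ioc] at hp
        have h5 : Real.log p ≤ Real.log (2 * X) := by
          apply Real.log_le_log (by exact_mod_cast hp.1.1)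
          refine le_trans ?_ hvr
          exact_mod_cast hp.1.2
        rw [Real.log_mul (by norm_num) hXr.ne', ← hL] at h5
        have h6 : Real.log 2 ≤ 1 := by
          have := Real.log_two_lt_d9
          linarith
        linarith
      have h5 : ∑ p ∈ (Ioc 0 v).filter Nat.Prime, Real.log p ≤ prIn 0 v * ((1 + e1) * L) := by
        refine (sum_le_sum h4).trans ?_
        rw [sum_const, nsmul_eq_mul]
        exact le_rfl
      have h6 : (1 - e1) * v ≤ (1 + e1) * (prIn 0 v * L) := by linarith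
      have h7 : (1 - e1) * ((1 - e1) * v) ≤ (1 - e1) * ((1 + e1) * (prIn 0 v * L)) :=
        mul_le_mul_of_nonneg_left h6 (by linarith)
      have h8 : (0 : ℝ) ≤ prIn 0 v * L := mul_nonneg (Nat.cast_nonneg _) (by linarith)
      have h9 : (1 - e1) * ((1 + e1) * (prIn 0 v * L)) ≤ prIn 0 v * L := by
        have h12 : 0 ≤ e1 ^ 2 * (prIn 0 v * L) := mul_nonneg (sq_nonneg _) h8
        have h13 : (1 - e1) * ((1 + e1) * (prIn 0 v * L)) = prIn 0 v * L - e1 ^ 2 * (prIn 0 v * L) := by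
          ring
        linarith
      have h10 : (v : ℝ) - 2 * e1 * v ≤ (1 - e1) * ((1 - e1) * v) := by
        have : 0 ≤ e1 ^ 2 * v := by positivity
        nlinarith
      have h11 : 2 * e1 * v ≤ 4 * e1 * X := by
        have := mul_le_mul_of_nonneg_left hvr (by linarith : 0 ≤ 2 * e1)
        linarith
      have h14 : 4 * e1 * X ≤ e * X := mul_le_mul_of_nonneg_right (by rw [he1d]; linarith) hXr.le
      linarith
    · have h3 : (v : ℝ) ≤ k₀ := by exact_mod_cast (not_le.1 hvk).le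
      have h4 : (0 : ℝ) ≤ prIn 0 v * L := mul_nonneg (Nat.cast_nonneg _) (by linarith)
      have h5 : e1 * X ≤ e * X := mul_le_mul_of_nonneg_right (by rw [he1d]; linarith) hXr.le
      linarith
  · intro u hu
    have hur : (u : ℝ) ≤ X := by exact_mod_cast hu
    by_cases huk : k₀ ≤ u
    · obtain ⟨_, h3⟩ := hth2 u huk
      -- the small primes
      obtain ⟨Y, hY⟩ : ∃ Y : ℝ, Y = (X : ℝ) ^ (1 - e1) := ⟨_, rfl⟩
      have hY0 : 0 < Y := by rw [hY]; exact Real.rpow_pos_of_pos hXr _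
      have hYL : Y * L ^ 2 ≤ X := by
        calc Y * L ^ 2 ≤ Y * (X : ℝ) ^ e1 := mul_le_mul_of_nonneg_left hb hY0.le
          _ = X := by
            rw [hY, ← Real.rpow_add hXr]
            have : 1 - e1 + e1 = 1 := by ring
            rw [this, Real.rpow_one]
      have hYL2 : Y * L ≤ e1 * X := by
        have h4 : Y * L * 2 ≤ Y * L * (e1 * L) := mul_le_mul_of_nonneg_left hL2 (by positivity)
        have h5 : Y * L * (e1 * L) = e1 * (Y * L ^ 2) := by ring
        have h6 := mul_le_mul_of_nonneg_left hYL he10.le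
        have h7 : 0 ≤ Y * L := by positivity
        linarith
      have h1e : 0 < 1 - e1 := by linarith
      have h4 : ∀ p ∈ (Ioc 0 u).filter Nat.Prime,
          L ≤ Real.log p / (1 - e1) + (if (p : ℝ) ≤ Y then L else 0) := by
        intro p hp
        rw [mem_filter, mem_Ioc] at hp
        have hp1 : (1 : ℝ) ≤ p := by exact_mod_cast hp.1.1
        split_ifs with h5
        · have h6 : 0 ≤ Real.log p / (1 - e1) := div_nonneg (Real.log_nonneg hp1) h1e.le
          linarith
        · rw [not_le] at h5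
          have h6 : Real.log Y ≤ Real.log p := Real.log_le_log hY0 h5.le
          rw [hY, Real.log_rpow hXr, ← hL] at h6
          rw [add_zero, le_div_iff₀ h1e]
          linarith
      have h5 : (prIn 0 u : ℝ) * L ≤ (∑ p ∈ (Ioc 0 u).filter Nat.Prime, Real.log p) / (1 - e1) +
          Y * L := by
        calc (prIn 0 u : ℝ) * L = ∑ p ∈ (Ioc 0 u).filter Nat.Prime, L := by
              rw [sum_const, nsmul_eq_mul]
              rfl
          _ ≤ _ := sum_le_sum h4
          _ = (∑ p ∈ (Ioc 0 u).filter Nat.Prime, Real.log p) / (1 - e1) +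
              ∑ p ∈ (Ioc 0 u).filter Nat.Prime, (if (p : ℝ) ≤ Y then L else 0) := by
              rw [sum_add_distrib, sum_div]
          _ ≤ _ := by
              apply add_le_add le_rfl
              rw [← sum_filter, sum_const, nsmul_eq_mul]
              apply mul_le_mul_of_nonneg_right _ (by linarith)
              have h6 : (((Ioc 0 u).filter Nat.Prime).filter (fun p : ℕ => (p : ℝ) ≤ Y)).card ≤
                  (Ioc 0 ⌊Y⌋₊).card := by
                apply card_le_card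
                intro p hp
                rw [mem_filter, mem_filter, mem_Ioc] at hp
                rw [mem_Ioc]
                exact ⟨hp.1.1.1, Nat.le_floor hp.2⟩
              rw [Nat.card_Ioc, Nat.sub_zero] at h6
              calc ((((Ioc 0 u).filter Nat.Prime).filter (fun p : ℕ => (p : ℝ) ≤ Y)).card : ℝ)
                  ≤ (⌊Y⌋₊ : ℝ) := by exact_mod_cast h6
                _ ≤ Y := Nat.floor_le hY0.le
      have h6 : (∑ p ∈ (Ioc 0 u).filter Nat.Prime, Real.log p) / (1 - e1) ≤ (1 + 3 * e1) * u := by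
        rw [div_le_iff₀ h1e]
        refine h3.trans ?_
        have h7 : 1 + e1 ≤ (1 + 3 * e1) * (1 - e1) := by nlinarith
        calc (1 + e1) * (u : ℝ) ≤ (1 + 3 * e1) * (1 - e1) * u :=
              mul_le_mul_of_nonneg_right h7 (Nat.cast_nonneg _)
          _ = _ := by ring
      have h7 : 3 * e1 * u ≤ 3 * e1 * X := mul_le_mul_of_nonneg_left hur (by linarith)
      have h8 : 4 * e1 * X ≤ e * X := mul_le_mul_of_nonneg_right (by rw [he1d]; linarith) hXr.le
      linarith
    · have h3 : (prIn 0 u : ℝ) ≤ k₀ := by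
        have h4 := prIn_le 0 u
        have h5 : prIn 0 u ≤ k₀ := by omega
        exact_mod_cast h5
      have h4 : (prIn 0 u : ℝ) * L ≤ k₀ * L := mul_le_mul_of_nonneg_right h3 (by linarith)
      have h5 : e1 * X ≤ e * X := mul_le_mul_of_nonneg_right (by rw [he1d]; linarith) hXr.le
      have h6 : (0 : ℝ) ≤ u := Nat.cast_nonneg _
      linarith

/-- **The general form**: at one `X`, with the scale `Q` and the averaging length `H`. -/
theorem quarter_gen (X H K : ℕ) (L d ε Q : ℝ) (hd : 0 < d) (hd2 : d < 1 / 2) (hε : 0 < ε)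
    (hε1 : ε ≤ 1) (hH : 1 ≤ H) (hL : 0 < L) (hK : 4 / ε ≤ K) (hQ0 : 0 < Q) (hQ : (K : ℝ) * H ≤ Q)
    (hQ2 : L ≤ 2 * d * (ε / 4) ^ 2 * Q) (hX : 0 < X)
    (hlow : ∀ v : ℕ, v ≤ 2 * X → (v : ℝ) - ε / 32 * X ≤ prIn 0 v * L)
    (hupp : ∀ u : ℕ, u ≤ X → (prIn 0 u : ℝ) * L ≤ u + ε / 32 * X)
    (hexc : ∑ z ∈ range X, max 0 ((prIn z (z + H) : ℝ) * L / H - (4 + ε / 4)) ≤ ε / 4 * X)
    (hHL : H * L ≤ ε / 4 * X) :
    ((1 - 2 * d) / 4 - ε) * X ≤ (((range X).filter (fun y => ∀ u v : ℕ, u ≤ y → y ≤ v →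
      Q ≤ (v : ℝ) - u → v ≤ u + X → d * ((v : ℝ) - u) / L ≤ prIn u v)).card : ℝ) := by
  have hXr : (0 : ℝ) < X := by exact_mod_cast hX
  obtain ⟨e, he⟩ : ∃ e, e = ε / 4 := ⟨_, rfl⟩
  have he0 : 0 < e := by rw [he]; positivity
  have he1 : e ≤ 1 / 4 := by rw [he]; linarith
  have hKr : (0 : ℝ) < K := lt_of_lt_of_le (by positivity) hK
  obtain ⟨R, hR⟩ : ∃ R : ℕ, R = ⌊e * X⌋₊ := ⟨_, rfl⟩
  have hRX : (R : ℝ) ≤ e * X := by rw [hR]; exact Nat.floor_le (by positivity)
  have hθ : d / (1 - e) + L / (e * Q) ≤ d * (1 + 4 * e) := by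
    have h1 : d / (1 - e) ≤ d * (1 + 2 * e) := by
      rw [div_le_iff₀ (by linarith)]
      have h2 : 1 ≤ (1 + 2 * e) * (1 - e) := by nlinarith
      calc d = d * 1 := (mul_one d).symm
        _ ≤ d * ((1 + 2 * e) * (1 - e)) := mul_le_mul_of_nonneg_left h2 hd.le
        _ = _ := by ring
    have h2 : L / (e * Q) ≤ 2 * d * e := by
      rw [div_le_iff₀ (by positivity)]
      rw [← he] at hQ2
      calc L ≤ 2 * d * e ^ 2 * Q := hQ2
        _ = _ := by ring
    linarith
  have hcore := quarter_core_x X H K R L e d e (d * (1 + 4 * e)) Q (4 + e) hH hL hd.le he0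
    (by linarith) hQ0 hθ hQ (by linarith) (by
      have h1 := hlow X (by omega)
      have h2 : ε / 32 * X ≤ e * X := mul_le_mul_of_nonneg_right (by rw [he]; linarith) hXr.le
      linarith) (by
      intro u v hu huv hvX
      have h1 := hlow v (by omega)
      have h2 := hupp u hu.le
      have h3 : (prIn 0 v : ℝ) = prIn 0 u + prIn u v := by
        exact_mod_cast prIn_split (Nat.zero_le u) (by omega)
      rw [h3] at h1
      have h4 : (e * X : ℝ) < (v : ℝ) - u := by
        have h5 : e * X < R + 1 := by rw [hR]; exact Nat.lt_floor_add_one _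
        have h6 : ((u + R + 1 : ℕ) : ℝ) ≤ v := by exact_mod_cast huv
        push_cast at h6
        linarith
      have h5 : ε / 32 * X = e / 8 * X := by rw [he]; ring
      rw [h5] at h1 h2
      have h6 : d * ((v : ℝ) - u) ≤ 1 / 2 * ((v : ℝ) - u) :=
        mul_le_mul_of_nonneg_right hd2.le (by nlinarith)
      linarith) (by rw [← he] at hexc; exact hexc) (by rw [← he] at hHL; exact hHL)
  set g : ℝ := (((range X).filter (fun y => ∀ u v : ℕ, u ≤ y → y ≤ v →
      Q ≤ (v : ℝ) - u → v ≤ u + X → d * ((v : ℝ) - u) / L ≤ prIn u v)).card : ℝ) with hg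
  have hg0 : 0 ≤ g := Nat.cast_nonneg _
  -- the numerical part
  have h1 : d * (1 + 4 * e) * (2 * X + R) ≤ (2 * d + 6 * e) * X := by
    have h2 : d * (1 + 4 * e) * (2 * X + R) ≤ d * (1 + 4 * e) * (2 * X + e * X) := by
      apply mul_le_mul_of_nonneg_left _ (by positivity)
      linarith
    have h3 : d * (1 + 4 * e) * (2 * X + e * X) = (d * (2 + 9 * e + 4 * e ^ 2)) * X := by ring
    have h4 : d * (2 + 9 * e + 4 * e ^ 2) ≤ 2 * d + 6 * e := by nlinarith
    rw [h3] at h2
    exact h2.trans (mul_le_mul_of_nonneg_right h4 hXr.le)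
  have h2 : (K : ℝ) * ((1 - 2 * d - 9 * e) * X) ≤ (4 + e) * (K * g + X) := by
    refine le_trans (mul_le_mul_of_nonneg_left ?_ hKr.le) hcore
    linarith
  have h3 : (X : ℝ) ≤ e * (K * X) := by
    have h4 : 1 ≤ e * K := by
      rw [div_le_iff₀ hε] at hK
      rw [he]
      linarith
    calc (X : ℝ) = 1 * X := (one_mul _).symm
      _ ≤ e * K * X := mul_le_mul_of_nonneg_right h4 hXr.le
      _ = _ := by ring
  have h4 : (K : ℝ) * ((1 - 2 * d - 9 * e) * X) ≤ K * ((4 + e) * (g + e * X)) := by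
    refine h2.trans ?_
    have h5 : (4 + e) * (K * g + X) ≤ (4 + e) * (K * g + e * (K * X)) :=
      mul_le_mul_of_nonneg_left (by linarith) (by linarith)
    refine h5.trans (le_of_eq ?_)
    ring
  have h5 : (1 - 2 * d - 9 * e) * X ≤ (4 + e) * (g + e * X) := le_of_mul_le_mul_left h4 hKr
  have h6 : (4 + e) * (((1 - 2 * d) / 4 - ε) * X) ≤ (4 + e) * g := by
    have h7 : (4 + e) * ((1 - 2 * d) / 4 - ε) + (4 + e) * e ≤ 1 - 2 * d - 9 * e := by
      have h8 : ε = 4 * e := by rw [he]; ring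
      rw [h8]
      nlinarith
    have h8 := mul_le_mul_of_nonneg_right h7 hXr.le
    linarith
  exact le_of_mul_le_mul_left h6 (by linarith)

/-- **A quarter of all integers, with an explicit density.** -/
theorem quarter_explicit : ∀ d : ℝ, 0 < d → ∀ ε : ℝ, 0 < ε → ∃ B X₀ : ℕ, ∀ X : ℕ, X₀ ≤ X →
    ((1 - 2 * d) / 4 - ε) * X ≤ (((range X).filter (fun y => ∀ u v : ℕ, u ≤ y → y ≤ v →
      (Real.log X) ^ B ≤ (v : ℝ) - u → v ≤ u + X →
      d * ((v : ℝ) - u) / Real.log X ≤ prIn u v)).card : ℝ) := by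
  intro d hd ε₀ hε₀
  by_cases hd2 : d < 1 / 2
  swap
  · refine ⟨0, 0, fun X _ => ?_⟩
    refine le_trans ?_ (Nat.cast_nonneg _)
    exact mul_nonpos_of_nonpos_of_nonneg (by linarith) (Nat.cast_nonneg _)
  obtain ⟨ε, hε⟩ : ∃ ε, ε = min ε₀ 1 := ⟨_, rfl⟩
  have hε0 : 0 < ε := by rw [hε]; exact lt_min hε₀ one_pos
  have hε1 : ε ≤ 1 := by rw [hε]; exact min_le_right _ _
  have hεε : ε ≤ ε₀ := by rw [hε]; exact min_le_left _ _
  obtain ⟨B0, X1, h1⟩ := primes_windows (ε / 4) (by positivity) 2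
  obtain ⟨X2, h2⟩ := pnt_two (ε / 32) (by positivity) (by linarith)
  obtain ⟨K, hK⟩ : ∃ K : ℕ, K = ⌈4 / ε⌉₊ := ⟨_, rfl⟩
  have hKε : 4 / ε ≤ K := by rw [hK]; exact Nat.le_ceil _
  have ev1 := eventually_log_pow (B0 + 1) (8 / ε) (by positivity)
  have ev2 := ev_log_ge (max (max (4 / ε) (2 * K)) (max (1 / (2 * d * (ε / 4) ^ 2)) 4))
  obtain ⟨X3, hX3⟩ := Filter.eventually_atTop.1 (ev1.and ev2)
  refine ⟨B0 + 2, max (max X1 X2) (max X3 1), ?_⟩
  intro X hX
  have hX1 : X1 ≤ X := le_trans (le_trans (le_max_left _ _) (le_max_left _ _)) hX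
  have hX2 : X2 ≤ X := le_trans (le_trans (le_max_right _ _) (le_max_left _ _)) hX
  have hX3' : X3 ≤ X := le_trans (le_trans (le_max_left _ _) (le_max_right _ _)) hX
  have hX0 : 1 ≤ X := le_trans (le_trans (le_max_right _ _) (le_max_right _ _)) hX
  obtain ⟨hlog1, hlog2⟩ := hX3 X hX3'
  obtain ⟨hp1, hp2⟩ := h2 X hX2
  obtain ⟨E, hE, hup⟩ := h1 X hX1
  obtain ⟨L, hL⟩ : ∃ L, L = Real.log X := ⟨_, rfl⟩
  rw [← hL] at hlog1 hlog2 hp1 hp2 hE hup ⊢
  have hL4 : 4 ≤ L := ((le_max_right _ _).trans (le_max_right _ _)).trans hlog2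
  have hLd : 1 ≤ 2 * d * (ε / 4) ^ 2 * L := by
    have h3 := ((le_max_left _ _).trans (le_max_right _ _)).trans hlog2
    rw [div_le_iff₀ (by positivity)] at h3
    linarith
  have hLK : 2 * K ≤ L := ((le_max_right _ _).trans (le_max_left _ _)).trans hlog2
  have hLe : 4 ≤ ε * L := by
    have h3 := ((le_max_left _ _).trans (le_max_left _ _)).trans hlog2
    rw [div_le_iff₀ hε0] at h3
    linarith
  have hL0 : 0 < L := by linarith
  have hXr : (0 : ℝ) < X := by exact_mod_cast hX0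
  have hLB : 1 ≤ L ^ B0 := one_le_pow₀ (by linarith)
  have hH0 : (⌈L ^ B0⌉₊ : ℝ) ≤ 2 * L ^ B0 := by
    have := Nat.ceil_lt_add_one (a := L ^ B0) (by positivity)
    linarith
  have hH1 : 1 ≤ ⌈L ^ B0⌉₊ := Nat.ceil_pos.2 (by positivity)
  have hHr : (0 : ℝ) < (⌈L ^ B0⌉₊ : ℝ) := by exact_mod_cast hH1
  have hlogX : 8 * L ^ (B0 + 1) ≤ ε * X := by
    have h3 : 8 / ε * L ^ (B0 + 1) * ε ≤ X * ε := mul_le_mul_of_nonneg_right hlog1 hε0.le
    have h4 : 8 / ε * L ^ (B0 + 1) * ε = 8 * L ^ (B0 + 1) := by field_simp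
    rw [h4] at h3
    linarith
  have hLH : ⌈L ^ B0⌉₊ * L ≤ ε / 4 * X := by
    calc ⌈L ^ B0⌉₊ * L ≤ (2 * L ^ B0) * L := by gcongr
      _ = 2 * L ^ (B0 + 1) := by ring
      _ ≤ ε / 4 * X := by linarith
  have hHX : ⌈L ^ B0⌉₊ ≤ X := by
    have h3 : (⌈L ^ B0⌉₊ : ℝ) ≤ X := by
      calc (⌈L ^ B0⌉₊ : ℝ) = ⌈L ^ B0⌉₊ * 1 := (mul_one _).symm
        _ ≤ ⌈L ^ B0⌉₊ * L := by gcongr; linarith
        _ ≤ ε / 4 * X := hLH
        _ ≤ 1 * X := by gcongr; linarith
        _ = X := one_mul _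
    exact_mod_cast h3
  have hexc : ∑ z ∈ range X, max 0 ((prIn z (z + ⌈L ^ B0⌉₊) : ℝ) * L / ⌈L ^ B0⌉₊ - (4 + ε / 4)) ≤
      ε / 4 * X := by
    have h3 : ∀ z ∈ range X, max 0 ((prIn z (z + ⌈L ^ B0⌉₊) : ℝ) * L / ⌈L ^ B0⌉₊ - (4 + ε / 4)) ≤
        if z ∈ E then L else 0 := by
      intro z hz
      rw [mem_range] at hz
      split_ifs with hzE
      · apply max_le hL0.le
        have h4 : (prIn z (z + ⌈L ^ B0⌉₊) : ℝ) ≤ ⌈L ^ B0⌉₊ := by
          have h5 := prIn_le z (z + ⌈L ^ B0⌉₊)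
          have h6 : prIn z (z + ⌈L ^ B0⌉₊) ≤ ⌈L ^ B0⌉₊ := by omega
          exact_mod_cast h6
        have h5 : (prIn z (z + ⌈L ^ B0⌉₊) : ℝ) * L / ⌈L ^ B0⌉₊ ≤ L := by
          rw [div_le_iff₀ hHr]
          calc (prIn z (z + ⌈L ^ B0⌉₊) : ℝ) * L ≤ ⌈L ^ B0⌉₊ * L :=
                mul_le_mul_of_nonneg_right h4 hL0.le
            _ = L * ⌈L ^ B0⌉₊ := by ring
        linarith
      · apply max_le le_rfl
        have h4 := hup z hz hzE z (z + ⌈L ^ B0⌉₊) le_rfl (by omega) (by
          push_cast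
          have := Nat.le_ceil (L ^ B0)
          linarith) (by omega)
        push_cast at h4
        have e1 : (z : ℝ) + ⌈L ^ B0⌉₊ - z = ⌈L ^ B0⌉₊ := by ring
        rw [e1, le_div_iff₀ hL0] at h4
        have h5 : (prIn z (z + ⌈L ^ B0⌉₊) : ℝ) * L / ⌈L ^ B0⌉₊ ≤ 4 + ε / 4 := by
          rw [div_le_iff₀ hHr]
          exact h4
        linarith
    refine (sum_le_sum h3).trans ?_
    rw [← sum_filter, sum_const, nsmul_eq_mul]
    have h4 : ((((range X).filter (fun z => z ∈ E)).card : ℕ) : ℝ) ≤ E.card := by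
      have h5 : ((range X).filter (fun z => z ∈ E)).card ≤ E.card := by
        apply card_le_card
        intro z hz
        exact (mem_filter.1 hz).2
      exact_mod_cast h5
    calc ((((range X).filter (fun z => z ∈ E)).card : ℕ) : ℝ) * L ≤ X / L ^ 2 * L := by
          apply mul_le_mul_of_nonneg_right _ hL0.le
          exact h4.trans hE
      _ = X / L := by field_simp
      _ ≤ ε / 4 * X := by
          rw [div_le_iff₀ hL0]
          calc (X : ℝ) = 1 * X := (one_mul _).symm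
            _ ≤ ε * L / 4 * X := by gcongr; linarith
            _ = ε / 4 * X * L := by ring
  have hgen := quarter_gen X ⌈L ^ B0⌉₊ K L d ε (L ^ (B0 + 2)) hd hd2 hε0 hε1 hH1 hL0 hKε
    (by positivity) (by
      calc (K : ℝ) * ⌈L ^ B0⌉₊ ≤ K * (2 * L ^ B0) := by gcongr
        _ = 2 * K * L ^ B0 := by ring
        _ ≤ L * L ^ B0 := by gcongr
        _ ≤ L * L ^ B0 * L := by
          apply le_mul_of_one_le_right (by positivity)
          linarith
        _ = L ^ (B0 + 2) := by ring) (by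
      calc L = 1 * (L * 1) := by ring
        _ ≤ (2 * d * (ε / 4) ^ 2 * L) * (L * L ^ B0) := by gcongr
        _ = 2 * d * (ε / 4) ^ 2 * L ^ (B0 + 2) := by ring) hX0 hp1 hp2 hexc hLH
  refine le_trans ?_ hgen
  apply mul_le_mul_of_nonneg_right _ hXr.le
  linarith

end Pool.Agent.H.MP_711652_nt.QW
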