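import Mathlib
import Pool.Agent.H.MP_711652_nt.QW.QuarterX

set_option autoImplicit false

namespace Pool.Agent.H.MP_711652_nt.QW

open Finset Classical

/-! ## The better constant: the mass of the bad set is at most `2 d` times its size -/

/-- Rising sun lemma, sparse intervals to the right inside a set `U`. -/
lemma rise_right_u (D : ℕ → ℝ) (hD : ∀ k, 0 ≤ D k) (θ : ℝ) (hθ : 0 ≤ θ) (M : ℕ) (S U : Finset ℕ)
    (hS : ∀ k ∈ S, k < M)
    (h : ∀ k ∈ S, ∃ r, 1 ≤ r ∧ (∀ i < r, k + i ∈ U) ∧ ∑ i ∈ range r, D (k + i) ≤ θ * r) :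
    ∑ k ∈ S, D k ≤ θ * U.card := by
  have key : ∀ n a : ℕ, M ≤ a + n → ∑ k ∈ S.filter (fun k => a ≤ k), D k ≤
      θ * (U.filter (fun x => a ≤ x)).card := by
    intro n
    induction n with
    | zero =>
      intro a ha
      have h0 : S.filter (fun k => a ≤ k) = ∅ := by
        refine filter_eq_empty_iff.2 fun k hk => ?_
        have := hS k hk
        omega
      rw [h0, sum_empty]
      exact mul_nonneg hθ (Nat.cast_nonneg _)
    | succ n ih =>
      intro a ha
      by_cases haS : a ∈ S
      · obtain ⟨r, hr1, hrU, hr⟩ := h a haS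
        have h1 := ih (a + r) (by omega)
        have h2 : S.filter (fun k => a ≤ k) ⊆
            (range r).image (fun i => a + i) ∪ S.filter (fun k => a + r ≤ k) := by
          intro k hk
          rw [mem_filter] at hk
          rw [mem_union, mem_image, mem_filter]
          by_cases h3 : a + r ≤ k
          · exact Or.inr ⟨hk.1, h3⟩
          · exact Or.inl ⟨k - a, by rw [mem_range]; omega, by omega⟩
        have hinj : Set.InjOn (fun i => a + i) ((range r : Finset ℕ) : Set ℕ) := by
          intro i _ j _ hij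
          simp only at hij
          omega
        have h3 : ∑ k ∈ (range r).image (fun i => a + i), D k = ∑ i ∈ range r, D (a + i) := by
          rw [sum_image hinj]
        have h4 : ∑ k ∈ S.filter (fun k => a ≤ k), D k ≤
            ∑ k ∈ (range r).image (fun i => a + i), D k +
            ∑ k ∈ S.filter (fun k => a + r ≤ k), D k := by
          refine (sum_le_sum_of_subset_of_nonneg h2 fun k _ _ => hD k).trans ?_
          have h5 := sum_union_inter (s₁ := (range r).image (fun i => a + i))
            (s₂ := S.filter (fun k => a + r ≤ k)) (f := D)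
          have h6 : 0 ≤ ∑ k ∈ (range r).image (fun i => a + i) ∩ S.filter (fun k => a + r ≤ k),
            D k := sum_nonneg fun k _ => hD k
          linarith
        rw [h3] at h4
        have h5 : r + (U.filter (fun x => a + r ≤ x)).card ≤ (U.filter (fun x => a ≤ x)).card := by
          have h6 : ((range r).image (fun i => a + i)).card = r := by
            rw [card_image_of_injOn hinj, card_range]
          rw [← h6, ← card_union_of_disjoint]
          · apply card_le_card
            intro x hx
            rw [mem_union, mem_image, mem_filter] at hx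
            rw [mem_filter]
            rcases hx with ⟨i, hi, rfl⟩ | hx
            · exact ⟨hrU i (mem_range.1 hi), by omega⟩
            · rw [h6] at hx
              exact ⟨hx.1, by omega⟩
          · rw [Finset.disjoint_left]
            intro x hx hx2
            rw [mem_image] at hx
            rw [mem_filter, h6] at hx2
            obtain ⟨i, hi, rfl⟩ := hx
            rw [mem_range] at hi
            omega
        have h6 : (r : ℝ) + ((U.filter (fun x => a + r ≤ x)).card : ℝ) ≤
            ((U.filter (fun x => a ≤ x)).card : ℝ) := by exact_mod_cast h5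
        calc _ ≤ _ := h4
          _ ≤ θ * r + θ * ((U.filter (fun x => a + r ≤ x)).card : ℝ) := add_le_add hr h1
          _ = θ * (r + ((U.filter (fun x => a + r ≤ x)).card : ℝ)) := by ring
          _ ≤ _ := mul_le_mul_of_nonneg_left h6 hθ
      · have h2 : S.filter (fun k => a ≤ k) = S.filter (fun k => a + 1 ≤ k) := by
          ext k
          rw [mem_filter, mem_filter]
          constructor
          · rintro ⟨h3, h4⟩
            refine ⟨h3, ?_⟩
            rcases Nat.eq_or_lt_of_le h4 with h5 | h5
            · rw [← h5] at h3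
              exact absurd h3 haS
            · exact h5
          · rintro ⟨h3, h4⟩
            exact ⟨h3, by omega⟩
        rw [h2]
        refine (ih (a + 1) (by omega)).trans ?_
        apply mul_le_mul_of_nonneg_left _ hθ
        have h3 : (U.filter (fun x => a + 1 ≤ x)).card ≤ (U.filter (fun x => a ≤ x)).card := by
          apply card_le_card
          intro x hx
          rw [mem_filter] at hx ⊢
          exact ⟨hx.1, by omega⟩
        exact_mod_cast h3
  have h1 := key M 0 (by omega)
  have h2 : S.filter (fun k => 0 ≤ k) = S := filter_true_of_mem fun k _ => Nat.zero_le k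
  have h3 : U.filter (fun k => 0 ≤ k) = U := filter_true_of_mem fun k _ => Nat.zero_le k
  rwa [h2, h3] at h1

/-- Rising sun lemma, sparse intervals to the left inside a set `U`. -/
lemma rise_left_u (D : ℕ → ℝ) (hD : ∀ k, 0 ≤ D k) (θ : ℝ) (hθ : 0 ≤ θ) (N : ℕ) (S U : Finset ℕ)
    (hS : ∀ k ∈ S, k < N)
    (h : ∀ k ∈ S, ∃ r, 1 ≤ r ∧ r ≤ k + 1 ∧ (∀ i < r, k - i ∈ U) ∧
      ∑ i ∈ range r, D (k - i) ≤ θ * r) :
    ∑ k ∈ S, D k ≤ θ * U.card := by
  have key : ∀ n : ℕ, ∑ k ∈ S.filter (fun k => k < n), D k ≤
      θ * (U.filter (fun x => x < n)).card := by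
    intro n
    induction n using Nat.strong_induction_on with
    | _ n ih =>
      rcases Nat.eq_zero_or_pos n with hn | hn
      · subst hn
        have h0 : S.filter (fun k => k < 0) = ∅ := by
          refine filter_eq_empty_iff.2 fun k _ => ?_
          omega
        rw [h0, sum_empty]
        exact mul_nonneg hθ (Nat.cast_nonneg _)
      · obtain ⟨m, rfl⟩ : ∃ m, n = m + 1 := ⟨n - 1, by omega⟩
        by_cases hmS : m ∈ S
        · obtain ⟨r, hr1, hrm, hrU, hr⟩ := h m hmS
          have h1 := ih (m + 1 - r) (by omega)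
          have h2 : S.filter (fun k => k < m + 1) ⊆
              (range r).image (fun i => m - i) ∪ S.filter (fun k => k < m + 1 - r) := by
            intro k hk
            rw [mem_filter] at hk
            rw [mem_union, mem_image, mem_filter]
            by_cases h3 : k < m + 1 - r
            · exact Or.inr ⟨hk.1, h3⟩
            · exact Or.inl ⟨m - k, by rw [mem_range]; omega, by omega⟩
          have hinj : Set.InjOn (fun i => m - i) ((range r : Finset ℕ) : Set ℕ) := by
            intro i hi j hj hij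
            rw [mem_coe, mem_range] at hi hj
            simp only at hij
            omega
          have h3 : ∑ k ∈ (range r).image (fun i => m - i), D k = ∑ i ∈ range r, D (m - i) := by
            rw [sum_image hinj]
          have h4 : ∑ k ∈ S.filter (fun k => k < m + 1), D k ≤
              ∑ k ∈ (range r).image (fun i => m - i), D k +
              ∑ k ∈ S.filter (fun k => k < m + 1 - r), D k := by
            refine (sum_le_sum_of_subset_of_nonneg h2 fun k _ _ => hD k).trans ?_
            have h5 := sum_union_inter (s₁ := (range r).image (fun i => m - i))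
              (s₂ := S.filter (fun k => k < m + 1 - r)) (f := D)
            have h6 : 0 ≤ ∑ k ∈ (range r).image (fun i => m - i) ∩
              S.filter (fun k => k < m + 1 - r), D k := sum_nonneg fun k _ => hD k
            linarith
          rw [h3] at h4
          have h5 : r + (U.filter (fun x => x < m + 1 - r)).card ≤
              (U.filter (fun x => x < m + 1)).card := by
            have h6 : ((range r).image (fun i => m - i)).card = r := by
              rw [card_image_of_injOn hinj, card_range]
            have h7 : ((range r).image (fun i => m - i)).card +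
                (U.filter (fun x => x < m + 1 - r)).card ≤ (U.filter (fun x => x < m + 1)).card := by
              rw [← card_union_of_disjoint]
              · apply card_le_card
                intro x hx
                rw [mem_union, mem_image, mem_filter] at hx
                rw [mem_filter]
                rcases hx with ⟨i, hi, rfl⟩ | hx
                · exact ⟨hrU i (mem_range.1 hi), by omega⟩
                · exact ⟨hx.1, by omega⟩
              · rw [Finset.disjoint_left]
                intro x hx hx2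
                rw [mem_image] at hx
                rw [mem_filter] at hx2
                obtain ⟨i, hi, rfl⟩ := hx
                rw [mem_range] at hi
                omega
            omega
          have h6 : (r : ℝ) + ((U.filter (fun x => x < m + 1 - r)).card : ℝ) ≤
              ((U.filter (fun x => x < m + 1)).card : ℝ) := by exact_mod_cast h5
          calc _ ≤ _ := h4
            _ ≤ θ * r + θ * ((U.filter (fun x => x < m + 1 - r)).card : ℝ) := add_le_add hr h1
            _ = θ * (r + ((U.filter (fun x => x < m + 1 - r)).card : ℝ)) := by ring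
            _ ≤ _ := mul_le_mul_of_nonneg_left h6 hθ
        · have h2 : S.filter (fun k => k < m + 1) = S.filter (fun k => k < m) := by
            ext k
            rw [mem_filter, mem_filter]
            constructor
            · rintro ⟨h3, h4⟩
              refine ⟨h3, ?_⟩
              rcases Nat.lt_succ_iff_lt_or_eq.1 h4 with h5 | h5
              · exact h5
              · rw [h5] at h3
                exact absurd h3 hmS
            · rintro ⟨h3, h4⟩
              exact ⟨h3, by omega⟩
          rw [h2]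
          refine (ih m (by omega)).trans ?_
          apply mul_le_mul_of_nonneg_left _ hθ
          have h3 : (U.filter (fun x => x < m)).card ≤ (U.filter (fun x => x < m + 1)).card := by
            apply card_le_card
            intro x hx
            rw [mem_filter] at hx ⊢
            exact ⟨hx.1, by omega⟩
          exact_mod_cast h3
  have h1 := key N
  have h2 : S.filter (fun k => k < N) = S := filter_true_of_mem fun k hk => hS k hk
  rw [h2] at h1
  refine h1.trans (mul_le_mul_of_nonneg_left ?_ hθ)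
  exact_mod_cast card_filter_le _ _

/-- The sparse points, to the right or to the left, with the place of the sparse part. -/
lemma sparse_side_u (L d η θ Q : ℝ) (y u v : ℕ) (hL : 0 < L) (hd : 0 ≤ d) (hη : 0 < η)
    (hη2 : η ≤ 1 / 2) (hQ0 : 0 < Q) (hθ : d / (1 - η) + L / (η * Q) ≤ θ)
    (huy : u ≤ y) (hyv : y ≤ v) (hQv : Q ≤ (v : ℝ) - u)
    (hsp : (prIn u v : ℝ) * L < d * ((v : ℝ) - u)) :
    (∃ r, 1 ≤ r ∧ y + r ≤ v ∧ ∑ i ∈ range r, qmu L (y + i) ≤ θ * r) ∨
    (∃ r, 1 ≤ r ∧ u + r ≤ y ∧ ∑ i ∈ range r, qmu L (y - i) ≤ θ * r) := by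
  have h1η : 0 < 1 - η := by linarith
  have huyR : (u : ℝ) ≤ y := by exact_mod_cast huy
  have hyvR : (y : ℝ) ≤ v := by exact_mod_cast hyv
  have hsplit : (prIn u v : ℝ) = prIn u y + prIn y v := by
    exact_mod_cast prIn_split huy hyv
  have hp1 : (0 : ℝ) ≤ prIn u y := Nat.cast_nonneg _
  have hp2 : (0 : ℝ) ≤ prIn y v := Nat.cast_nonneg _
  have hd1 : d ≤ d / (1 - η) := by
    rw [le_div_iff₀ h1η]
    nlinarith
  -- one of the two sides is sparse and long
  have key : (η * ((v : ℝ) - u) ≤ (v : ℝ) - y ∧ (prIn y v : ℝ) * L ≤ d / (1 - η) * ((v : ℝ) - y)) ∨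
      (η * ((v : ℝ) - u) ≤ (y : ℝ) - u ∧ (prIn u y : ℝ) * L ≤ d / (1 - η) * ((y : ℝ) - u)) := by
    by_cases ha : (v : ℝ) - y < η * ((v : ℝ) - u)
    · right
      have hW : 0 ≤ (v : ℝ) - u := by linarith
      constructor
      · have : η * ((v : ℝ) - u) ≤ 1 / 2 * ((v : ℝ) - u) := mul_le_mul_of_nonneg_right hη2 hW
        linarith
      · have h2 : (1 - η) * ((v : ℝ) - u) ≤ (y : ℝ) - u := by linarith
        calc (prIn u y : ℝ) * L ≤ (prIn u v : ℝ) * L := by
              apply mul_le_mul_of_nonneg_right _ hL.le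
              linarith
          _ ≤ d * ((v : ℝ) - u) := hsp.le
          _ = d / (1 - η) * ((1 - η) * ((v : ℝ) - u)) := by field_simp
          _ ≤ d / (1 - η) * ((y : ℝ) - u) := mul_le_mul_of_nonneg_left h2 (by positivity)
    · rw [not_lt] at ha
      by_cases hb : (y : ℝ) - u < η * ((v : ℝ) - u)
      · left
        have hW : 0 ≤ (v : ℝ) - u := by linarith
        refine ⟨ha, ?_⟩
        have h2 : (1 - η) * ((v : ℝ) - u) ≤ (v : ℝ) - y := by linarith
        calc (prIn y v : ℝ) * L ≤ (prIn u v : ℝ) * L := by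
              apply mul_le_mul_of_nonneg_right _ hL.le
              linarith
          _ ≤ d * ((v : ℝ) - u) := hsp.le
          _ = d / (1 - η) * ((1 - η) * ((v : ℝ) - u)) := by field_simp
          _ ≤ d / (1 - η) * ((v : ℝ) - y) := mul_le_mul_of_nonneg_left h2 (by positivity)
      · rw [not_lt] at hb
        by_cases hc : (prIn y v : ℝ) * L ≤ d / (1 - η) * ((v : ℝ) - y)
        · exact Or.inl ⟨ha, hc⟩
        · right
          refine ⟨hb, ?_⟩
          rw [not_le] at hc
          have h3 : d * ((v : ℝ) - y) ≤ d / (1 - η) * ((v : ℝ) - y) :=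
            mul_le_mul_of_nonneg_right hd1 (by linarith)
          have h4 : d * ((y : ℝ) - u) ≤ d / (1 - η) * ((y : ℝ) - u) :=
            mul_le_mul_of_nonneg_right hd1 (by linarith)
          rw [hsplit] at hsp
          nlinarith
  rcases key with ⟨h1, h2⟩ | ⟨h1, h2⟩
  · left
    have h3 : η * Q ≤ (v : ℝ) - y := (mul_le_mul_of_nonneg_left hQv hη.le).trans h1
    have h4 : 0 < (v : ℝ) - y := lt_of_lt_of_le (by positivity) h3
    have h5 : y < v := by
      have : (y : ℝ) < v := by linarith
      exact_mod_cast this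
    refine ⟨v - y, by omega, by omega, ?_⟩
    have e1 : ∑ i ∈ range (v - y), qmu L (y + i) = ∑ z ∈ Ico y v, qmu L z := by
      rw [sum_Ico_eq_sum_range]
    rw [e1, sum_qmu L y v hyv, Nat.cast_sub hyv]
    refine h2.trans (mul_le_mul_of_nonneg_right ?_ h4.le)
    refine le_trans ?_ hθ
    have : 0 ≤ L / (η * Q) := by positivity
    linarith
  · right
    have h3 : η * Q ≤ (y : ℝ) - u := (mul_le_mul_of_nonneg_left hQv hη.le).trans h1
    have hηQ : 0 < η * Q := by positivity
    have h4 : 0 < (y : ℝ) - u := lt_of_lt_of_le hηQ h3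
    have h5 : u < y := by
      have : (u : ℝ) < y := by linarith
      exact_mod_cast this
    refine ⟨y - u, by omega, by omega, ?_⟩
    have e1 : ∑ i ∈ range (y - u), qmu L (y - i) = ∑ z ∈ Ico (u + 1) (y + 1), qmu L z := by
      rw [← sum_range_reflect, sum_Ico_eq_sum_range]
      have h4 : y + 1 - (u + 1) = y - u := by omega
      rw [h4]
      apply sum_congr rfl
      intro i hi
      rw [mem_range] at hi
      congr 1
      omega
    rw [e1, sum_qmu L (u + 1) (y + 1) (by omega), Nat.cast_sub huy]
    have h6 : (prIn (u + 1) (y + 1) : ℝ) ≤ prIn u y + 1 := by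
      have h5 : prIn (u + 1) (y + 1) ≤ prIn u (y + 1) := prIn_mono (by omega) le_rfl
      have h6 : prIn u (y + 1) = prIn u y + prIn y (y + 1) := prIn_split huy (by omega)
      have h7 := prIn_le y (y + 1)
      have h9 : prIn (u + 1) (y + 1) ≤ prIn u y + 1 := by omega
      exact_mod_cast h9
    have h7 : L ≤ L / (η * Q) * ((y : ℝ) - u) := by
      calc L = L / (η * Q) * (η * Q) := by field_simp
        _ ≤ _ := mul_le_mul_of_nonneg_left h3 (by positivity)
    calc (prIn (u + 1) (y + 1) : ℝ) * L ≤ (prIn u y + 1) * L := mul_le_mul_of_nonneg_right h6 hL.le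
      _ = (prIn u y : ℝ) * L + L := by ring
      _ ≤ d / (1 - η) * ((y : ℝ) - u) + L / (η * Q) * ((y : ℝ) - u) := add_le_add h2 h7
      _ = (d / (1 - η) + L / (η * Q)) * ((y : ℝ) - u) := by ring
      _ ≤ _ := mul_le_mul_of_nonneg_right hθ h4.le

/-- The core of the argument at one `X`, with the better count. -/
lemma quarter_core_y (X H K R : ℕ) (L e d η θ Q S : ℝ)
    (hH : 1 ≤ H) (hL : 0 < L) (hd : 0 ≤ d) (hη : 0 < η) (hη2 : η ≤ 1 / 2)
    (hQ0 : 0 < Q) (hθ : d / (1 - η) + L / (η * Q) ≤ θ) (hQ : (K : ℝ) * H ≤ Q)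
    (hS : 0 ≤ S)
    (hpnt : (1 - e) * X ≤ prIn 0 X * L)
    (hlong : ∀ u v : ℕ, u < X → u + R < v → v ≤ u + X → d * ((v : ℝ) - u) ≤ prIn u v * L)
    (hexc : ∑ z ∈ range X, max 0 ((prIn z (z + H) : ℝ) * L / H - S) ≤ e * X)
    (hHL : H * L ≤ e * X) (g : ℝ) (hg : g = (((range X).filter (fun y => ∀ u v : ℕ, u ≤ y → y ≤ v →
      Q ≤ (v : ℝ) - u → v ≤ u + X → d * ((v : ℝ) - u) / L ≤ prIn u v)).card : ℝ)) :
    K * ((1 - 3 * e) * X - θ * (2 * (X - g) + R)) ≤ S * (K * g + X) := by
  have hHr : (0 : ℝ) < H := by exact_mod_cast hH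
  have hθ0 : 0 ≤ θ := by
    have h1η : 0 < 1 - η := by linarith
    exact le_trans (by positivity) hθ
  set G := (range X).filter (fun y => ∀ u v : ℕ, u ≤ y → y ≤ v →
      Q ≤ (v : ℝ) - u → v ≤ u + X → d * ((v : ℝ) - u) / L ≤ prIn u v) with hG
  have hμ := fun z => qmu_nonneg hL.le z
  -- a bad point has a sparse interval
  have hbad : ∀ y, y < X → y ∉ G → ∃ u v : ℕ, u ≤ y ∧ y ≤ v ∧ Q ≤ (v : ℝ) - u ∧ v ≤ u + X ∧
      v ≤ u + R ∧ (prIn u v : ℝ) * L < d * ((v : ℝ) - u) := by
    intro y hy hyG
    rw [hG, mem_filter, mem_range] at hyG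
    by_contra hc
    apply hyG
    refine ⟨hy, fun u v h2 h3 h4 h5 => ?_⟩
    rw [div_le_iff₀ hL]
    by_contra h6
    rw [not_le] at h6
    by_cases h7 : v ≤ u + R
    · exact hc ⟨u, v, h2, h3, h4, h5, h7, h6⟩
    · have := hlong u v (by omega) (by omega) h5
      linarith
  have hbad2 : ∀ u v w : ℕ, u ≤ w → w ≤ v → w < X → Q ≤ (v : ℝ) - u → v ≤ u + X →
      (prIn u v : ℝ) * L < d * ((v : ℝ) - u) → w ∉ G := by
    intro u v w h1 h2 h3 h4 h5 h6 h7
    rw [hG, mem_filter] at h7
    have h8 := h7.2 u v h1 h2 h4 h5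
    rw [div_le_iff₀ hL] at h8
    linarith
  set B := (range X) \ G with hB
  set P1 : ℕ → Prop := fun y => ∃ r, 1 ≤ r ∧ (∀ i < r, y + i ∈ B ∪ Ico X (X + R)) ∧
    ∑ i ∈ range r, qmu L (y + i) ≤ θ * r with hP1
  set P2 : ℕ → Prop := fun y => ∃ r, 1 ≤ r ∧ r ≤ y + 1 ∧ (∀ i < r, y - i ∈ B) ∧
    ∑ i ∈ range r, qmu L (y - i) ≤ θ * r with hP2
  have hS1 := rise_right_u (qmu L) hμ θ hθ0 X ((range X).filter P1) (B ∪ Ico X (X + R))
    (fun k hk => mem_range.1 (mem_filter.1 hk).1) (fun k hk => (mem_filter.1 hk).2)
  have hS2 := rise_left_u (qmu L) hμ θ hθ0 X ((range X).filter P2) B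
    (fun k hk => mem_range.1 (mem_filter.1 hk).1) (fun k hk => (mem_filter.1 hk).2)
  have hUcard : ((B ∪ Ico X (X + R)).card : ℝ) ≤ B.card + R := by
    have h1 := card_union_le B (Ico X (X + R))
    rw [Nat.card_Ico] at h1
    have h2 : (B ∪ Ico X (X + R)).card ≤ B.card + R := by omega
    exact_mod_cast h2
  have hGX : G ⊆ range X := filter_subset _ _
  have hBcard : (B.card : ℝ) = X - g := by
    have h1 : B.card + G.card = X := by
      rw [hB]
      have := card_sdiff_add_card_eq_card hGX
      rwa [card_range] at this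
    rw [hg]
    have h2 : (B.card : ℝ) + G.card = X := by exact_mod_cast h1
    linarith
  have hcov : range X ⊆ (range X).filter P1 ∪ ((range X).filter P2 ∪ G) := by
    intro y hy
    rw [mem_union, mem_union, mem_filter, mem_filter]
    by_cases hyG : y ∈ G
    · exact Or.inr (Or.inr hyG)
    · obtain ⟨u, v, h1, h2, h3, h4, h5, h6⟩ := hbad y (mem_range.1 hy) hyG
      have hyX := mem_range.1 hy
      have hin : ∀ w, u ≤ w → w ≤ v → w < X → w ∈ B := by
        intro w hw1 hw2 hw3
        rw [hB, mem_sdiff, mem_range]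
        exact ⟨hw3, hbad2 u v w hw1 hw2 hw3 h3 h4 h6⟩
      rcases sparse_side_u L d η θ Q y u v hL hd hη hη2 hQ0 hθ h1 h2 h3 h6 with
        ⟨r, hr1, hr2, hr3⟩ | ⟨r, hr1, hr2, hr3⟩
      · refine Or.inl ⟨hy, r, hr1, fun i hi => ?_, hr3⟩
        by_cases hiX : y + i < X
        · exact mem_union_left _ (hin (y + i) (by omega) (by omega) hiX)
        · apply mem_union_right
          rw [mem_Ico]
          omega
      · refine Or.inr (Or.inl ⟨hy, r, hr1, by omega, fun i hi => ?_, hr3⟩)
        exact hin (y - i) (by omega) (by omega) (by omega)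
  have hun : ∀ S T : Finset ℕ, ∑ k ∈ S ∪ T, qmu L k ≤ ∑ k ∈ S, qmu L k + ∑ k ∈ T, qmu L k := by
    intro S T
    have h5 := sum_union_inter (s₁ := S) (s₂ := T) (f := qmu L)
    have h6 : 0 ≤ ∑ k ∈ S ∩ T, qmu L k := sum_nonneg fun k _ => hμ k
    linarith
  have hmass : (1 - e) * X - θ * (2 * (X - g) + R) ≤ ∑ z ∈ G, qmu L z := by
    have h1 : ∑ z ∈ range X, qmu L z = prIn 0 X * L := by
      rw [range_eq_Ico]
      exact sum_qmu L 0 X (Nat.zero_le _)
    have h3 : θ * ((B ∪ Ico X (X + R)).card : ℝ) ≤ θ * (X - g + R) := by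
      apply mul_le_mul_of_nonneg_left _ hθ0
      linarith
    have h2 : ∑ z ∈ range X, qmu L z ≤ θ * (X - g + R) + (θ * (X - g) + ∑ z ∈ G, qmu L z) := by
      refine (sum_le_sum_of_subset_of_nonneg hcov fun k _ _ => hμ k).trans ?_
      refine (hun _ _).trans (add_le_add (hS1.trans h3) ?_)
      refine (hun _ _).trans (add_le_add ?_ le_rfl)
      rw [← hBcard]
      exact hS2
    rw [h1] at h2
    linarith
  -- thickening
  set T := (range X).filter (fun z => z ∉ G ∧ ∃ i < H, z + i ∈ G) with hTdef
  set GH := (range X).filter (fun z => ∃ i < H, z + i ∈ G) with hGH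
  have hGHT : GH ⊆ G ∪ T := by
    intro z hz
    have hz2 := mem_filter.1 hz
    by_cases hzG : z ∈ G
    · exact mem_union_left _ hzG
    · exact mem_union_right _ (mem_filter.2 ⟨hz2.1, hzG, hz2.2⟩)
  have hTK : T.card * K ≤ X := by
    have hT2 : ∀ z ∈ T, ∃ u v : ℕ, u ≤ z ∧ z ≤ v ∧ v < z + H ∧ u + K * H ≤ v ∧
        ∀ w, u ≤ w → w ≤ z → w ∉ G := by
      intro z hz
      rw [hTdef, mem_filter, mem_range] at hz
      obtain ⟨hzX, hzG, i, hi, hzi⟩ := hz
      obtain ⟨u, v, h1, h2, h3, h4, h5, h6⟩ := hbad z hzX hzG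
      have hziX : z + i < X := mem_range.1 (hGX hzi)
      refine ⟨u, v, h1, h2, ?_, ?_, ?_⟩
      · by_contra hc
        exact hbad2 u v (z + i) (by omega) (by omega) hziX h3 h4 h6 hzi
      · have h7 : ((u + K * H : ℕ) : ℝ) ≤ v := by
          push_cast
          linarith
        exact_mod_cast h7
      · intro w hw1 hw2
        exact hbad2 u v w hw1 (by omega) (by omega) h3 h4 h6
    apply shift_count X H K T
    · intro z hz
      rw [hTdef, mem_filter, mem_range] at hz
      exact hz.1
    · intro z hz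
      obtain ⟨u, v, h1, h2, h3, h4, h5⟩ := hT2 z hz
      omega
    · intro z hz j hj1 hjK hzT
      obtain ⟨u, v, h1, h2, h3, h4, h5⟩ := hT2 z hz
      rw [hTdef, mem_filter, mem_range] at hzT
      obtain ⟨_, _, i, hi, hzi⟩ := hzT
      have h6 : (j + 1) * H ≤ K * H := Nat.mul_le_mul_right _ hjK
      rw [add_mul, one_mul] at h6
      have h7 : 1 * H ≤ j * H := Nat.mul_le_mul_right _ hj1
      exact h5 (z - j * H + i) (by omega) (by omega) hzi
  -- averaging
  have havg : (∑ z ∈ G, qmu L z) ≤ ∑ z ∈ GH, (prIn z (z + H) : ℝ) * L / H + H * L := by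
    have h1 : ∑ z ∈ G, qmu L z = ∑ z ∈ G.filter (fun w => H ≤ w), qmu L z +
        ∑ z ∈ G.filter (fun w => ¬ H ≤ w), qmu L z := (sum_filter_add_sum_filter_not _ _ _).symm
    have h2 : ∑ z ∈ G.filter (fun w => ¬ H ≤ w), qmu L z ≤ H * L := by
      calc ∑ z ∈ G.filter (fun w => ¬ H ≤ w), qmu L z ≤ ∑ z ∈ range H, qmu L z := by
            apply sum_le_sum_of_subset_of_nonneg _ fun k _ _ => hμ k
            intro z hz
            rw [mem_filter, not_le] at hz
            exact mem_range.2 hz.2
        _ ≤ ∑ z ∈ range H, L := sum_le_sum fun z _ => qmu_le hL.le z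
        _ = H * L := by rw [sum_const, card_range, nsmul_eq_mul]
    have h3 : H * ∑ z ∈ G.filter (fun w => H ≤ w), qmu L z ≤
        ∑ z ∈ GH, (prIn z (z + H) : ℝ) * L := by
      calc (H : ℝ) * ∑ z ∈ G.filter (fun w => H ≤ w), qmu L z
          = ∑ i ∈ range H, ∑ w ∈ G.filter (fun w => H ≤ w), qmu L w := by
            rw [sum_const, card_range, nsmul_eq_mul]
        _ ≤ ∑ i ∈ range H, ∑ z ∈ GH, qmu L (z + i) := by
            apply sum_le_sum
            intro i hi
            rw [mem_range] at hi
            have h4 : ∑ w ∈ G.filter (fun w => H ≤ w), qmu L w =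
                ∑ z ∈ (G.filter (fun w => H ≤ w)).image (fun w => w - i), qmu L (z + i) := by
              rw [sum_image]
              · apply sum_congr rfl
                intro w hw
                rw [mem_filter] at hw
                congr 1
                omega
              · intro w hw w' hw' h
                rw [mem_coe, mem_filter] at hw hw'
                simp only at h
                omega
            rw [h4]
            apply sum_le_sum_of_subset_of_nonneg _ fun k _ _ => hμ _
            intro z hz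
            rw [mem_image] at hz
            obtain ⟨w, hw, rfl⟩ := hz
            rw [mem_filter] at hw
            have hwX : w < X := mem_range.1 (hGX hw.1)
            rw [hGH, mem_filter, mem_range]
            refine ⟨by omega, i, hi, ?_⟩
            have : w - i + i = w := by omega
            rw [this]
            exact hw.1
        _ = ∑ z ∈ GH, ∑ i ∈ range H, qmu L (z + i) := sum_comm
        _ = ∑ z ∈ GH, (prIn z (z + H) : ℝ) * L := by
            apply sum_congr rfl
            intro z _
            rw [← sum_qmu L z (z + H) (by omega), sum_Ico_eq_sum_range]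
            congr 2
            omega
    have h4 : ∑ z ∈ G.filter (fun w => H ≤ w), qmu L z ≤
        ∑ z ∈ GH, (prIn z (z + H) : ℝ) * L / H := by
      rw [← sum_div, le_div_iff₀ hHr]
      linarith
    linarith
  have hexc2 : ∑ z ∈ GH, (prIn z (z + H) : ℝ) * L / H ≤ S * GH.card + e * X := by
    calc ∑ z ∈ GH, (prIn z (z + H) : ℝ) * L / H
        ≤ ∑ z ∈ GH, (S + max 0 ((prIn z (z + H) : ℝ) * L / H - S)) := by
          apply sum_le_sum
          intro z _
          have := le_max_right 0 ((prIn z (z + H) : ℝ) * L / H - S)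
          linarith
      _ = S * GH.card + ∑ z ∈ GH, max 0 ((prIn z (z + H) : ℝ) * L / H - S) := by
          rw [sum_add_distrib, sum_const, nsmul_eq_mul]
          ring
      _ ≤ S * GH.card + ∑ z ∈ range X, max 0 ((prIn z (z + H) : ℝ) * L / H - S) := by
          apply add_le_add le_rfl
          apply sum_le_sum_of_subset_of_nonneg (filter_subset _ _)
          intro k _ _
          exact le_max_left _ _
      _ ≤ _ := add_le_add le_rfl hexc
  have hcard : (GH.card : ℝ) ≤ g + T.card := by
    have := (card_le_card hGHT).trans (card_union_le _ _)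
    rw [hg]
    exact_mod_cast this
  have hTKr : (T.card : ℝ) * K ≤ X := by exact_mod_cast hTK
  have h1 : (1 - 3 * e) * X - θ * (2 * (X - g) + R) ≤ S * (g + T.card) := by
    have h2 : S * GH.card ≤ S * (g + T.card) := mul_le_mul_of_nonneg_left hcard hS
    linarith
  have hK0 : (0 : ℝ) ≤ K := Nat.cast_nonneg _
  calc (K : ℝ) * ((1 - 3 * e) * X - θ * (2 * (X - g) + R)) ≤ K * (S * (g + T.card)) :=
        mul_le_mul_of_nonneg_left h1 hK0
    _ = S * (K * g + T.card * K) := by ring
    _ ≤ S * (K * g + X) := by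
        apply mul_le_mul_of_nonneg_left _ hS
        linarith

/-- **The general form with the better constant**: at one `X`, with the scale `Q` and the
averaging length `H`. -/
theorem quarter_gen_y (X H K : ℕ) (L d ε Q : ℝ) (hd : 0 < d) (hd2 : d < 1 / 2) (hε : 0 < ε)
    (hε1 : ε ≤ 1) (hH : 1 ≤ H) (hL : 0 < L) (hK : 8 / ε ≤ K) (hQ0 : 0 < Q) (hQ : (K : ℝ) * H ≤ Q)
    (hQ2 : L ≤ 2 * d * (ε / 8) ^ 2 * Q) (hX : 0 < X)
    (hlow : ∀ v : ℕ, v ≤ 2 * X → (v : ℝ) - ε / 64 * X ≤ prIn 0 v * L)
    (hupp : ∀ u : ℕ, u ≤ X → (prIn 0 u : ℝ) * L ≤ u + ε / 64 * X)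
    (hexc : ∑ z ∈ range X, max 0 ((prIn z (z + H) : ℝ) * L / H - (4 + ε / 8)) ≤ ε / 8 * X)
    (hHL : H * L ≤ ε / 8 * X) :
    ((1 - 2 * d) / (4 - 2 * d) - ε) * X ≤ (((range X).filter (fun y => ∀ u v : ℕ, u ≤ y → y ≤ v →
      Q ≤ (v : ℝ) - u → v ≤ u + X → d * ((v : ℝ) - u) / L ≤ prIn u v)).card : ℝ) := by
  have hXr : (0 : ℝ) < X := by exact_mod_cast hX
  obtain ⟨e, he⟩ : ∃ e, e = ε / 8 := ⟨_, rfl⟩
  have he0 : 0 < e := by rw [he]; positivity
  have he1 : e ≤ 1 / 8 := by rw [he]; linarith
  have hKr : (0 : ℝ) < K := lt_of_lt_of_le (by positivity) hK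
  obtain ⟨R, hR⟩ : ∃ R : ℕ, R = ⌊e * X⌋₊ := ⟨_, rfl⟩
  have hRX : (R : ℝ) ≤ e * X := by rw [hR]; exact Nat.floor_le (by positivity)
  have hθ : d / (1 - e) + L / (e * Q) ≤ d * (1 + 4 * e) := by
    have h1 : d / (1 - e) ≤ d * (1 + 2 * e) := by
      rw [div_le_iff₀ (by linarith)]
      have h2 : 1 ≤ (1 + 2 * e) * (1 - e) := by nlinarith
      calc d = d * 1 := (mul_one d).symm
        _ ≤ d * ((1 + 2 * e) * (1 - e)) := mul_le_mul_of_nonneg_left h2 hd.le
        _ = _ := by ring
    have h2 : L / (e * Q) ≤ 2 * d * e := by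
      rw [div_le_iff₀ (by positivity)]
      rw [← he] at hQ2
      calc L ≤ 2 * d * e ^ 2 * Q := hQ2
        _ = _ := by ring
    linarith
  obtain ⟨g, hg⟩ : ∃ g : ℝ, g = (((range X).filter (fun y => ∀ u v : ℕ, u ≤ y → y ≤ v →
      Q ≤ (v : ℝ) - u → v ≤ u + X → d * ((v : ℝ) - u) / L ≤ prIn u v)).card : ℝ) := ⟨_, rfl⟩
  have hcore := quarter_core_y X H K R L e d e (d * (1 + 4 * e)) Q (4 + e) hH hL hd.le he0
    (by linarith) hQ0 hθ hQ (by linarith) (by
      have h1 := hlow X (by omega)
      have h2 : ε / 64 * X ≤ e * X := mul_le_mul_of_nonneg_right (by rw [he]; linarith) hXr.le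
      linarith) (by
      intro u v hu huv hvX
      have h1 := hlow v (by omega)
      have h2 := hupp u hu.le
      have h3 : (prIn 0 v : ℝ) = prIn 0 u + prIn u v := by
        exact_mod_cast prIn_split (Nat.zero_le u) (by omega)
      rw [h3] at h1
      have h4 : (e * X : ℝ) < (v : ℝ) - u := by
        have h5 : e * X < R + 1 := by rw [hR]; exact Nat.lt_floor_add_one _
        have h6 : ((u + R + 1 : ℕ) : ℝ) ≤ v := by exact_mod_cast huv
        push_cast at h6
        linarith
      have h5 : ε / 64 * X = e / 8 * X := by rw [he]; ring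
      rw [h5] at h1 h2
      have h6 : d * ((v : ℝ) - u) ≤ 1 / 2 * ((v : ℝ) - u) :=
        mul_le_mul_of_nonneg_right hd2.le (by nlinarith)
      linarith) (by rw [← he] at hexc; exact hexc) (by rw [← he] at hHL; exact hHL) g hg
  rw [← hg]
  have hg0 : 0 ≤ g := by rw [hg]; exact Nat.cast_nonneg _
  have hgX : g ≤ X := by
    rw [hg]
    have h1 := card_filter_le (range X) (fun y => ∀ u v : ℕ, u ≤ y → y ≤ v →
      Q ≤ (v : ℝ) - u → v ≤ u + X → d * ((v : ℝ) - u) / L ≤ prIn u v)
    rw [card_range] at h1
    exact_mod_cast h1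
  -- the numerical part
  have h1 : d * (1 + 4 * e) * (2 * (X - g) + R) ≤ 2 * d * (X - g) + 5 * e * X := by
    have h2 : d * (1 + 4 * e) * (2 * (X - g) + R) ≤ d * (1 + 4 * e) * (2 * (X - g) + e * X) := by
      apply mul_le_mul_of_nonneg_left _ (by positivity)
      linarith
    have h3 : d * (1 + 4 * e) * (2 * (X - g) + e * X) =
        2 * d * (X - g) + 8 * (d * e) * (X - g) + (d * e) * (1 + 4 * e) * X := by ring
    have h4 : d * e ≤ 1 / 2 * e := mul_le_mul_of_nonneg_right hd2.le he0.le
    have h5 : 8 * (d * e) * (X - g) ≤ 4 * e * X := by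
      calc 8 * (d * e) * (X - g) ≤ 8 * (1 / 2 * e) * X := by
            apply mul_le_mul _ (by linarith) (by linarith) (by positivity)
            linarith
        _ = _ := by ring
    have h6 : (d * e) * (1 + 4 * e) * X ≤ e * X := by
      apply mul_le_mul_of_nonneg_right _ hXr.le
      calc (d * e) * (1 + 4 * e) ≤ (1 / 2 * e) * 2 := by
            apply mul_le_mul h4 (by linarith) (by positivity) (by positivity)
        _ = e := by ring
    linarith
  have h2 : (K : ℝ) * ((1 - 8 * e) * X - 2 * d * (X - g)) ≤ (4 + e) * (K * g + X) := by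
    refine le_trans (mul_le_mul_of_nonneg_left ?_ hKr.le) hcore
    linarith
  have h3 : (X : ℝ) ≤ e * (K * X) := by
    have h4 : 1 ≤ e * K := by
      rw [div_le_iff₀ hε] at hK
      rw [he]
      linarith
    calc (X : ℝ) = 1 * X := (one_mul _).symm
      _ ≤ e * K * X := mul_le_mul_of_nonneg_right h4 hXr.le
      _ = _ := by ring
  have h4 : (K : ℝ) * ((1 - 8 * e) * X - 2 * d * (X - g)) ≤ K * ((4 + e) * (g + e * X)) := by
    refine h2.trans ?_
    have h5 : (4 + e) * (K * g + X) ≤ (4 + e) * (K * g + e * (K * X)) :=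
      mul_le_mul_of_nonneg_left (by linarith) (by linarith)
    refine h5.trans (le_of_eq ?_)
    ring
  have h5 : (1 - 8 * e) * X - 2 * d * (X - g) ≤ (4 + e) * (g + e * X) :=
    le_of_mul_le_mul_left h4 hKr
  have h6 : (1 - 2 * d - 14 * e) * X ≤ (4 - 2 * d) * g := by
    have h7 : e * g ≤ e * X := mul_le_mul_of_nonneg_left hgX he0.le
    have h8 : (4 + e) * (e * X) ≤ 5 * (e * X) := mul_le_mul_of_nonneg_right (by linarith) (by positivity)
    have h9 : (4 + e) * (g + e * X) = 4 * g + e * g + (4 + e) * (e * X) := by ring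
    linarith
  have h7 : (4 - 2 * d) * (((1 - 2 * d) / (4 - 2 * d) - ε) * X) ≤ (4 - 2 * d) * g := by
    refine le_trans ?_ h6
    have h8 : (4 - 2 * d) * (((1 - 2 * d) / (4 - 2 * d) - ε) * X) =
        (1 - 2 * d - (4 - 2 * d) * ε) * X := by
      have h9 : (4 - 2 * d) ≠ 0 := by linarith
      field_simp
    rw [h8]
    apply mul_le_mul_of_nonneg_right _ hXr.le
    have h9 : 3 * ε ≤ (4 - 2 * d) * ε := mul_le_mul_of_nonneg_right (by linarith) hε.le
    rw [he]
    linarith
  exact le_of_mul_le_mul_left h7 (by linarith)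

end Pool.Agent.H.MP_711652_nt.QW
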