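import Mathlib
import Pool.Agent.H.MP_711652_nt.QW.Defs
import Pool.Agent.H.MP_711652_nt.Avg
import Pool.Agent.H.MP_711652_nt.TailA

set_option autoImplicit false

/-!
# Jumps of averages over all scales: definitions
-/

namespace Pool.Agent.H.MP_711652_nt.QW

open Finset

/-- The average of `g` over `[p, q)`. -/
noncomputable def av (g : ℕ → ℝ) (p q : ℕ) : ℝ := (∑ k ∈ Ico p q, g k) / ((q : ℝ) - p)

/-- Two intervals around `k` with lengths in `[2 ^ j, 2 ^ (j + 1))` on which `g` has averages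
which differ by at least `ε`. -/
def Rough (g : ℕ → ℝ) (ε : ℝ) (j k : ℕ) : Prop :=
  ∃ p q p' q' : ℕ, p ≤ k ∧ k < q ∧ p' ≤ k ∧ k < q' ∧ 2 ^ j ≤ q - p ∧ q - p < 2 ^ (j + 1) ∧
    2 ^ j ≤ q' - p' ∧ q' - p' < 2 ^ (j + 1) ∧ ε ≤ |av g p q - av g p' q'|

/-- A chain of `m` jumps: intervals `[p i, q i)`, `[p' i, q' i)` around `k` of increasing length
`≤ N`, averages which differ by at least `ε`, lengths of successive jumps separated by a factor
`2`. -/
def Chain (g : ℕ → ℝ) (N : ℕ) (ε : ℝ) (m k : ℕ) : Prop :=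
  ∃ p q p' q' : ℕ → ℕ,
    (∀ i, i < m → p i ≤ k ∧ k < q i ∧ p' i ≤ k ∧ k < q' i ∧ q i - p i ≤ q' i - p' i ∧
      q' i - p' i ≤ N ∧ ε ≤ |av g (p i) (q i) - av g (p' i) (q' i)|) ∧
    (∀ i, i + 1 < m → 2 * (q' i - p' i) ≤ q (i + 1) - p (i + 1))

open Classical in
/-- The number of greedy stops of the dyadic averages below level `i`, starting from the reference
value `v`. -/
noncomputable def stops (g : ℕ → ℝ) (ε : ℝ) : ℕ → ℝ → ℕ → ℕ
  | 0, _, _ => 0
  | i + 1, v, k =>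
    if ε ≤ |avg (2 ^ i) g k - v| then 1 + stops g ε i (avg (2 ^ i) g k) k else stops g ε i v k

end Pool.Agent.H.MP_711652_nt.QW
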