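import Mathlib
import Pool.Agent.H.MP_711652_nt.EntC1
import Pool.Agent.H.MP_711652_nt.QW.JumpDefs

set_option autoImplicit false

namespace Pool.Agent.H.MP_711652_nt.QW

open Finset Classical

lemma rgh_exp (t : ℝ) (ht0 : 0 ≤ t) (ht1 : t ≤ 1) : Real.exp (t / 2) ≤ 1 + t := by
  have h1 : 0 < 1 + t := by linarith
  rw [← Real.le_log_iff_exp_le h1]
  have h2 := Real.one_sub_inv_le_log_of_pos h1
  refine le_trans ?_ h2
  have h3 : 1 - (1 + t)⁻¹ = t / (1 + t) := by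
    field_simp
    ring
  rw [h3]
  exact div_le_div_of_nonneg_left ht0 h1 (by linarith)

lemma rgh_avg_range (s : ℕ) (hs : 0 < s) (h : ℕ → ℝ) (hh : ∀ k, 0 ≤ h k ∧ h k ≤ 12) (k : ℕ) :
    0 ≤ avg s h k ∧ avg s h k ≤ 12 := by
  refine ⟨avg_nonneg s h (fun k => (hh k).1) k, ?_⟩
  unfold avg
  have hs0 : (0 : ℝ) < s := by exact_mod_cast hs
  rw [div_le_iff₀ hs0]
  calc ∑ i ∈ range s, h (k / s * s + i) ≤ ∑ i ∈ range s, (12 : ℝ) :=
        sum_le_sum fun i _ => (hh _).2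
    _ = 12 * s := by rw [sum_const, card_range, nsmul_eq_mul]; ring

/-- The energy of level `a` in a dyadic cell. -/
noncomputable def rghE (h : ℕ → ℝ) (i C a : ℕ) : ℝ :=
  ∑ k ∈ Ico (C * 2 ^ i) ((C + 1) * 2 ^ i), (avg (2 ^ a) h k) ^ 2

lemma rgh_pyth (h : ℕ → ℝ) (i C a b : ℕ) (hab : a ≤ b) (hbi : b ≤ i) :
    ∑ k ∈ Ico (C * 2 ^ i) ((C + 1) * 2 ^ i), (avg (2 ^ a) h k - avg (2 ^ b) h k) ^ 2 =
      rghE h i C a - rghE h i C b := by
  have e2 : 2 ^ (b - a) * 2 ^ a = 2 ^ b := by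
    rw [← pow_add]
    congr 1
    omega
  have e1 : ∀ D : ℕ, D * 2 ^ (i - b) * 2 ^ b = D * 2 ^ i := by
    intro D
    rw [mul_assoc, ← pow_add]
    congr 2
    omega
  have key : ∀ D : ℕ, ∑ k ∈ range (D * 2 ^ i), (avg (2 ^ a) h k - avg (2 ^ b) h k) ^ 2 =
      En (2 ^ a) h (D * 2 ^ i) - En (2 ^ b) h (D * 2 ^ i) := by
    intro D
    have h1 := En_sub (D * 2 ^ (i - b)) (2 ^ a) (2 ^ (b - a)) (by positivity) (by positivity) h
    rw [e2, e1] at h1
    exact h1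
  have hle : C * 2 ^ i ≤ (C + 1) * 2 ^ i := Nat.mul_le_mul_right _ (by omega)
  unfold rghE
  rw [sum_Ico_eq_sub _ hle, sum_Ico_eq_sub _ hle, sum_Ico_eq_sub _ hle, key, key]
  unfold En
  ring

/-- The martingale difference of level `i`. -/
noncomputable def rghD (h : ℕ → ℝ) (i k : ℕ) : ℝ := avg (2 ^ i) h k - avg (2 ^ (i + 1)) h k

lemma rgh_avg_sum (h : ℕ → ℝ) (s D : ℕ) (hs : 0 < s) :
    ∑ k ∈ range (D * s), avg s h k = ∑ k ∈ range (D * s), h k := by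
  have h2 := sum_avg_mul D s hs h (fun _ => 1) (fun _ _ _ => rfl)
  simpa only [mul_one] using h2

lemma rgh_D_sum (h : ℕ → ℝ) (i D : ℕ) : ∑ k ∈ range (D * 2 ^ (i + 1)), rghD h i k = 0 := by
  have e1 : D * 2 ^ (i + 1) = (D * 2) * 2 ^ i := by ring
  unfold rghD
  rw [sum_sub_distrib, rgh_avg_sum h _ D (by positivity), e1,
    rgh_avg_sum h _ (D * 2) (by positivity), sub_self]

/-- Partial sums of a martingale difference see only one block. -/
lemma rgh_F (h : ℕ → ℝ) (i x c l : ℕ) (hil : i + 1 ≤ l) (hx1 : c * 2 ^ l ≤ x)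
    (hx2 : x ≤ (c + 1) * 2 ^ l) : (∑ k ∈ range x, rghD h i k) ^ 2 ≤
      2 ^ (i + 1) * ∑ k ∈ Ico (c * 2 ^ l) ((c + 1) * 2 ^ l), (rghD h i k) ^ 2 := by
  set B := 2 ^ (i + 1) with hB
  have hB0 : 0 < B := by positivity
  have hx : x = x / B * B + x % B := (Nat.div_add_mod' x B).symm
  have hmod : x % B < B := Nat.mod_lt x hB0
  have hsum : ∑ k ∈ range x, rghD h i k =
      ∑ t ∈ range (x % B), rghD h i (x / B * B + t) := by
    conv_lhs => rw [hx]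
    rw [sum_range_add, hB, rgh_D_sum, zero_add]
  have hcs : (∑ t ∈ range (x % B), rghD h i (x / B * B + t)) ^ 2 ≤
      ((x % B : ℕ) : ℝ) * ∑ t ∈ range (x % B), (rghD h i (x / B * B + t)) ^ 2 := by
    have h1 := sq_sum_le_card_mul_sum_sq (s := range (x % B))
      (f := fun t => rghD h i (x / B * B + t))
    rw [card_range] at h1
    exact h1
  have hle : c * 2 ^ l ≤ x / B * B := by
    have e1 : c * 2 ^ l = c * 2 ^ (l - (i + 1)) * B := by
      rw [hB, mul_assoc, ← pow_add]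
      congr 2
      omega
    rw [e1] at hx1 ⊢
    exact Nat.mul_le_mul_right _ ((Nat.le_div_iff_mul_le hB0).2 hx1)
  have hsub : ∑ t ∈ range (x % B), (rghD h i (x / B * B + t)) ^ 2 ≤
      ∑ k ∈ Ico (c * 2 ^ l) ((c + 1) * 2 ^ l), (rghD h i k) ^ 2 := by
    have e1 : ∑ t ∈ range (x % B), (rghD h i (x / B * B + t)) ^ 2 =
        ∑ k ∈ Ico (x / B * B) x, (rghD h i k) ^ 2 := by
      rw [sum_Ico_eq_sum_range]
      have e2 : x - x / B * B = x % B := by omega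
      rw [e2]
    rw [e1]
    apply sum_le_sum_of_subset_of_nonneg
    · intro k hk
      rw [mem_Ico] at hk ⊢
      omega
    · intro k _ _
      exact sq_nonneg _
  have hBR : ((x % B : ℕ) : ℝ) ≤ 2 ^ (i + 1) := by
    have h1 : x % B ≤ 2 ^ (i + 1) := hmod.le
    exact_mod_cast h1
  rw [hsum]
  refine hcs.trans ?_
  exact mul_le_mul hBR hsub (sum_nonneg fun t _ => sq_nonneg _) (by positivity)

lemma rgh_weights (e : ℕ → ℝ) (n : ℕ) :
    ∑ l ∈ range n, ∑ i ∈ range l, (3 / 4 : ℝ) ^ (l - i) * e i +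
      4 * ∑ i ∈ range n, (3 / 4 : ℝ) ^ (n - i) * e i = 3 * ∑ i ∈ range n, e i := by
  induction n with
  | zero => simp
  | succ n ih =>
    have h1 : ∑ i ∈ range (n + 1), (3 / 4 : ℝ) ^ (n + 1 - i) * e i =
        3 / 4 * (∑ i ∈ range n, (3 / 4 : ℝ) ^ (n - i) * e i + e n) := by
      rw [sum_range_succ, mul_add, mul_sum]
      congr 1
      · apply sum_congr rfl
        intro i hi
        rw [mem_range] at hi
        have e1 : n + 1 - i = n - i + 1 := by omega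
        rw [e1, pow_succ]
        ring
      · have e1 : n + 1 - n = 1 := by omega
        rw [e1, pow_one]
    rw [sum_range_succ, sum_range_succ (fun i => e i), h1]
    linarith

lemma rgh_geom (l : ℕ) :
    ∑ i ∈ range l, (2 : ℝ) ^ i * (4 / 3) ^ (l - i) = 2 * 2 ^ l - 2 * (4 / 3) ^ l := by
  induction l with
  | zero => simp
  | succ n ih =>
    have h1 : ∑ i ∈ range n, (2 : ℝ) ^ i * (4 / 3) ^ (n + 1 - i) =
        4 / 3 * ∑ i ∈ range n, (2 : ℝ) ^ i * (4 / 3) ^ (n - i) := by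
      rw [mul_sum]
      apply sum_congr rfl
      intro i hi
      rw [mem_range] at hi
      have e1 : n + 1 - i = n - i + 1 := by omega
      rw [e1, pow_succ]
      ring
    have e1 : n + 1 - n = 1 := by omega
    rw [sum_range_succ, h1, ih, e1]
    ring

/-- The cell `c` of level `l` is bad: `h` has much weighted variance in it. -/
def rghBad (h : ℕ → ℝ) (η : ℝ) (l c : ℕ) : Prop :=
  η * 2 ^ l ≤ ∑ k ∈ Ico (c * 2 ^ l) ((c + 1) * 2 ^ l),
    ∑ i ∈ range l, (3 / 4 : ℝ) ^ (l - i) * (rghD h i k) ^ 2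

/-- Carleson packing, for an arbitrary function. -/
lemma rgh_pack (h : ℕ → ℝ) (η : ℝ) (hη : 0 < η) (i C : ℕ) : ∑ j ∈ range i, (2 : ℝ) ^ j *
      (((Ico (C * 2 ^ (i - j)) ((C + 1) * 2 ^ (i - j))).filter (rghBad h η j)).card : ℝ) ≤
      (3 / η) * ∑ k ∈ Ico (C * 2 ^ i) ((C + 1) * 2 ^ i), h k ^ 2 := by
  set Q := Ico (C * 2 ^ i) ((C + 1) * 2 ^ i) with hQ
  set e : ℕ → ℝ := fun a => ∑ k ∈ Q, (rghD h a k) ^ 2 with he
  have he0 : ∀ a, 0 ≤ e a := fun a => sum_nonneg fun k _ => sq_nonneg _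
  have h1 : ∀ j ∈ range i, (2 : ℝ) ^ j *
      (((Ico (C * 2 ^ (i - j)) ((C + 1) * 2 ^ (i - j))).filter (rghBad h η j)).card : ℝ) ≤
      η⁻¹ * ∑ a ∈ range j, (3 / 4 : ℝ) ^ (j - a) * e a := by
    intro j hj
    rw [mem_range] at hj
    have e1 : ∑ a ∈ range j, (3 / 4 : ℝ) ^ (j - a) * e a =
        ∑ k ∈ Ico (C * 2 ^ i) ((C + 1) * 2 ^ i),
          ∑ a ∈ range j, (3 / 4 : ℝ) ^ (j - a) * (rghD h a k) ^ 2 := by
      rw [sum_comm]
      apply sum_congr rfl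
      intro a _
      rw [he]
      simp only
      rw [mul_sum]
    rw [e1, dyadic_regroup _ i j C hj.le, mul_sum]
    have h2 : ∀ c ∈ (Ico (C * 2 ^ (i - j)) ((C + 1) * 2 ^ (i - j))).filter (rghBad h η j),
        (2 : ℝ) ^ j ≤ η⁻¹ * ∑ k ∈ Ico (c * 2 ^ j) ((c + 1) * 2 ^ j),
          ∑ a ∈ range j, (3 / 4 : ℝ) ^ (j - a) * (rghD h a k) ^ 2 := by
      intro c hc
      have h3 := (mem_filter.1 hc).2
      unfold rghBad at h3
      rw [inv_mul_eq_div, le_div_iff₀ hη]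
      linarith
    calc (2 : ℝ) ^ j *
          (((Ico (C * 2 ^ (i - j)) ((C + 1) * 2 ^ (i - j))).filter (rghBad h η j)).card : ℝ)
        = ∑ c ∈ (Ico (C * 2 ^ (i - j)) ((C + 1) * 2 ^ (i - j))).filter (rghBad h η j),
          (2 : ℝ) ^ j := by rw [sum_const, nsmul_eq_mul]; ring
      _ ≤ ∑ c ∈ (Ico (C * 2 ^ (i - j)) ((C + 1) * 2 ^ (i - j))).filter (rghBad h η j),
          η⁻¹ * ∑ k ∈ Ico (c * 2 ^ j) ((c + 1) * 2 ^ j),
            ∑ a ∈ range j, (3 / 4 : ℝ) ^ (j - a) * (rghD h a k) ^ 2 := sum_le_sum h2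
      _ ≤ _ := by
          apply sum_le_sum_of_subset_of_nonneg (filter_subset _ _)
          intro c _ _
          exact mul_nonneg (inv_nonneg.2 hη.le) (sum_nonneg fun k _ =>
            sum_nonneg fun a _ => by positivity)
  refine (sum_le_sum h1).trans ?_
  rw [← mul_sum]
  have h2 := rgh_weights e i
  have h2' : 0 ≤ ∑ a ∈ range i, (3 / 4 : ℝ) ^ (i - a) * e a :=
    sum_nonneg fun a _ => mul_nonneg (by positivity) (he0 a)
  have h3 : ∑ a ∈ range i, e a = rghE h i C 0 - rghE h i C i := by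
    rw [← sum_range_sub' (fun a => rghE h i C a)]
    apply sum_congr rfl
    intro a ha
    rw [mem_range] at ha
    exact rgh_pyth h i C a (a + 1) (by omega) ha
  have h3' : 0 ≤ rghE h i C i := sum_nonneg fun k _ => sq_nonneg _
  have h4 : rghE h i C 0 = ∑ k ∈ Ico (C * 2 ^ i) ((C + 1) * 2 ^ i), h k ^ 2 := by
    unfold rghE
    apply sum_congr rfl
    intro k _
    rw [pow_zero, avg_one]
  calc η⁻¹ * ∑ j ∈ range i, ∑ a ∈ range j, (3 / 4 : ℝ) ^ (j - a) * e a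
      ≤ η⁻¹ * (3 * ∑ k ∈ Ico (C * 2 ^ i) ((C + 1) * 2 ^ i), h k ^ 2) := by
        apply mul_le_mul_of_nonneg_left _ (inv_nonneg.2 hη.le)
        rw [← h4]
        linarith
    _ = (3 / η) * ∑ k ∈ Ico (C * 2 ^ i) ((C + 1) * 2 ^ i), h k ^ 2 := by ring

/-- Carleson packing. -/
lemma rgh_carleson (h : ℕ → ℝ) (hh : ∀ k, 0 ≤ h k ∧ h k ≤ 12) (η : ℝ) (hη : 0 < η)
    (i C : ℕ) : ∑ j ∈ range i, (2 : ℝ) ^ j *
      (((Ico (C * 2 ^ (i - j)) ((C + 1) * 2 ^ (i - j))).filter (rghBad h η j)).card : ℝ) ≤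
      (432 / η) * 2 ^ i := by
  refine (rgh_pack h η hη i C).trans ?_
  have h4 : ∀ k ∈ Ico (C * 2 ^ i) ((C + 1) * 2 ^ i), h k ^ 2 ≤ 144 := by
    intro k _
    have h5 := hh k
    nlinarith [h5.1, h5.2]
  have h6 : (C + 1) * 2 ^ i - C * 2 ^ i = 2 ^ i := by
    rw [Nat.add_mul, one_mul, Nat.add_sub_cancel_left]
  calc (3 / η) * ∑ k ∈ Ico (C * 2 ^ i) ((C + 1) * 2 ^ i), h k ^ 2
      ≤ (3 / η) * ∑ k ∈ Ico (C * 2 ^ i) ((C + 1) * 2 ^ i), (144 : ℝ) :=
        mul_le_mul_of_nonneg_left (sum_le_sum h4) (by positivity)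
    _ = (432 / η) * 2 ^ i := by
        rw [sum_const, Nat.card_Ico, nsmul_eq_mul, h6]
        push_cast
        ring

/-- An interval on which the average differs from the average over the cell makes the cell
bad. -/
lemma rgh_bad_of (h : ℕ → ℝ) (ε : ℝ) (hε : 0 < ε) (j c p q : ℕ) (hp : c * 2 ^ (j + 4) ≤ p)
    (hq : q ≤ (c + 1) * 2 ^ (j + 4)) (hlen : 2 ^ j ≤ q - p)
    (hav : ε / 2 ≤ |av h p q - avg (2 ^ (j + 4)) h (c * 2 ^ (j + 4))|) :
    rghBad h (ε ^ 2 / 16384) (j + 4) c := by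
  have h2j : 0 < 2 ^ j := by positivity
  have hpq : p ≤ q := by omega
  obtain ⟨l, hl⟩ : ∃ l, l = j + 4 := ⟨_, rfl⟩
  rw [← hl] at hp hq hav ⊢
  have hT0 : 0 < 2 ^ l := by positivity
  set μ := avg (2 ^ l) h (c * 2 ^ l) with hμ
  obtain ⟨x, hx⟩ : ∃ x : ℝ, x = (q : ℝ) - p := ⟨_, rfl⟩
  have hxn : ((q - p : ℕ) : ℝ) = x := by rw [hx, Nat.cast_sub hpq]
  have hxj : (2 : ℝ) ^ j ≤ x := by
    rw [← hxn]
    exact_mod_cast hlen
  have hx0 : 0 < x := lt_of_lt_of_le (by positivity) hxj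
  set Q := Ico (c * 2 ^ l) ((c + 1) * 2 ^ l) with hQ
  set e : ℕ → ℝ := fun i => ∑ k ∈ Q, (rghD h i k) ^ 2 with he
  have he0 : ∀ i, 0 ≤ e i := fun i => sum_nonneg fun k _ => sq_nonneg _
  -- the average over the cell
  have hblk : ∀ k ∈ Ico p q, h k - μ = ∑ i ∈ range l, rghD h i k := by
    intro k hk
    rw [mem_Ico] at hk
    have h1 : k / 2 ^ l = c := Nat.div_eq_of_lt_le (by omega) (by omega)
    have h2 : c * 2 ^ l / 2 ^ l = c := Nat.mul_div_cancel _ hT0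
    have h3 : avg (2 ^ l) h k = μ := by
      rw [hμ]
      unfold avg
      rw [h1, h2]
    unfold rghD
    rw [sum_range_sub' (fun i => avg (2 ^ i) h k), h3, pow_zero, avg_one]
  have hsum : x * (av h p q - μ) = ∑ i ∈ range l, ∑ k ∈ Ico p q, rghD h i k := by
    rw [sum_comm, ← sum_congr rfl hblk]
    have h2 : ∑ k ∈ Ico p q, h k = x * av h p q := by
      unfold av
      rw [← hx]
      field_simp
    rw [sum_sub_distrib, h2, sum_const, Nat.card_Ico, nsmul_eq_mul, hxn]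
    ring
  have hterm : ∀ i ∈ range l, (∑ k ∈ Ico p q, rghD h i k) ^ 2 ≤
      ((2 : ℝ) ^ i * (4 / 3) ^ (l - i)) * (8 * ((3 / 4 : ℝ) ^ (l - i) * e i)) := by
    intro i hi
    rw [mem_range] at hi
    have h1 := rgh_F h i p c l hi hp (by omega)
    have h2 := rgh_F h i q c l hi (by omega) hq
    rw [sum_Ico_eq_sub _ hpq]
    have e1 : ((2 : ℝ) ^ i * (4 / 3) ^ (l - i)) * (8 * ((3 / 4 : ℝ) ^ (l - i) * e i)) =
        4 * (2 ^ (i + 1) * e i) := by
      have e2 : (4 / 3 : ℝ) ^ (l - i) * (3 / 4) ^ (l - i) = 1 := by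
        rw [← mul_pow]
        norm_num
      calc ((2 : ℝ) ^ i * (4 / 3) ^ (l - i)) * (8 * ((3 / 4 : ℝ) ^ (l - i) * e i))
          = 8 * 2 ^ i * ((4 / 3 : ℝ) ^ (l - i) * (3 / 4) ^ (l - i)) * e i := by ring
        _ = 4 * (2 ^ (i + 1) * e i) := by rw [e2]; ring
    rw [e1]
    have h3 : ∀ a b E : ℝ, a ^ 2 ≤ E → b ^ 2 ≤ E → (b - a) ^ 2 ≤ 4 * E := by
      intro a b E ha hb
      nlinarith [sq_nonneg (a + b)]
    exact h3 _ _ _ h1 h2
  have hCS := sum_sq_le_sum_mul_sum_of_sq_le_mul (range l)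
    (r := fun i => ∑ k ∈ Ico p q, rghD h i k)
    (f := fun i => (2 : ℝ) ^ i * (4 / 3) ^ (l - i))
    (g := fun i => 8 * ((3 / 4 : ℝ) ^ (l - i) * e i))
    (fun i _ => by positivity)
    (fun i _ => mul_nonneg (by norm_num) (mul_nonneg (by positivity) (he0 i))) hterm
  have hgeom : ∑ i ∈ range l, (2 : ℝ) ^ i * (4 / 3) ^ (l - i) ≤ 2 * 2 ^ l := by
    rw [rgh_geom]
    have : (0 : ℝ) ≤ (4 / 3) ^ l := by positivity
    linarith
  obtain ⟨W, hW⟩ : ∃ W, W = ∑ i ∈ range l, (3 / 4 : ℝ) ^ (l - i) * e i := ⟨_, rfl⟩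
  have hW0 : 0 ≤ W := by
    rw [hW]
    exact sum_nonneg fun i _ => mul_nonneg (by positivity) (he0 i)
  have hWeq : ∑ k ∈ Q, ∑ i ∈ range l, (3 / 4 : ℝ) ^ (l - i) * (rghD h i k) ^ 2 = W := by
    rw [sum_comm, hW]
    apply sum_congr rfl
    intro i _
    rw [he]
    simp only
    rw [mul_sum]
  have h1 : (x * (av h p q - μ)) ^ 2 ≤ 16 * 2 ^ l * W := by
    rw [hsum]
    refine hCS.trans ?_
    rw [← mul_sum, ← hW]
    calc (∑ i ∈ range l, (2 : ℝ) ^ i * (4 / 3) ^ (l - i)) * (8 * W)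
        ≤ (2 * 2 ^ l) * (8 * W) := by gcongr
      _ = 16 * 2 ^ l * W := by ring
  have h2 : (2 ^ j * (ε / 2)) ^ 2 ≤ (x * (av h p q - μ)) ^ 2 := by
    rw [← sq_abs (x * (av h p q - μ)), abs_mul, abs_of_pos hx0]
    apply pow_le_pow_left₀ (by positivity)
    exact mul_le_mul hxj hav (by positivity) hx0.le
  have h3 : (2 : ℝ) ^ l = 16 * 2 ^ j := by
    rw [hl, pow_add]
    ring
  have h2jR : (0 : ℝ) < 2 ^ j := by positivity
  unfold rghBad
  rw [hWeq]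
  have h4 := h2.trans h1
  rw [h3] at h4 ⊢
  have h5 : (2 : ℝ) ^ j * (ε ^ 2 / 16384 * (16 * 2 ^ j)) ≤ 2 ^ j * W := by nlinarith
  exact le_of_mul_le_mul_left h5 h2jR

/-- A rough scale gives a bad cell. -/
lemma rgh_rough (h : ℕ → ℝ) (ε : ℝ) (hε : 0 < ε) (j n : ℕ) (hz : 2 ^ (j + 1) ≤ n % 2 ^ (j + 4))
    (hz' : n % 2 ^ (j + 4) + 2 ^ (j + 1) < 2 ^ (j + 4)) (hR : Rough h ε j n) :
    rghBad h (ε ^ 2 / 16384) (j + 4) (n / 2 ^ (j + 4)) := by
  obtain ⟨p, q, p', q', a1, a2, a3, a4, a5, a6, a7, a8, a9⟩ := hR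
  have e1 : n = n / 2 ^ (j + 4) * 2 ^ (j + 4) + n % 2 ^ (j + 4) := (Nat.div_add_mod' n _).symm
  obtain ⟨c, hc⟩ : ∃ c, c = n / 2 ^ (j + 4) := ⟨_, rfl⟩
  rw [← hc] at e1 ⊢
  have e2 : (c + 1) * 2 ^ (j + 4) = c * 2 ^ (j + 4) + 2 ^ (j + 4) := by ring
  have key : ε / 2 ≤ |av h p q - avg (2 ^ (j + 4)) h (c * 2 ^ (j + 4))| ∨
      ε / 2 ≤ |av h p' q' - avg (2 ^ (j + 4)) h (c * 2 ^ (j + 4))| := by
    by_contra hcon
    rw [not_or, not_le, not_le] at hcon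
    have h1 := abs_sub_le (av h p q) (avg (2 ^ (j + 4)) h (c * 2 ^ (j + 4))) (av h p' q')
    rw [abs_sub_comm (avg (2 ^ (j + 4)) h (c * 2 ^ (j + 4)))] at h1
    linarith [hcon.1, hcon.2]
  rcases key with hk | hk
  · exact rgh_bad_of h ε hε j c p q (by omega) (by omega) a5 hk
  · exact rgh_bad_of h ε hε j c p' q' (by omega) (by omega) a7 hk

/-- The shifted function. -/
noncomputable def rghSh (g : ℕ → ℝ) (A n : ℕ) : ℝ := if A ≤ n then g (n - A) else 0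

lemma rghSh_range (g : ℕ → ℝ) (hg : ∀ k, 0 ≤ g k ∧ g k ≤ 12) (A k : ℕ) :
    0 ≤ rghSh g A k ∧ rghSh g A k ≤ 12 := by
  unfold rghSh
  split_ifs
  · exact hg _
  · norm_num

lemma rghSh_av (g : ℕ → ℝ) (A p q : ℕ) : av (rghSh g A) (p + A) (q + A) = av g p q := by
  unfold av
  have h1 : ∑ k ∈ Ico (p + A) (q + A), rghSh g A k = ∑ k ∈ Ico p q, g k := by
    rw [← sum_Ico_add']
    apply sum_congr rfl
    intro k _
    unfold rghSh
    rw [if_pos (Nat.le_add_left _ _), Nat.add_sub_cancel]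
  rw [h1]
  congr 1
  push_cast
  ring

lemma rghSh_rough (g : ℕ → ℝ) (ε : ℝ) (A j k : ℕ) (h : Rough g ε j k) :
    Rough (rghSh g A) ε j (k + A) := by
  obtain ⟨p, q, p', q', a1, a2, a3, a4, a5, a6, a7, a8, a9⟩ := h
  refine ⟨p + A, q + A, p' + A, q' + A, by omega, by omega, by omega, by omega, by omega,
    by omega, by omega, by omega, ?_⟩
  rw [rghSh_av, rghSh_av]
  exact a9

/-- The number of rough scales. -/
lemma rgh_count (g : ℕ → ℝ) (ε : ℝ) (hε : 0 < ε) (N K A k : ℕ) (hA : 3 * A + 1 = 2 ^ K) (hN : 16 * N < 2 ^ K) :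
    ((range N).filter (fun j => 2 ^ j ≤ N ∧ Rough g ε j k)).card ≤
      tailN (rghBad g (ε ^ 2 / 16384)) K k +
        tailN (rghBad (rghSh g A) (ε ^ 2 / 16384)) K (k + A) := by
  unfold tailN
  refine le_trans ?_ (card_union_le _ _)
  apply card_le_card_of_injOn (fun j => j + 4)
  · intro j hj
    rw [mem_coe, mem_filter, mem_range] at hj
    obtain ⟨-, hj2, hj3⟩ := hj
    have hjK : j + 4 < K := by
      have h1 : 2 ^ (j + 4) < 2 ^ K := by
        calc 2 ^ (j + 4) = 16 * 2 ^ j := by rw [pow_add]; ring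
          _ ≤ 16 * N := Nat.mul_le_mul_left _ hj2
          _ < 2 ^ K := hN
      exact (Nat.pow_lt_pow_iff_right (by norm_num)).1 h1
    have h2j : 0 < 2 ^ j := by positivity
    have e1 : 2 ^ (j + 4) = 16 * 2 ^ j := by rw [pow_add]; ring
    have e2 : 2 ^ (j + 1) = 2 * 2 ^ j := by rw [pow_add]; ring
    rw [mem_coe, mem_union, mem_filter, mem_filter, mem_range]
    rcases two_grids 1 (j + 4) K A k (2 ^ (j + 1)) (2 ^ (j + 4)) Nat.one_pos hA hjK.le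
      (by rw [one_mul]) (by rw [e1, e2]; omega) with ⟨h1, h2⟩ | ⟨h1, h2⟩
    · left
      exact ⟨hjK, rgh_rough g ε hε j k h1 h2 hj3⟩
    · right
      rw [one_mul] at h1 h2
      exact ⟨hjK, rgh_rough _ ε hε j (k + A) h1 h2
        (rghSh_rough g ε A j k hj3)⟩
  · intro a _ b _ hab
    simp only at hab
    omega

/-- Markov for one grid. -/
lemma rgh_grid (h : ℕ → ℝ) (hh : ∀ k, 0 ≤ h k ∧ h k ≤ 12) (ε : ℝ) (hε : 0 < ε) (hε1 : ε ≤ 1)
    (K m : ℕ) :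
    (((range (2 ^ K)).filter (fun k => m ≤ tailN (rghBad h (ε ^ 2 / 16384)) K k)).card : ℝ) ≤
      2 * 2 ^ K * Real.exp (-(ε ^ 2 * m / 30000000)) := by
  set A : ℝ := 7500000 / ε ^ 2 with hA
  have hε2 : 0 < ε ^ 2 := by positivity
  have hA0 : 0 < A := by positivity
  have hcar : ∀ i C : ℕ, ∑ j ∈ range i, (2 : ℝ) ^ j *
      (((Ico (C * 2 ^ (i - j)) ((C + 1) * 2 ^ (i - j))).filter
        (rghBad h (ε ^ 2 / 16384) j)).card : ℝ) ≤ A * 2 ^ i := by
    intro i C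
    refine (rgh_carleson h hh (ε ^ 2 / 16384) (by positivity) i C).trans ?_
    apply mul_le_mul_of_nonneg_right _ (by positivity)
    rw [hA, div_le_div_iff₀ (by positivity) hε2]
    linarith
  have h1 := tail_count (rghBad h (ε ^ 2 / 16384)) A hA0 hcar K m
  have hA1 : 1 ≤ A := by
    rw [hA, le_div_iff₀ hε2]
    have : ε ^ 2 ≤ 1 := pow_le_one₀ hε.le hε1
    linarith
  have h2 := rgh_exp (1 / (2 * A)) (by positivity) (by
    rw [div_le_one (by positivity)]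
    linarith)
  have h3 : Real.exp (ε ^ 2 * m / 30000000) ≤ (1 + 1 / (2 * A)) ^ m := by
    calc Real.exp (ε ^ 2 * m / 30000000) = Real.exp (1 / (2 * A) / 2) ^ m := by
          rw [← Real.exp_nat_mul]
          congr 1
          rw [hA]
          field_simp
          ring
      _ ≤ (1 + 1 / (2 * A)) ^ m := pow_le_pow_left₀ (Real.exp_pos _).le h2 _
  rw [Real.exp_neg, ← div_eq_mul_inv, le_div_iff₀ (Real.exp_pos _)]
  refine le_trans ?_ h1
  exact mul_le_mul_of_nonneg_left h3 (Nat.cast_nonneg _)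

/-- **Few rough scales.** PROOF. For a scale `j` (with `Rough g ε j k`) put `l = j + 4`,
`T = 2 ^ l`. The intervals of `Rough` lie in `(k - 2 ^ (j+1), k + 2 ^ (j+1))`; in one of two grids
(`two_grids` with `b = 1`, `3 A + 1 = 2 ^ K`, `4 N ≤ 2 ^ K ≤ 16 N`; the second grid is the function
`fun n => if A ≤ n then g (n - A) else 0` at `n = k + A`) this neighbourhood lies in the block `Q` of
length `T` containing `k`. Let `μ` be the average over `Q`; one of the two intervals `I` has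
`|av I - μ| ≥ ε / 2`. Let `D i = avg (2 ^ i) g - avg (2 ^ (i + 1)) g`, so `g - μ = ∑ i < l, D i` on
`Q`, and `E i = ∑_Q (D i) ^ 2`. `D i` has sum zero on every block of length `2 ^ (i + 1)`, so
`∑_I D i` is the sum over `I ∩` (at most two blocks of length `2 ^ (i + 1)`), which is at most
`√(2 * 2 ^ (i + 1)) * √(E i) = 2 √(2 ^ i) √(E i)`. Cauchy-Schwarz with the weights
`(3 / 4) ^ (l - i)`: `(∑ i < l, √(2 ^ i) √(E i)) ^ 2 ≤ (∑ i < l, 2 ^ i (4 / 3) ^ (l - i)) *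
∑ i < l, (3 / 4) ^ (l - i) E i ≤ 2 * 2 ^ l * ∑ i < l, (3 / 4) ^ (l - i) E i`. As `|I| ≥ 2 ^ l / 16`,
the block is bad: `∑ i < l, (3 / 4) ^ (l - i) E i ≥ ε ^ 2 * 2 ^ l / 8192`. Carleson packing of the
bad blocks of all levels inside a dyadic block `Q₀` of level `l₀`: `∑ 2 ^ l ≤ 8192 / ε ^ 2 *
∑ l ≤ l₀, ∑ i < l, (3 / 4) ^ (l - i) E i (Q₀) ≤ 3 * 8192 / ε ^ 2 * ∑ i < l₀, E i (Q₀)` and the
energies telescope, `∑ i < l₀, E i (Q₀) ≤ ∑_{Q₀} g ^ 2 ≤ 144 * 2 ^ l₀`: the constant of the packing is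
`A = 3 * 8192 * 144 / ε ^ 2` (no loss in `ε`). Then `exp_moment` (file `TailA`) at the top cell
`(K, 0)` for both grids, and Markov. -/
theorem rough_tail : ∃ C : ℝ, 1 ≤ C ∧ ∀ g : ℕ → ℝ, (∀ k, 0 ≤ g k ∧ g k ≤ 12) → ∀ N : ℕ, 1 ≤ N →
    ∀ ε : ℝ, 0 < ε → ε ≤ 1 → ∀ m : ℕ,
    (((range N).filter (fun k => m ≤ ((range N).filter (fun j => 2 ^ j ≤ N ∧
      Rough g ε j k)).card)).card : ℝ) ≤ C * Real.exp (-(ε ^ 2 * m / C)) * N := by
  refine ⟨60000000, by norm_num, ?_⟩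
  intro g hg N hN ε hε hε1 m
  have hN1 : (1 : ℝ) ≤ N := by exact_mod_cast hN
  -- the top level
  obtain ⟨k0, hk1, hk2⟩ := exists_nat_pow_near (show (1 : ℝ) ≤ 16 * N by linarith)
    (show (1 : ℝ) < 4 by norm_num)
  obtain ⟨K, hK⟩ : ∃ K, K = 2 * (k0 + 1) := ⟨_, rfl⟩
  obtain ⟨A, hA⟩ : ∃ A, A = 4 ^ (k0 + 1) / 3 := ⟨_, rfl⟩
  have h2K : 2 ^ K = 4 ^ (k0 + 1) := by rw [hK, pow_mul]; norm_num
  have hAK : 3 * A + 1 = 2 ^ K := by
    have h1 : 4 ^ (k0 + 1) % 3 = 1 := by rw [Nat.pow_mod]; norm_num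
    rw [h2K, hA]
    omega
  have hNK : 16 * N < 2 ^ K := by
    rw [h2K]
    exact_mod_cast hk2
  have hNK2 : (2 : ℝ) ^ K ≤ 64 * N := by
    have h1 : (2 : ℝ) ^ K = 4 ^ (k0 + 1) := by exact_mod_cast h2K
    rw [h1, pow_succ]
    linarith
  obtain ⟨m', hm'⟩ : ∃ m', m' = (m + 1) / 2 := ⟨_, rfl⟩
  set S := (range N).filter (fun k => m ≤ ((range N).filter (fun j => 2 ^ j ≤ N ∧
      Rough g ε j k)).card) with hS
  set S1 := (range (2 ^ K)).filter (fun k => m' ≤ tailN (rghBad g (ε ^ 2 / 16384)) K k) with hS1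
  set S2 := (range (2 ^ K)).filter
    (fun k => m' ≤ tailN (rghBad (rghSh g A) (ε ^ 2 / 16384)) K k) with hS2
  have hcov : S ⊆ S1 ∪ S2.image (fun n => n - A) := by
    intro k hk
    rw [hS, mem_filter, mem_range] at hk
    have h1 := rgh_count g ε hε N K A k hAK hNK
    rw [mem_union, mem_image]
    by_cases hcase : m' ≤ tailN (rghBad g (ε ^ 2 / 16384)) K k
    · left
      rw [hS1, mem_filter, mem_range]
      exact ⟨by omega, hcase⟩
    · right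
      refine ⟨k + A, ?_, by omega⟩
      rw [hS2, mem_filter, mem_range]
      exact ⟨by omega, by omega⟩
  have hcard : (S.card : ℝ) ≤ S1.card + S2.card := by
    have h1 := (card_le_card hcov).trans (card_union_le _ _)
    have h2 : (S2.image (fun n => n - A)).card ≤ S2.card := card_image_le
    exact_mod_cast h1.trans (Nat.add_le_add_left h2 _)
  have g1 := rgh_grid g hg ε hε hε1 K m'
  have g2 := rgh_grid (rghSh g A) (rghSh_range g hg A) ε hε hε1 K m'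
  rw [← hS1] at g1
  rw [← hS2] at g2
  have hexp : Real.exp (-(ε ^ 2 * m' / 30000000)) ≤ Real.exp (-(ε ^ 2 * m / 60000000)) := by
    apply Real.exp_le_exp.2
    apply neg_le_neg
    have h1 : (m : ℝ) ≤ 2 * m' := by
      have h2 : m ≤ 2 * m' := by omega
      exact_mod_cast h2
    have h3 : 0 < ε ^ 2 := by positivity
    have h4 : ε ^ 2 * (m : ℝ) ≤ ε ^ 2 * (2 * m') := mul_le_mul_of_nonneg_left h1 h3.le
    rw [div_le_div_iff₀ (by norm_num) (by norm_num)]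
    linarith
  have hE : 0 < Real.exp (-(ε ^ 2 * m / 60000000)) := Real.exp_pos _
  calc (S.card : ℝ) ≤ 2 * (2 * 2 ^ K * Real.exp (-(ε ^ 2 * m' / 30000000))) := by linarith
    _ ≤ 2 * (2 * (64 * N) * Real.exp (-(ε ^ 2 * m / 60000000))) := by
        apply mul_le_mul_of_nonneg_left _ (by norm_num)
        apply mul_le_mul _ hexp (Real.exp_pos _).le (by positivity)
        linarith
    _ ≤ 60000000 * Real.exp (-(ε ^ 2 * m / 60000000)) * N := by
        have : 0 ≤ Real.exp (-(ε ^ 2 * m / 60000000)) * N := by positivity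
        linarith

end Pool.Agent.H.MP_711652_nt.QW
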