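import Mathlib
import Pool.Agent.H.MP_711652_nt.QW.JumpDefs

set_option autoImplicit false

/-!
# Greedy stops of the dyadic averages: exponential moment, and counting of jumps
-/

namespace Pool.Agent.H.MP_711652_nt.QW

open Finset Classical

lemma stops_avg (g : ℕ → ℝ) (i d k : ℕ) (h1 : d * 2 ^ i ≤ k) (h2 : k < (d + 1) * 2 ^ i) :
    avg (2 ^ i) g k = (∑ n ∈ Ico (d * 2 ^ i) ((d + 1) * 2 ^ i), g n) / 2 ^ i := by
  obtain ⟨r, rfl⟩ := Nat.exists_eq_add_of_le h1
  have h3 : (d + 1) * 2 ^ i = d * 2 ^ i + 2 ^ i := by ring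
  have hr : r < 2 ^ i := by omega
  have h4 : (d + 1) * 2 ^ i - d * 2 ^ i = 2 ^ i := by omega
  rw [avg_block hr, sum_Ico_eq_sum_range, h4]
  push_cast
  rfl

/-- The potential `W a v = 432 - 2 a v + v ^ 2` (linear in `a`). -/
lemma stops_pot (g : ℕ → ℝ) (hg : ∀ k, 0 ≤ g k ∧ g k ≤ 12) (ε : ℝ) (hε : 0 < ε) (i : ℕ) :
    ∀ (c : ℕ) (v : ℝ), 0 ≤ v → v ≤ 12 →
    288 * ∑ k ∈ Ico (c * 2 ^ i) ((c + 1) * 2 ^ i), (1 + ε ^ 2 / 576) ^ stops g ε i v k ≤
      432 * 2 ^ i - 2 * v * ∑ n ∈ Ico (c * 2 ^ i) ((c + 1) * 2 ^ i), g n + v ^ 2 * 2 ^ i := by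
  induction i with
  | zero =>
    intro c v hv hv12
    simp only [pow_zero, mul_one, stops]
    have h1 : Ico c (c + 1) = {c} := by
      ext k
      simp
    rw [h1, sum_singleton, sum_singleton]
    obtain ⟨h2, h3⟩ := hg c
    nlinarith [mul_nonneg hv h2, sq_nonneg (v - g c), mul_nonneg h2 (sub_nonneg.mpr h3)]
  | succ i ih =>
    intro c v hv hv12
    -- the claim for one child
    have hchild : ∀ d : ℕ,
        288 * ∑ k ∈ Ico (d * 2 ^ i) ((d + 1) * 2 ^ i),
          (1 + ε ^ 2 / 576) ^ stops g ε (i + 1) v k ≤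
        432 * 2 ^ i - 2 * v * ∑ n ∈ Ico (d * 2 ^ i) ((d + 1) * 2 ^ i), g n + v ^ 2 * 2 ^ i := by
      intro d
      set S : ℝ := ∑ n ∈ Ico (d * 2 ^ i) ((d + 1) * 2 ^ i), g n with hS
      have hpos : (0 : ℝ) < 2 ^ i := by positivity
      have hcard : ((Ico (d * 2 ^ i) ((d + 1) * 2 ^ i)).card : ℝ) = 2 ^ i := by
        rw [Nat.card_Ico]
        have h3 : (d + 1) * 2 ^ i = d * 2 ^ i + 2 ^ i := by ring
        have h4 : (d + 1) * 2 ^ i - d * 2 ^ i = 2 ^ i := by
          rw [h3]
          exact Nat.add_sub_cancel_left _ _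
        rw [h4]
        push_cast
        rfl
      have hS0 : 0 ≤ S := sum_nonneg fun n _ => (hg n).1
      have hS12 : S ≤ 12 * 2 ^ i := by
        calc S ≤ ∑ n ∈ Ico (d * 2 ^ i) ((d + 1) * 2 ^ i), (12 : ℝ) :=
              sum_le_sum fun n _ => (hg n).2
          _ = 12 * 2 ^ i := by
              rw [sum_const, nsmul_eq_mul, hcard]
              ring
      set a : ℝ := S / 2 ^ i with ha
      have haS : S = a * 2 ^ i := by
        rw [ha]
        field_simp
      have ha0 : 0 ≤ a := div_nonneg hS0 hpos.le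
      have ha12 : a ≤ 12 := by
        rw [ha, div_le_iff₀ hpos]
        exact hS12
      have havg : ∀ k ∈ Ico (d * 2 ^ i) ((d + 1) * 2 ^ i), avg (2 ^ i) g k = a := by
        intro k hk
        rw [mem_Ico] at hk
        rw [stops_avg g i d k hk.1 hk.2]
      by_cases hstop : ε ≤ |a - v|
      · have h1 : ∑ k ∈ Ico (d * 2 ^ i) ((d + 1) * 2 ^ i),
            (1 + ε ^ 2 / 576) ^ stops g ε (i + 1) v k =
            (1 + ε ^ 2 / 576) * ∑ k ∈ Ico (d * 2 ^ i) ((d + 1) * 2 ^ i),
            (1 + ε ^ 2 / 576) ^ stops g ε i a k := by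
          rw [mul_sum]
          apply sum_congr rfl
          intro k hk
          have h2 : stops g ε (i + 1) v k = 1 + stops g ε i a k := by
            rw [stops, havg k hk, if_pos hstop]
          rw [h2, pow_add, pow_one]
        have h3 := ih d a ha0 ha12
        rw [← hS] at h3
        rw [h1]
        have h4 : ε ^ 2 ≤ (a - v) ^ 2 := by
          rw [← sq_abs (a - v)]
          exact pow_le_pow_left₀ hε.le hstop 2
        have h5 : (0 : ℝ) < 1 + ε ^ 2 / 576 := by positivity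
        have h6 : 288 * ((1 + ε ^ 2 / 576) * ∑ k ∈ Ico (d * 2 ^ i) ((d + 1) * 2 ^ i),
            (1 + ε ^ 2 / 576) ^ stops g ε i a k) ≤
            (1 + ε ^ 2 / 576) * (432 * 2 ^ i - 2 * a * S + a ^ 2 * 2 ^ i) := by
          have := mul_le_mul_of_nonneg_left h3 h5.le
          linarith
        refine h6.trans ?_
        have h7 : 432 * 2 ^ i - 2 * a * S + a ^ 2 * 2 ^ i = (432 - a ^ 2) * 2 ^ i := by
          rw [haS]
          ring
        have h8 : 432 * 2 ^ i - 2 * v * S + v ^ 2 * 2 ^ i =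
            ((432 - a ^ 2) + (a - v) ^ 2) * 2 ^ i := by
          rw [haS]
          ring
        rw [h7, h8, ← mul_assoc]
        apply mul_le_mul_of_nonneg_right _ hpos.le
        nlinarith [sq_nonneg a, sq_nonneg ε, mul_nonneg (sq_nonneg ε) (sq_nonneg a)]
      · have h1 : ∑ k ∈ Ico (d * 2 ^ i) ((d + 1) * 2 ^ i),
            (1 + ε ^ 2 / 576) ^ stops g ε (i + 1) v k =
            ∑ k ∈ Ico (d * 2 ^ i) ((d + 1) * 2 ^ i),
            (1 + ε ^ 2 / 576) ^ stops g ε i v k := by
          apply sum_congr rfl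
          intro k hk
          have h2 : stops g ε (i + 1) v k = stops g ε i v k := by
            rw [stops, havg k hk, if_neg hstop]
          rw [h2]
        rw [h1]
        exact ih d v hv hv12
    have e1 : c * 2 ^ (i + 1) = (2 * c) * 2 ^ i := by ring
    have e2 : (c + 1) * 2 ^ (i + 1) = (2 * c + 1 + 1) * 2 ^ i := by ring
    have hle1 : (2 * c) * 2 ^ i ≤ (2 * c + 1) * 2 ^ i := Nat.mul_le_mul_right _ (by omega)
    have hle2 : (2 * c + 1) * 2 ^ i ≤ (2 * c + 1 + 1) * 2 ^ i := Nat.mul_le_mul_right _ (by omega)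
    rw [e1, e2, ← sum_Ico_consecutive _ hle1 hle2, ← sum_Ico_consecutive _ hle1 hle2]
    have h1 := hchild (2 * c)
    have h2 := hchild (2 * c + 1)
    have e3 : (2 : ℝ) ^ (i + 1) = 2 ^ i + 2 ^ i := by ring
    rw [e3]
    linarith

/-- PROOF. Potential `W a v = 432 - 2 a v + v ^ 2` (linear in `a`, `288 ≤ W ≤ 576`,
`W a v = W a a + (a - v) ^ 2`). -/
theorem stops_moment (g : ℕ → ℝ) (hg : ∀ k, 0 ≤ g k ∧ g k ≤ 12) (ε : ℝ) (hε : 0 < ε)
    (_hε1 : ε ≤ 1) (i c : ℕ) (v : ℝ) (hv : 0 ≤ v) (hv12 : v ≤ 12) :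
    ∑ k ∈ Ico (c * 2 ^ i) ((c + 1) * 2 ^ i), (1 + ε ^ 2 / 576) ^ stops g ε i v k ≤
      3 * 2 ^ i := by
  have h1 := stops_pot g hg ε hε i c v hv hv12
  have h2 : 0 ≤ ∑ n ∈ Ico (c * 2 ^ i) ((c + 1) * 2 ^ i), g n := sum_nonneg fun n _ => (hg n).1
  have hpos : (0 : ℝ) < 2 ^ i := by positivity
  have h3 : v ^ 2 * 2 ^ i ≤ 144 * 2 ^ i := by
    apply mul_le_mul_of_nonneg_right _ hpos.le
    nlinarith
  have h4 : 0 ≤ 2 * v * ∑ n ∈ Ico (c * 2 ^ i) ((c + 1) * 2 ^ i), g n := by positivity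
  linarith

lemma stops_aux (g : ℕ → ℝ) (ε : ℝ) (hε : 0 < ε) (k : ℕ) (j j' : ℕ → ℕ) (i : ℕ) :
    (∀ (m : ℕ) (v : ℝ), (∀ t, t < m → j t ≤ j' t ∧ j' t < i ∧
        2 * ε ≤ |avg (2 ^ j t) g k - avg (2 ^ j' t) g k|) →
      (∀ t, t + 1 < m → j' t < j (t + 1)) → m ≤ stops g ε i v k) ∧
    (∀ (m : ℕ) (v : ℝ) (J : ℕ), (∀ t, t < m → j t ≤ j' t ∧ j' t < J ∧
        2 * ε ≤ |avg (2 ^ j t) g k - avg (2 ^ j' t) g k|) →
      (∀ t, t + 1 < m → j' t < j (t + 1)) → J < i → ε ≤ |avg (2 ^ J) g k - v| →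
      m + 1 ≤ stops g ε i v k) := by
  induction i with
  | zero =>
    refine ⟨fun m v h _ => ?_, fun m v J _ _ hJ _ => absurd hJ (Nat.not_lt_zero J)⟩
    rcases Nat.eq_zero_or_pos m with rfl | hm
    · exact Nat.zero_le _
    · exact absurd (h 0 hm).2.1 (Nat.not_lt_zero _)
  | succ i ih =>
    obtain ⟨ihQ, ihP⟩ := ih
    refine ⟨fun m v h1 h2 => ?_, fun m v J h1 h2 hJ hv => ?_⟩
    · rcases Nat.eq_zero_or_pos m with rfl | hm
      · exact Nat.zero_le _
      obtain ⟨m, rfl⟩ : ∃ m', m = m' + 1 := ⟨m - 1, by omega⟩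
      obtain ⟨hjj, hji, hjump⟩ := h1 m (Nat.lt_succ_self m)
      -- the lower jumps
      have hmono : ∀ t, t < m → j' t < j m := by
        intro t ht
        have : ∀ s, t + s + 1 ≤ m → j' t < j (t + s + 1) := by
          intro s
          induction s with
          | zero =>
            intro hs
            exact h2 t (by omega)
          | succ s ihs =>
            intro hs
            have e1 := ihs (by omega)
            have e2 := h2 (t + s + 1) (by omega)
            have e3 := (h1 (t + s + 1) (by omega)).1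
            have e4 : t + (s + 1) + 1 = t + s + 1 + 1 := by ring
            rw [e4]
            omega
        have e := this (m - t - 1) (by omega)
        have e5 : t + (m - t - 1) + 1 = m := by omega
        rw [e5] at e
        exact e
      have hlow : ∀ t, t < m → j t ≤ j' t ∧ j' t < j m ∧
          2 * ε ≤ |avg (2 ^ j t) g k - avg (2 ^ j' t) g k| := fun t ht =>
        ⟨(h1 t (by omega)).1, hmono t ht, (h1 t (by omega)).2.2⟩
      have hlow2 : ∀ t, t + 1 < m → j' t < j (t + 1) := fun t ht => h2 t (by omega)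
      rcases Nat.lt_or_ge (j' m) i with hlt | hge
      · -- all the jumps are below level `i`
        have hall : ∀ t, t < m + 1 → j t ≤ j' t ∧ j' t < i ∧
            2 * ε ≤ |avg (2 ^ j t) g k - avg (2 ^ j' t) g k| := by
          intro t ht
          refine ⟨(h1 t ht).1, ?_, (h1 t ht).2.2⟩
          rcases Nat.lt_or_ge t m with h | h
          · have := hmono t h
            omega
          · have : t = m := by omega
            rw [this]
            exact hlt
        rw [stops]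
        split_ifs with hs
        · have := ihQ (m + 1) (avg (2 ^ i) g k) hall h2
          omega
        · exact ihQ (m + 1) v hall h2
      · have hi : j' m = i := by omega
        rw [hi] at hjump hjj
        have hne : j m ≠ i := by
          intro h
          rw [h, sub_self, abs_zero] at hjump
          linarith
        have hlt : j m < i := by omega
        rw [stops]
        split_ifs with hs
        · have := ihP m (avg (2 ^ i) g k) (j m) hlow hlow2 hlt (by linarith)
          omega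
        · apply ihP m v (j m) hlow hlow2 hlt
          push Not at hs
          have h3 : |avg (2 ^ j m) g k - avg (2 ^ i) g k| ≤
              |avg (2 ^ j m) g k - v| + |avg (2 ^ i) g k - v| := by
            have := abs_sub_le (avg (2 ^ j m) g k) v (avg (2 ^ i) g k)
            rw [abs_sub_comm v] at this
            exact this
          linarith
    · have hlow' : ∀ t, t < m → j t ≤ j' t ∧ j' t < i ∧
          2 * ε ≤ |avg (2 ^ j t) g k - avg (2 ^ j' t) g k| := fun t ht =>
        ⟨(h1 t ht).1, by have := (h1 t ht).2.1; omega, (h1 t ht).2.2⟩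
      rw [stops]
      split_ifs with hs
      · have := ihQ m (avg (2 ^ i) g k) hlow' h2
        omega
      · have hne : J ≠ i := by
          intro h
          rw [h] at hv
          exact hs hv
        exact ihP m v J h1 h2 (by omega) hv

/-- Disjoint jumps `j t ≤ j' t < j (t + 1)` of the dyadic averages are counted by `stops`. -/
theorem stops_ge (g : ℕ → ℝ) (ε : ℝ) (hε : 0 < ε) (i m k : ℕ) (v : ℝ) (j j' : ℕ → ℕ)
    (h1 : ∀ t, t < m → j t ≤ j' t ∧ j' t < i ∧
      2 * ε ≤ |avg (2 ^ j t) g k - avg (2 ^ j' t) g k|)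
    (h2 : ∀ t, t + 1 < m → j' t < j (t + 1)) : m ≤ stops g ε i v k :=
  (stops_aux g ε hε k j j' i).1 m v h1 h2

end Pool.Agent.H.MP_711652_nt.QW
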