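import Mathlib
import Pool.Agent.H.MP_711652_nt.QW.RoughS
import Pool.Agent.H.MP_711652_nt.QW.StopsS

set_option autoImplicit false

namespace Pool.Agent.H.MP_711652_nt.QW

open Finset Classical

/-- The average over a dyadic block as an average over an interval. -/
lemma chain_avg (g : ℕ → ℝ) (s k : ℕ) :
    avg s g k = av g (k / s * s) (k / s * s + s) := by
  unfold avg av
  rw [sum_Ico_eq_sum_range, Nat.add_sub_cancel_left]
  push_cast
  rw [add_sub_cancel_left]

/-- If the scale `j` is not rough then the average of an interval around `k` of this scale is near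
the dyadic average. -/
lemma chain_near (g : ℕ → ℝ) (ε : ℝ) (j k p q : ℕ) (hp : p ≤ k) (hq : k < q)
    (h1 : 2 ^ j ≤ q - p) (h2 : q - p < 2 ^ (j + 1)) (hr : ¬ Rough g ε j k) :
    |av g p q - avg (2 ^ j) g k| < ε := by
  by_contra hcon
  rw [not_lt] at hcon
  apply hr
  have hpos : 0 < 2 ^ j := by positivity
  have e1 : k / 2 ^ j * 2 ^ j ≤ k := Nat.div_mul_le_self k (2 ^ j)
  have e2 : k < k / 2 ^ j * 2 ^ j + 2 ^ j := Nat.lt_div_mul_add hpos
  have e3 : 2 ^ (j + 1) = 2 * 2 ^ j := by ring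
  refine ⟨p, q, k / 2 ^ j * 2 ^ j, k / 2 ^ j * 2 ^ j + 2 ^ j, hp, hq, e1, e2, h1, h2, ?_, ?_, ?_⟩
  · omega
  · omega
  · rw [← chain_avg]
    exact hcon

/-- The counting lemma: the number of jumps is at most the number of rough scales plus the number
of stops. -/
lemma chain_count (g : ℕ → ℝ) (N : ℕ) (ε : ℝ) (hε : 0 < ε) (m k : ℕ)
    (h : Chain g N ε m k) :
    m ≤ ((range N).filter (fun j => 2 ^ j ≤ N ∧ Rough g (ε / 4) j k)).card +
      stops g (ε / 4) (Nat.log 2 N + 1) 0 k := by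
  obtain ⟨p, q, p', q', h1, h2⟩ := h
  set a : ℕ → ℕ := fun i => Nat.log 2 (q i - p i) with ha
  set b : ℕ → ℕ := fun i => Nat.log 2 (q' i - p' i) with hb
  have hpos : ∀ i, i < m → 0 < q i - p i ∧ 0 < q' i - p' i := by
    intro i hi
    obtain ⟨g1, g2, g3, g4, -, -, -⟩ := h1 i hi
    omega
  have ha1 : ∀ i, i < m → 2 ^ a i ≤ q i - p i ∧ q i - p i < 2 ^ (a i + 1) := by
    intro i hi
    exact ⟨Nat.pow_log_le_self 2 (hpos i hi).1.ne', Nat.lt_pow_succ_log_self (by norm_num) _⟩
  have hb1 : ∀ i, i < m → 2 ^ b i ≤ q' i - p' i ∧ q' i - p' i < 2 ^ (b i + 1) := by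
    intro i hi
    exact ⟨Nat.pow_log_le_self 2 (hpos i hi).2.ne', Nat.lt_pow_succ_log_self (by norm_num) _⟩
  have hab : ∀ i, i < m → a i ≤ b i := by
    intro i hi
    exact Nat.log_mono_right (h1 i hi).2.2.2.2.1
  have hba : ∀ i, i + 1 < m → b i < a (i + 1) := by
    intro i hi
    have e1 := (hb1 i (by omega)).1
    have e2 := h2 i hi
    have e3 : 2 ^ (b i + 1) ≤ q (i + 1) - p (i + 1) := by
      have : 2 ^ (b i + 1) = 2 * 2 ^ b i := by ring
      omega
    have e4 : b i + 1 ≤ a (i + 1) := Nat.le_log_of_pow_le (by norm_num) e3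
    omega
  have hmono : ∀ d i, i + d + 1 < m → b i < a (i + d + 1) := by
    intro d
    induction d with
    | zero =>
      intro i hi
      exact hba i hi
    | succ d ih =>
      intro i hi
      have e1 := ih i (by omega)
      have e2 := hab (i + d + 1) (by omega)
      have e3 := hba (i + d + 1) (by omega)
      have e4 : i + (d + 1) + 1 = i + d + 1 + 1 := by ring
      rw [e4]
      omega
  have hlt : ∀ i i', i < i' → i' < m → b i < a i' := by
    intro i i' hii hi'
    have := hmono (i' - i - 1) i (by omega)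
    have e : i + (i' - i - 1) + 1 = i' := by omega
    rwa [e] at this
  have hbN : ∀ i, i < m → 2 ^ b i ≤ N := fun i hi =>
    (hb1 i hi).1.trans (h1 i hi).2.2.2.2.2.1
  have haN : ∀ i, i < m → 2 ^ a i ≤ N := fun i hi =>
    (Nat.pow_le_pow_right (by norm_num) (hab i hi)).trans (hbN i hi)
  -- bad and good jumps
  set D := (range m).filter (fun i => Rough g (ε / 4) (a i) k ∨ Rough g (ε / 4) (b i) k) with hD
  set G := (range m).filter (fun i => ¬ (Rough g (ε / 4) (a i) k ∨ Rough g (ε / 4) (b i) k))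
    with hG
  have hDG : D.card + G.card = m := by
    rw [hD, hG, card_filter_add_card_filter_not, card_range]
  have hDc : D.card ≤ ((range N).filter (fun j => 2 ^ j ≤ N ∧ Rough g (ε / 4) j k)).card := by
    apply card_le_card_of_injOn (fun i => if Rough g (ε / 4) (a i) k then a i else b i)
    · intro i hi
      rw [mem_coe, hD, mem_filter, mem_range] at hi
      rw [mem_coe, mem_filter, mem_range]
      have e1 := hbN i hi.1
      have e2 := haN i hi.1
      have e3 : b i < 2 ^ b i := Nat.lt_two_pow_self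
      have e4 : a i < 2 ^ a i := Nat.lt_two_pow_self
      by_cases hc : Rough g (ε / 4) (a i) k
      · simp only [if_pos hc]
        exact ⟨by omega, e2, hc⟩
      · simp only [if_neg hc]
        exact ⟨by omega, e1, hi.2.resolve_left hc⟩
    · intro i hi i' hi' hii
      rw [mem_coe, hD, mem_filter, mem_range] at hi hi'
      simp only at hii
      have key : ∀ x y, x < m → y < m → x < y →
          (if Rough g (ε / 4) (a x) k then a x else b x) ≠
          (if Rough g (ε / 4) (a y) k then a y else b y) := by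
        intro x y hx hy hxy
        have e1 := hlt x y hxy hy
        have e2 := hab x hx
        have e3 := hab y hy
        split_ifs <;> omega
      rcases lt_trichotomy i i' with hc | hc | hc
      · exact absurd hii (key i i' hi.1 hi'.1 hc)
      · exact hc
      · exact absurd hii.symm (key i' i hi'.1 hi.1 hc)
  have hGmem : ∀ x ∈ G, x < m ∧ ¬ (Rough g (ε / 4) (a x) k ∨ Rough g (ε / 4) (b x) k) := by
    intro x hx
    rw [hG, mem_filter, mem_range] at hx
    exact hx
  have hGc : G.card ≤ stops g (ε / 4) (Nat.log 2 N + 1) 0 k := by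
    have hGm : ∀ t (ht : t < G.card), G.orderEmbOfFin rfl ⟨t, ht⟩ < m ∧
        ¬ (Rough g (ε / 4) (a (G.orderEmbOfFin rfl ⟨t, ht⟩)) k ∨
          Rough g (ε / 4) (b (G.orderEmbOfFin rfl ⟨t, ht⟩)) k) := by
      intro t ht
      exact hGmem _ (G.orderEmbOfFin_mem rfl ⟨t, ht⟩)
    apply stops_ge g (ε / 4) (by linarith) (Nat.log 2 N + 1) G.card k 0
      (fun t => if ht : t < G.card then a (G.orderEmbOfFin rfl ⟨t, ht⟩) else 0)
      (fun t => if ht : t < G.card then b (G.orderEmbOfFin rfl ⟨t, ht⟩) else 0)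
    · intro t ht
      simp only [dif_pos ht]
      obtain ⟨hi, hgood⟩ := hGm t ht
      set i := G.orderEmbOfFin rfl ⟨t, ht⟩ with hidef
      rw [not_or] at hgood
      obtain ⟨g1, g2, g3, g4, -, -, g7⟩ := h1 i hi
      refine ⟨hab i hi, ?_, ?_⟩
      · have : b i ≤ Nat.log 2 N := Nat.le_log_of_pow_le (by norm_num) (hbN i hi)
        omega
      · have e1 := chain_near g (ε / 4) (a i) k (p i) (q i) g1 g2 (ha1 i hi).1 (ha1 i hi).2 hgood.1
        have e2 := chain_near g (ε / 4) (b i) k (p' i) (q' i) g3 g4 (hb1 i hi).1 (hb1 i hi).2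
          hgood.2
        rw [abs_lt] at e1 e2
        have e3 : |av g (p i) (q i) - av g (p' i) (q' i)| ≤
            |avg (2 ^ a i) g k - avg (2 ^ b i) g k| + ε / 2 := by
          rw [abs_le]
          have e4 := le_abs_self (avg (2 ^ a i) g k - avg (2 ^ b i) g k)
          have e5 := neg_abs_le (avg (2 ^ a i) g k - avg (2 ^ b i) g k)
          constructor <;> linarith [e1.1, e1.2, e2.1, e2.2]
        linarith
    · intro t ht
      have ht' : t < G.card := by omega
      simp only [dif_pos ht, dif_pos ht']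
      apply hlt
      · apply (G.orderEmbOfFin rfl).strictMono
        exact Nat.lt_succ_self t
      · exact (hGm (t + 1) ht).1
  omega

lemma chain_exp (x : ℝ) (hx : 0 ≤ x) (hx1 : x ≤ 1) : Real.exp (x / 2) ≤ 1 + x := by
  have h1 := Real.add_one_le_exp (-(x / 2))
  have h2 : 0 < Real.exp (-(x / 2)) := Real.exp_pos _
  have h3 : Real.exp (x / 2) * Real.exp (-(x / 2)) = 1 := by
    rw [← Real.exp_add, add_neg_cancel, Real.exp_zero]
  have h4 : 0 < Real.exp (x / 2) := Real.exp_pos _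
  have h5 : Real.exp (x / 2) * (1 - x / 2) ≤ 1 := by
    rw [← h3]
    apply mul_le_mul_of_nonneg_left _ h4.le
    linarith
  by_contra hcon
  rw [not_le] at hcon
  have h6 : (1 + x) * (1 - x / 2) < Real.exp (x / 2) * (1 - x / 2) := by
    apply mul_lt_mul_of_pos_right hcon
    linarith
  nlinarith

/-- The tail of the number of stops. -/
lemma chain_stops (g : ℕ → ℝ) (hg : ∀ k, 0 ≤ g k ∧ g k ≤ 12) (N : ℕ) (hN : 1 ≤ N) (ε : ℝ)
    (hε : 0 < ε) (hε1 : ε ≤ 1) (n : ℕ) :
    (((range N).filter (fun k => n ≤ stops g ε (Nat.log 2 N + 1) 0 k)).card : ℝ) ≤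
      6 * Real.exp (-(ε ^ 2 * n / 1152)) * N := by
  have h1 := stops_moment g hg ε hε hε1 (Nat.log 2 N + 1) 0 0 le_rfl (by norm_num)
  rw [zero_mul, zero_add, one_mul] at h1
  have h2 : N < 2 ^ (Nat.log 2 N + 1) := Nat.lt_pow_succ_log_self (by norm_num) N
  have h3 : 2 ^ (Nat.log 2 N + 1) ≤ 2 * N := by
    rw [pow_succ]
    have := Nat.pow_log_le_self 2 (show N ≠ 0 by omega)
    omega
  have h3' : (2 : ℝ) ^ (Nat.log 2 N + 1) ≤ 2 * N := by exact_mod_cast h3
  have hbase : (1 : ℝ) ≤ 1 + ε ^ 2 / 576 := by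
    have := sq_nonneg ε
    linarith
  have h4 : (((range N).filter (fun k => n ≤ stops g ε (Nat.log 2 N + 1) 0 k)).card : ℝ) *
      (1 + ε ^ 2 / 576) ^ n ≤
      ∑ k ∈ Ico 0 (2 ^ (Nat.log 2 N + 1)),
        (1 + ε ^ 2 / 576) ^ stops g ε (Nat.log 2 N + 1) 0 k := by
    calc _ = ∑ k ∈ (range N).filter (fun k => n ≤ stops g ε (Nat.log 2 N + 1) 0 k),
          (1 + ε ^ 2 / 576) ^ n := by rw [sum_const, nsmul_eq_mul]
      _ ≤ ∑ k ∈ (range N).filter (fun k => n ≤ stops g ε (Nat.log 2 N + 1) 0 k),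
          (1 + ε ^ 2 / 576) ^ stops g ε (Nat.log 2 N + 1) 0 k := by
          apply sum_le_sum
          intro k hk
          exact pow_le_pow_right₀ hbase (mem_filter.1 hk).2
      _ ≤ _ := by
          apply sum_le_sum_of_subset_of_nonneg
          · intro k hk
            rw [mem_filter, mem_range] at hk
            rw [mem_Ico]
            omega
          · intro k _ _
            positivity
  have h5 : Real.exp (ε ^ 2 * n / 1152) ≤ (1 + ε ^ 2 / 576) ^ n := by
    have h6 := chain_exp (ε ^ 2 / 576) (by positivity) (by nlinarith)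
    have h7 := pow_le_pow_left₀ (Real.exp_pos _).le h6 n
    rw [← Real.exp_nat_mul] at h7
    have e : (n : ℝ) * (ε ^ 2 / 576 / 2) = ε ^ 2 * n / 1152 := by ring
    rwa [e] at h7
  set c : ℝ := (((range N).filter (fun k => n ≤ stops g ε (Nat.log 2 N + 1) 0 k)).card : ℝ)
    with hc
  have hc0 : 0 ≤ c := Nat.cast_nonneg _
  have h6 : c * Real.exp (ε ^ 2 * n / 1152) ≤ 6 * N := by
    calc c * Real.exp (ε ^ 2 * n / 1152) ≤ c * (1 + ε ^ 2 / 576) ^ n := by gcongr
      _ ≤ 3 * 2 ^ (Nat.log 2 N + 1) := h4.trans h1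
      _ ≤ 6 * N := by linarith
  have h7 : c = c * Real.exp (ε ^ 2 * n / 1152) * Real.exp (-(ε ^ 2 * n / 1152)) := by
    rw [mul_assoc, ← Real.exp_add, add_neg_cancel, Real.exp_zero, mul_one]
  rw [h7]
  calc _ ≤ 6 * N * Real.exp (-(ε ^ 2 * n / 1152)) := by gcongr
    _ = _ := by ring

/-- Few jumps, from a tail bound for the rough scales with an arbitrary exponent. -/
theorem chain_gen (e : ℕ) (he : 2 ≤ e)
    (hrough : ∃ C : ℝ, 1 ≤ C ∧ ∀ g : ℕ → ℝ, (∀ k, 0 ≤ g k ∧ g k ≤ 12) → ∀ N : ℕ, 1 ≤ N →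
      ∀ ε : ℝ, 0 < ε → ε ≤ 1 → ∀ m : ℕ,
      (((range N).filter (fun k => m ≤ ((range N).filter (fun j => 2 ^ j ≤ N ∧
        Rough g ε j k)).card)).card : ℝ) ≤ C * Real.exp (-(ε ^ e * m / C)) * N) :
    ∃ C : ℝ, 1 ≤ C ∧ ∀ g : ℕ → ℝ, (∀ k, 0 ≤ g k ∧ g k ≤ 12) → ∀ N : ℕ, 1 ≤ N →
    ∀ ε : ℝ, 0 < ε → ε ≤ 1 → ∀ m : ℕ,
    (((range N).filter (fun k => Chain g N ε m k)).card : ℝ) ≤
      C * Real.exp (-(ε ^ e * m / C)) * N := by
  obtain ⟨C, hC, hR⟩ := hrough
  have hC0 : 0 < C := by linarith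
  have h4e : (1 : ℝ) ≤ 4 ^ e := one_le_pow₀ (by norm_num)
  refine ⟨2 * 4 ^ e * C + 36864, by nlinarith, ?_⟩
  intro g hg N hN ε hε hε1 m
  set m1 := (m + 1) / 2 with hm1
  have hm1a : (m : ℝ) ≤ 2 * m1 := by
    have : m ≤ 2 * m1 := by omega
    exact_mod_cast this
  have hN0 : (0 : ℝ) ≤ N := Nat.cast_nonneg N
  have hsub : (range N).filter (fun k => Chain g N ε m k) ⊆
      (range N).filter (fun k => m1 ≤ ((range N).filter (fun j => 2 ^ j ≤ N ∧
        Rough g (ε / 4) j k)).card) ∪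
      (range N).filter (fun k => m1 ≤ stops g (ε / 4) (Nat.log 2 N + 1) 0 k) := by
    intro k hk
    rw [mem_filter] at hk
    rw [mem_union, mem_filter, mem_filter]
    have h1 := chain_count g N ε hε m k hk.2
    by_contra hcon
    rw [not_or, not_and, not_and] at hcon
    have h2 := hcon.1 hk.1
    have h3 := hcon.2 hk.1
    omega
  have h1 : (((range N).filter (fun k => Chain g N ε m k)).card : ℝ) ≤
      ((range N).filter (fun k => m1 ≤ ((range N).filter (fun j => 2 ^ j ≤ N ∧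
        Rough g (ε / 4) j k)).card)).card +
      ((range N).filter (fun k => m1 ≤ stops g (ε / 4) (Nat.log 2 N + 1) 0 k)).card := by
    exact_mod_cast (card_le_card hsub).trans (card_union_le _ _)
  have h2 := hR g hg N hN (ε / 4) (by linarith) (by linarith) m1
  have h3 := chain_stops g hg N hN (ε / 4) (by linarith) (by linarith) m1
  set K : ℝ := 2 * 4 ^ e * C + 36864 with hK
  have hK0 : 0 < K := by positivity
  have hεe : 0 < ε ^ e := by positivity
  have h4 : Real.exp (-((ε / 4) ^ e * m1 / C)) ≤ Real.exp (-(ε ^ e * m / K)) := by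
    apply Real.exp_le_exp.2
    apply neg_le_neg
    calc ε ^ e * m / K ≤ ε ^ e * (2 * m1) / K := by gcongr
      _ ≤ ε ^ e * (2 * m1) / (2 * 4 ^ e * C) := by
          gcongr
          linarith
      _ = (ε / 4) ^ e * m1 / C := by
          rw [div_pow]
          field_simp
  have h5 : Real.exp (-((ε / 4) ^ 2 * m1 / 1152)) ≤ Real.exp (-(ε ^ e * m / K)) := by
    apply Real.exp_le_exp.2
    apply neg_le_neg
    have h6 : ε ^ e ≤ ε ^ 2 := pow_le_pow_of_le_one hε.le hε1 he
    calc ε ^ e * m / K ≤ ε ^ 2 * (2 * m1) / K := by gcongr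
      _ ≤ ε ^ 2 * (2 * m1) / 36864 := by
          gcongr
          have : 0 ≤ 2 * 4 ^ e * C := by positivity
          linarith
      _ = (ε / 4) ^ 2 * m1 / 1152 := by ring
  have h6 : C * Real.exp (-((ε / 4) ^ e * m1 / C)) * N ≤
      C * Real.exp (-(ε ^ e * m / K)) * N := by gcongr
  have h7 : 6 * Real.exp (-((ε / 4) ^ 2 * m1 / 1152)) * N ≤
      6 * Real.exp (-(ε ^ e * m / K)) * N := by gcongr
  have h8 : (C + 6) * Real.exp (-(ε ^ e * m / K)) * N ≤ K * Real.exp (-(ε ^ e * m / K)) * N := by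
    have : C + 6 ≤ K := by
      rw [hK]
      nlinarith
    gcongr
  linarith

/-- **Few jumps.** PROOF. Let `a i = Nat.log 2 (q i - p i)`, `b i = Nat.log 2 (q' i - p' i)`, so
`a i ≤ b i < a (i + 1)` and `2 ^ b i ≤ N`. Call `i` bad if `Rough g (ε / 4) (a i) k` or
`Rough g (ε / 4) (b i) k`; different `i` use different scales, so the number of bad `i` is at most
the number of rough scales of `k`. If `i` is not bad, the dyadic block of level `a i` of `k` is an
interval around `k` of length `2 ^ a i`, so `|av (p i) (q i) - avg (2 ^ a i) g k| < ε / 4`, the same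
for `b i`, hence `|avg (2 ^ a i) g k - avg (2 ^ b i) g k| ≥ ε / 2`: by `stops_ge` with `ε / 4` and
`2 ^ i₀ > N` the number of the other `i` is at most `stops g (ε / 4) i₀ 0 k`. So `m ≤ N₁ + N₂`; use
`rough_tail` and `stops_moment` (Markov) with `m / 2`. -/
theorem chain_tail : ∃ C : ℝ, 1 ≤ C ∧ ∀ g : ℕ → ℝ, (∀ k, 0 ≤ g k ∧ g k ≤ 12) → ∀ N : ℕ, 1 ≤ N →
    ∀ ε : ℝ, 0 < ε → ε ≤ 1 → ∀ m : ℕ,
    (((range N).filter (fun k => Chain g N ε m k)).card : ℝ) ≤
      C * Real.exp (-(ε ^ 2 * m / C)) * N :=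
  chain_gen 2 le_rfl rough_tail

end Pool.Agent.H.MP_711652_nt.QW
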