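import Mathlib
import Pool.Agent.H.MP_711652_nt.QW.ChainS

set_option autoImplicit false

/-!
# Jumps of averages over all scales: the bound by the second moment
-/

namespace Pool.Agent.H.MP_711652_nt.QW

open Finset Classical

/-- The sum of the counting functions of the bad cells. -/
lemma l2_tailN_sum (bad : ℕ → ℕ → Prop) (K : ℕ) :
    ∑ k ∈ range (2 ^ K), (tailN bad K k : ℝ) = ∑ j ∈ range K, (2 : ℝ) ^ j *
      (((Ico (0 * 2 ^ (K - j)) ((0 + 1) * 2 ^ (K - j))).filter (bad j)).card : ℝ) := by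
  have h1 : ∀ k ∈ range (2 ^ K), (tailN bad K k : ℝ) =
      ∑ j ∈ range K, if bad j (k / 2 ^ j) then (1 : ℝ) else 0 := by
    intro k _
    unfold tailN
    rw [sum_boole]
  rw [sum_congr rfl h1, sum_comm]
  apply sum_congr rfl
  intro j hj
  rw [mem_range] at hj
  have e1 : range (2 ^ K) = Ico (0 * 2 ^ K) ((0 + 1) * 2 ^ K) := by
    rw [zero_mul, zero_add, one_mul, range_eq_Ico]
  rw [e1, dyadic_regroup _ K j 0 hj.le]
  have h2 : ∀ c ∈ Ico (0 * 2 ^ (K - j)) ((0 + 1) * 2 ^ (K - j)),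
      ∑ k ∈ Ico (c * 2 ^ j) ((c + 1) * 2 ^ j), (if bad j (k / 2 ^ j) then (1 : ℝ) else 0) =
      if bad j c then (2 : ℝ) ^ j else 0 := by
    intro c _
    have h3 : ∀ k ∈ Ico (c * 2 ^ j) ((c + 1) * 2 ^ j),
        (if bad j (k / 2 ^ j) then (1 : ℝ) else 0) = if bad j c then (1 : ℝ) else 0 := by
      intro k hk
      rw [mem_Ico] at hk
      rw [Nat.div_eq_of_lt_le hk.1 hk.2]
    have h4 : (c + 1) * 2 ^ j - c * 2 ^ j = 2 ^ j := by
      rw [Nat.add_mul, one_mul, Nat.add_sub_cancel_left]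
    rw [sum_congr rfl h3, sum_const, Nat.card_Ico, h4, nsmul_eq_mul]
    split_ifs
    · push_cast
      ring
    · ring
  rw [sum_congr rfl h2, ← sum_filter, sum_const, nsmul_eq_mul]
  ring

/-- The sum of the numbers of bad cells. -/
lemma l2_bad (h : ℕ → ℝ) (η : ℝ) (hη : 0 < η) (K : ℕ) :
    ∑ k ∈ range (2 ^ K), (tailN (rghBad h η) K k : ℝ) ≤
      (3 / η) * ∑ k ∈ range (2 ^ K), h k ^ 2 := by
  rw [l2_tailN_sum]
  refine (rgh_pack h η hη K 0).trans (le_of_eq ?_)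
  rw [zero_mul, zero_add, one_mul, range_eq_Ico]

/-- The sum of the numbers of stops. -/
lemma l2_stops (g : ℕ → ℝ) (ε : ℝ) (hε : 0 < ε) (i : ℕ) : ∀ (c : ℕ) (v : ℝ),
    ε ^ 2 * ∑ k ∈ Ico (c * 2 ^ i) ((c + 1) * 2 ^ i), (stops g ε i v k : ℝ) ≤
      ∑ k ∈ Ico (c * 2 ^ i) ((c + 1) * 2 ^ i), (g k - v) ^ 2 := by
  induction i with
  | zero =>
    intro c v
    simp only [stops, Nat.cast_zero, sum_const_zero, mul_zero]
    exact sum_nonneg fun k _ => sq_nonneg _
  | succ i ih =>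
    intro c v
    have hchild : ∀ d : ℕ,
        ε ^ 2 * ∑ k ∈ Ico (d * 2 ^ i) ((d + 1) * 2 ^ i), (stops g ε (i + 1) v k : ℝ) ≤
        ∑ k ∈ Ico (d * 2 ^ i) ((d + 1) * 2 ^ i), (g k - v) ^ 2 := by
      intro d
      set Q := Ico (d * 2 ^ i) ((d + 1) * 2 ^ i) with hQ
      obtain ⟨a, ha⟩ : ∃ a, a = (∑ n ∈ Q, g n) / 2 ^ i := ⟨_, rfl⟩
      have hpos : (0 : ℝ) < 2 ^ i := by positivity
      have hcard : (Q.card : ℝ) = 2 ^ i := by
        have h4 : (d + 1) * 2 ^ i - d * 2 ^ i = 2 ^ i := by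
          rw [Nat.add_mul, one_mul, Nat.add_sub_cancel_left]
        rw [hQ, Nat.card_Ico, h4]
        push_cast
        rfl
      have hsum : ∑ n ∈ Q, g n = a * 2 ^ i := by
        rw [ha]
        field_simp
      have havg : ∀ k ∈ Q, avg (2 ^ i) g k = a := by
        intro k hk
        rw [hQ, mem_Ico] at hk
        rw [stops_avg g i d k hk.1 hk.2, ha]
      by_cases hstop : ε ≤ |a - v|
      · have h1 : ∀ k ∈ Q, (stops g ε (i + 1) v k : ℝ) = 1 + (stops g ε i a k : ℝ) := by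
          intro k hk
          rw [stops, havg k hk, if_pos hstop]
          push_cast
          rfl
        have h2 := ih d a
        rw [← hQ] at h2
        rw [sum_congr rfl h1, sum_add_distrib, sum_const, nsmul_eq_mul, mul_one, hcard]
        have h3 : ε ^ 2 ≤ (a - v) ^ 2 := by
          rw [← sq_abs (a - v)]
          exact pow_le_pow_left₀ hε.le hstop 2
        have h4 : ε ^ 2 * 2 ^ i ≤ (a - v) ^ 2 * 2 ^ i := mul_le_mul_of_nonneg_right h3 hpos.le
        have h5 : ∑ k ∈ Q, (g k - v) ^ 2 = ∑ k ∈ Q, (g k - a) ^ 2 + (a - v) ^ 2 * 2 ^ i := by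
          have h6 : ∀ k ∈ Q, (g k - v) ^ 2 =
              (g k - a) ^ 2 + 2 * (a - v) * g k + (v ^ 2 - a ^ 2) := by
            intro k _
            ring
          rw [sum_congr rfl h6, sum_add_distrib, sum_add_distrib, ← mul_sum, hsum, sum_const,
            nsmul_eq_mul, hcard]
          ring
        rw [h5]
        linarith
      · have h1 : ∀ k ∈ Q, (stops g ε (i + 1) v k : ℝ) = (stops g ε i v k : ℝ) := by
          intro k hk
          rw [stops, havg k hk, if_neg hstop]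
        rw [sum_congr rfl h1]
        exact ih d v
    have e1 : c * 2 ^ (i + 1) = (2 * c) * 2 ^ i := by ring
    have e2 : (c + 1) * 2 ^ (i + 1) = (2 * c + 1 + 1) * 2 ^ i := by ring
    have hle1 : (2 * c) * 2 ^ i ≤ (2 * c + 1) * 2 ^ i := Nat.mul_le_mul_right _ (by omega)
    have hle2 : (2 * c + 1) * 2 ^ i ≤ (2 * c + 1 + 1) * 2 ^ i := Nat.mul_le_mul_right _ (by omega)
    rw [e1, e2, ← sum_Ico_consecutive _ hle1 hle2, ← sum_Ico_consecutive _ hle1 hle2, mul_add]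
    exact add_le_add (hchild (2 * c)) (hchild (2 * c + 1))

/-- The truncated function. -/
noncomputable def l2Tr (g : ℕ → ℝ) (N k : ℕ) : ℝ := if k < 2 * N then g k else 0

lemma l2Tr_av (g : ℕ → ℝ) (N p q : ℕ) (hq : q ≤ 2 * N) : av (l2Tr g N) p q = av g p q := by
  unfold av
  congr 1
  apply sum_congr rfl
  intro k hk
  rw [mem_Ico] at hk
  unfold l2Tr
  rw [if_pos (by omega)]

lemma l2Tr_chain (g : ℕ → ℝ) (N : ℕ) (ε : ℝ) (m k : ℕ) (hk : k < N) (h : Chain g N ε m k) :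
    Chain (l2Tr g N) N ε m k := by
  obtain ⟨p, q, p', q', h1, h2⟩ := h
  refine ⟨p, q, p', q', fun i hi => ?_, h2⟩
  obtain ⟨a1, a2, a3, a4, a5, a6, a7⟩ := h1 i hi
  refine ⟨a1, a2, a3, a4, a5, a6, ?_⟩
  rw [l2Tr_av g N _ _ (by omega), l2Tr_av g N _ _ (by omega)]
  exact a7

lemma l2Tr_sum (g : ℕ → ℝ) (N M : ℕ) :
    ∑ k ∈ range M, l2Tr g N k ^ 2 ≤ ∑ k ∈ range (2 * N), g k ^ 2 := by
  have h1 : ∀ k ∈ range M, l2Tr g N k ^ 2 = if k < 2 * N then g k ^ 2 else 0 := by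
    intro k _
    unfold l2Tr
    split_ifs
    · rfl
    · norm_num
  rw [sum_congr rfl h1, ← sum_filter]
  apply sum_le_sum_of_subset_of_nonneg
  · intro k hk
    rw [mem_filter] at hk
    exact mem_range.2 hk.2
  · intro k _ _
    exact sq_nonneg _

lemma l2_shift (h : ℕ → ℝ) (A M : ℕ) :
    ∑ k ∈ range M, rghSh h A k ^ 2 ≤ ∑ k ∈ range M, h k ^ 2 := by
  have h1 : ∀ k ∈ range M, rghSh h A k ^ 2 = if A ≤ k then h (k - A) ^ 2 else 0 := by
    intro k _
    unfold rghSh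
    split_ifs
    · rfl
    · norm_num
  rw [sum_congr rfl h1, ← sum_filter]
  have h2 : ∑ k ∈ (range M).filter (fun k => A ≤ k), h (k - A) ^ 2 =
      ∑ n ∈ ((range M).filter (fun k => A ≤ k)).image (fun k => k - A), h n ^ 2 := by
    rw [sum_image]
    intro a ha b hb hab
    rw [mem_coe, mem_filter] at ha hb
    simp only at hab
    omega
  rw [h2]
  apply sum_le_sum_of_subset_of_nonneg
  · intro n hn
    rw [mem_image] at hn
    obtain ⟨k, hk, rfl⟩ := hn
    rw [mem_filter, mem_range] at hk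
    rw [mem_range]
    omega
  · intro k _ _
    exact sq_nonneg _

/-- **Few jumps, by the second moment.** -/
theorem chain_L2 : ∃ C : ℝ, 1 ≤ C ∧ ∀ g : ℕ → ℝ, (∀ k, 0 ≤ g k) → ∀ N : ℕ, 1 ≤ N →
    ∀ ε : ℝ, 0 < ε → ∀ m : ℕ,
    (((range N).filter (fun k => Chain g N ε m k)).card : ℝ) * (ε ^ 2 * m) ≤
      C * ∑ k ∈ range (2 * N), g k ^ 2 := by
  refine ⟨1600000, by norm_num, ?_⟩
  intro g _ N hN ε hε m
  have hN1 : (1 : ℝ) ≤ N := by exact_mod_cast hN
  have hε4 : 0 < ε / 4 := by linarith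
  -- the top level
  obtain ⟨k0, hk1, hk2⟩ := exists_nat_pow_near (show (1 : ℝ) ≤ 16 * N by linarith)
    (show (1 : ℝ) < 4 by norm_num)
  obtain ⟨K, hK⟩ : ∃ K, K = 2 * (k0 + 1) := ⟨_, rfl⟩
  obtain ⟨A, hA⟩ : ∃ A, A = 4 ^ (k0 + 1) / 3 := ⟨_, rfl⟩
  have h2K : 2 ^ K = 4 ^ (k0 + 1) := by rw [hK, pow_mul]; norm_num
  have hAK : 3 * A + 1 = 2 ^ K := by
    have h1 : 4 ^ (k0 + 1) % 3 = 1 := by rw [Nat.pow_mod]; norm_num
    rw [h2K, hA]
    omega
  have hNK : 16 * N < 2 ^ K := by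
    rw [h2K]
    exact_mod_cast hk2
  obtain ⟨i0, hi0⟩ : ∃ i0, i0 = Nat.log 2 N + 1 := ⟨_, rfl⟩
  have hi1 : N < 2 ^ i0 := by
    rw [hi0]
    exact Nat.lt_pow_succ_log_self (by norm_num) N
  set G := l2Tr g N with hG
  set Sg : ℝ := ∑ k ∈ range (2 * N), g k ^ 2 with hSg
  have hSg0 : 0 ≤ Sg := sum_nonneg fun k _ => sq_nonneg _
  obtain ⟨η, hη⟩ : ∃ η : ℝ, η = (ε / 4) ^ 2 / 16384 := ⟨_, rfl⟩
  have hη0 : 0 < η := by rw [hη]; positivity
  set S := (range N).filter (fun k => Chain g N ε m k) with hS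
  set T1 : ℕ → ℝ := fun k => (tailN (rghBad G η) K k : ℝ) with hT1
  set T2 : ℕ → ℝ := fun k => (tailN (rghBad (rghSh G A) η) K k : ℝ) with hT2
  set T3 : ℕ → ℝ := fun k => (stops G (ε / 4) i0 0 k : ℝ) with hT3
  have hT1n : ∀ k, 0 ≤ T1 k := fun k => Nat.cast_nonneg _
  have hT2n : ∀ k, 0 ≤ T2 k := fun k => Nat.cast_nonneg _
  have hT3n : ∀ k, 0 ≤ T3 k := fun k => Nat.cast_nonneg _
  have hpt : ∀ k ∈ S, (m : ℝ) ≤ T1 k + T2 (k + A) + T3 k := by
    intro k hk
    rw [hS, mem_filter, mem_range] at hk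
    have h1 := chain_count G N ε hε m k (l2Tr_chain g N ε m k hk.1 hk.2)
    have h2 := rgh_count G (ε / 4) hε4 N K A k hAK hNK
    rw [← hη] at h2
    rw [← hi0] at h1
    have h3 : m ≤ tailN (rghBad G η) K k + tailN (rghBad (rghSh G A) η) K (k + A) +
        stops G (ε / 4) i0 0 k := h1.trans (Nat.add_le_add_right h2 _)
    simp only [hT1, hT2, hT3]
    exact_mod_cast h3
  have hs1 : ∑ k ∈ S, T1 k ≤ (3 / η) * Sg := by
    calc ∑ k ∈ S, T1 k ≤ ∑ k ∈ range (2 ^ K), T1 k := by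
          apply sum_le_sum_of_subset_of_nonneg
          · intro k hk
            rw [hS, mem_filter, mem_range] at hk
            rw [mem_range]
            omega
          · intro k _ _
            exact hT1n k
      _ ≤ (3 / η) * ∑ k ∈ range (2 ^ K), G k ^ 2 := l2_bad G η hη0 K
      _ ≤ (3 / η) * Sg := mul_le_mul_of_nonneg_left (l2Tr_sum g N _) (by positivity)
  have hs2 : ∑ k ∈ S, T2 (k + A) ≤ (3 / η) * Sg := by
    calc ∑ k ∈ S, T2 (k + A) = ∑ n ∈ S.image (fun k => k + A), T2 n := by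
          rw [sum_image]
          intro a _ b _ hab
          simp only at hab
          omega
      _ ≤ ∑ k ∈ range (2 ^ K), T2 k := by
          apply sum_le_sum_of_subset_of_nonneg
          · intro n hn
            rw [mem_image] at hn
            obtain ⟨k, hk, rfl⟩ := hn
            rw [hS, mem_filter, mem_range] at hk
            rw [mem_range]
            omega
          · intro k _ _
            exact hT2n k
      _ ≤ (3 / η) * ∑ k ∈ range (2 ^ K), rghSh G A k ^ 2 := l2_bad (rghSh G A) η hη0 K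
      _ ≤ (3 / η) * Sg := mul_le_mul_of_nonneg_left
          ((l2_shift G A _).trans (l2Tr_sum g N _)) (by positivity)
  have hs3 : (ε / 4) ^ 2 * ∑ k ∈ S, T3 k ≤ Sg := by
    have h1 := l2_stops G (ε / 4) hε4 i0 0 0
    rw [zero_mul, zero_add, one_mul, ← range_eq_Ico] at h1
    simp only [sub_zero] at h1
    refine le_trans ?_ (h1.trans (l2Tr_sum g N _))
    apply mul_le_mul_of_nonneg_left _ (by positivity)
    apply sum_le_sum_of_subset_of_nonneg
    · intro k hk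
      rw [hS, mem_filter, mem_range] at hk
      rw [mem_range]
      omega
    · intro k _ _
      exact hT3n k
  have hmain : (S.card : ℝ) * m ≤ ∑ k ∈ S, T1 k + ∑ k ∈ S, T2 (k + A) + ∑ k ∈ S, T3 k := by
    rw [← sum_add_distrib, ← sum_add_distrib, ← nsmul_eq_mul, ← sum_const]
    exact sum_le_sum hpt
  have hε2 : 0 < ε ^ 2 := by positivity
  have e3 : ε ^ 2 * (3 / η) = 786432 := by
    rw [hη]
    field_simp
    norm_num
  have hs1' : ε ^ 2 * ∑ k ∈ S, T1 k ≤ 786432 * Sg := by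
    rw [← e3, mul_assoc]
    exact mul_le_mul_of_nonneg_left hs1 hε2.le
  have hs2' : ε ^ 2 * ∑ k ∈ S, T2 (k + A) ≤ 786432 * Sg := by
    rw [← e3, mul_assoc]
    exact mul_le_mul_of_nonneg_left hs2 hε2.le
  have hm := mul_le_mul_of_nonneg_left hmain hε2.le
  calc (S.card : ℝ) * (ε ^ 2 * m) = ε ^ 2 * (S.card * m) := by ring
    _ ≤ ε ^ 2 * (∑ k ∈ S, T1 k + ∑ k ∈ S, T2 (k + A) + ∑ k ∈ S, T3 k) := hm
    _ ≤ 1600000 * Sg := by
        have h4 : ε ^ 2 * ∑ k ∈ S, T3 k = 16 * ((ε / 4) ^ 2 * ∑ k ∈ S, T3 k) := by ring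
        rw [mul_add, mul_add, h4]
        linarith

end Pool.Agent.H.MP_711652_nt.QW
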