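import Mathlib
import Pool.Agent.H.MP_711652_nt.QW.SelS

set_option autoImplicit false

/-!
# The sieve problem for pairs
-/

namespace Pool.Agent.H.MP_711652_nt.QW

open Finset BoundingSieve

/-- The sieve problem for the pairs `n`, `n + 2 k`, sieving by the primes `≤ z`. -/
noncomputable def sieve2 (k z : ℕ) : BoundingSieve := pairSieve 1 (2 * k) z (dvd_mul_right 2 k)

lemma adm2 (k z : ℕ) (hk : 1 ≤ k) : Adm (sieve2 k z) (fun n => n * (n + 2 * k)) := by
  have h0 : 2 * k ≠ 0 := by omega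
  have hnu : ∀ m, m ∣ (sieve2 k z).prodPrimes → (m : ℝ) * (sieve2 k z).nu m =
      (2 : ℝ) ^ m.primeFactors.card := by
    intro m hm
    change m ∣ Pz (2 * k) z at hm
    have hsq : Squarefree m := (Pz_squarefree (2 * k) z).squarefree_of_dvd hm
    have hm0 : (m : ℝ) ≠ 0 := by exact_mod_cast hsq.ne_zero
    change (m : ℝ) * nu2 m = _
    rw [nu2_squarefree hsq]
    field_simp
  refine ⟨?_, ?_, ?_, ?_⟩
  · intro m _ n
    have h1 : n % m * (n % m + 2 * k) ≡ n * (n + 2 * k) [MOD m] :=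
      Nat.ModEq.mul (Nat.mod_modEq n m) ((Nat.mod_modEq n m).add_right _)
    exact h1.dvd_iff dvd_rfl
  · intro m hm
    rw [hnu m hm]
    change m ∣ Pz (2 * k) z at hm
    have hsq : Squarefree m := (Pz_squarefree (2 * k) z).squarefree_of_dvd hm
    have hm0 : 0 < m := Nat.pos_of_ne_zero hsq.ne_zero
    have : NeZero m := ⟨hm0.ne'⟩
    have h1 : ((range m).filter (fun r => m ∣ r * (r + 2 * k))).card =
        (univ.filter (fun x : ZMod m => x * (x + ((2 * k : ℕ) : ZMod m)) = 0)).card := by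
      apply card_nbij' (fun r : ℕ => (r : ZMod m)) (fun x => x.val)
      · intro r hr
        rw [mem_coe, mem_filter] at hr
        rw [mem_coe, mem_filter]
        refine ⟨mem_univ _, ?_⟩
        have := (ZMod.natCast_eq_zero_iff (r * (r + 2 * k)) m).2 hr.2
        push_cast at this ⊢
        exact this
      · intro x hx
        rw [mem_coe, mem_filter] at hx
        rw [mem_coe, mem_filter, mem_range]
        refine ⟨ZMod.val_lt x, ?_⟩
        apply (ZMod.natCast_eq_zero_iff _ m).1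
        have h2 := hx.2
        push_cast at h2 ⊢
        rw [ZMod.natCast_zmod_val]
        exact h2
      · intro r hr
        rw [mem_coe, mem_filter, mem_range] at hr
        exact ZMod.val_cast_of_lt hr.1
      · intro x _
        exact ZMod.natCast_zmod_val x
    have h2 : rc (2 * k) m = (univ.filter (fun x : ZMod m => x * (x + ((2 * k : ℕ) : ZMod m)) = 0)).card := by
      unfold rc
      rw [Nat.card_eq_fintype_card, Fintype.card_subtype]
    rw [h1, ← h2, rc_squarefree (2 * k) m hsq (dvd_Pz_coprime hm h0)]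
    push_cast
    rfl
  · intro m hm
    exact (hnu m hm).le
  · intro p hp hpP
    change p ∣ Pz (2 * k) z at hpP
    have h1 := ((prime_dvd_Pz hp).1 hpP).2
    have h2 : 2 < p := by
      rcases hp.two_le.lt_or_eq with h | h
      · exact h
      · exfalso
        apply h1
        rw [← h]
        exact dvd_mul_right 2 k
    have h3 : (3 : ℝ) ≤ p := by exact_mod_cast h2
    change (1 - nu2 p)⁻¹ ≤ 3
    rw [nu2_prime hp]
    have h4 : (2 : ℝ) / p ≤ 2 / 3 := div_le_div_of_nonneg_left (by norm_num) (by norm_num) h3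
    have h5 : (1 / 3 : ℝ) ≤ 1 - 2 / p := by linarith
    calc (1 - 2 / (p : ℝ))⁻¹ ≤ (1 / 3 : ℝ)⁻¹ := inv_anti₀ (by norm_num) h5
      _ ≤ 3 := by norm_num

/-- The number of prime pairs in `(w, w + H]`. -/
def cntP (k w H : ℕ) : ℕ := ((Ioc w (w + H)).filter (fun n => n.Prime ∧ (n + 2 * k).Prime)).card

lemma pair_cop {k z n : ℕ} (hz : z < n) (h1 : n.Prime) (h2 : (n + 2 * k).Prime) :
    Nat.Coprime (sieve2 k z).prodPrimes (n * (n + 2 * k)) := by
  change Nat.Coprime (Pz (2 * k) z) _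
  apply Nat.coprime_of_dvd
  intro q hq hqP hqn
  have hqz := ((prime_dvd_Pz hq).1 hqP).1
  rcases (Nat.Prime.dvd_mul hq).1 hqn with h4 | h4
  · have := (Nat.prime_dvd_prime_iff_eq hq h1).1 h4
    omega
  · have := (Nat.prime_dvd_prime_iff_eq hq h2).1 h4
    omega

lemma cntP_le (k z w H : ℕ) (hz : 1 ≤ z) :
    (cntP k w H : ℝ) ≤ winSum (sieve2 k z) z (fun n => n * (n + 2 * k)) w H + (z : ℝ) := by
  unfold cntP
  set A := (Ioc w (w + H)).filter (fun n => n.Prime ∧ (n + 2 * k).Prime) with hA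
  have h1 : A ⊆ (A.filter (fun n => z < n)) ∪ Icc 1 z := by
    intro n hn
    rw [mem_union, mem_filter, mem_Icc]
    by_cases h : z < n
    · exact Or.inl ⟨hn, h⟩
    · right
      rw [hA, mem_filter] at hn
      exact ⟨hn.2.1.pos, not_lt.1 h⟩
  have h2 : (A.card : ℝ) ≤ ((A.filter (fun n => z < n)).card : ℝ) + z := by
    have := (card_le_card h1).trans (card_union_le _ _)
    rw [Nat.card_Icc, Nat.add_sub_cancel] at this
    exact_mod_cast this
  have h3 : ((A.filter (fun n => z < n)).card : ℝ) ≤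
      winSum (sieve2 k z) z (fun n => n * (n + 2 * k)) w H := by
    unfold winSum
    calc ((A.filter (fun n => z < n)).card : ℝ) = ∑ n ∈ A.filter (fun n => z < n), (1 : ℝ) := by simp
      _ ≤ ∑ n ∈ A.filter (fun n => z < n), maj (sieve2 k z) z (fun n => n * (n + 2 * k)) n := by
        apply sum_le_sum
        intro n hn
        rw [mem_filter, hA, mem_filter] at hn
        exact maj_ge_one _ _ _ _ hz (pair_cop hn.2 hn.1.2.1 hn.1.2.2)
      _ ≤ _ := by
        apply sum_le_sum_of_subset_of_nonneg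
        · intro n hn
          rw [mem_filter, hA, mem_filter] at hn
          exact hn.1.1
        · intro n _ _
          exact maj_nonneg _ _ _ _
  linarith

lemma cntP_le' (k z w H : ℕ) (hz : 1 ≤ z) (hw : z ≤ w) :
    (cntP k w H : ℝ) ≤ winSum (sieve2 k z) z (fun n => n * (n + 2 * k)) w H := by
  unfold cntP winSum
  set A := (Ioc w (w + H)).filter (fun n => n.Prime ∧ (n + 2 * k).Prime) with hA
  calc (A.card : ℝ) = ∑ n ∈ A, (1 : ℝ) := by simp
    _ ≤ ∑ n ∈ A, maj (sieve2 k z) z (fun n => n * (n + 2 * k)) n := by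
      apply sum_le_sum
      intro n hn
      rw [hA, mem_filter, mem_Ioc] at hn
      exact maj_ge_one _ _ _ _ hz (pair_cop (by omega) hn.2.1 hn.2.2)
    _ ≤ _ := by
      apply sum_le_sum_of_subset_of_nonneg (filter_subset _ _)
      intro n _ _
      exact maj_nonneg _ _ _ _

lemma cntP_triv (k w H : ℕ) : cntP k w H ≤ H := by
  unfold cntP
  refine (card_filter_le _ _).trans ?_
  rw [Nat.card_Ioc]
  omega

/-- Upper bound for the mean value. -/
lemma Ginv_le (k m : ℕ) (hk : 1 ≤ k) (hm : 2 ≤ m) :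
    (Gsum (sieve2 k (m ^ 2)) (m ^ 2))⁻¹ ≤
      (∏ p ∈ (2 * k).primeFactors, (1 + 6 / (p : ℝ))) / (Real.log m) ^ 2 := by
  have hlog : 0 < Real.log m := Real.log_pos (by exact_mod_cast hm)
  have hD := Dh_pos (2 * k)
  have hG := Gsum_ge 1 (2 * k) m (dvd_mul_right 2 k) (by omega) (by omega)
  have h1 : (Gsum (sieve2 k (m ^ 2)) (m ^ 2))⁻¹ ≤ ((Dh (2 * k) * Real.log m) ^ 2)⁻¹ :=
    inv_anti₀ (by positivity) hG
  refine h1.trans ?_
  rw [mul_pow, mul_inv, ← div_eq_mul_inv, ← inv_pow]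
  exact div_le_div_of_nonneg_right (Dh_inv_sq_le (2 * k)) (by positivity)

/-- The exceptional positions of the windows of length `H`. -/
noncomputable def badP (k m N H : ℕ) (δ : ℝ) : Finset ℕ :=
  (range N).filter (fun w => (H : ℝ) * (Gsum (sieve2 k (m ^ 2)) (m ^ 2))⁻¹ + δ <
    winSum (sieve2 k (m ^ 2)) (m ^ 2) (fun n => n * (n + 2 * k)) w H)

lemma badP_card (k m N H : ℕ) (δ : ℝ) (hδ : 0 < δ) (hk : 1 ≤ k) (hm : 2 ≤ m) :
    ((badP k m N H δ).card : ℝ) * δ ^ 2 ≤
      3 * (N * H + (H : ℝ) ^ 2 * (m : ℝ) ^ 8) * (1 + 4 * Real.log m) ^ 80 := by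
  have hz : 1 ≤ m ^ 2 := Nat.one_le_pow _ _ (by omega)
  have hv := window_variance_gen (sieve2 k (m ^ 2)) (m ^ 2) (fun n => n * (n + 2 * k)) hz
    (adm2 k (m ^ 2) hk) N H 80 le_rfl
  have e1 : 1 + 2 * Real.log ((m ^ 2 : ℕ) : ℝ) = 1 + 4 * Real.log m := by
    push_cast
    rw [Real.log_pow]
    push_cast
    ring
  have e2 : ((m ^ 2 : ℕ) : ℝ) ^ 4 = (m : ℝ) ^ 8 := by
    push_cast
    rw [← pow_mul]
  rw [e1, e2] at hv
  refine le_trans ?_ hv
  calc ((badP k m N H δ).card : ℝ) * δ ^ 2 = ∑ w ∈ badP k m N H δ, δ ^ 2 := by simp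
    _ ≤ ∑ w ∈ badP k m N H δ, (winSum (sieve2 k (m ^ 2)) (m ^ 2) (fun n => n * (n + 2 * k)) w H -
        H * (Gsum (sieve2 k (m ^ 2)) (m ^ 2))⁻¹) ^ 2 := by
      apply sum_le_sum
      intro w hw
      unfold badP at hw
      rw [mem_filter] at hw
      apply pow_le_pow_left₀ hδ.le
      linarith [hw.2]
    _ ≤ _ := by
      apply sum_le_sum_of_subset_of_nonneg (filter_subset _ _)
      intro w _ _
      positivity

end Pool.Agent.H.MP_711652_nt.QW
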