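import Mathlib
import Pool.Agent.H.MP_711652_nt.QW.PairAdm
import Pool.Agent.H.MP_711652_nt.QW.Maxi

set_option autoImplicit false

/-!
# Pairs: from one scale to all larger scales
-/

namespace Pool.Agent.H.MP_711652_nt.QW

open Finset BoundingSieve

lemma one_scale (k m N H0 : ℕ) (δ c : ℝ) (E0 : Finset ℕ) (hm : 1 ≤ m) (hδ : 0 ≤ δ) (hc : 0 < c)
    (hE : ∀ w < N, w ∉ E0 → m ^ 2 ≤ w ∧ w ∉ badP k m N H0 δ) (a u v : ℕ) (ha : a = u + 1 - H0)
    (hv : v ≤ N) (hav : a ≤ v)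
    (hs : c * ((E0.filter (fun i => a ≤ i ∧ i < v)).card : ℝ) ≤ (v : ℝ) - a) :
    (H0 : ℝ) * (((Ioc u v).filter (fun n => n.Prime ∧ (n + 2 * k).Prime)).card : ℝ) ≤
      H0 * H0 + ((v : ℝ) - a) * (H0 * (Gsum (sieve2 k (m ^ 2)) (m ^ 2))⁻¹ + δ) +
        H0 * (((v : ℝ) - a) / c) := by
  have hz : 1 ≤ m ^ 2 := Nat.one_le_pow _ _ (by omega)
  have h1 := avg_windows u v H0 (fun n => n.Prime ∧ (n + 2 * k).Prime)
  rw [← ha] at h1
  have h1' : (H0 : ℝ) * (((Ioc u v).filter (fun n => n.Prime ∧ (n + 2 * k).Prime)).card : ℝ) ≤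
      H0 * H0 + ∑ w ∈ Ico a v, (cntP k w H0 : ℝ) := by
    unfold cntP
    exact_mod_cast h1
  refine h1'.trans ?_
  set g := (H0 : ℝ) * (Gsum (sieve2 k (m ^ 2)) (m ^ 2))⁻¹ + δ with hg
  have hg0 : 0 ≤ g := by
    have := (Gsum_pos (s := sieve2 k (m ^ 2)) hz)
    rw [hg]; positivity
  have h2 : ∀ w ∈ Ico a v, (cntP k w H0 : ℝ) ≤ g + H0 * (if w ∈ E0 then 1 else 0) := by
    intro w hw
    rw [mem_Ico] at hw
    by_cases hwE : w ∈ E0
    · rw [if_pos hwE, mul_one]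
      have : (cntP k w H0 : ℝ) ≤ H0 := by exact_mod_cast cntP_triv k w H0
      linarith
    · rw [if_neg hwE, mul_zero, add_zero]
      obtain ⟨h3, h4⟩ := hE w (by omega) hwE
      have h5 := cntP_le' k (m ^ 2) w H0 hz h3
      refine h5.trans ?_
      unfold badP at h4
      rw [mem_filter, mem_range, not_and, not_lt] at h4
      exact h4 (by omega)
  have h3 : ∑ w ∈ Ico a v, (cntP k w H0 : ℝ) ≤ ((v : ℝ) - a) * g + H0 * (((v : ℝ) - a) / c) := by
    refine (sum_le_sum h2).trans ?_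
    rw [sum_add_distrib, sum_const, Nat.card_Ico, nsmul_eq_mul, ← mul_sum, Nat.cast_sub hav]
    have h4 : ∑ w ∈ Ico a v, (if w ∈ E0 then (1 : ℝ) else 0) =
        ((E0.filter (fun i => a ≤ i ∧ i < v)).card : ℝ) := by
      rw [← sum_filter, sum_const, nsmul_eq_mul, mul_one]
      congr 2
      ext i
      simp only [mem_filter, mem_Ico]
      tauto
    rw [h4]
    have h5 : ((E0.filter (fun i => a ≤ i ∧ i < v)).card : ℝ) ≤ ((v : ℝ) - a) / c := by
      rw [le_div_iff₀ hc]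
      linarith
    have h6 := mul_le_mul_of_nonneg_left h5 (Nat.cast_nonneg (α := ℝ) H0)
    linarith
  linarith

/-- The pair count of a window around `y`. -/
lemma prPairs_le (y H k : ℕ) : prPairs y H (2 * k) ≤
    ((Ioc (y - H - 1) (y + H)).filter (fun n => n.Prime ∧ (n + 2 * k).Prime)).card := by
  unfold prPairs
  apply card_le_card
  intro n hn
  rw [mem_filter, mem_Icc] at hn
  rw [mem_filter, mem_Ioc]
  have := hn.2.1.pos
  exact ⟨⟨by omega, hn.1.2⟩, hn.2⟩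

lemma prPairs_odd (y H h : ℕ) (hh : ¬ 2 ∣ h) : prPairs y H h ≤ 1 := by
  unfold prPairs
  have : (Icc (y - H) (y + H)).filter (fun n => n.Prime ∧ (n + h).Prime) ⊆ {2} := by
    intro n hn
    rw [mem_filter] at hn
    rw [mem_singleton]
    rcases hn.2.1.eq_two_or_odd' with h2 | h2
    · exact h2
    · exfalso
      have hodd : Odd h := by
        rw [← Nat.not_even_iff_odd, even_iff_two_dvd]; exact hh
      have heven : Even (n + h) := h2.add_odd hodd
      have h3 := (Nat.Prime.even_iff hn.2.2).1 heven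
      have h4 := hn.2.1.two_le
      have h5 : 0 < h := hodd.pos
      omega
  calc _ ≤ ({2} : Finset ℕ).card := card_le_card this
    _ = 1 := by simp

/-- Summation over the shifts. -/
lemma pairOK_of (y H : ℕ) (L : ℝ) (hL : 1 ≤ L) (c : ℝ) (hc : 1 ≤ c) (hHL : L ^ 2 ≤ H)
    (hk : ∀ k : ℕ, 1 ≤ k → (k : ℝ) ≤ 4 * L → (prPairs y H (2 * k) : ℝ) ≤
      H / L ^ 2 * (c * ∏ p ∈ (2 * k).primeFactors, (1 + 6 / (p : ℝ)))) :
    PairOK (c * Real.exp 6) L y H := by
  intro s hs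
  have hL0 : (0 : ℝ) < L ^ 2 := by positivity
  have hb0 : (1 : ℝ) ≤ H / L ^ 2 := by rw [le_div_iff₀ hL0, one_mul]; exact hHL
  have h1 : ∀ h ∈ Icc 1 s, (prPairs y H h : ℝ) ≤
      H / L ^ 2 * (c * ∏ p ∈ h.primeFactors, (1 + 6 / (p : ℝ))) := by
    intro h hh
    rw [mem_Icc] at hh
    have hprod : 1 ≤ ∏ p ∈ h.primeFactors, (1 + 6 / (p : ℝ)) := by
      have := prod_le_prod (s := h.primeFactors) (f := fun _ => (1 : ℝ))
        (g := fun p : ℕ => 1 + 6 / (p : ℝ)) (fun _ _ => zero_le_one) (fun p _ => by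
          have : (0 : ℝ) ≤ 6 / p := by positivity
          linarith)
      rwa [prod_const_one] at this
    by_cases h2 : 2 ∣ h
    · obtain ⟨k, rfl⟩ := h2
      apply hk k (by omega)
      have h3 : ((2 * k : ℕ) : ℝ) ≤ 8 * L := (by exact_mod_cast hh.2 : ((2 * k : ℕ) : ℝ) ≤ s).trans hs
      push_cast at h3
      linarith
    · have h3 : (prPairs y H h : ℝ) ≤ 1 := by exact_mod_cast prPairs_odd y H h h2
      have h4 : 1 ≤ c * ∏ p ∈ h.primeFactors, (1 + 6 / (p : ℝ)) := one_le_mul_of_one_le_of_one_le hc hprod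
      exact h3.trans (one_le_mul_of_one_le_of_one_le hb0 h4)
  refine (sum_le_sum h1).trans ?_
  rw [← mul_sum, ← mul_sum]
  have h8 := sum_prod_le s
  have hb1 : 0 ≤ (H : ℝ) / L ^ 2 := by positivity
  calc (H : ℝ) / L ^ 2 * (c * ∑ h ∈ Icc 1 s, ∏ p ∈ h.primeFactors, (1 + 6 / (p : ℝ))) ≤
      (H : ℝ) / L ^ 2 * (c * (s * Real.exp 6)) := by gcongr
    _ = c * Real.exp 6 * s * H / L ^ 2 := by ring

end Pool.Agent.H.MP_711652_nt.QW
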