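import Mathlib
import Pool.Agent.H.MP_711652_nt.QW.PairOne

set_option autoImplicit false

namespace Pool.Agent.H.MP_711652_nt.QW

open Finset BoundingSieve Filter

/-- The integer part of the 64-th root. -/
def rt (X : ℕ) : ℕ := Nat.findGreatest (fun m => m ^ 64 ≤ X) X

lemma rt_le (X : ℕ) : (rt X) ^ 64 ≤ X := by
  unfold rt
  have h := Nat.findGreatest_spec (P := fun m => m ^ 64 ≤ X) (m := 0) (n := X) (Nat.zero_le _)
    (by simp)
  exact h

lemma lt_rt (X : ℕ) : X < (rt X + 1) ^ 64 := by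
  by_contra hcon
  have hle := not_lt.1 hcon
  have h1 : rt X + 1 ≤ X := (Nat.le_self_pow (by norm_num) _).trans hle
  have h2 := Nat.findGreatest_is_greatest (P := fun m => m ^ 64 ≤ X) (n := X)
    (k := rt X + 1) (Nat.lt_succ_self _) h1
  exact h2 hle

/-- powers of the logarithm are small -/
lemma log_pow_le (n : ℕ) : ∃ X₀ : ℕ, ∀ X : ℕ, X₀ ≤ X → (Real.log X) ^ n ≤ X := by
  have h1 := (Real.isLittleO_pow_log_id_atTop (n := n)).bound (c := 1) one_pos
  have h2 := (tendsto_natCast_atTop_atTop (R := ℝ)).eventually h1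
  obtain ⟨X₀, hX₀⟩ := eventually_atTop.1 h2
  refine ⟨X₀, fun X hX => ?_⟩
  have h3 := hX₀ X hX
  rw [one_mul, Real.norm_eq_abs, Real.norm_eq_abs] at h3
  simp only [id] at h3
  have h4 : |(X : ℝ)| = X := abs_of_nonneg (Nat.cast_nonneg X)
  rw [h4] at h3
  exact (le_abs_self _).trans h3

lemma log_ge (c : ℝ) : ∃ X₀ : ℕ, ∀ X : ℕ, X₀ ≤ X → c ≤ Real.log X := by
  have h2 := (Real.tendsto_log_atTop.comp (tendsto_natCast_atTop_atTop (R := ℝ))).eventually_ge_atTop c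
  obtain ⟨X₀, hX₀⟩ := eventually_atTop.1 h2
  exact ⟨X₀, fun X hX => hX₀ X hX⟩

lemma log_rt (X : ℕ) (hX : 1 ≤ X) (hL : 3000 ≤ Real.log X) :
    2 ≤ rt X ∧ Real.log X / 65 ≤ Real.log (rt X) ∧ 64 * Real.log (rt X) ≤ Real.log X := by
  have hX0 : (0 : ℝ) < X := by exact_mod_cast hX
  have hl2 : Real.log 2 < 0.7 := by
    have := Real.log_two_lt_d9; linarith
  have h1 : Real.log X ≤ 64 * Real.log ((rt X : ℝ) + 1) := by
    have h2 : (X : ℝ) ≤ ((rt X : ℝ) + 1) ^ 64 := by exact_mod_cast (lt_rt X).le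
    calc Real.log X ≤ Real.log (((rt X : ℝ) + 1) ^ 64) := Real.log_le_log hX0 h2
      _ = _ := by rw [Real.log_pow]; norm_num
  have h2 : 2 ≤ rt X := by
    by_contra hcon
    have h3 : (rt X : ℝ) + 1 ≤ 2 := by
      have : rt X ≤ 1 := by omega
      have : (rt X : ℝ) ≤ 1 := by exact_mod_cast this
      linarith
    have h4 : Real.log ((rt X : ℝ) + 1) ≤ Real.log 2 := Real.log_le_log (by positivity) h3
    linarith
  have h20 : (2 : ℝ) ≤ rt X := by exact_mod_cast h2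
  have h21 : (0 : ℝ) < rt X := by linarith
  have h3 : Real.log ((rt X : ℝ) + 1) ≤ Real.log (rt X) + Real.log 2 := by
    rw [← Real.log_mul h21.ne' (by norm_num)]
    apply Real.log_le_log (by positivity)
    linarith
  refine ⟨h2, by linarith, ?_⟩
  have h5 : ((rt X : ℝ)) ^ 64 ≤ X := by exact_mod_cast rt_le X
  calc 64 * Real.log (rt X) = Real.log ((rt X : ℝ) ^ 64) := by rw [Real.log_pow]; norm_num
    _ ≤ Real.log X := Real.log_le_log (by positivity) h5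

/-- The constant. -/
noncomputable def Cp : ℝ := 30000 * Real.exp 6

lemma rt_pow_le (X n j : ℕ) (T K : ℝ) (hT : 1 ≤ T) (hK : 1 ≤ K) (hj : j ≤ 8)
    (h : (K * T ^ n) ^ 8 ≤ X) (hX : 1 ≤ X) : K * T ^ n * (rt X : ℝ) ^ j ≤ X := by
  have hX0 : (1 : ℝ) ≤ X := by exact_mod_cast hX
  have h5 : ((rt X : ℝ)) ^ 64 ≤ X := by exact_mod_cast rt_le X
  have h0 : 0 ≤ K * T ^ n * (rt X : ℝ) ^ j := by positivity
  by_cases hr : rt X = 0
  · have : K * T ^ n ≤ X := by
      by_contra hcon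
      have h1 : (1 : ℝ) ≤ K * T ^ n := one_le_mul_of_one_le_of_one_le hK (one_le_pow₀ hT)
      have h2 : K * T ^ n ≤ (K * T ^ n) ^ 8 := le_self_pow₀ h1 (by norm_num)
      linarith
    rcases Nat.eq_zero_or_pos j with h1 | h1
    · subst h1; simpa using this
    · rw [hr]
      have : ((0 : ℕ) : ℝ) ^ j = 0 := by
        rw [Nat.cast_zero]; exact zero_pow h1.ne'
      rw [this, mul_zero]
      linarith
  · have hr1 : (1 : ℝ) ≤ rt X := by exact_mod_cast Nat.pos_of_ne_zero hr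
    by_contra hcon
    rw [not_le] at hcon
    have h1 : (X : ℝ) ^ 8 < (K * T ^ n * (rt X : ℝ) ^ j) ^ 8 :=
      pow_lt_pow_left₀ hcon (by positivity) (by norm_num)
    have h2 : (K * T ^ n * (rt X : ℝ) ^ j) ^ 8 ≤ X * X := by
      rw [mul_pow]
      apply mul_le_mul h _ (by positivity) (by positivity)
      calc ((rt X : ℝ) ^ j) ^ 8 = (rt X : ℝ) ^ (j * 8) := by rw [pow_mul]
        _ ≤ (rt X : ℝ) ^ 64 := pow_le_pow_right₀ hr1 (by omega)
        _ ≤ X := h5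
    have h3 : (X : ℝ) * X ≤ (X : ℝ) ^ 8 := by
      calc (X : ℝ) * X = (X : ℝ) ^ 2 := by ring
        _ ≤ (X : ℝ) ^ 8 := pow_le_pow_right₀ hX0 (by norm_num)
    linarith

lemma prod_ge_one (h : ℕ) : 1 ≤ ∏ p ∈ h.primeFactors, (1 + 6 / (p : ℝ)) := by
  have := prod_le_prod (s := h.primeFactors) (f := fun _ => (1 : ℝ))
    (g := fun p : ℕ => 1 + 6 / (p : ℝ)) (fun _ _ => zero_le_one) (fun p _ => by
      have : (0 : ℝ) ≤ 6 / p := by positivity
      linarith)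
  rwa [prod_const_one] at this

lemma Ginv_le' (X k : ℕ) (hX : 1 ≤ X) (hL : 3000 ≤ Real.log X) (hk : 1 ≤ k) :
    (Gsum (sieve2 k ((rt X) ^ 2)) ((rt X) ^ 2))⁻¹ ≤
      4225 * (∏ p ∈ (2 * k).primeFactors, (1 + 6 / (p : ℝ))) / (Real.log X) ^ 2 := by
  obtain ⟨h1, h2, -⟩ := log_rt X hX hL
  refine (Ginv_le k (rt X) hk h1).trans ?_
  have hP := prod_ge_one (2 * k)
  set P := ∏ p ∈ (2 * k).primeFactors, (1 + 6 / (p : ℝ)) with hPd
  have h3 : (0 : ℝ) < Real.log X := by linarith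
  have h4 : (Real.log X / 65) ^ 2 ≤ (Real.log (rt X)) ^ 2 :=
    pow_le_pow_left₀ (by positivity) h2 2
  calc P / (Real.log (rt X)) ^ 2 ≤ P / (Real.log X / 65) ^ 2 :=
        div_le_div_of_nonneg_left (by linarith) (by positivity) h4
    _ = 4225 * P / (Real.log X) ^ 2 := by
        field_simp
        norm_num

lemma case_large (X y H k : ℕ) (hX : 1 ≤ X) (hL : 3000 ≤ Real.log X) (hk : 1 ≤ k)
    (hp : ((Real.log X) ^ 70) ^ 8 ≤ X) (hH : X ≤ H ^ 2) :
    (prPairs y H (2 * k) : ℝ) ≤ H / (Real.log X) ^ 2 *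
      (30000 * ∏ p ∈ (2 * k).primeFactors, (1 + 6 / (p : ℝ))) := by
  have hG := Ginv_le' X k hX hL hk
  obtain ⟨hm2, -, hm3⟩ := log_rt X hX hL
  have hP := prod_ge_one (2 * k)
  set P := ∏ p ∈ (2 * k).primeFactors, (1 + 6 / (p : ℝ)) with hPd
  set L := Real.log X with hLd
  set m := rt X with hm
  have hL1 : (1 : ℝ) ≤ L := by linarith
  have hz : 1 ≤ m ^ 2 := Nat.one_le_pow _ _ (by omega)
  have hH0 : 1 ≤ H := by
    by_contra h
    have : H = 0 := by omega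
    subst this
    omega
  have hH1 : (1 : ℝ) ≤ H := by exact_mod_cast hH0
  have hX1 : (1 : ℝ) ≤ X := by exact_mod_cast hX
  have h1 : (prPairs y H (2 * k) : ℝ) ≤ (cntP k (y - H - 1) ((y + H) - (y - H - 1)) : ℝ) := by
    have h2 := prPairs_le y H k
    unfold cntP
    have h3 : (y - H - 1) + ((y + H) - (y - H - 1)) = y + H := by omega
    rw [h3]
    exact_mod_cast h2
  set D := (y + H) - (y - H - 1) with hD
  have hD1 : (D : ℝ) ≤ 3 * H := by
    have : D ≤ 3 * H := by omega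
    exact_mod_cast this
  have h4 := cntP_le k (m ^ 2) (y - H - 1) D hz
  have h5 := (abs_le.1 (window_pointwise (sieve2 k (m ^ 2)) (m ^ 2) (fun n => n * (n + 2 * k)) hz
    (adm2 k (m ^ 2) hk) (y - H - 1) D)).2
  have e1 : 1 + 2 * Real.log ((m ^ 2 : ℕ) : ℝ) = 1 + 4 * Real.log m := by
    push_cast
    rw [Real.log_pow]
    push_cast
    ring
  have e2 : ((m ^ 2 : ℕ) : ℝ) ^ 2 = (m : ℝ) ^ 4 := by
    push_cast
    rw [← pow_mul]
  have hm20 : (2 : ℝ) ≤ m := by exact_mod_cast hm2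
  have hlogm : 0 ≤ Real.log m := Real.log_nonneg (by linarith)
  rw [e1, e2] at h5
  have h6 : (1 + 4 * Real.log m) ^ 32 ≤ L ^ 32 := by
    apply pow_le_pow_left₀ (by linarith)
    linarith
  have h7 : (m : ℝ) ^ 4 * (1 + 4 * Real.log m) ^ 32 ≤ (m : ℝ) ^ 4 * L ^ 32 :=
    mul_le_mul_of_nonneg_left h6 (by positivity)
  have h8 : ((m ^ 2 : ℕ) : ℝ) ≤ (m : ℝ) ^ 4 * L ^ 32 := by
    push_cast
    calc (m : ℝ) ^ 2 ≤ (m : ℝ) ^ 4 := pow_le_pow_right₀ (by linarith) (by norm_num)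
      _ = (m : ℝ) ^ 4 * 1 := (mul_one _).symm
      _ ≤ (m : ℝ) ^ 4 * L ^ 32 := by
        apply mul_le_mul_of_nonneg_left _ (by positivity)
        exact one_le_pow₀ hL1
  have h9 : (m : ℝ) ^ 4 * L ^ 35 ≤ H := by
    have h10 := rt_pow_le X 70 8 L 1 hL1 le_rfl le_rfl (by rw [one_mul]; exact hp) hX
    rw [← hm, one_mul] at h10
    have h11 : ((m : ℝ) ^ 4 * L ^ 35) ^ 2 ≤ (H : ℝ) ^ 2 := by
      have h12 : (X : ℝ) ≤ (H : ℝ) ^ 2 := by exact_mod_cast hH
      calc ((m : ℝ) ^ 4 * L ^ 35) ^ 2 = L ^ 70 * (m : ℝ) ^ 8 := by ring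
        _ ≤ (X : ℝ) := h10
        _ ≤ _ := h12
    exact le_of_sq_le_sq h11 (by positivity)
  have h10 : 2 * ((m : ℝ) ^ 4 * L ^ 32) ≤ H / L ^ 2 := by
    rw [le_div_iff₀ (by positivity)]
    calc 2 * ((m : ℝ) ^ 4 * L ^ 32) * L ^ 2 = 2 * ((m : ℝ) ^ 4 * L ^ 34) := by ring
      _ ≤ L * ((m : ℝ) ^ 4 * L ^ 34) := by
        apply mul_le_mul_of_nonneg_right _ (by positivity)
        linarith
      _ = (m : ℝ) ^ 4 * L ^ 35 := by ring
      _ ≤ H := h9
  have h11 : (D : ℝ) * (Gsum (sieve2 k (m ^ 2)) (m ^ 2))⁻¹ ≤ 3 * H * (4225 * P / L ^ 2) := by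
    have hG0 : 0 ≤ (Gsum (sieve2 k (m ^ 2)) (m ^ 2))⁻¹ := by
      have := (Gsum_pos (s := sieve2 k (m ^ 2)) hz)
      positivity
    exact mul_le_mul hD1 hG hG0 (by positivity)
  have h12 : (H : ℝ) / L ^ 2 * 1 ≤ (H : ℝ) / L ^ 2 * P :=
    mul_le_mul_of_nonneg_left hP (by positivity)
  have h13 : 0 ≤ (H : ℝ) / L ^ 2 * P := by positivity
  calc (prPairs y H (2 * k) : ℝ) ≤ 3 * H * (4225 * P / L ^ 2) + H / L ^ 2 := by linarith
    _ = 12675 * (H / L ^ 2 * P) + H / L ^ 2 * 1 := by ring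
    _ ≤ 12675 * (H / L ^ 2 * P) + H / L ^ 2 * P := by linarith
    _ ≤ 30000 * (H / L ^ 2 * P) := by linarith
    _ = _ := by ring

lemma case_small (X y H k H0 b : ℕ) (E0 : Finset ℕ) (hX : 1 ≤ X) (hL : 3000 ≤ Real.log X) (hk : 1 ≤ k)
    (hH0 : 1 ≤ H0) (hH0b : (H0 : ℝ) ≤ (Real.log X) ^ (b + 1)) (hHb : (Real.log X) ^ (b + 3) ≤ H)
    (hyX : y < X) (hH : H ≤ 64 * X)
    (hE : ∀ w < 70 * X, w ∉ E0 → (rt X) ^ 2 ≤ w ∧
      w ∉ badP k (rt X) (70 * X) H0 (H0 / (Real.log X) ^ 2))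
    (hs : ∀ a b : ℕ, a ≤ y → y ≤ b → b ≤ 70 * X →
      (Real.log X) ^ 4 * ((E0.filter (fun i => a ≤ i ∧ i < b)).card : ℝ) ≤ (b : ℝ) - a) :
    (prPairs y H (2 * k) : ℝ) ≤ H / (Real.log X) ^ 2 *
      (30000 * ∏ p ∈ (2 * k).primeFactors, (1 + 6 / (p : ℝ))) := by
  have hG := Ginv_le' X k hX hL hk
  obtain ⟨hm2, -, hm3⟩ := log_rt X hX hL
  have hP := prod_ge_one (2 * k)
  set P := ∏ p ∈ (2 * k).primeFactors, (1 + 6 / (p : ℝ)) with hPd
  set L := Real.log X with hLd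
  set m := rt X with hm
  have hL1 : (1 : ℝ) ≤ L := by linarith
  have hL0 : (0 : ℝ) < L := by linarith
  have h1 : (prPairs y H (2 * k) : ℝ) ≤
      (((Ioc (y - H - 1) (y + H)).filter (fun n => n.Prime ∧ (n + 2 * k).Prime)).card : ℝ) := by
    exact_mod_cast prPairs_le y H k
  set u := y - H - 1 with hu
  set v := y + H with hv
  set a := u + 1 - H0 with ha
  have hay : a ≤ y := by omega
  have hyv : y ≤ v := by omega
  have hvN : v ≤ 70 * X := by omega
  have h2 := one_scale k m (70 * X) H0 (H0 / L ^ 2) (L ^ 4) E0 (by omega) (by positivity)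
    (by positivity) hE a u v ha hvN (hay.trans hyv) (hs a v hay hyv hvN)
  set n := ((Ioc u v).filter (fun n => n.Prime ∧ (n + 2 * k).Prime)).card with hn
  have hH00 : (0 : ℝ) < H0 := by exact_mod_cast hH0
  have hH1 : (H0 : ℝ) ≤ H / L ^ 2 := by
    rw [le_div_iff₀ (by positivity)]
    calc (H0 : ℝ) * L ^ 2 ≤ L ^ (b + 1) * L ^ 2 := by gcongr
      _ = L ^ (b + 3) := by rw [← pow_add]
      _ ≤ H := hHb
  have hHL : (H : ℝ) / L ^ 2 ≤ H := div_le_self (Nat.cast_nonneg H) (one_le_pow₀ hL1)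
  have h3 : (v : ℝ) - a ≤ 3 * H := by
    have h4 : v ≤ a + (2 * H + H0) := by omega
    have h5 : (v : ℝ) ≤ a + (2 * H + H0) := by exact_mod_cast h4
    linarith
  have h30 : 0 ≤ (v : ℝ) - a := by
    have : (a : ℝ) ≤ v := by exact_mod_cast hay.trans hyv
    linarith
  set G := (Gsum (sieve2 k (m ^ 2)) (m ^ 2))⁻¹ with hGd
  have hz : 1 ≤ m ^ 2 := Nat.one_le_pow _ _ (by omega)
  have hG0 : 0 ≤ G := by
    have := (Gsum_pos (s := sieve2 k (m ^ 2)) hz)
    rw [hGd]; positivity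
  have h4 : (H0 : ℝ) * n ≤ H0 * (H0 + 3 * H * (G + 1 / L ^ 2) + 3 * H / L ^ 4) := by
    calc (H0 : ℝ) * n ≤ H0 * H0 + ((v : ℝ) - a) * (H0 * G + H0 / L ^ 2) +
        H0 * (((v : ℝ) - a) / L ^ 4) := h2
      _ ≤ H0 * H0 + (3 * H) * (H0 * G + H0 / L ^ 2) + H0 * ((3 * H) / L ^ 4) := by gcongr
      _ = _ := by ring
  have h5 : (n : ℝ) ≤ H0 + 3 * H * (G + 1 / L ^ 2) + 3 * H / L ^ 4 := le_of_mul_le_mul_left h4 hH00
  have h6 : 3 * (H : ℝ) / L ^ 4 ≤ 3 * (H / L ^ 2) := by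
    rw [← mul_div_assoc]
    apply div_le_div_of_nonneg_left (by positivity) (by positivity)
    exact pow_le_pow_right₀ hL1 (by norm_num)
  have h7 : 3 * (H : ℝ) * (G + 1 / L ^ 2) ≤ 3 * H * (4225 * P / L ^ 2 + 1 / L ^ 2) := by gcongr
  have h12 : (H : ℝ) / L ^ 2 * 1 ≤ (H : ℝ) / L ^ 2 * P :=
    mul_le_mul_of_nonneg_left hP (by positivity)
  have h13 : 0 ≤ (H : ℝ) / L ^ 2 * P := by positivity
  calc (prPairs y H (2 * k) : ℝ) ≤ n := h1
    _ ≤ H / L ^ 2 + 3 * H * (4225 * P / L ^ 2 + 1 / L ^ 2) + 3 * (H / L ^ 2) := by linarith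
    _ = 12675 * (H / L ^ 2 * P) + 7 * (H / L ^ 2 * 1) := by ring
    _ ≤ 12675 * (H / L ^ 2 * P) + 7 * (H / L ^ 2 * P) := by linarith
    _ ≤ 30000 * (H / L ^ 2 * P) := by linarith
    _ = _ := by ring

/-- **Pair sieve in almost all windows.** -/
theorem pairs_windows : ∃ C : ℝ, 0 < C ∧ ∀ A : ℕ, ∃ B X₀ : ℕ, ∀ X : ℕ, X₀ ≤ X →
    ∃ E : Finset ℕ, (E.card : ℝ) ≤ X / (Real.log X) ^ A ∧ ∀ y < X, ∀ H : ℕ, H ≤ 64 * X →
    ((y ∉ E ∧ (Real.log X) ^ B ≤ H) ∨ X ≤ H ^ 2) → PairOK C (Real.log X) y H := by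
  classical
  refine ⟨30000 * Real.exp 6, by positivity, ?_⟩
  intro A
  obtain ⟨X1, hX1⟩ := log_ge 3000
  obtain ⟨X2, hX2⟩ := log_pow_le ((A + 300) * 8)
  refine ⟨A + 103, X1 + X2 + 1, ?_⟩
  intro X hXX
  have hX : 1 ≤ X := by omega
  have hL := hX1 X (by omega)
  have hlog := hX2 X (by omega)
  obtain ⟨hm2, -, hm3⟩ := log_rt X hX hL
  set L := Real.log X with hLd
  set m := rt X with hm
  have hX0 : (1 : ℝ) ≤ X := by exact_mod_cast hX
  have hL1 : (1 : ℝ) ≤ L := by linarith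
  have hL0 : (0 : ℝ) < L := by linarith
  have hm20 : (2 : ℝ) ≤ m := by exact_mod_cast hm2
  have hlogm : 0 ≤ Real.log m := Real.log_nonneg (by linarith)
  have hp : ∀ n : ℕ, n ≤ A + 300 → (L ^ n) ^ 8 ≤ X := by
    intro n hn
    rw [← pow_mul]
    exact (pow_le_pow_right₀ hL1 (by omega)).trans hlog
  have hmp : ∀ n j : ℕ, n ≤ A + 300 → j ≤ 8 → L ^ n * (m : ℝ) ^ j ≤ X := by
    intro n j hn hj
    have := rt_pow_le X n j L 1 hL1 le_rfl hj (by rw [one_mul]; exact hp n hn) hX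
    rwa [one_mul] at this
  set H0 := ⌈L ^ (A + 100)⌉₊ with hH0
  have hH0a : L ^ (A + 100) ≤ H0 := Nat.le_ceil _
  have hH0b : (H0 : ℝ) ≤ 2 * L ^ (A + 100) := by
    have h1 := (Nat.ceil_lt_add_one (show 0 ≤ L ^ (A + 100) by positivity)).le
    have h2 : 1 ≤ L ^ (A + 100) := one_le_pow₀ hL1
    rw [← hH0] at h1
    linarith
  have hH00 : (1 : ℝ) ≤ H0 := (one_le_pow₀ hL1).trans hH0a
  have hH01 : 1 ≤ H0 := by exact_mod_cast hH00
  set δ := (H0 : ℝ) / L ^ 2 with hδ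
  have hδ0 : 0 < δ := by positivity
  set K := ⌊4 * L⌋₊ with hK
  set E0 := (Icc 1 K).biUnion (fun k => badP k m (70 * X) H0 δ) ∪ range (m ^ 2) with hE0
  -- size of each bad set
  have hbad : ∀ k ∈ Icc 1 K, ((badP k m (70 * X) H0 δ).card : ℝ) ≤ X / L ^ (A + 14) := by
    intro k hk
    rw [mem_Icc] at hk
    have h1 := badP_card k m (70 * X) H0 δ hδ0 hk.1 hm2
    have h2 : (1 + 4 * Real.log m) ^ 80 ≤ L ^ 80 := by
      apply pow_le_pow_left₀ (by linarith)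
      linarith
    set b := ((badP k m (70 * X) H0 δ).card : ℝ) with hb
    have h3 : b * δ ^ 2 ≤ 3 * (((70 * X : ℕ) : ℝ) * H0 + (H0 : ℝ) ^ 2 * (m : ℝ) ^ 8) * L ^ 80 :=
      h1.trans (mul_le_mul_of_nonneg_left h2 (by positivity))
    have h4 : b ≤ (210 * X / H0 + 3 * (m : ℝ) ^ 8) * L ^ 84 := by
      have h5 : b * δ ^ 2 ≤ ((210 * X / H0 + 3 * (m : ℝ) ^ 8) * L ^ 84) * δ ^ 2 := by
        refine h3.trans (le_of_eq ?_)
        rw [hδ]
        push_cast
        field_simp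
        ring
      exact le_of_mul_le_mul_right h5 (by positivity)
    have h6 : (m : ℝ) ^ 8 ≤ X / L ^ (A + 200) := by
      rw [le_div_iff₀ (by positivity), mul_comm]
      exact hmp (A + 200) 8 (by omega) le_rfl
    have h7 : 210 * (X : ℝ) / H0 ≤ 210 * X / L ^ (A + 100) :=
      div_le_div_of_nonneg_left (by positivity) (by positivity) hH0a
    have h8 : (X : ℝ) / L ^ (A + 200) ≤ X / L ^ (A + 100) :=
      div_le_div_of_nonneg_left (by positivity) (by positivity) (pow_le_pow_right₀ hL1 (by omega))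
    calc b ≤ (210 * X / H0 + 3 * (m : ℝ) ^ 8) * L ^ 84 := h4
      _ ≤ (210 * X / L ^ (A + 100) + 3 * (X / L ^ (A + 100))) * L ^ 84 := by
        apply mul_le_mul_of_nonneg_right _ (by positivity)
        linarith
      _ = 213 * (X / L ^ (A + 16)) := by
        have e : L ^ (A + 100) = L ^ (A + 16) * L ^ 84 := by rw [← pow_add]
        rw [e]
        field_simp
        ring
      _ ≤ L * (X / L ^ (A + 16)) := by
        apply mul_le_mul_of_nonneg_right _ (by positivity)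
        linarith
      _ = X / L ^ (A + 15) := by
        have e : L ^ (A + 16) = L ^ (A + 15) * L := by rw [← pow_succ]
        rw [e]
        field_simp
      _ ≤ X / L ^ (A + 14) :=
        div_le_div_of_nonneg_left (by positivity) (by positivity) (pow_le_pow_right₀ hL1 (by omega))
  have hE0c : (E0.card : ℝ) ≤ 2 * (X / L ^ (A + 10)) := by
    have h1 : (E0.card : ℝ) ≤ (∑ k ∈ Icc 1 K, ((badP k m (70 * X) H0 δ).card : ℝ)) + (m : ℝ) ^ 2 := by
      have h2 := card_union_le ((Icc 1 K).biUnion (fun k => badP k m (70 * X) H0 δ)) (range (m ^ 2))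
      have h3 := card_biUnion_le (s := Icc 1 K) (t := fun k => badP k m (70 * X) H0 δ)
      rw [card_range] at h2
      have h4 := h2.trans (Nat.add_le_add_right h3 (m ^ 2))
      exact_mod_cast h4
    have h2 : ∑ k ∈ Icc 1 K, ((badP k m (70 * X) H0 δ).card : ℝ) ≤ X / L ^ (A + 10) := by
      calc _ ≤ ∑ k ∈ Icc 1 K, X / L ^ (A + 14) := sum_le_sum hbad
        _ = K * (X / L ^ (A + 14)) := by simp
        _ ≤ (L ^ 2) * (X / L ^ (A + 14)) := by
          apply mul_le_mul_of_nonneg_right _ (by positivity)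
          have h5 : (K : ℝ) ≤ 4 * L := Nat.floor_le (by positivity)
          nlinarith
        _ = X / L ^ (A + 12) := by
          have e : L ^ (A + 14) = L ^ (A + 12) * L ^ 2 := by rw [← pow_add]
          rw [e]
          field_simp
        _ ≤ X / L ^ (A + 10) :=
          div_le_div_of_nonneg_left (by positivity) (by positivity) (pow_le_pow_right₀ hL1 (by omega))
    have h3 : (m : ℝ) ^ 2 ≤ X / L ^ (A + 10) := by
      rw [le_div_iff₀ (by positivity), mul_comm]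
      exact hmp (A + 10) 2 (by omega) (by omega)
    linarith
  obtain ⟨E, -, hEc, hEs⟩ := sparse_max E0 (L ^ 4) (by positivity) (70 * X)
  refine ⟨E, ?_, ?_⟩
  · calc (E.card : ℝ) ≤ 2 * L ^ 4 * E0.card := hEc
      _ ≤ 2 * L ^ 4 * (2 * (X / L ^ (A + 10))) := by gcongr
      _ = 4 * (X / L ^ (A + 6)) := by
        have e : L ^ (A + 10) = L ^ (A + 6) * L ^ 4 := by rw [← pow_add]
        rw [e]
        field_simp
        ring
      _ ≤ L * (X / L ^ (A + 6)) := by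
        apply mul_le_mul_of_nonneg_right _ (by positivity)
        linarith
      _ = X / L ^ (A + 5) := by
        have e : L ^ (A + 6) = L ^ (A + 5) * L := by rw [← pow_succ]
        rw [e]
        field_simp
      _ ≤ X / L ^ A :=
        div_le_div_of_nonneg_left (by positivity) (by positivity) (pow_le_pow_right₀ hL1 (by omega))
  · intro y hy H hH hcase
    have hLH : L ^ 2 ≤ H := by
      rcases hcase with ⟨-, h2⟩ | h2
      · exact (pow_le_pow_right₀ hL1 (by omega)).trans h2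
      · have h3 : (L ^ 2) ^ 2 ≤ (H : ℝ) ^ 2 := by
          have h4 : (X : ℝ) ≤ (H : ℝ) ^ 2 := by exact_mod_cast h2
          have h5 := hp 1 (by omega)
          calc (L ^ 2) ^ 2 = L ^ 4 := by ring
            _ ≤ L ^ 8 := pow_le_pow_right₀ hL1 (by norm_num)
            _ = (L ^ 1) ^ 8 := by ring
            _ ≤ (X : ℝ) := h5
            _ ≤ _ := h4
        exact le_of_sq_le_sq h3 (by positivity)
    apply pairOK_of y H L hL1 30000 (by norm_num) hLH
    intro k hk1 hk2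
    rcases hcase with ⟨h1, h2⟩ | h2
    · apply case_small X y H k H0 (A + 100) E0 hX hL hk1 hH01 ?_ h2 hy hH ?_ ?_
      · calc (H0 : ℝ) ≤ 2 * L ^ (A + 100) := hH0b
          _ ≤ L * L ^ (A + 100) := by
            apply mul_le_mul_of_nonneg_right _ (by positivity)
            linarith
          _ = L ^ (A + 100 + 1) := (pow_succ' L (A + 100)).symm
      · intro w hw hwE
        rw [hE0, mem_union, not_or, mem_biUnion, mem_range, not_lt] at hwE
        refine ⟨hwE.2, ?_⟩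
        intro h3
        apply hwE.1
        refine ⟨k, ?_, h3⟩
        rw [mem_Icc]
        exact ⟨hk1, Nat.le_floor hk2⟩
      · intro a b ha hb hbN
        exact hEs y (by omega) h1 a b ha hb hbN
    · exact case_large X y H k hX hL hk1 (hp 70 (by omega)) h2

end Pool.Agent.H.MP_711652_nt.QW
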