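import Mathlib
import Pool.Agent.H.MP_711652_nt.QW.S2S
import Pool.Agent.H.MP_711652_nt.QW.S1B

set_option autoImplicit false

namespace Pool.Agent.H.MP_711652_nt.QW

open Finset

/-- The windows in which the pair bound may be used. -/
theorem pairs_use : ∃ C : ℝ, 0 < C ∧ ∀ A : ℕ, ∃ B X₀ : ℕ, ∀ X : ℕ, X₀ ≤ X →
    ∃ E : Finset ℕ, (E.card : ℝ) ≤ X / (Real.log X) ^ A ∧ ∀ y < X, ∀ H : ℕ, H ≤ X →
    ((y ∉ E ∧ (Real.log X) ^ B ≤ H) ∨ X ≤ H ^ 2) → (Real.log X) ^ 2 ≤ H ∧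
    PairOK C (Real.log X) y (16 * H) ∧ PairOK C (Real.log X) y (64 * H) := by
  obtain ⟨C, hC, h⟩ := pairs_windows
  refine ⟨C, hC, fun A => ?_⟩
  obtain ⟨B, X₀, hX₀⟩ := h A
  obtain ⟨X₁, hX₁⟩ := Filter.eventually_atTop.1 ((ev_log_ge 1).and
    (ev_log_pow_rpow 4 1 one_pos))
  refine ⟨max B 2, max X₀ X₁, fun X hX => ?_⟩
  obtain ⟨hL1, hL4⟩ := hX₁ X (le_trans (le_max_right _ _) hX)
  obtain ⟨E, hE, h2⟩ := hX₀ X (le_trans (le_max_left _ _) hX)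
  refine ⟨E, hE, fun y hy H hH hyp => ?_⟩
  rw [Real.rpow_one] at hL4
  have hL0 : 0 ≤ Real.log X := by linarith
  have hHR : (0 : ℝ) ≤ H := Nat.cast_nonneg _
  have h3 : (Real.log X) ^ 2 ≤ H := by
    rcases hyp with ⟨-, h3⟩ | h3
    · exact (pow_le_pow_right₀ hL1 (le_max_right _ _)).trans h3
    · have h4 : (X : ℝ) ≤ (H : ℝ) ^ 2 := by exact_mod_cast h3
      have h5 : ((Real.log X) ^ 2) ^ 2 ≤ (H : ℝ) ^ 2 := by
        rw [← pow_mul]
        exact hL4.trans h4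
      exact le_of_pow_le_pow_left₀ (by norm_num) hHR h5
  have h4 : ∀ c : ℕ, 1 ≤ c → ((y ∉ E ∧ (Real.log X) ^ B ≤ ((c * H : ℕ) : ℝ)) ∨
      X ≤ (c * H) ^ 2) := by
    intro c hc
    have h5 : H ≤ c * H := Nat.le_mul_of_pos_left H hc
    rcases hyp with ⟨h6, h7⟩ | h6
    · left
      refine ⟨h6, ?_⟩
      have h8 : (H : ℝ) ≤ ((c * H : ℕ) : ℝ) := by exact_mod_cast h5
      exact (pow_le_pow_right₀ hL1 (le_max_left _ _)).trans (h7.trans h8)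
    · right
      exact h6.trans (Nat.pow_le_pow_left h5 2)
  exact ⟨h3, h2 y hy (16 * H) (by omega) (h4 16 (by norm_num)),
    h2 y hy (64 * H) (by omega) (h4 64 (by norm_num))⟩

/-- Union of two exceptional sets. -/
lemma union_card (X A : ℕ) (E1 E2 : Finset ℕ) (hL : 2 ≤ Real.log X)
    (h1 : (E1.card : ℝ) ≤ X / (Real.log X) ^ (A + 1))
    (h2 : (E2.card : ℝ) ≤ X / (Real.log X) ^ (A + 1)) :
    ((E1 ∪ E2).card : ℝ) ≤ X / (Real.log X) ^ A := by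
  have h3 : ((E1 ∪ E2).card : ℝ) ≤ E1.card + E2.card := by exact_mod_cast card_union_le _ _
  have h4 : (X : ℝ) / (Real.log X) ^ (A + 1) ≤ X / (Real.log X) ^ A / 2 := by
    rw [div_div, pow_succ]
    apply div_le_div_of_nonneg_left (Nat.cast_nonneg _) (by positivity)
    exact mul_le_mul_of_nonneg_left hL (by positivity)
  linarith

end Pool.Agent.H.MP_711652_nt.QW
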