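import Mathlib
import Pool.Agent.H.MP_711652_nt.QW.S2S

set_option autoImplicit false

namespace Pool.Agent.H.MP_711652_nt.QW

open Finset BoundingSieve Filter

/-- The integer part of the `N`-th root. -/
def rtN (N X : ℕ) : ℕ := Nat.findGreatest (fun m => m ^ N ≤ X) X

lemma rtN_le (N X : ℕ) (hN : 1 ≤ N) : (rtN N X) ^ N ≤ X := by
  unfold rtN
  have h := Nat.findGreatest_spec (P := fun m => m ^ N ≤ X) (m := 0) (n := X) (Nat.zero_le _)
    (by
      have : (0 : ℕ) ^ N = 0 := zero_pow (by omega)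
      simp only [this]
      exact Nat.zero_le _)
  exact h

lemma lt_rtN (N X : ℕ) (hN : 1 ≤ N) : X < (rtN N X + 1) ^ N := by
  by_contra hcon
  have hle := not_lt.1 hcon
  have h1 : rtN N X + 1 ≤ X := (Nat.le_self_pow (by omega) _).trans hle
  have h2 := Nat.findGreatest_is_greatest (P := fun m => m ^ N ≤ X) (n := X)
    (k := rtN N X + 1) (Nat.lt_succ_self _) h1
  exact h2 hle

lemma log_rtN (N X : ℕ) (hN : 1 ≤ N) (hX : 1 ≤ X) (hL : 2 * (N : ℝ) ≤ Real.log X) :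
    2 ≤ rtN N X ∧ Real.log X / (2 * N) ≤ Real.log (rtN N X) ∧
      N * Real.log (rtN N X) ≤ Real.log X := by
  have hX0 : (0 : ℝ) < X := by exact_mod_cast hX
  have hN1 : (1 : ℝ) ≤ N := by exact_mod_cast hN
  have hl2 : Real.log 2 < 1 := by
    have := Real.log_two_lt_d9; linarith
  have h1 : Real.log X ≤ N * Real.log ((rtN N X : ℝ) + 1) := by
    have h2 : (X : ℝ) ≤ ((rtN N X : ℝ) + 1) ^ N := by exact_mod_cast (lt_rtN N X hN).le
    calc Real.log X ≤ Real.log (((rtN N X : ℝ) + 1) ^ N) := Real.log_le_log hX0 h2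
      _ = _ := by rw [Real.log_pow]
  have h2 : 2 ≤ rtN N X := by
    by_contra hcon
    have h3 : (rtN N X : ℝ) + 1 ≤ 2 := by
      have : rtN N X ≤ 1 := by omega
      have : (rtN N X : ℝ) ≤ 1 := by exact_mod_cast this
      linarith
    have h4 : Real.log ((rtN N X : ℝ) + 1) ≤ Real.log 2 := Real.log_le_log (by positivity) h3
    nlinarith
  have h20 : (2 : ℝ) ≤ rtN N X := by exact_mod_cast h2
  have h21 : (0 : ℝ) < rtN N X := by linarith
  have h3 : Real.log ((rtN N X : ℝ) + 1) ≤ Real.log (rtN N X) + Real.log 2 := by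
    rw [← Real.log_mul h21.ne' (by norm_num)]
    apply Real.log_le_log (by positivity)
    linarith
  refine ⟨h2, ?_, ?_⟩
  · rw [div_le_iff₀ (by positivity)]
    nlinarith
  · have h5 : ((rtN N X : ℝ)) ^ N ≤ X := by exact_mod_cast rtN_le N X hN
    calc N * Real.log (rtN N X) = Real.log ((rtN N X : ℝ) ^ N) := by rw [Real.log_pow]
      _ ≤ Real.log X := Real.log_le_log (by positivity) h5

lemma mul_le_of_sq_le {a b X : ℝ} (hX : 0 ≤ X) (h1 : a ^ 2 ≤ X)
    (h2 : b ^ 2 ≤ X) : a * b ≤ X := by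
  have h3 : (a * b) ^ 2 ≤ X ^ 2 := by
    rw [mul_pow, sq X]
    exact mul_le_mul h1 h2 (by positivity) hX
  exact le_of_sq_le_sq h3 hX

lemma Ginv_leN (N X k : ℕ) (hN : 1 ≤ N) (hX : 1 ≤ X) (hL : 2 * (N : ℝ) ≤ Real.log X)
    (hk : 1 ≤ k) :
    (Gsum (sieve2 k ((rtN N X) ^ 2)) ((rtN N X) ^ 2))⁻¹ ≤
      (4 * (N : ℝ) ^ 2) * (∏ p ∈ (2 * k).primeFactors, (1 + 6 / (p : ℝ))) / (Real.log X) ^ 2 := by
  obtain ⟨h1, h2, -⟩ := log_rtN N X hN hX hL
  refine (Ginv_le k (rtN N X) hk h1).trans ?_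
  have hP := prod_ge_one (2 * k)
  set P := ∏ p ∈ (2 * k).primeFactors, (1 + 6 / (p : ℝ)) with hPd
  have hN1 : (1 : ℝ) ≤ N := by exact_mod_cast hN
  have h3 : (0 : ℝ) < Real.log X := by linarith
  have h4 : (Real.log X / (2 * N)) ^ 2 ≤ (Real.log (rtN N X)) ^ 2 :=
    pow_le_pow_left₀ (by positivity) h2 2
  calc P / (Real.log (rtN N X)) ^ 2 ≤ P / (Real.log X / (2 * N)) ^ 2 :=
        div_le_div_of_nonneg_left (by linarith) (by positivity) h4
    _ = (4 * (N : ℝ) ^ 2) * P / (Real.log X) ^ 2 := by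
        field_simp
        ring

lemma case_largeN (m y H k : ℕ) (L M : ℝ) (_hM : 0 ≤ M) (hL : 2 ≤ L) (hm2 : 2 ≤ m) (hk : 1 ≤ k)
    (hG : (Gsum (sieve2 k (m ^ 2)) (m ^ 2))⁻¹ ≤
      M * (∏ p ∈ (2 * k).primeFactors, (1 + 6 / (p : ℝ))) / L ^ 2)
    (hlog : 1 + 4 * Real.log m ≤ L) (hH : (m : ℝ) ^ 4 * L ^ 35 ≤ H) :
    (prPairs y H (2 * k) : ℝ) ≤ H / L ^ 2 *
      ((3 * M + 7) * ∏ p ∈ (2 * k).primeFactors, (1 + 6 / (p : ℝ))) := by
  have hP := prod_ge_one (2 * k)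
  set P := ∏ p ∈ (2 * k).primeFactors, (1 + 6 / (p : ℝ)) with hPd
  have hL1 : (1 : ℝ) ≤ L := by linarith
  have hz : 1 ≤ m ^ 2 := Nat.one_le_pow _ _ (by omega)
  have hm20 : (2 : ℝ) ≤ m := by exact_mod_cast hm2
  have hm21 : (1 : ℝ) ≤ m := by linarith
  have hlogm : 0 ≤ Real.log m := Real.log_nonneg (by linarith)
  have hH1 : (1 : ℝ) ≤ H :=
    (one_le_mul_of_one_le_of_one_le (one_le_pow₀ hm21) (one_le_pow₀ hL1)).trans hH
  have hH0 : 1 ≤ H := by exact_mod_cast hH1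
  have h1 : (prPairs y H (2 * k) : ℝ) ≤ (cntP k (y - H - 1) ((y + H) - (y - H - 1)) : ℝ) := by
    have h2 := prPairs_le y H k
    unfold cntP
    have h3 : (y - H - 1) + ((y + H) - (y - H - 1)) = y + H := by omega
    rw [h3]
    exact_mod_cast h2
  set D := (y + H) - (y - H - 1) with hD
  have hD1 : (D : ℝ) ≤ 3 * H := by
    have : D ≤ 3 * H := by omega
    exact_mod_cast this
  have h4 := cntP_le k (m ^ 2) (y - H - 1) D hz
  have h5 := (abs_le.1 (window_pointwise (sieve2 k (m ^ 2)) (m ^ 2) (fun n => n * (n + 2 * k)) hz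
    (adm2 k (m ^ 2) hk) (y - H - 1) D)).2
  have e1 : 1 + 2 * Real.log ((m ^ 2 : ℕ) : ℝ) = 1 + 4 * Real.log m := by
    push_cast
    rw [Real.log_pow]
    push_cast
    ring
  have e2 : ((m ^ 2 : ℕ) : ℝ) ^ 2 = (m : ℝ) ^ 4 := by
    push_cast
    rw [← pow_mul]
  rw [e1, e2] at h5
  have h6 : (1 + 4 * Real.log m) ^ 32 ≤ L ^ 32 := by
    apply pow_le_pow_left₀ (by linarith)
    exact hlog
  have h7 : (m : ℝ) ^ 4 * (1 + 4 * Real.log m) ^ 32 ≤ (m : ℝ) ^ 4 * L ^ 32 :=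
    mul_le_mul_of_nonneg_left h6 (by positivity)
  have h8 : ((m ^ 2 : ℕ) : ℝ) ≤ (m : ℝ) ^ 4 * L ^ 32 := by
    push_cast
    calc (m : ℝ) ^ 2 ≤ (m : ℝ) ^ 4 := pow_le_pow_right₀ (by linarith) (by norm_num)
      _ = (m : ℝ) ^ 4 * 1 := (mul_one _).symm
      _ ≤ (m : ℝ) ^ 4 * L ^ 32 := by
        apply mul_le_mul_of_nonneg_left _ (by positivity)
        exact one_le_pow₀ hL1
  have h10 : 2 * ((m : ℝ) ^ 4 * L ^ 32) ≤ H / L ^ 2 := by
    rw [le_div_iff₀ (by positivity)]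
    calc 2 * ((m : ℝ) ^ 4 * L ^ 32) * L ^ 2 = 2 * ((m : ℝ) ^ 4 * L ^ 34) := by ring
      _ ≤ L * ((m : ℝ) ^ 4 * L ^ 34) := by
        apply mul_le_mul_of_nonneg_right _ (by positivity)
        linarith
      _ = (m : ℝ) ^ 4 * L ^ 35 := by ring
      _ ≤ H := hH
  have h11 : (D : ℝ) * (Gsum (sieve2 k (m ^ 2)) (m ^ 2))⁻¹ ≤ 3 * H * (M * P / L ^ 2) := by
    have hG0 : 0 ≤ (Gsum (sieve2 k (m ^ 2)) (m ^ 2))⁻¹ := by
      have := (Gsum_pos (s := sieve2 k (m ^ 2)) hz)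
      positivity
    exact mul_le_mul hD1 hG hG0 (by positivity)
  have h12 : (H : ℝ) / L ^ 2 * 1 ≤ (H : ℝ) / L ^ 2 * P :=
    mul_le_mul_of_nonneg_left hP (by positivity)
  have h13 : 0 ≤ (H : ℝ) / L ^ 2 * P := by positivity
  calc (prPairs y H (2 * k) : ℝ) ≤ 3 * H * (M * P / L ^ 2) + H / L ^ 2 := by linarith
    _ = (3 * M) * (H / L ^ 2 * P) + H / L ^ 2 * 1 := by ring
    _ ≤ (3 * M) * (H / L ^ 2 * P) + 7 * (H / L ^ 2 * P) := by linarith
    _ = _ := by ring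

lemma case_smallN (X m y H k b : ℕ) (L M : ℝ) (E0 : Finset ℕ) (_hM : 0 ≤ M) (hL1 : 1 ≤ L)
    (hm2 : 2 ≤ m)
    (hG : (Gsum (sieve2 k (m ^ 2)) (m ^ 2))⁻¹ ≤
      M * (∏ p ∈ (2 * k).primeFactors, (1 + 6 / (p : ℝ))) / L ^ 2)
    (hb : 1 ≤ b) (hbH : (b : ℝ) * L ^ 2 ≤ H)
    (hyX : y < X) (hH : H ≤ 64 * X)
    (hE : ∀ w < 70 * X, w ∉ E0 → m ^ 2 ≤ w ∧ w ∉ badP k m (70 * X) b (b / L ^ 2))
    (hs : ∀ a c : ℕ, a ≤ y → y ≤ c → c ≤ 70 * X →
      L ^ 4 * ((E0.filter (fun i => a ≤ i ∧ i < c)).card : ℝ) ≤ (c : ℝ) - a) :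
    (prPairs y H (2 * k) : ℝ) ≤ H / L ^ 2 *
      ((3 * M + 7) * ∏ p ∈ (2 * k).primeFactors, (1 + 6 / (p : ℝ))) := by
  have hP := prod_ge_one (2 * k)
  set P := ∏ p ∈ (2 * k).primeFactors, (1 + 6 / (p : ℝ)) with hPd
  have hL0 : (0 : ℝ) < L := by linarith
  have h1 : (prPairs y H (2 * k) : ℝ) ≤
      (((Ioc (y - H - 1) (y + H)).filter (fun n => n.Prime ∧ (n + 2 * k).Prime)).card : ℝ) := by
    exact_mod_cast prPairs_le y H k
  set u := y - H - 1 with hu
  set v := y + H with hv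
  set a := u + 1 - b with ha
  have hay : a ≤ y := by omega
  have hyv : y ≤ v := by omega
  have hvN : v ≤ 70 * X := by omega
  have h2 := one_scale k m (70 * X) b (b / L ^ 2) (L ^ 4) E0 (by omega) (by positivity)
    (by positivity) hE a u v ha hvN (hay.trans hyv) (hs a v hay hyv hvN)
  set n := ((Ioc u v).filter (fun n => n.Prime ∧ (n + 2 * k).Prime)).card with hn
  have hb0 : (0 : ℝ) < b := by exact_mod_cast hb
  have hH1 : (b : ℝ) ≤ H / L ^ 2 := by
    rw [le_div_iff₀ (by positivity)]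
    exact hbH
  have hHL : (H : ℝ) / L ^ 2 ≤ H := div_le_self (Nat.cast_nonneg H) (one_le_pow₀ hL1)
  have h3 : (v : ℝ) - a ≤ 3 * H := by
    have h4 : v ≤ a + (2 * H + b) := by omega
    have h5 : (v : ℝ) ≤ a + (2 * H + b) := by exact_mod_cast h4
    linarith
  have h30 : 0 ≤ (v : ℝ) - a := by
    have : (a : ℝ) ≤ v := by exact_mod_cast hay.trans hyv
    linarith
  set G := (Gsum (sieve2 k (m ^ 2)) (m ^ 2))⁻¹ with hGd
  have hz : 1 ≤ m ^ 2 := Nat.one_le_pow _ _ (by omega)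
  have hG0 : 0 ≤ G := by
    have := (Gsum_pos (s := sieve2 k (m ^ 2)) hz)
    rw [hGd]; positivity
  have h4 : (b : ℝ) * n ≤ b * (b + 3 * H * (G + 1 / L ^ 2) + 3 * H / L ^ 4) := by
    calc (b : ℝ) * n ≤ b * b + ((v : ℝ) - a) * (b * G + b / L ^ 2) +
        b * (((v : ℝ) - a) / L ^ 4) := h2
      _ ≤ b * b + (3 * H) * (b * G + b / L ^ 2) + b * ((3 * H) / L ^ 4) := by gcongr
      _ = _ := by ring
  have h5 : (n : ℝ) ≤ b + 3 * H * (G + 1 / L ^ 2) + 3 * H / L ^ 4 := le_of_mul_le_mul_left h4 hb0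
  have h6 : 3 * (H : ℝ) / L ^ 4 ≤ 3 * (H / L ^ 2) := by
    rw [← mul_div_assoc]
    apply div_le_div_of_nonneg_left (by positivity) (by positivity)
    exact pow_le_pow_right₀ hL1 (by norm_num)
  have h7 : 3 * (H : ℝ) * (G + 1 / L ^ 2) ≤ 3 * H * (M * P / L ^ 2 + 1 / L ^ 2) := by gcongr
  have h12 : (H : ℝ) / L ^ 2 * 1 ≤ (H : ℝ) / L ^ 2 * P :=
    mul_le_mul_of_nonneg_left hP (by positivity)
  have h13 : 0 ≤ (H : ℝ) / L ^ 2 * P := by positivity
  calc (prPairs y H (2 * k) : ℝ) ≤ n := h1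
    _ ≤ H / L ^ 2 + 3 * H * (M * P / L ^ 2 + 1 / L ^ 2) + 3 * (H / L ^ 2) := by linarith
    _ = (3 * M) * (H / L ^ 2 * P) + 7 * (H / L ^ 2 * 1) := by ring
    _ ≤ (3 * M) * (H / L ^ 2 * P) + 7 * (H / L ^ 2 * P) := by linarith
    _ = _ := by ring

/-- The pair bound in all windows of length `≥ H₀` around all `y < X` outside a set of at most
`X (log X) ^ B / H₀` integers, and in all windows with `X ≤ H ^ k`. -/
theorem pairs_windows_H (k : ℕ) : ∃ C : ℝ, 0 < C ∧ ∃ B X₀ : ℕ, ∀ X : ℕ, X₀ ≤ X →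
    ∀ H₀ : ℕ, 1 ≤ H₀ → ∃ E : Finset ℕ, (E.card : ℝ) ≤ X * (Real.log X) ^ B / H₀ ∧
    ∀ y < X, ∀ H : ℕ, H ≤ 64 * X → ((y ∉ E ∧ H₀ ≤ H) ∨ X ≤ H ^ k) →
    PairOK C (Real.log X) y H := by
  classical
  set κ := k + 2 with hκ
  set N := 64 * κ with hN
  have hN1 : 1 ≤ N := by omega
  have hN64 : (64 : ℝ) ≤ N := by
    have : 64 ≤ N := by omega
    exact_mod_cast this
  set M : ℝ := 4 * (N : ℝ) ^ 2 with hM
  have hM0 : 0 ≤ M := by positivity
  refine ⟨(3 * M + 7) * Real.exp 6, by positivity, 100, ?_⟩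
  obtain ⟨X1, hX1⟩ := log_ge (3000 + 2 * N)
  obtain ⟨X2, hX2⟩ := log_pow_le (70 * κ)
  refine ⟨X1 + X2 + 2, ?_⟩
  intro X hXX H0 hH01
  have hX : 1 ≤ X := by omega
  have hX0 : (1 : ℝ) ≤ X := by exact_mod_cast hX
  have hL := hX1 X (by omega)
  have hlog := hX2 X (by omega)
  obtain ⟨hm2, -, hm3⟩ := log_rtN N X hN1 hX (by linarith)
  have hGN := fun (j : ℕ) (hj : 1 ≤ j) => Ginv_leN N X j hN1 hX (by linarith) hj
  have hmN : ((rtN N X : ℝ)) ^ N ≤ X := by exact_mod_cast rtN_le N X hN1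
  set L := Real.log X with hLd
  set m := rtN N X with hm
  have hL1 : (1 : ℝ) ≤ L := by linarith
  have hL0 : (0 : ℝ) < L := by linarith
  have hm20 : (2 : ℝ) ≤ m := by exact_mod_cast hm2
  have hm21 : (1 : ℝ) ≤ m := by linarith
  have hlogm : 0 ≤ Real.log m := Real.log_nonneg (by linarith)
  have hlogm2 : 1 + 4 * Real.log m ≤ L := by
    have h1 : 64 * Real.log m ≤ N * Real.log m := mul_le_mul_of_nonneg_right hN64 hlogm
    linarith
  have hmj : ∀ j : ℕ, j ≤ N → (m : ℝ) ^ j ≤ X := fun j hj =>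
    (pow_le_pow_right₀ hm21 hj).trans hmN
  -- the large windows
  have hlarge : ∀ y H : ℕ, X ≤ H ^ κ → PairOK ((3 * M + 7) * Real.exp 6) L y H := by
    intro y H hXH
    have hXH' : (X : ℝ) ≤ (H : ℝ) ^ κ := by exact_mod_cast hXH
    have h1 : (m : ℝ) ^ 4 * L ^ 35 ≤ H := by
      have h2 : ((m : ℝ) ^ 4 * L ^ 35) ^ κ ≤ (H : ℝ) ^ κ := by
        rw [mul_pow, ← pow_mul, ← pow_mul]
        refine le_trans ?_ hXH'
        apply mul_le_of_sq_le (by positivity)
        · rw [← pow_mul]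
          exact hmj _ (by omega)
        · rw [← pow_mul]
          have e : 35 * κ * 2 = 70 * κ := by ring
          rw [e]
          exact hlog
      exact le_of_pow_le_pow_left₀ (by omega) (Nat.cast_nonneg H) h2
    have h2 : L ^ 2 ≤ H := by
      calc L ^ 2 ≤ L ^ 35 := pow_le_pow_right₀ hL1 (by norm_num)
        _ = 1 * L ^ 35 := (one_mul _).symm
        _ ≤ (m : ℝ) ^ 4 * L ^ 35 := by
          apply mul_le_mul_of_nonneg_right _ (by positivity)
          exact one_le_pow₀ hm21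
        _ ≤ H := h1
    apply pairOK_of y H L hL1 (3 * M + 7) (by linarith) h2
    intro j hj1 hj2
    exact case_largeN m y H j L M hM0 (by linarith) hm2 hj1 (hGN j hj1) hlogm2 h1
  have hlarge' : ∀ y H : ℕ, X ≤ H ^ k → PairOK ((3 * M + 7) * Real.exp 6) L y H := by
    intro y H hXH
    apply hlarge
    have hH : 1 ≤ H := by
      by_contra h
      have h0 : H = 0 := by omega
      subst h0
      have h1 : (0 : ℕ) ^ k ≤ 1 := by
        rcases Nat.eq_zero_or_pos k with h2 | h2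
        · rw [h2]; norm_num
        · rw [zero_pow h2.ne']; norm_num
      omega
    exact hXH.trans (Nat.pow_le_pow_right hH (by omega))
  have hH00 : (1 : ℝ) ≤ H0 := by exact_mod_cast hH01
  -- short windows: everything is exceptional
  by_cases hcase1 : (H0 : ℝ) < L ^ 100
  · refine ⟨range X, ?_, ?_⟩
    · rw [card_range, le_div_iff₀ (by positivity)]
      exact mul_le_mul_of_nonneg_left hcase1.le (by positivity)
    · intro y hy H hH hc
      rcases hc with ⟨h1, -⟩ | h1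
      · exact absurd (mem_range.2 hy) h1
      · exact hlarge' y H h1
  rw [not_lt] at hcase1
  by_cases hcase2 : X ≤ H0 ^ κ
  · refine ⟨∅, by simp; positivity, ?_⟩
    intro y hy H hH hc
    rcases hc with ⟨-, h1⟩ | h1
    · exact hlarge y H (hcase2.trans (Nat.pow_le_pow_left h1 κ))
    · exact hlarge' y H h1
  rw [not_le] at hcase2
  have hH0sq : (H0 : ℝ) ^ 2 ≤ X := by
    have h1 : (H0 : ℝ) ^ κ ≤ X := by exact_mod_cast hcase2.le
    exact (pow_le_pow_right₀ hH00 (by omega)).trans h1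
  -- the scale
  set b := ⌈(H0 : ℝ) / L ^ 5⌉₊ with hb
  have hb1 : (H0 : ℝ) / L ^ 5 ≤ b := Nat.le_ceil _
  have hb2 : (b : ℝ) ≤ 2 * (H0 / L ^ 5) := by
    have h1 := (Nat.ceil_lt_add_one (show 0 ≤ (H0 : ℝ) / L ^ 5 by positivity)).le
    have h2 : 1 ≤ (H0 : ℝ) / L ^ 5 := by
      rw [le_div_iff₀ (by positivity), one_mul]
      exact (pow_le_pow_right₀ hL1 (by norm_num)).trans hcase1
    rw [← hb] at h1
    linarith
  have hb0 : (1 : ℝ) ≤ b := by
    have h2 : 1 ≤ (H0 : ℝ) / L ^ 5 := by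
      rw [le_div_iff₀ (by positivity), one_mul]
      exact (pow_le_pow_right₀ hL1 (by norm_num)).trans hcase1
    linarith
  have hb01 : 1 ≤ b := by exact_mod_cast hb0
  have hbH : (b : ℝ) * L ^ 2 ≤ H0 := by
    calc (b : ℝ) * L ^ 2 ≤ 2 * (H0 / L ^ 5) * L ^ 2 :=
          mul_le_mul_of_nonneg_right hb2 (by positivity)
      _ = (2 / L ^ 3) * H0 := by field_simp
      _ ≤ 1 * H0 := by
        apply mul_le_mul_of_nonneg_right _ (by positivity)
        rw [div_le_one (by positivity)]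
        calc (2 : ℝ) ≤ L := by linarith
          _ = L ^ 1 := (pow_one L).symm
          _ ≤ L ^ 3 := pow_le_pow_right₀ hL1 (by norm_num)
      _ = H0 := one_mul _
  have hm8 : (m : ℝ) ^ 8 ≤ X / H0 := by
    rw [le_div_iff₀ (by positivity)]
    apply mul_le_of_sq_le (by positivity) _ hH0sq
    rw [← pow_mul]
    exact hmj _ (by omega)
  set δ := (b : ℝ) / L ^ 2 with hδ
  have hδ0 : 0 < δ := by positivity
  set K := ⌊4 * L⌋₊ with hK
  set E0 := (Icc 1 K).biUnion (fun k => badP k m (70 * X) b δ) ∪ range (m ^ 2) with hE0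
  -- size of each bad set
  have hbad : ∀ j ∈ Icc 1 K, ((badP j m (70 * X) b δ).card : ℝ) ≤ X * L ^ 90 / H0 := by
    intro j hj
    rw [mem_Icc] at hj
    have h1 := badP_card j m (70 * X) b δ hδ0 hj.1 hm2
    have h2 : (1 + 4 * Real.log m) ^ 80 ≤ L ^ 80 := pow_le_pow_left₀ (by linarith) hlogm2 80
    set c := ((badP j m (70 * X) b δ).card : ℝ) with hc
    have h3 : c * δ ^ 2 ≤ 3 * (((70 * X : ℕ) : ℝ) * b + (b : ℝ) ^ 2 * (m : ℝ) ^ 8) * L ^ 80 :=
      h1.trans (mul_le_mul_of_nonneg_left h2 (by positivity))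
    have h4 : c ≤ (210 * X / b + 3 * (m : ℝ) ^ 8) * L ^ 84 := by
      have h5 : c * δ ^ 2 ≤ ((210 * X / b + 3 * (m : ℝ) ^ 8) * L ^ 84) * δ ^ 2 := by
        refine h3.trans (le_of_eq ?_)
        rw [hδ]
        push_cast
        field_simp
        ring
      exact le_of_mul_le_mul_right h5 (by positivity)
    have h7 : 210 * (X : ℝ) / b ≤ 210 * (X * L ^ 5 / H0) := by
      have h8 : (1 : ℝ) / b ≤ L ^ 5 / H0 := by
        rw [div_le_div_iff₀ (by positivity) (by positivity), one_mul]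
        rw [div_le_iff₀ (by positivity)] at hb1
        linarith
      calc 210 * (X : ℝ) / b = (210 * X) * (1 / b) := by ring
        _ ≤ (210 * X) * (L ^ 5 / H0) := mul_le_mul_of_nonneg_left h8 (by positivity)
        _ = _ := by ring
    have h9 : (X : ℝ) / H0 ≤ X * L ^ 5 / H0 := by
      apply div_le_div_of_nonneg_right _ (by positivity)
      calc (X : ℝ) = X * 1 := (mul_one _).symm
        _ ≤ X * L ^ 5 := mul_le_mul_of_nonneg_left (one_le_pow₀ hL1) (by positivity)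
    calc c ≤ (210 * X / b + 3 * (m : ℝ) ^ 8) * L ^ 84 := h4
      _ ≤ (210 * (X * L ^ 5 / H0) + 3 * (X * L ^ 5 / H0)) * L ^ 84 := by
        apply mul_le_mul_of_nonneg_right _ (by positivity)
        linarith
      _ = 213 * (X * L ^ 89 / H0) := by ring
      _ ≤ L * (X * L ^ 89 / H0) := by
        apply mul_le_mul_of_nonneg_right _ (by positivity)
        linarith
      _ = X * L ^ 90 / H0 := by ring
  have hE0c : (E0.card : ℝ) ≤ 2 * (X * L ^ 92 / H0) := by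
    have h1 : (E0.card : ℝ) ≤ (∑ j ∈ Icc 1 K, ((badP j m (70 * X) b δ).card : ℝ)) + (m : ℝ) ^ 2 := by
      have h2 := card_union_le ((Icc 1 K).biUnion (fun k => badP k m (70 * X) b δ)) (range (m ^ 2))
      have h3 := card_biUnion_le (s := Icc 1 K) (t := fun k => badP k m (70 * X) b δ)
      rw [card_range] at h2
      have h4 := h2.trans (Nat.add_le_add_right h3 (m ^ 2))
      exact_mod_cast h4
    have h2 : ∑ j ∈ Icc 1 K, ((badP j m (70 * X) b δ).card : ℝ) ≤ X * L ^ 92 / H0 := by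
      calc _ ≤ ∑ j ∈ Icc 1 K, X * L ^ 90 / H0 := sum_le_sum hbad
        _ = K * (X * L ^ 90 / H0) := by simp
        _ ≤ (L ^ 2) * (X * L ^ 90 / H0) := by
          apply mul_le_mul_of_nonneg_right _ (by positivity)
          have h5 : (K : ℝ) ≤ 4 * L := Nat.floor_le (by positivity)
          have h6 : 4 * L ≤ L * L := mul_le_mul_of_nonneg_right (by linarith) hL0.le
          rw [sq]
          linarith
        _ = X * L ^ 92 / H0 := by ring
    have h3 : (m : ℝ) ^ 2 ≤ X * L ^ 92 / H0 := by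
      calc (m : ℝ) ^ 2 ≤ (m : ℝ) ^ 8 := pow_le_pow_right₀ hm21 (by norm_num)
        _ ≤ X / H0 := hm8
        _ ≤ X * L ^ 92 / H0 := by
          apply div_le_div_of_nonneg_right _ (by positivity)
          calc (X : ℝ) = X * 1 := (mul_one _).symm
            _ ≤ X * L ^ 92 := mul_le_mul_of_nonneg_left (one_le_pow₀ hL1) (by positivity)
    linarith
  obtain ⟨E, -, hEc, hEs⟩ := sparse_max E0 (L ^ 4) (by positivity) (70 * X)
  refine ⟨E, ?_, ?_⟩
  · calc (E.card : ℝ) ≤ 2 * L ^ 4 * E0.card := hEc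
      _ ≤ 2 * L ^ 4 * (2 * (X * L ^ 92 / H0)) := by gcongr
      _ = 4 * (X * L ^ 96 / H0) := by ring
      _ ≤ L * (X * L ^ 96 / H0) := by
        apply mul_le_mul_of_nonneg_right _ (by positivity)
        linarith
      _ = X * L ^ 97 / H0 := by ring
      _ ≤ X * L ^ 100 / H0 := by
        apply div_le_div_of_nonneg_right _ (by positivity)
        exact mul_le_mul_of_nonneg_left (pow_le_pow_right₀ hL1 (by norm_num)) (by positivity)
  · intro y hy H hH hc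
    rcases hc with ⟨h1, h2⟩ | h2
    · have h2' : (H0 : ℝ) ≤ H := by exact_mod_cast h2
      have hLH : L ^ 2 ≤ H :=
        ((pow_le_pow_right₀ hL1 (by norm_num)).trans hcase1).trans h2'
      apply pairOK_of y H L hL1 (3 * M + 7) (by linarith) hLH
      intro j hj1 hj2
      apply case_smallN X m y H j b L M E0 hM0 hL1 hm2 (hGN j hj1) hb01 (hbH.trans h2') hy hH
      · intro w hw hwE
        rw [hE0, mem_union, not_or, mem_biUnion, mem_range, not_lt] at hwE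
        refine ⟨hwE.2, ?_⟩
        intro h3
        apply hwE.1
        refine ⟨j, ?_, h3⟩
        rw [mem_Icc]
        exact ⟨hj1, Nat.le_floor hj2⟩
      · intro a c ha hb' hbN
        exact hEs y (by omega) h1 a c ha hb' hbN
    · exact hlarge' y H h2

end Pool.Agent.H.MP_711652_nt.QW
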