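import Mathlib
import Pool.Agent.H.MP_711652_nt.QW.S2K
import Pool.Agent.H.MP_711652_nt.QW.S1B

set_option autoImplicit false

namespace Pool.Agent.H.MP_711652_nt.QW

open Finset

/-- The windows in which the pair bound may be used. -/
theorem pairs_use_H (k : ℕ) : ∃ C : ℝ, 0 < C ∧ ∃ B X₀ : ℕ, ∀ X : ℕ, X₀ ≤ X →
    ∀ H₀ : ℕ, 1 ≤ H₀ → ∃ E : Finset ℕ, (E.card : ℝ) ≤ X * (Real.log X) ^ B / H₀ ∧
    ∀ y < X, ∀ H : ℕ, H ≤ X → ((y ∉ E ∧ H₀ ≤ H) ∨ X ≤ H ^ k) → (Real.log X) ^ 2 ≤ H ∧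
    PairOK C (Real.log X) y (16 * H) ∧ PairOK C (Real.log X) y (64 * H) := by
  obtain ⟨C, hC, B, X₀, hX₀⟩ := pairs_windows_H k
  obtain ⟨X₁, hX₁⟩ := Filter.eventually_atTop.1 ((ev_log_ge 1).and
    (ev_log_pow_rpow (2 * k + 1) 1 one_pos))
  refine ⟨C, hC, max B 2, max X₀ X₁, fun X hX H₀ hH₀ => ?_⟩
  obtain ⟨hL1, hL4⟩ := hX₁ X (le_trans (le_max_right _ _) hX)
  obtain ⟨E, hE, h2⟩ := hX₀ X (le_trans (le_max_left _ _) hX) H₀ hH₀
  rw [Real.rpow_one] at hL4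
  have hL0 : 0 ≤ Real.log X := by linarith
  have hXR : (0 : ℝ) ≤ X := Nat.cast_nonneg _
  have hH₀R : (1 : ℝ) ≤ H₀ := by exact_mod_cast hH₀
  have hbig : ∀ H : ℕ, X ≤ H ^ k → (Real.log X) ^ 2 ≤ H := by
    intro H hH
    have hHR : (0 : ℝ) ≤ H := Nat.cast_nonneg _
    have h4 : (X : ℝ) ≤ (H : ℝ) ^ k := by exact_mod_cast hH
    have h5 : ((Real.log X) ^ 2) ^ k ≤ (H : ℝ) ^ k := by
      rw [← pow_mul]
      exact ((pow_le_pow_right₀ hL1 (Nat.le_succ _)).trans hL4).trans h4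
    rcases Nat.eq_zero_or_pos k with rfl | hk
    · exfalso
      rw [mul_zero, zero_add, pow_one] at hL4
      rw [pow_zero] at h4
      have h6 : Real.log X ≤ 0 := Real.log_nonpos hXR h4
      linarith
    · exact le_of_pow_le_pow_left₀ (by omega) hHR h5
  have hconc : ∀ c : ℕ, 1 ≤ c → c ≤ 64 → ∀ y < X, ∀ H : ℕ, H ≤ X →
      ((y ∉ E ∧ H₀ ≤ H) ∨ X ≤ H ^ k) → PairOK C (Real.log X) y (c * H) := by
    intro c hc hc64 y hy H hH hyp
    apply h2 y hy (c * H) (Nat.mul_le_mul hc64 hH)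
    have h5 : H ≤ c * H := Nat.le_mul_of_pos_left H hc
    rcases hyp with ⟨h6, h7⟩ | h6
    · exact Or.inl ⟨h6, h7.trans h5⟩
    · exact Or.inr (h6.trans (Nat.pow_le_pow_left h5 k))
  by_cases hsmall : (H₀ : ℝ) < (Real.log X) ^ 2
  · refine ⟨range X, ?_, fun y hy H hH hyp => ?_⟩
    · rw [card_range, le_div_iff₀ (by linarith)]
      apply mul_le_mul_of_nonneg_left _ hXR
      exact hsmall.le.trans (pow_le_pow_right₀ hL1 (le_max_right _ _))
    · have hyp' : X ≤ H ^ k := by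
        rcases hyp with ⟨h6, -⟩ | h6
        · exact absurd (mem_range.2 hy) h6
        · exact h6
      exact ⟨hbig H hyp', hconc 16 (by norm_num) (by norm_num) y hy H hH (Or.inr hyp'),
        hconc 64 (by norm_num) le_rfl y hy H hH (Or.inr hyp')⟩
  · rw [not_lt] at hsmall
    refine ⟨E, ?_, fun y hy H hH hyp => ?_⟩
    · refine hE.trans ?_
      apply div_le_div_of_nonneg_right _ (by linarith)
      exact mul_le_mul_of_nonneg_left (pow_le_pow_right₀ hL1 (le_max_left _ _)) hXR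
    · refine ⟨?_, hconc 16 (by norm_num) (by norm_num) y hy H hH hyp,
        hconc 64 (by norm_num) le_rfl y hy H hH hyp⟩
      rcases hyp with ⟨-, h7⟩ | h6
      · exact hsmall.trans (by exact_mod_cast h7)
      · exact hbig H h6

end Pool.Agent.H.MP_711652_nt.QW
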