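import Mathlib
import Pool.Agent.H.MP_711652_nt.QW.JumpDefs

set_option autoImplicit false

/-!
# Jumps of averages by a factor: definitions

`W (Q) = √(length * mass)` is superadditive over the dyadic tree.
-/

namespace Pool.Agent.H.MP_711652_nt.QW

open Finset

/-- The sum of `f` over the block number `c` of level `l`. -/
noncomputable def gaM (f : ℕ → ℝ) (l c : ℕ) : ℝ := ∑ k ∈ Ico (c * 2 ^ l) ((c + 1) * 2 ^ l), f k

/-- `W` of a block: length times the square root of the average. -/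
noncomputable def gaW (f : ℕ → ℝ) (l c : ℕ) : ℝ := Real.sqrt (2 ^ l * gaM f l c)

/-- The deficit of the block number `c` of level `l + 1`. -/
noncomputable def gaD (f : ℕ → ℝ) (l c : ℕ) : ℝ :=
  gaW f (l + 1) c - gaW f l (2 * c) - gaW f l (2 * c + 1)

/-- The weighted sum of the deficits of all blocks in the block number `c` of level `l`. -/
noncomputable def gaE (f : ℕ → ℝ) : ℕ → ℕ → ℝ
  | 0, _ => 0
  | l + 1, c => gaD f l c + 7 / 8 * (gaE f l (2 * c) + gaE f l (2 * c + 1))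

/-- The block number `c` of level `l` is bad. -/
def gaBad (f : ℕ → ℝ) (e : ℝ) (l c : ℕ) : Prop := e ^ 2 * gaW f l c ≤ 1000 * gaE f l c

/-- Two intervals around `k` with lengths in `[2 ^ j, 2 ^ (j + 1))` on which `f` has averages
which differ by a factor `1 + ε`. -/
def RoughM (f : ℕ → ℝ) (ε : ℝ) (j k : ℕ) : Prop :=
  ∃ p q p' q' : ℕ, p ≤ k ∧ k < q ∧ p' ≤ k ∧ k < q' ∧ 2 ^ j ≤ q - p ∧ q - p < 2 ^ (j + 1) ∧
    2 ^ j ≤ q' - p' ∧ q' - p' < 2 ^ (j + 1) ∧ (1 + ε) * av f p q ≤ av f p' q'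

/-- A chain of `m` jumps by a factor `1 + ε`: intervals `[p i, q i)`, `[p' i, q' i)` around `k` of
increasing length `≤ N`, averages which differ by a factor `1 + ε`, lengths of successive jumps
separated by a factor `2`. -/
def ChainM (f : ℕ → ℝ) (N : ℕ) (ε : ℝ) (m k : ℕ) : Prop :=
  ∃ p q p' q' : ℕ → ℕ,
    (∀ i, i < m → p i ≤ k ∧ k < q i ∧ p' i ≤ k ∧ k < q' i ∧ q i - p i ≤ q' i - p' i ∧
      q' i - p' i ≤ N ∧ ((1 + ε) * av f (p i) (q i) ≤ av f (p' i) (q' i) ∨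
        (1 + ε) * av f (p' i) (q' i) ≤ av f (p i) (q i))) ∧
    (∀ i, i + 1 < m → 2 * (q' i - p' i) ≤ q (i + 1) - p (i + 1))

open Classical in
/-- The number of greedy stops (by a factor `1 + ε`) of the dyadic averages below level `i`,
starting from the reference value `v`. -/
noncomputable def stopsM (f : ℕ → ℝ) (ε : ℝ) : ℕ → ℝ → ℕ → ℕ
  | 0, _, _ => 0
  | i + 1, v, k =>
    if (1 + ε) * v ≤ avg (2 ^ i) f k ∨ (1 + ε) * avg (2 ^ i) f k ≤ v then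
      1 + stopsM f ε i (avg (2 ^ i) f k) k else stopsM f ε i v k

lemma gaM_nonneg (f : ℕ → ℝ) (hf : ∀ k, 0 ≤ f k) (l c : ℕ) : 0 ≤ gaM f l c :=
  sum_nonneg fun k _ => hf k

lemma gaM_zero (f : ℕ → ℝ) (c : ℕ) : gaM f 0 c = f c := by
  unfold gaM
  have h1 : Ico (c * 2 ^ 0) ((c + 1) * 2 ^ 0) = {c} := by
    ext k
    simp
  rw [h1, sum_singleton]

/-- A sum over a block as the sum over the two halves. -/
lemma ga_split (F : ℕ → ℝ) (l c : ℕ) :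
    ∑ k ∈ Ico (c * 2 ^ (l + 1)) ((c + 1) * 2 ^ (l + 1)), F k =
      ∑ k ∈ Ico (2 * c * 2 ^ l) ((2 * c + 1) * 2 ^ l), F k +
        ∑ k ∈ Ico ((2 * c + 1) * 2 ^ l) ((2 * c + 1 + 1) * 2 ^ l), F k := by
  have e1 : c * 2 ^ (l + 1) = (2 * c) * 2 ^ l := by ring
  have e2 : (c + 1) * 2 ^ (l + 1) = (2 * c + 1 + 1) * 2 ^ l := by ring
  have hle1 : (2 * c) * 2 ^ l ≤ (2 * c + 1) * 2 ^ l := Nat.mul_le_mul_right _ (by omega)
  have hle2 : (2 * c + 1) * 2 ^ l ≤ (2 * c + 1 + 1) * 2 ^ l := Nat.mul_le_mul_right _ (by omega)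
  rw [e1, e2, sum_Ico_consecutive _ hle1 hle2]

lemma gaM_succ (f : ℕ → ℝ) (l c : ℕ) :
    gaM f (l + 1) c = gaM f l (2 * c) + gaM f l (2 * c + 1) := ga_split f l c

lemma gaW_nonneg (f : ℕ → ℝ) (l c : ℕ) : 0 ≤ gaW f l c := Real.sqrt_nonneg _

lemma gaW_sq (f : ℕ → ℝ) (hf : ∀ k, 0 ≤ f k) (l c : ℕ) : gaW f l c ^ 2 = 2 ^ l * gaM f l c :=
  Real.sq_sqrt (mul_nonneg (by positivity) (gaM_nonneg f hf l c))

/-- The squares of `W` of a block and of its halves. -/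
lemma gaW_par (f : ℕ → ℝ) (hf : ∀ k, 0 ≤ f k) (l c : ℕ) :
    gaW f (l + 1) c ^ 2 = 2 * (gaW f l (2 * c) ^ 2 + gaW f l (2 * c + 1) ^ 2) := by
  rw [gaW_sq f hf, gaW_sq f hf, gaW_sq f hf, gaM_succ]
  ring

lemma gaD_nonneg (f : ℕ → ℝ) (hf : ∀ k, 0 ≤ f k) (l c : ℕ) : 0 ≤ gaD f l c := by
  have h1 := gaW_par f hf l c
  have h2 := gaW_nonneg f (l + 1) c
  have h3 := gaW_nonneg f l (2 * c)
  have h4 := gaW_nonneg f l (2 * c + 1)
  unfold gaD
  by_contra hcon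
  rw [not_le] at hcon
  have h5 : gaW f (l + 1) c ^ 2 < (gaW f l (2 * c) + gaW f l (2 * c + 1)) ^ 2 :=
    pow_lt_pow_left₀ (by linarith) h2 (by norm_num)
  nlinarith [sq_nonneg (gaW f l (2 * c) - gaW f l (2 * c + 1))]

/-- `(1 - (√(1 + t) + √(1 - t)) / 2 ≥ t ^ 2 / 8)` for the deficit. -/
lemma gaD_quant (f : ℕ → ℝ) (hf : ∀ k, 0 ≤ f k) (l c : ℕ) :
    (gaM f l (2 * c) - gaM f l (2 * c + 1)) ^ 2 * gaW f (l + 1) c ≤
      8 * gaM f (l + 1) c ^ 2 * gaD f l c := by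
  have h1 := gaW_par f hf l c
  have h2 := gaW_nonneg f (l + 1) c
  have h3 := gaW_nonneg f l (2 * c)
  have h4 := gaW_nonneg f l (2 * c + 1)
  have h5 := gaD_nonneg f hf l c
  have h6 := gaW_sq f hf (l + 1) c
  have h7 := gaW_sq f hf l (2 * c)
  have h8 := gaW_sq f hf l (2 * c + 1)
  have hD : gaD f l c = gaW f (l + 1) c - gaW f l (2 * c) - gaW f l (2 * c + 1) := rfl
  obtain ⟨n, hn⟩ : ∃ n : ℝ, n = 2 ^ l := ⟨_, rfl⟩
  have hn0 : 0 < n := by rw [hn]; positivity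
  rw [← hn] at h7 h8
  rw [pow_succ (2 : ℝ) l, ← hn] at h6
  set W := gaW f (l + 1) c
  set u := gaW f l (2 * c)
  set v := gaW f l (2 * c + 1)
  set d := gaD f l c
  set S := gaM f (l + 1) c
  set S1 := gaM f l (2 * c)
  set S2 := gaM f l (2 * c + 1)
  have h9 : (u - v) ^ 2 ≤ 2 * W * d := by nlinarith
  have h10 : (u + v) ^ 2 ≤ W ^ 2 := pow_le_pow_left₀ (by linarith) (by linarith) 2
  have h11 : n ^ 2 * ((S1 - S2) ^ 2 * W) = ((u - v) ^ 2 * (u + v) ^ 2) * W := by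
    have e1 : (u - v) ^ 2 * (u + v) ^ 2 = (u ^ 2 - v ^ 2) ^ 2 := by ring
    rw [e1, h7, h8]
    ring
  have h12 : n ^ 2 * (8 * S ^ 2 * d) = 2 * W ^ 4 * d := by
    have e1 : W ^ 4 = (W ^ 2) ^ 2 := by ring
    rw [e1, h6]
    ring
  have h13 : n ^ 2 * ((S1 - S2) ^ 2 * W) ≤ n ^ 2 * (8 * S ^ 2 * d) := by
    rw [h11, h12]
    calc (u - v) ^ 2 * (u + v) ^ 2 * W ≤ (2 * W * d) * W ^ 2 * W := by gcongr
      _ = 2 * W ^ 4 * d := by ring
  exact le_of_mul_le_mul_left h13 (by positivity)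

lemma gaE_nonneg (f : ℕ → ℝ) (hf : ∀ k, 0 ≤ f k) (l c : ℕ) : 0 ≤ gaE f l c := by
  induction l generalizing c with
  | zero => exact le_rfl
  | succ l ih =>
    have h1 := gaD_nonneg f hf l c
    have h2 := ih (2 * c)
    have h3 := ih (2 * c + 1)
    show 0 ≤ gaD f l c + 7 / 8 * (gaE f l (2 * c) + gaE f l (2 * c + 1))
    linarith

end Pool.Agent.H.MP_711652_nt.QW
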