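import Mathlib
import Pool.Agent.H.MP_711652_nt.QW.GADefs
import Pool.Agent.H.MP_711652_nt.QW.StopsS

set_option autoImplicit false

namespace Pool.Agent.H.MP_711652_nt.QW

open Finset Classical

lemma stopsM_avg_pos (f : ℕ → ℝ) (hf : ∀ k, 0 < f k) (j k : ℕ) : 0 < avg (2 ^ j) f k := by
  unfold avg
  have hp : 0 < 2 ^ j := by positivity
  apply div_pos
  · apply sum_pos
    · intro i _
      exact hf _
    · exact ⟨0, mem_range.2 hp⟩
  · exact_mod_cast hp

/-- The potential at a stop. -/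
lemma stopsM_pot (ε a v : ℝ) (hε : 0 < ε) (hε1 : ε ≤ 1) (ha : 0 < a) (hv : 0 < v)
    (h : (1 + ε) * v ≤ a ∨ (1 + ε) * a ≤ v) :
    (1 + ε ^ 2 / 20) * Real.sqrt a * (2 * Real.sqrt v) ≤ v + a := by
  have h1 : ε ^ 2 * (a * v) ≤ 2 * (v - a) ^ 2 := by
    rcases h with h | h
    · -- `a - v ≥ ε v`, `2 (a - v) ≥ ε a`
      have e1 : ε * v ≤ a - v := by linarith
      have e2 : ε * a ≤ 2 * (a - v) := by
        nlinarith [mul_nonneg (show 0 ≤ 2 - ε by linarith) (show 0 ≤ a - (1 + ε) * v by linarith),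
          mul_nonneg (mul_nonneg hε.le hv.le) (show 0 ≤ 1 - ε by linarith)]
      have e3 : (ε * v) * (ε * a) ≤ (a - v) * (2 * (a - v)) :=
        mul_le_mul e1 e2 (by positivity) ((by positivity : 0 ≤ ε * v).trans e1)
      nlinarith
    · have e1 : ε * a ≤ v - a := by linarith
      have e2 : ε * v ≤ 2 * (v - a) := by
        nlinarith [mul_nonneg (show 0 ≤ 2 - ε by linarith) (show 0 ≤ v - (1 + ε) * a by linarith),
          mul_nonneg (mul_nonneg hε.le ha.le) (show 0 ≤ 1 - ε by linarith)]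
      have e3 : (ε * a) * (ε * v) ≤ (v - a) * (2 * (v - a)) :=
        mul_le_mul e1 e2 (by positivity) ((by positivity : 0 ≤ ε * a).trans e1)
      nlinarith
  have hε2 : 0 < ε ^ 2 := by positivity
  have hε2' : ε ^ 2 ≤ 1 := pow_le_one₀ hε.le hε1
  have hav : 0 < a * v := by positivity
  have h2 : (1 + ε ^ 2 / 20) ^ 2 * (4 * (a * v)) ≤ (v + a) ^ 2 := by
    have e1 : (v + a) ^ 2 = 4 * (a * v) + (v - a) ^ 2 := by ring
    have e2 : (1 + ε ^ 2 / 20) ^ 2 ≤ 1 + ε ^ 2 / 8 := by nlinarith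
    have e3 : (1 + ε ^ 2 / 20) ^ 2 * (4 * (a * v)) ≤ (1 + ε ^ 2 / 8) * (4 * (a * v)) := by gcongr
    rw [e1]
    nlinarith
  rw [← pow_le_pow_iff_left₀ (by positivity) (by positivity) (show 2 ≠ 0 by norm_num)]
  calc ((1 + ε ^ 2 / 20) * Real.sqrt a * (2 * Real.sqrt v)) ^ 2
      = (1 + ε ^ 2 / 20) ^ 2 * (4 * (Real.sqrt a ^ 2 * Real.sqrt v ^ 2)) := by ring
    _ = (1 + ε ^ 2 / 20) ^ 2 * (4 * (a * v)) := by rw [Real.sq_sqrt ha.le, Real.sq_sqrt hv.le]
    _ ≤ (v + a) ^ 2 := h2

/-- PROOF. Potential `(v + a) / (2 √v)` (linear in `a`). -/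
theorem stopsM_moment (f : ℕ → ℝ) (hf : ∀ k, 0 < f k) (ε : ℝ) (hε : 0 < ε) (hε1 : ε ≤ 1)
    (i c : ℕ) (v : ℝ) (hv : 0 < v) :
    ∑ k ∈ Ico (c * 2 ^ i) ((c + 1) * 2 ^ i),
      Real.sqrt (f k) * (1 + ε ^ 2 / 20) ^ stopsM f ε i v k ≤
      (2 ^ i * v + gaM f i c) / (2 * Real.sqrt v) := by
  induction i generalizing c v with
  | zero =>
    have h1 : Ico (c * 2 ^ 0) ((c + 1) * 2 ^ 0) = {c} := by
      ext k
      simp
    have hsv : 0 < Real.sqrt v := Real.sqrt_pos.2 hv
    rw [h1, sum_singleton, stopsM, pow_zero, mul_one, gaM_zero, pow_zero, one_mul,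
      le_div_iff₀ (by positivity)]
    have h2 := Real.sq_sqrt (hf c).le
    have h3 := Real.sq_sqrt hv.le
    nlinarith [sq_nonneg (Real.sqrt (f c) - Real.sqrt v)]
  | succ i ih =>
    have hsv : 0 < Real.sqrt v := Real.sqrt_pos.2 hv
    -- the claim for one half
    have hchild : ∀ d : ℕ, ∑ k ∈ Ico (d * 2 ^ i) ((d + 1) * 2 ^ i),
        Real.sqrt (f k) * (1 + ε ^ 2 / 20) ^ stopsM f ε (i + 1) v k ≤
        (2 ^ i * v + gaM f i d) / (2 * Real.sqrt v) := by
      intro d
      have hpos : (0 : ℝ) < 2 ^ i := by positivity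
      set a : ℝ := gaM f i d / 2 ^ i with ha
      have haS : gaM f i d = 2 ^ i * a := by
        rw [ha]
        field_simp
      have havg : ∀ k ∈ Ico (d * 2 ^ i) ((d + 1) * 2 ^ i), avg (2 ^ i) f k = a := by
        intro k hk
        rw [mem_Ico] at hk
        rw [stops_avg f i d k hk.1 hk.2]
        rfl
      have ha0 : 0 < a := by
        have h1 : d * 2 ^ i ∈ Ico (d * 2 ^ i) ((d + 1) * 2 ^ i) := by
          rw [mem_Ico]
          exact ⟨le_rfl, Nat.mul_lt_mul_of_pos_right (Nat.lt_succ_self d) (by positivity)⟩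
        rw [← havg _ h1]
        exact stopsM_avg_pos f hf i _
      by_cases hstop : (1 + ε) * v ≤ a ∨ (1 + ε) * a ≤ v
      · have h1 : ∑ k ∈ Ico (d * 2 ^ i) ((d + 1) * 2 ^ i),
            Real.sqrt (f k) * (1 + ε ^ 2 / 20) ^ stopsM f ε (i + 1) v k =
            (1 + ε ^ 2 / 20) * ∑ k ∈ Ico (d * 2 ^ i) ((d + 1) * 2 ^ i),
            Real.sqrt (f k) * (1 + ε ^ 2 / 20) ^ stopsM f ε i a k := by
          rw [mul_sum]
          apply sum_congr rfl
          intro k hk
          have h2 : stopsM f ε (i + 1) v k = 1 + stopsM f ε i a k := by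
            rw [stopsM, havg k hk, if_pos hstop]
          rw [h2, pow_add, pow_one]
          ring
        have h3 := ih d a ha0
        have hsa : 0 < Real.sqrt a := Real.sqrt_pos.2 ha0
        have h4 : (2 ^ i * a + gaM f i d) / (2 * Real.sqrt a) = 2 ^ i * Real.sqrt a := by
          rw [haS, div_eq_iff (by positivity)]
          have := Real.sq_sqrt ha0.le
          calc (2 : ℝ) ^ i * a + 2 ^ i * a = 2 ^ i * 2 * a := by ring
            _ = 2 ^ i * 2 * (Real.sqrt a ^ 2) := by rw [this]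
            _ = 2 ^ i * Real.sqrt a * (2 * Real.sqrt a) := by ring
        rw [h4] at h3
        rw [h1]
        have h5 := stopsM_pot ε a v hε hε1 ha0 hv hstop
        calc (1 + ε ^ 2 / 20) * ∑ k ∈ Ico (d * 2 ^ i) ((d + 1) * 2 ^ i),
              Real.sqrt (f k) * (1 + ε ^ 2 / 20) ^ stopsM f ε i a k
            ≤ (1 + ε ^ 2 / 20) * (2 ^ i * Real.sqrt a) := by gcongr
          _ ≤ (2 ^ i * v + gaM f i d) / (2 * Real.sqrt v) := by
              rw [le_div_iff₀ (by positivity), haS]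
              calc (1 + ε ^ 2 / 20) * (2 ^ i * Real.sqrt a) * (2 * Real.sqrt v)
                  = 2 ^ i * ((1 + ε ^ 2 / 20) * Real.sqrt a * (2 * Real.sqrt v)) := by ring
                _ ≤ 2 ^ i * (v + a) := by gcongr
                _ = 2 ^ i * v + 2 ^ i * a := by ring
      · have h1 : ∑ k ∈ Ico (d * 2 ^ i) ((d + 1) * 2 ^ i),
            Real.sqrt (f k) * (1 + ε ^ 2 / 20) ^ stopsM f ε (i + 1) v k =
            ∑ k ∈ Ico (d * 2 ^ i) ((d + 1) * 2 ^ i),
            Real.sqrt (f k) * (1 + ε ^ 2 / 20) ^ stopsM f ε i v k := by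
          apply sum_congr rfl
          intro k hk
          have h2 : stopsM f ε (i + 1) v k = stopsM f ε i v k := by
            rw [stopsM, havg k hk, if_neg hstop]
          rw [h2]
        rw [h1]
        exact ih d v hv
    rw [ga_split, gaM_succ]
    refine (add_le_add (hchild (2 * c)) (hchild (2 * c + 1))).trans (le_of_eq ?_)
    rw [← add_div]
    congr 1
    ring

lemma stopsM_aux (f : ℕ → ℝ) (hf : ∀ k, 0 < f k) (ε : ℝ) (hε : 0 < ε) (k : ℕ) (j j' : ℕ → ℕ)
    (i : ℕ) :
    (∀ (m : ℕ) (v : ℝ), 0 < v → (∀ t, t < m → j t ≤ j' t ∧ j' t < i ∧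
      ((1 + ε) ^ 2 * avg (2 ^ j t) f k ≤ avg (2 ^ j' t) f k ∨
        (1 + ε) ^ 2 * avg (2 ^ j' t) f k ≤ avg (2 ^ j t) f k)) →
      (∀ t, t + 1 < m → j' t < j (t + 1)) → m ≤ stopsM f ε i v k) ∧
    (∀ (m : ℕ) (v : ℝ) (J : ℕ), 0 < v → (∀ t, t < m → j t ≤ j' t ∧ j' t < J ∧
      ((1 + ε) ^ 2 * avg (2 ^ j t) f k ≤ avg (2 ^ j' t) f k ∨
        (1 + ε) ^ 2 * avg (2 ^ j' t) f k ≤ avg (2 ^ j t) f k)) →
      (∀ t, t + 1 < m → j' t < j (t + 1)) → J < i →
      ((1 + ε) * v ≤ avg (2 ^ J) f k ∨ (1 + ε) * avg (2 ^ J) f k ≤ v) →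
      m + 1 ≤ stopsM f ε i v k) := by
  induction i with
  | zero =>
    refine ⟨fun m v _ h _ => ?_, fun m v J _ _ _ hJ _ => absurd hJ (Nat.not_lt_zero J)⟩
    rcases Nat.eq_zero_or_pos m with rfl | hm
    · exact Nat.zero_le _
    · exact absurd (h 0 hm).2.1 (Nat.not_lt_zero _)
  | succ i ih =>
    obtain ⟨ihQ, ihP⟩ := ih
    have hai := stopsM_avg_pos f hf i k
    refine ⟨fun m v hv0 h1 h2 => ?_, fun m v J hv0 h1 h2 hJ hv => ?_⟩
    · rcases Nat.eq_zero_or_pos m with rfl | hm
      · exact Nat.zero_le _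
      obtain ⟨m, rfl⟩ : ∃ m', m = m' + 1 := ⟨m - 1, by omega⟩
      obtain ⟨hjj, hji, hjump⟩ := h1 m (Nat.lt_succ_self m)
      -- the lower jumps
      have hmono : ∀ t, t < m → j' t < j m := by
        intro t ht
        have : ∀ s, t + s + 1 ≤ m → j' t < j (t + s + 1) := by
          intro s
          induction s with
          | zero =>
            intro hs
            exact h2 t (by omega)
          | succ s ihs =>
            intro hs
            have e1 := ihs (by omega)
            have e2 := h2 (t + s + 1) (by omega)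
            have e3 := (h1 (t + s + 1) (by omega)).1
            have e4 : t + (s + 1) + 1 = t + s + 1 + 1 := by ring
            rw [e4]
            omega
        have e := this (m - t - 1) (by omega)
        have e5 : t + (m - t - 1) + 1 = m := by omega
        rw [e5] at e
        exact e
      have hlow : ∀ t, t < m → j t ≤ j' t ∧ j' t < j m ∧
          ((1 + ε) ^ 2 * avg (2 ^ j t) f k ≤ avg (2 ^ j' t) f k ∨
            (1 + ε) ^ 2 * avg (2 ^ j' t) f k ≤ avg (2 ^ j t) f k) := fun t ht =>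
        ⟨(h1 t (by omega)).1, hmono t ht, (h1 t (by omega)).2.2⟩
      have hlow2 : ∀ t, t + 1 < m → j' t < j (t + 1) := fun t ht => h2 t (by omega)
      rcases Nat.lt_or_ge (j' m) i with hlt | hge
      · -- all the jumps are below level `i`
        have hall : ∀ t, t < m + 1 → j t ≤ j' t ∧ j' t < i ∧
            ((1 + ε) ^ 2 * avg (2 ^ j t) f k ≤ avg (2 ^ j' t) f k ∨
              (1 + ε) ^ 2 * avg (2 ^ j' t) f k ≤ avg (2 ^ j t) f k) := by
          intro t ht
          refine ⟨(h1 t ht).1, ?_, (h1 t ht).2.2⟩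
          rcases Nat.lt_or_ge t m with h | h
          · have := hmono t h
            omega
          · have : t = m := by omega
            rw [this]
            exact hlt
        rw [stopsM]
        split_ifs with hs
        · have := ihQ (m + 1) (avg (2 ^ i) f k) hai hall h2
          omega
        · exact ihQ (m + 1) v hv0 hall h2
      · have hi : j' m = i := by omega
        rw [hi] at hjump hjj
        have hε2 : 1 + ε < (1 + ε) ^ 2 := by nlinarith
        have hε3 : 1 < (1 + ε) ^ 2 := by linarith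
        have hne : j m ≠ i := by
          intro h
          rw [h] at hjump
          rcases hjump with h' | h' <;> nlinarith
        have hlt : j m < i := by omega
        have ham := stopsM_avg_pos f hf (j m) k
        rw [stopsM]
        split_ifs with hs
        · have := ihP m (avg (2 ^ i) f k) (j m) hai hlow hlow2 hlt (by
            rcases hjump with h' | h'
            · right
              nlinarith
            · left
              nlinarith)
          omega
        · apply ihP m v (j m) hv0 hlow hlow2 hlt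
          rw [not_or, not_le, not_le] at hs
          obtain ⟨hs1, hs2⟩ := hs
          have hε0 : 0 < 1 + ε := by linarith
          rcases hjump with h' | h'
          · right
            -- `(1 + ε) ^ 2 a_j ≤ a_i < (1 + ε) v`
            have e1 : (1 + ε) * ((1 + ε) * avg (2 ^ j m) f k) ≤ (1 + ε) * v := by nlinarith
            exact le_of_mul_le_mul_left e1 hε0
          · left
            have e1 : (1 + ε) * v ≤ (1 + ε) * ((1 + ε) * avg (2 ^ i) f k) := by
              gcongr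
            nlinarith
    · have hlow' : ∀ t, t < m → j t ≤ j' t ∧ j' t < i ∧
          ((1 + ε) ^ 2 * avg (2 ^ j t) f k ≤ avg (2 ^ j' t) f k ∨
            (1 + ε) ^ 2 * avg (2 ^ j' t) f k ≤ avg (2 ^ j t) f k) := fun t ht =>
        ⟨(h1 t ht).1, by have := (h1 t ht).2.1; omega, (h1 t ht).2.2⟩
      rw [stopsM]
      split_ifs with hs
      · have := ihQ m (avg (2 ^ i) f k) hai hlow' h2
        omega
      · have hne : J ≠ i := by
          intro h
          rw [h] at hv
          exact hs hv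
        exact ihP m v J hv0 h1 h2 (by omega) hv

/-- Disjoint jumps `j t ≤ j' t < j (t + 1)` of the dyadic averages are counted by `stopsM`. -/
theorem stopsM_ge (f : ℕ → ℝ) (hf : ∀ k, 0 < f k) (ε : ℝ) (hε : 0 < ε) (i m k : ℕ) (v : ℝ)
    (hv : 0 < v) (j j' : ℕ → ℕ)
    (h1 : ∀ t, t < m → j t ≤ j' t ∧ j' t < i ∧
      ((1 + ε) ^ 2 * avg (2 ^ j t) f k ≤ avg (2 ^ j' t) f k ∨
        (1 + ε) ^ 2 * avg (2 ^ j' t) f k ≤ avg (2 ^ j t) f k))
    (h2 : ∀ t, t + 1 < m → j' t < j (t + 1)) : m ≤ stopsM f ε i v k :=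
  (stopsM_aux f hf ε hε k j j' i).1 m v hv h1 h2

end Pool.Agent.H.MP_711652_nt.QW
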