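import Mathlib
import Pool.Agent.H.MP_711652_nt.QW.GAStop
import Pool.Agent.H.MP_711652_nt.QW.ChainS

set_option autoImplicit false

namespace Pool.Agent.H.MP_711652_nt.QW

open Finset Classical

/-- If the scale `j` is not rough then the average of an interval around `k` of this scale is near
the dyadic average. -/
lemma chainM_near (f : ℕ → ℝ) (ε : ℝ) (j k p q : ℕ) (hp : p ≤ k) (hq : k < q)
    (h1 : 2 ^ j ≤ q - p) (h2 : q - p < 2 ^ (j + 1)) (hr : ¬ RoughM f ε j k) :
    av f p q < (1 + ε) * avg (2 ^ j) f k ∧ avg (2 ^ j) f k < (1 + ε) * av f p q := by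
  have hpos : 0 < 2 ^ j := by positivity
  have e1 : k / 2 ^ j * 2 ^ j ≤ k := Nat.div_mul_le_self k (2 ^ j)
  have e2 : k < k / 2 ^ j * 2 ^ j + 2 ^ j := Nat.lt_div_mul_add hpos
  have e3 : 2 ^ (j + 1) = 2 * 2 ^ j := by ring
  constructor
  · by_contra hcon
    rw [not_lt] at hcon
    apply hr
    refine ⟨k / 2 ^ j * 2 ^ j, k / 2 ^ j * 2 ^ j + 2 ^ j, p, q, e1, e2, hp, hq, ?_, ?_, h1, h2, ?_⟩
    · omega
    · omega
    · rw [← chain_avg]
      exact hcon
  · by_contra hcon
    rw [not_lt] at hcon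
    apply hr
    refine ⟨p, q, k / 2 ^ j * 2 ^ j, k / 2 ^ j * 2 ^ j + 2 ^ j, hp, hq, e1, e2, h1, h2, ?_, ?_, ?_⟩
    · omega
    · omega
    · rw [← chain_avg]
      exact hcon

/-- Ratios. -/
lemma chainM_ratio (ε : ℝ) (hε : 0 < ε) (hε1 : ε ≤ 1) (x y X Y : ℝ) (hx : 0 ≤ x)
    (h1 : x < (1 + ε / 8) * X) (h2 : Y < (1 + ε / 8) * y) (h : (1 + ε) * X ≤ Y) :
    (1 + ε / 8) ^ 2 * x ≤ y := by
  have hd : 0 < 1 + ε / 8 := by linarith
  have h4 : (1 + ε / 8) ^ 4 ≤ 1 + ε := by
    have a2 : ε ^ 2 ≤ ε := by nlinarith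
    have a3 : ε ^ 3 ≤ ε := by nlinarith [pow_nonneg hε.le 2]
    have a4 : ε ^ 4 ≤ ε := by nlinarith [pow_nonneg hε.le 3]
    have e : (1 + ε / 8) ^ 4 = 1 + ε / 2 + 6 * ε ^ 2 / 64 + 4 * ε ^ 3 / 512 + ε ^ 4 / 4096 := by
      ring
    rw [e]
    linarith
  have h5 : (1 + ε) * x ≤ (1 + ε / 8) ^ 2 * y := by
    calc (1 + ε) * x ≤ (1 + ε) * ((1 + ε / 8) * X) :=
          mul_le_mul_of_nonneg_left h1.le (by linarith)
      _ = (1 + ε / 8) * ((1 + ε) * X) := by ring
      _ ≤ (1 + ε / 8) * Y := mul_le_mul_of_nonneg_left h hd.le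
      _ ≤ (1 + ε / 8) * ((1 + ε / 8) * y) := mul_le_mul_of_nonneg_left h2.le hd.le
      _ = (1 + ε / 8) ^ 2 * y := by ring
  have h6 : (1 + ε / 8) ^ 2 * ((1 + ε / 8) ^ 2 * x) ≤ (1 + ε / 8) ^ 2 * y := by
    calc (1 + ε / 8) ^ 2 * ((1 + ε / 8) ^ 2 * x) = (1 + ε / 8) ^ 4 * x := by ring
      _ ≤ (1 + ε) * x := mul_le_mul_of_nonneg_right h4 hx
      _ ≤ _ := h5
  exact le_of_mul_le_mul_left h6 (by positivity)

/-- The number of jumps is at most the number of rough scales plus the number of stops. PROOF (as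
`chain_count`). If the scale `a i` is not rough (with `ε / 8`) then `av f (p i) (q i)` and
`avg (2 ^ a i) f k` differ by a factor less than `1 + ε / 8` (in both directions), the same for
`b i`; so `avg (2 ^ a i) f k` and `avg (2 ^ b i) f k` differ by a factor at least
`(1 + ε) / (1 + ε / 8) ^ 2 ≥ (1 + ε / 8) ^ 2`: `stopsM_ge`. -/
theorem chainM_count (f : ℕ → ℝ) (hf : ∀ k, 0 < f k) (N : ℕ) (ε : ℝ) (hε : 0 < ε) (hε1 : ε ≤ 1)
    (m k : ℕ) (v : ℝ) (hv : 0 < v) (h : ChainM f N ε m k) :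
    m ≤ ((range N).filter (fun j => 2 ^ j ≤ N ∧ RoughM f (ε / 8) j k)).card +
      stopsM f (ε / 8) (Nat.log 2 N + 1) v k := by
  obtain ⟨p, q, p', q', h1, h2⟩ := h
  set a : ℕ → ℕ := fun i => Nat.log 2 (q i - p i) with ha
  set b : ℕ → ℕ := fun i => Nat.log 2 (q' i - p' i) with hb
  have hpos : ∀ i, i < m → 0 < q i - p i ∧ 0 < q' i - p' i := by
    intro i hi
    obtain ⟨g1, g2, g3, g4, -, -, -⟩ := h1 i hi
    omega
  have ha1 : ∀ i, i < m → 2 ^ a i ≤ q i - p i ∧ q i - p i < 2 ^ (a i + 1) := by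
    intro i hi
    exact ⟨Nat.pow_log_le_self 2 (hpos i hi).1.ne', Nat.lt_pow_succ_log_self (by norm_num) _⟩
  have hb1 : ∀ i, i < m → 2 ^ b i ≤ q' i - p' i ∧ q' i - p' i < 2 ^ (b i + 1) := by
    intro i hi
    exact ⟨Nat.pow_log_le_self 2 (hpos i hi).2.ne', Nat.lt_pow_succ_log_self (by norm_num) _⟩
  have hab : ∀ i, i < m → a i ≤ b i := by
    intro i hi
    exact Nat.log_mono_right (h1 i hi).2.2.2.2.1
  have hba : ∀ i, i + 1 < m → b i < a (i + 1) := by
    intro i hi
    have e1 := (hb1 i (by omega)).1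
    have e2 := h2 i hi
    have e3 : 2 ^ (b i + 1) ≤ q (i + 1) - p (i + 1) := by
      have : 2 ^ (b i + 1) = 2 * 2 ^ b i := by ring
      omega
    have e4 : b i + 1 ≤ a (i + 1) := Nat.le_log_of_pow_le (by norm_num) e3
    omega
  have hmono : ∀ d i, i + d + 1 < m → b i < a (i + d + 1) := by
    intro d
    induction d with
    | zero =>
      intro i hi
      exact hba i hi
    | succ d ih =>
      intro i hi
      have e1 := ih i (by omega)
      have e2 := hab (i + d + 1) (by omega)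
      have e3 := hba (i + d + 1) (by omega)
      have e4 : i + (d + 1) + 1 = i + d + 1 + 1 := by ring
      rw [e4]
      omega
  have hlt : ∀ i i', i < i' → i' < m → b i < a i' := by
    intro i i' hii hi'
    have := hmono (i' - i - 1) i (by omega)
    have e : i + (i' - i - 1) + 1 = i' := by omega
    rwa [e] at this
  have hbN : ∀ i, i < m → 2 ^ b i ≤ N := fun i hi =>
    (hb1 i hi).1.trans (h1 i hi).2.2.2.2.2.1
  have haN : ∀ i, i < m → 2 ^ a i ≤ N := fun i hi =>
    (Nat.pow_le_pow_right (by norm_num) (hab i hi)).trans (hbN i hi)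
  -- bad and good jumps
  set D := (range m).filter (fun i => RoughM f (ε / 8) (a i) k ∨ RoughM f (ε / 8) (b i) k) with hD
  set G := (range m).filter (fun i => ¬ (RoughM f (ε / 8) (a i) k ∨ RoughM f (ε / 8) (b i) k))
    with hG
  have hDG : D.card + G.card = m := by
    rw [hD, hG, card_filter_add_card_filter_not, card_range]
  have hDc : D.card ≤ ((range N).filter (fun j => 2 ^ j ≤ N ∧ RoughM f (ε / 8) j k)).card := by
    apply card_le_card_of_injOn (fun i => if RoughM f (ε / 8) (a i) k then a i else b i)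
    · intro i hi
      rw [mem_coe, hD, mem_filter, mem_range] at hi
      rw [mem_coe, mem_filter, mem_range]
      have e1 := hbN i hi.1
      have e2 := haN i hi.1
      have e3 : b i < 2 ^ b i := Nat.lt_two_pow_self
      have e4 : a i < 2 ^ a i := Nat.lt_two_pow_self
      by_cases hc : RoughM f (ε / 8) (a i) k
      · simp only [if_pos hc]
        exact ⟨by omega, e2, hc⟩
      · simp only [if_neg hc]
        exact ⟨by omega, e1, hi.2.resolve_left hc⟩
    · intro i hi i' hi' hii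
      rw [mem_coe, hD, mem_filter, mem_range] at hi hi'
      simp only at hii
      have key : ∀ x y, x < m → y < m → x < y →
          (if RoughM f (ε / 8) (a x) k then a x else b x) ≠
          (if RoughM f (ε / 8) (a y) k then a y else b y) := by
        intro x y hx hy hxy
        have e1 := hlt x y hxy hy
        have e2 := hab x hx
        have e3 := hab y hy
        split_ifs <;> omega
      rcases lt_trichotomy i i' with hc | hc | hc
      · exact absurd hii (key i i' hi.1 hi'.1 hc)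
      · exact hc
      · exact absurd hii.symm (key i' i hi'.1 hi.1 hc)
  have hGmem : ∀ x ∈ G, x < m ∧ ¬ (RoughM f (ε / 8) (a x) k ∨ RoughM f (ε / 8) (b x) k) := by
    intro x hx
    rw [hG, mem_filter, mem_range] at hx
    exact hx
  have hGc : G.card ≤ stopsM f (ε / 8) (Nat.log 2 N + 1) v k := by
    have hGm : ∀ t (ht : t < G.card), G.orderEmbOfFin rfl ⟨t, ht⟩ < m ∧
        ¬ (RoughM f (ε / 8) (a (G.orderEmbOfFin rfl ⟨t, ht⟩)) k ∨
          RoughM f (ε / 8) (b (G.orderEmbOfFin rfl ⟨t, ht⟩)) k) := by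
      intro t ht
      exact hGmem _ (G.orderEmbOfFin_mem rfl ⟨t, ht⟩)
    apply stopsM_ge f hf (ε / 8) (by linarith) (Nat.log 2 N + 1) G.card k v hv
      (fun t => if ht : t < G.card then a (G.orderEmbOfFin rfl ⟨t, ht⟩) else 0)
      (fun t => if ht : t < G.card then b (G.orderEmbOfFin rfl ⟨t, ht⟩) else 0)
    · intro t ht
      simp only [dif_pos ht]
      obtain ⟨hi, hgood⟩ := hGm t ht
      set i := G.orderEmbOfFin rfl ⟨t, ht⟩ with hidef
      rw [not_or] at hgood
      obtain ⟨g1, g2, g3, g4, -, -, g7⟩ := h1 i hi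
      refine ⟨hab i hi, ?_, ?_⟩
      · have : b i ≤ Nat.log 2 N := Nat.le_log_of_pow_le (by norm_num) (hbN i hi)
        omega
      · have e1 := chainM_near f (ε / 8) (a i) k (p i) (q i) g1 g2 (ha1 i hi).1 (ha1 i hi).2
          hgood.1
        have e2 := chainM_near f (ε / 8) (b i) k (p' i) (q' i) g3 g4 (hb1 i hi).1 (hb1 i hi).2
          hgood.2
        have e3 : 0 ≤ avg (2 ^ a i) f k := avg_nonneg _ f (fun k => (hf k).le) k
        have e4 : 0 ≤ avg (2 ^ b i) f k := avg_nonneg _ f (fun k => (hf k).le) k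
        rcases g7 with g7 | g7
        · left
          exact chainM_ratio ε hε hε1 _ _ _ _ e3 e1.2 e2.1 g7
        · right
          exact chainM_ratio ε hε hε1 _ _ _ _ e4 e2.2 e1.1 g7
    · intro t ht
      have ht' : t < G.card := by omega
      simp only [dif_pos ht, dif_pos ht']
      apply hlt
      · apply (G.orderEmbOfFin rfl).strictMono
        exact Nat.lt_succ_self t
      · exact (hGm (t + 1) ht).1
  omega

end Pool.Agent.H.MP_711652_nt.QW
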