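import Mathlib
import Pool.Agent.H.MP_711652_nt.QW.GADefs

set_option autoImplicit false

namespace Pool.Agent.H.MP_711652_nt.QW

open Finset Classical

/-- The sum of `W` over the bad blocks in the block number `c` of level `l`. -/
noncomputable def gaS (f : ℕ → ℝ) (e : ℝ) : ℕ → ℕ → ℝ
  | 0, c => if gaBad f e 0 c then gaW f 0 c else 0
  | l + 1, c => (if gaBad f e (l + 1) c then gaW f (l + 1) c else 0) +
      (gaS f e l (2 * c) + gaS f e l (2 * c + 1))

lemma gaS_nonneg (f : ℕ → ℝ) (e : ℝ) (l c : ℕ) : 0 ≤ gaS f e l c := by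
  induction l generalizing c with
  | zero =>
    rw [gaS]
    split_ifs
    · exact gaW_nonneg f 0 c
    · exact le_rfl
  | succ l ih =>
    rw [gaS]
    have h1 := ih (2 * c)
    have h2 := ih (2 * c + 1)
    split_ifs
    · have h3 := gaW_nonneg f (l + 1) c
      linarith
    · linarith

/-- Packing of the bad blocks. -/
lemma gaS_le (f : ℕ → ℝ) (hf : ∀ k, 0 ≤ f k) (e : ℝ) (l c : ℕ) :
    e ^ 2 * gaS f e l c + 7000 * gaE f l c ≤ 8000 * gaW f l c := by
  induction l generalizing c with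
  | zero =>
    have h0 := gaW_nonneg f 0 c
    rw [gaS, gaE, mul_zero, add_zero]
    split_ifs with hb
    · unfold gaBad at hb
      rw [gaE, mul_zero] at hb
      linarith
    · rw [mul_zero]
      linarith
  | succ l ih =>
    have h1 := ih (2 * c)
    have h2 := ih (2 * c + 1)
    have h3 := gaE_nonneg f hf (l + 1) c
    have hE : gaE f (l + 1) c = gaD f l c + 7 / 8 * (gaE f l (2 * c) + gaE f l (2 * c + 1)) := rfl
    have hD : gaD f l c = gaW f (l + 1) c - gaW f l (2 * c) - gaW f l (2 * c + 1) := rfl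
    have hS : e ^ 2 * gaS f e (l + 1) c ≤ 1000 * gaE f (l + 1) c +
        (e ^ 2 * gaS f e l (2 * c) + e ^ 2 * gaS f e l (2 * c + 1)) := by
      rw [gaS]
      split_ifs with hb
      · unfold gaBad at hb
        linarith
      · linarith
    linarith

/-- The exponential moment of the number of bad blocks. -/
lemma ga_moment_aux (f : ℕ → ℝ) (hf : ∀ k, 0 ≤ f k) (e : ℝ) (he : 0 < e) (he1 : e ≤ 1)
    (i c : ℕ) :
    ∑ k ∈ Ico (c * 2 ^ i) ((c + 1) * 2 ^ i),
      Real.sqrt (f k) * (1 + e ^ 2 / 16000) ^ tailN (gaBad f e) (i + 1) k ≤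
      gaW f i c + e ^ 2 / 8000 * gaS f e i c := by
  have he2 : 0 < e ^ 2 := by positivity
  have he2' : e ^ 2 ≤ 1 := pow_le_one₀ he.le he1
  induction i generalizing c with
  | zero =>
    have h1 : Ico (c * 2 ^ 0) ((c + 1) * 2 ^ 0) = {c} := by
      ext k
      simp
    have h2 : gaW f 0 c = Real.sqrt (f c) := by
      unfold gaW
      rw [gaM_zero, pow_zero, one_mul]
    have h3 : 0 ≤ Real.sqrt (f c) := Real.sqrt_nonneg _
    have h4 : tailN (gaBad f e) (0 + 1) c = if gaBad f e 0 c then 1 else 0 := by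
      rw [tailN_succ, pow_zero, Nat.div_one]
      simp [tailN]
    rw [h1, sum_singleton, h4, gaS]
    split_ifs with hb
    · rw [pow_one, h2]
      nlinarith
    · rw [pow_zero, h2]
      linarith
  | succ i ih =>
    have h1 := ih (2 * c)
    have h2 := ih (2 * c + 1)
    have hD := gaD_nonneg f hf i c
    have hD' : gaD f i c = gaW f (i + 1) c - gaW f i (2 * c) - gaW f i (2 * c + 1) := rfl
    -- the sum with the bad blocks of levels `≤ i`
    obtain ⟨s, hs⟩ : ∃ s, s = ∑ k ∈ Ico (c * 2 ^ (i + 1)) ((c + 1) * 2 ^ (i + 1)),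
      Real.sqrt (f k) * (1 + e ^ 2 / 16000) ^ tailN (gaBad f e) (i + 1) k := ⟨_, rfl⟩
    have hs0 : 0 ≤ s := by
      rw [hs]
      exact sum_nonneg fun k _ => mul_nonneg (Real.sqrt_nonneg _) (by positivity)
    have hs1 : s ≤ gaW f (i + 1) c +
        e ^ 2 / 8000 * (gaS f e i (2 * c) + gaS f e i (2 * c + 1)) := by
      rw [hs, ga_split]
      linarith
    have hsum : ∑ k ∈ Ico (c * 2 ^ (i + 1)) ((c + 1) * 2 ^ (i + 1)),
        Real.sqrt (f k) * (1 + e ^ 2 / 16000) ^ tailN (gaBad f e) (i + 1 + 1) k =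
        (if gaBad f e (i + 1) c then 1 + e ^ 2 / 16000 else 1) * s := by
      rw [hs, mul_sum]
      apply sum_congr rfl
      intro k hk
      rw [mem_Ico] at hk
      have h5 : k / 2 ^ (i + 1) = c := Nat.div_eq_of_lt_le hk.1 hk.2
      rw [tailN_succ, h5]
      split_ifs
      · rw [pow_succ]
        ring
      · rw [add_zero, one_mul]
    rw [hsum, gaS]
    split_ifs with hb
    · have h6 := gaS_le f hf e (i + 1) c
      have h7 := gaE_nonneg f hf (i + 1) c
      have h8 : gaS f e (i + 1) c = gaW f (i + 1) c +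
          (gaS f e i (2 * c) + gaS f e i (2 * c + 1)) := by
        rw [gaS, if_pos hb]
      rw [h8] at h6
      obtain ⟨T, hT⟩ : ∃ T, T = gaS f e i (2 * c) + gaS f e i (2 * c + 1) := ⟨_, rfl⟩
      obtain ⟨W, hW⟩ : ∃ W, W = gaW f (i + 1) c := ⟨_, rfl⟩
      rw [← hT, ← hW] at h6 hs1 ⊢
      have h9 : e ^ 2 * (W + T) ≤ 8000 * W := by linarith
      have hW0 : 0 ≤ W := by rw [hW]; exact gaW_nonneg _ _ _
      -- `(1 + t / 2) s ≤ (1 + t / 2) (W + t T) ≤ W + t (W + T)`, `t = e ^ 2 / 8000`, `t T ≤ W`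
      have h10 : (1 + e ^ 2 / 16000) * s ≤ (1 + e ^ 2 / 16000) * (W + e ^ 2 / 8000 * T) :=
        mul_le_mul_of_nonneg_left hs1 (by positivity)
      have h11 : e ^ 2 / 8000 * T ≤ W := by nlinarith
      nlinarith
    · rw [one_mul, zero_add]
      exact hs1

/-- The exponential moment of the number of bad blocks. PROOF. `S` = sum of `W` over the bad blocks in
the block; `e ^ 2 S + 7000 E ≤ 8000 W` by induction; then
`∑ √f x ^ n ≤ W + e ^ 2 S / 8000` by induction. -/
theorem ga_moment (f : ℕ → ℝ) (hf : ∀ k, 0 ≤ f k) (e : ℝ) (he : 0 < e) (he1 : e ≤ 1) (i c : ℕ) :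
    ∑ k ∈ Ico (c * 2 ^ i) ((c + 1) * 2 ^ i),
      Real.sqrt (f k) * (1 + e ^ 2 / 16000) ^ tailN (gaBad f e) (i + 1) k ≤ 2 * gaW f i c := by
  have h1 := ga_moment_aux f hf e he he1 i c
  have h2 := gaS_le f hf e i c
  have h3 := gaE_nonneg f hf i c
  linarith

end Pool.Agent.H.MP_711652_nt.QW
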