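import Mathlib
import Pool.Agent.H.MP_711652_nt.QW.GADefs

set_option autoImplicit false

namespace Pool.Agent.H.MP_711652_nt.QW

open Finset Classical

/-- The induction step. -/
lemma ga_scalar (n S Sx Sy W Wx d Ex E F Fx : ℝ) (hn : 0 < n) (hSx : 0 ≤ Sx) (hSy : 0 ≤ Sy)
    (hS : S = Sx + Sy) (hW : 0 ≤ W) (hWx : 0 ≤ Wx) (hW2 : W ^ 2 = 2 * n * S)
    (hWx2 : Wx ^ 2 = n * Sx) (hd : 0 ≤ d) (hEx : 0 ≤ Ex)
    (hdq : (Sx - Sy) ^ 2 * W ≤ 8 * S ^ 2 * d) (hE : d + 7 / 8 * Ex ≤ E)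
    (hF : |F| ≤ |Fx| + |Sx - Sy| / 2) (hFx : |Fx| ≤ Sx)
    (ih : Fx ^ 2 * Wx ≤ 200 * Sx ^ 2 * Ex) : F ^ 2 * W ≤ 200 * S ^ 2 * E := by
  have hS0 : 0 ≤ S := by linarith
  -- the square of the deviation
  have h1 : F ^ 2 ≤ 6 / 5 * Fx ^ 2 + 3 / 2 * (Sx - Sy) ^ 2 := by
    have e1 : F ^ 2 ≤ (|Fx| + |Sx - Sy| / 2) ^ 2 := by
      rw [← sq_abs F]
      exact pow_le_pow_left₀ (abs_nonneg _) hF 2
    rw [← sq_abs Fx, ← sq_abs (Sx - Sy)]
    nlinarith [sq_nonneg (|Fx| - 5 / 2 * |Sx - Sy|)]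
  have h2 : F ^ 2 * W ≤ 6 / 5 * Fx ^ 2 * W + 3 / 2 * ((Sx - Sy) ^ 2 * W) := by
    calc F ^ 2 * W ≤ (6 / 5 * Fx ^ 2 + 3 / 2 * (Sx - Sy) ^ 2) * W := by gcongr
      _ = _ := by ring
  have hEge : 200 * S ^ 2 * (d + 7 / 8 * Ex) ≤ 200 * S ^ 2 * E := by gcongr
  have hFx2 : Fx ^ 2 ≤ Sx ^ 2 := by
    rw [← sq_abs Fx]
    exact pow_le_pow_left₀ (abs_nonneg _) hFx 2
  have hSS : 0 ≤ S ^ 2 * Ex := by positivity
  have hSd : 0 ≤ S ^ 2 * d := by positivity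
  rcases le_total Sx (5 / 8 * S) with hc | hc
  · rcases eq_or_lt_of_le hSx with h0 | h0
    · -- the half has no mass
      have e1 : Fx ^ 2 = 0 := by
        rw [← h0] at hFx2
        nlinarith [sq_nonneg Fx]
      rw [e1] at h2
      nlinarith
    · have hSpos : 0 < S := by linarith
      -- `6 / 5 * W * Sx ^ 2 ≤ 7 / 8 * Wx * S ^ 2`
      have h3 : 6 / 5 * W * Sx ^ 2 ≤ 7 / 8 * Wx * S ^ 2 := by
        rw [← pow_le_pow_iff_left₀ (show 0 ≤ 6 / 5 * W * Sx ^ 2 by positivity)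
          (show 0 ≤ 7 / 8 * Wx * S ^ 2 by positivity) (show 2 ≠ 0 by norm_num)]
        have e1 : (6 / 5 * W * Sx ^ 2) ^ 2 = 36 / 25 * (2 * n * S) * Sx ^ 4 := by
          rw [← hW2]
          ring
        have e2 : (7 / 8 * Wx * S ^ 2) ^ 2 = 49 / 64 * (n * Sx) * S ^ 4 := by
          rw [← hWx2]
          ring
        rw [e1, e2]
        have e3 : Sx ^ 3 ≤ (5 / 8 * S) ^ 3 := pow_le_pow_left₀ hSx hc 3
        have e4 : 72 / 25 * Sx ^ 3 ≤ 49 / 64 * S ^ 3 := by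
          have : 0 ≤ S ^ 3 := by positivity
          nlinarith
        calc 36 / 25 * (2 * n * S) * Sx ^ 4 = n * S * Sx * (72 / 25 * Sx ^ 3) := by ring
          _ ≤ n * S * Sx * (49 / 64 * S ^ 3) := by gcongr
          _ = 49 / 64 * (n * Sx) * S ^ 4 := by ring
      have h4 : 6 / 5 * Fx ^ 2 * W * Sx ^ 2 ≤ 175 * S ^ 2 * Ex * Sx ^ 2 := by
        calc 6 / 5 * Fx ^ 2 * W * Sx ^ 2 = Fx ^ 2 * (6 / 5 * W * Sx ^ 2) := by ring
          _ ≤ Fx ^ 2 * (7 / 8 * Wx * S ^ 2) := by gcongr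
          _ = 7 / 8 * S ^ 2 * (Fx ^ 2 * Wx) := by ring
          _ ≤ 7 / 8 * S ^ 2 * (200 * Sx ^ 2 * Ex) := by gcongr
          _ = 175 * S ^ 2 * Ex * Sx ^ 2 := by ring
      have h5 : 6 / 5 * Fx ^ 2 * W ≤ 175 * S ^ 2 * Ex :=
        le_of_mul_le_mul_right h4 (by positivity)
      linarith
  · -- the half has most of the mass
    have h3 : S ^ 2 ≤ 16 * (Sx - Sy) ^ 2 := by
      have e1 : S ≤ 4 * (Sx - Sy) := by linarith
      have e2 := pow_le_pow_left₀ hS0 e1 2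
      nlinarith
    have h4 : Sx ^ 2 ≤ S ^ 2 := pow_le_pow_left₀ hSx (by linarith) 2
    have h5 : 6 / 5 * Fx ^ 2 * W ≤ 96 / 5 * ((Sx - Sy) ^ 2 * W) := by
      calc 6 / 5 * Fx ^ 2 * W ≤ 6 / 5 * (16 * (Sx - Sy) ^ 2) * W := by
            gcongr
            linarith
        _ = 96 / 5 * ((Sx - Sy) ^ 2 * W) := by ring
    linarith

/-- The deviation is at most the mass. -/
lemma ga_dev_le (f : ℕ → ℝ) (hf : ∀ k, 0 ≤ f k) (l c x : ℕ) (hx1 : c * 2 ^ l ≤ x)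
    (hx2 : x ≤ (c + 1) * 2 ^ l) :
    |∑ k ∈ Ico (c * 2 ^ l) x, f k - ((x : ℝ) - (c * 2 ^ l : ℕ)) * (gaM f l c / 2 ^ l)| ≤
      gaM f l c := by
  have h1 : 0 ≤ ∑ k ∈ Ico (c * 2 ^ l) x, f k := sum_nonneg fun k _ => hf k
  have h2 : ∑ k ∈ Ico (c * 2 ^ l) x, f k ≤ gaM f l c := by
    unfold gaM
    apply sum_le_sum_of_subset_of_nonneg
    · exact Ico_subset_Ico le_rfl hx2
    · intro k _ _
      exact hf k
  have h3 : (0 : ℝ) ≤ (x : ℝ) - (c * 2 ^ l : ℕ) := by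
    rw [sub_nonneg]
    exact_mod_cast hx1
  have h4 : (x : ℝ) - (c * 2 ^ l : ℕ) ≤ 2 ^ l := by
    have e1 : (x : ℝ) ≤ ((c + 1) * 2 ^ l : ℕ) := by exact_mod_cast hx2
    push_cast at e1 ⊢
    linarith
  have h5 := gaM_nonneg f hf l c
  have hp : (0 : ℝ) < 2 ^ l := by positivity
  have h6 : 0 ≤ ((x : ℝ) - (c * 2 ^ l : ℕ)) * (gaM f l c / 2 ^ l) := by positivity
  have h7 : ((x : ℝ) - (c * 2 ^ l : ℕ)) * (gaM f l c / 2 ^ l) ≤ gaM f l c := by
    calc _ ≤ 2 ^ l * (gaM f l c / 2 ^ l) := by gcongr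
      _ = gaM f l c := by field_simp
  rw [abs_le]
  constructor <;> linarith

/-- One end point. PROOF. Induction on `l`: with the halves of masses `S (1 + t) / 2`,
`S (1 - t) / 2`, the half of `x` having mass `S (1 + t) / 2` and (relative) deviation `φ'`:
`φ ≤ φ' (1 + t) / 2 + |t| / 2` and
`(φ' (1 + t) / 2 + |t| / 2) ^ 2 ≤ 200 t ^ 2 / 8 + 7 / 16 * √(1 + t) * φ' ^ 2`. -/
theorem ga_dev (f : ℕ → ℝ) (hf : ∀ k, 0 ≤ f k) (l c x : ℕ) (hx1 : c * 2 ^ l ≤ x)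
    (hx2 : x ≤ (c + 1) * 2 ^ l) :
    (∑ k ∈ Ico (c * 2 ^ l) x, f k - ((x : ℝ) - (c * 2 ^ l : ℕ)) * (gaM f l c / 2 ^ l)) ^ 2 *
      gaW f l c ≤ 200 * gaM f l c ^ 2 * gaE f l c := by
  induction l generalizing c with
  | zero =>
    rw [pow_zero, mul_one] at hx1 hx2
    have h1 : x = c ∨ x = c + 1 := by omega
    rw [gaE, mul_zero, gaM_zero]
    simp only [pow_zero, mul_one, div_one]
    rcases h1 with h | h
    · subst h
      simp
    · subst h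
      rw [sum_Ico_succ_top le_rfl, Ico_self, sum_empty]
      push_cast
      simp
  | succ l ih =>
    have hp : (0 : ℝ) < 2 ^ l := by positivity
    have hM := gaM_succ f l c
    have hpw : (2 : ℝ) ^ (l + 1) = 2 * 2 ^ l := by ring
    have hn1 : c * 2 ^ (l + 1) = 2 * c * 2 ^ l := by ring
    have hn2 : (c + 1) * 2 ^ (l + 1) = (2 * c + 1 + 1) * 2 ^ l := by ring
    have hn3 : 2 * c * 2 ^ l + 2 ^ l = (2 * c + 1) * 2 ^ l := by ring
    have hn4 : (2 * c + 1) * 2 ^ l + 2 ^ l = (2 * c + 1 + 1) * 2 ^ l := by ring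
    have hW2 := gaW_sq f hf (l + 1) c
    have hWa := gaW_sq f hf l (2 * c)
    have hWb := gaW_sq f hf l (2 * c + 1)
    have hD := gaD_quant f hf l c
    have hE : gaE f (l + 1) c = gaD f l c + 7 / 8 * (gaE f l (2 * c) + gaE f l (2 * c + 1)) := rfl
    have hEa := gaE_nonneg f hf l (2 * c)
    have hEb := gaE_nonneg f hf l (2 * c + 1)
    have hMa := gaM_nonneg f hf l (2 * c)
    have hMb := gaM_nonneg f hf l (2 * c + 1)
    rw [hpw] at hW2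
    rcases le_total x ((2 * c + 1) * 2 ^ l) with hx | hx
    · have hxa : 2 * c * 2 ^ l ≤ x := by rw [← hn1]; exact hx1
      have h1 := ih (2 * c) hxa hx
      have h2 := ga_dev_le f hf l (2 * c) x hxa hx
      refine ga_scalar (2 ^ l) _ _ _ _ _ _ _ _ _ _ hp hMa hMb hM (gaW_nonneg _ _ _)
        (gaW_nonneg _ _ _) hW2 hWa (gaD_nonneg f hf l c) hEa hD (by rw [hE]; linarith) ?_ h2 h1
      rw [hM, hn1, hpw]
      obtain ⟨z, hz⟩ : ∃ z : ℝ, z = (x : ℝ) - (2 * c * 2 ^ l : ℕ) := ⟨_, rfl⟩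
      have hz0 : 0 ≤ z := by
        rw [hz, sub_nonneg]
        exact_mod_cast hxa
      have hz1 : z ≤ 2 ^ l := by
        have e1 : (x : ℝ) ≤ ((2 * c + 1) * 2 ^ l : ℕ) := by exact_mod_cast hx
        rw [hz]
        push_cast at e1 ⊢
        linarith
      rw [← hz]
      have e1 : ∑ k ∈ Ico (2 * c * 2 ^ l) x, f k -
          z * ((gaM f l (2 * c) + gaM f l (2 * c + 1)) / (2 * 2 ^ l)) =
          (∑ k ∈ Ico (2 * c * 2 ^ l) x, f k - z * (gaM f l (2 * c) / 2 ^ l)) +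
            z / 2 ^ l * ((gaM f l (2 * c) - gaM f l (2 * c + 1)) / 2) := by
        field_simp
        ring
      rw [e1]
      refine (abs_add_le _ _).trans ?_
      have e2 : |z / 2 ^ l * ((gaM f l (2 * c) - gaM f l (2 * c + 1)) / 2)| ≤
          |gaM f l (2 * c) - gaM f l (2 * c + 1)| / 2 := by
        rw [abs_mul, abs_div _ (2 : ℝ), abs_of_pos (show (0 : ℝ) < 2 by norm_num),
          abs_of_nonneg (div_nonneg hz0 hp.le)]
        apply mul_le_of_le_one_left (by positivity)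
        rw [div_le_one hp]
        exact hz1
      linarith
    · have hxb : x ≤ (2 * c + 1 + 1) * 2 ^ l := by rw [← hn2]; exact hx2
      have h1 := ih (2 * c + 1) hx hxb
      have h2 := ga_dev_le f hf l (2 * c + 1) x hx hxb
      have hM' : gaM f (l + 1) c = gaM f l (2 * c + 1) + gaM f l (2 * c) := by
        rw [hM, add_comm]
      have hD' : (gaM f l (2 * c + 1) - gaM f l (2 * c)) ^ 2 * gaW f (l + 1) c ≤
          8 * gaM f (l + 1) c ^ 2 * gaD f l c := by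
        have e1 : (gaM f l (2 * c + 1) - gaM f l (2 * c)) ^ 2 =
            (gaM f l (2 * c) - gaM f l (2 * c + 1)) ^ 2 := by ring
        rw [e1]
        exact hD
      refine ga_scalar (2 ^ l) _ _ _ _ _ _ _ _ _ _ hp hMb hMa hM' (gaW_nonneg _ _ _)
        (gaW_nonneg _ _ _) hW2 hWb (gaD_nonneg f hf l c) hEb hD' (by rw [hE]; linarith) ?_ h2 h1
      rw [hM, hn1, hpw]
      obtain ⟨z, hz⟩ : ∃ z : ℝ, z = (x : ℝ) - ((2 * c + 1) * 2 ^ l : ℕ) := ⟨_, rfl⟩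
      have hz0 : 0 ≤ z := by
        rw [hz, sub_nonneg]
        exact_mod_cast hx
      have hz1 : z ≤ 2 ^ l := by
        have e1 : (x : ℝ) ≤ ((2 * c + 1 + 1) * 2 ^ l : ℕ) := by exact_mod_cast hxb
        rw [hz]
        push_cast at e1 ⊢
        linarith
      have hz' : (x : ℝ) - (2 * c * 2 ^ l : ℕ) = 2 ^ l + z := by
        rw [hz]
        push_cast
        ring
      rw [hz', ← hz]
      have e0 : ∑ k ∈ Ico (2 * c * 2 ^ l) x, f k = gaM f l (2 * c) +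
          ∑ k ∈ Ico ((2 * c + 1) * 2 ^ l) x, f k := by
        unfold gaM
        rw [sum_Ico_consecutive _ (by omega) hx]
      rw [e0]
      have e1 : gaM f l (2 * c) + ∑ k ∈ Ico ((2 * c + 1) * 2 ^ l) x, f k -
          (2 ^ l + z) * ((gaM f l (2 * c) + gaM f l (2 * c + 1)) / (2 * 2 ^ l)) =
          (∑ k ∈ Ico ((2 * c + 1) * 2 ^ l) x, f k - z * (gaM f l (2 * c + 1) / 2 ^ l)) -
            (1 - z / 2 ^ l) * ((gaM f l (2 * c + 1) - gaM f l (2 * c)) / 2) := by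
        field_simp
        ring
      rw [e1]
      refine (abs_sub _ _).trans ?_
      have e2 : |(1 - z / 2 ^ l) * ((gaM f l (2 * c + 1) - gaM f l (2 * c)) / 2)| ≤
          |gaM f l (2 * c + 1) - gaM f l (2 * c)| / 2 := by
        have e3 : z / 2 ^ l ≤ 1 := by
          rw [div_le_one hp]
          exact hz1
        have e4 : 0 ≤ z / 2 ^ l := div_nonneg hz0 hp.le
        rw [abs_mul, abs_div _ (2 : ℝ), abs_of_pos (show (0 : ℝ) < 2 by norm_num),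
          abs_of_nonneg (show 0 ≤ 1 - z / 2 ^ l by linarith)]
        apply mul_le_of_le_one_left (by positivity)
        linarith
      linarith

/-- An interval on which the sum deviates makes the block bad. -/
theorem ga_bad_of (f : ℕ → ℝ) (hf : ∀ k, 0 ≤ f k) (e : ℝ) (he : 0 ≤ e) (l c p q : ℕ)
    (hp : c * 2 ^ l ≤ p) (hpq : p ≤ q) (hq : q ≤ (c + 1) * 2 ^ l)
    (h : e * gaM f l c ≤ |∑ k ∈ Ico p q, f k - ((q : ℝ) - p) * (gaM f l c / 2 ^ l)|) :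
    gaBad f e l c := by
  have hM := gaM_nonneg f hf l c
  have hE := gaE_nonneg f hf l c
  have hW := gaW_nonneg f l c
  rcases eq_or_lt_of_le hM with h0 | h0
  · -- no mass
    have h1 : gaW f l c = 0 := by
      unfold gaW
      rw [← h0, mul_zero, Real.sqrt_zero]
    unfold gaBad
    rw [h1, mul_zero]
    linarith
  · have hp' := ga_dev f hf l c p hp (hpq.trans hq)
    have hq' := ga_dev f hf l c q (hp.trans hpq) hq
    obtain ⟨P, hP⟩ : ∃ P, P = ∑ k ∈ Ico (c * 2 ^ l) p, f k -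
      ((p : ℝ) - (c * 2 ^ l : ℕ)) * (gaM f l c / 2 ^ l) := ⟨_, rfl⟩
    obtain ⟨Q, hQ⟩ : ∃ Q, Q = ∑ k ∈ Ico (c * 2 ^ l) q, f k -
      ((q : ℝ) - (c * 2 ^ l : ℕ)) * (gaM f l c / 2 ^ l) := ⟨_, rfl⟩
    have h1 : ∑ k ∈ Ico p q, f k - ((q : ℝ) - p) * (gaM f l c / 2 ^ l) = Q - P := by
      rw [hP, hQ, ← sum_Ico_consecutive f hp hpq]
      ring
    rw [h1] at h
    rw [← hP] at hp'
    rw [← hQ] at hq'
    have h2 : (e * gaM f l c) ^ 2 ≤ (Q - P) ^ 2 := by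
      rw [← sq_abs (Q - P)]
      exact pow_le_pow_left₀ (by positivity) h 2
    have h3 : (Q - P) ^ 2 ≤ 2 * (Q ^ 2 + P ^ 2) := by nlinarith [sq_nonneg (Q + P)]
    have h4 : gaM f l c ^ 2 * (e ^ 2 * gaW f l c) ≤ gaM f l c ^ 2 * (1000 * gaE f l c) := by
      have h5 : (e * gaM f l c) ^ 2 * gaW f l c ≤ 2 * (Q ^ 2 + P ^ 2) * gaW f l c := by
        gcongr
        linarith
      have h6 : 0 ≤ gaM f l c ^ 2 * gaE f l c := by positivity
      nlinarith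
    exact le_of_mul_le_mul_left h4 (by positivity)

end Pool.Agent.H.MP_711652_nt.QW
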