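import Mathlib
import Pool.Agent.H.MP_711652_nt.QW.GAPack
import Pool.Agent.H.MP_711652_nt.QW.RoughS

set_option autoImplicit false

namespace Pool.Agent.H.MP_711652_nt.QW

open Finset Classical

/-- An interval whose average is not near the average of the block makes the block bad. -/
lemma ga_bad_av (h : ℕ → ℝ) (hh : ∀ k, 0 ≤ h k) (ε : ℝ) (hε : 0 < ε) (j c p q : ℕ)
    (hp : c * 2 ^ (j + 4) ≤ p) (hq : q ≤ (c + 1) * 2 ^ (j + 4)) (hlen : 2 ^ j ≤ q - p)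
    (hav : ε / 4 * (gaM h (j + 4) c / 2 ^ (j + 4)) ≤
      |av h p q - gaM h (j + 4) c / 2 ^ (j + 4)|) :
    gaBad h (ε / 64) (j + 4) c := by
  have h2j : 0 < 2 ^ j := by positivity
  have hpq : p ≤ q := by omega
  apply ga_bad_of h hh (ε / 64) (by positivity) (j + 4) c p q hp hpq hq
  obtain ⟨x, hx⟩ : ∃ x : ℝ, x = (q : ℝ) - p := ⟨_, rfl⟩
  have hxn : ((q - p : ℕ) : ℝ) = x := by rw [hx, Nat.cast_sub hpq]
  have hxj : (2 : ℝ) ^ j ≤ x := by
    rw [← hxn]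
    exact_mod_cast hlen
  have hx0 : 0 < x := lt_of_lt_of_le (by positivity) hxj
  obtain ⟨M, hM⟩ : ∃ M, M = gaM h (j + 4) c := ⟨_, rfl⟩
  have hM0 : 0 ≤ M := by
    rw [hM]
    exact gaM_nonneg h hh _ _
  obtain ⟨μ, hμ⟩ : ∃ μ, μ = M / 2 ^ (j + 4) := ⟨_, rfl⟩
  rw [← hM, ← hμ] at hav
  rw [← hM, ← hμ, ← hx]
  have h2 : ∑ k ∈ Ico p q, h k = x * av h p q := by
    unfold av
    rw [← hx]
    field_simp
  rw [h2]
  have e1 : x * av h p q - x * μ = x * (av h p q - μ) := by ring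
  rw [e1, abs_mul, abs_of_pos hx0]
  have e2 : ε / 64 * M = 2 ^ j * (ε / 4 * μ) := by
    rw [hμ, pow_add]
    field_simp
    ring
  rw [e2]
  have hμ0 : 0 ≤ μ := by
    rw [hμ]
    positivity
  exact mul_le_mul hxj hav (by positivity) hx0.le

/-- A rough scale gives a bad block. PROOF (as `rgh_rough`). Both intervals of `RoughM` lie in the
block `Q` of level `j + 4`, of average `μ`. If both averages were nearer than `ε μ / 4` to `μ` then
`a' < (1 + ε / 4) μ ≤ (1 + ε) (1 - ε / 4) μ < (1 + ε) a`. So one of the two intervals `I` has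
`|∑_I f - |I| μ| ≥ 2 ^ j ε μ / 4 = (ε / 64) gaM` (`|I| ≥ 2 ^ j`): `ga_bad_of`. -/
theorem ga_rough (h : ℕ → ℝ) (hh : ∀ k, 0 ≤ h k) (ε : ℝ) (hε : 0 < ε) (hε1 : ε ≤ 1) (j n : ℕ)
    (hz : 2 ^ (j + 1) ≤ n % 2 ^ (j + 4)) (hz' : n % 2 ^ (j + 4) + 2 ^ (j + 1) < 2 ^ (j + 4))
    (hR : RoughM h ε j n) : gaBad h (ε / 64) (j + 4) (n / 2 ^ (j + 4)) := by
  obtain ⟨p, q, p', q', a1, a2, a3, a4, a5, a6, a7, a8, a9⟩ := hR
  have e1 : n = n / 2 ^ (j + 4) * 2 ^ (j + 4) + n % 2 ^ (j + 4) := (Nat.div_add_mod' n _).symm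
  obtain ⟨c, hc⟩ : ∃ c, c = n / 2 ^ (j + 4) := ⟨_, rfl⟩
  rw [← hc] at e1 ⊢
  have e2 : (c + 1) * 2 ^ (j + 4) = c * 2 ^ (j + 4) + 2 ^ (j + 4) := by ring
  have key : ε / 4 * (gaM h (j + 4) c / 2 ^ (j + 4)) ≤
        |av h p q - gaM h (j + 4) c / 2 ^ (j + 4)| ∨
      ε / 4 * (gaM h (j + 4) c / 2 ^ (j + 4)) ≤
        |av h p' q' - gaM h (j + 4) c / 2 ^ (j + 4)| := by
    have hM0 : 0 ≤ gaM h (j + 4) c / 2 ^ (j + 4) :=
      div_nonneg (gaM_nonneg h hh _ _) (by positivity)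
    obtain ⟨μ, hμ⟩ : ∃ μ, μ = gaM h (j + 4) c / 2 ^ (j + 4) := ⟨_, rfl⟩
    rw [← hμ] at hM0 ⊢
    by_contra hcon
    rw [not_or, not_le, not_le, abs_lt, abs_lt] at hcon
    obtain ⟨⟨b1, b2⟩, b3, b4⟩ := hcon
    have h1 : (1 + ε) * ((1 - ε / 4) * μ) < (1 + ε) * av h p q := by
      apply mul_lt_mul_of_pos_left _ (by linarith)
      linarith
    have h2 : (1 + ε / 4) * μ ≤ (1 + ε) * ((1 - ε / 4) * μ) := by
      have h3 : 1 + ε / 4 ≤ (1 + ε) * (1 - ε / 4) := by nlinarith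
      have h4 := mul_le_mul_of_nonneg_right h3 hM0
      linarith
    linarith
  rcases key with hk | hk
  · exact ga_bad_av h hh ε hε j c p q (by omega) (by omega) a5 hk
  · exact ga_bad_av h hh ε hε j c p' q' (by omega) (by omega) a7 hk

lemma rghSh_roughM (g : ℕ → ℝ) (ε : ℝ) (A j k : ℕ) (h : RoughM g ε j k) :
    RoughM (rghSh g A) ε j (k + A) := by
  obtain ⟨p, q, p', q', a1, a2, a3, a4, a5, a6, a7, a8, a9⟩ := h
  refine ⟨p + A, q + A, p' + A, q' + A, by omega, by omega, by omega, by omega, by omega,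
    by omega, by omega, by omega, ?_⟩
  rw [rghSh_av, rghSh_av]
  exact a9

lemma rghSh_nonneg (g : ℕ → ℝ) (hg : ∀ k, 0 ≤ g k) (A k : ℕ) : 0 ≤ rghSh g A k := by
  unfold rghSh
  split_ifs
  · exact hg _
  · exact le_rfl

/-- The number of rough scales (two grids, as `rgh_count`). -/
theorem ga_count (f : ℕ → ℝ) (hf : ∀ k, 0 ≤ f k) (ε : ℝ) (hε : 0 < ε) (hε1 : ε ≤ 1)
    (N K A k : ℕ) (hA : 3 * A + 1 = 2 ^ K) (hN : 16 * N < 2 ^ K) :
    ((range N).filter (fun j => 2 ^ j ≤ N ∧ RoughM f ε j k)).card ≤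
      tailN (gaBad f (ε / 64)) K k + tailN (gaBad (rghSh f A) (ε / 64)) K (k + A) := by
  unfold tailN
  refine le_trans ?_ (card_union_le _ _)
  apply card_le_card_of_injOn (fun j => j + 4)
  · intro j hj
    rw [mem_coe, mem_filter, mem_range] at hj
    obtain ⟨-, hj2, hj3⟩ := hj
    have hjK : j + 4 < K := by
      have h1 : 2 ^ (j + 4) < 2 ^ K := by
        calc 2 ^ (j + 4) = 16 * 2 ^ j := by rw [pow_add]; ring
          _ ≤ 16 * N := Nat.mul_le_mul_left _ hj2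
          _ < 2 ^ K := hN
      exact (Nat.pow_lt_pow_iff_right (by norm_num)).1 h1
    have h2j : 0 < 2 ^ j := by positivity
    have e1 : 2 ^ (j + 4) = 16 * 2 ^ j := by rw [pow_add]; ring
    have e2 : 2 ^ (j + 1) = 2 * 2 ^ j := by rw [pow_add]; ring
    rw [mem_coe, mem_union, mem_filter, mem_filter, mem_range]
    rcases two_grids 1 (j + 4) K A k (2 ^ (j + 1)) (2 ^ (j + 4)) Nat.one_pos hA hjK.le
      (by rw [one_mul]) (by rw [e1, e2]; omega) with ⟨h1, h2⟩ | ⟨h1, h2⟩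
    · left
      exact ⟨hjK, ga_rough f hf ε hε hε1 j k h1 h2 hj3⟩
    · right
      rw [one_mul] at h1 h2
      exact ⟨hjK, ga_rough _ (rghSh_nonneg f hf A) ε hε hε1 j (k + A) h1 h2
        (rghSh_roughM f ε A j k hj3)⟩
  · intro a _ b _ hab
    simp only at hab
    omega

end Pool.Agent.H.MP_711652_nt.QW
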