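import Mathlib
import Pool.Agent.H.MP_711652_nt.QW.GAMom
import Pool.Agent.H.MP_711652_nt.QW.GARough
import Pool.Agent.H.MP_711652_nt.QW.GAChain

set_option autoImplicit false

namespace Pool.Agent.H.MP_711652_nt.QW

open Finset Classical

/-- Markov, with the bound for the number of small values of `f`. -/
lemma ga_markov (f : ℕ → ℝ) (N : ℕ) (L K0 B y : ℝ) (hL : 0 < L)
    (hK0 : 0 ≤ K0) (hy : 0 ≤ y) (hy1 : y ≤ 1) (n : ℕ → ℕ)
    (hlow : ∀ η : ℝ, 0 < η →
      (((range N).filter (fun k => f k ≤ η * L)).card : ℝ) ≤ K0 * η * N)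
    (hsum : ∑ k ∈ range N, Real.sqrt (f k) * (1 + y) ^ n k ≤ B * N * Real.sqrt L) (m : ℕ) :
    (((range N).filter (fun k => m ≤ n k)).card : ℝ) ≤
      (K0 + B) * Real.exp (-(y * m / 4)) * N := by
  obtain ⟨Z, hZ⟩ : ∃ Z, Z = Real.exp (-(y * m / 4)) := ⟨_, rfl⟩
  have hZ0 : 0 < Z := by rw [hZ]; exact Real.exp_pos _
  have hZ1 : Z ≤ 1 := by
    rw [hZ, Real.exp_le_one_iff]
    have : 0 ≤ y * m / 4 := by positivity
    linarith
  have hN0 : (0 : ℝ) ≤ N := Nat.cast_nonneg N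
  have hsL : 0 < Real.sqrt L := Real.sqrt_pos.2 hL
  rw [← hZ]
  set T := (range N).filter (fun k => m ≤ n k ∧ Z ^ 2 * L < f k) with hT
  have hsub : (range N).filter (fun k => m ≤ n k) ⊆
      (range N).filter (fun k => f k ≤ Z ^ 2 * L) ∪ T := by
    intro k hk
    rw [mem_filter] at hk
    rw [mem_union, mem_filter, hT, mem_filter]
    rcases le_or_gt (f k) (Z ^ 2 * L) with h | h
    · exact Or.inl ⟨hk.1, h⟩
    · exact Or.inr ⟨hk.1, hk.2, h⟩
  have h1 : (((range N).filter (fun k => m ≤ n k)).card : ℝ) ≤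
      (((range N).filter (fun k => f k ≤ Z ^ 2 * L)).card : ℝ) + T.card := by
    exact_mod_cast (card_le_card hsub).trans (card_union_le _ _)
  have h2 := hlow (Z ^ 2) (by positivity)
  have h3 : K0 * Z ^ 2 * N ≤ K0 * Z * N := by
    have : Z ^ 2 ≤ Z := by nlinarith
    gcongr
  -- `(1 + y) ^ m ≥ Z⁻¹ ^ 2`
  have hexp : Real.exp (y / 2) ≤ 1 + y := by
    have h := chain_exp y hy hy1
    exact h
  have h4 : 1 ≤ Z ^ 2 * (1 + y) ^ m := by
    have e1 : Real.exp (y / 2) ^ m ≤ (1 + y) ^ m :=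
      pow_le_pow_left₀ (Real.exp_pos _).le hexp m
    have e2 : Z ^ 2 * Real.exp (y / 2) ^ m = 1 := by
      rw [hZ, ← Real.exp_nat_mul, ← Real.exp_nat_mul, ← Real.exp_add]
      push_cast
      have : (2 : ℝ) * -(y * m / 4) + m * (y / 2) = 0 := by ring
      rw [this, Real.exp_zero]
    calc (1 : ℝ) = Z ^ 2 * Real.exp (y / 2) ^ m := e2.symm
      _ ≤ Z ^ 2 * (1 + y) ^ m := mul_le_mul_of_nonneg_left e1 (by positivity)
  have h5 : (T.card : ℝ) * Real.sqrt L ≤ Z * (B * N * Real.sqrt L) := by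
    have e1 : ∑ k ∈ T, Real.sqrt L ≤ ∑ k ∈ T, Z * (Real.sqrt (f k) * (1 + y) ^ n k) := by
      apply sum_le_sum
      intro k hk
      rw [hT, mem_filter] at hk
      obtain ⟨-, hk1, hk2⟩ := hk
      have e2 : Z * Real.sqrt L ≤ Real.sqrt (f k) := by
        rw [Real.le_sqrt' (by positivity), mul_pow, Real.sq_sqrt hL.le]
        exact hk2.le
      have e3 : (1 + y) ^ m ≤ (1 + y) ^ n k := pow_le_pow_right₀ (by linarith) hk1
      calc Real.sqrt L ≤ (Z ^ 2 * (1 + y) ^ m) * Real.sqrt L :=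
            le_mul_of_one_le_left hsL.le h4
        _ = Z * ((Z * Real.sqrt L) * (1 + y) ^ m) := by ring
        _ ≤ Z * (Real.sqrt (f k) * (1 + y) ^ n k) := by gcongr
    rw [sum_const, nsmul_eq_mul, ← mul_sum] at e1
    refine e1.trans ?_
    apply mul_le_mul_of_nonneg_left _ hZ0.le
    refine le_trans ?_ hsum
    apply sum_le_sum_of_subset_of_nonneg (filter_subset _ _)
    intro k _ _
    exact mul_nonneg (Real.sqrt_nonneg _) (by positivity)
  have h6 : (T.card : ℝ) ≤ Z * (B * N) := by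
    have e1 : (T.card : ℝ) * Real.sqrt L ≤ (Z * (B * N)) * Real.sqrt L := by
      calc _ ≤ _ := h5
        _ = _ := by ring
    exact le_of_mul_le_mul_right e1 hsL
  calc (((range N).filter (fun k => m ≤ n k)).card : ℝ) ≤ K0 * Z * N + Z * (B * N) := by linarith
    _ = (K0 + B) * Z * N := by ring

lemma gaM_zero_block (f : ℕ → ℝ) (i : ℕ) : gaM f i 0 = ∑ k ∈ range (2 ^ i), f k := by
  unfold gaM
  rw [zero_mul, zero_add, one_mul, Nat.Ico_zero_eq_range]

/-- The moment bound in one grid. -/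
lemma ga_grid (f : ℕ → ℝ) (hf : ∀ k, 0 ≤ f k) (e : ℝ) (he : 0 < e) (he1 : e ≤ 1) (K N : ℕ)
    (L K0 : ℝ) (hL : 0 < L) (hK0 : 1 ≤ K0) (h2K : (2 : ℝ) ^ K ≤ 64 * N)
    (hsum : ∑ k ∈ range (2 ^ K), f k ≤ K0 * N * L) :
    ∑ k ∈ range (2 ^ K), Real.sqrt (f k) * (1 + e ^ 2 / 16000) ^ tailN (gaBad f e) K k ≤
      16 * K0 * N * Real.sqrt L := by
  have h1 := ga_moment f hf e he he1 K 0
  rw [zero_mul, zero_add, one_mul, Nat.Ico_zero_eq_range] at h1
  have hN0 : (0 : ℝ) ≤ N := Nat.cast_nonneg N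
  have h2 : ∑ k ∈ range (2 ^ K), Real.sqrt (f k) * (1 + e ^ 2 / 16000) ^ tailN (gaBad f e) K k ≤
      ∑ k ∈ range (2 ^ K),
        Real.sqrt (f k) * (1 + e ^ 2 / 16000) ^ tailN (gaBad f e) (K + 1) k := by
    apply sum_le_sum
    intro k _
    apply mul_le_mul_of_nonneg_left _ (Real.sqrt_nonneg _)
    apply pow_le_pow_right₀
    · have := sq_nonneg e
      linarith
    · rw [tailN_succ]
      exact Nat.le_add_right _ _
  refine (h2.trans h1).trans ?_
  have h3 : gaW f K 0 ≤ 8 * K0 * N * Real.sqrt L := by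
    unfold gaW
    rw [gaM_zero_block]
    have e1 : (2 : ℝ) ^ K * ∑ k ∈ range (2 ^ K), f k ≤ (8 * K0 * N * Real.sqrt L) ^ 2 := by
      have e2 : (8 * K0 * N * Real.sqrt L) ^ 2 = 64 * N * (K0 ^ 2 * N * L) := by
        have := Real.sq_sqrt hL.le
        calc (8 * K0 * N * Real.sqrt L) ^ 2 = 64 * N * (K0 ^ 2 * N * (Real.sqrt L ^ 2)) := by ring
          _ = _ := by rw [this]
      rw [e2]
      have e3 : K0 * N * L ≤ K0 ^ 2 * N * L := by
        have : K0 ≤ K0 ^ 2 := by nlinarith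
        gcongr
      have e4 : 0 ≤ ∑ k ∈ range (2 ^ K), f k := sum_nonneg fun k _ => hf k
      exact mul_le_mul h2K (hsum.trans e3) e4 (by positivity)
    calc Real.sqrt (2 ^ K * ∑ k ∈ range (2 ^ K), f k)
        ≤ Real.sqrt ((8 * K0 * N * Real.sqrt L) ^ 2) := Real.sqrt_le_sqrt e1
      _ = 8 * K0 * N * Real.sqrt L := Real.sqrt_sq (by positivity)
  linarith

/-- Few jumps by a factor of the averages of `f`, from a bound for the sum of `f` and a bound for
the number of small values of `f`. -/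
theorem chainM_tail (K0 : ℝ) (hK0 : 1 ≤ K0) : ∃ C : ℝ, 1 ≤ C ∧ ∀ f : ℕ → ℝ, (∀ k, 0 < f k) →
    ∀ N : ℕ, 1 ≤ N → ∀ L : ℝ, 0 < L → ∑ k ∈ range (64 * N), f k ≤ K0 * N * L →
    (∀ η : ℝ, 0 < η → (((range N).filter (fun k => f k ≤ η * L)).card : ℝ) ≤ K0 * η * N) →
    ∀ ε : ℝ, 0 < ε → ε ≤ 1 → ∀ m : ℕ,
    (((range N).filter (fun k => ChainM f N ε m k)).card : ℝ) ≤
      C * Real.exp (-(ε ^ 2 * m / C)) * N := by
  refine ⟨60000000000 * K0, by linarith, ?_⟩
  intro f hf N hN L hL hfs hlow ε hε hε1 m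
  have hf0 : ∀ k, 0 ≤ f k := fun k => (hf k).le
  have hN1 : (1 : ℝ) ≤ N := by exact_mod_cast hN
  have hN0 : (0 : ℝ) ≤ N := by linarith
  have hsL : 0 < Real.sqrt L := Real.sqrt_pos.2 hL
  -- the top level
  obtain ⟨k0, hk1, hk2⟩ := exists_nat_pow_near (show (1 : ℝ) ≤ 16 * N by linarith)
    (show (1 : ℝ) < 4 by norm_num)
  obtain ⟨K, hK⟩ : ∃ K, K = 2 * (k0 + 1) := ⟨_, rfl⟩
  obtain ⟨A, hA⟩ : ∃ A, A = 4 ^ (k0 + 1) / 3 := ⟨_, rfl⟩
  have h2K : 2 ^ K = 4 ^ (k0 + 1) := by rw [hK, pow_mul]; norm_num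
  have hAK : 3 * A + 1 = 2 ^ K := by
    have h1 : 4 ^ (k0 + 1) % 3 = 1 := by rw [Nat.pow_mod]; norm_num
    rw [h2K, hA]
    omega
  have hNK : 16 * N < 2 ^ K := by
    rw [h2K]
    exact_mod_cast hk2
  have hNK2 : (2 : ℝ) ^ K ≤ 64 * N := by
    have h1 : (2 : ℝ) ^ K = 4 ^ (k0 + 1) := by exact_mod_cast h2K
    rw [h1, pow_succ]
    linarith
  have hNK3 : 2 ^ K ≤ 64 * N := by exact_mod_cast hNK2
  -- the sums over the top blocks
  have hs1 : ∑ k ∈ range (2 ^ K), f k ≤ K0 * N * L := by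
    refine le_trans ?_ hfs
    apply sum_le_sum_of_subset_of_nonneg
    · exact range_subset_range.2 hNK3
    · intro k _ _
      exact hf0 k
  set h := rghSh f A with hh
  have hh0 : ∀ k, 0 ≤ h k := rghSh_nonneg f hf0 A
  have hs2 : ∑ k ∈ range (2 ^ K), h k ≤ K0 * N * L := by
    refine le_trans ?_ hs1
    have e1 : ∑ k ∈ range (2 ^ K), h k = ∑ k ∈ range A, h k + ∑ k ∈ range (2 ^ K - A), h (A + k) := by
      have : 2 ^ K = A + (2 ^ K - A) := by omega
      conv_lhs => rw [this, sum_range_add]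
    have e2 : ∑ k ∈ range A, h k = 0 := by
      apply sum_eq_zero
      intro k hk
      rw [mem_range] at hk
      rw [hh]
      unfold rghSh
      rw [if_neg (by omega)]
    have e3 : ∀ k, h (A + k) = f k := by
      intro k
      rw [hh]
      unfold rghSh
      rw [if_pos (Nat.le_add_right A k), Nat.add_sub_cancel_left]
    rw [e1, e2, zero_add, sum_congr rfl (fun k _ => e3 k)]
    apply sum_le_sum_of_subset_of_nonneg
    · exact range_subset_range.2 (Nat.sub_le _ _)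
    · intro k _ _
      exact hf0 k
  obtain ⟨e, he⟩ : ∃ e, e = ε / 8 / 64 := ⟨_, rfl⟩
  have he0 : 0 < e := by rw [he]; positivity
  have he1 : e ≤ 1 := by rw [he]; linarith
  obtain ⟨y, hy⟩ : ∃ y, y = e ^ 2 / 16000 := ⟨_, rfl⟩
  have hy0 : 0 ≤ y := by rw [hy]; positivity
  have hy1 : y ≤ 1 := by
    have : e ^ 2 ≤ 1 := pow_le_one₀ he0.le he1
    rw [hy]
    linarith
  have hyε : y = ε ^ 2 / 4194304000 := by
    rw [hy, he]
    ring
  obtain ⟨z, hz⟩ : ∃ z, z = (ε / 8) ^ 2 / 20 := ⟨_, rfl⟩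
  have hz0 : 0 ≤ z := by rw [hz]; positivity
  have hz1 : z ≤ 1 := by
    have : (ε / 8) ^ 2 ≤ 1 := pow_le_one₀ (by positivity) (by linarith)
    rw [hz]
    linarith
  have hzε : z = ε ^ 2 / 1280 := by
    rw [hz]
    ring
  obtain ⟨m', hm'⟩ : ∃ m', m' = (m + 2) / 3 := ⟨_, rfl⟩
  have hm3 : (m : ℝ) ≤ 3 * m' := by
    have : m ≤ 3 * m' := by omega
    exact_mod_cast this
  -- the first grid
  have g1 := ga_grid f hf0 e he0 he1 K N L K0 hL hK0 hNK2 hs1
  rw [← hy] at g1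
  have g1' : ∑ k ∈ range N, Real.sqrt (f k) * (1 + y) ^ tailN (gaBad f e) K k ≤
      16 * K0 * N * Real.sqrt L := by
    refine le_trans ?_ g1
    apply sum_le_sum_of_subset_of_nonneg
    · exact range_subset_range.2 (by omega)
    · intro k _ _
      exact mul_nonneg (Real.sqrt_nonneg _) (by positivity)
  have m1 := ga_markov f N L K0 (16 * K0) y hL (by linarith) hy0 hy1
    (fun k => tailN (gaBad f e) K k) hlow g1' m'
  -- the second grid
  have g2 := ga_grid h hh0 e he0 he1 K N L K0 hL hK0 hNK2 hs2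
  rw [← hy] at g2
  have g2' : ∑ k ∈ range N, Real.sqrt (f k) * (1 + y) ^ tailN (gaBad h e) K (k + A) ≤
      16 * K0 * N * Real.sqrt L := by
    refine le_trans ?_ g2
    have e1 : ∑ k ∈ range N, Real.sqrt (f k) * (1 + y) ^ tailN (gaBad h e) K (k + A) =
        ∑ k ∈ Ico A (N + A), Real.sqrt (h k) * (1 + y) ^ tailN (gaBad h e) K k := by
      rw [sum_Ico_eq_sum_range]
      have e2 : N + A - A = N := by omega
      rw [e2]
      apply sum_congr rfl
      intro k _
      have e3 : h (A + k) = f k := by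
        rw [hh]
        unfold rghSh
        rw [if_pos (Nat.le_add_right A k), Nat.add_sub_cancel_left]
      rw [e3, add_comm k A]
    rw [e1]
    apply sum_le_sum_of_subset_of_nonneg
    · intro k hk
      rw [mem_Ico] at hk
      rw [mem_range]
      omega
    · intro k _ _
      exact mul_nonneg (Real.sqrt_nonneg _) (by positivity)
  have m2 := ga_markov f N L K0 (16 * K0) y hL (by linarith) hy0 hy1
    (fun k => tailN (gaBad h e) K (k + A)) hlow g2' m'
  -- the stops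
  have hlog1 : N < 2 ^ (Nat.log 2 N + 1) := Nat.lt_pow_succ_log_self (by norm_num) N
  have hlog2 : 2 ^ (Nat.log 2 N + 1) ≤ 2 * N := by
    rw [pow_succ]
    have := Nat.pow_log_le_self 2 (show N ≠ 0 by omega)
    omega
  have hlog3 : (2 : ℝ) ^ (Nat.log 2 N + 1) ≤ 2 * N := by exact_mod_cast hlog2
  have g3 := stopsM_moment f hf (ε / 8) (by positivity) (by linarith) (Nat.log 2 N + 1) 0 L hL
  rw [zero_mul, zero_add, one_mul, Nat.Ico_zero_eq_range, gaM_zero_block, ← hz] at g3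
  have hs3 : ∑ k ∈ range (2 ^ (Nat.log 2 N + 1)), f k ≤ K0 * N * L := by
    refine le_trans ?_ hfs
    apply sum_le_sum_of_subset_of_nonneg
    · exact range_subset_range.2 (by omega)
    · intro k _ _
      exact hf0 k
  have g3' : ∑ k ∈ range N, Real.sqrt (f k) *
      (1 + z) ^ stopsM f (ε / 8) (Nat.log 2 N + 1) L k ≤ 2 * K0 * N * Real.sqrt L := by
    have e1 : ∑ k ∈ range N, Real.sqrt (f k) *
        (1 + z) ^ stopsM f (ε / 8) (Nat.log 2 N + 1) L k ≤
        ∑ k ∈ range (2 ^ (Nat.log 2 N + 1)), Real.sqrt (f k) *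
        (1 + z) ^ stopsM f (ε / 8) (Nat.log 2 N + 1) L k := by
      apply sum_le_sum_of_subset_of_nonneg
      · exact range_subset_range.2 hlog1.le
      · intro k _ _
        exact mul_nonneg (Real.sqrt_nonneg _) (by positivity)
    refine (e1.trans g3).trans ?_
    rw [div_le_iff₀ (by positivity)]
    have e2 : 2 * K0 * N * Real.sqrt L * (2 * Real.sqrt L) = 4 * K0 * N * L := by
      have := Real.sq_sqrt hL.le
      calc 2 * K0 * N * Real.sqrt L * (2 * Real.sqrt L) = 4 * K0 * N * (Real.sqrt L ^ 2) := by ring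
        _ = _ := by rw [this]
    rw [e2]
    have e3 : (2 : ℝ) ^ (Nat.log 2 N + 1) * L ≤ 2 * N * L := by gcongr
    have e4 : (N : ℝ) * L ≤ K0 * (N * L) := le_mul_of_one_le_left (by positivity) hK0
    nlinarith
  have m3 := ga_markov f N L K0 (2 * K0) z hL (by linarith) hz0 hz1
    (fun k => stopsM f (ε / 8) (Nat.log 2 N + 1) L k) hlow g3' m'
  -- the union
  have hsub : (range N).filter (fun k => ChainM f N ε m k) ⊆
      ((range N).filter (fun k => m' ≤ tailN (gaBad f e) K k) ∪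
      (range N).filter (fun k => m' ≤ tailN (gaBad h e) K (k + A))) ∪
      (range N).filter (fun k => m' ≤ stopsM f (ε / 8) (Nat.log 2 N + 1) L k) := by
    intro k hk
    rw [mem_filter] at hk
    have h1 := chainM_count f hf N ε hε hε1 m k L hL hk.2
    have h2 := ga_count f hf0 (ε / 8) (by positivity) (by linarith) N K A k hAK hNK
    rw [← he, ← hh] at h2
    rw [mem_union, mem_union, mem_filter, mem_filter, mem_filter]
    by_contra hcon
    rw [not_or, not_or, not_and, not_and, not_and] at hcon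
    have h3 := hcon.1.1 hk.1
    have h4 := hcon.1.2 hk.1
    have h5 := hcon.2 hk.1
    omega
  have hcard : (((range N).filter (fun k => ChainM f N ε m k)).card : ℝ) ≤
      (((range N).filter (fun k => m' ≤ tailN (gaBad f e) K k)).card : ℝ) +
      ((range N).filter (fun k => m' ≤ tailN (gaBad h e) K (k + A))).card +
      ((range N).filter (fun k => m' ≤ stopsM f (ε / 8) (Nat.log 2 N + 1) L k)).card := by
    exact_mod_cast (card_le_card hsub).trans ((card_union_le _ _).trans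
      (Nat.add_le_add_right (card_union_le _ _) _))
  -- the exponentials
  obtain ⟨C, hC⟩ : ∃ C, C = 60000000000 * K0 := ⟨_, rfl⟩
  have hC0 : 0 < C := by rw [hC]; positivity
  rw [← hC]
  have hx1 : Real.exp (-(y * m' / 4)) ≤ Real.exp (-(ε ^ 2 * m / C)) := by
    apply Real.exp_le_exp.2
    apply neg_le_neg
    rw [hyε]
    calc ε ^ 2 * m / C ≤ ε ^ 2 * (3 * m') / C := by gcongr
      _ ≤ ε ^ 2 * (3 * m') / 60000000000 := by
          gcongr
          rw [hC]
          linarith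
      _ ≤ ε ^ 2 / 4194304000 * m' / 4 := by
          have : 0 ≤ ε ^ 2 * (m' : ℝ) := by positivity
          linarith
  have hx2 : Real.exp (-(z * m' / 4)) ≤ Real.exp (-(ε ^ 2 * m / C)) := by
    apply Real.exp_le_exp.2
    apply neg_le_neg
    rw [hzε]
    calc ε ^ 2 * m / C ≤ ε ^ 2 * (3 * m') / C := by gcongr
      _ ≤ ε ^ 2 * (3 * m') / 60000000000 := by
          gcongr
          rw [hC]
          linarith
      _ ≤ ε ^ 2 / 1280 * m' / 4 := by
          have : 0 ≤ ε ^ 2 * (m' : ℝ) := by positivity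
          linarith
  obtain ⟨E, hE⟩ : ∃ E, E = Real.exp (-(ε ^ 2 * m / C)) := ⟨_, rfl⟩
  have hE0 : 0 < E := by rw [hE]; exact Real.exp_pos _
  rw [← hE] at hx1 hx2 ⊢
  have n1 : (K0 + 16 * K0) * Real.exp (-(y * m' / 4)) * N ≤ (K0 + 16 * K0) * E * N := by gcongr
  have n3 : (K0 + 2 * K0) * Real.exp (-(z * m' / 4)) * N ≤ (K0 + 2 * K0) * E * N := by gcongr
  calc (((range N).filter (fun k => ChainM f N ε m k)).card : ℝ)
      ≤ (K0 + 16 * K0) * E * N + (K0 + 16 * K0) * E * N + (K0 + 2 * K0) * E * N := by linarith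
    _ = (37 * K0) * E * N := by ring
    _ ≤ C * E * N := by
        have : 37 * K0 ≤ C := by rw [hC]; linarith
        gcongr

end Pool.Agent.H.MP_711652_nt.QW
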