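import Mathlib
import Pool.Agent.H.MP_711652_nt.BiLipPrimes

set_option autoImplicit false

namespace Pool.Agent.H.MP_711652_nt.QW

open Finset Classical

/-- The gap `p_{k+1} - p_k`. -/
noncomputable def gapK (k : ℕ) : ℝ := (Nat.nth Nat.Prime (k + 1) : ℝ) - Nat.nth Nat.Prime k

lemma gapK_pos (k : ℕ) : 0 < gapK k := by
  have h : Nat.nth Nat.Prime k < Nat.nth Nat.Prime (k + 1) :=
    BiLip.pr_strictMono (Nat.lt_succ_self k)
  unfold gapK
  rw [sub_pos]
  exact_mod_cast h

lemma sum_gapK (a b : ℕ) (hab : a ≤ b) :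
    ∑ k ∈ Ico a b, gapK k = (Nat.nth Nat.Prime b : ℝ) - Nat.nth Nat.Prime a := by
  unfold gapK
  induction b, hab using Nat.le_induction with
  | base => simp
  | succ n hn ih =>
    rw [sum_Ico_succ_top hn, ih]
    ring

/-- The two facts on the gaps: `p_M ≤ C M log M` and the pair sieve (in index form). -/
theorem gap_facts : ∃ K0 : ℝ, 1 ≤ K0 ∧ ∀ N : ℕ, 1 ≤ N → ∃ L : ℝ, 0 < L ∧
    ∑ k ∈ range (64 * N), gapK k ≤ K0 * N * L ∧
    ∀ η : ℝ, 0 < η → (((range N).filter (fun k => gapK k ≤ η * L)).card : ℝ) ≤ K0 * η * N := by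
  obtain ⟨A2, hA2, hpairs⟩ := BiLip.idxPairs_bound
  refine ⟨5460 + 2 * A2, by linarith, ?_⟩
  intro N hN
  have hN1 : (1 : ℝ) ≤ N := by exact_mod_cast hN
  obtain ⟨L, hLd⟩ : ∃ L, L = Real.log ((N + 1 : ℕ) : ℝ) := ⟨_, rfl⟩
  have hL : 0 < L := by
    rw [hLd]
    apply Real.log_pos
    push_cast
    linarith
  refine ⟨L, hL, ?_, ?_⟩
  · have h1 : ∑ k ∈ range (64 * N), gapK k ≤ (Nat.nth Nat.Prime (64 * N) : ℝ) := by
      rw [← Nat.Ico_zero_eq_range, sum_gapK _ _ (Nat.zero_le _)]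
      have : (0 : ℝ) ≤ (Nat.nth Nat.Prime 0 : ℝ) := Nat.cast_nonneg _
      linarith
    have h2 := BiLip.pr_upper (64 * N)
    have h3 : Real.log (((64 * N : ℕ) : ℝ) + 2) ≤ 7 * L := by
      have e1 : ((64 * N : ℕ) : ℝ) + 2 ≤ ((N + 1 : ℕ) : ℝ) ^ 7 := by
        have e2 : (2 : ℝ) ≤ ((N + 1 : ℕ) : ℝ) := by
          push_cast
          linarith
        have e3 : (2 : ℝ) ^ 6 ≤ ((N + 1 : ℕ) : ℝ) ^ 6 := pow_le_pow_left₀ (by norm_num) e2 6
        calc ((64 * N : ℕ) : ℝ) + 2 ≤ 2 ^ 6 * ((N + 1 : ℕ) : ℝ) := by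
              push_cast
              linarith
          _ ≤ ((N + 1 : ℕ) : ℝ) ^ 6 * ((N + 1 : ℕ) : ℝ) := by gcongr
          _ = _ := by ring
      have e4 : Real.log (((64 * N : ℕ) : ℝ) + 2) ≤ Real.log (((N + 1 : ℕ) : ℝ) ^ 7) :=
        Real.log_le_log (by positivity) e1
      rw [Real.log_pow] at e4
      rw [hLd]
      exact_mod_cast e4
    have h0 : 0 ≤ Real.log (((64 * N : ℕ) : ℝ) + 2) := by
      apply Real.log_nonneg
      have : (0 : ℝ) ≤ ((64 * N : ℕ) : ℝ) := Nat.cast_nonneg _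
      linarith
    have h4 : (BiLip.pr (64 * N) : ℝ) ≤ 5460 * N * L := by
      calc (BiLip.pr (64 * N) : ℝ)
          ≤ 12 * (((64 * N : ℕ) : ℝ) + 1) * Real.log (((64 * N : ℕ) : ℝ) + 2) := h2
        _ ≤ 12 * (65 * N) * (7 * L) := by
            gcongr
            push_cast
            linarith
        _ = 5460 * N * L := by ring
    have h5 : (5460 : ℝ) * N * L ≤ (5460 + 2 * A2) * N * L := by
      gcongr
      linarith
    exact h1.trans (h4.trans h5)
  · intro η hη
    obtain ⟨J, hJ⟩ : ∃ J, J = ⌊η * L⌋₊ := ⟨_, rfl⟩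
    have hJ1 : (J : ℝ) ≤ η * L := by
      rw [hJ]
      exact Nat.floor_le (by positivity)
    have h1 : ((range N).filter (fun k => gapK k ≤ η * L)).card ≤
        BiLip.idxPairs BiLip.pr (N + 1) J := by
      unfold BiLip.idxPairs
      apply card_le_card_of_injOn (fun k => (k, k + 1))
      · intro k hk
        rw [mem_coe, mem_filter, mem_range] at hk
        obtain ⟨hk1, hk2⟩ := hk
        rw [mem_coe, mem_filter, mem_product, mem_range, mem_range]
        refine ⟨⟨?_, ?_⟩, ?_, ?_⟩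
        · simp only
          omega
        · simp only
          omega
        · simp only
          omega
        · simp only
          have e1 := BiLip.pr_strictMono (Nat.lt_succ_self k)
          have e2 : BiLip.pr (k + 1) - BiLip.pr k ≤ J := by
            rw [hJ]
            apply Nat.le_floor
            rw [Nat.cast_sub e1.le]
            exact hk2
          have e3 : BiLip.pr k < BiLip.pr (k + 1) := e1
          omega
      · intro a _ b _ hab
        simp only [Prod.mk.injEq] at hab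
        exact hab.1
    have h2 := hpairs (N + 1) (by omega) J
    rw [← hLd] at h2
    have h3 : (((range N).filter (fun k => gapK k ≤ η * L)).card : ℝ) ≤
        (BiLip.idxPairs BiLip.pr (N + 1) J : ℝ) := by exact_mod_cast h1
    refine (h3.trans h2).trans ?_
    rw [div_le_iff₀ hL]
    have h4 : ((N + 1 : ℕ) : ℝ) ≤ 2 * N := by
      push_cast
      linarith
    calc A2 * J * ((N + 1 : ℕ) : ℝ) ≤ A2 * (η * L) * (2 * N) := by gcongr
      _ = (2 * A2) * η * N * L := by ring
      _ ≤ (5460 + 2 * A2) * η * N * L := by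
          gcongr
          linarith

end Pool.Agent.H.MP_711652_nt.QW
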