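import Mathlib
import Pool.Agent.H.MP_711652_nt.Moments
import Pool.Agent.H.MP_711652_nt.QW.Defs

set_option autoImplicit false

namespace Pool.Agent.H.MP_711652_nt.QW

open Finset

/-- The primes of a block. -/
def blkP (b k : ℕ) : Finset ℕ :=
  (range ((k + 1) * b)).filter (fun p => p.Prime ∧ p / b = k)

/-- The ordered pairs of primes of a block. -/
def ltP (b k : ℕ) : Finset (ℕ × ℕ) := (blkP b k ×ˢ blkP b k).filter (fun q => q.1 < q.2)

lemma Fb_eq (b k : ℕ) : Fb b k = (blkP b k).card := rfl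

lemma sq_card_le (b k : ℕ) : (blkP b k).card ^ 2 ≤ (blkP b k).card + 2 * (ltP b k).card := by
  set S := blkP b k with hS
  have h1 : S ×ˢ S ⊆ (S.image (fun p => (p, p))) ∪ (ltP b k ∪ (ltP b k).image Prod.swap) := by
    intro q hq
    rw [mem_product] at hq
    rw [mem_union, mem_union]
    rcases lt_trichotomy q.1 q.2 with h | h | h
    · right; left
      unfold ltP
      rw [mem_filter, mem_product]
      exact ⟨hq, h⟩
    · left
      rw [mem_image]
      exact ⟨q.1, hq.1, Prod.ext rfl h⟩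
    · right; right
      rw [mem_image]
      refine ⟨q.swap, ?_, Prod.swap_swap q⟩
      unfold ltP
      rw [mem_filter, mem_product]
      exact ⟨⟨hq.2, hq.1⟩, h⟩
  have h2 := card_le_card h1
  rw [card_product] at h2
  have h3 := card_union_le (S.image (fun p => (p, p))) (ltP b k ∪ (ltP b k).image Prod.swap)
  have h4 := card_union_le (ltP b k) ((ltP b k).image Prod.swap)
  have h5 : ((ltP b k).image Prod.swap).card ≤ (ltP b k).card := card_image_le
  have h6 : (S.image (fun p => (p, p))).card ≤ S.card := card_image_le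
  rw [sq]
  omega

lemma card_le_one_add (b k : ℕ) : (blkP b k).card ≤ 1 + (ltP b k).card := by
  rcases (blkP b k).eq_empty_or_nonempty with he | hne
  · rw [he]; simp
  · obtain ⟨m, hm, hmin⟩ := (blkP b k).exists_min_image id hne
    have h1 : (blkP b k).erase m ⊆ (ltP b k).image Prod.snd := by
      intro q hq
      rw [mem_erase] at hq
      rw [mem_image]
      refine ⟨(m, q), ?_, rfl⟩
      unfold ltP
      rw [mem_filter, mem_product]
      refine ⟨⟨hm, hq.2⟩, lt_of_le_of_ne (hmin q hq.2) (Ne.symm hq.1)⟩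
    have h2 := card_le_card h1
    have h3 : ((ltP b k).image Prod.snd).card ≤ (ltP b k).card := card_image_le
    rw [card_erase_of_mem hm] at h2
    omega

lemma sum_ltP (b y H : ℕ) (hb : 0 < b) (K : Finset ℕ)
    (hK : ∀ k ∈ K, y - H ≤ k * b ∧ (k + 1) * b ≤ y + H + 1) :
    ∑ k ∈ K, (ltP b k).card ≤ ∑ h ∈ Icc 1 b, prPairs y H h := by
  have h1 : ∑ k ∈ K, (ltP b k).card = (K.sigma (fun k => ltP b k)).card := by
    rw [card_sigma]
  have h2 : ∑ h ∈ Icc 1 b, prPairs y H h = ((Icc 1 b).sigma (fun h =>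
      (Icc (y - H) (y + H)).filter (fun n => n.Prime ∧ (n + h).Prime))).card := by
    rw [card_sigma]
    rfl
  rw [h1, h2]
  have hmem : ∀ q ∈ K.sigma (fun k => ltP b k), q.1 ∈ K ∧ q.2.1 < q.2.2 ∧ q.2.1.Prime ∧
      q.2.2.Prime ∧ q.2.1 / b = q.1 ∧ q.2.2 / b = q.1 := by
    intro q hq
    rw [mem_sigma] at hq
    unfold ltP blkP at hq
    rw [mem_filter, mem_product, mem_filter, mem_filter] at hq
    exact ⟨hq.1, hq.2.2, hq.2.1.1.2.1, hq.2.1.2.2.1, hq.2.1.1.2.2, hq.2.1.2.2.2⟩
  apply card_le_card_of_injOn (fun q => (⟨q.2.2 - q.2.1, q.2.1⟩ : Sigma (fun _ : ℕ => ℕ)))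
  · intro q hq
    obtain ⟨h3, h4, h5, h6, h7, h8⟩ := hmem q hq
    obtain ⟨h9, h10⟩ := hK q.1 h3
    rw [Finset.mem_coe, mem_sigma, mem_filter, mem_Icc, mem_Icc]
    simp only
    have e1 : q.2.1 + (q.2.2 - q.2.1) = q.2.2 := by omega
    rw [e1]
    have h11 : q.1 * b ≤ q.2.1 := by
      rw [← h7]; exact Nat.div_mul_le_self _ _
    have h12 : q.2.2 < (q.1 + 1) * b := by
      rw [← Nat.div_lt_iff_lt_mul hb, h8]; omega
    have h13 : (q.1 + 1) * b = q.1 * b + b := by ring
    exact ⟨⟨by omega, by omega⟩, ⟨by omega, by omega⟩, h5, h6⟩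
  · intro q hq r hr hqr
    obtain ⟨h3, h4, h5, h6, h7, h8⟩ := hmem q hq
    obtain ⟨g3, g4, g5, g6, g7, g8⟩ := hmem r hr
    simp only [Sigma.mk.injEq, heq_eq_eq] at hqr
    obtain ⟨e1, e2⟩ := hqr
    have e3 : q.2.2 = r.2.2 := by omega
    have e4 : q.2 = r.2 := Prod.ext e2 e3
    have e5 : q.1 = r.1 := by rw [← h7, ← g7, e2]
    exact Sigma.ext e5 (heq_of_eq e4)

/-- The second moment of the block counts in a window. -/
theorem second_blocks (C L : ℝ) (y H b : ℕ) (hC : 0 < C) (hL : 1 ≤ L) (hLb : L ≤ b)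
    (hbL : (b : ℝ) ≤ 4 * L) (hH : L ^ 2 ≤ H) (hP : PairOK C L y H) (K : Finset ℕ)
    (hK : ∀ k ∈ K, y - H ≤ k * b ∧ (k + 1) * b ≤ y + H + 1) :
    ∑ k ∈ K, ((Fb b k : ℕ) : ℝ) ^ 2 ≤ (12 * C + 4) * H / L := by
  have hL0 : 0 < L := by linarith
  have hb0R : (0 : ℝ) < b := by linarith
  have hb0 : 0 < b := by exact_mod_cast hb0R
  have hH1 : (1 : ℝ) ≤ H := by nlinarith
  have h1 : ∀ k ∈ K, (Fb b k) ^ 2 ≤ 1 + 3 * (ltP b k).card := by
    intro k _
    have h2 := sq_card_le b k
    have h3 := card_le_one_add b k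
    rw [Fb_eq]
    omega
  have h2 : ∑ k ∈ K, (Fb b k) ^ 2 ≤ K.card + 3 * ∑ h ∈ Icc 1 b, prPairs y H h := by
    refine (sum_le_sum h1).trans ?_
    rw [sum_add_distrib, sum_const, smul_eq_mul, mul_one, ← mul_sum]
    have := sum_ltP b y H hb0 K hK
    omega
  have h3 : (K.card : ℝ) ≤ 3 * H / L := by
    -- the blocks are disjoint subsets of the window
    have h4 : K.card * b ≤ 2 * H + 1 := by
      have h5 : (K.sigma (fun _ => range b)).card ≤ (Icc (y - H) (y + H)).card := by
        apply card_le_card_of_injOn (fun q => q.1 * b + q.2)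
        · intro q hq
          rw [Finset.mem_coe, mem_sigma, mem_range] at hq
          obtain ⟨h6, h7⟩ := hK q.1 hq.1
          rw [Finset.mem_coe, mem_Icc]
          have h8 : (q.1 + 1) * b = q.1 * b + b := by ring
          have h9 := hq.2
          simp only
          omega
        · intro q hq r hr hqr
          rw [Finset.mem_coe, mem_sigma, mem_range] at hq hr
          simp only at hqr
          have e1 : q.1 = r.1 := by
            have e2 : (q.1 * b + q.2) / b = q.1 := by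
              rw [mul_comm, Nat.mul_add_div hb0, Nat.div_eq_of_lt hq.2, add_zero]
            have e3 : (r.1 * b + r.2) / b = r.1 := by
              rw [mul_comm, Nat.mul_add_div hb0, Nat.div_eq_of_lt hr.2, add_zero]
            rw [← e2, ← e3, hqr]
          rw [e1] at hqr
          exact Sigma.ext e1 (heq_of_eq (by omega))
      rw [card_sigma, sum_const, card_range, Nat.card_Icc, smul_eq_mul] at h5
      omega
    rw [le_div_iff₀ hL0]
    have h5 : (K.card : ℝ) * b ≤ 2 * H + 1 := by exact_mod_cast h4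
    have h6 : (K.card : ℝ) * L ≤ K.card * b := by gcongr
    linarith
  have h4 : ∑ h ∈ Icc 1 b, (prPairs y H h : ℝ) ≤ 4 * C * H / L := by
    refine (hP b (by linarith)).trans ?_
    rw [div_le_div_iff₀ (by positivity) hL0]
    have h5 : C * b * H * L ≤ C * (4 * L) * H * L := by gcongr
    nlinarith
  have h5 : ∑ k ∈ K, ((Fb b k : ℕ) : ℝ) ^ 2 ≤ K.card + 3 * ∑ h ∈ Icc 1 b, (prPairs y H h : ℝ) := by
    exact_mod_cast h2
  have h6 : (12 * C + 4) * H / L = 3 * H / L + 3 * (4 * C * H / L) + H / L := by ring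
  have h7 : 0 ≤ (H : ℝ) / L := by positivity
  rw [h6]
  linarith

/-- The number of primes of a window. -/
theorem first_window (C L : ℝ) (y H : ℕ) (hC : 0 < C) (hL : 4 ≤ L) (hH : L ^ 2 ≤ H)
    (hP : PairOK C L y H) : ((prNear y H).card : ℝ) ≤ (20 * C + 20) * H / L := by
  have hL0 : 0 < L := by linarith
  set b := ⌈L⌉₊ with hb
  have hLb : L ≤ b := Nat.le_ceil L
  have hbL : (b : ℝ) ≤ L + 1 := (Nat.ceil_lt_add_one hL0.le).le
  have hb0R : (0 : ℝ) < b := by linarith
  have hb0 : 0 < b := by exact_mod_cast hb0R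
  set K := (range (y + H + 2)).filter (fun k => y - H ≤ k * b ∧ (k + 1) * b ≤ y + H + 1) with hK
  have h1 := second_blocks C L y H b hC (by linarith) hLb (by linarith) hH hP K
    (fun k hk => (mem_filter.1 hk).2)
  have h2 : prNear y H ⊆ Ico (y - H) (y - H + b) ∪ (Icc (y + H + 1 - b) (y + H) ∪
      K.biUnion (fun k => blkP b k)) := by
    intro n hn
    unfold prNear at hn
    rw [mem_filter, mem_Icc] at hn
    obtain ⟨⟨hn1, hn2⟩, hn3⟩ := hn
    rw [mem_union, mem_union, mem_Ico, mem_Icc, mem_biUnion]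
    have h3 : n / b * b ≤ n := Nat.div_mul_le_self _ _
    have h4 : n < (n / b + 1) * b := by
      rw [← Nat.div_lt_iff_lt_mul hb0]; omega
    have h5 : (n / b + 1) * b = n / b * b + b := by ring
    by_cases h6 : n / b * b < y - H
    · left; omega
    · by_cases h7 : y + H + 1 < (n / b + 1) * b
      · right; left; omega
      · right; right
        refine ⟨n / b, ?_, ?_⟩
        · rw [hK, mem_filter, mem_range]
          have h8 : n / b ≤ n := Nat.div_le_self _ _
          exact ⟨by omega, by omega, by omega⟩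
        · unfold blkP
          rw [mem_filter, mem_range]
          exact ⟨h4, hn3, rfl⟩
  have h3 := card_le_card h2
  have h4 := card_union_le (Ico (y - H) (y - H + b)) (Icc (y + H + 1 - b) (y + H) ∪
      K.biUnion (fun k => blkP b k))
  have h5 := card_union_le (Icc (y + H + 1 - b) (y + H)) (K.biUnion (fun k => blkP b k))
  have h6 : (K.biUnion (fun k => blkP b k)).card ≤ ∑ k ∈ K, (blkP b k).card := card_biUnion_le
  rw [Nat.card_Ico] at h4
  rw [Nat.card_Icc] at h5
  have h7 : ((prNear y H).card : ℝ) ≤ 2 * b + ∑ k ∈ K, ((Fb b k : ℕ) : ℝ) := by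
    have h8 : (prNear y H).card ≤ 2 * b + ∑ k ∈ K, Fb b k := by
      have : ∑ k ∈ K, Fb b k = ∑ k ∈ K, (blkP b k).card := rfl
      omega
    exact_mod_cast h8
  have h8 : ∑ k ∈ K, ((Fb b k : ℕ) : ℝ) ≤ ∑ k ∈ K, ((Fb b k : ℕ) : ℝ) ^ 2 := by
    apply sum_le_sum
    intro k _
    have : Fb b k ≤ Fb b k ^ 2 := Nat.le_self_pow (by norm_num) _
    exact_mod_cast this
  have h9 : 2 * (b : ℝ) ≤ 4 * H / L := by
    rw [le_div_iff₀ hL0]
    nlinarith
  have h10 : (20 * C + 20) * H / L = (12 * C + 4) * H / L + 4 * H / L + (8 * C + 12) * (H / L) := by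
    ring
  have h11 : 0 ≤ (8 * C + 12) * ((H : ℝ) / L) := by positivity
  rw [h10]
  linarith

end Pool.Agent.H.MP_711652_nt.QW
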