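import Mathlib
import Pool.Agent.H.MP_711652_nt.IT2
import Pool.Agent.H.MP_711652_nt.QW.SecondS

set_option autoImplicit false

namespace Pool.Agent.H.MP_711652_nt.QW

open Finset

/-- The length of the longest prime-free interval `(y, y + g]` with `g ≤ 2 ^ j`,
`|y - p| ≤ 2 ^ j` (the same as `mxGap` in `IT1`). -/
noncomputable def longGap (j p : ℕ) : ℕ :=
  sSup {g : ℕ | g ≤ 2 ^ j ∧ ∃ y : ℕ, |(y : ℝ) - p| ≤ 2 ^ j ∧
    ∀ q : ℕ, y < q → q ≤ y + g → ¬ q.Prime}

/-- A prime-free interval near a prime gives a bad cell. -/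
lemma gapS_cell (K b j p y : ℕ) (hb : 2 ≤ b) (hp : p.Prime) (h1 : p ≤ y + K * (2 ^ j * b))
    (h2 : y ≤ p + K * (2 ^ j * b)) (h3 : PrimeFree y (2 ^ j * b)) :
    cellBad K b j (p / b / 2 ^ j) := by
  classical
  apply cellBad_of_bad (p + K * (2 ^ j * b)) K b j p hb (Nat.le_add_left _ _)
  unfold badPrimes
  rw [mem_filter, mem_Icc]
  exact ⟨⟨hp.pos, Nat.le_add_right _ _⟩, hp, y, h1, h2, h3⟩

open Classical in
/-- The scales with a gap of relative size `> 2 ^ (- r - 1)`. -/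
lemma gapS_count (b H i r p : ℕ) (L : ℝ) (hbL : b = ⌈L⌉₊) (hb : 2 ≤ b)
    (hi : H < 2 ^ i * b) (hp : p.Prime) :
    ((range H).filter (fun j => (L ≤ 2 ^ j ∧ 2 ^ j ≤ H) ∧
      2 ^ j < 2 ^ (r + 1) * mxGap j p)).card ≤
      tailN (cellBad (2 ^ (r + 2)) b) i (p / b) + (r + 1) := by
  have hb0 : 0 < b := by omega
  set J := (range H).filter (fun j => (L ≤ 2 ^ j ∧ 2 ^ j ≤ H) ∧
      2 ^ j < 2 ^ (r + 1) * mxGap j p) with hJ
  have hsplit := card_filter_add_card_filter_not (s := J) (fun j => 2 ^ (r + 1) * b ≤ 2 ^ j)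
  have hA : (J.filter (fun j => 2 ^ (r + 1) * b ≤ 2 ^ j)).card ≤
      tailN (cellBad (2 ^ (r + 2)) b) i (p / b) := by
    unfold tailN
    apply card_le_card_of_injOn (fun j => Nat.log 2 (2 ^ j / (2 ^ (r + 1) * b)))
    · intro j hj
      rw [mem_coe, mem_filter, hJ, mem_filter, mem_range] at hj
      obtain ⟨⟨hjX, ⟨-, h2X⟩, hg⟩, hbj⟩ := hj
      have hd : 1 ≤ 2 ^ j / (2 ^ (r + 1) * b) := by
        rw [Nat.le_div_iff_mul_le (by positivity), one_mul]
        exact hbj
      obtain ⟨i', hi'⟩ : ∃ i', i' = Nat.log 2 (2 ^ j / (2 ^ (r + 1) * b)) := ⟨_, rfl⟩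
      have h1 : 2 ^ i' * (2 ^ (r + 1) * b) ≤ 2 ^ j := by
        have h3 : 2 ^ i' ≤ 2 ^ j / (2 ^ (r + 1) * b) := by
          rw [hi']
          exact Nat.pow_log_le_self 2 (by omega)
        exact (Nat.le_div_iff_mul_le (by positivity)).1 h3
      have h2 : 2 ^ j < 2 ^ (i' + 1) * (2 ^ (r + 1) * b) := by
        have h3 : 2 ^ j / (2 ^ (r + 1) * b) < 2 ^ (i' + 1) := by
          rw [hi']
          exact Nat.lt_pow_succ_log_self (by norm_num) _
        exact (Nat.div_lt_iff_lt_mul (by positivity)).1 h3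
      have h3 : 2 ^ i' * b ≤ 2 ^ j := by
        refine le_trans ?_ h1
        have : b ≤ 2 ^ (r + 1) * b := Nat.le_mul_of_pos_left _ (by positivity)
        exact Nat.mul_le_mul_left _ this
      show Nat.log 2 (2 ^ j / (2 ^ (r + 1) * b)) ∈ _
      rw [← hi', mem_coe, mem_filter, mem_range]
      refine ⟨?_, ?_⟩
      · have h4 : 2 ^ i' * b < 2 ^ i * b := lt_of_le_of_lt (h3.trans h2X) hi
        have h5 : 2 ^ i' < 2 ^ i := lt_of_mul_lt_mul_right h4 (Nat.zero_le _)
        exact (Nat.pow_lt_pow_iff_right (by norm_num)).1 h5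
      · obtain ⟨-, y, hy1, hy2⟩ := mxGap_mem j p
        have hfree : PrimeFree y (2 ^ i' * b) := by
          intro q h4 h5
          apply hy2 q h4
          have h6 : 2 ^ (r + 1) * (2 ^ i' * b) < 2 ^ (r + 1) * mxGap j p := by
            calc 2 ^ (r + 1) * (2 ^ i' * b) = 2 ^ i' * (2 ^ (r + 1) * b) := by ring
              _ ≤ 2 ^ j := h1
              _ < _ := hg
          have h7 : 2 ^ i' * b < mxGap j p := lt_of_mul_lt_mul_left h6 (Nat.zero_le _)
          omega
        have hK : 2 ^ j ≤ 2 ^ (r + 2) * (2 ^ i' * b) := by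
          refine h2.le.trans (le_of_eq ?_)
          ring
        rw [abs_le] at hy1
        refine gapS_cell (2 ^ (r + 2)) b i' p y hb hp ?_ ?_ hfree
        · have h4 : (p : ℝ) ≤ y + ((2 ^ j : ℕ) : ℝ) := by push_cast; linarith [hy1.1]
          have h5 : p ≤ y + 2 ^ j := by exact_mod_cast h4
          omega
        · have h4 : (y : ℝ) ≤ p + ((2 ^ j : ℕ) : ℝ) := by push_cast; linarith [hy1.2]
          have h5 : y ≤ p + 2 ^ j := by exact_mod_cast h4
          omega
    · have key : ∀ j, 2 ^ (r + 1) * b ≤ 2 ^ j →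
          2 ^ Nat.log 2 (2 ^ j / (2 ^ (r + 1) * b)) * (2 ^ (r + 1) * b) ≤ 2 ^ j ∧
          2 ^ j < 2 * (2 ^ Nat.log 2 (2 ^ j / (2 ^ (r + 1) * b)) * (2 ^ (r + 1) * b)) := by
        intro j hj
        have hd : 1 ≤ 2 ^ j / (2 ^ (r + 1) * b) := by
          rw [Nat.le_div_iff_mul_le (by positivity), one_mul]
          exact hj
        constructor
        · exact (Nat.le_div_iff_mul_le (by positivity)).1 (Nat.pow_log_le_self 2 (by omega))
        · have h3 : 2 ^ j / (2 ^ (r + 1) * b) < 2 ^ (Nat.log 2 (2 ^ j / (2 ^ (r + 1) * b)) + 1) :=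
            Nat.lt_pow_succ_log_self (by norm_num) _
          have h4 := (Nat.div_lt_iff_lt_mul (by positivity)).1 h3
          rw [pow_succ] at h4
          linarith
      intro j1 hj1 j2 hj2 h12
      rw [mem_coe, mem_filter] at hj1 hj2
      simp only at h12
      obtain ⟨a1, a2⟩ := key j1 hj1.2
      obtain ⟨b1, b2⟩ := key j2 hj2.2
      rw [← h12] at b1 b2
      by_contra hne
      rcases Nat.lt_or_gt_of_ne hne with h | h
      · have h3 : 2 ^ (j1 + 1) ≤ 2 ^ j2 := Nat.pow_le_pow_right (by norm_num) h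
        rw [pow_succ] at h3
        omega
      · have h3 : 2 ^ (j2 + 1) ≤ 2 ^ j1 := Nat.pow_le_pow_right (by norm_num) h
        rw [pow_succ] at h3
        omega
  have hB : (J.filter (fun j => ¬ 2 ^ (r + 1) * b ≤ 2 ^ j)).card ≤ r + 1 := by
    rcases (J.filter (fun j => ¬ 2 ^ (r + 1) * b ≤ 2 ^ j)).eq_empty_or_nonempty with h0 | h0
    · rw [h0]; simp
    · obtain ⟨j0, hj0, hmin⟩ := exists_min_image _ id h0
      have hsub : J.filter (fun j => ¬ 2 ^ (r + 1) * b ≤ 2 ^ j) ⊆ Ico j0 (j0 + (r + 1)) := by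
        intro j hj
        have hle : j0 ≤ j := hmin j hj
        rw [mem_filter, hJ, mem_filter] at hj hj0
        rw [mem_Ico]
        refine ⟨hle, ?_⟩
        have h1 : b ≤ 2 ^ j0 := by
          rw [hbL]
          apply Nat.ceil_le.2
          push_cast
          exact hj0.1.2.1.1
        by_contra h2
        rw [not_lt] at h2
        apply hj.2
        calc 2 ^ (r + 1) * b ≤ 2 ^ (r + 1) * 2 ^ j0 := Nat.mul_le_mul_left _ h1
          _ = 2 ^ (j0 + (r + 1)) := by rw [← pow_add]; congr 1; omega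
          _ ≤ 2 ^ j := Nat.pow_le_pow_right (by norm_num) h2
      calc _ ≤ (Ico j0 (j0 + (r + 1))).card := card_le_card hsub
        _ = r + 1 := by simp
  omega

open Classical in
/-- Exponential moment over three consecutive top cells. -/
lemma gapS_three (K b i c : ℕ) (hK : 1 ≤ K) (hb : 0 < b) :
    ∑ k ∈ Ico (c * 2 ^ i) ((c + 3) * 2 ^ i),
      (1 + 1 / (2 * (25 * (K : ℝ)))) ^ tailN (cellBad K b) i k ≤ 6 * 2 ^ i := by
  have hK0 : (0 : ℝ) < K := by exact_mod_cast hK
  have h := fun C => exp_moment (cellBad K b) (25 * K) (by positivity)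
    (fun i C => carleson K b hK hb i C) i C
  have e1 : c * 2 ^ i ≤ (c + 1) * 2 ^ i := Nat.mul_le_mul_right _ (by omega)
  have e2 : (c + 1) * 2 ^ i ≤ (c + 1 + 1) * 2 ^ i := Nat.mul_le_mul_right _ (by omega)
  have e3 : (c + 1 + 1) * 2 ^ i ≤ (c + 1 + 1 + 1) * 2 ^ i := Nat.mul_le_mul_right _ (by omega)
  have e4 : (c + 3) * 2 ^ i = (c + 1 + 1 + 1) * 2 ^ i := rfl
  rw [e4, ← sum_Ico_consecutive _ (e1.trans e2) e3, ← sum_Ico_consecutive _ e1 e2]
  have h1 := h c
  have h2 := h (c + 1)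
  have h3 := h (c + 1 + 1)
  linarith

open Classical in
/-- **Exponential moment for the primes of a window.** -/
lemma gapS_moment (C L : ℝ) (hC : 0 < C) (hL : 1 ≤ L) (y H b i K : ℕ) (hLb : L ≤ b)
    (hbL : (b : ℝ) ≤ 4 * L) (hH : L ^ 2 ≤ H) (hi1 : H < 2 ^ i * b) (hi2 : 2 ^ i * b ≤ 2 * H)
    (hP : PairOK C L y (16 * H)) (hK : 1 ≤ K) :
    ∑ p ∈ prNear y H, Real.exp ((tailN (cellBad K b) i (p / b) : ℝ) / (200 * K)) ≤
      (12 * C + 196) * (H / L) := by
  have hL0 : 0 < L := by linarith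
  have hb0R : (0 : ℝ) < b := by linarith
  have hb0 : 0 < b := by exact_mod_cast hb0R
  have hK0 : (0 : ℝ) < K := by exact_mod_cast hK
  have hK1 : (1 : ℝ) ≤ K := by exact_mod_cast hK
  set N : ℕ → ℕ := fun k => tailN (cellBad K b) i k with hN
  set Φ : ℕ → ℝ := fun k => Real.exp ((N k : ℝ) / (200 * K)) with hΦ
  set D := 2 ^ i * b with hD
  have hD0 : 0 < D := by positivity
  set c := (y - H) / D with hc
  have hc1 : c * D ≤ y - H := Nat.div_mul_le_self _ _
  have hc2 : y - H < (c + 1) * D := by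
    rw [← Nat.div_lt_iff_lt_mul hD0]
    omega
  set Ks := Ico (c * 2 ^ i) ((c + 3) * 2 ^ i) with hKs
  have hc3 : (c + 3) * D = (c + 1) * D + 2 * D := by ring
  have hc4 : (c + 1) * D = c * D + D := by ring
  -- the blocks of the primes
  have hmap : ∀ p ∈ prNear y H, p / b ∈ Ks := by
    intro p hp
    unfold prNear at hp
    rw [mem_filter, mem_Icc] at hp
    rw [hKs, mem_Ico]
    constructor
    · rw [Nat.le_div_iff_mul_le hb0]
      calc c * 2 ^ i * b = c * D := by rw [hD]; ring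
        _ ≤ p := by omega
    · rw [Nat.div_lt_iff_lt_mul hb0]
      calc p < (c + 3) * D := by omega
        _ = (c + 3) * 2 ^ i * b := by rw [hD]; ring
  have h1 : ∑ p ∈ prNear y H, Φ (p / b) ≤ ∑ k ∈ Ks, ((Fb b k : ℕ) : ℝ) * Φ k := by
    rw [← sum_fiberwise_of_maps_to hmap]
    apply sum_le_sum
    intro k _
    have h2 : ∀ p ∈ (prNear y H).filter (fun p => p / b = k), Φ (p / b) = Φ k := by
      intro p hp
      rw [(mem_filter.1 hp).2]
    rw [sum_congr rfl h2, sum_const, nsmul_eq_mul]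
    apply mul_le_mul_of_nonneg_right _ (Real.exp_pos _).le
    rw [Fb_eq, Nat.cast_le]
    apply card_le_card
    intro p hp
    unfold prNear at hp
    rw [mem_filter, mem_filter] at hp
    unfold blkP
    rw [mem_filter, mem_range]
    refine ⟨?_, hp.1.2, hp.2⟩
    rw [← Nat.div_lt_iff_lt_mul hb0]
    omega
  have h2 := second_blocks C L y (16 * H) b hC hL hLb hbL (by push_cast; nlinarith [sq_nonneg L])
    hP Ks (by
      intro k hk
      rw [hKs, mem_Ico] at hk
      have a1 : c * D ≤ k * b := by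
        calc c * D = c * 2 ^ i * b := by rw [hD]; ring
          _ ≤ k * b := Nat.mul_le_mul_right _ hk.1
      have a2 : (k + 1) * b ≤ (c + 3) * D := by
        calc (k + 1) * b ≤ ((c + 3) * 2 ^ i) * b := Nat.mul_le_mul_right _ hk.2
          _ = (c + 3) * D := by rw [hD]; ring
      omega)
  -- the square of the weight
  have h3 : ∑ k ∈ Ks, (Φ k) ^ 2 ≤ 12 * (H / L) := by
    have a1 : ∀ k ∈ Ks, (Φ k) ^ 2 ≤ (1 + 1 / (2 * (25 * (K : ℝ)))) ^ N k := by
      intro k _
      have a2 := one_add_ge_exp (1 / (2 * (25 * (K : ℝ)))) (by positivity) (by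
        rw [div_le_one (by positivity)]
        linarith)
      have a3 : (Φ k) ^ 2 = Real.exp (1 / (2 * (25 * (K : ℝ))) / 2) ^ N k := by
        rw [hΦ]
        simp only
        rw [← Real.exp_nat_mul, ← Real.exp_nat_mul]
        congr 1
        push_cast
        field_simp
        ring
      rw [a3]
      exact pow_le_pow_left₀ (Real.exp_pos _).le a2 _
    refine (sum_le_sum a1).trans ((gapS_three K b i c hK hb0).trans ?_)
    have a4 : (2 : ℝ) ^ i * b ≤ 2 * H := by exact_mod_cast hi2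
    have a5 : (2 : ℝ) ^ i * L ≤ 2 * H := by
      refine le_trans ?_ a4
      gcongr
    have a6 : (2 : ℝ) ^ i ≤ 2 * H / L := by
      rw [le_div_iff₀ hL0]
      exact a5
    calc 6 * (2 : ℝ) ^ i ≤ 6 * (2 * H / L) := by gcongr
      _ = 12 * (H / L) := by ring
  have hx0 : 0 ≤ (H : ℝ) / L := by positivity
  have h4 : (∑ k ∈ Ks, ((Fb b k : ℕ) : ℝ) * Φ k) ^ 2 ≤ ((12 * C + 196) * (H / L)) ^ 2 := by
    calc (∑ k ∈ Ks, ((Fb b k : ℕ) : ℝ) * Φ k) ^ 2
        ≤ (∑ k ∈ Ks, ((Fb b k : ℕ) : ℝ) ^ 2) * ∑ k ∈ Ks, (Φ k) ^ 2 :=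
          sum_mul_sq_le_sq_mul_sq _ _ _
      _ ≤ ((12 * C + 4) * ((16 * H : ℕ) : ℝ) / L) * (12 * (H / L)) := by
          apply mul_le_mul h2 h3 (sum_nonneg fun k _ => sq_nonneg _)
          positivity
      _ = (192 * (12 * C + 4)) * (H / L) ^ 2 := by push_cast; ring
      _ ≤ (12 * C + 196) ^ 2 * (H / L) ^ 2 := by
          apply mul_le_mul_of_nonneg_right _ (sq_nonneg _)
          nlinarith [sq_nonneg (12 * C + 4 - 192)]
      _ = ((12 * C + 196) * (H / L)) ^ 2 := by ring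
  refine h1.trans ?_
  exact (abs_le_of_sq_le_sq' h4 (by positivity)).2

/-- **Integral test for the gaps in one window.** -/
theorem gap_local : ∃ c : ℝ, 0 < c ∧ ∀ C : ℝ, 0 < C → ∃ C' : ℝ, 0 < C' ∧ ∃ X₀ : ℕ,
    ∀ X : ℕ, X₀ ≤ X → ∀ y H : ℕ, (Real.log X) ^ 2 ≤ H → PairOK C (Real.log X) y (16 * H) →
    ∀ φ : ℝ → ℝ, Monotone φ → 0 ≤ φ 0 →
    (∀ n : ℕ, ∑ r ∈ range n, (2 : ℝ) ^ r * φ ((1 / 2) ^ r) ≤ 1) →
    ∑ p ∈ prNear y H, Real.exp (c *
      ∑ j ∈ (range H).filter (fun j => Real.log X ≤ 2 ^ j ∧ 2 ^ j ≤ H),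
        φ ((longGap j p : ℝ) / 2 ^ j)) ≤ C' * H / Real.log X := by
  classical
  refine ⟨1 / 800, by norm_num, fun C hC => ⟨Real.exp (1 / 800) * (2 * (12 * C + 196)),
    by positivity, ⌈Real.exp 4⌉₊, ?_⟩⟩
  intro X hX y H hH hP φ hφ h00 hsum
  have hX4 : Real.exp 4 ≤ X := (Nat.le_ceil _).trans (by exact_mod_cast hX)
  have hL4 : 4 ≤ Real.log X := by
    rw [Real.le_log_iff_exp_le (lt_of_lt_of_le (Real.exp_pos _) hX4)]
    exact hX4
  generalize Real.log X = L at hH hP hL4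
  have hL0 : 0 < L := by linarith
  obtain ⟨b, hb⟩ : ∃ b, b = ⌈L⌉₊ := ⟨_, rfl⟩
  have hLb : L ≤ b := by rw [hb]; exact Nat.le_ceil L
  have hbL : (b : ℝ) ≤ L + 1 := by rw [hb]; exact (Nat.ceil_lt_add_one hL0.le).le
  have hb4 : (b : ℝ) ≤ 4 * L := by linarith
  have hb2 : 2 ≤ b := by
    have : (2 : ℝ) ≤ b := by linarith
    exact_mod_cast this
  have hbH : b ≤ H := by
    have : (b : ℝ) ≤ H := by nlinarith
    exact_mod_cast this
  have h0 := it2_zero φ hφ h00 hsum
  have hpos : ∀ r : ℕ, 0 ≤ φ ((1 / 2) ^ r) := fun r => by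
    rw [← h0]
    exact hφ (by positivity)
  -- the top level
  obtain ⟨i, hi⟩ : ∃ i, i = Nat.log 2 (H / b) + 1 := ⟨_, rfl⟩
  have hHb : 1 ≤ H / b := Nat.div_pos hbH (by omega)
  have hi1 : H < 2 ^ i * b := by
    rw [← Nat.div_lt_iff_lt_mul (by omega), hi]
    exact Nat.lt_pow_succ_log_self (by norm_num) _
  have hi2 : 2 ^ i * b ≤ 2 * H := by
    have h1 : 2 ^ Nat.log 2 (H / b) ≤ H / b := Nat.pow_log_le_self 2 (by omega)
    calc 2 ^ i * b = 2 * (2 ^ Nat.log 2 (H / b) * b) := by rw [hi, pow_succ]; ring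
      _ ≤ 2 * (H / b * b) := by gcongr
      _ ≤ 2 * H := Nat.mul_le_mul_left 2 (Nat.div_mul_le_self H b)
  set J := (range H).filter (fun j => L ≤ 2 ^ j ∧ 2 ^ j ≤ H) with hJ
  set w : ℕ → ℝ := fun r => (2 : ℝ) ^ r * φ ((1 / 2) ^ r) with hw
  have hw0 : ∀ r, 0 ≤ w r := fun r => mul_nonneg (by positivity) (hpos r)
  have hw1 : ∑ r ∈ range H, w r ≤ 1 := hsum H
  set M : ℝ := (12 * C + 196) * (H / L) with hM
  have hM0 : 0 ≤ M := by positivity
  set N : ℕ → ℕ → ℕ := fun r p => tailN (cellBad (2 ^ (r + 2)) b) i (p / b) with hN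
  -- exponential moments
  have hmom : ∀ r : ℕ, ∑ p ∈ prNear y H, Real.exp ((N r p : ℝ) / (200 * 2 ^ (r + 2))) ≤ M := by
    intro r
    have h1 := gapS_moment C L hC (by linarith) y H b i (2 ^ (r + 2)) hLb hb4 hH hi1 hi2 hP
      Nat.one_le_two_pow
    push_cast at h1
    exact h1
  have hcard : ((prNear y H).card : ℝ) ≤ M := by
    refine le_trans ?_ (hmom 0)
    rw [card_eq_sum_ones]
    push_cast
    apply sum_le_sum
    intro p _
    apply Real.one_le_exp
    positivity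
  -- pointwise bound
  have hpt : ∀ p ∈ prNear y H, ∑ j ∈ J, φ ((longGap j p : ℝ) / 2 ^ j) ≤
      4 * ∑ r ∈ range H, w r * ((N r p : ℝ) / 2 ^ (r + 2)) + 1 := by
    intro p hp
    unfold prNear at hp
    rw [mem_filter, mem_Icc] at hp
    calc ∑ j ∈ J, φ ((longGap j p : ℝ) / 2 ^ j)
        ≤ ∑ j ∈ J, ∑ r ∈ range H, φ ((1 / 2) ^ r) *
          (if 2 ^ j < 2 ^ (r + 1) * mxGap j p then (1 : ℝ) else 0) := by
          apply sum_le_sum
          intro j hj
          rw [hJ, mem_filter, mem_range] at hj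
          exact it2_point φ hφ h0 j _ H (mxGap_mem j p).1 hj.1
      _ = ∑ r ∈ range H, φ ((1 / 2) ^ r) *
          ((J.filter (fun j => 2 ^ j < 2 ^ (r + 1) * mxGap j p)).card : ℝ) := by
          rw [sum_comm]
          apply sum_congr rfl
          intro r _
          rw [← mul_sum, sum_boole]
      _ ≤ ∑ r ∈ range H, φ ((1 / 2) ^ r) * ((N r p : ℝ) + (r + 1)) := by
          apply sum_le_sum
          intro r _
          apply mul_le_mul_of_nonneg_left _ (hpos r)
          have h1 := gapS_count b H i r p L hb hb2 hi1 hp.2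
          rw [hJ, filter_filter]
          exact_mod_cast h1
      _ ≤ ∑ r ∈ range H, (4 * (w r * ((N r p : ℝ) / 2 ^ (r + 2))) + w r) := by
          apply sum_le_sum
          intro r _
          have h1 : ((r : ℝ) + 1) ≤ 2 ^ r := by
            have h2 : r + 1 ≤ 2 ^ r := Nat.lt_two_pow_self
            exact_mod_cast h2
          have h2 := mul_le_mul_of_nonneg_left h1 (hpos r)
          have h3 : 4 * (w r * ((N r p : ℝ) / 2 ^ (r + 2))) =
              φ ((1 / 2) ^ r) * (N r p : ℝ) := by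
            rw [hw]
            simp only
            generalize (N r p : ℝ) = z
            rw [pow_add (2 : ℝ) r 2]
            field_simp
            norm_num
          rw [h3, mul_add]
          have h4 : w r = φ ((1 / 2) ^ r) * 2 ^ r := by rw [hw]; ring
          rw [h4]
          linarith
      _ ≤ 4 * ∑ r ∈ range H, w r * ((N r p : ℝ) / 2 ^ (r + 2)) + 1 := by
          rw [sum_add_distrib, mul_sum]
          linarith
  calc ∑ p ∈ prNear y H, Real.exp (1 / 800 * ∑ j ∈ J, φ ((longGap j p : ℝ) / 2 ^ j))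
      ≤ ∑ p ∈ prNear y H, Real.exp (1 / 800) * (1 + ∑ r ∈ range H, w r *
          Real.exp ((N r p : ℝ) / (200 * 2 ^ (r + 2)))) := by
        apply sum_le_sum
        intro p hp
        have h1 := it1_jensen H w (fun r => (N r p : ℝ) / (200 * 2 ^ (r + 2)))
          hw0 (fun r => by positivity) hw1
        refine le_trans ?_ (mul_le_mul_of_nonneg_left h1 (Real.exp_pos (1 / 800)).le)
        rw [← Real.exp_add]
        apply Real.exp_le_exp.2
        have h2 := mul_le_mul_of_nonneg_left (hpt p hp) (show (0 : ℝ) ≤ 1 / 800 by norm_num)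
        refine h2.trans (le_of_eq ?_)
        rw [mul_add, mul_one, add_comm, mul_sum, mul_sum]
        congr 1
        apply sum_congr rfl
        intro r _
        field_simp
        ring
    _ = Real.exp (1 / 800) * ((prNear y H).card + ∑ r ∈ range H, w r * ∑ p ∈ prNear y H,
          Real.exp ((N r p : ℝ) / (200 * 2 ^ (r + 2)))) := by
        rw [← mul_sum, sum_add_distrib, sum_const, nsmul_eq_mul, mul_one, sum_comm]
        congr 2
        apply sum_congr rfl
        intro r _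
        rw [mul_sum]
    _ ≤ Real.exp (1 / 800) * (M + ∑ r ∈ range H, w r * M) := by
        apply mul_le_mul_of_nonneg_left _ (Real.exp_pos (1 / 800)).le
        apply add_le_add hcard
        apply sum_le_sum
        intro r _
        exact mul_le_mul_of_nonneg_left (hmom r) (hw0 r)
    _ ≤ Real.exp (1 / 800) * (2 * M) := by
        apply mul_le_mul_of_nonneg_left _ (Real.exp_pos (1 / 800)).le
        rw [← sum_mul]
        have h2 := mul_le_mul_of_nonneg_right hw1 hM0
        linarith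
    _ = Real.exp (1 / 800) * (2 * (12 * C + 196)) * H / L := by
        rw [hM]
        ring

end Pool.Agent.H.MP_711652_nt.QW
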