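import Mathlib
import Pool.Agent.H.MP_711652_nt.QW.QuarterS
import Pool.Agent.H.MP_711652_nt.QW.JumpDefs

set_option autoImplicit false

/-!
# The density of the primes and averages of a bounded function
-/

namespace Pool.Agent.H.MP_711652_nt.QW

open Finset Classical

/-- The density of the primes in `(u, v]`, relative to `1 / log X`. -/
noncomputable def dens (X u v : ℕ) : ℝ := prIn u v * Real.log X / ((v : ℝ) - u)

/-- The density of the primes in the block number `k`. -/
noncomputable def cb (X b k : ℕ) : ℝ := Real.log X / b * prIn (k * b) ((k + 1) * b)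

/-- The truncated density. -/
noncomputable def gb (X b k : ℕ) : ℝ := min (cb X b k) 12

lemma sum_prIn_blocks (b p q : ℕ) (hpq : p ≤ q) :
    ∑ k ∈ Ico p q, prIn (k * b) ((k + 1) * b) = prIn (p * b) (q * b) := by
  induction q, hpq using Nat.le_induction with
  | base =>
    rw [Ico_self, sum_empty]
    have := prIn_le (p * b) (p * b)
    omega
  | succ n hn ih =>
    rw [sum_Ico_succ_top hn, ih]
    exact (prIn_split (Nat.mul_le_mul_right b hn) (Nat.mul_le_mul_right b (Nat.le_succ n))).symm

lemma sum_cb (X b p q : ℕ) (hpq : p ≤ q) :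
    ∑ k ∈ Ico p q, cb X b k = Real.log X / b * prIn (p * b) (q * b) := by
  unfold cb
  rw [← mul_sum, ← sum_prIn_blocks b p q hpq, Nat.cast_sum]

lemma gb_bounds (X b k : ℕ) (hX : 1 ≤ X) : 0 ≤ gb X b k ∧ gb X b k ≤ 12 := by
  refine ⟨le_min ?_ (by norm_num), min_le_right _ _⟩
  unfold cb
  have : 0 ≤ Real.log X := Real.log_nonneg (by exact_mod_cast hX)
  positivity

lemma cb_le (X b k : ℕ) (hb : 0 < b) (hX : 1 ≤ X) : cb X b k ≤ Real.log X := by
  unfold cb
  have h0 : 0 ≤ Real.log X := Real.log_nonneg (by exact_mod_cast hX)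
  have hb' : (0 : ℝ) < b := by exact_mod_cast hb
  have h1 : (prIn (k * b) ((k + 1) * b) : ℝ) ≤ b := by
    have h2 := prIn_le (k * b) ((k + 1) * b)
    have h3 : (k + 1) * b - k * b = b := by
      rw [Nat.add_mul, one_mul, Nat.add_sub_cancel_left]
    rw [h3] at h2
    exact_mod_cast h2
  calc Real.log X / b * prIn (k * b) ((k + 1) * b) ≤ Real.log X / b * b := by gcongr
    _ = Real.log X := by field_simp

lemma sum_gb_le (X b p q : ℕ) (hpq : p ≤ q) :
    ∑ k ∈ Ico p q, gb X b k ≤ Real.log X / b * prIn (p * b) (q * b) := by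
  rw [← sum_cb X b p q hpq]
  exact sum_le_sum fun k _ => min_le_left _ _

lemma sum_gb_ge (X b p q : ℕ) (hb : 0 < b) (hX : 1 ≤ X) (hpq : p ≤ q) :
    Real.log X / b * prIn (p * b) (q * b) -
      Real.log X * (((Ico p q).filter (fun k => 12 < cb X b k)).card : ℝ) ≤
      ∑ k ∈ Ico p q, gb X b k := by
  rw [← sum_cb X b p q hpq, card_filter]
  push_cast
  rw [mul_sum, ← sum_sub_distrib]
  apply sum_le_sum
  intro k _
  have h0 : 0 ≤ Real.log X := Real.log_nonneg (by exact_mod_cast hX)
  unfold gb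
  split_ifs with h
  · have h1 := cb_le X b k hb hX
    rw [min_eq_right h.le]
    linarith
  · rw [min_eq_left (not_lt.1 h)]
    linarith

/-- The blocks of large density are contained in `E`. -/
lemma big_blocks (X b N p q : ℕ) (E : Finset ℕ) (hb : 0 < b)
    (hE : ∀ k, 12 < cb X b k → (k + 1) * b ≤ N → ∀ i, k * b ≤ i → i < (k + 1) * b → i ∈ E)
    (hq : q * b ≤ N) :
    b * ((Ico p q).filter (fun k => 12 < cb X b k)).card ≤
      (E.filter (fun i => p * b ≤ i ∧ i < q * b)).card := by
  have h1 : (((Ico p q).filter (fun k => 12 < cb X b k)) ×ˢ range b).card =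
      b * ((Ico p q).filter (fun k => 12 < cb X b k)).card := by
    rw [card_product, card_range, mul_comm]
  rw [← h1]
  apply card_le_card_of_injOn (fun x => x.1 * b + x.2)
  · rintro ⟨k, r⟩ hx
    rw [mem_coe, mem_product, mem_filter, mem_Ico, mem_range] at hx
    obtain ⟨⟨⟨h2, h3⟩, h4⟩, h5⟩ := hx
    simp only at h2 h3 h4 h5
    have h6 : (k + 1) * b ≤ q * b := Nat.mul_le_mul_right b h3
    have h7 : p * b ≤ k * b := Nat.mul_le_mul_right b h2
    have h8 : (k + 1) * b = k * b + b := by ring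
    rw [mem_coe, mem_filter]
    refine ⟨hE k h4 (h6.trans hq) _ ?_ ?_, ?_, ?_⟩
    · exact Nat.le_add_right _ _
    · show k * b + r < (k + 1) * b
      omega
    · show p * b ≤ k * b + r
      omega
    · show k * b + r < q * b
      omega
  · rintro ⟨k, r⟩ hx ⟨k', r'⟩ hx' heq
    rw [mem_coe, mem_product, mem_filter, mem_Ico, mem_range] at hx hx'
    have h5 := hx.2
    have h5' := hx'.2
    simp only at h5 h5' heq
    have h9 : k = k' := by
      have e1 : (k * b + r) / b = k := by
        rw [Nat.add_comm, Nat.add_mul_div_right _ _ hb, Nat.div_eq_of_lt h5, zero_add]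
      have e2 : (k' * b + r') / b = k' := by
        rw [Nat.add_comm, Nat.add_mul_div_right _ _ hb, Nat.div_eq_of_lt h5', zero_add]
      rw [← e1, ← e2, heq]
    subst h9
    have h10 : r = r' := by omega
    rw [h10]

/-- The density of the primes around `y` is close to an average of the truncated densities. -/
lemma dens_av (X b N y u v : ℕ) (E : Finset ℕ) (hb : 0 < b) (hL : 4 ≤ Real.log X)
    (hE : ∀ k, 12 < cb X b k → (k + 1) * b ≤ N → ∀ i, k * b ≤ i → i < (k + 1) * b → i ∈ E)
    (hsp : ∀ a c : ℕ, a ≤ y → y ≤ c → c ≤ N →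
      (Real.log X) ^ 3 * ((E.filter (fun i => a ≤ i ∧ i < c)).card : ℝ) ≤ (c : ℝ) - a)
    (huy : u ≤ y) (hyv : y ≤ v) (hW : 2 * b * (Real.log X) ^ 2 ≤ (v : ℝ) - u)
    (hvN : v + b ≤ N) :
    |dens X u v - av (gb X b) (u / b) (v / b + 1)| ≤ 2 / Real.log X := by
  set L := Real.log X with hLdef
  set p := u / b with hp
  set q := v / b + 1 with hq
  have hX1 : 1 ≤ X := by
    rcases Nat.eq_zero_or_pos X with h | h
    · rw [hLdef, h, Nat.cast_zero, Real.log_zero] at hL
      linarith
    · exact h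
  have hbR : (0 : ℝ) < b := by exact_mod_cast hb
  have hL0 : 0 < L := by linarith
  have hpu : p * b ≤ u := Nat.div_mul_le_self u b
  have hpu2 : u < p * b + b := by
    have := Nat.lt_div_mul_add (a := u) hb
    rw [hp]
    exact this
  have hqv : v < q * b := by
    have := Nat.lt_div_mul_add (a := v) hb
    rw [hq, Nat.add_mul, one_mul]
    exact this
  have hqv2 : q * b ≤ v + b := by
    have := Nat.div_mul_le_self v b
    rw [hq, Nat.add_mul, one_mul]
    omega
  have hpq : p ≤ q := by
    rw [hp, hq]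
    have := Nat.div_le_div_right (c := b) (huy.trans hyv)
    omega
  have hpq' : p < q := by
    rw [hp, hq]
    have := Nat.div_le_div_right (c := b) (huy.trans hyv)
    omega
  set W : ℝ := (v : ℝ) - u with hWdef
  set W2 : ℝ := ((q : ℝ) - p) * b with hW2
  have hW0 : 0 < W := by
    have : 0 < 2 * b * L ^ 2 := by positivity
    linarith
  have hW2a : W ≤ W2 := by
    have h1 : (v : ℝ) ≤ q * b := by exact_mod_cast hqv.le
    have h2 : (p : ℝ) * b ≤ u := by exact_mod_cast hpu
    rw [hW2, hWdef]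
    linarith
  have hW2b : W2 ≤ W + 2 * b := by
    have h1 : (q : ℝ) * b ≤ v + b := by exact_mod_cast hqv2
    have h2 : (u : ℝ) ≤ p * b + b := by exact_mod_cast hpu2.le
    rw [hW2, hWdef]
    linarith
  have hW20 : 0 < W2 := by linarith
  -- the numbers of primes
  have hN1 : prIn u v ≤ prIn (p * b) (q * b) := prIn_mono hpu hqv.le
  have hN2 : prIn (p * b) (q * b) ≤ prIn u v + 2 * b := by
    rw [prIn_split hpu ((huy.trans hyv).trans hqv.le), prIn_split (huy.trans hyv) hqv.le]
    have h1 := prIn_le (p * b) u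
    have h2 := prIn_le v (q * b)
    omega
  have hN3 : (prIn u v : ℝ) ≤ W := by
    have h1 := prIn_le u v
    have h2 : (prIn u v : ℝ) ≤ ((v - u : ℕ) : ℝ) := by exact_mod_cast h1
    rwa [Nat.cast_sub (huy.trans hyv)] at h2
  set n1 : ℝ := (prIn u v : ℝ) with hn1
  set n2 : ℝ := (prIn (p * b) (q * b) : ℝ) with hn2
  have hN1' : n1 ≤ n2 := by rw [hn1, hn2]; exact_mod_cast hN1
  have hN2' : n2 ≤ n1 + 2 * b := by rw [hn1, hn2]; exact_mod_cast hN2
  have hn10 : 0 ≤ n1 := Nat.cast_nonneg _
  -- the truncation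
  have hT1 := sum_gb_le X b p q hpq
  have hT2 := sum_gb_ge X b p q hb hX1 hpq
  have hT3 := big_blocks X b N p q E hb hE (hqv2.trans hvN)
  have hT4 := hsp (p * b) (q * b) (hpu.trans huy) (hyv.trans hqv.le) (hqv2.trans hvN)
  rw [← hLdef, ← hn2] at hT1 hT2
  set e := ((Ico p q).filter (fun k => 12 < cb X b k)).card with he
  have hT5 : L ^ 3 * (b * e) ≤ W2 := by
    have h1 : (b : ℝ) * e ≤ ((E.filter (fun i => p * b ≤ i ∧ i < q * b)).card : ℝ) := by
      exact_mod_cast hT3
    have h2 : (((q * b : ℕ) : ℝ)) - ((p * b : ℕ) : ℝ) = W2 := by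
      rw [hW2]
      push_cast
      ring
    rw [h2] at hT4
    have h3 : L ^ 3 * (b * e) ≤ L ^ 3 * ((E.filter (fun i => p * b ≤ i ∧ i < q * b)).card : ℝ) := by
      gcongr
    exact h3.trans hT4
  set S := ∑ k ∈ Ico p q, gb X b k with hS
  have hav : av (gb X b) p q = S * b / W2 := by
    unfold av
    rw [← hS, hW2]
    have hqp : (0 : ℝ) < (q : ℝ) - p := by
      have : (p : ℝ) < q := by exact_mod_cast hpq'
      linarith
    field_simp
  have hS1 : S * b ≤ L * n2 := by
    have h1 := mul_le_mul_of_nonneg_right hT1 hbR.le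
    have h2 : L / b * n2 * b = L * n2 := by field_simp
    rw [h2] at h1
    exact h1
  have hS2 : L * n2 - W2 / L ^ 2 ≤ S * b := by
    have h1 := mul_le_mul_of_nonneg_right hT2 hbR.le
    have h2 : (L / b * n2 - L * (e : ℝ)) * b = L * n2 - L * (b * e) := by field_simp
    rw [h2] at h1
    have h3 : L * (b * e) ≤ W2 / L ^ 2 := by
      rw [le_div_iff₀ (by positivity)]
      calc L * (b * e) * L ^ 2 = L ^ 3 * (b * e) := by ring
        _ ≤ W2 := hT5
    linarith
  have hd : dens X u v = n1 * L / W := rfl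
  rw [hd, hav]
  have hbW : 2 * b / W ≤ 1 / L ^ 2 := by
    rw [div_le_div_iff₀ hW0 (by positivity), one_mul]
    exact hW
  rw [abs_le]
  constructor
  · -- lower bound: the average is at most the density plus `1 / L`
    have h1 : S * b / W2 ≤ L * n2 / W := by
      apply div_le_div₀ (by positivity) hS1 hW0 hW2a
    have h2 : L * n2 / W ≤ n1 * L / W + L * (2 * b / W) := by
      rw [← mul_div_assoc, ← add_div]
      gcongr
      nlinarith
    have h3 : L * (2 * b / W) ≤ L * (1 / L ^ 2) := by gcongr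
    have h4 : L * (1 / L ^ 2) = 1 / L := by field_simp
    have h5 : 2 / L = 1 / L + 1 / L := by ring
    have h6 : 0 < 1 / L := by positivity
    linarith
  · have h1 : (L * n2 - W2 / L ^ 2) / W2 ≤ S * b / W2 := by gcongr
    have h2 : (L * n2 - W2 / L ^ 2) / W2 = L * n2 / W2 - 1 / L ^ 2 := by
      field_simp
    have h3 : L * n1 / W2 ≤ L * n2 / W2 := by gcongr
    have h4 : n1 * L / W - L * n1 / W2 ≤ L * (2 * b / W) := by
      have e1 : n1 * L / W - L * n1 / W2 = L * (n1 / W) * ((W2 - W) / W2) := by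
        field_simp
      rw [e1]
      have e2 : n1 / W ≤ 1 := by rw [div_le_one hW0]; exact hN3
      have e3 : (W2 - W) / W2 ≤ 2 * b / W := by
        apply div_le_div₀ (by positivity) (by linarith) hW0 hW2a
      have e4 : 0 ≤ (W2 - W) / W2 := div_nonneg (by linarith) hW20.le
      calc L * (n1 / W) * ((W2 - W) / W2) ≤ L * 1 * (2 * b / W) := by gcongr
        _ = L * (2 * b / W) := by ring
    have h5 : L * (2 * b / W) ≤ L * (1 / L ^ 2) := by gcongr
    have h6 : L * (1 / L ^ 2) = 1 / L := by field_simp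
    have h7 : 1 / L ^ 2 ≤ 1 / L := by
      apply one_div_le_one_div_of_le hL0
      nlinarith
    have h8 : 2 / L = 1 / L + 1 / L := by ring
    linarith

end Pool.Agent.H.MP_711652_nt.QW
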