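import Mathlib
import Pool.Agent.H.MP_711652_nt.QW.JumpA
import Pool.Agent.H.MP_711652_nt.QW.ChainS

set_option autoImplicit false

namespace Pool.Agent.H.MP_711652_nt.QW

open Finset Classical

/-- A chain of `m` jumps `≥ ε` of the density of the primes around `y`, over the scales between
`(log X) ^ B` and `X`. -/
def PChain (X B : ℕ) (ε : ℝ) (m y : ℕ) : Prop :=
  ∃ u v u' v' : ℕ → ℕ,
    (∀ i, i < m → u i ≤ y ∧ y ≤ v i ∧ u' i ≤ y ∧ y ≤ v' i ∧
      (Real.log X) ^ B ≤ (v i : ℝ) - u i ∧ v i - u i ≤ v' i - u' i ∧ v' i ≤ u' i + X ∧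
      ε ≤ |dens X (u i) (v i) - dens X (u' i) (v' i)|) ∧
    (∀ i, i + 1 < m → 2 * (v' i - u' i) ≤ v (i + 1) - u (i + 1))

/-- A chain of jumps is short. -/
lemma pchain_short (X B : ℕ) (ε : ℝ) (m y : ℕ) (hL : 1 ≤ Real.log X) (h : PChain X B ε m y) :
    (m : ℝ) ≤ 2 * Real.log X + 1 := by
  obtain ⟨u, v, u', v', h1, h2⟩ := h
  rcases Nat.eq_zero_or_pos m with hm | hm
  · rw [hm, Nat.cast_zero]
    linarith
  have h3 : ∀ i, i < m → 2 ^ i ≤ v i - u i := by
    intro i
    induction i with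
    | zero =>
      intro hi
      obtain ⟨-, -, -, -, h4, -⟩ := h1 0 hi
      have h5 : (1 : ℝ) ≤ (v 0 : ℝ) - u 0 := (one_le_pow₀ hL).trans h4
      have h6 : u 0 + 1 ≤ v 0 := by
        have : ((u 0 + 1 : ℕ) : ℝ) ≤ v 0 := by push_cast; linarith
        exact_mod_cast this
      rw [pow_zero]
      omega
    | succ i ih =>
      intro hi
      have h4 := ih (by omega)
      have h5 := h2 i hi
      obtain ⟨-, -, -, -, -, h6, -⟩ := h1 i (by omega)
      rw [pow_succ]
      omega
  have h4 := h3 (m - 1) (by omega)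
  obtain ⟨-, -, -, -, -, h5, h6, -⟩ := h1 (m - 1) (by omega)
  have h7 : 2 ^ (m - 1) ≤ X := by omega
  have h8 : (2 : ℝ) ^ (m - 1) ≤ X := by exact_mod_cast h7
  have h9 : ((m - 1 : ℕ) : ℝ) * Real.log 2 ≤ Real.log X := by
    rw [← Real.log_pow]
    exact Real.log_le_log (by positivity) h8
  have h10 : (0.5 : ℝ) ≤ Real.log 2 := by
    have := Real.log_two_gt_d9
    linarith
  have h11 : (m : ℝ) = ((m - 1 : ℕ) : ℝ) + 1 := by
    rw [Nat.cast_sub hm, Nat.cast_one]
    ring
  have h12 : (0 : ℝ) ≤ ((m - 1 : ℕ) : ℝ) := Nat.cast_nonneg _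
  rw [h11]
  nlinarith

/-- Rounding to blocks. -/
lemma blk_len (u v b : ℕ) (hb : 0 < b) (huv : u ≤ v) :
    v - u ≤ (v / b + 1 - u / b) * b ∧ (v / b + 1 - u / b) * b ≤ v - u + 2 * b := by
  have h1 : u / b * b ≤ u := Nat.div_mul_le_self u b
  have h2 : u < u / b * b + b := Nat.lt_div_mul_add hb
  have h3 : v / b * b ≤ v := Nat.div_mul_le_self v b
  have h4 : v < v / b * b + b := Nat.lt_div_mul_add hb
  have h5 : (v / b + 1 - u / b) * b = v / b * b + b - u / b * b := by
    rw [Nat.sub_mul, Nat.add_mul, one_mul]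
  rw [h5]
  constructor <;> omega

lemma blk_le (u v b X : ℕ) (hb : 0 < b) (h : v ≤ u + X) : v / b + 1 - u / b ≤ X / b + 2 := by
  have h2 : u < u / b * b + b := Nat.lt_div_mul_add hb
  have h3 : X < X / b * b + b := Nat.lt_div_mul_add hb
  have h4 : v / b < u / b + X / b + 2 := by
    rw [Nat.div_lt_iff_lt_mul hb]
    have : (u / b + X / b + 2) * b = u / b * b + X / b * b + 2 * b := by ring
    omega
  generalize v / b = c1 at h4 ⊢
  generalize u / b = c2 at h4 ⊢
  generalize X / b = c3 at h4 ⊢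
  omega

/-- A chain of jumps of the density gives a chain of jumps of the truncated densities. -/
lemma chain_of_pchain (X b y m B : ℕ) (ε : ℝ) (hb : 0 < b) (hL : 4 ≤ Real.log X)
    (hε : 8 / Real.log X ≤ ε) (hB : 2 * b * (Real.log X) ^ 2 ≤ (Real.log X) ^ B)
    (happ : ∀ u v : ℕ, u ≤ y → y ≤ v → 2 * b * (Real.log X) ^ 2 ≤ (v : ℝ) - u → v ≤ u + X →
      |dens X u v - av (gb X b) (u / b) (v / b + 1)| ≤ 2 / Real.log X)
    (h : PChain X B ε m y) : Chain (gb X b) (X / b + 2) (ε / 2) ((m + 1) / 2) (y / b) := by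
  obtain ⟨u, v, u', v', h1, h2⟩ := h
  set L := Real.log X with hLdef
  have hL0 : 0 < L := by linarith
  have hbR : (1 : ℝ) ≤ b := by exact_mod_cast hb
  -- lengths
  have hlen : ∀ i, i < m → 2 * b ≤ v i - u i := by
    intro i hi
    obtain ⟨h3, h4, -, -, h5, -⟩ := h1 i hi
    have h6 : 2 * (b : ℝ) ≤ (v i : ℝ) - u i := by
      refine le_trans ?_ (hB.trans h5)
      have h7 : (1 : ℝ) ≤ L ^ 2 := one_le_pow₀ (by linarith)
      nlinarith
    have h7 : 2 * b + u i ≤ v i := by
      have : ((2 * b + u i : ℕ) : ℝ) ≤ v i := by push_cast; linarith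
      exact_mod_cast this
    omega
  -- the property of each jump
  have key : ∀ i, i < m → u i / b ≤ y / b ∧ y / b < v i / b + 1 ∧ u' i / b ≤ y / b ∧
      y / b < v' i / b + 1 ∧ v i / b + 1 - u i / b ≤ X / b + 2 ∧
      v' i / b + 1 - u' i / b ≤ X / b + 2 ∧
      ε / 2 ≤ |av (gb X b) (u i / b) (v i / b + 1) - av (gb X b) (u' i / b) (v' i / b + 1)| := by
    intro i hi
    have hl := hlen i hi
    obtain ⟨g1, g2, g3, g4, g5, g6, g7, g8⟩ := h1 i hi
    have g9 : v i ≤ u i + X := by omega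
    refine ⟨Nat.div_le_div_right g1, Nat.lt_succ_of_le (Nat.div_le_div_right g2),
      Nat.div_le_div_right g3, Nat.lt_succ_of_le (Nat.div_le_div_right g4),
      blk_le _ _ _ _ hb g9, blk_le _ _ _ _ hb g7, ?_⟩
    have a1 := happ (u i) (v i) g1 g2 (hB.trans g5) g9
    have g10 : (v i : ℝ) - u i ≤ (v' i : ℝ) - u' i := by
      have e1 : ((v i - u i : ℕ) : ℝ) ≤ ((v' i - u' i : ℕ) : ℝ) := by exact_mod_cast g6
      rwa [Nat.cast_sub (g1.trans g2), Nat.cast_sub (g3.trans g4)] at e1
    have a2 := happ (u' i) (v' i) g3 g4 ((hB.trans g5).trans g10) g7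
    have h3 : 2 / L ≤ ε / 4 := by
      have : 8 / L = 4 * (2 / L) := by ring
      linarith
    have a3 := abs_sub_abs_le_abs_sub (dens X (u i) (v i) - dens X (u' i) (v' i))
      (av (gb X b) (u i / b) (v i / b + 1) - av (gb X b) (u' i / b) (v' i / b + 1))
    have a4 : |dens X (u i) (v i) - dens X (u' i) (v' i) -
        (av (gb X b) (u i / b) (v i / b + 1) - av (gb X b) (u' i / b) (v' i / b + 1))| ≤
        2 / L + 2 / L := by
      have e1 : dens X (u i) (v i) - dens X (u' i) (v' i) -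
          (av (gb X b) (u i / b) (v i / b + 1) - av (gb X b) (u' i / b) (v' i / b + 1)) =
          (dens X (u i) (v i) - av (gb X b) (u i / b) (v i / b + 1)) -
          (dens X (u' i) (v' i) - av (gb X b) (u' i / b) (v' i / b + 1)) := by ring
      rw [e1]
      exact (abs_sub _ _).trans (add_le_add a1 a2)
    linarith
  refine ⟨fun i => if v (2 * i) / b + 1 - u (2 * i) / b ≤ v' (2 * i) / b + 1 - u' (2 * i) / b then
      u (2 * i) / b else u' (2 * i) / b,
    fun i => if v (2 * i) / b + 1 - u (2 * i) / b ≤ v' (2 * i) / b + 1 - u' (2 * i) / b then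
      v (2 * i) / b + 1 else v' (2 * i) / b + 1,
    fun i => if v (2 * i) / b + 1 - u (2 * i) / b ≤ v' (2 * i) / b + 1 - u' (2 * i) / b then
      u' (2 * i) / b else u (2 * i) / b,
    fun i => if v (2 * i) / b + 1 - u (2 * i) / b ≤ v' (2 * i) / b + 1 - u' (2 * i) / b then
      v' (2 * i) / b + 1 else v (2 * i) / b + 1, ?_, ?_⟩
  · intro i hi
    obtain ⟨k1, k2, k3, k4, k5, k6, k7⟩ := key (2 * i) (by omega)
    by_cases hc : v (2 * i) / b + 1 - u (2 * i) / b ≤ v' (2 * i) / b + 1 - u' (2 * i) / b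
    · simp only [if_pos hc]
      exact ⟨k1, k2, k3, k4, hc, k6, k7⟩
    · simp only [if_neg hc]
      refine ⟨k3, k4, k1, k2, (not_le.1 hc).le, k5, ?_⟩
      rw [abs_sub_comm]
      exact k7
  · intro i hi
    have e1 : 2 * i + 1 < m := by omega
    have e2 : 2 * i + 1 + 1 < m := by omega
    have e3 : 2 * (i + 1) = 2 * i + 1 + 1 := by ring
    have s1 := h2 (2 * i) e1
    have s2 := h2 (2 * i + 1) e2
    have l0 := hlen (2 * i) (by omega)
    obtain ⟨g1, g2, g3, g4, -, g6, -, -⟩ := h1 (2 * i) (by omega)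
    obtain ⟨-, -, -, -, -, g6', -, -⟩ := h1 (2 * i + 1) e1
    obtain ⟨f1, f2, f3, f4, -, f6, -, -⟩ := h1 (2 * i + 1 + 1) e2
    have r1 := blk_len (u (2 * i)) (v (2 * i)) b hb (g1.trans g2)
    have r2 := blk_len (u' (2 * i)) (v' (2 * i)) b hb (g3.trans g4)
    have r3 := blk_len (u (2 * i + 1 + 1)) (v (2 * i + 1 + 1)) b hb (f1.trans f2)
    have r4 := blk_len (u' (2 * i + 1 + 1)) (v' (2 * i + 1 + 1)) b hb (f3.trans f4)
    have fin : ∀ s t : ℕ, s * b ≤ v' (2 * i) - u' (2 * i) + 2 * b →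
        v (2 * i + 1 + 1) - u (2 * i + 1 + 1) ≤ t * b → 2 * s ≤ t := by
      intro s t hs ht
      have h3 : (2 * s) * b ≤ t * b := by
        have : (2 * s) * b = 2 * (s * b) := by ring
        omega
      exact Nat.le_of_mul_le_mul_right h3 hb
    simp only [e3]
    apply fin
    · split_ifs
      · omega
      · omega
    · split_ifs
      · omega
      · omega

/-- Points of the blocks. -/
lemma card_blocks (X b N : ℕ) (P : ℕ → Prop) (hb : 0 < b) (hN : X ≤ N * b) :
    ((range X).filter (fun y => P (y / b))).card ≤ b * ((range N).filter P).card := by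
  have h1 : (((range N).filter P) ×ˢ range b).card = b * ((range N).filter P).card := by
    rw [card_product, card_range, mul_comm]
  rw [← h1]
  apply card_le_card_of_injOn (fun y => (y / b, y % b))
  · intro y hy
    rw [mem_coe, mem_filter, mem_range] at hy
    rw [mem_coe, mem_product, mem_filter, mem_range, mem_range]
    refine ⟨⟨?_, hy.2⟩, Nat.mod_lt _ hb⟩
    rw [Nat.div_lt_iff_lt_mul hb]
    omega
  · intro y _ y' _ heq
    simp only [Prod.mk.injEq] at heq
    rw [← Nat.div_add_mod y b, ← Nat.div_add_mod y' b, heq.1, heq.2]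

/-- **Few jumps of the density of primes.** Blocks of length `b ~ (2 log X) ^ B0` with density
`> 12` are contained in the exceptional set `E` of `primes_windows`; outside of the set `E'` of
`sparse_max` for `E`, the density of the primes in the intervals around `y` is up to `2 / log X` the
average of the truncated densities of the blocks (`dens_av`); then `chain_tail`. -/
theorem jumps_primes : ∃ C : ℝ, 1 ≤ C ∧ ∀ A : ℕ, ∃ B X₀ : ℕ, ∀ X : ℕ, X₀ ≤ X →
    ∀ ε : ℝ, 0 < ε → ε ≤ 1 → ∀ m : ℕ,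
    (((range X).filter (fun y => PChain X B ε m y)).card : ℝ) ≤
      C * Real.exp (-(ε ^ 2 * m / C)) * X + X / (Real.log X) ^ A := by
  obtain ⟨C, hC, hchain⟩ := chain_tail
  refine ⟨16 * C, by linarith, fun A => ?_⟩
  obtain ⟨B0, X1, hX1⟩ := primes_windows 1 one_pos (A + 4)
  obtain ⟨X2, hX2⟩ := Filter.eventually_atTop.1
    ((ev_log_pow_rpow (2 * B0 + 2) 1 one_pos).and (ev_log_ge 100))
  refine ⟨2 * B0 + 3, max (max X1 X2) 4, ?_⟩
  intro X hX ε hε hε1 m
  have hXX1 : X1 ≤ X := ((le_max_left _ _).trans (le_max_left _ _)).trans hX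
  have hX4 : 4 ≤ X := (le_max_right _ _).trans hX
  obtain ⟨hpow, hL⟩ := hX2 X (((le_max_right _ _).trans (le_max_left _ _)).trans hX)
  rw [Real.rpow_one] at hpow
  set L := Real.log X with hLdef
  have hL0 : 0 < L := by linarith
  have hXR : (0 : ℝ) < X := by exact_mod_cast (by omega : 0 < X)
  have hXR4 : (4 : ℝ) ≤ X := by exact_mod_cast hX4
  have hexp : 0 ≤ X / L ^ A := by positivity
  rcases lt_or_ge ε (8 / L) with hcase | hcase
  · -- small `ε`
    by_cases hm : (m : ℝ) ≤ 2 * L + 1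
    · have h1 : (((range X).filter (fun y => PChain X (2 * B0 + 3) ε m y)).card : ℝ) ≤ X := by
        have := card_filter_le (range X) (fun y => PChain X (2 * B0 + 3) ε m y)
        rw [card_range] at this
        exact_mod_cast this
      have h2 : ε ^ 2 * m ≤ 2 := by
        have h3 : ε ^ 2 ≤ (8 / L) ^ 2 := pow_le_pow_left₀ hε.le hcase.le 2
        calc ε ^ 2 * m ≤ (8 / L) ^ 2 * (2 * L + 1) := by gcongr
          _ ≤ (8 / L) ^ 2 * (3 * L) := by gcongr; linarith
          _ = 192 / L := by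
            field_simp
            norm_num
          _ ≤ 2 := by
            rw [div_le_iff₀ hL0]
            linarith
      have h3 : ε ^ 2 * m / (16 * C) ≤ 1 / 8 := by
        rw [div_le_div_iff₀ (by positivity) (by norm_num)]
        nlinarith
      have h4 : (7 : ℝ) / 8 ≤ Real.exp (-(ε ^ 2 * m / (16 * C))) := by
        have := Real.add_one_le_exp (-(ε ^ 2 * m / (16 * C)))
        linarith
      have h5 : (1 : ℝ) ≤ 16 * C * Real.exp (-(ε ^ 2 * m / (16 * C))) := by
        nlinarith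
      have h6 : (X : ℝ) ≤ 16 * C * Real.exp (-(ε ^ 2 * m / (16 * C))) * X := by
        nlinarith
      linarith
    · have h1 : (range X).filter (fun y => PChain X (2 * B0 + 3) ε m y) = ∅ := by
        apply filter_eq_empty_iff.2
        intro y _ hy
        exact hm (pchain_short X _ ε m y (by linarith) hy)
      rw [h1, card_empty, Nat.cast_zero]
      positivity
  -- large `ε`
  obtain ⟨E, hEc, hE⟩ := hX1 (4 * X) (by omega)
  set L4 := Real.log ((4 * X : ℕ) : ℝ) with hL4def
  have hL4a : L ≤ L4 := by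
    rw [hLdef, hL4def]
    apply Real.log_le_log hXR
    push_cast
    linarith
  have hL4b : L4 ≤ 2 * L := by
    have h1 : L4 ≤ Real.log ((X : ℝ) * X) := by
      rw [hL4def]
      apply Real.log_le_log
      · push_cast
        linarith
      · push_cast
        nlinarith
    rw [Real.log_mul hXR.ne' hXR.ne'] at h1
    linarith
  set b := ⌈(2 * L) ^ B0⌉₊ with hbdef
  have hb1 : (1 : ℝ) ≤ (2 * L) ^ B0 := one_le_pow₀ (by linarith)
  have hbge : (2 * L) ^ B0 ≤ b := Nat.le_ceil _
  have hble : (b : ℝ) ≤ 2 * (2 * L) ^ B0 := by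
    have := (Nat.ceil_lt_add_one (a := (2 * L) ^ B0) (by linarith)).le
    linarith
  have hbR : (1 : ℝ) ≤ b := hb1.trans hbge
  have hb : 0 < b := by exact_mod_cast (by linarith : (0 : ℝ) < b)
  have hb2 : (b : ℝ) ≤ L ^ (2 * B0 + 1) := by
    calc (b : ℝ) ≤ 2 * (2 * L) ^ B0 := hble
      _ ≤ L * (L * L) ^ B0 := by gcongr <;> linarith
      _ = L ^ (2 * B0 + 1) := by ring
  have hbX : (b : ℝ) * L ≤ X := by
    calc (b : ℝ) * L ≤ L ^ (2 * B0 + 1) * L := by gcongr
      _ = L ^ (2 * B0 + 2) := by rw [← pow_succ]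
      _ ≤ X := hpow
  have hbX2 : (b : ℝ) ≤ X := by nlinarith
  have hbX3 : b ≤ X := by exact_mod_cast hbX2
  -- blocks of large density
  have hbig : ∀ k, 12 < cb X b k → (k + 1) * b ≤ 4 * X → ∀ i, k * b ≤ i → i < (k + 1) * b →
      i ∈ E := by
    intro k hk hkX i hi1 hi2
    by_contra hiE
    have h1 := hE i (by omega) hiE (k * b) ((k + 1) * b) hi1 hi2.le ?_ ?_
    · have h2 : (((k + 1) * b : ℕ) : ℝ) - ((k * b : ℕ) : ℝ) = b := by push_cast; ring
      rw [h2] at h1
      have h3 : (4 + 1) * (b : ℝ) / L4 ≤ (4 + 1) * (b : ℝ) / L := by gcongr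
      unfold cb at hk
      have h4 : L / b * prIn (k * b) ((k + 1) * b) ≤ L / b * ((4 + 1) * (b : ℝ) / L) := by
        gcongr
        exact h1.trans h3
      have h5 : L / b * ((4 + 1) * (b : ℝ) / L) = 5 := by
        field_simp
        norm_num
      rw [h5] at h4
      linarith
    · have h2 : (((k + 1) * b : ℕ) : ℝ) - ((k * b : ℕ) : ℝ) = b := by push_cast; ring
      rw [h2]
      exact (pow_le_pow_left₀ (by linarith) hL4b B0).trans hbge
    · have : (k + 1) * b = k * b + b := by ring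
      omega
  obtain ⟨E', -, hE'c, hE'⟩ := sparse_max E (L ^ 3) (by positivity) (4 * X)
  have hE'card : (E'.card : ℝ) ≤ X / L ^ A := by
    refine hE'c.trans ?_
    have h1 : (E.card : ℝ) ≤ 4 * X / L ^ (A + 4) := by
      refine hEc.trans ?_
      push_cast
      gcongr
    calc 2 * L ^ 3 * (E.card : ℝ) ≤ 2 * L ^ 3 * (4 * X / L ^ (A + 4)) := by gcongr
      _ = 8 / L * (X / L ^ A) := by
        rw [pow_add]
        field_simp
        norm_num
      _ ≤ 1 * (X / L ^ A) := by
        gcongr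
        rw [div_le_one hL0]
        linarith
      _ = X / L ^ A := one_mul _
  set N := X / b + 2 with hN
  set m' := (m + 1) / 2 with hm'
  have hsub : (range X).filter (fun y => PChain X (2 * B0 + 3) ε m y) ⊆
      E' ∪ (range X).filter (fun y => Chain (gb X b) N (ε / 2) m' (y / b)) := by
    intro y hy
    rw [mem_filter, mem_range] at hy
    rw [mem_union]
    by_cases hyE : y ∈ E'
    · exact Or.inl hyE
    · right
      rw [mem_filter, mem_range]
      refine ⟨hy.1, chain_of_pchain X b y m (2 * B0 + 3) ε hb (by linarith) hcase ?_ ?_ hy.2⟩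
      · calc 2 * (b : ℝ) * L ^ 2 ≤ 2 * (2 * (2 * L) ^ B0) * L ^ 2 := by gcongr
          _ ≤ L * (L * L) ^ B0 * L ^ 2 := by
            have h1 : 2 * (2 * (2 * L) ^ B0) = 4 * (2 * L) ^ B0 := by ring
            rw [h1]
            gcongr <;> linarith
          _ = L ^ (2 * B0 + 3) := by ring
      · intro u v hu hv hW hvX
        refine dens_av X b (4 * X) y u v E hb (by linarith) hbig ?_ hu hv hW (by omega)
        intro a c ha hc hcN
        exact hE' y (by omega) hyE a c ha hc hcN
  have h1 : (((range X).filter (fun y => PChain X (2 * B0 + 3) ε m y)).card : ℝ) ≤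
      E'.card + ((range X).filter (fun y => Chain (gb X b) N (ε / 2) m' (y / b))).card := by
    exact_mod_cast (card_le_card hsub).trans (card_union_le _ _)
  have hNb : X ≤ N * b := by
    have h3 : X < X / b * b + b := Nat.lt_div_mul_add hb
    rw [hN, Nat.add_mul]
    omega
  have hNb2 : N * b ≤ 3 * X := by
    have h3 : X / b * b ≤ X := Nat.div_mul_le_self X b
    rw [hN, Nat.add_mul]
    omega
  have h2 := card_blocks X b N (fun k => Chain (gb X b) N (ε / 2) m' k) hb hNb
  have h3 := hchain (gb X b) (fun k => gb_bounds X b k (by omega)) N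
    (Nat.succ_le_succ (Nat.zero_le _)) (ε / 2) (by linarith) (by linarith) m'
  have h4 : (((range X).filter (fun y => Chain (gb X b) N (ε / 2) m' (y / b))).card : ℝ) ≤
      3 * C * Real.exp (-((ε / 2) ^ 2 * m' / C)) * X := by
    have h5 : (((range X).filter (fun y => Chain (gb X b) N (ε / 2) m' (y / b))).card : ℝ) ≤
        b * (((range N).filter (fun k => Chain (gb X b) N (ε / 2) m' k)).card : ℝ) := by
      exact_mod_cast h2
    have h6 : (N : ℝ) * b ≤ 3 * X := by exact_mod_cast hNb2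
    calc _ ≤ b * (((range N).filter (fun k => Chain (gb X b) N (ε / 2) m' k)).card : ℝ) := h5
      _ ≤ b * (C * Real.exp (-((ε / 2) ^ 2 * m' / C)) * N) := by gcongr
      _ = C * Real.exp (-((ε / 2) ^ 2 * m' / C)) * (N * b) := by ring
      _ ≤ C * Real.exp (-((ε / 2) ^ 2 * m' / C)) * (3 * X) := by gcongr
      _ = 3 * C * Real.exp (-((ε / 2) ^ 2 * m' / C)) * X := by ring
  have h5 : Real.exp (-((ε / 2) ^ 2 * m' / C)) ≤ Real.exp (-(ε ^ 2 * m / (16 * C))) := by
    apply Real.exp_le_exp.2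
    apply neg_le_neg
    have h6 : (m : ℝ) ≤ 2 * m' := by
      have : m ≤ 2 * m' := by omega
      exact_mod_cast this
    rw [div_le_div_iff₀ (by positivity) (by positivity)]
    have h7 : (ε / 2) ^ 2 * m' * (16 * C) = 2 * (ε ^ 2 * C * (2 * m')) := by ring
    rw [h7]
    have h8 : ε ^ 2 * C * m ≤ ε ^ 2 * C * (2 * m') := by gcongr
    have h9 : 0 ≤ ε ^ 2 * C * (2 * m') := by positivity
    linarith
  have h6 : 3 * C * Real.exp (-((ε / 2) ^ 2 * m' / C)) * X ≤
      16 * C * Real.exp (-(ε ^ 2 * m / (16 * C))) * X := by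
    have : 3 * C ≤ 16 * C := by linarith
    gcongr
  linarith

end Pool.Agent.H.MP_711652_nt.QW
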