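import Mathlib
import Pool.Agent.H.MP_711652_nt.QW.S1B

set_option autoImplicit false

/-!
# Brun-Titchmarsh in almost all windows, with a power saving in the exceptional set
-/

namespace Pool.Agent.H.MP_711652_nt.QW

open Finset BoundingSieve

open Filter in
/-- The choice of the sieve level. -/
lemma s1_paramsH (ε : ℝ) (hε : 0 < ε) (hε1 : ε ≤ 1) (m : ℕ) : ∀ᶠ X : ℕ in atTop, ∃ z : ℕ, 2 ≤ z ∧
    Real.log X ≤ (4 + ε / 2) * Real.log z ∧ 1 + 2 * Real.log z ≤ Real.log X ∧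
    (z : ℝ) ^ 4 * (Real.log X) ^ m * (X : ℝ) ^ (ε / 50) ≤ X := by
  set δ : ℝ := ε / 100 with hδ
  have hδ0 : 0 < δ := by positivity
  filter_upwards [ev_log_pow_rpow m (2 * δ) (by positivity), ev_log_ge (10 + 1 / δ),
    eventually_ge_atTop 1] with X h1 h2 h3
  set L := Real.log X with hL
  have hX0 : (0 : ℝ) < X := by exact_mod_cast (by omega : 0 < X)
  have h4 : 10 ≤ L := by
    have : 0 ≤ 1 / δ := by positivity
    linarith
  have h5 : 1 ≤ δ * L := by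
    have h6 : δ * (10 + 1 / δ) ≤ δ * L := mul_le_mul_of_nonneg_left h2 hδ0.le
    have h7 : δ * (10 + 1 / δ) = 10 * δ + 1 := by field_simp
    linarith
  have hδ1 : δ ≤ 1 / 100 := by rw [hδ]; linarith
  set x : ℝ := (X : ℝ) ^ (1 / 4 - δ) with hx
  have hx0 : 0 < x := Real.rpow_pos_of_pos hX0 _
  have hlogx : Real.log x = (1 / 4 - δ) * L := by rw [hx, Real.log_rpow hX0]
  have hx2 : 2 ≤ x := by
    have h6 : 1 ≤ Real.log x := by
      rw [hlogx]
      have : (0.24 : ℝ) * 10 ≤ (1 / 4 - δ) * L := by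
        apply mul_le_mul _ h4 (by norm_num) (by linarith)
        linarith
      linarith
    have h7 : Real.exp 1 ≤ x := by rwa [← Real.le_log_iff_exp_le hx0]
    have h8 := Real.add_one_le_exp (1 : ℝ)
    linarith
  have hz1 : (⌊x⌋₊ : ℝ) ≤ x := Nat.floor_le hx0.le
  have hz2 : x < ⌊x⌋₊ + 1 := Nat.lt_floor_add_one x
  have hz3 : 2 ≤ ⌊x⌋₊ := Nat.le_floor (by exact_mod_cast hx2)
  have hz3' : (2 : ℝ) ≤ (⌊x⌋₊ : ℝ) := by exact_mod_cast hz3
  refine ⟨⌊x⌋₊, hz3, ?_, ?_, ?_⟩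
  · have h6 : x / 2 ≤ (⌊x⌋₊ : ℝ) := by linarith
    have h7 : Real.log (x / 2) ≤ Real.log (⌊x⌋₊ : ℝ) := Real.log_le_log (by positivity) h6
    rw [Real.log_div hx0.ne' (by norm_num), hlogx] at h7
    have h8 := Real.log_two_lt_d9
    have h9 : (1 / 4 - 2 * δ) * L ≤ Real.log (⌊x⌋₊ : ℝ) := by nlinarith
    have h10 : (4 + ε / 2) * ((1 / 4 - 2 * δ) * L) ≤ (4 + ε / 2) * Real.log (⌊x⌋₊ : ℝ) :=
      mul_le_mul_of_nonneg_left h9 (by positivity)
    refine le_trans ?_ h10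
    have h11 : 1 ≤ (4 + ε / 2) * (1 / 4 - 2 * δ) := by
      rw [hδ]
      nlinarith
    have h12 : 1 * L ≤ ((4 + ε / 2) * (1 / 4 - 2 * δ)) * L :=
      mul_le_mul_of_nonneg_right h11 (by linarith)
    linarith
  · have h7 : Real.log (⌊x⌋₊ : ℝ) ≤ Real.log x := Real.log_le_log (by linarith) hz1
    rw [hlogx] at h7
    nlinarith
  · have h6 : ((⌊x⌋₊ : ℝ)) ^ 4 ≤ x ^ 4 := pow_le_pow_left₀ (Nat.cast_nonneg _) hz1 4
    have h7 : x ^ 4 = (X : ℝ) ^ (1 - 4 * δ) := by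
      rw [hx, ← Real.rpow_natCast, ← Real.rpow_mul hX0.le]
      congr 1
      push_cast
      ring
    have hLm : 0 ≤ L ^ m := by positivity
    have h8 : 0 ≤ (X : ℝ) ^ (ε / 50) := by positivity
    calc ((⌊x⌋₊ : ℝ)) ^ 4 * L ^ m * (X : ℝ) ^ (ε / 50) ≤
        x ^ 4 * (X : ℝ) ^ (2 * δ) * (X : ℝ) ^ (ε / 50) := by gcongr
      _ = (X : ℝ) ^ (1 - 4 * δ) * (X : ℝ) ^ (2 * δ) * (X : ℝ) ^ (2 * δ) := by
        rw [h7]
        congr 2
        rw [hδ]
        ring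
      _ = X := by
        rw [← Real.rpow_add hX0, ← Real.rpow_add hX0]
        have : 1 - 4 * δ + 2 * δ + 2 * δ = 1 := by ring
        rw [this, Real.rpow_one]

/-- The size of the exceptional set at one scale. -/
lemma s1_cardH (N : ℕ) (X L z4 H0 h c0 η : ℝ) (hη : 0 < η) (hη1 : η ≤ 1) (hL : 1000 / η ^ 2 ≤ L)
    (hX : 0 < X) (hh : 0 < h) (hz : z4 * h ≤ X) (hz0 : 0 ≤ z4)
    (hH0 : 0 < H0) (hH : h ≤ 2 * L ^ 4 * H0)
    (hc : c0 * (H0 * (η / L)) ^ 2 ≤ 3 * (2 * X * H0 + H0 ^ 2 * z4) * L ^ N) :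
    4 * L ^ 2 * c0 ≤ X * L ^ (N + 9) / h / 4 := by
  have hη2 : η ^ 2 ≤ 1 := pow_le_one₀ hη.le hη1
  have hη20 : 0 < η ^ 2 := by positivity
  have hL1000 : 1000 ≤ L := by
    have h1 : (1000 : ℝ) / 1 ≤ 1000 / η ^ 2 := div_le_div_of_nonneg_left (by norm_num) hη20 hη2
    linarith
  have hL0 : 0 < L := by linarith
  have hLη : 1000 ≤ L * η ^ 2 := by
    rw [div_le_iff₀ hη20] at hL
    exact hL
  have h1 : c0 * (η / L) ^ 2 ≤ 3 * (2 * X / H0 + z4) * L ^ N := by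
    have h2 : c0 * (η / L) ^ 2 * H0 ^ 2 ≤ (3 * (2 * X / H0 + z4) * L ^ N) * H0 ^ 2 := by
      have e1 : c0 * (η / L) ^ 2 * H0 ^ 2 = c0 * (H0 * (η / L)) ^ 2 := by ring
      have e2 : (3 * (2 * X / H0 + z4) * L ^ N) * H0 ^ 2 =
          3 * (2 * X * H0 + H0 ^ 2 * z4) * L ^ N := by
        field_simp
      rw [e1, e2]
      exact hc
    exact le_of_mul_le_mul_right h2 (by positivity)
  have h2 : 2 * X / H0 ≤ 4 * L ^ 4 * X / h := by
    rw [div_le_div_iff₀ hH0 hh]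
    calc 2 * X * h ≤ 2 * X * (2 * L ^ 4 * H0) := by gcongr
      _ = 4 * L ^ 4 * X * H0 := by ring
  have h3 : z4 ≤ L ^ 4 * X / h := by
    rw [le_div_iff₀ hh]
    have : 1 ≤ L ^ 4 := one_le_pow₀ (by linarith)
    have h4 : 1 * X ≤ L ^ 4 * X := mul_le_mul_of_nonneg_right this hX.le
    linarith
  have h5 : c0 * (η / L) ^ 2 ≤ 15 * (L ^ 4 * X / h) * L ^ N := by
    refine h1.trans ?_
    have h6 : 2 * X / H0 + z4 ≤ 5 * (L ^ 4 * X / h) := by
      have : 4 * L ^ 4 * X / h = 4 * (L ^ 4 * X / h) := by ring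
      linarith
    calc 3 * (2 * X / H0 + z4) * L ^ N ≤ 3 * (5 * (L ^ 4 * X / h)) * L ^ N := by gcongr
      _ = _ := by ring
  have h7 : c0 * η ^ 2 ≤ 15 * (L ^ (N + 6) * X / h) := by
    have h8 := mul_le_mul_of_nonneg_right h5 (by positivity : 0 ≤ L ^ 2)
    have e1 : c0 * (η / L) ^ 2 * L ^ 2 = c0 * η ^ 2 := by
      field_simp
    have e2 : 15 * (L ^ 4 * X / h) * L ^ N * L ^ 2 = 15 * (L ^ (N + 6) * X / h) := by
      have : L ^ (N + 6) = L ^ N * L ^ 4 * L ^ 2 := by ring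
      rw [this]
      ring
    rw [e1, e2] at h8
    exact h8
  have hU : 0 ≤ L ^ (N + 8) * X / h := by positivity
  have h9 : 4 * L ^ 2 * c0 * η ^ 2 ≤ (X * L ^ (N + 9) / h / 4) * η ^ 2 := by
    have h10 : 4 * L ^ 2 * c0 * η ^ 2 ≤ 60 * (L ^ (N + 8) * X / h) := by
      have h11 := mul_le_mul_of_nonneg_left h7 (by positivity : 0 ≤ 4 * L ^ 2)
      have e1 : 4 * L ^ 2 * (15 * (L ^ (N + 6) * X / h)) = 60 * (L ^ (N + 8) * X / h) := by
        ring
      rw [e1] at h11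
      linarith
    have e3 : (X * L ^ (N + 9) / h / 4) * η ^ 2 = (L ^ (N + 8) * X / h) * (L * η ^ 2) / 4 := by
      ring
    rw [e3]
    have h12 := mul_le_mul_of_nonneg_left hLη hU
    linarith
  exact le_of_mul_le_mul_right h9 hη20

/-- **Brun-Titchmarsh in almost all windows**, for `ε ≤ 1`. -/
lemma primes_windows_auxH (ε : ℝ) (hε : 0 < ε) (hε1 : ε ≤ 1) : ∃ B X₀ : ℕ, ∀ X : ℕ,
    X₀ ≤ X → ∀ h : ℕ, 1 ≤ h → (h : ℝ) ≤ (X : ℝ) ^ (ε / 50) →
    ∃ E : Finset ℕ, (E.card : ℝ) ≤ X * (Real.log X) ^ B / h ∧ ∀ y < X, y ∉ E →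
    ∀ u v : ℕ, u ≤ y → y ≤ v → (h : ℝ) ≤ (v : ℝ) - u → v ≤ u + X →
    (prIn u v : ℝ) ≤ (4 + ε) * ((v : ℝ) - u) / Real.log X := by
  set η : ℝ := ε / 4 with hη
  have hη0 : 0 < η := by positivity
  have hη1 : η ≤ 1 := by rw [hη]; linarith
  obtain ⟨N, hN⟩ : ∃ N : ℕ, N = 80 := ⟨_, rfl⟩
  obtain ⟨X₁, hX₁⟩ := Filter.eventually_atTop.1 ((s1_paramsH ε hε hε1 4).and
    (ev_log_ge (1000 / η ^ 2 + 40 / ε)))
  refine ⟨N + 16, max X₁ 3, ?_⟩
  intro X hX h hh1 hhX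
  obtain ⟨⟨z, hz2, hz3, hz4, hz5⟩, hL⟩ := hX₁ X (le_trans (le_max_left _ _) hX)
  have hX3 : 3 ≤ X := le_trans (le_max_right _ _) hX
  set L := Real.log X with hLdef
  have hX0 : (0 : ℝ) < X := by exact_mod_cast (by omega : 0 < X)
  have hηL : 1000 / η ^ 2 ≤ L := by
    have : 0 ≤ 40 / ε := by positivity
    linarith
  have hεL : 40 / ε ≤ L := by
    have : 0 ≤ 1000 / η ^ 2 := by positivity
    linarith
  have hL1000 : 1000 ≤ L := by
    have h1 : (1000 : ℝ) / 1 ≤ 1000 / η ^ 2 :=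
      div_le_div_of_nonneg_left (by norm_num) (by positivity) (pow_le_one₀ hη0.le hη1)
    linarith
  have hL0 : 0 < L := by linarith
  have hL1 : 1 ≤ L := by linarith
  have hz1 : 1 ≤ z := by omega
  have hzR : (1 : ℝ) ≤ z := by exact_mod_cast hz1
  have hlogz : 0 < Real.log z := Real.log_pos (by exact_mod_cast (by omega : 1 < z))
  have hhR : (1 : ℝ) ≤ h := by exact_mod_cast hh1
  have hh0 : (0 : ℝ) < h := by linarith
  by_cases hcase0 : (h : ℝ) ≤ L ^ (N + 16)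
  · refine ⟨range X, ?_, fun y hy hyE => absurd (mem_range.2 hy) hyE⟩
    rw [card_range, le_div_iff₀ hh0]
    exact mul_le_mul_of_nonneg_left hcase0 hX0.le
  rw [not_le] at hcase0
  -- the scale
  have hL4 : 0 < L ^ 4 := by positivity
  set H0 := ⌊(h : ℝ) / L ^ 4⌋₊ with hH0
  have hq2 : 2 ≤ (h : ℝ) / L ^ 4 := by
    rw [le_div_iff₀ hL4]
    calc 2 * L ^ 4 ≤ L * L ^ 4 := by gcongr; linarith
      _ = L ^ 5 := by ring
      _ ≤ L ^ (N + 16) := pow_le_pow_right₀ hL1 (by omega)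
      _ ≤ h := hcase0.le
  have hH0u : (H0 : ℝ) ≤ h / L ^ 4 := Nat.floor_le (by positivity)
  have hH0l : (h : ℝ) ≤ 2 * L ^ 4 * H0 := by
    have h1 := Nat.lt_floor_add_one ((h : ℝ) / L ^ 4)
    rw [← hH0] at h1
    have h2 : (h : ℝ) / L ^ 4 ≤ 2 * H0 := by linarith
    rw [div_le_iff₀ hL4] at h2
    linarith
  have hH0R : (0 : ℝ) < H0 := by
    by_contra hcon
    have : (H0 : ℝ) = 0 := le_antisymm (not_lt.1 hcon) (Nat.cast_nonneg _)
    rw [this, mul_zero] at hH0l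
    linarith
  have hH0pos : 0 < H0 := by exact_mod_cast hH0R
  have hz4h : (z : ℝ) ^ 4 * L ^ 4 * h ≤ X := by
    refine le_trans ?_ hz5
    gcongr
  have hz4h' : (z : ℝ) ^ 4 * h ≤ X := by
    refine le_trans ?_ hz4h
    have h1 : 1 ≤ L ^ 4 := one_le_pow₀ hL1
    have h2 : (z : ℝ) ^ 4 * 1 ≤ (z : ℝ) ^ 4 * L ^ 4 := by gcongr
    rw [mul_one] at h2
    gcongr
  -- the exceptional windows at this scale
  set G := Gsum (sieve1 z) z with hG
  have hGlog : Real.log z ≤ G := log_le_Gsum1 z hz1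
  have hG0 : 0 < G := by linarith
  set τ : ℝ := η / L with hτ
  have hτ0 : 0 < τ := by positivity
  set E0 := (range (2 * X)).filter
    (fun w => H0 * (G⁻¹ + τ) < winSum (sieve1 z) z (fun n => n) w H0) with hE0
  have hcheb := cheb (sieve1 z) z (fun n => n) hz1 (adm1 z) (2 * X) H0 N
    (by omega) τ hτ0
  rw [← hG, ← hE0] at hcheb
  have hpow : (1 + 2 * Real.log z) ^ N ≤ L ^ N :=
    pow_le_pow_left₀ (by linarith) hz4 _
  have hcheb2 : (E0.card : ℝ) * (H0 * (η / L)) ^ 2 ≤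
      3 * (2 * X * H0 + (H0 : ℝ) ^ 2 * (z : ℝ) ^ 4) * L ^ N := by
    refine hcheb.trans ?_
    have h1 : (((2 * X : ℕ) : ℝ)) = 2 * X := by push_cast; ring
    rw [h1]
    exact mul_le_mul_of_nonneg_left hpow (by positivity)
  have hcard := s1_cardH N X L ((z : ℝ) ^ 4) H0 h E0.card η hη0 hη1 hηL hX0 hh0 hz4h'
    (by positivity) hH0R hH0l hcheb2
  have hpowB : X * L ^ (N + 9) / h ≤ X * L ^ (N + 16) / h := by
    have := pow_le_pow_right₀ hL1 (show N + 9 ≤ N + 16 by omega)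
    gcongr
  -- the exceptional points
  obtain ⟨E1, hE1N, hE1c, hE1⟩ := sparse_max E0 (2 * L ^ 2) (by positivity) (2 * X)
  set E := E1 ∪ range ⌈z * L ^ 3⌉₊ with hE
  refine ⟨E, ?_, ?_⟩
  · have h1 : (E.card : ℝ) ≤ E1.card + ⌈z * L ^ 3⌉₊ := by
      have := card_union_le E1 (range ⌈z * L ^ 3⌉₊)
      rw [card_range] at this
      exact_mod_cast this
    have h2 : (⌈z * L ^ 3⌉₊ : ℝ) ≤ 2 * (z * L ^ 3) := by
      have h3 : 1 ≤ z * L ^ 3 := by
        have : 1 ≤ L ^ 3 := one_le_pow₀ (by linarith)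
        nlinarith
      have := (Nat.ceil_lt_add_one (a := z * L ^ 3) (by linarith)).le
      linarith
    have h3 : 2 * (z * L ^ 3) ≤ X * L ^ (N + 16) / h / 4 := by
      rw [div_div, le_div_iff₀ (by positivity)]
      have h4 : (z : ℝ) ≤ z ^ 4 := by
        calc (z : ℝ) = z ^ 1 := (pow_one _).symm
          _ ≤ z ^ 4 := pow_le_pow_right₀ hzR (by norm_num)
      have h5 : 8 * L ^ 3 ≤ L ^ 4 := by
        calc 8 * L ^ 3 ≤ L * L ^ 3 := by gcongr; linarith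
          _ = L ^ 4 := by ring
      have h6 : 1 ≤ L ^ (N + 16) := one_le_pow₀ hL1
      calc 2 * (z * L ^ 3) * (h * 4) = z * (8 * L ^ 3) * h := by ring
        _ ≤ (z : ℝ) ^ 4 * L ^ 4 * h := by gcongr
        _ ≤ X * 1 := by rw [mul_one]; exact hz4h
        _ ≤ X * L ^ (N + 16) := by gcongr
    have h4 : (E1.card : ℝ) ≤ X * L ^ (N + 9) / h / 4 := by
      refine hE1c.trans (le_trans (le_of_eq ?_) hcard)
      ring
    have h5 : 0 ≤ X * L ^ (N + 16) / h := by positivity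
    linarith
  · intro y hy hyE u v huy hyv hW hvX
    rw [hE, mem_union, not_or, mem_range, not_lt] at hyE
    obtain ⟨hyE1, hyz⟩ := hyE
    have huv : u ≤ v := huy.trans hyv
    have hv2 : v ≤ 2 * X := by omega
    have hgood : ∀ w, w < v → w ∉ E0 → z ≤ w → (prIn w (w + H0) : ℝ) ≤ H0 * (G⁻¹ + τ) := by
      intro w hw hwE hzw
      refine (prIn_le_winSum z w H0 hz1 hzw).trans ?_
      by_contra hcon
      exact hwE (mem_filter.2 ⟨mem_range.2 (by omega), not_le.1 hcon⟩)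
    have hβ0 : 0 ≤ G⁻¹ + τ := by positivity
    have h1 := prIn_avg u v H0 z (G⁻¹ + τ) E0 hH0pos hβ0 huv hgood
    refine h1.trans ?_
    set W : ℝ := (v : ℝ) - u with hWdef
    have hW0 : 0 < W := by linarith
    have hHW : H0 * L ^ 3 ≤ W := by
      refine le_trans ?_ hW
      calc H0 * L ^ 3 ≤ (h / L ^ 4) * L ^ 3 := by gcongr
        _ = h / L := by
          have : L ^ 4 = L * L ^ 3 := by ring
          rw [this]
          field_simp
        _ ≤ h := div_le_self hh0.le hL1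
    have hlt0 : (v : ℝ) - ((u + 1 - H0 : ℕ) : ℝ) ≤ W + H0 := by
      have h2 : u ≤ (u + 1 - H0) + H0 := by omega
      have h3 : (u : ℝ) ≤ ((u + 1 - H0 : ℕ) : ℝ) + H0 := by exact_mod_cast h2
      rw [hWdef]
      linarith
    have he1 := hE1 y (by omega) hyE1 (u + 1 - H0) v (by omega) hyv hv2
    apply s1_final L W H0 (G⁻¹ + τ) _ _ ε hε hε1 hεL hW0 ?_ hβ0 hHW hH0R.le
    · exact he1.trans hlt0
    · -- the part below `z`
      by_cases hcase : z ≤ u + 1 - H0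
      · have h2 : (range z).filter (fun i => u + 1 - H0 ≤ i ∧ i < v) = ∅ := by
          apply filter_eq_empty_iff.2
          intro i hi h3
          rw [mem_range] at hi
          omega
        rw [h2, card_empty, Nat.cast_zero, zero_mul]
        positivity
      · have h2 : (((range z).filter (fun i => u + 1 - H0 ≤ i ∧ i < v)).card : ℝ) ≤ z := by
          have := card_filter_le (range z) (fun i => u + 1 - H0 ≤ i ∧ i < v)
          rw [card_range] at this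
          exact_mod_cast this
        have h3 : u ≤ z + H0 := by omega
        have h4 : (u : ℝ) ≤ z + H0 := by exact_mod_cast h3
        have h5 : z * L ^ 3 ≤ y := (Nat.le_ceil _).trans (by exact_mod_cast hyz)
        have h6 : (y : ℝ) ≤ v := by exact_mod_cast hyv
        have h7 : z * L ^ 3 ≤ W + z + H0 := by
          rw [hWdef]
          linarith
        have h8 : (H0 : ℝ) ≤ W := by
          have h9 : (H0 : ℝ) * 1 ≤ H0 * L ^ 3 := by
            apply mul_le_mul_of_nonneg_left _ hH0R.le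
            exact one_le_pow₀ (by linarith)
          linarith
        have h9 : (z : ℝ) * L ^ 2 ≤ 2 * W := by
          have h10 : (z : ℝ) * L ^ 2 + z ≤ z * L ^ 3 := by
            have h11 : L ^ 2 + 1 ≤ L ^ 3 := by nlinarith [sq_nonneg L]
            have := mul_le_mul_of_nonneg_left h11 (by linarith : (0 : ℝ) ≤ z)
            linarith
          linarith
        calc _ ≤ (z : ℝ) * L ^ 2 := by gcongr
          _ ≤ 2 * W := h9
    · -- the density
      have h2 : G⁻¹ ≤ (4 + ε / 2) / L := by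
        rw [inv_eq_one_div, div_le_div_iff₀ hG0 hL0, one_mul]
        calc L ≤ (4 + ε / 2) * Real.log z := hz3
          _ ≤ (4 + ε / 2) * G := by gcongr
      rw [hτ, hη]
      linarith

/-- **Brun-Titchmarsh in almost all windows.** -/
theorem primes_windows_H : ∀ ε : ℝ, 0 < ε → ∃ c : ℝ, 0 < c ∧ ∃ B X₀ : ℕ, ∀ X : ℕ, X₀ ≤ X →
    ∀ H₀ : ℕ, 1 ≤ H₀ → (H₀ : ℝ) ≤ (X : ℝ) ^ c →
    ∃ E : Finset ℕ, (E.card : ℝ) ≤ X * (Real.log X) ^ B / H₀ ∧ ∀ y < X, y ∉ E →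
    ∀ u v : ℕ, u ≤ y → y ≤ v → (H₀ : ℝ) ≤ (v : ℝ) - u → v ≤ u + X →
    (prIn u v : ℝ) ≤ (4 + ε) * ((v : ℝ) - u) / Real.log X := by
  intro ε hε
  obtain ⟨B, X₀, h⟩ := primes_windows_auxH (min ε 1) (lt_min hε one_pos) (min_le_right _ _)
  refine ⟨min ε 1 / 50, by have := lt_min hε one_pos; positivity, B, max X₀ 3,
    fun X hX H₀ hH1 hHX => ?_⟩
  obtain ⟨E, hE, h2⟩ := h X (le_trans (le_max_left _ _) hX) H₀ hH1 hHX
  refine ⟨E, hE, fun y hy hyE u v huy hyv hW hv => ?_⟩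
  refine (h2 y hy hyE u v huy hyv hW hv).trans ?_
  have hX3 : 3 ≤ X := le_trans (le_max_right _ _) hX
  have hL : 0 < Real.log X := Real.log_pos (by exact_mod_cast (by omega : 1 < X))
  have huv : (0 : ℝ) ≤ (v : ℝ) - u := by
    have : (u : ℝ) ≤ v := by exact_mod_cast huy.trans hyv
    linarith
  have h3 : min ε 1 ≤ ε := min_le_left _ _
  gcongr

end Pool.Agent.H.MP_711652_nt.QW
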