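import Mathlib
import Pool.Agent.H.MP_711652_nt.QW.JumpS
import Pool.Agent.H.MP_711652_nt.QW.S1K

set_option autoImplicit false

namespace Pool.Agent.H.MP_711652_nt.QW

open Finset Classical

/-- A chain of `m` jumps `≥ ε` of the density of the primes around `y`, over the scales between
`H` and `X`. -/
def PChainH (X H : ℕ) (ε : ℝ) (m y : ℕ) : Prop :=
  ∃ u v u' v' : ℕ → ℕ,
    (∀ i, i < m → u i ≤ y ∧ y ≤ v i ∧ u' i ≤ y ∧ y ≤ v' i ∧
      H ≤ v i - u i ∧ v i - u i ≤ v' i - u' i ∧ v' i ≤ u' i + X ∧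
      ε ≤ |dens X (u i) (v i) - dens X (u' i) (v' i)|) ∧
    (∀ i, i + 1 < m → 2 * (v' i - u' i) ≤ v (i + 1) - u (i + 1))

/-- The lengths double. -/
lemma pchainH_double (m H : ℕ) (l l' : ℕ → ℕ) (h1 : ∀ i, i < m → H ≤ l i ∧ l i ≤ l' i)
    (h2 : ∀ i, i + 1 < m → 2 * l' i ≤ l (i + 1)) : ∀ i, i < m → 2 ^ i * H ≤ l i := by
  intro i
  induction i with
  | zero =>
    intro hi
    rw [pow_zero, one_mul]
    exact (h1 0 hi).1
  | succ i ih =>
    intro hi
    have h4 := ih (by omega)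
    have h5 := h2 i hi
    have h6 := (h1 i (by omega)).2
    rw [pow_succ]
    calc 2 ^ i * 2 * H = 2 * (2 ^ i * H) := by ring
      _ ≤ 2 * l' i := by omega
      _ ≤ l (i + 1) := h5

/-- A chain of jumps is short. -/
lemma pchainH_short (X H : ℕ) (ε : ℝ) (m y : ℕ) (hX : 1 ≤ X) (hH : 1 ≤ H)
    (h : PChainH X H ε m y) : (m : ℝ) ≤ 2 * Real.log X + 1 := by
  obtain ⟨u, v, u', v', h1, h2⟩ := h
  have hL : 0 ≤ Real.log X := Real.log_nonneg (by exact_mod_cast hX)
  rcases Nat.eq_zero_or_pos m with hm | hm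
  · rw [hm, Nat.cast_zero]
    linarith
  have h3 := pchainH_double m H (fun i => v i - u i) (fun i => v' i - u' i)
    (fun i hi => ⟨(h1 i hi).2.2.2.2.1, (h1 i hi).2.2.2.2.2.1⟩) h2 (m - 1) (by omega)
  obtain ⟨-, -, -, -, -, h5, h6, -⟩ := h1 (m - 1) (by omega)
  have h7 : 2 ^ (m - 1) ≤ X := by
    have h8 : 2 ^ (m - 1) * 1 ≤ 2 ^ (m - 1) * H := Nat.mul_le_mul_left _ hH
    omega
  have h8 : (2 : ℝ) ^ (m - 1) ≤ X := by exact_mod_cast h7
  have h9 : ((m - 1 : ℕ) : ℝ) * Real.log 2 ≤ Real.log X := by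
    rw [← Real.log_pow]
    exact Real.log_le_log (by positivity) h8
  have h10 : (0.5 : ℝ) ≤ Real.log 2 := by
    have := Real.log_two_gt_d9
    linarith
  have h11 : (m : ℝ) = ((m - 1 : ℕ) : ℝ) + 1 := by
    rw [Nat.cast_sub hm, Nat.cast_one]
    ring
  have h12 : (0 : ℝ) ≤ ((m - 1 : ℕ) : ℝ) := Nat.cast_nonneg _
  rw [h11]
  nlinarith

/-- Fewer scales. -/
lemma pchainH_mono (X H H' : ℕ) (ε : ℝ) (m y : ℕ) (hH : H' ≤ H) (h : PChainH X H ε m y) :
    PChainH X H' ε m y := by
  obtain ⟨u, v, u', v', h1, h2⟩ := h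
  refine ⟨u, v, u', v', fun i hi => ?_, h2⟩
  obtain ⟨g1, g2, g3, g4, g5, g6, g7, g8⟩ := h1 i hi
  exact ⟨g1, g2, g3, g4, hH.trans g5, g6, g7, g8⟩

/-- Dropping the first `j` jumps. -/
lemma pchainH_drop (X H H1 : ℕ) (ε : ℝ) (m y j : ℕ) (hH : H1 ≤ 2 ^ j * H)
    (h : PChainH X H ε m y) : PChainH X H1 ε (m - j) y := by
  obtain ⟨u, v, u', v', h1, h2⟩ := h
  have h3 := pchainH_double m H (fun i => v i - u i) (fun i => v' i - u' i)
    (fun i hi => ⟨(h1 i hi).2.2.2.2.1, (h1 i hi).2.2.2.2.2.1⟩) h2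
  refine ⟨fun i => u (j + i), fun i => v (j + i), fun i => u' (j + i), fun i => v' (j + i),
    fun i hi => ?_, fun i hi => ?_⟩
  · have hi' : j + i < m := by omega
    obtain ⟨g1, g2, g3, g4, -, g6, g7, g8⟩ := h1 (j + i) hi'
    refine ⟨g1, g2, g3, g4, ?_, g6, g7, g8⟩
    have h4 := h3 (j + i) hi'
    have h5 : 2 ^ j * H ≤ 2 ^ (j + i) * H := by
      apply Nat.mul_le_mul_right
      exact Nat.pow_le_pow_right (by norm_num) (Nat.le_add_right _ _)
    exact (hH.trans h5).trans h4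
  · exact h2 (j + i) (by omega)

/-- A chain of jumps of the density gives a chain of jumps of the truncated densities. -/
lemma chain_of_pchainH (X b y m H : ℕ) (ε : ℝ) (hb : 0 < b) (hL : 4 ≤ Real.log X)
    (hε : 8 / Real.log X ≤ ε) (hB : 2 * b * (Real.log X) ^ 2 ≤ (H : ℝ))
    (happ : ∀ u v : ℕ, u ≤ y → y ≤ v → 2 * b * (Real.log X) ^ 2 ≤ (v : ℝ) - u → v ≤ u + X →
      |dens X u v - av (gb X b) (u / b) (v / b + 1)| ≤ 2 / Real.log X)
    (h : PChainH X H ε m y) : Chain (gb X b) (X / b + 2) (ε / 2) ((m + 1) / 2) (y / b) := by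
  obtain ⟨u, v, u', v', h1, h2⟩ := h
  set L := Real.log X with hLdef
  have hL0 : 0 < L := by linarith
  have hbR : (1 : ℝ) ≤ b := by exact_mod_cast hb
  -- lengths
  have hH2b : 2 * b ≤ H := by
    have h6 : 2 * (b : ℝ) ≤ (H : ℝ) := by
      refine le_trans ?_ hB
      have h7 : (1 : ℝ) ≤ L ^ 2 := one_le_pow₀ (by linarith)
      nlinarith
    exact_mod_cast h6
  have hlen : ∀ i, i < m → 2 * b ≤ v i - u i := by
    intro i hi
    exact hH2b.trans (h1 i hi).2.2.2.2.1
  -- the property of each jump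
  have key : ∀ i, i < m → u i / b ≤ y / b ∧ y / b < v i / b + 1 ∧ u' i / b ≤ y / b ∧
      y / b < v' i / b + 1 ∧ v i / b + 1 - u i / b ≤ X / b + 2 ∧
      v' i / b + 1 - u' i / b ≤ X / b + 2 ∧
      ε / 2 ≤ |av (gb X b) (u i / b) (v i / b + 1) - av (gb X b) (u' i / b) (v' i / b + 1)| := by
    intro i hi
    have hl := hlen i hi
    obtain ⟨g1, g2, g3, g4, g5, g6, g7, g8⟩ := h1 i hi
    have g9 : v i ≤ u i + X := by omega
    have g5' : (H : ℝ) ≤ (v i : ℝ) - u i := by
      have e1 : (H : ℝ) ≤ ((v i - u i : ℕ) : ℝ) := by exact_mod_cast g5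
      rwa [Nat.cast_sub (g1.trans g2)] at e1
    refine ⟨Nat.div_le_div_right g1, Nat.lt_succ_of_le (Nat.div_le_div_right g2),
      Nat.div_le_div_right g3, Nat.lt_succ_of_le (Nat.div_le_div_right g4),
      blk_le _ _ _ _ hb g9, blk_le _ _ _ _ hb g7, ?_⟩
    have a1 := happ (u i) (v i) g1 g2 (hB.trans g5') g9
    have g10 : (v i : ℝ) - u i ≤ (v' i : ℝ) - u' i := by
      have e1 : ((v i - u i : ℕ) : ℝ) ≤ ((v' i - u' i : ℕ) : ℝ) := by exact_mod_cast g6
      rwa [Nat.cast_sub (g1.trans g2), Nat.cast_sub (g3.trans g4)] at e1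
    have a2 := happ (u' i) (v' i) g3 g4 ((hB.trans g5').trans g10) g7
    have h3 : 2 / L ≤ ε / 4 := by
      have : 8 / L = 4 * (2 / L) := by ring
      linarith
    have a3 := abs_sub_abs_le_abs_sub (dens X (u i) (v i) - dens X (u' i) (v' i))
      (av (gb X b) (u i / b) (v i / b + 1) - av (gb X b) (u' i / b) (v' i / b + 1))
    have a4 : |dens X (u i) (v i) - dens X (u' i) (v' i) -
        (av (gb X b) (u i / b) (v i / b + 1) - av (gb X b) (u' i / b) (v' i / b + 1))| ≤
        2 / L + 2 / L := by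
      have e1 : dens X (u i) (v i) - dens X (u' i) (v' i) -
          (av (gb X b) (u i / b) (v i / b + 1) - av (gb X b) (u' i / b) (v' i / b + 1)) =
          (dens X (u i) (v i) - av (gb X b) (u i / b) (v i / b + 1)) -
          (dens X (u' i) (v' i) - av (gb X b) (u' i / b) (v' i / b + 1)) := by ring
      rw [e1]
      exact (abs_sub _ _).trans (add_le_add a1 a2)
    linarith
  refine ⟨fun i => if v (2 * i) / b + 1 - u (2 * i) / b ≤ v' (2 * i) / b + 1 - u' (2 * i) / b then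
      u (2 * i) / b else u' (2 * i) / b,
    fun i => if v (2 * i) / b + 1 - u (2 * i) / b ≤ v' (2 * i) / b + 1 - u' (2 * i) / b then
      v (2 * i) / b + 1 else v' (2 * i) / b + 1,
    fun i => if v (2 * i) / b + 1 - u (2 * i) / b ≤ v' (2 * i) / b + 1 - u' (2 * i) / b then
      u' (2 * i) / b else u (2 * i) / b,
    fun i => if v (2 * i) / b + 1 - u (2 * i) / b ≤ v' (2 * i) / b + 1 - u' (2 * i) / b then
      v' (2 * i) / b + 1 else v (2 * i) / b + 1, ?_, ?_⟩
  · intro i hi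
    obtain ⟨k1, k2, k3, k4, k5, k6, k7⟩ := key (2 * i) (by omega)
    by_cases hc : v (2 * i) / b + 1 - u (2 * i) / b ≤ v' (2 * i) / b + 1 - u' (2 * i) / b
    · simp only [if_pos hc]
      exact ⟨k1, k2, k3, k4, hc, k6, k7⟩
    · simp only [if_neg hc]
      refine ⟨k3, k4, k1, k2, (not_le.1 hc).le, k5, ?_⟩
      rw [abs_sub_comm]
      exact k7
  · intro i hi
    have e1 : 2 * i + 1 < m := by omega
    have e2 : 2 * i + 1 + 1 < m := by omega
    have e3 : 2 * (i + 1) = 2 * i + 1 + 1 := by ring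
    have s1 := h2 (2 * i) e1
    have s2 := h2 (2 * i + 1) e2
    have l0 := hlen (2 * i) (by omega)
    obtain ⟨g1, g2, g3, g4, -, g6, -, -⟩ := h1 (2 * i) (by omega)
    obtain ⟨-, -, -, -, -, g6', -, -⟩ := h1 (2 * i + 1) e1
    obtain ⟨f1, f2, f3, f4, -, f6, -, -⟩ := h1 (2 * i + 1 + 1) e2
    have r1 := blk_len (u (2 * i)) (v (2 * i)) b hb (g1.trans g2)
    have r2 := blk_len (u' (2 * i)) (v' (2 * i)) b hb (g3.trans g4)
    have r3 := blk_len (u (2 * i + 1 + 1)) (v (2 * i + 1 + 1)) b hb (f1.trans f2)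
    have r4 := blk_len (u' (2 * i + 1 + 1)) (v' (2 * i + 1 + 1)) b hb (f3.trans f4)
    have fin : ∀ s t : ℕ, s * b ≤ v' (2 * i) - u' (2 * i) + 2 * b →
        v (2 * i + 1 + 1) - u (2 * i + 1 + 1) ≤ t * b → 2 * s ≤ t := by
      intro s t hs ht
      have h3 : (2 * s) * b ≤ t * b := by
        have : (2 * s) * b = 2 * (s * b) := by ring
        omega
      exact Nat.le_of_mul_le_mul_right h3 hb
    simp only [e3]
    apply fin
    · split_ifs
      · omega
      · omega
    · split_ifs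
      · omega
      · omega

/-- **Few jumps of the density of primes**, with an exceptional set. -/
theorem jumps_H : ∃ C : ℝ, 1 ≤ C ∧ ∃ c : ℝ, 0 < c ∧ c ≤ 1 ∧ ∃ B X₀ : ℕ, ∀ X : ℕ, X₀ ≤ X →
    ∀ H : ℕ, 1 ≤ H → (H : ℝ) ≤ (X : ℝ) ^ c → ∀ ε : ℝ, 0 < ε → ε ≤ 1 → ∀ m : ℕ,
    (((range X).filter (fun y => PChainH X H ε m y)).card : ℝ) ≤
      C * Real.exp (-(ε ^ 2 * m / C)) * X + X * (Real.log X) ^ B / H := by
  obtain ⟨C, hC, hchain⟩ := chain_tail
  obtain ⟨c0, hc0, B0, X1, hX1⟩ := primes_windows_H 1 one_pos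
  refine ⟨16 * C, by linarith, min c0 1, lt_min hc0 one_pos, min_le_right _ _, 2 * B0 + 7, ?_⟩
  obtain ⟨X2, hX2⟩ := Filter.eventually_atTop.1 (ev_log_ge 100)
  refine ⟨max (max X1 X2) 4, ?_⟩
  intro X hX H hH1 hHc ε hε hε1 m
  have hXX1 : X1 ≤ X := ((le_max_left _ _).trans (le_max_left _ _)).trans hX
  have hX4 : 4 ≤ X := (le_max_right _ _).trans hX
  have hL := hX2 X (((le_max_right _ _).trans (le_max_left _ _)).trans hX)
  set L := Real.log X with hLdef
  have hL0 : 0 < L := by linarith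
  have hXR : (0 : ℝ) < X := by exact_mod_cast (by omega : 0 < X)
  have hXR4 : (4 : ℝ) ≤ X := by exact_mod_cast hX4
  have hHR : (1 : ℝ) ≤ H := by exact_mod_cast hH1
  have hHX : (H : ℝ) ≤ X := by
    refine hHc.trans ?_
    calc (X : ℝ) ^ (min c0 1) ≤ (X : ℝ) ^ (1 : ℝ) :=
          Real.rpow_le_rpow_of_exponent_le (by linarith) (min_le_right _ _)
      _ = X := Real.rpow_one _
  have hexp : 0 ≤ X * L ^ (2 * B0 + 7) / H := by positivity
  have htriv : (((range X).filter (fun y => PChainH X H ε m y)).card : ℝ) ≤ X := by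
    have := card_filter_le (range X) (fun y => PChainH X H ε m y)
    rw [card_range] at this
    exact_mod_cast this
  rcases lt_or_ge (H : ℝ) (4 * L ^ 2) with hsmall | hlarge
  · -- the trivial case
    have h1 : (X : ℝ) ≤ X * L ^ (2 * B0 + 7) / H := by
      rw [le_div_iff₀ (by linarith)]
      have h2 : (H : ℝ) ≤ L ^ (2 * B0 + 7) := by
        calc (H : ℝ) ≤ 4 * L ^ 2 := hsmall.le
          _ ≤ L * L ^ 2 := by gcongr; linarith
          _ = L ^ 3 := by ring
          _ ≤ L ^ (2 * B0 + 7) := pow_le_pow_right₀ (by linarith) (by omega)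
      gcongr
    have h2 : 0 ≤ 16 * C * Real.exp (-(ε ^ 2 * m / (16 * C))) * X := by positivity
    linarith
  rcases lt_or_ge ε (8 / L) with hcase | hcase
  · -- small `ε`
    by_cases hm : (m : ℝ) ≤ 2 * L + 1
    · have h2 : ε ^ 2 * m ≤ 2 := by
        have h3 : ε ^ 2 ≤ (8 / L) ^ 2 := pow_le_pow_left₀ hε.le hcase.le 2
        calc ε ^ 2 * m ≤ (8 / L) ^ 2 * (2 * L + 1) := by gcongr
          _ ≤ (8 / L) ^ 2 * (3 * L) := by gcongr; linarith
          _ = 192 / L := by
            field_simp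
            norm_num
          _ ≤ 2 := by
            rw [div_le_iff₀ hL0]
            linarith
      have h3 : ε ^ 2 * m / (16 * C) ≤ 1 / 8 := by
        rw [div_le_div_iff₀ (by positivity) (by norm_num)]
        nlinarith
      have h4 : (7 : ℝ) / 8 ≤ Real.exp (-(ε ^ 2 * m / (16 * C))) := by
        have := Real.add_one_le_exp (-(ε ^ 2 * m / (16 * C)))
        linarith
      have h5 : (1 : ℝ) ≤ 16 * C * Real.exp (-(ε ^ 2 * m / (16 * C))) := by
        nlinarith
      have h6 : (X : ℝ) ≤ 16 * C * Real.exp (-(ε ^ 2 * m / (16 * C))) * X := by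
        nlinarith
      linarith
    · have h1 : (range X).filter (fun y => PChainH X H ε m y) = ∅ := by
        apply filter_eq_empty_iff.2
        intro y _ hy
        exact hm (pchainH_short X H ε m y (by omega) hH1 hy)
      rw [h1, card_empty, Nat.cast_zero]
      positivity
  -- large `ε`
  set b := ⌊(H : ℝ) / (2 * L ^ 2)⌋₊ with hbdef
  have hb2 : (2 : ℝ) ≤ (H : ℝ) / (2 * L ^ 2) := by
    rw [le_div_iff₀ (by positivity)]
    linarith
  have hble : (b : ℝ) ≤ (H : ℝ) / (2 * L ^ 2) := Nat.floor_le (by positivity)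
  have hbge : (H : ℝ) / (4 * L ^ 2) ≤ b := by
    have h1 : (H : ℝ) / (2 * L ^ 2) < b + 1 := Nat.lt_floor_add_one _
    have h2 : (H : ℝ) / (4 * L ^ 2) = (H : ℝ) / (2 * L ^ 2) / 2 := by
      rw [div_div]
      congr 1
      ring
    rw [h2]
    linarith
  have hbR : (1 : ℝ) ≤ b := by
    have h1 : (H : ℝ) / (4 * L ^ 2) = (H : ℝ) / (2 * L ^ 2) / 2 := by
      rw [div_div]
      congr 1
      ring
    linarith
  have hb : 0 < b := by exact_mod_cast (by linarith : (0 : ℝ) < b)
  have hb1 : 1 ≤ b := hb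
  have hbH : (b : ℝ) ≤ H := by
    refine hble.trans (div_le_self (by linarith) ?_)
    nlinarith
  have hbX2 : (b : ℝ) ≤ X := hbH.trans hHX
  have hbX3 : b ≤ X := by exact_mod_cast hbX2
  have hbL : 2 * (b : ℝ) * L ^ 2 ≤ H := by
    rw [le_div_iff₀ (by positivity)] at hble
    linarith
  have hbc : (b : ℝ) ≤ ((4 * X : ℕ) : ℝ) ^ c0 := by
    refine hbH.trans (hHc.trans ?_)
    calc (X : ℝ) ^ (min c0 1) ≤ (X : ℝ) ^ c0 :=
          Real.rpow_le_rpow_of_exponent_le (by linarith) (min_le_left _ _)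
      _ ≤ ((4 * X : ℕ) : ℝ) ^ c0 := by
          apply Real.rpow_le_rpow hXR.le _ hc0.le
          push_cast
          linarith
  obtain ⟨E, hEc, hE⟩ := hX1 (4 * X) (by omega) b hb1 hbc
  set L4 := Real.log ((4 * X : ℕ) : ℝ) with hL4def
  have hL4a : L ≤ L4 := by
    rw [hLdef, hL4def]
    apply Real.log_le_log hXR
    push_cast
    linarith
  have hL4b : L4 ≤ 2 * L := by
    have h1 : L4 ≤ Real.log ((X : ℝ) * X) := by
      rw [hL4def]
      apply Real.log_le_log
      · push_cast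
        linarith
      · push_cast
        nlinarith
    rw [Real.log_mul hXR.ne' hXR.ne'] at h1
    linarith
  -- blocks of large density
  have hbig : ∀ k, 12 < cb X b k → (k + 1) * b ≤ 4 * X → ∀ i, k * b ≤ i → i < (k + 1) * b →
      i ∈ E := by
    intro k hk hkX i hi1 hi2
    by_contra hiE
    have hkb : (k + 1) * b = k * b + b := by ring
    have h2 : (((k + 1) * b : ℕ) : ℝ) - ((k * b : ℕ) : ℝ) = b := by push_cast; ring
    have h1 := hE i (by omega) hiE (k * b) ((k + 1) * b) hi1 hi2.le h2.ge (by omega)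
    rw [h2] at h1
    have h3 : (4 + 1) * (b : ℝ) / L4 ≤ (4 + 1) * (b : ℝ) / L := by gcongr
    unfold cb at hk
    have h4 : L / b * prIn (k * b) ((k + 1) * b) ≤ L / b * ((4 + 1) * (b : ℝ) / L) := by
      gcongr
      exact h1.trans h3
    have h5 : L / b * ((4 + 1) * (b : ℝ) / L) = 5 := by
      field_simp
      norm_num
    rw [h5] at h4
    linarith
  obtain ⟨E', -, hE'c, hE'⟩ := sparse_max E (L ^ 3) (by positivity) (4 * X)
  have hE'card : (E'.card : ℝ) ≤ X * L ^ (2 * B0 + 7) / H := by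
    refine hE'c.trans ?_
    have h1 : (E.card : ℝ) ≤ 4 * X * (2 * L) ^ B0 / (H / (4 * L ^ 2)) := by
      refine hEc.trans ?_
      push_cast
      gcongr
    have h2 : (2 : ℝ) ^ B0 ≤ L ^ B0 := pow_le_pow_left₀ (by norm_num) (by linarith) B0
    calc 2 * L ^ 3 * (E.card : ℝ) ≤ 2 * L ^ 3 * (4 * X * (2 * L) ^ B0 / (H / (4 * L ^ 2))) := by
          gcongr
      _ = 32 * (X * (2 ^ B0 * L ^ B0 * L ^ 5) / H) := by
        rw [mul_pow]
        field_simp
        ring
      _ ≤ L * (X * (L ^ B0 * L ^ B0 * L ^ 5) / H) := by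
        gcongr
        linarith
      _ = X * L ^ (2 * B0 + 6) / H := by
        ring
      _ ≤ X * L ^ (2 * B0 + 7) / H := by
        gcongr
        · linarith
        · norm_num
  set N := X / b + 2 with hN
  set m' := (m + 1) / 2 with hm'
  have hsub : (range X).filter (fun y => PChainH X H ε m y) ⊆
      E' ∪ (range X).filter (fun y => Chain (gb X b) N (ε / 2) m' (y / b)) := by
    intro y hy
    rw [mem_filter, mem_range] at hy
    rw [mem_union]
    by_cases hyE : y ∈ E'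
    · exact Or.inl hyE
    · right
      rw [mem_filter, mem_range]
      refine ⟨hy.1, chain_of_pchainH X b y m H ε hb (by linarith) hcase hbL ?_ hy.2⟩
      intro u v hu hv hW hvX
      refine dens_av X b (4 * X) y u v E hb (by linarith) hbig ?_ hu hv hW (by omega)
      intro a c ha hc hcN
      exact hE' y (by omega) hyE a c ha hc hcN
  have h1 : (((range X).filter (fun y => PChainH X H ε m y)).card : ℝ) ≤
      E'.card + ((range X).filter (fun y => Chain (gb X b) N (ε / 2) m' (y / b))).card := by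
    exact_mod_cast (card_le_card hsub).trans (card_union_le _ _)
  have hNb : X ≤ N * b := by
    have h3 : X < X / b * b + b := Nat.lt_div_mul_add hb
    rw [hN, Nat.add_mul]
    omega
  have hNb2 : N * b ≤ 3 * X := by
    have h3 : X / b * b ≤ X := Nat.div_mul_le_self X b
    rw [hN, Nat.add_mul]
    omega
  have h2 := card_blocks X b N (fun k => Chain (gb X b) N (ε / 2) m' k) hb hNb
  have h3 := hchain (gb X b) (fun k => gb_bounds X b k (by omega)) N
    (Nat.succ_le_succ (Nat.zero_le _)) (ε / 2) (by linarith) (by linarith) m'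
  have h4 : (((range X).filter (fun y => Chain (gb X b) N (ε / 2) m' (y / b))).card : ℝ) ≤
      3 * C * Real.exp (-((ε / 2) ^ 2 * m' / C)) * X := by
    have h5 : (((range X).filter (fun y => Chain (gb X b) N (ε / 2) m' (y / b))).card : ℝ) ≤
        b * (((range N).filter (fun k => Chain (gb X b) N (ε / 2) m' k)).card : ℝ) := by
      exact_mod_cast h2
    have h6 : (N : ℝ) * b ≤ 3 * X := by exact_mod_cast hNb2
    calc _ ≤ b * (((range N).filter (fun k => Chain (gb X b) N (ε / 2) m' k)).card : ℝ) := h5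
      _ ≤ b * (C * Real.exp (-((ε / 2) ^ 2 * m' / C)) * N) := by gcongr
      _ = C * Real.exp (-((ε / 2) ^ 2 * m' / C)) * (N * b) := by ring
      _ ≤ C * Real.exp (-((ε / 2) ^ 2 * m' / C)) * (3 * X) := by gcongr
      _ = 3 * C * Real.exp (-((ε / 2) ^ 2 * m' / C)) * X := by ring
  have h5 : Real.exp (-((ε / 2) ^ 2 * m' / C)) ≤ Real.exp (-(ε ^ 2 * m / (16 * C))) := by
    apply Real.exp_le_exp.2
    apply neg_le_neg
    have h6 : (m : ℝ) ≤ 2 * m' := by
      have : m ≤ 2 * m' := by omega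
      exact_mod_cast this
    rw [div_le_div_iff₀ (by positivity) (by positivity)]
    have h7 : (ε / 2) ^ 2 * m' * (16 * C) = 2 * (ε ^ 2 * C * (2 * m')) := by ring
    rw [h7]
    have h8 : ε ^ 2 * C * m ≤ ε ^ 2 * C * (2 * m') := by gcongr
    have h9 : 0 ≤ ε ^ 2 * C * (2 * m') := by positivity
    linarith
  have h6 : 3 * C * Real.exp (-((ε / 2) ^ 2 * m' / C)) * X ≤
      16 * C * Real.exp (-(ε ^ 2 * m / (16 * C))) * X := by
    have : 3 * C ≤ 16 * C := by linarith
    gcongr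
  linarith

/-- The number of scales between `H` and `P`. -/
lemma exists_scales (H P : ℕ) (hH : 1 ≤ H) (hP : H ≤ P) :
    ∃ j : ℕ, P ≤ 2 ^ j * H ∧ (2 : ℝ) ^ j ≤ 2 * (P / H) := by
  have hex : ∃ j : ℕ, P ≤ 2 ^ j * H :=
    ⟨P, (Nat.lt_two_pow_self).le.trans (Nat.le_mul_of_pos_right _ hH)⟩
  have hHR : (0 : ℝ) < H := by exact_mod_cast hH
  refine ⟨Nat.find hex, Nat.find_spec hex, ?_⟩
  rw [← mul_div_assoc, le_div_iff₀ hHR]
  rcases Nat.eq_zero_or_pos (Nat.find hex) with h | h
  · rw [h, pow_zero, one_mul]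
    have : (H : ℝ) ≤ P := by exact_mod_cast hP
    linarith
  · have h1 := Nat.find_min hex (show Nat.find hex - 1 < Nat.find hex by omega)
    rw [not_le] at h1
    have h2 : ((2 ^ (Nat.find hex - 1) * H : ℕ) : ℝ) < P := by exact_mod_cast h1
    push_cast at h2
    have h3 : (2 : ℝ) ^ (Nat.find hex) = 2 * 2 ^ (Nat.find hex - 1) := by
      rw [← pow_succ']
      congr 1
      omega
    rw [h3]
    linarith

/-- **Few jumps of the density of primes.** Of the `m` jumps at most
`r + 1 + log2 ((log X) ^ B / H)` have length `< max (H, (log X) ^ B) 2 ^ r`, the others are counted by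
`jumps_H`; `r ~ ε ^ 2 m / K`. -/
theorem jumps_all : ∃ C : ℝ, 1 ≤ C ∧ ∃ B X₀ : ℕ, ∀ X : ℕ, X₀ ≤ X → ∀ H : ℕ, 1 ≤ H →
    ∀ ε : ℝ, 0 < ε → ε ≤ 1 → ∀ m : ℕ,
    (((range X).filter (fun y => PChainH X H ε m y)).card : ℝ) ≤
      C * (1 + (Real.log X) ^ B / H) * Real.exp (-(ε ^ 2 * m / C)) * X := by
  obtain ⟨C0, hC0, c, hc, hc1, B, X1, hX1⟩ := jumps_H
  set K : ℝ := 12 / c with hK
  have hK12 : 12 ≤ K := by
    rw [hK, le_div_iff₀ hc]
    linarith
  set C : ℝ := 8 * C0 + 2 * K + 4 with hCdef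
  refine ⟨C, by linarith, B, ?_⟩
  obtain ⟨X2, hX2⟩ := Filter.eventually_atTop.1
    ((ev_log_ge 100).and (ev_log_pow_rpow (B + 1) (c / 2) (by positivity)))
  refine ⟨max (max X1 X2) 4, ?_⟩
  intro X hX H hH ε hε hε1 m
  have hXX1 : X1 ≤ X := ((le_max_left _ _).trans (le_max_left _ _)).trans hX
  have hX4 : 4 ≤ X := (le_max_right _ _).trans hX
  obtain ⟨hL, hpow⟩ := hX2 X (((le_max_right _ _).trans (le_max_left _ _)).trans hX)
  set L := Real.log X with hLdef
  have hL0 : 0 < L := by linarith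
  have hXR : (0 : ℝ) < X := by exact_mod_cast (by omega : 0 < X)
  have hXR1 : (1 : ℝ) ≤ X := by exact_mod_cast (by omega : 1 ≤ X)
  have hLB : L ^ B + 1 ≤ (X : ℝ) ^ (c / 2) := by
    have h1 : (1 : ℝ) ≤ L ^ B := one_le_pow₀ (by linarith)
    calc L ^ B + 1 ≤ L ^ B * 2 := by linarith
      _ ≤ L ^ B * L := by gcongr; linarith
      _ = L ^ (B + 1) := (pow_succ _ _).symm
      _ ≤ (X : ℝ) ^ (c / 2) := hpow
  have hLB0 : 0 < L ^ B := by positivity
  have hεm : 0 ≤ ε ^ 2 * m := by positivity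
  have hε2 : ε ^ 2 ≤ 1 := pow_le_one₀ hε.le hε1
  have main : ∀ H : ℕ, 1 ≤ H → (H : ℝ) ≤ (X : ℝ) ^ (c / 2) →
      (((range X).filter (fun y => PChainH X H ε m y)).card : ℝ) ≤
      (4 * C0 + 2) * (1 + L ^ B / H) * Real.exp (-(ε ^ 2 * m / C)) * X := by
    intro H hH hHc
    have hHR : (1 : ℝ) ≤ H := by exact_mod_cast hH
    by_cases hm : (m : ℝ) ≤ 2 * L + 1
    swap
    · have h1 : (range X).filter (fun y => PChainH X H ε m y) = ∅ := by
        apply filter_eq_empty_iff.2
        intro y _ hy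
        exact hm (pchainH_short X H ε m y (by omega) hH hy)
      rw [h1, card_empty, Nat.cast_zero]
      positivity
    set P := max H ⌈L ^ B⌉₊ with hP
    have hPH : H ≤ P := le_max_left _ _
    have hPR : (1 : ℝ) ≤ P := by exact_mod_cast hH.trans hPH
    have hPL : L ^ B ≤ P := (Nat.le_ceil _).trans (by exact_mod_cast le_max_right _ _)
    have hceil : (⌈L ^ B⌉₊ : ℝ) ≤ L ^ B + 1 := (Nat.ceil_lt_add_one hLB0.le).le
    have hPle : (P : ℝ) ≤ (X : ℝ) ^ (c / 2) := by
      rw [hP, Nat.cast_max]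
      exact max_le hHc (hceil.trans hLB)
    have hPle2 : (P : ℝ) ≤ H + L ^ B + 1 := by
      rw [hP, Nat.cast_max]
      apply max_le
      · linarith
      · linarith
    obtain ⟨j, hj1, hj2⟩ := exists_scales H P hH hPH
    set r := ⌊ε ^ 2 * m / K⌋₊ with hr
    have hr1 : (r : ℝ) ≤ ε ^ 2 * m / K := Nat.floor_le (by positivity)
    have hr2 : ε ^ 2 * m / K < r + 1 := Nat.lt_floor_add_one _
    have hrL : (r : ℝ) ≤ c / 4 * L := by
      refine hr1.trans ?_
      rw [div_le_iff₀ (by linarith)]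
      have h1 : c / 4 * L * K = 3 * L := by
        rw [hK]
        field_simp
        norm_num
      rw [h1]
      have h2 : ε ^ 2 * m ≤ 1 * m := by gcongr
      linarith
    have h2r : (2 : ℝ) ^ r ≤ (X : ℝ) ^ (c / 4) := by
      have h1 : (2 : ℝ) ^ r ≤ Real.exp r := by
        have h2 : (2 : ℝ) ≤ Real.exp 1 := by
          have := Real.add_one_le_exp (1 : ℝ)
          linarith
        calc (2 : ℝ) ^ r ≤ (Real.exp 1) ^ r := pow_le_pow_left₀ (by norm_num) h2 r
          _ = Real.exp r := by rw [← Real.exp_nat_mul, mul_one]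
      refine h1.trans ?_
      rw [Real.rpow_def_of_pos hXR]
      apply Real.exp_le_exp.2
      rw [← hLdef]
      linarith
    have hH1c : ((P * 2 ^ r : ℕ) : ℝ) ≤ (X : ℝ) ^ c := by
      push_cast
      calc (P : ℝ) * 2 ^ r ≤ (X : ℝ) ^ (c / 2) * (X : ℝ) ^ (c / 4) := by gcongr
        _ = (X : ℝ) ^ (c / 2 + c / 4) := (Real.rpow_add hXR _ _).symm
        _ ≤ (X : ℝ) ^ c := Real.rpow_le_rpow_of_exponent_le hXR1 (by linarith)
    have hH11 : 1 ≤ P * 2 ^ r := Nat.succ_le_of_lt (Nat.mul_pos (by omega) (by positivity))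
    have h1 := hX1 X hXX1 (P * 2 ^ r) hH11 hH1c ε hε hε1 (m - (r + j))
    have hsub : (range X).filter (fun y => PChainH X H ε m y) ⊆
        (range X).filter (fun y => PChainH X (P * 2 ^ r) ε (m - (r + j)) y) := by
      intro y hy
      rw [mem_filter] at hy ⊢
      refine ⟨hy.1, pchainH_drop X H (P * 2 ^ r) ε m y (r + j) ?_ hy.2⟩
      rw [pow_add]
      calc P * 2 ^ r ≤ 2 ^ j * H * 2 ^ r := Nat.mul_le_mul_right _ hj1
        _ = 2 ^ r * 2 ^ j * H := by ring
    have h2 : (((range X).filter (fun y => PChainH X H ε m y)).card : ℝ) ≤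
        (((range X).filter (fun y => PChainH X (P * 2 ^ r) ε (m - (r + j)) y)).card : ℝ) := by
      exact_mod_cast card_le_card hsub
    refine h2.trans (h1.trans ?_)
    -- first term
    have hQ : (2 : ℝ) ^ j ≤ 4 * (1 + L ^ B / H) := by
      refine hj2.trans ?_
      have h3 : (P : ℝ) / H ≤ 2 * (1 + L ^ B / H) := by
        rw [div_le_iff₀ (by linarith)]
        have h4 : 2 * (1 + L ^ B / H) * H = 2 * H + 2 * L ^ B := by
          field_simp
        rw [h4]
        linarith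
      linarith
    have hexp1 : Real.exp (-(ε ^ 2 * ((m - (r + j) : ℕ) : ℝ) / C0)) ≤
        2 ^ j * Real.exp (-(ε ^ 2 * m / C)) := by
      have h3 : (m : ℝ) - (r + j) ≤ ((m - (r + j) : ℕ) : ℝ) := by
        have : m ≤ (m - (r + j)) + (r + j) := by omega
        have h4 : (m : ℝ) ≤ ((m - (r + j) : ℕ) : ℝ) + (r + j) := by exact_mod_cast this
        linarith
      have h4 : (0 : ℝ) ≤ ((m - (r + j) : ℕ) : ℝ) := Nat.cast_nonneg _
      have h5 : ε ^ 2 * ((m : ℝ) - (r + j)) / (2 * C0) ≤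
          ε ^ 2 * ((m - (r + j) : ℕ) : ℝ) / C0 := by
        calc ε ^ 2 * ((m : ℝ) - (r + j)) / (2 * C0) ≤
            ε ^ 2 * ((m - (r + j) : ℕ) : ℝ) / (2 * C0) := by gcongr
          _ ≤ ε ^ 2 * ((m - (r + j) : ℕ) : ℝ) / C0 := by
            apply div_le_div_of_nonneg_left (by positivity) (by linarith) (by linarith)
      have h6 : ε ^ 2 * r / (2 * C0) ≤ ε ^ 2 * m / (4 * C0) := by
        rw [div_le_div_iff₀ (by positivity) (by positivity)]
        have h7 : ε ^ 2 * r ≤ 1 * (ε ^ 2 * m / K) := by gcongr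
        have h8 : ε ^ 2 * m / K ≤ ε ^ 2 * m / 12 := by
          apply div_le_div_of_nonneg_left hεm (by norm_num) hK12
        have h9 : ε ^ 2 * r ≤ ε ^ 2 * m / 12 := by linarith
        calc ε ^ 2 * r * (4 * C0) ≤ ε ^ 2 * m / 12 * (4 * C0) := by gcongr
          _ ≤ ε ^ 2 * m * (2 * C0) := by
            have : 0 ≤ ε ^ 2 * m * C0 := by positivity
            linarith
      have h7 : ε ^ 2 * j / (2 * C0) ≤ j / 2 := by
        rw [div_le_div_iff₀ (by positivity) (by norm_num)]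
        have h8 : ε ^ 2 * j ≤ 1 * j := by gcongr
        have h9 : (j : ℝ) * 1 ≤ j * C0 := by gcongr
        nlinarith
      have h8 : Real.exp (j / 2 : ℝ) ≤ 2 ^ j := by
        have h9 : Real.exp (1 / 2 : ℝ) ≤ 2 := by
          have h10 : Real.exp (1 / 2 : ℝ) ^ 2 = Real.exp 1 := by
            rw [← Real.exp_nat_mul]
            congr 1
            norm_num
          have h11 := Real.exp_one_lt_d9
          nlinarith [Real.exp_pos (1 / 2 : ℝ)]
        calc Real.exp (j / 2 : ℝ) = Real.exp (1 / 2 : ℝ) ^ j := by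
              rw [← Real.exp_nat_mul]
              congr 1
              ring
          _ ≤ 2 ^ j := pow_le_pow_left₀ (Real.exp_pos _).le h9 j
      have h9 : ε ^ 2 * m / C ≤ ε ^ 2 * m / (4 * C0) := by
        apply div_le_div_of_nonneg_left hεm (by positivity)
        rw [hCdef]
        linarith
      calc Real.exp (-(ε ^ 2 * ((m - (r + j) : ℕ) : ℝ) / C0)) ≤
          Real.exp (j / 2 + -(ε ^ 2 * m / C)) := by
            apply Real.exp_le_exp.2
            have h10 : ε ^ 2 * ((m : ℝ) - (r + j)) / (2 * C0) =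
                ε ^ 2 * m / (4 * C0) + ε ^ 2 * m / (4 * C0) - ε ^ 2 * r / (2 * C0) -
                  ε ^ 2 * j / (2 * C0) := by
              field_simp
              ring
            linarith
        _ = Real.exp (j / 2 : ℝ) * Real.exp (-(ε ^ 2 * m / C)) := Real.exp_add _ _
        _ ≤ 2 ^ j * Real.exp (-(ε ^ 2 * m / C)) := by gcongr
    -- second term
    have hsec : X * L ^ B / ((P * 2 ^ r : ℕ) : ℝ) ≤ 2 * Real.exp (-(ε ^ 2 * m / C)) * X := by
      push_cast
      have h3 : X * L ^ B / (P * 2 ^ r) ≤ X / 2 ^ r := by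
        rw [div_le_div_iff₀ (by positivity) (by positivity)]
        have : X * L ^ B * 2 ^ r ≤ X * P * 2 ^ r := by gcongr
        linarith
      refine h3.trans ?_
      have h4 : (1 : ℝ) ≤ 2 * Real.exp (-(ε ^ 2 * m / C)) * 2 ^ r := by
        have h5 : Real.exp (ε ^ 2 * m / C) ≤ 2 * 2 ^ r := by
          have h6 : ε ^ 2 * m / C ≤ (r + 1) * (1 / 2) := by
            have h7 : ε ^ 2 * m / C ≤ ε ^ 2 * m / (2 * K) := by
              apply div_le_div_of_nonneg_left hεm (by positivity)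
              rw [hCdef]
              linarith
            have h8 : ε ^ 2 * m / (2 * K) = ε ^ 2 * m / K * (1 / 2) := by
              field_simp
            rw [h8] at h7
            linarith
          have h7 : (1 : ℝ) / 2 ≤ Real.log 2 := by
            have := Real.log_two_gt_d9
            linarith
          calc Real.exp (ε ^ 2 * m / C) ≤ Real.exp ((r + 1) * Real.log 2) := by
                apply Real.exp_le_exp.2
                refine h6.trans ?_
                gcongr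
            _ = 2 * 2 ^ r := by
              have h8 : ((r : ℝ) + 1) * Real.log 2 = Real.log (2 ^ (r + 1)) := by
                rw [Real.log_pow]
                push_cast
                ring
              rw [h8, Real.exp_log (by positivity), pow_succ]
              ring
        have h6 : 2 * Real.exp (-(ε ^ 2 * m / C)) * 2 ^ r =
            (2 * 2 ^ r) * Real.exp (-(ε ^ 2 * m / C)) := by ring
        rw [h6]
        calc (1 : ℝ) = Real.exp (ε ^ 2 * m / C) * Real.exp (-(ε ^ 2 * m / C)) := by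
              rw [← Real.exp_add, add_neg_cancel, Real.exp_zero]
          _ ≤ (2 * 2 ^ r) * Real.exp (-(ε ^ 2 * m / C)) := by gcongr
      rw [div_le_iff₀ (by positivity)]
      have h5 := mul_le_mul_of_nonneg_right h4 hXR.le
      linarith
    have hT : 0 < Real.exp (-(ε ^ 2 * m / C)) := Real.exp_pos _
    have hS : 0 ≤ L ^ B / (H : ℝ) := by positivity
    calc C0 * Real.exp (-(ε ^ 2 * ((m - (r + j) : ℕ) : ℝ) / C0)) * X +
          X * L ^ B / ((P * 2 ^ r : ℕ) : ℝ) ≤
          C0 * (4 * (1 + L ^ B / H) * Real.exp (-(ε ^ 2 * m / C))) * X +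
          2 * Real.exp (-(ε ^ 2 * m / C)) * X := by
          have h3 : Real.exp (-(ε ^ 2 * ((m - (r + j) : ℕ) : ℝ) / C0)) ≤
              4 * (1 + L ^ B / H) * Real.exp (-(ε ^ 2 * m / C)) :=
            hexp1.trans (mul_le_mul_of_nonneg_right hQ hT.le)
          have h4 : C0 * Real.exp (-(ε ^ 2 * ((m - (r + j) : ℕ) : ℝ) / C0)) * X ≤
              C0 * (4 * (1 + L ^ B / H) * Real.exp (-(ε ^ 2 * m / C))) * X := by gcongr
          linarith
      _ ≤ (4 * C0 + 2) * (1 + L ^ B / H) * Real.exp (-(ε ^ 2 * m / C)) * X := by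
          have h3 : 0 ≤ L ^ B / (H : ℝ) * (Real.exp (-(ε ^ 2 * m / C)) * X) := by positivity
          nlinarith
  -- all scales
  have hHR : (1 : ℝ) ≤ H := by exact_mod_cast hH
  have hfin : 4 * C0 + 2 ≤ C / 2 := by
    rw [hCdef]
    linarith
  have hS : 0 ≤ L ^ B / (H : ℝ) := by positivity
  rcases le_or_gt (H : ℝ) ((X : ℝ) ^ (c / 2)) with hcase | hcase
  · refine (main H hH hcase).trans ?_
    have : 4 * C0 + 2 ≤ C := by linarith
    gcongr
  · set H' := ⌊(X : ℝ) ^ (c / 2)⌋₊ with hH'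
    have h1 : (H' : ℝ) ≤ (X : ℝ) ^ (c / 2) := Nat.floor_le (by positivity)
    have h2 : (X : ℝ) ^ (c / 2) < H' + 1 := Nat.lt_floor_add_one _
    have h3 : L ^ B ≤ H' := by linarith
    have h4 : (1 : ℝ) ≤ H' := by
      have : (1 : ℝ) ≤ L ^ B := one_le_pow₀ (by linarith)
      linarith
    have h5 : 1 ≤ H' := by exact_mod_cast h4
    have h6 : H' ≤ H := by
      have : (H' : ℝ) ≤ H := by linarith
      exact_mod_cast this
    have h7 : (((range X).filter (fun y => PChainH X H ε m y)).card : ℝ) ≤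
        (((range X).filter (fun y => PChainH X H' ε m y)).card : ℝ) := by
      have : (range X).filter (fun y => PChainH X H ε m y) ⊆
          (range X).filter (fun y => PChainH X H' ε m y) := by
        intro y hy
        rw [mem_filter] at hy ⊢
        exact ⟨hy.1, pchainH_mono X H H' ε m y h6 hy.2⟩
      exact_mod_cast card_le_card this
    refine h7.trans ((main H' h5 h1).trans ?_)
    have h8 : 1 + L ^ B / (H' : ℝ) ≤ 2 := by
      have : L ^ B / (H' : ℝ) ≤ 1 := by
        rw [div_le_one (by linarith)]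
        exact h3
      linarith
    have h9 : (4 * C0 + 2) * (1 + L ^ B / (H' : ℝ)) ≤ C * (1 + L ^ B / H) := by
      calc (4 * C0 + 2) * (1 + L ^ B / (H' : ℝ)) ≤ (C / 2) * 2 := by gcongr
        _ = C * 1 := by ring
        _ ≤ C * (1 + L ^ B / H) := by
          have : 0 ≤ C := by linarith
          gcongr
          linarith
    gcongr

end Pool.Agent.H.MP_711652_nt.QW
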