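import Mathlib
import Pool.Agent.H.MP_711652_nt.TailB2

set_option autoImplicit false

namespace Pool.Agent.H.MP_711652_nt.QW

open Finset Pool.Agent.H.MP_711652_nt

/-- Local form of `first_moment`: absolute bounds `U` instead of bounds relative to `∑ f`. -/
theorem first_moment_loc (M b : ℕ) (hb : 0 < b) (hbM : b ∣ M) (f Φ : ℕ → ℝ)
    (hf : ∀ k, 0 ≤ f k) (hΦ0 : ∀ k, 0 ≤ Φ k) (hΦ : Blk b Φ) (A U : ℝ) (hA : 1 ≤ A) (hU : 0 ≤ U)
    (h : ∑ n ∈ range M, √(avg b f n) * (Φ n) ^ 2 ≤ A * √(M * ∑ n ∈ range M, f n))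
    (hS : ∑ n ∈ range M, f n ≤ U)
    (hQ : M * ∑ n ∈ range M, (avg b f n) ^ 2 ≤ U ^ 2) :
    ∑ n ∈ range M, f n * Φ n ≤ A * U := by
  have h4 := fourth_moment M b hb hbM f Φ hf hΦ0 hΦ A (zero_le_one.trans hA) h
  have nS : 0 ≤ ∑ n ∈ range M, f n := sum_nonneg fun n _ => hf n
  have hA0 : 0 ≤ A := zero_le_one.trans hA
  have nL : 0 ≤ M * ∑ n ∈ range M, (avg b f n) ^ 2 :=
    mul_nonneg (Nat.cast_nonneg _) (sum_nonneg fun n _ => sq_nonneg _)
  have h5 : (∑ n ∈ range M, f n * Φ n) ^ 4 ≤ (A * U) ^ 4 := by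
    have h6 : A ^ 2 ≤ A ^ 4 := pow_le_pow_right₀ hA (by norm_num)
    have h7 : (∑ n ∈ range M, f n) ^ 2 ≤ U ^ 2 := pow_le_pow_left₀ nS hS 2
    calc (∑ n ∈ range M, f n * Φ n) ^ 4
        ≤ A ^ 2 * (∑ n ∈ range M, f n) ^ 2 * (M * ∑ n ∈ range M, (avg b f n) ^ 2) := h4
      _ ≤ A ^ 2 * U ^ 2 * U ^ 2 := by
          apply mul_le_mul _ hQ nL (by positivity)
          exact mul_le_mul_of_nonneg_left h7 (sq_nonneg _)
      _ = A ^ 2 * U ^ 4 := by ring
      _ ≤ A ^ 4 * U ^ 4 := mul_le_mul_of_nonneg_right h6 (pow_nonneg hU 4)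
      _ = (A * U) ^ 4 := by ring
  exact le_of_pow_le_pow_left₀ (by norm_num) (mul_nonneg hA0 hU) h5

open Classical in
/-- Local form of `tail_abs`. -/
theorem tail_abs_loc (M b J : ℕ) (s T : ℕ → ℕ) (hM : 0 < M) (hb : 0 < b) (hbM : b ∣ M)
    (f : ℕ → ℝ) (hf : ∀ k, 0 ≤ f k) (h1 : ∀ i, i < J → 0 < s i ∧ b ∣ s i ∧ s i ∣ T i)
    (h2 : ∀ i j, i < j → j < J → T i ∣ s j) (h3 : ∀ i, i < J → T i ∣ M)
    (B : ℕ → ℕ → Prop) (κ U : ℝ) (hκ : 1 ≤ κ) (hU : 0 ≤ U)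
    (hS : ∑ n ∈ range M, f n ≤ U)
    (hQ : M * ∑ n ∈ range M, (avg b f n) ^ 2 ≤ U ^ 2)
    (hB1 : ∀ i, i < J → ∀ m n, m / s i = n / s i → (B i m ↔ B i n))
    (hB2 : ∀ i, i < J → ∀ n, avg (T i) (fun k => if B i k then f k else 0) n ≤
      κ * (en (s i) (T i) f n * avg (T i) f n)) (m : ℕ) :
    ∑ n ∈ (range M).filter (fun n => m ≤ nb B J n), f n ≤
      Real.exp (-(m / (16 * κ))) * U := by
  have hκ0 : 0 < κ := by linarith only [hκ]
  set E : ℕ → ℝ := fun n => ∑ i ∈ range J, en (s i) (T i) f n with hE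
  set S := ∑ n ∈ range M, f n with hSdef
  set A := (range M).filter (fun n => m ≤ nb B J n) with hA
  have hS0 : 0 ≤ S := sum_nonneg fun n _ => hf n
  have hSA0 : 0 ≤ ∑ n ∈ A, f n := sum_nonneg fun n _ => hf n
  -- (a)
  have hEb : Blk b E := by
    intro p q hpq
    refine sum_congr rfl fun i hi => ?_
    rw [mem_range] at hi
    have hb1 : b ∣ T i := (h1 i hi).2.1.trans (h1 i hi).2.2
    exact blk_of_dvd hb1 (blk_en (s i) (T i) f) p q hpq
  have ha : ∑ n ∈ range M, f n * Real.exp (E n / 4) ≤ 1 * U := by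
    refine first_moment_loc M b hb hbM f (fun n => Real.exp (E n / 4)) hf
      (fun k => (Real.exp_pos _).le) (fun p q hpq => by
        change Real.exp (E p / 4) = Real.exp (E q / 4); rw [hEb p q hpq]) 1 U le_rfl hU ?_ hS hQ
    rw [one_mul]
    have h := sqrt_total M b J s T hM hb f hf h1 h2 h3 hbM
    refine le_trans (le_of_eq (sum_congr rfl fun n _ => ?_)) h
    congr 1
    rw [← Real.exp_nat_mul]
    congr 1
    push_cast
    ring
  rw [one_mul] at ha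
  -- (b)
  set x : ℝ := 1 / (4 * κ) with hx
  have hx0 : 0 ≤ x := by positivity
  have hx1 : x ≤ 1 := by
    rw [hx, div_le_one (by positivity)]
    linarith only [hκ]
  have hxκ : x * κ = 1 / 4 := by
    rw [hx]
    field_simp
  have hb' : ∑ n ∈ range M, f n * ((1 + x) ^ (nb B J n) * Real.exp (-(E n / 4))) ≤ S := by
    have h := bad_super M s T hM f hf B x κ hx0 hκ0.le J M (fun i hi => ⟨(h1 i hi).1, (h1 i hi).2.2⟩)
      h2 h3 (dvd_refl M) hB1 hB2 (fun _ => 1) (fun _ => zero_le_one) (fun _ _ _ => rfl)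
    simp only [mul_one] at h
    refine le_trans (le_of_eq (sum_congr rfl fun n _ => ?_)) h
    congr 3
    rw [hxκ]
    ring
  have hbA : (1 + x) ^ m * ∑ n ∈ A, f n * Real.exp (-(E n / 4)) ≤ U := by
    refine le_trans ?_ (hb'.trans hS)
    rw [mul_sum]
    refine le_trans (sum_le_sum fun n hn => ?_)
      (sum_le_sum_of_subset_of_nonneg (filter_subset (fun n => m ≤ nb B J n) (range M))
        (fun n _ _ => mul_nonneg (hf n) (by positivity)))
    rw [hA, mem_filter] at hn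
    have h4 : (1 + x) ^ m ≤ (1 + x) ^ (nb B J n) :=
      pow_le_pow_right₀ (by linarith only [hx0]) hn.2
    have h5 : 0 ≤ f n * Real.exp (-(E n / 4)) := mul_nonneg (hf n) (Real.exp_pos _).le
    calc (1 + x) ^ m * (f n * Real.exp (-(E n / 4))) ≤
        (1 + x) ^ (nb B J n) * (f n * Real.exp (-(E n / 4))) := mul_le_mul_of_nonneg_right h4 h5
      _ = _ := by ring
  -- (c)
  have hc : (∑ n ∈ A, f n) ^ 2 ≤ (∑ n ∈ A, f n * Real.exp (-(E n / 4))) *
      ∑ n ∈ A, f n * Real.exp (E n / 4) := by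
    refine sum_sq_le_sum_mul_sum_of_sq_le_mul A
      (fun n _ => mul_nonneg (hf n) (Real.exp_pos _).le)
      (fun n _ => mul_nonneg (hf n) (Real.exp_pos _).le) fun n _ => ?_
    have h6 : Real.exp (-(E n / 4)) * Real.exp (E n / 4) = 1 := by
      rw [← Real.exp_add, neg_add_cancel, Real.exp_zero]
    refine le_of_eq ?_
    calc f n ^ 2 = f n * f n * (Real.exp (-(E n / 4)) * Real.exp (E n / 4)) := by rw [h6]; ring
      _ = _ := by ring
  have haA : ∑ n ∈ A, f n * Real.exp (E n / 4) ≤ U :=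
    le_trans (sum_le_sum_of_subset_of_nonneg (filter_subset _ _)
      (fun n _ _ => mul_nonneg (hf n) (Real.exp_pos _).le)) ha
  have hpos1 : 0 ≤ ∑ n ∈ A, f n * Real.exp (-(E n / 4)) :=
    sum_nonneg fun n _ => mul_nonneg (hf n) (Real.exp_pos _).le
  have hd : (1 + x) ^ m * (∑ n ∈ A, f n) ^ 2 ≤ U * U := by
    have h7 : (0 : ℝ) ≤ (1 + x) ^ m := by positivity
    calc (1 + x) ^ m * (∑ n ∈ A, f n) ^ 2 ≤
        (1 + x) ^ m * ((∑ n ∈ A, f n * Real.exp (-(E n / 4))) *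
          ∑ n ∈ A, f n * Real.exp (E n / 4)) := mul_le_mul_of_nonneg_left hc h7
      _ = ((1 + x) ^ m * ∑ n ∈ A, f n * Real.exp (-(E n / 4))) *
          ∑ n ∈ A, f n * Real.exp (E n / 4) := by ring
      _ ≤ ((1 + x) ^ m * ∑ n ∈ A, f n * Real.exp (-(E n / 4))) * U :=
          mul_le_mul_of_nonneg_left haA (mul_nonneg h7 hpos1)
      _ ≤ U * U := mul_le_mul_of_nonneg_right hbA hU
  have he : Real.exp (m / (8 * κ)) ≤ (1 + x) ^ m := by
    have h8 := pow_le_pow_left₀ (Real.exp_pos _).le (exp_half_le x hx0 hx1) m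
    rw [← Real.exp_nat_mul] at h8
    have h9 : (m : ℝ) * (x / 2) = m / (8 * κ) := by
      rw [hx]
      field_simp
      ring
    rwa [h9] at h8
  set Y := Real.exp (-(m / (16 * κ))) with hY
  have hY0 : 0 < Y := Real.exp_pos _
  have hYY : Y ^ 2 * Real.exp (m / (8 * κ)) = 1 := by
    rw [hY, ← Real.exp_nat_mul, ← Real.exp_add, Real.exp_eq_one_iff]
    push_cast
    field_simp
    ring
  have hf1 : (∑ n ∈ A, f n) ^ 2 ≤ (Y * U) ^ 2 := by
    have h10 : Real.exp (m / (8 * κ)) * (∑ n ∈ A, f n) ^ 2 ≤ U * U :=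
      (mul_le_mul_of_nonneg_right he (sq_nonneg _)).trans hd
    have h11 : (∑ n ∈ A, f n) ^ 2 = Y ^ 2 * (Real.exp (m / (8 * κ)) * (∑ n ∈ A, f n) ^ 2) := by
      rw [← mul_assoc, hYY, one_mul]
    rw [h11]
    calc Y ^ 2 * (Real.exp (m / (8 * κ)) * (∑ n ∈ A, f n) ^ 2) ≤ Y ^ 2 * (U * U) :=
          mul_le_mul_of_nonneg_left h10 (sq_nonneg Y)
      _ = _ := by ring
  exact (sq_le_sq₀ hSA0 (mul_nonneg hY0.le hU)).1 hf1

end Pool.Agent.H.MP_711652_nt.QW
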