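import Mathlib
import Pool.Agent.H.MP_711652_nt.TailC2
import Pool.Agent.H.MP_711652_nt.TailA1

set_option autoImplicit false

namespace Pool.Agent.H.MP_711652_nt.QW

open Finset Pool.Agent.H.MP_711652_nt

/-- The indicator function of the primes, seen from the integer `w`. -/
noncomputable def pw (w : ℤ) (n : ℕ) : ℝ := if ((n : ℤ) + w).toNat.Prime then 1 else 0

/-- The number of ordered pairs of primes at distance `< b`, both within `H` of `y`. -/
noncomputable def pairN (y H b : ℕ) : ℕ :=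
  ((Icc (y - H) (y + H) ×ˢ Icc (y - H) (y + H)).filter
    (fun x => x.1.Prime ∧ x.2.Prime ∧ x.1 < x.2 + b ∧ x.2 < x.1 + b)).card

lemma pw_nonneg (w : ℤ) (n : ℕ) : 0 ≤ pw w n := by
  unfold pw
  split_ifs <;> norm_num

lemma pw_eq_one (w : ℤ) (n p : ℕ) (h : (n : ℤ) + w = p) (hp : p.Prime) : pw w n = 1 := by
  unfold pw
  rw [h, Int.toNat_natCast, if_pos hp]

lemma csum_pw (w : ℤ) (n y h : ℕ) (hw : (n : ℤ) + w = y) : csum (pw w) n h = (cnt y h : ℝ) := by
  unfold csum cnt
  rw [card_filter]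
  push_cast
  apply sum_bij (fun k _ => k + y - n)
  · intro k hk
    rw [mem_Ioc] at hk ⊢
    omega
  · intro k hk k' hk' hkk
    rw [mem_Ioc] at hk hk'
    omega
  · intro q hq
    rw [mem_Ioc] at hq
    exact ⟨q + n - y, by rw [mem_Ioc]; omega, by omega⟩
  · intro k hk
    rw [mem_Ioc] at hk
    unfold pw
    have h1 : ((k : ℤ) + w).toNat = k + y - n := by omega
    rw [h1]

/-- Goodness gives typicality. -/
lemma typical_of_good_w (w : ℤ) (n p H R T : ℕ) (ε : ℝ) (hw : (n : ℤ) + w = p) (hR : R ≤ n)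
    (h1 : 0 < avg T (pw w) n) (h2 : GoodAt (pw w) ε (avg T (pw w) n) H R n) :
    TypicalS ε H R p := by
  classical
  refine ⟨_, h1, fun r hr hrR => ?_⟩
  refine le_trans ?_ (h2 r hr hrR)
  rw [Nat.cast_le]
  apply card_le_card_of_injOn (fun y => y + n - p)
  · intro y hy
    rw [Finset.mem_coe, mem_filter, mem_Icc] at hy
    rw [Finset.mem_coe, mem_filter, mem_Icc]
    obtain ⟨⟨hy1, hy2⟩, k, hk1, hk2, hk3⟩ := hy
    refine ⟨⟨?_, ?_⟩, k, hk1, hk2, ?_⟩
    · show n - r ≤ y + n - p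
      omega
    · show y + n - p ≤ n + r
      omega
    · show _ < |csum (pw w) (y + n - p) k - _|
      rw [csum_pw w (y + n - p) y k (by omega)]
      exact hk3
  · intro y hy y' hy' hyy
    rw [Finset.mem_coe, mem_filter, mem_Icc] at hy hy'
    simp only at hyy
    omega

lemma avg_pw_pos (w : ℤ) (T n p : ℕ) (hT : 0 < T) (hw : (n : ℤ) + w = p) (hp : p.Prime) :
    0 < avg T (pw w) n := by
  unfold avg
  apply div_pos _ (by exact_mod_cast hT)
  have h1 : pw w (n / T * T + n % T) = 1 := by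
    rw [Nat.div_add_mod']
    exact pw_eq_one w n p hw hp
  have h2 : pw w (n / T * T + n % T) ≤ ∑ i ∈ range T, pw w (n / T * T + i) :=
    single_le_sum (f := fun i => pw w (n / T * T + i)) (fun i _ => pw_nonneg w _)
      (mem_range.2 (Nat.mod_lt _ hT))
  linarith

/-- A prime which is not typical is at a bad place in one of the two grids. -/
lemma badB_of_not_typical_w (z : ℤ) (b t K A H R L T n p : ℕ) (ε : ℝ) (hb : 0 < b)
    (hA : 3 * A + 1 = 2 ^ K) (ht : t ≤ K) (hT : T = b * 2 ^ t) (hz : 6 * (2 * R + L) + b < T)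
    (hw : (n : ℤ) + z = p) (hp : p.Prime) (h : ¬ TypicalS ε H R p) :
    BadB (pw z) ε H R L T n ∨ BadB (pw (z - (b * A : ℕ))) ε H R L T (n + b * A) := by
  have hT0 : 0 < T := by omega
  rcases two_grids b t K A n (2 * R + L) T hb hA ht hT hz with ⟨g1, g2⟩ | ⟨g1, g2⟩
  · left
    have hpos := avg_pw_pos z T n p hT0 hw hp
    have hn : n % T ≤ n := Nat.mod_le _ _
    refine ⟨n, rfl, by omega, g2, hpos, ?_⟩
    intro hgood
    exact h (typical_of_good_w z n p H R T ε hw (by omega) hpos hgood)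
  · right
    have hw' : ((n + b * A : ℕ) : ℤ) + (z - (b * A : ℕ)) = p := by
      push_cast
      linarith
    have hpos := avg_pw_pos (z - (b * A : ℕ)) T (n + b * A) p hT0 hw' hp
    have hn : (n + b * A) % T ≤ n + b * A := Nat.mod_le _ _
    refine ⟨n + b * A, rfl, by omega, g2, hpos, ?_⟩
    intro hgood
    exact h (typical_of_good_w _ (n + b * A) p H R T ε hw' (by omega) hpos hgood)

/-- The total mass in a window. -/
lemma sum_pw_le (w : ℤ) (y H b M : ℕ) (hb : 0 < b) (h1 : (y : ℤ) - H ≤ w)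
    (h2 : (M : ℤ) + w ≤ y + H + 1) : ∑ n ∈ range M, pw w n ≤ (pairN y H b : ℝ) := by
  classical
  unfold pw pairN
  rw [sum_boole]
  rw [Nat.cast_le]
  apply card_le_card_of_injOn (fun n : ℕ => (((n : ℤ) + w).toNat, ((n : ℤ) + w).toNat))
  · intro n hn
    rw [Finset.mem_coe, mem_filter, mem_range] at hn
    rw [Finset.mem_coe, mem_filter, mem_product, mem_Icc]
    refine ⟨⟨?_, ?_⟩, hn.2, hn.2, by simpa using hb, by simpa using hb⟩ <;> constructor <;>
      simp only <;> omega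
  · intro n hn n' hn' hnn
    rw [Finset.mem_coe, mem_filter, mem_range] at hn hn'
    simp only [Prod.mk.injEq] at hnn
    have := hn.2.pos
    have := hn'.2.pos
    omega

/-- The second moment in a window. -/
lemma sum_sq_avg_pw_le (w : ℤ) (y H b M : ℕ) (hb : 0 < b) (hbM : b ∣ M) (h1 : (y : ℤ) - H ≤ w)
    (h2 : (M : ℤ) + w ≤ y + H + 1) :
    ∑ n ∈ range M, (avg b (pw w) n) ^ 2 ≤ (pairN y H b : ℝ) / b := by
  classical
  have hb0 : (0 : ℝ) < b := by exact_mod_cast hb
  have e1 : ∑ n ∈ range M, (avg b (pw w) n) ^ 2 = ∑ n ∈ range M, pw w n * avg b (pw w) n := by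
    rw [sum_mul_blk M b hb hbM (pw w) (avg b (pw w)) (blk_avg b _)]
    exact sum_congr rfl fun n _ => by ring
  have e2 : ∑ n ∈ range M, pw w n * avg b (pw w) n =
      (∑ x ∈ range M ×ˢ range b, pw w x.1 * pw w (x.1 / b * b + x.2)) / b := by
    rw [sum_product, sum_div]
    refine sum_congr rfl fun n _ => ?_
    unfold avg
    rw [← mul_div_assoc, mul_sum]
  rw [e1, e2]
  apply div_le_div_of_nonneg_right _ hb0.le
  have e3 : ∀ x ∈ range M ×ˢ range b, pw w x.1 * pw w (x.1 / b * b + x.2) =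
      if (((x.1 : ℤ) + w).toNat.Prime ∧ (((x.1 / b * b + x.2 : ℕ) : ℤ) + w).toNat.Prime)
        then (1 : ℝ) else 0 := by
    intro x _
    unfold pw
    by_cases h3 : ((x.1 : ℤ) + w).toNat.Prime
    · by_cases h4 : (((x.1 / b * b + x.2 : ℕ) : ℤ) + w).toNat.Prime
      · rw [if_pos h3, if_pos h4, if_pos ⟨h3, h4⟩, one_mul]
      · have h5 : ¬ (((x.1 : ℤ) + w).toNat.Prime ∧
          (((x.1 / b * b + x.2 : ℕ) : ℤ) + w).toNat.Prime) := fun h => h4 h.2
        rw [if_neg h4, if_neg h5, mul_zero]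
    · have h5 : ¬ (((x.1 : ℤ) + w).toNat.Prime ∧
          (((x.1 / b * b + x.2 : ℕ) : ℤ) + w).toNat.Prime) := fun h => h3 h.1
      rw [if_neg h3, if_neg h5, zero_mul]
  rw [sum_congr rfl e3, sum_boole, Nat.cast_le]
  unfold pairN
  obtain ⟨m, hm⟩ := hbM
  apply card_le_card_of_injOn (fun x : ℕ × ℕ => (((x.1 : ℤ) + w).toNat,
    (((x.1 / b * b + x.2 : ℕ) : ℤ) + w).toNat))
  · intro x hx
    rw [Finset.mem_coe, mem_filter, mem_product, mem_range, mem_range] at hx
    obtain ⟨⟨hx1, hx2⟩, hp1, hp2⟩ := hx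
    rw [Finset.mem_coe, mem_filter, mem_product]
    simp only [mem_Icc]
    have h3 : x.1 / b * b ≤ x.1 := Nat.div_mul_le_self _ _
    have h4 : x.1 < x.1 / b * b + b := by
      have := Nat.lt_div_mul_add (a := x.1) hb
      omega
    have h5 : x.1 / b * b + b ≤ M := by
      have h6 : x.1 / b < m := Nat.div_lt_of_lt_mul (by rw [← hm]; exact hx1)
      have h7 : (x.1 / b + 1) * b ≤ m * b := Nat.mul_le_mul_right b h6
      rw [hm, mul_comm b m]
      linarith [h7]
    have h8 := hp1.pos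
    have h9 := hp2.pos
    generalize x.1 / b * b = c at *
    refine ⟨⟨⟨?_, ?_⟩, ⟨?_, ?_⟩⟩, hp1, hp2, ?_, ?_⟩ <;> omega
  · intro x hx x' hx' hxx
    rw [Finset.mem_coe, mem_filter, mem_product, mem_range, mem_range] at hx hx'
    simp only [Prod.mk.injEq] at hxx
    have h8 := hx.2.1.pos
    have h9 := hx.2.2.pos
    have h10 := hx'.2.1.pos
    have h11 := hx'.2.2.pos
    have h12 : x.1 = x'.1 := by omega
    have h13 : x.2 = x'.2 := by
      have := hxx.2
      rw [h12] at this h9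
      generalize x'.1 / b * b = c at *
      omega
    exact Prod.ext h12 h13

/-- Counting the primes of a window by the two grids. -/
lemma card_pos_le (w : ℤ) (M : ℕ) (S : Finset ℕ) (hS : ∀ p ∈ S, p.Prime)
    (hw : ∀ p ∈ S, w ≤ p ∧ (p : ℤ) < M + w) (Q : ℕ → Prop) [DecidablePred Q]
    (hQ : ∀ p ∈ S, Q ((p : ℤ) - w).toNat) :
    (S.card : ℝ) ≤ ∑ n ∈ (range M).filter Q, pw w n := by
  have hinj : Set.InjOn (fun p : ℕ => ((p : ℤ) - w).toNat) (S : Set ℕ) := by
    intro p hp q hq h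
    have h1 := hw p hp
    have h2 := hw q hq
    simp only at h
    omega
  have e1 : (S.card : ℝ) = ∑ n ∈ S.image (fun p : ℕ => ((p : ℤ) - w).toNat), pw w n := by
    rw [sum_image hinj, card_eq_sum_ones]
    push_cast
    apply sum_congr rfl
    intro p hp
    have h1 := hw p hp
    exact (pw_eq_one w _ p (by omega) (hS p hp)).symm
  rw [e1]
  apply sum_le_sum_of_subset_of_nonneg
  · intro n hn
    rw [mem_image] at hn
    obtain ⟨p, hp, rfl⟩ := hn
    have h1 := hw p hp
    rw [mem_filter, mem_range]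
    exact ⟨by omega, hQ p hp⟩
  · intro n _ _
    exact pw_nonneg w n

end Pool.Agent.H.MP_711652_nt.QW
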