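import Mathlib
import Pool.Agent.H.MP_711652_nt.QW.TailLoc
import Pool.Agent.H.MP_711652_nt.QW.WinDefs
import Pool.Agent.H.MP_711652_nt.TailC1
import Pool.Agent.H.MP_711652_nt.EntD3

set_option autoImplicit false

namespace Pool.Agent.H.MP_711652_nt.QW

open Finset Pool.Agent.H.MP_711652_nt

lemma exists_four (x : ℝ) (hx : 1 ≤ x) : ∃ K A : ℕ, 3 * A + 1 = 2 ^ K ∧
    (2 : ℝ) ^ K ≤ x ∧ x < 4 * 2 ^ K := by
  obtain ⟨k, hk1, hk2⟩ := exists_nat_pow_near hx (by norm_num : (1 : ℝ) < 4)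
  refine ⟨2 * k, 4 ^ k / 3, ?_, ?_, ?_⟩
  · have h1 : 4 ^ k % 3 = 1 := by rw [Nat.pow_mod]; norm_num
    have h2 : 2 ^ (2 * k) = 4 ^ k := by rw [pow_mul]; norm_num
    rw [h2]
    omega
  · rw [pow_mul]
    norm_num
    exact hk1
  · rw [pow_mul]
    norm_num
    calc x < 4 ^ (k + 1) := hk2
      _ = 4 * 4 ^ k := by ring

open Classical in
/-- **Scale tail in a window.** The only input is the bound for the pairs of primes. -/
theorem scale_tail_loc (C₀ : ℝ) (hC₀ : 1 ≤ C₀) : ∃ C : ℝ, 1 ≤ C ∧ ∀ L : ℝ, 1 ≤ L → ∀ y W : ℕ,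
    (pairN y (16 * W) ⌈L⌉₊ : ℝ) ≤ C₀ * (W / L) → ∀ ε : ℝ, 0 < ε → ε ≤ 1 →
    ∀ (J : ℕ) (H R : ℕ → ℕ),
    (∀ i, i < J → C * L ≤ ε * H i) →
    (∀ i, i < J → H i ≤ R i) →
    (∀ i, i + 1 < J → C * R i ≤ ε * H (i + 1)) →
    (∀ i, i < J → C * R i ≤ W) →
    ∀ m : ℕ, (((Icc (y - W) (y + W)).filter (fun p => p.Prime ∧
      m ≤ ((range J).filter (fun i => ¬ TypicalS ε (H i) (R i) p)).card)).card : ℝ) ≤
      C * Real.exp (-(ε ^ 3 * m / C)) * (W / L) := by
  have hC₀2 : 0 ≤ C₀ := by linarith only [hC₀]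
  refine ⟨640000 + 8 * C₀, by linarith only [hC₀], ?_⟩
  intro L hL1 y W hpair ε hε hε1 J H R hH hHR hRH hRX m
  set C : ℝ := 640000 + 8 * C₀ with hC
  have hL0 : 0 < L := by linarith only [hL1]
  set b := ⌈L⌉₊ with hb
  have hbL : L ≤ b := Nat.le_ceil _
  have hb2L : (b : ℝ) ≤ 2 * L := by
    have := Nat.ceil_lt_add_one (a := L) hL0.le
    rw [← hb] at this
    linarith only [this, hL1]
  have hb0 : 0 < b := Nat.ceil_pos.2 hL0
  have hbr : (0 : ℝ) < b := by exact_mod_cast hb0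
  have hW0 : (0 : ℝ) ≤ W := Nat.cast_nonneg _
  have hWL : 0 ≤ (W : ℝ) / L := div_nonneg hW0 hL0.le
  -- the case of no scale
  rcases Nat.eq_zero_or_pos J with hJ | hJ
  · subst hJ
    rcases Nat.eq_zero_or_pos m with hm | hm
    · subst hm
      have h1 : (((Icc (y - W) (y + W)).filter (fun p => p.Prime ∧
          0 ≤ ((range 0).filter (fun i => ¬ TypicalS ε (H i) (R i) p)).card)).card : ℝ) ≤
          (pairN y (16 * W) b : ℝ) := by
        rw [Nat.cast_le]
        unfold pairN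
        apply card_le_card_of_injOn (fun p : ℕ => (p, p))
        · intro p hp
          rw [Finset.mem_coe, mem_filter, mem_Icc] at hp
          rw [Finset.mem_coe, mem_filter, mem_product]
          simp only [mem_Icc]
          refine ⟨⟨⟨?_, ?_⟩, ⟨?_, ?_⟩⟩, hp.2.1, hp.2.1, ?_, ?_⟩ <;> omega
        · intro p _ q _ h
          exact (Prod.mk.inj h).1
      refine h1.trans (hpair.trans ?_)
      rw [Nat.cast_zero, mul_zero, zero_div, neg_zero, Real.exp_zero, mul_one]
      exact mul_le_mul_of_nonneg_right (by rw [hC]; linarith only [hC₀]) hWL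
    · have h1 : (Icc (y - W) (y + W)).filter (fun p => p.Prime ∧
          m ≤ ((range 0).filter (fun i => ¬ TypicalS ε (H i) (R i) p)).card) = ∅ := by
        refine filter_eq_empty_iff.2 fun p _ hp => ?_
        have h2 := hp.2
        rw [range_zero, filter_empty, card_empty] at h2
        omega
      rw [h1, card_empty, Nat.cast_zero]
      have := Real.exp_pos (-(ε ^ 3 * m / C))
      exact mul_nonneg (mul_nonneg (by rw [hC]; linarith only [hC₀]) this.le) hWL
  have hHRr : ∀ i, i < J → (H i : ℝ) ≤ R i := fun i hi => by exact_mod_cast hHR i hi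
  have hεH : ∀ i, ε * (H i : ℝ) ≤ H i := by
    intro i
    have h2 : ε * (H i : ℝ) ≤ 1 * H i := by gcongr
    linarith
  have hCbig : (640000 : ℝ) ≤ C := by rw [hC]; linarith only [hC₀]
  have hWb : (640000 : ℝ) * L ≤ W := by
    have h1 := hH 0 hJ
    have h2 := hεH 0
    have h3 := hHRr 0 hJ
    have h4 := hRX 0 hJ
    have h5 : (0 : ℝ) ≤ R 0 := Nat.cast_nonneg _
    have h6 : 640000 * L ≤ C * L := mul_le_mul_of_nonneg_right hCbig hL0.le
    have h7 : 1 * (R 0 : ℝ) ≤ C * R 0 := mul_le_mul_of_nonneg_right (by linarith only [hCbig]) h5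
    linarith only [h1, h2, h3, h4, h6, h7]
  -- the big block
  obtain ⟨K, A, hA, hK1, hK2⟩ := exists_four (16 * W / b) (by
    rw [le_div_iff₀ hbr, one_mul]
    linarith only [hWb, hb2L, hL0])
  rw [le_div_iff₀ hbr] at hK1
  rw [div_lt_iff₀ hbr] at hK2
  set M := b * 2 ^ K with hM
  have hM0 : 0 < M := by positivity
  have hM16 : M ≤ 16 * W := by
    have h1 : (M : ℝ) ≤ ((16 * W : ℕ) : ℝ) := by
      rw [hM]; push_cast; linarith only [hK1]
    exact_mod_cast h1
  have hM4 : 4 * W < M := by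
    have h1 : ((4 * W : ℕ) : ℝ) < (M : ℝ) := by
      rw [hM]; push_cast; linarith only [hK2]
    exact_mod_cast h1
  have hbA : 3 * (b * A) + b = M := by
    rw [hM, ← hA]
    ring
  have hH6 : ∀ i, i < J → 6 * (b : ℝ) ≤ ε * H i := by
    intro i hi
    have h1 := hH i hi
    have h2 : 12 * L ≤ C * L := mul_le_mul_of_nonneg_right (by linarith only [hCbig]) hL0.le
    linarith only [h1, h2, hb2L]
  have hexl : ∀ i, ∃ n : ℕ, i < J →
      (2 : ℝ) ^ n ≤ ε * H i / (6 * b) ∧ ε * H i / (6 * b) < 2 * 2 ^ n := by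
    intro i
    by_cases hi : i < J
    · have h1 : 1 ≤ ε * H i / (6 * b) := by
        rw [le_div_iff₀ (by positivity), one_mul]
        exact hH6 i hi
      obtain ⟨n, hn⟩ := dyadic_near _ h1
      exact ⟨n, fun _ => hn⟩
    · exact ⟨0, fun h => absurd h hi⟩
  have hext : ∀ i, ∃ n : ℕ, i < J →
      (2 : ℝ) ^ n ≤ 28 * (R i : ℝ) / b ∧ 28 * (R i : ℝ) / b < 2 * 2 ^ n := by
    intro i
    by_cases hi : i < J
    · have h1 : 1 ≤ 28 * (R i : ℝ) / b := by
        rw [le_div_iff₀ (by positivity), one_mul]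
        have h2 := hH6 i hi
        have h3 := hεH i
        have h4 := hHRr i hi
        linarith
      obtain ⟨n, hn⟩ := dyadic_near _ h1
      exact ⟨n, fun _ => hn⟩
    · exact ⟨0, fun h => absurd h hi⟩
  choose l hl using hexl
  choose t ht using hext
  have hl1 : ∀ i, i < J → 6 * ((b : ℝ) * 2 ^ l i) ≤ ε * H i := by
    intro i hi
    have h1 := (hl i hi).1
    rw [le_div_iff₀ (by positivity)] at h1
    linarith
  have hl2 : ∀ i, i < J → ε * H i < 12 * ((b : ℝ) * 2 ^ l i) := by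
    intro i hi
    have h1 := (hl i hi).2
    rw [div_lt_iff₀ (by positivity)] at h1
    linarith
  have ht1 : ∀ i, i < J → (b : ℝ) * 2 ^ t i ≤ 28 * R i := by
    intro i hi
    have h1 := (ht i hi).1
    rw [le_div_iff₀ (by positivity)] at h1
    linarith
  have ht2 : ∀ i, i < J → 14 * (R i : ℝ) < (b : ℝ) * 2 ^ t i := by
    intro i hi
    have h1 := (ht i hi).2
    rw [div_lt_iff₀ (by positivity)] at h1
    linarith
  have hpow : ∀ m n : ℕ, (b : ℝ) * 2 ^ m < (b : ℝ) * 2 ^ n → m ≤ n := by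
    intro m n h
    have h2 : (2 : ℝ) ^ m < 2 ^ n := lt_of_mul_lt_mul_left h hbr.le
    exact ((pow_lt_pow_iff_right₀ (by norm_num : (1 : ℝ) < 2)).1 h2).le
  have hlt : ∀ i, i < J → l i ≤ t i := by
    intro i hi
    apply hpow
    have h1 := hl1 i hi
    have h2 := ht2 i hi
    have h3 := hεH i
    have h4 := hHRr i hi
    have h5 : (0 : ℝ) ≤ R i := Nat.cast_nonneg _
    linarith
  have htl : ∀ i, i + 1 < J → t i ≤ l (i + 1) := by
    intro i hi
    apply hpow
    have h1 := ht1 i (by omega)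
    have h2 := hl2 (i + 1) hi
    have h3 := hRH i hi
    have h5 : (0 : ℝ) ≤ R i := Nat.cast_nonneg _
    have h6 : 400 * (R i : ℝ) ≤ C * R i :=
      mul_le_mul_of_nonneg_right (by linarith only [hCbig]) h5
    have h7 : 0 < (b : ℝ) * 2 ^ l (i + 1) := by positivity
    linarith
  have htK : ∀ i, i < J → t i ≤ K := by
    intro i hi
    apply hpow
    have h1 := ht1 i hi
    have h3 := hRX i hi
    have h5 : (0 : ℝ) ≤ R i := Nat.cast_nonneg _
    have h6 : 400 * (R i : ℝ) ≤ C * R i :=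
      mul_le_mul_of_nonneg_right (by linarith only [hCbig]) h5
    have h7 : ((4 * W : ℕ) : ℝ) < (M : ℝ) := by exact_mod_cast hM4
    rw [hM] at h7
    push_cast at h7
    linarith
  have htlj : ∀ j, j < J → ∀ i, i < j → t i ≤ l j := by
    intro j
    induction j with
    | zero => intro _ i hi; omega
    | succ j ih =>
      intro hj i hi
      rcases Nat.lt_succ_iff_lt_or_eq.1 hi with h | h
      · exact (ih (by omega) i h).trans ((hlt j (by omega)).trans (htl j hj))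
      · rw [h]; exact htl j hj
  have hεp : 0 < ε ^ 3 := by positivity
  have hε31 : ε ^ 3 ≤ 1 := pow_le_one₀ hε.le hε1
  set κ : ℝ := 20000 / ε ^ 3 with hκ
  have hκ1 : 1 ≤ κ := by
    rw [hκ, le_div_iff₀ hεp]
    linarith only [hε31]
  set m' : ℕ := (m + 1) / 2 with hm'
  set U : ℝ := 4 * C₀ * (W / L) with hU
  have hU0 : 0 ≤ U := mul_nonneg (by linarith only [hC₀]) hWL
  have htail : ∀ w : ℤ, (y : ℤ) - (16 * W : ℕ) ≤ w → (M : ℤ) + w ≤ y + (16 * W : ℕ) + 1 →
      ∑ n ∈ (range M).filter (fun n => m' ≤ nb (fun i n => BadB (pw w) ε (H i) (R i) (b * 2 ^ l i)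
        (b * 2 ^ t i) n) J n), pw w n ≤ Real.exp (-(m' / (16 * κ))) * U := by
    intro w hw1 hw2
    have hS : ∑ n ∈ range M, pw w n ≤ U := by
      refine (sum_pw_le w y (16 * W) b M hb0 hw1 hw2).trans (hpair.trans ?_)
      rw [hU]
      exact mul_le_mul_of_nonneg_right (by linarith only [hC₀]) hWL
    have hQ : (M : ℝ) * ∑ n ∈ range M, (avg b (pw w) n) ^ 2 ≤ U ^ 2 := by
      have h1 := sum_sq_avg_pw_le w y (16 * W) b M hb0 (Dvd.intro _ rfl) hw1 hw2
      have h2 : (pairN y (16 * W) b : ℝ) / b ≤ C₀ * (W / L) / L := by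
        apply div_le_div₀ (mul_nonneg hC₀2 hWL) hpair hL0 hbL
      have h3 : (M : ℝ) ≤ 16 * W := by exact_mod_cast hM16
      calc (M : ℝ) * ∑ n ∈ range M, (avg b (pw w) n) ^ 2
          ≤ (16 * W) * (C₀ * (W / L) / L) :=
            mul_le_mul h3 (h1.trans h2) (sum_nonneg fun n _ => sq_nonneg _) (by positivity)
        _ = 16 * C₀ * (W / L) ^ 2 := by ring
        _ ≤ 16 * (C₀ * C₀) * (W / L) ^ 2 := by
            apply mul_le_mul_of_nonneg_right _ (sq_nonneg _)
            have : C₀ * 1 ≤ C₀ * C₀ := mul_le_mul_of_nonneg_left hC₀ hC₀2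
            linarith only [this]
        _ = U ^ 2 := by rw [hU]; ring
    exact tail_abs_loc M b J (fun i => b * 2 ^ l i) (fun i => b * 2 ^ t i) hM0 hb0
      (Dvd.intro _ rfl) (pw w) (pw_nonneg w)
      (fun i hi => ⟨by positivity, Dvd.intro _ rfl,
        Nat.mul_dvd_mul_left b (pow_dvd_pow 2 (hlt i hi))⟩)
      (fun i j hij hj => Nat.mul_dvd_mul_left b (pow_dvd_pow 2 (htlj j hj i hij)))
      (fun i hi => Nat.mul_dvd_mul_left b (pow_dvd_pow 2 (htK i hi)))
      (fun i n => BadB (pw w) ε (H i) (R i) (b * 2 ^ l i) (b * 2 ^ t i) n) κ U hκ1 hU0 hS hQ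
      (fun i _ k n hkn => badB_blk (pw w) ε (H i) (R i) (b * 2 ^ l i) (b * 2 ^ t i) k n hkn)
      (fun i hi n => bad_avg (pw w) (pw_nonneg w) (b * 2 ^ l i) (b * 2 ^ t i) (H i) (R i) ε
        (by positivity) (by positivity) (Nat.mul_dvd_mul_left b (pow_dvd_pow 2 (hlt i hi))) hε hε1
        (by push_cast; exact hl1 i hi) n) m'
  -- the two grids
  set z : ℤ := (y : ℤ) - W with hz
  set S := (Icc (y - W) (y + W)).filter (fun p => p.Prime ∧
      m ≤ ((range J).filter (fun i => ¬ TypicalS ε (H i) (R i) p)).card) with hSdef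
  set N0 : ℕ → ℕ := fun n => nb (fun i n => BadB (pw z) ε (H i) (R i) (b * 2 ^ l i)
        (b * 2 ^ t i) n) J n with hN0
  set Na : ℕ → ℕ := fun n => nb (fun i n => BadB (pw (z - (b * A : ℕ))) ε (H i) (R i)
        (b * 2 ^ l i) (b * 2 ^ t i) n) J n with hNa
  have hcov : ∀ p ∈ S, m' ≤ N0 ((p : ℤ) - z).toNat ∨
      m' ≤ Na ((p : ℤ) - (z - (b * A : ℕ))).toNat := by
    intro p hp
    rw [hSdef, mem_filter, mem_Icc] at hp
    obtain ⟨⟨hp1, hp2⟩, hpp, hpm⟩ := hp
    obtain ⟨n, hn⟩ : ∃ n : ℕ, (n : ℤ) + z = p := ⟨((p : ℤ) - z).toNat, by omega⟩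
    have e1 : ((p : ℤ) - z).toNat = n := by omega
    have e2 : ((p : ℤ) - (z - (b * A : ℕ))).toNat = n + b * A := by omega
    rw [e1, e2]
    have h1 : m ≤ N0 n + Na (n + b * A) := by
      refine hpm.trans ?_
      rw [hN0, hNa]
      unfold nb
      refine le_trans (card_le_card ?_) (card_union_le _ _)
      intro i hi
      rw [mem_filter] at hi
      have hiJ := mem_range.1 hi.1
      rw [mem_union, mem_filter, mem_filter]
      have h1 := hl1 i hiJ
      have h2 := ht2 i hiJ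
      have h3 := hεH i
      have h4 := hHRr i hiJ
      have h5 := hH6 i hiJ
      have h8 : (6 * (2 * (R i : ℝ) + b * 2 ^ l i) + b) < b * 2 ^ t i := by
        linarith only [h1, h2, h3, h4, h5]
      have h9 : 6 * (2 * R i + b * 2 ^ l i) + b < b * 2 ^ t i := by exact_mod_cast h8
      rcases badB_of_not_typical_w z b (t i) K A (H i) (R i) (b * 2 ^ l i) (b * 2 ^ t i) n p ε hb0
        hA (htK i hiJ) rfl h9 hn hpp hi.2 with h | h
      · exact Or.inl ⟨hi.1, h⟩
      · exact Or.inr ⟨hi.1, h⟩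
    omega
  have hcard : (S.card : ℝ) ≤ ((S.filter (fun p : ℕ => m' ≤ N0 ((p : ℤ) - z).toNat)).card : ℝ) +
      ((S.filter (fun p : ℕ => m' ≤ Na ((p : ℤ) - (z - (b * A : ℕ))).toNat)).card : ℝ) := by
    have h1 : S ⊆ S.filter (fun p : ℕ => m' ≤ N0 ((p : ℤ) - z).toNat) ∪
        S.filter (fun p : ℕ => m' ≤ Na ((p : ℤ) - (z - (b * A : ℕ))).toNat) := by
      intro p hp
      rcases hcov p hp with h | h
      · exact mem_union_left _ (mem_filter.2 ⟨hp, h⟩)
      · exact mem_union_right _ (mem_filter.2 ⟨hp, h⟩)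
    exact_mod_cast (card_le_card h1).trans (card_union_le _ _)
  have hSp : ∀ p ∈ S, p.Prime ∧ y - W ≤ p ∧ p ≤ y + W := by
    intro p hp
    rw [hSdef, mem_filter, mem_Icc] at hp
    exact ⟨hp.2.1, hp.1⟩
  have hc0 : ((S.filter (fun p : ℕ => m' ≤ N0 ((p : ℤ) - z).toNat)).card : ℝ) ≤
      ∑ n ∈ (range M).filter (fun n => m' ≤ N0 n), pw z n := by
    apply card_pos_le
    · intro p hp
      exact (hSp p (mem_filter.1 hp).1).1
    · intro p hp
      have := hSp p (mem_filter.1 hp).1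
      omega
    · intro p hp
      exact (mem_filter.1 hp).2
  have hca : ((S.filter (fun p : ℕ => m' ≤ Na ((p : ℤ) - (z - (b * A : ℕ))).toNat)).card : ℝ) ≤
      ∑ n ∈ (range M).filter (fun n => m' ≤ Na n), pw (z - (b * A : ℕ)) n := by
    apply card_pos_le
    · intro p hp
      exact (hSp p (mem_filter.1 hp).1).1
    · intro p hp
      have := hSp p (mem_filter.1 hp).1
      omega
    · intro p hp
      exact (mem_filter.1 hp).2
  have h0 := htail z (by push_cast; omega) (by push_cast; omega)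
  have ha := htail (z - (b * A : ℕ)) (by omega) (by omega)
  have hexp : Real.exp (-(m' / (16 * κ))) ≤ Real.exp (-(ε ^ 3 * m / C)) := by
    apply Real.exp_le_exp.2
    apply neg_le_neg
    have hm2 : (m : ℝ) / 2 ≤ m' := by
      have h1 : m ≤ 2 * m' := by omega
      have h2 : (m : ℝ) ≤ 2 * m' := by exact_mod_cast h1
      linarith only [h2]
    have hm0 : (0 : ℝ) ≤ m := Nat.cast_nonneg _
    have e1 : (m' : ℝ) / (16 * κ) = ε ^ 3 * m' / 320000 := by
      rw [hκ]
      field_simp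
      ring
    rw [e1]
    have h3 : ε ^ 3 * (m : ℝ) / C ≤ ε ^ 3 * m / 640000 :=
      div_le_div_of_nonneg_left (by positivity) (by norm_num) hCbig
    have h4 : ε ^ 3 * ((m : ℝ) / 2) ≤ ε ^ 3 * m' := mul_le_mul_of_nonneg_left hm2 hεp.le
    have h5 : ε ^ 3 * (m : ℝ) / 640000 ≤ ε ^ 3 * m' / 320000 := by linarith only [h4]
    exact h3.trans h5
  have hfin : Real.exp (-(m' / (16 * κ))) * U ≤ Real.exp (-(ε ^ 3 * m / C)) * U :=
    mul_le_mul_of_nonneg_right hexp hU0
  calc (S.card : ℝ) ≤ Real.exp (-(ε ^ 3 * m / C)) * U + Real.exp (-(ε ^ 3 * m / C)) * U :=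
        hcard.trans (add_le_add (hc0.trans (h0.trans hfin)) (hca.trans (ha.trans hfin)))
    _ = 8 * C₀ * Real.exp (-(ε ^ 3 * m / C)) * (W / L) := by rw [hU]; ring
    _ ≤ C * Real.exp (-(ε ^ 3 * m / C)) * (W / L) := by
        apply mul_le_mul_of_nonneg_right _ hWL
        apply mul_le_mul_of_nonneg_right _ (Real.exp_pos _).le
        rw [hC]; linarith only [hC₀]

end Pool.Agent.H.MP_711652_nt.QW
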