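import Mathlib
import Pool.Agent.H.MP_711652_nt.QW.SecondS
import Pool.Agent.H.MP_711652_nt.QW.ScaleLoc

set_option autoImplicit false

namespace Pool.Agent.H.MP_711652_nt.QW

open Finset Classical Pool.Agent.H.MP_711652_nt

/-- The ordered pairs of primes at distance `< b`: diagonal and twice the pairs `n, n + h`. -/
lemma pairN_le (y H b : ℕ) :
    pairN y H b ≤ (prNear y H).card + 2 * ∑ h ∈ Icc 1 b, prPairs y H h := by
  have hcov : (Icc (y - H) (y + H) ×ˢ Icc (y - H) (y + H)).filter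
      (fun x => x.1.Prime ∧ x.2.Prime ∧ x.1 < x.2 + b ∧ x.2 < x.1 + b) ⊆
      ((prNear y H).image (fun p => (p, p))) ∪
      (((Icc 1 b).biUnion (fun h => ((Icc (y - H) (y + H)).filter
        (fun n => n.Prime ∧ (n + h).Prime)).image (fun n => (n, n + h)))) ∪
      ((Icc 1 b).biUnion (fun h => ((Icc (y - H) (y + H)).filter
        (fun n => n.Prime ∧ (n + h).Prime)).image (fun n => (n + h, n))))) := by
    rintro ⟨p, q⟩ hx
    rw [mem_filter, mem_product, mem_Icc, mem_Icc] at hx
    obtain ⟨⟨⟨h1, h2⟩, h3, h4⟩, hp, hq, h5, h6⟩ := hx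
    simp only at h1 h2 h3 h4 hp hq h5 h6
    rcases Nat.lt_trichotomy p q with h | h | h
    · apply mem_union_right
      apply mem_union_left
      rw [mem_biUnion]
      refine ⟨q - p, by rw [mem_Icc]; omega, ?_⟩
      rw [mem_image]
      refine ⟨p, ?_, ?_⟩
      · rw [mem_filter, mem_Icc]
        refine ⟨⟨h1, h2⟩, hp, ?_⟩
        have : p + (q - p) = q := by omega
        rw [this]
        exact hq
      · have : p + (q - p) = q := by omega
        rw [this]
    · apply mem_union_left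
      rw [mem_image]
      refine ⟨p, ?_, by rw [h]⟩
      unfold prNear
      rw [mem_filter, mem_Icc]
      exact ⟨⟨h1, h2⟩, hp⟩
    · apply mem_union_right
      apply mem_union_right
      rw [mem_biUnion]
      refine ⟨p - q, by rw [mem_Icc]; omega, ?_⟩
      rw [mem_image]
      refine ⟨q, ?_, ?_⟩
      · rw [mem_filter, mem_Icc]
        refine ⟨⟨h3, h4⟩, hq, ?_⟩
        have : q + (p - q) = p := by omega
        rw [this]
        exact hp
      · have : q + (p - q) = p := by omega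
        rw [this]
  have hb : ∀ g : ℕ → ℕ → ℕ × ℕ, (((Icc 1 b).biUnion (fun h => ((Icc (y - H) (y + H)).filter
        (fun n => n.Prime ∧ (n + h).Prime)).image (g h)))).card ≤
        ∑ h ∈ Icc 1 b, prPairs y H h := by
    intro g
    refine card_biUnion_le.trans (sum_le_sum fun h _ => ?_)
    exact card_image_le
  have h1 := hb (fun h n => (n, n + h))
  have h2 := hb (fun h n => (n + h, n))
  have h3 : ((prNear y H).image (fun p => (p, p))).card ≤ (prNear y H).card := card_image_le
  unfold pairN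
  refine (card_le_card hcov).trans ((card_union_le _ _).trans ?_)
  have h4 := card_union_le (((Icc 1 b).biUnion (fun h => ((Icc (y - H) (y + H)).filter
        (fun n => n.Prime ∧ (n + h).Prime)).image (fun n => (n, n + h)))))
      ((Icc 1 b).biUnion (fun h => ((Icc (y - H) (y + H)).filter
        (fun n => n.Prime ∧ (n + h).Prime)).image (fun n => (n + h, n))))
  omega

lemma prNear_mono {y H H' : ℕ} (h : H ≤ H') : (prNear y H).card ≤ (prNear y H').card := by
  apply card_le_card
  unfold prNear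
  apply filter_subset_filter
  exact Icc_subset_Icc (by omega) (by omega)

lemma prPairs_mono {y H H' s : ℕ} (h : H ≤ H') : prPairs y H s ≤ prPairs y H' s := by
  apply card_le_card
  apply filter_subset_filter
  exact Icc_subset_Icc (by omega) (by omega)

/-- `PairOK` gives the hypothesis of `scale_tail_loc`. -/
lemma pairN_of_pairOK (C L : ℝ) (y H : ℕ) (hC : 0 < C) (hL : 4 ≤ L) (hH : L ^ 2 ≤ H)
    (hP : PairOK C L y (64 * H)) :
    (pairN y (16 * H) ⌈L⌉₊ : ℝ) ≤ (1536 * C + 1280) * (H / L) := by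
  set b := ⌈L⌉₊ with hb
  have hL0 : 0 < L := by linarith
  have hb2 : (b : ℝ) ≤ 2 * L := by
    have := Nat.ceil_lt_add_one (a := L) hL0.le
    rw [← hb] at this
    linarith
  have h1 := pairN_le y (16 * H) b
  have hH0 : (0 : ℝ) ≤ H := Nat.cast_nonneg _
  have h2 : ((prNear y (16 * H)).card : ℝ) ≤ (1280 * C + 1280) * (H / L) := by
    have h3 := first_window C L y (64 * H) hC hL (by push_cast; linarith) hP
    have h4 : ((prNear y (16 * H)).card : ℝ) ≤ ((prNear y (64 * H)).card : ℝ) := by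
      exact_mod_cast prNear_mono (y := y) (by omega : 16 * H ≤ 64 * H)
    refine h4.trans (h3.trans (le_of_eq ?_))
    push_cast
    ring
  have h3 : (∑ h ∈ Icc 1 b, (prPairs y (16 * H) h : ℝ)) ≤ 128 * C * (H / L) := by
    have h4 := hP b (by linarith)
    have h5 : (∑ h ∈ Icc 1 b, (prPairs y (16 * H) h : ℝ)) ≤
        ∑ h ∈ Icc 1 b, (prPairs y (64 * H) h : ℝ) := by
      apply sum_le_sum
      intro h _
      exact_mod_cast prPairs_mono (y := y) (s := h) (by omega : 16 * H ≤ 64 * H)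
    refine h5.trans (h4.trans ?_)
    push_cast
    have h6 : C * b * (64 * H) / L ^ 2 ≤ C * (2 * L) * (64 * H) / L ^ 2 := by gcongr
    refine h6.trans (le_of_eq ?_)
    field_simp
    ring
  have h4 : (pairN y (16 * H) b : ℝ) ≤ ((prNear y (16 * H)).card : ℝ) +
      2 * ∑ h ∈ Icc 1 b, (prPairs y (16 * H) h : ℝ) := by exact_mod_cast h1
  refine h4.trans ?_
  calc _ ≤ (1280 * C + 1280) * (H / L) + 2 * (128 * C * (H / L)) := by linarith
    _ = (1536 * C + 1280) * (H / L) := by ring

/-- **Scale tail in one window.** -/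
theorem typ_local (C : ℝ) (hC : 0 < C) : ∃ C' : ℝ, 1 ≤ C' ∧ ∃ X₀ : ℕ, ∀ X : ℕ, X₀ ≤ X →
    ∀ y H : ℕ, (Real.log X) ^ 2 ≤ H → PairOK C (Real.log X) y (64 * H) →
    ∀ ε : ℝ, 0 < ε → ε ≤ 1 → ∀ (J : ℕ) (h R : ℕ → ℕ),
    (∀ i, i < J → C' * Real.log X ≤ ε * h i) →
    (∀ i, i < J → h i ≤ R i) →
    (∀ i, i + 1 < J → C' * R i ≤ ε * h (i + 1)) →
    (∀ i, i < J → C' * R i ≤ H) →
    ∀ m : ℕ, (((prNear y H).filter (fun p =>
      m ≤ ((range J).filter (fun i => ¬ TypicalS ε (h i) (R i) p)).card)).card : ℝ) ≤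
      C' * Real.exp (-(ε ^ 3 * m / C')) * (H / Real.log X) := by
  obtain ⟨C', hC', hmain⟩ := scale_tail_loc (1536 * C + 1280) (by linarith)
  refine ⟨C', hC', ⌈Real.exp 4⌉₊, ?_⟩
  intro X hX y H hH hP ε hε hε1 J h R h1 h2 h3 h4 m
  have hX4 : Real.exp 4 ≤ X := (Nat.le_ceil _).trans (by exact_mod_cast hX)
  have hL4 : 4 ≤ Real.log X := by
    rw [Real.le_log_iff_exp_le (lt_of_lt_of_le (Real.exp_pos _) hX4)]
    exact hX4
  have h5 := hmain (Real.log X) (by linarith) y H
    (pairN_of_pairOK C (Real.log X) y H hC hL4 hH hP) ε hε hε1 J h R h1 h2 h3 h4 m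
  refine le_trans (le_of_eq ?_) h5
  congr 2
  unfold prNear
  rw [filter_filter]

end Pool.Agent.H.MP_711652_nt.QW
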