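import Mathlib
import Pool.Agent.H.MP_711652_nt.QW.JumpS
import Pool.Agent.H.MP_711652_nt.QW.TypS

set_option autoImplicit false

/-!
# Jumps from the scale `log X` on: second moment of the blocks, and the end blocks
-/

namespace Pool.Agent.H.MP_711652_nt.QW

open Finset Classical

/-- The second moment of the blocks. -/
lemma blocks_sq (b p q y H : ℕ) (h1 : y ≤ p * b + H) (h2 : q * b ≤ y + H) :
    ∑ k ∈ Ico p q, ((prIn (k * b) ((k + 1) * b) : ℝ)) ^ 2 ≤ (pairN y H b : ℝ) := by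
  set F : ℕ → Finset ℕ := fun k => (Ioc (k * b) ((k + 1) * b)).filter Nat.Prime with hF
  have hcard : ∀ k, ((prIn (k * b) ((k + 1) * b) : ℝ)) ^ 2 = ((F k ×ˢ F k).card : ℝ) := by
    intro k
    rw [card_product, Nat.cast_mul, sq]
    rfl
  have hdisj : (↑(Ico p q) : Set ℕ).PairwiseDisjoint (fun k => F k ×ˢ F k) := by
    intro k _ k' _ hkk
    rw [Function.onFun, Finset.disjoint_left]
    intro x hx hx'
    rw [mem_product, hF, mem_filter, mem_filter, mem_Ioc, mem_Ioc] at hx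
    rw [mem_product, mem_filter, mem_filter, mem_Ioc, mem_Ioc] at hx'
    obtain ⟨⟨⟨a1, a2⟩, -⟩, -⟩ := hx
    obtain ⟨⟨⟨c1, c2⟩, -⟩, -⟩ := hx'
    rcases Nat.lt_or_gt_of_ne hkk with h | h
    · have : (k + 1) * b ≤ k' * b := Nat.mul_le_mul_right b h
      omega
    · have : (k' + 1) * b ≤ k * b := Nat.mul_le_mul_right b h
      omega
  rw [sum_congr rfl (fun k _ => hcard k), ← Nat.cast_sum, ← card_biUnion hdisj, Nat.cast_le]
  unfold pairN
  apply card_le_card
  intro x hx
  rw [mem_biUnion] at hx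
  obtain ⟨k, hk, hx⟩ := hx
  rw [mem_Ico] at hk
  rw [mem_product, hF, mem_filter, mem_filter, mem_Ioc, mem_Ioc] at hx
  obtain ⟨⟨⟨a1, a2⟩, a3⟩, ⟨c1, c2⟩, c3⟩ := hx
  have e1 : p * b ≤ k * b := Nat.mul_le_mul_right b hk.1
  have e2 : (k + 1) * b ≤ q * b := Nat.mul_le_mul_right b hk.2
  have e3 : (k + 1) * b = k * b + b := by ring
  rw [mem_filter, mem_product, mem_Icc, mem_Icc]
  exact ⟨⟨⟨by omega, by omega⟩, by omega, by omega⟩, a3, c3, by omega, by omega⟩

/-- The scale `j` is bad at the block `k`, because of the `ℓ²` norm of `g` around `k`. -/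
def EB (g : ℕ → ℝ) (ε : ℝ) (j k : ℕ) : Prop :=
  ε ^ 2 * 4 ^ j ≤ 1600 * ∑ i ∈ Ico (k - 2 ^ (j + 1)) (k + 2 ^ (j + 1)), g i ^ 2

lemma av_le_sqrt (f : ℕ → ℝ) (p q : ℕ) (hpq : p < q) :
    av f p q ≤ √(∑ k ∈ Ico p q, f k ^ 2) := by
  apply Real.le_sqrt_of_sq_le
  have hn : (1 : ℝ) ≤ (q : ℝ) - p := by
    have : ((p + 1 : ℕ) : ℝ) ≤ q := by exact_mod_cast hpq
    push_cast at this
    linarith
  have h1 : (∑ k ∈ Ico p q, f k) ^ 2 ≤ ((q : ℝ) - p) * ∑ k ∈ Ico p q, f k ^ 2 := by
    have h2 := sq_sum_le_card_mul_sum_sq (s := Ico p q) (f := f)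
    rw [Nat.card_Ico, Nat.cast_sub hpq.le] at h2
    exact h2
  have h3 : 0 ≤ ∑ k ∈ Ico p q, f k ^ 2 := sum_nonneg fun k _ => sq_nonneg _
  unfold av
  rw [div_pow, div_le_iff₀ (by positivity)]
  calc (∑ k ∈ Ico p q, f k) ^ 2 ≤ ((q : ℝ) - p) * ∑ k ∈ Ico p q, f k ^ 2 := h1
    _ = (∑ k ∈ Ico p q, f k ^ 2) * ((q : ℝ) - p) * 1 := by ring
    _ ≤ (∑ k ∈ Ico p q, f k ^ 2) * ((q : ℝ) - p) * ((q : ℝ) - p) := by gcongr
    _ = _ := by ring

lemma av_shift (f : ℕ → ℝ) (k0 p q : ℕ) (hp : k0 ≤ p) (hq : k0 ≤ q) :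
    av (fun k => f (k + k0)) (p - k0) (q - k0) = av f p q := by
  unfold av
  rw [sum_Ico_add' f (p - k0) (q - k0) k0, Nat.sub_add_cancel hp, Nat.sub_add_cancel hq,
    Nat.cast_sub hp, Nat.cast_sub hq]
  congr 1
  ring

/-- The density and the average over the blocks. -/
lemma dens_cb (X b u v : ℕ) (hb : 0 < b) (hL : 0 < Real.log X) (huv : u < v) :
    |dens X u v - av (cb X b) (u / b) (v / b + 1)| ≤
      2 * (b / ((v : ℝ) - u)) * √(∑ k ∈ Ico (u / b) (v / b + 1), cb X b k ^ 2) := by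
  set L := Real.log X with hLdef
  have hbR : (0 : ℝ) < b := by exact_mod_cast hb
  have hpu' : u / b * b ≤ u := Nat.div_mul_le_self u b
  have hup' : u < (u / b + 1) * b := by
    have := Nat.lt_div_mul_add hb (a := u)
    rw [Nat.add_mul, one_mul]
    exact this
  have hvq' : v < (v / b + 1) * b := by
    have := Nat.lt_div_mul_add hb (a := v)
    rw [Nat.add_mul, one_mul]
    exact this
  have hqv' : (v / b + 1 - 1) * b ≤ v := by
    rw [Nat.add_sub_cancel]
    exact Nat.div_mul_le_self v b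
  have hpq' : u / b < v / b + 1 := Nat.lt_succ_of_le (Nat.div_le_div_right huv.le)
  have hq1' : 1 ≤ v / b + 1 := Nat.le_add_left _ _
  generalize u / b = p at hpu' hup' hpq' ⊢
  generalize v / b + 1 = q at hvq' hqv' hpq' hq1' ⊢
  have hpu : p * b ≤ u := hpu'
  have hup : u < (p + 1) * b := hup'
  have hvq : v < q * b := hvq'
  have hqv : (q - 1) * b ≤ v := hqv'
  have hpq : p < q := hpq'
  set R := √(∑ k ∈ Ico p q, cb X b k ^ 2) with hR
  have hc0 : ∀ k, 0 ≤ cb X b k := by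
    intro k
    unfold cb
    positivity
  have hcR : ∀ k ∈ Ico p q, cb X b k ≤ R := by
    intro k hk
    apply Real.le_sqrt_of_sq_le
    exact single_le_sum (f := fun k => cb X b k ^ 2) (fun i _ => sq_nonneg _) hk
  have havR : av (cb X b) p q ≤ R := av_le_sqrt _ p q hpq
  have hav : av (cb X b) p q = L * prIn (p * b) (q * b) / (((q : ℝ) - p) * b) := by
    unfold av
    rw [sum_cb X b p q hpq.le, ← hLdef]
    have : (0 : ℝ) < (q : ℝ) - p := by
      have : ((p + 1 : ℕ) : ℝ) ≤ q := by exact_mod_cast hpq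
      push_cast at this
      linarith
    field_simp
  set W : ℝ := (v : ℝ) - u with hW
  have hW0 : 0 < W := by
    have : (u : ℝ) < v := by exact_mod_cast huv
    rw [hW]
    linarith
  set D : ℝ := ((q : ℝ) - p) * b with hD
  have hWD : W ≤ D := by
    have h1 : ((p * b : ℕ) : ℝ) ≤ u := by exact_mod_cast hpu
    have h2 : (v : ℝ) ≤ ((q * b : ℕ) : ℝ) := by exact_mod_cast hvq.le
    push_cast at h1 h2
    rw [hW, hD]
    linarith
  have hDW : D ≤ W + 2 * b := by
    have h1 : (u : ℝ) ≤ (((p + 1) * b : ℕ) : ℝ) := by exact_mod_cast hup.le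
    have h2 : (((q - 1) * b : ℕ) : ℝ) ≤ v := by exact_mod_cast hqv
    rw [Nat.cast_mul, Nat.cast_sub (by omega : 1 ≤ q)] at h2
    push_cast at h1 h2
    rw [hW, hD]
    linarith
  have hD0 : 0 < D := by linarith
  set P : ℝ := (prIn (p * b) (q * b) : ℝ) with hP
  have hP0 : 0 ≤ P := Nat.cast_nonneg _
  have hsplit : prIn (p * b) (q * b) = prIn (p * b) u + prIn u v + prIn v (q * b) := by
    rw [prIn_split hpu (huv.le.trans hvq.le), prIn_split huv.le hvq.le]
    ring
  have hsplitR : P = prIn (p * b) u + prIn u v + prIn v (q * b) := by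
    rw [hP, hsplit]
    push_cast
    ring
  have he1 : L * (prIn (p * b) u : ℝ) ≤ b * R := by
    have h1 : (prIn (p * b) u : ℝ) ≤ prIn (p * b) ((p + 1) * b) := by
      exact_mod_cast prIn_mono le_rfl hup.le
    have h2 := hcR p (by rw [mem_Ico]; omega)
    unfold cb at h2
    rw [div_mul_eq_mul_div, div_le_iff₀ hbR] at h2
    calc L * (prIn (p * b) u : ℝ) ≤ L * prIn (p * b) ((p + 1) * b) := by gcongr
      _ ≤ R * b := h2
      _ = b * R := by ring
  have he2 : L * (prIn v (q * b) : ℝ) ≤ b * R := by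
    have h0 : q - 1 + 1 = q := by omega
    have h1 : (prIn v (q * b) : ℝ) ≤ prIn ((q - 1) * b) ((q - 1 + 1) * b) := by
      rw [h0]
      exact_mod_cast prIn_mono hqv le_rfl
    have h2 := hcR (q - 1) (by rw [mem_Ico]; omega)
    unfold cb at h2
    rw [div_mul_eq_mul_div, div_le_iff₀ hbR] at h2
    calc L * (prIn v (q * b) : ℝ) ≤ L * prIn ((q - 1) * b) ((q - 1 + 1) * b) := by gcongr
      _ ≤ R * b := h2
      _ = b * R := by ring
  have hdens : dens X u v = L * prIn u v / W := by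
    unfold dens
    rw [mul_comm]
  rw [hdens, hav, abs_le]
  have hR0 : 0 ≤ R := Real.sqrt_nonneg _
  constructor
  · -- the average is at most the density plus the end blocks
    have h1 : L * P / D ≤ L * P / W := div_le_div_of_nonneg_left (by positivity) hW0 hWD
    have h2 : L * P / W ≤ L * prIn u v / W + 2 * (b / W) * R := by
      have e : 2 * (b / W) * R = (2 * b * R) / W := by ring
      rw [e, ← add_div, hsplitR]
      apply div_le_div_of_nonneg_right _ hW0.le
      linarith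
    linarith
  · -- the density is at most the average times `D / W`
    have h1 : L * prIn u v / W ≤ L * P / W := by
      apply div_le_div_of_nonneg_right _ hW0.le
      apply mul_le_mul_of_nonneg_left _ hL.le
      have e1 : (0 : ℝ) ≤ prIn (p * b) u := Nat.cast_nonneg _
      have e2 : (0 : ℝ) ≤ prIn v (q * b) := Nat.cast_nonneg _
      linarith
    have h2 : L * P / W - L * P / D = (L * P / D) * ((D - W) / W) := by
      field_simp
    have h3 : (D - W) / W ≤ 2 * (b / W) := by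
      have e : 2 * ((b : ℝ) / W) = 2 * b / W := by ring
      rw [e]
      apply div_le_div_of_nonneg_right _ hW0.le
      linarith
    have h4 : L * P / D ≤ R := by
      rw [← hav]
      exact havR
    have h5 : (L * P / D) * ((D - W) / W) ≤ R * (2 * (b / W)) := by
      apply mul_le_mul h4 h3 _ hR0
      apply div_nonneg _ hW0.le
      linarith
    linarith

/-- Intervals of a scale which is not bad. -/
lemma dens_near (X b u v z k0 : ℕ) (ε : ℝ) (hb : 0 < b) (hL : 0 < Real.log X)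
    (hbL : (b : ℝ) ≤ 2 * Real.log X) (huz : u ≤ z) (hzv : z ≤ v)
    (hW : Real.log X ≤ (v : ℝ) - u) (hk0 : k0 ≤ u / b) (hε : 0 < ε)
    (hEB : ¬ EB (fun k => cb X b (k + k0)) ε (Nat.log 2 (v / b + 1 - u / b)) (z / b - k0)) :
    |dens X u v - av (fun k => cb X b (k + k0)) (u / b - k0) (v / b + 1 - k0)| ≤ ε / 4 := by
  have huv : u < v := by
    have : (u : ℝ) < v := by linarith
    exact_mod_cast this
  have hkv : k0 ≤ v / b + 1 := by
    have : u / b ≤ v / b := Nat.div_le_div_right huv.le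
    omega
  rw [av_shift _ _ _ _ hk0 hkv]
  refine (dens_cb X b u v hb hL huv).trans ?_
  obtain ⟨n, hn⟩ : ∃ n, n = v / b + 1 - u / b := ⟨_, rfl⟩
  rw [← hn] at hEB
  obtain ⟨j, hj⟩ : ∃ j, j = Nat.log 2 n := ⟨_, rfl⟩
  rw [← hj] at hEB
  have hub : u / b ≤ v / b := Nat.div_le_div_right huv.le
  have hn0 : n ≠ 0 := by omega
  have hj1 : 2 ^ j ≤ n := by rw [hj]; exact Nat.pow_log_le_self 2 hn0
  have hj2 : n < 2 ^ (j + 1) := by rw [hj]; exact Nat.lt_pow_succ_log_self (by norm_num) n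
  set Q := ∑ k ∈ Ico (u / b) (v / b + 1), cb X b k ^ 2 with hQ
  have hQ0 : 0 ≤ Q := sum_nonneg fun k _ => sq_nonneg _
  have huz' : u / b ≤ z / b := Nat.div_le_div_right huz
  have hzv' : z / b ≤ v / b := Nat.div_le_div_right hzv
  have hQle : 1600 * Q ≤ ε ^ 2 * 4 ^ j := by
    unfold EB at hEB
    rw [not_le] at hEB
    refine le_trans ?_ hEB.le
    apply mul_le_mul_of_nonneg_left _ (by norm_num)
    have h1 : Q = ∑ k ∈ Ico (u / b - k0) (v / b + 1 - k0), (cb X b (k + k0)) ^ 2 := by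
      rw [sum_Ico_add' (fun k => cb X b k ^ 2) (u / b - k0) (v / b + 1 - k0) k0,
        Nat.sub_add_cancel hk0, Nat.sub_add_cancel hkv]
    rw [h1]
    apply sum_le_sum_of_subset_of_nonneg
    · intro k hk
      rw [mem_Ico] at hk ⊢
      generalize 2 ^ (j + 1) = M at hj2 ⊢
      generalize u / b = a1 at *
      generalize v / b = a2 at *
      generalize z / b = a3 at *
      omega
    · intro k _ _
      exact sq_nonneg _
  have hbW : (b : ℝ) / ((v : ℝ) - u) ≤ 5 / 2 ^ j := by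
    have h1 := (blk_len u v b hb huv.le).2
    rw [← hn] at h1
    have h2 : ((n * b : ℕ) : ℝ) ≤ ((v - u + 2 * b : ℕ) : ℝ) := by exact_mod_cast h1
    rw [Nat.cast_add, Nat.cast_sub huv.le] at h2
    push_cast at h2
    have h3 : (2 : ℝ) ^ j ≤ n := by exact_mod_cast hj1
    have hbR : (0 : ℝ) < b := by exact_mod_cast hb
    rw [div_le_div_iff₀ (by linarith) (by positivity)]
    calc (b : ℝ) * 2 ^ j ≤ b * n := by gcongr
      _ ≤ 5 * ((v : ℝ) - u) := by nlinarith
  have hsq : √Q ≤ ε * 2 ^ j / 40 := by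
    rw [Real.sqrt_le_left (by positivity)]
    have : (4 : ℝ) ^ j = (2 ^ j) ^ 2 := by
      rw [← pow_mul, mul_comm, pow_mul]
      norm_num
    rw [this] at hQle
    rw [div_pow, mul_pow, le_div_iff₀ (by norm_num)]
    linarith
  have h0 : 0 ≤ √Q := Real.sqrt_nonneg _
  have hbW0 : 0 ≤ (b : ℝ) / ((v : ℝ) - u) := by
    apply div_nonneg (Nat.cast_nonneg _)
    linarith
  calc 2 * ((b : ℝ) / ((v : ℝ) - u)) * √Q ≤ 2 * (5 / 2 ^ j) * (ε * 2 ^ j / 40) := by gcongr
    _ = ε / 4 := by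
      field_simp
      norm_num

end Pool.Agent.H.MP_711652_nt.QW
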