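import Mathlib
import Pool.Agent.H.MP_711652_nt.QW.L2A

set_option autoImplicit false

/-!
# Jumps from the scale `log X` on: the deterministic part
-/

namespace Pool.Agent.H.MP_711652_nt.QW

open Finset Classical

/-- A chain of `m` jumps `≥ ε` of the density of the primes around `z`, over the scales between
`h` and `R`. -/
def PChainR (X h R : ℕ) (ε : ℝ) (m z : ℕ) : Prop :=
  ∃ u v u' v' : ℕ → ℕ,
    (∀ i, i < m → u i ≤ z ∧ z ≤ v i ∧ u' i ≤ z ∧ z ≤ v' i ∧
      (h : ℝ) ≤ (v i : ℝ) - u i ∧ v i - u i ≤ v' i - u' i ∧ v' i ≤ u' i + R ∧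
      ε ≤ |dens X (u i) (v i) - dens X (u' i) (v' i)|) ∧
    (∀ i, i + 1 < m → 2 * (v' i - u' i) ≤ v (i + 1) - u (i + 1))

lemma big_aux (h b A0 A0' A1 A1' A2 A2' A3 A3' A4 : ℕ) (hb : b ≤ 2 * h) (h0 : h ≤ A0)
    (w0 : A0 ≤ A0') (s1 : 2 * A0' ≤ A1) (w1 : A1 ≤ A1') (s2 : 2 * A1' ≤ A2) (w2 : A2 ≤ A2')
    (s3 : 2 * A2' ≤ A3) (w3 : A3 ≤ A3') (s4 : 2 * A3' ≤ A4) : 2 * A0' + 4 * b ≤ A4 := by
  omega

/-- Every fourth jump, with the intervals ordered by the number of blocks. -/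
lemma pchainR_sorted (X h H z b m : ℕ) (ε : ℝ) (hb : 0 < b) (hbh : b ≤ 2 * h)
    (hz : PChainR X h H ε m z) : ∃ U V U' V' : ℕ → ℕ,
    (∀ i, i < (m + 3) / 4 → U i ≤ z ∧ z ≤ V i ∧ U' i ≤ z ∧ z ≤ V' i ∧
      h + U i ≤ V i ∧ h + U' i ≤ V' i ∧ V i ≤ U i + H ∧ V' i ≤ U' i + H ∧
      V i / b + 1 - U i / b ≤ V' i / b + 1 - U' i / b ∧
      ε ≤ |dens X (U i) (V i) - dens X (U' i) (V' i)|) ∧
    (∀ i, i + 1 < (m + 3) / 4 →
      2 * (V' i / b + 1 - U' i / b) ≤ V (i + 1) / b + 1 - U (i + 1) / b) := by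
  obtain ⟨u, v, u', v', h1, h2⟩ := hz
  -- the lengths in natural numbers
  have hlen : ∀ i, i < m → h + u i ≤ v i ∧ h + u' i ≤ v' i ∧ v i ≤ u i + H ∧
      v' i ≤ u' i + H := by
    intro i hi
    obtain ⟨g1, g2, g3, g4, g5, g6, g7, -⟩ := h1 i hi
    have h3 : h + u i ≤ v i := by
      have : ((h + u i : ℕ) : ℝ) ≤ v i := by push_cast; linarith
      exact_mod_cast this
    omega
  refine ⟨fun i => if v (4 * i) / b + 1 - u (4 * i) / b ≤ v' (4 * i) / b + 1 - u' (4 * i) / b then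
      u (4 * i) else u' (4 * i),
    fun i => if v (4 * i) / b + 1 - u (4 * i) / b ≤ v' (4 * i) / b + 1 - u' (4 * i) / b then
      v (4 * i) else v' (4 * i),
    fun i => if v (4 * i) / b + 1 - u (4 * i) / b ≤ v' (4 * i) / b + 1 - u' (4 * i) / b then
      u' (4 * i) else u (4 * i),
    fun i => if v (4 * i) / b + 1 - u (4 * i) / b ≤ v' (4 * i) / b + 1 - u' (4 * i) / b then
      v' (4 * i) else v (4 * i), ?_, ?_⟩
  · intro i hi
    have hi4 : 4 * i < m := by omega
    obtain ⟨g1, g2, g3, g4, g5, g6, g7, g8⟩ := h1 (4 * i) hi4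
    obtain ⟨l1, l2, l3, l4⟩ := hlen (4 * i) hi4
    by_cases hc : v (4 * i) / b + 1 - u (4 * i) / b ≤ v' (4 * i) / b + 1 - u' (4 * i) / b
    · simp only [if_pos hc]
      exact ⟨g1, g2, g3, g4, l1, l2, l3, l4, hc, g8⟩
    · simp only [if_neg hc]
      refine ⟨g3, g4, g1, g2, l2, l1, l4, l3, (not_le.1 hc).le, ?_⟩
      rw [abs_sub_comm]
      exact g8
  · intro i hi
    have e0 : 4 * i < m := by omega
    have e1 : 4 * i + 1 < m := by omega
    have e2 : 4 * i + 1 + 1 < m := by omega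
    have e3 : 4 * i + 1 + 1 + 1 < m := by omega
    have e4 : 4 * i + 1 + 1 + 1 + 1 < m := by omega
    have e5 : 4 * (i + 1) = 4 * i + 1 + 1 + 1 + 1 := by ring
    have s1 := h2 _ e1
    have s2 := h2 _ e2
    have s3 := h2 _ e3
    have s4 := h2 _ e4
    have w1 := (h1 _ e1).2.2.2.2.2.1
    have w2 := (h1 _ e2).2.2.2.2.2.1
    have w3 := (h1 _ e3).2.2.2.2.2.1
    have w4 := (h1 _ e4).2.2.2.2.2.1
    have w0 := (h1 _ e0).2.2.2.2.2.1
    obtain ⟨l1, l2, -, -⟩ := hlen _ e0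
    obtain ⟨l1', l2', -, -⟩ := hlen _ e4
    have r1 := blk_len (u (4 * i)) (v (4 * i)) b hb (by omega)
    have r2 := blk_len (u' (4 * i)) (v' (4 * i)) b hb (by omega)
    have r3 := blk_len (u (4 * i + 1 + 1 + 1 + 1)) (v (4 * i + 1 + 1 + 1 + 1)) b hb (by omega)
    have r4 := blk_len (u' (4 * i + 1 + 1 + 1 + 1)) (v' (4 * i + 1 + 1 + 1 + 1)) b hb (by omega)
    have hbig : 2 * (v' (4 * i) - u' (4 * i)) + 4 * b ≤
        v (4 * i + 1 + 1 + 1 + 1) - u (4 * i + 1 + 1 + 1 + 1) := by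
      exact big_aux h b _ _ _ _ _ _ _ _ _ hbh (Nat.le_sub_of_add_le l1) w0 s1 w1 s2 w2 s3 w3 s4
    have fin : ∀ s t : ℕ, s * b ≤ v' (4 * i) - u' (4 * i) + 2 * b →
        v (4 * i + 1 + 1 + 1 + 1) - u (4 * i + 1 + 1 + 1 + 1) ≤ t * b → 2 * s ≤ t := by
      intro s t hs ht
      have h3 : (2 * s) * b ≤ t * b := by
        calc (2 * s) * b = 2 * (s * b) := by ring
          _ ≤ 2 * (v' (4 * i) - u' (4 * i) + 2 * b) := Nat.mul_le_mul_left 2 hs
          _ = 2 * (v' (4 * i) - u' (4 * i)) + 4 * b := by ring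
          _ ≤ t * b := hbig.trans ht
      exact Nat.le_of_mul_le_mul_right h3 hb
    simp only [e5]
    apply fin
    · split_ifs
      · omega
      · omega
    · split_ifs
      · omega
      · omega

/-- A subfamily of a family of nested pairs of intervals. -/
lemma chain_sub (g : ℕ → ℝ) (N : ℕ) (ε : ℝ) (m k : ℕ) (p q p' q' : ℕ → ℕ) (G : Finset ℕ)
    (hG : ∀ i ∈ G, i < m)
    (h1 : ∀ i, i < m → p i ≤ k ∧ k < q i ∧ p' i ≤ k ∧ k < q' i ∧ q i - p i ≤ q' i - p' i ∧
      q' i - p' i ≤ N)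
    (h1' : ∀ i ∈ G, ε ≤ |av g (p i) (q i) - av g (p' i) (q' i)|)
    (h2 : ∀ i, i + 1 < m → 2 * (q' i - p' i) ≤ q (i + 1) - p (i + 1)) :
    Chain g N ε G.card k := by
  have hmono : ∀ d i, i + d + 1 < m → 2 * (q' i - p' i) ≤ q (i + d + 1) - p (i + d + 1) := by
    intro d
    induction d with
    | zero =>
      intro i hi
      exact h2 i hi
    | succ d ih =>
      intro i hi
      have e1 := ih i (by omega)
      have e2 := (h1 (i + d + 1) (by omega)).2.2.2.2.1
      have e3 := h2 (i + d + 1) (by omega)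
      have e4 : i + (d + 1) + 1 = i + d + 1 + 1 := by ring
      rw [e4]
      omega
  have hlt : ∀ i i', i < i' → i' < m → 2 * (q' i - p' i) ≤ q i' - p i' := by
    intro i i' hii hi'
    have := hmono (i' - i - 1) i (by omega)
    have e : i + (i' - i - 1) + 1 = i' := by omega
    rwa [e] at this
  have hGm : ∀ t (ht : t < G.card), G.orderEmbOfFin rfl ⟨t, ht⟩ < m ∧
      ε ≤ |av g (p (G.orderEmbOfFin rfl ⟨t, ht⟩)) (q (G.orderEmbOfFin rfl ⟨t, ht⟩)) -
        av g (p' (G.orderEmbOfFin rfl ⟨t, ht⟩)) (q' (G.orderEmbOfFin rfl ⟨t, ht⟩))| := by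
    intro t ht
    have := G.orderEmbOfFin_mem rfl ⟨t, ht⟩
    exact ⟨hG _ this, h1' _ this⟩
  refine ⟨fun t => if ht : t < G.card then p (G.orderEmbOfFin rfl ⟨t, ht⟩) else 0,
    fun t => if ht : t < G.card then q (G.orderEmbOfFin rfl ⟨t, ht⟩) else 0,
    fun t => if ht : t < G.card then p' (G.orderEmbOfFin rfl ⟨t, ht⟩) else 0,
    fun t => if ht : t < G.card then q' (G.orderEmbOfFin rfl ⟨t, ht⟩) else 0, ?_, ?_⟩
  · intro t ht
    simp only [dif_pos ht]
    obtain ⟨hi, hj⟩ := hGm t ht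
    obtain ⟨g1, g2, g3, g4, g5, g6⟩ := h1 _ hi
    exact ⟨g1, g2, g3, g4, g5, g6, hj⟩
  · intro t ht
    have ht' : t < G.card := by omega
    simp only [dif_pos ht, dif_pos ht']
    apply hlt
    · apply (G.orderEmbOfFin rfl).strictMono
      exact Nat.lt_succ_self t
    · exact (hGm (t + 1) ht).1

/-- Chains can be shortened. -/
lemma chain_mono (g : ℕ → ℝ) (N : ℕ) (ε : ℝ) (m m' k : ℕ) (hm : m' ≤ m) (h : Chain g N ε m k) :
    Chain g N ε m' k := by
  obtain ⟨p, q, p', q', h1, h2⟩ := h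
  exact ⟨p, q, p', q', fun i hi => h1 i (by omega), fun i hi => h2 i (by omega)⟩

/-- The jumps of the density: bad scales, or jumps of the averages over blocks. -/
lemma pchainR_dec (X h H z b k0 N m : ℕ) (ε : ℝ) (hb : 0 < b) (hL : 0 < Real.log X)
    (hbL : (b : ℝ) ≤ 2 * Real.log X) (hh : Real.log X ≤ h) (hk0 : k0 ≤ (z - H) / b)
    (hN : H / b + 2 ≤ N) (hε : 0 < ε) (hz : PChainR X h H ε m z) :
    ∃ G : ℕ, Chain (fun k => cb X b (k + k0)) N (ε / 2) G (z / b - k0) ∧
      (m + 3) / 4 ≤ ((range N).filter (fun j => 2 ^ j ≤ N ∧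
        EB (fun k => cb X b (k + k0)) ε j (z / b - k0))).card + G := by
  have hbh : b ≤ 2 * h := by
    have : (b : ℝ) ≤ ((2 * h : ℕ) : ℝ) := by push_cast; linarith
    exact_mod_cast this
  obtain ⟨U, V, U', V', h1, h2⟩ := pchainR_sorted X h H z b m ε hb hbh hz
  set g : ℕ → ℝ := fun k => cb X b (k + k0) with hg
  set κ := z / b - k0 with hκ
  obtain ⟨M, hM⟩ : ∃ M, M = (m + 3) / 4 := ⟨_, rfl⟩
  rw [← hM] at h1 h2 ⊢
  -- the block intervals
  have hblk : ∀ u v : ℕ, u ≤ z → z ≤ v → h + u ≤ v → v ≤ u + H →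
      k0 ≤ u / b ∧ u / b ≤ z / b ∧ z / b ≤ v / b ∧ v / b + 1 - u / b ≤ N := by
    intro u v h3 h4 h5 h6
    refine ⟨hk0.trans (Nat.div_le_div_right (by omega)), Nat.div_le_div_right h3,
      Nat.div_le_div_right h4, (blk_le u v b H hb h6).trans hN⟩
  set a : ℕ → ℕ := fun i => Nat.log 2 (V i / b + 1 - U i / b) with ha
  set c : ℕ → ℕ := fun i => Nat.log 2 (V' i / b + 1 - U' i / b) with hc
  have hn : ∀ i, i < M → V i / b + 1 - U i / b ≠ 0 ∧ V' i / b + 1 - U' i / b ≠ 0 := by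
    intro i hi
    obtain ⟨g1, g2, g3, g4, g5, g6, g7, g8, -, -⟩ := h1 i hi
    obtain ⟨a1, a2, a3, -⟩ := hblk _ _ g1 g2 g5 g7
    obtain ⟨c1, c2, c3, -⟩ := hblk _ _ g3 g4 g6 g8
    constructor
    · have := a2.trans a3
      generalize U i / b = x1 at *
      generalize V i / b = x2 at *
      omega
    · have := c2.trans c3
      generalize U' i / b = x1 at *
      generalize V' i / b = x2 at *
      omega
  have ha1 : ∀ i, i < M → 2 ^ a i ≤ V i / b + 1 - U i / b := fun i hi =>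
    Nat.pow_log_le_self 2 (hn i hi).1
  have hc1 : ∀ i, i < M → 2 ^ c i ≤ V' i / b + 1 - U' i / b := fun i hi =>
    Nat.pow_log_le_self 2 (hn i hi).2
  have hac : ∀ i, i < M → a i ≤ c i := by
    intro i hi
    exact Nat.log_mono_right (h1 i hi).2.2.2.2.2.2.2.2.1
  have hca : ∀ i, i + 1 < M → c i < a (i + 1) := by
    intro i hi
    have e1 := hc1 i (by omega)
    have e2 := h2 i hi
    have e3 : 2 ^ (c i + 1) ≤ V (i + 1) / b + 1 - U (i + 1) / b := by
      have : 2 ^ (c i + 1) = 2 * 2 ^ c i := by ring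
      rw [this]
      exact (Nat.mul_le_mul_left 2 e1).trans e2
    have e4 : c i + 1 ≤ a (i + 1) := Nat.le_log_of_pow_le (by norm_num) e3
    omega
  have hmono : ∀ d i, i + d + 1 < M → c i < a (i + d + 1) := by
    intro d
    induction d with
    | zero =>
      intro i hi
      exact hca i hi
    | succ d ih =>
      intro i hi
      have e1 := ih i (by omega)
      have e2 := hac (i + d + 1) (by omega)
      have e3 := hca (i + d + 1) (by omega)
      have e4 : i + (d + 1) + 1 = i + d + 1 + 1 := by ring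
      rw [e4]
      omega
  have hlt : ∀ i i', i < i' → i' < M → c i < a i' := by
    intro i i' hii hi'
    have := hmono (i' - i - 1) i (by omega)
    have e : i + (i' - i - 1) + 1 = i' := by omega
    rwa [e] at this
  have hcN : ∀ i, i < M → 2 ^ c i ≤ N := by
    intro i hi
    obtain ⟨g1, g2, g3, g4, g5, g6, g7, g8, -, -⟩ := h1 i hi
    exact (hc1 i hi).trans (hblk _ _ g3 g4 g6 g8).2.2.2
  have haN : ∀ i, i < M → 2 ^ a i ≤ N := fun i hi =>
    (Nat.pow_le_pow_right (by norm_num) (hac i hi)).trans (hcN i hi)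
  set D := (range M).filter (fun i => EB g ε (a i) κ ∨ EB g ε (c i) κ) with hD
  set G := (range M).filter (fun i => ¬ (EB g ε (a i) κ ∨ EB g ε (c i) κ)) with hG
  have hDG : D.card + G.card = M := by
    rw [hD, hG, card_filter_add_card_filter_not, card_range]
  have hDc : D.card ≤ ((range N).filter (fun j => 2 ^ j ≤ N ∧ EB g ε j κ)).card := by
    apply card_le_card_of_injOn (fun i => if EB g ε (a i) κ then a i else c i)
    · intro i hi
      rw [mem_coe, hD, mem_filter, mem_range] at hi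
      rw [mem_coe, mem_filter, mem_range]
      have e1 := hcN i hi.1
      have e2 := haN i hi.1
      have e3 : c i < 2 ^ c i := Nat.lt_two_pow_self
      have e4 : a i < 2 ^ a i := Nat.lt_two_pow_self
      by_cases hcc : EB g ε (a i) κ
      · simp only [if_pos hcc]
        exact ⟨by omega, e2, hcc⟩
      · simp only [if_neg hcc]
        exact ⟨by omega, e1, hi.2.resolve_left hcc⟩
    · intro i hi i' hi' hii
      rw [mem_coe, hD, mem_filter, mem_range] at hi hi'
      simp only at hii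
      have key : ∀ x y, x < M → y < M → x < y →
          (if EB g ε (a x) κ then a x else c x) ≠
          (if EB g ε (a y) κ then a y else c y) := by
        intro x y hx hy hxy
        have e1 := hlt x y hxy hy
        have e2 := hac x hx
        have e3 := hac y hy
        split_ifs <;> omega
      rcases lt_trichotomy i i' with hcc | hcc | hcc
      · exact absurd hii (key i i' hi.1 hi'.1 hcc)
      · exact hcc
      · exact absurd hii.symm (key i' i hi'.1 hi.1 hcc)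
  refine ⟨G.card, ?_, by omega⟩
  apply chain_sub g N (ε / 2) M κ (fun i => U i / b - k0) (fun i => V i / b + 1 - k0)
    (fun i => U' i / b - k0) (fun i => V' i / b + 1 - k0) G
  · intro i hi
    rw [hG, mem_filter, mem_range] at hi
    exact hi.1
  · intro i hi
    obtain ⟨g1, g2, g3, g4, g5, g6, g7, g8, g9, -⟩ := h1 i hi
    obtain ⟨a1, a2, a3, a4⟩ := hblk _ _ g1 g2 g5 g7
    obtain ⟨c1, c2, c3, c4⟩ := hblk _ _ g3 g4 g6 g8
    simp only [hκ]
    generalize U i / b = x1 at *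
    generalize V i / b = x2 at *
    generalize U' i / b = x3 at *
    generalize V' i / b = x4 at *
    generalize z / b = x5 at *
    omega
  · intro i hi
    rw [hG, mem_filter, mem_range, not_or] at hi
    obtain ⟨g1, g2, g3, g4, g5, g6, g7, g8, -, g10⟩ := h1 i hi.1
    obtain ⟨a1, -, -, -⟩ := hblk _ _ g1 g2 g5 g7
    obtain ⟨c1, -, -, -⟩ := hblk _ _ g3 g4 g6 g8
    have w1 : Real.log X ≤ (V i : ℝ) - U i := by
      have : ((h + U i : ℕ) : ℝ) ≤ V i := by exact_mod_cast g5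
      push_cast at this
      linarith
    have w2 : Real.log X ≤ (V' i : ℝ) - U' i := by
      have : ((h + U' i : ℕ) : ℝ) ≤ V' i := by exact_mod_cast g6
      push_cast at this
      linarith
    have n1 := dens_near X b (U i) (V i) z k0 ε hb hL hbL g1 g2 w1 a1 hε hi.2.1
    have n2 := dens_near X b (U' i) (V' i) z k0 ε hb hL hbL g3 g4 w2 c1 hε hi.2.2
    have e1 := abs_sub_abs_le_abs_sub (dens X (U i) (V i) - dens X (U' i) (V' i))
      (av g (U i / b - k0) (V i / b + 1 - k0) - av g (U' i / b - k0) (V' i / b + 1 - k0))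
    have e2 : |dens X (U i) (V i) - dens X (U' i) (V' i) -
        (av g (U i / b - k0) (V i / b + 1 - k0) - av g (U' i / b - k0) (V' i / b + 1 - k0))| ≤
        ε / 4 + ε / 4 := by
      have e3 : dens X (U i) (V i) - dens X (U' i) (V' i) -
          (av g (U i / b - k0) (V i / b + 1 - k0) - av g (U' i / b - k0) (V' i / b + 1 - k0)) =
          (dens X (U i) (V i) - av g (U i / b - k0) (V i / b + 1 - k0)) -
          (dens X (U' i) (V' i) - av g (U' i / b - k0) (V' i / b + 1 - k0)) := by ring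
      rw [e3]
      exact (abs_sub _ _).trans (add_le_add n1 n2)
    linarith
  · intro i hi
    have e1 := h2 i hi
    obtain ⟨g1, g2, g3, g4, g5, g6, g7, g8, -, -⟩ := h1 i (by omega)
    obtain ⟨f1, f2, f3, f4, f5, f6, f7, f8, -, -⟩ := h1 (i + 1) hi
    obtain ⟨c1, c2, c3, -⟩ := hblk _ _ g3 g4 g6 g8
    obtain ⟨a1, a2, a3, -⟩ := hblk _ _ f1 f2 f5 f7
    generalize U (i + 1) / b = x1 at *
    generalize V (i + 1) / b = x2 at *
    generalize U' i / b = x3 at *
    generalize V' i / b = x4 at *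
    omega

end Pool.Agent.H.MP_711652_nt.QW
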