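import Mathlib
import Pool.Agent.H.MP_711652_nt.QW.L2B
import Pool.Agent.H.MP_711652_nt.QW.ChainL2
import Pool.Agent.H.MP_711652_nt.QW.S2S

set_option autoImplicit false

/-!
# Jumps from the scale `log X` on, in a window
-/

namespace Pool.Agent.H.MP_711652_nt.QW

open Finset Classical

lemma geom_half (N : ℕ) : ∑ j ∈ range N, (1 / 2 : ℝ) ^ j ≤ 2 := by
  rw [geom_sum_eq (by norm_num)]
  have h : 0 ≤ (1 / 2 : ℝ) ^ N := by positivity
  rw [div_le_iff_of_neg (by norm_num)]
  linarith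

/-- The sum of the local `ℓ²` norms. -/
lemma EB_sum (g : ℕ → ℝ) (N M : ℕ) (hM : M ≤ 2 * N) :
    ∑ k ∈ range N, ∑ i ∈ Ico (k - M) (k + M), g i ^ 2 ≤
      2 * M * ∑ i ∈ range (3 * N), g i ^ 2 := by
  have h1 : ∀ k ∈ range N, ∑ i ∈ Ico (k - M) (k + M), g i ^ 2 ≤
      ∑ i ∈ range (3 * N), if k ∈ Ioc (i - M) (i + M) ∨ k = 0 ∧ i < M then g i ^ 2 else 0 := by
    intro k hk
    rw [mem_range] at hk
    rw [← sum_filter]
    apply sum_le_sum_of_subset_of_nonneg
    · intro i hi
      rw [mem_Ico] at hi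
      rw [mem_filter, mem_range, mem_Ioc]
      refine ⟨by omega, ?_⟩
      by_cases hk0 : k = 0
      · right
        exact ⟨hk0, by omega⟩
      · left
        omega
    · intro i _ _
      exact sq_nonneg _
  refine (sum_le_sum h1).trans ?_
  rw [sum_comm, mul_sum]
  apply sum_le_sum
  intro i hi
  rw [← sum_filter, sum_const, nsmul_eq_mul]
  apply mul_le_mul_of_nonneg_right _ (sq_nonneg _)
  have h2 : ((range N).filter (fun k => k ∈ Ioc (i - M) (i + M) ∨ k = 0 ∧ i < M)).card ≤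
      2 * M := by
    by_cases him : i < M
    · calc _ ≤ (range (i + M + 1)).card := by
            apply card_le_card
            intro k hk
            rw [mem_filter, mem_Ioc] at hk
            rw [mem_range]
            omega
        _ = i + M + 1 := card_range _
        _ ≤ 2 * M := by omega
    · calc _ ≤ (Ioc (i - M) (i + M)).card := by
            apply card_le_card
            intro k hk
            rw [mem_filter] at hk
            rcases hk.2 with h | h
            · exact h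
            · exact absurd h.2 him
        _ = i + M - (i - M) := Nat.card_Ioc _ _
        _ ≤ 2 * M := by omega
  exact_mod_cast h2

/-- The number of bad scales. -/
lemma EB_count (g : ℕ → ℝ) (N : ℕ) (ε : ℝ) (hε : 0 < ε) (m : ℕ) :
    (((range N).filter (fun k => m ≤ ((range N).filter (fun j => 2 ^ j ≤ N ∧
      EB g ε j k)).card)).card : ℝ) * (ε ^ 2 * m) ≤ 12800 * ∑ i ∈ range (3 * N), g i ^ 2 := by
  set S := ∑ i ∈ range (3 * N), g i ^ 2 with hS
  have hS0 : 0 ≤ S := sum_nonneg fun i _ => sq_nonneg _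
  have hε2 : 0 < ε ^ 2 := by positivity
  -- Markov
  have h1 : (((range N).filter (fun k => m ≤ ((range N).filter (fun j => 2 ^ j ≤ N ∧
      EB g ε j k)).card)).card : ℝ) * m ≤
      ∑ k ∈ range N, (((range N).filter (fun j => 2 ^ j ≤ N ∧ EB g ε j k)).card : ℝ) := by
    calc _ = ∑ k ∈ (range N).filter (fun k => m ≤ ((range N).filter (fun j => 2 ^ j ≤ N ∧
          EB g ε j k)).card), (m : ℝ) := by rw [sum_const, nsmul_eq_mul]
      _ ≤ ∑ k ∈ (range N).filter (fun k => m ≤ ((range N).filter (fun j => 2 ^ j ≤ N ∧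
          EB g ε j k)).card), (((range N).filter (fun j => 2 ^ j ≤ N ∧ EB g ε j k)).card : ℝ) := by
          apply sum_le_sum
          intro k hk
          exact_mod_cast (mem_filter.1 hk).2
      _ ≤ _ := by
          apply sum_le_sum_of_subset_of_nonneg (filter_subset _ _)
          intro k _ _
          exact Nat.cast_nonneg _
  have h2 : ∀ k, ε ^ 2 * (((range N).filter (fun j => 2 ^ j ≤ N ∧ EB g ε j k)).card : ℝ) ≤
      ∑ j ∈ range N, if 2 ^ j ≤ N then
        (1600 / 4 ^ j) * ∑ i ∈ Ico (k - 2 ^ (j + 1)) (k + 2 ^ (j + 1)), g i ^ 2 else 0 := by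
    intro k
    rw [card_filter, Nat.cast_sum, mul_sum]
    apply sum_le_sum
    intro j _
    by_cases hj : 2 ^ j ≤ N
    · rw [if_pos hj]
      by_cases hE : EB g ε j k
      · rw [if_pos ⟨hj, hE⟩, Nat.cast_one, mul_one, div_mul_eq_mul_div,
          le_div_iff₀ (by positivity)]
        exact hE
      · rw [if_neg (fun h => hE h.2), Nat.cast_zero, mul_zero]
        have : 0 ≤ ∑ i ∈ Ico (k - 2 ^ (j + 1)) (k + 2 ^ (j + 1)), g i ^ 2 :=
          sum_nonneg fun i _ => sq_nonneg _
        positivity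
    · rw [if_neg hj, if_neg (fun h => hj h.1), Nat.cast_zero, mul_zero]
  have h3 : ∑ k ∈ range N, ∑ j ∈ range N, (if 2 ^ j ≤ N then
      (1600 / 4 ^ j) * ∑ i ∈ Ico (k - 2 ^ (j + 1)) (k + 2 ^ (j + 1)), g i ^ 2 else 0) ≤
      12800 * S := by
    rw [sum_comm]
    have h4 : ∀ j ∈ range N, ∑ k ∈ range N, (if 2 ^ j ≤ N then
        (1600 / 4 ^ j) * ∑ i ∈ Ico (k - 2 ^ (j + 1)) (k + 2 ^ (j + 1)), g i ^ 2 else 0) ≤
        (6400 * S) * (1 / 2) ^ j := by
      intro j _
      by_cases hj : 2 ^ j ≤ N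
      · simp only [if_pos hj]
        rw [← mul_sum]
        have h5 := EB_sum g N (2 ^ (j + 1)) (by rw [pow_succ]; omega)
        rw [← hS] at h5
        calc (1600 / 4 ^ j) * ∑ k ∈ range N, ∑ i ∈ Ico (k - 2 ^ (j + 1)) (k + 2 ^ (j + 1)),
              g i ^ 2 ≤ (1600 / 4 ^ j) * (2 * ((2 ^ (j + 1) : ℕ) : ℝ) * S) := by gcongr
          _ = (6400 * S) * (1 / 2) ^ j := by
            have e1 : (4 : ℝ) ^ j = 2 ^ j * 2 ^ j := by rw [← mul_pow]; norm_num
            rw [e1, one_div, inv_pow]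
            push_cast
            rw [pow_succ]
            field_simp
            ring
      · simp only [if_neg hj, sum_const_zero]
        positivity
    refine (sum_le_sum h4).trans ?_
    rw [← mul_sum]
    calc (6400 * S) * ∑ j ∈ range N, (1 / 2 : ℝ) ^ j ≤ (6400 * S) * 2 := by
          gcongr
          exact geom_half N
      _ = 12800 * S := by ring
  calc _ = ε ^ 2 * ((((range N).filter (fun k => m ≤ ((range N).filter (fun j => 2 ^ j ≤ N ∧
        EB g ε j k)).card)).card : ℝ) * m) := by ring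
    _ ≤ ε ^ 2 * ∑ k ∈ range N,
        (((range N).filter (fun j => 2 ^ j ≤ N ∧ EB g ε j k)).card : ℝ) := by gcongr
    _ = ∑ k ∈ range N,
        ε ^ 2 * (((range N).filter (fun j => 2 ^ j ≤ N ∧ EB g ε j k)).card : ℝ) := by
        rw [mul_sum]
    _ ≤ _ := sum_le_sum fun k _ => h2 k
    _ ≤ _ := h3

/-- **Few jumps in a window, over all scales from `log X` on.** -/
theorem jumps_local (C₀ : ℝ) (hC₀ : 0 < C₀) : ∃ C : ℝ, 1 ≤ C ∧ ∃ X₀ : ℕ, ∀ X : ℕ, X₀ ≤ X →
    ∀ y H : ℕ, (Real.log X) ^ 2 ≤ H → PairOK C₀ (Real.log X) y (64 * H) →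
    ∀ h : ℕ, Real.log X ≤ h → ∀ ε : ℝ, 0 < ε → ∀ m : ℕ,
    (((Icc (y - H) (y + H)).filter (fun z => PChainR X h H ε m z)).card : ℝ) * (ε ^ 2 * m) ≤
      C * H := by
  obtain ⟨C₁, hC₁, hchain⟩ := chain_L2
  obtain ⟨X₁, hX₁⟩ := Filter.eventually_atTop.1 (ev_log_ge 50)
  refine ⟨8 * (12800 + 4 * C₁) * (1536 * C₀ + 1280), by nlinarith, X₁, ?_⟩
  intro X hX y H hH hP h hh ε hε m
  have hL50 : 50 ≤ Real.log X := hX₁ X hX
  have hpair := pairN_of_pairOK C₀ (Real.log X) y H hC₀ (by linarith) hH hP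
  set L := Real.log X with hLdef
  have hL0 : 0 < L := by linarith
  set b := ⌈L⌉₊ with hb
  have hbL : L ≤ b := Nat.le_ceil _
  have hbL2 : (b : ℝ) ≤ 2 * L := by
    have := (Nat.ceil_lt_add_one hL0.le).le
    rw [← hb] at this
    linarith
  have hbR : (0 : ℝ) < b := by linarith
  have hb0 : 0 < b := by exact_mod_cast hbR
  have hbH : 12 * b ≤ H := by
    have h1 : (12 * b : ℝ) ≤ H := by nlinarith
    exact_mod_cast h1
  set k0 := (y - 2 * H) / b with hk0
  obtain ⟨N, hN⟩ : ∃ N, N = 4 * H / b + 2 := ⟨_, rfl⟩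
  have hN1 : 1 ≤ N := by
    rw [hN]
    exact (by norm_num : 1 ≤ 2).trans (Nat.le_add_left _ _)
  have hNb : N * b ≤ 4 * H + 2 * b := by
    rw [hN, Nat.add_mul]
    have := Nat.div_mul_le_self (4 * H) b
    omega
  have hNb2 : 4 * H + b ≤ N * b := by
    rw [hN, Nat.add_mul]
    have := Nat.lt_div_mul_add hb0 (a := 4 * H)
    omega
  have hk0b : k0 * b ≤ y - 2 * H := Nat.div_mul_le_self _ _
  have hk0b2 : y - 2 * H < k0 * b + b := Nat.lt_div_mul_add hb0
  set g : ℕ → ℝ := fun k => cb X b (k + k0) with hg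
  have hg0 : ∀ k, 0 ≤ g k := by
    intro k
    rw [hg]
    unfold cb
    positivity
  -- the second moment
  set S := ∑ i ∈ range (3 * N), g i ^ 2 with hS
  have hS0 : 0 ≤ S := sum_nonneg fun i _ => sq_nonneg _
  have hSle : b * S ≤ (1536 * C₀ + 1280) * H := by
    have h1 : S = (L / b) ^ 2 * ∑ k ∈ Ico k0 (3 * N + k0),
        ((prIn (k * b) ((k + 1) * b) : ℝ)) ^ 2 := by
      rw [hS, range_eq_Ico, mul_sum]
      have h2 := sum_Ico_add' (fun k => cb X b k ^ 2) 0 (3 * N) k0
      rw [zero_add] at h2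
      rw [hg]
      simp only
      rw [h2]
      apply sum_congr rfl
      intro k _
      unfold cb
      ring
    have h2 : ∑ k ∈ Ico k0 (3 * N + k0), ((prIn (k * b) ((k + 1) * b) : ℝ)) ^ 2 ≤
        (pairN y (16 * H) b : ℝ) := by
      apply blocks_sq
      · omega
      · have : (3 * N + k0) * b = 3 * (N * b) + k0 * b := by ring
        rw [this]
        omega
    rw [h1]
    calc b * ((L / b) ^ 2 * ∑ k ∈ Ico k0 (3 * N + k0), ((prIn (k * b) ((k + 1) * b) : ℝ)) ^ 2)
        ≤ b * ((L / b) ^ 2 * ((1536 * C₀ + 1280) * (H / L))) := by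
          gcongr
          exact h2.trans hpair
      _ = (1536 * C₀ + 1280) * H * (L / b) := by
          field_simp
      _ ≤ (1536 * C₀ + 1280) * H * 1 := by
          gcongr
          rw [div_le_one hbR]
          exact hbL
      _ = _ := by ring
  -- the blocks
  obtain ⟨M, hM⟩ : ∃ M, M = ((m + 3) / 4 + 1) / 2 := ⟨_, rfl⟩
  have hmM : m ≤ 8 * M := by omega
  set K1 := (range N).filter (fun k => M ≤ ((range N).filter (fun j => 2 ^ j ≤ N ∧
      EB g ε j k)).card) with hK1
  set K2 := (range N).filter (fun k => Chain g N (ε / 2) M k) with hK2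
  have hcover : ((Icc (y - H) (y + H)).filter (fun z => PChainR X h H ε m z)).card ≤
      b * (K1 ∪ K2).card := by
    have h1 : ((K1 ∪ K2) ×ˢ range b).card = b * (K1 ∪ K2).card := by
      rw [card_product, card_range, mul_comm]
    rw [← h1]
    apply card_le_card_of_injOn (fun z => (z / b - k0, z % b))
    · intro z hz
      rw [mem_coe, mem_filter, mem_Icc] at hz
      obtain ⟨⟨hz1, hz2⟩, hz3⟩ := hz
      rw [mem_coe, mem_product, mem_range]
      refine ⟨?_, Nat.mod_lt _ hb0⟩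
      have hkz : k0 ≤ (z - H) / b := Nat.div_le_div_right (by omega)
      have hHN : H / b + 2 ≤ N := by
        rw [hN]
        have : H / b ≤ 4 * H / b := Nat.div_le_div_right (by omega)
        omega
      obtain ⟨G, hG1, hG2⟩ := pchainR_dec X h H z b k0 N m ε hb0 hL0 hbL2 hh hkz hHN hε hz3
      have hzN : z / b - k0 < N := by
        have h2 : z / b * b ≤ z := Nat.div_mul_le_self z b
        have h3 : z / b * b < (N + k0) * b := by
          have : (N + k0) * b = N * b + k0 * b := by ring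
          rw [this]
          omega
        have h4 := Nat.lt_of_mul_lt_mul_right h3
        have h5 : k0 ≤ z / b := hkz.trans (Nat.div_le_div_right (by omega))
        generalize z / b = x at *
        omega
      rw [mem_union, hK1, hK2, mem_filter, mem_filter, mem_range]
      by_cases hc : M ≤ ((range N).filter (fun j => 2 ^ j ≤ N ∧
          EB g ε j (z / b - k0))).card
      · left
        exact ⟨hzN, hc⟩
      · right
        refine ⟨hzN, chain_mono g N (ε / 2) G M _ ?_ hG1⟩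
        rw [not_le] at hc
        have h6 : (m + 3) / 4 ≤ ((range N).filter (fun j => 2 ^ j ≤ N ∧
          EB g ε j (z / b - k0))).card + G := hG2
        omega
    · intro z hz z' hz' heq
      rw [mem_coe, mem_filter, mem_Icc] at hz hz'
      simp only [Prod.mk.injEq] at heq
      have h2 : k0 ≤ z / b := Nat.div_le_div_right (by omega)
      have h3 : k0 ≤ z' / b := Nat.div_le_div_right (by omega)
      have h4 : z / b = z' / b := by
        generalize z / b = x at *
        generalize z' / b = x' at *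
        omega
      rw [← Nat.div_add_mod z b, ← Nat.div_add_mod z' b, h4, heq.2]
  have hM0 : (0 : ℝ) ≤ M := Nat.cast_nonneg _
  have hc1 : (K1.card : ℝ) * (ε ^ 2 * M) ≤ 12800 * S := EB_count g N ε hε M
  have hc2 : (K2.card : ℝ) * (ε ^ 2 * M) ≤ 4 * C₁ * S := by
    have h1 := hchain g hg0 N hN1 (ε / 2) (by linarith) M
    have h2 : ∑ k ∈ range (2 * N), g k ^ 2 ≤ S := by
      apply sum_le_sum_of_subset_of_nonneg
      · intro k hk
        rw [mem_range] at hk ⊢
        omega
      · intro k _ _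
        exact sq_nonneg _
    have h3 : (K2.card : ℝ) * ((ε / 2) ^ 2 * M) ≤ C₁ * S := by
      refine h1.trans ?_
      gcongr
    have e : (K2.card : ℝ) * (ε ^ 2 * M) = 4 * ((K2.card : ℝ) * ((ε / 2) ^ 2 * M)) := by ring
    rw [e]
    linarith
  have hunion : ((K1 ∪ K2).card : ℝ) ≤ K1.card + K2.card := by
    exact_mod_cast card_union_le K1 K2
  have hcov : ((((Icc (y - H) (y + H)).filter (fun z => PChainR X h H ε m z)).card : ℕ) : ℝ) ≤
      b * ((K1 ∪ K2).card : ℝ) := by exact_mod_cast hcover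
  have hmR : (m : ℝ) ≤ 8 * M := by exact_mod_cast hmM
  have hε2 : 0 < ε ^ 2 := by positivity
  calc _ ≤ (b * ((K1 ∪ K2).card : ℝ)) * (ε ^ 2 * (8 * M)) := by gcongr
    _ = 8 * b * (((K1 ∪ K2).card : ℝ) * (ε ^ 2 * M)) := by ring
    _ ≤ 8 * b * (((K1.card : ℝ) + K2.card) * (ε ^ 2 * M)) := by gcongr
    _ = 8 * b * ((K1.card : ℝ) * (ε ^ 2 * M) + (K2.card : ℝ) * (ε ^ 2 * M)) := by ring
    _ ≤ 8 * b * (12800 * S + 4 * C₁ * S) := by gcongr
    _ = 8 * (12800 + 4 * C₁) * (b * S) := by ring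
    _ ≤ 8 * (12800 + 4 * C₁) * ((1536 * C₀ + 1280) * H) := by gcongr
    _ = _ := by ring

/-- **Few jumps over all scales from `log X` on.** -/
theorem jumps_two : ∃ C : ℝ, 1 ≤ C ∧ ∃ X₀ : ℕ, ∀ X : ℕ, X₀ ≤ X →
    ∀ h : ℕ, Real.log X ≤ h → ∀ ε : ℝ, 0 < ε → ∀ m : ℕ,
    (((range X).filter (fun z => PChainR X h X ε m z)).card : ℝ) * (ε ^ 2 * m) ≤ C * X := by
  obtain ⟨C₀, hC₀, hpairs⟩ := pairs_windows
  obtain ⟨B, X₁, hX₁⟩ := hpairs 1
  obtain ⟨C, hC, X₂, hloc⟩ := jumps_local C₀ hC₀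
  obtain ⟨X₃, hX₃⟩ := log_pow_le 2
  refine ⟨C, hC, X₁ + X₂ + X₃ + 1, ?_⟩
  intro X hX h hh ε hε m
  obtain ⟨E, -, hE⟩ := hX₁ X (by omega)
  have hX1 : 1 ≤ X := by omega
  have hP := hE 0 (by omega) (64 * X) le_rfl (Or.inr (by nlinarith))
  have h1 := hloc X (by omega) 0 X (hX₃ X (by omega)) hP h hh ε hε m
  refine le_trans ?_ h1
  have hε2 : 0 < ε ^ 2 := by positivity
  apply mul_le_mul_of_nonneg_right _ (by positivity)
  rw [Nat.cast_le]
  apply card_le_card
  intro z hz
  rw [mem_filter, mem_range] at hz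
  rw [mem_filter, mem_Icc]
  exact ⟨⟨by omega, by omega⟩, hz.2⟩

end Pool.Agent.H.MP_711652_nt.QW
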