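import Mathlib
import Pool.Agent.H.MP_711652_nt.QW.SecondS

set_option autoImplicit false

namespace Pool.Agent.H.MP_711652_nt.QW

open Finset Classical

lemma rg_mono {a b c d : ℕ} (h1 : c ≤ a) (h2 : b ≤ d) : prIn a b ≤ prIn c d := by
  unfold prIn
  exact card_le_card (filter_subset_filter _ (Ioc_subset_Ioc h1 h2))

lemma rg_split {a b c : ℕ} (h1 : a ≤ b) (h2 : b ≤ c) : prIn a c = prIn a b + prIn b c := by
  unfold prIn
  rw [← Ioc_union_Ioc_eq_Ioc h1 h2, filter_union, card_union_of_disjoint]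
  exact disjoint_filter_filter (disjoint_left.2 fun x hx hy => by
    rw [mem_Ioc] at hx hy
    omega)

lemma rg_le (a b : ℕ) : prIn a b ≤ b - a := by
  unfold prIn
  refine (card_filter_le _ _).trans ?_
  rw [Nat.card_Ioc]

/-- Rising sun lemma for primes, windows to the right. -/
lemma rg_right (F : ℕ → ℝ) (hF : Monotone F) (M : ℕ) (B : Finset ℕ) (hB : ∀ p ∈ B, p.Prime)
    (hw : ∀ p ∈ B, ∃ v, p < v ∧ v ≤ M ∧ 1 + (prIn p v : ℝ) ≤ F v - F p) (m : ℕ) (hmM : m ≤ M)
    (hm : ∀ p ∈ B, m ≤ p) : (B.card : ℝ) ≤ F M - F m := by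
  have key : ∀ j, ∀ k0, k0 ≤ M → M - k0 = j →
      ((B.filter (fun k => k0 ≤ k)).card : ℝ) ≤ F M - F k0 := by
    intro j
    induction j using Nat.strong_induction_on with
    | _ j ih =>
      intro k0 hk0 hj
      by_cases hne : (B.filter (fun k => k0 ≤ k)).Nonempty
      · obtain ⟨k, hk, hmin⟩ : ∃ k ∈ B.filter (fun k => k0 ≤ k),
            ∀ i ∈ B.filter (fun k => k0 ≤ k), k ≤ i :=
          ⟨_, Finset.min'_mem _ hne, fun i hi => Finset.min'_le _ i hi⟩
        obtain ⟨hkB, hk0k⟩ := Finset.mem_filter.1 hk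
        obtain ⟨v, hkv, hvM, hle⟩ := hw k hkB
        have ih' := ih (M - v) (by omega) v hvM rfl
        have hsub : B.filter (fun i => k0 ≤ i) ⊆
            insert k ((Ioc k v).filter Nat.Prime) ∪ B.filter (fun i => v ≤ i) := by
          intro i hi
          have h1 := hmin i hi
          rw [Finset.mem_union, Finset.mem_insert, Finset.mem_filter, Finset.mem_Ioc,
            Finset.mem_filter]
          rcases lt_or_ge i v with h | h
          · rcases Nat.eq_or_lt_of_le h1 with h2 | h2
            · exact Or.inl (Or.inl h2.symm)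
            · exact Or.inl (Or.inr ⟨⟨h2, h.le⟩, hB i (Finset.mem_filter.1 hi).1⟩)
          · exact Or.inr ⟨(Finset.mem_filter.1 hi).1, h⟩
        have hc : ((B.filter (fun i => k0 ≤ i)).card : ℝ)
            ≤ (1 + (prIn k v : ℝ)) + (B.filter (fun i => v ≤ i)).card := by
          have h1 := (Finset.card_le_card hsub).trans (Finset.card_union_le _ _)
          have h3 := Finset.card_insert_le k ((Ioc k v).filter Nat.Prime)
          have h2 : (B.filter (fun i => k0 ≤ i)).card ≤
              1 + prIn k v + (B.filter (fun i => v ≤ i)).card := by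
            unfold prIn
            omega
          exact_mod_cast h2
        have hmono : F k0 ≤ F k := hF hk0k
        linarith only [hle, ih', hc, hmono]
      · rw [Finset.not_nonempty_iff_eq_empty] at hne
        rw [hne]
        simpa using hF hk0
  have h0 := key (M - m) m hmM rfl
  have h1 : B.filter (fun k => m ≤ k) = B := Finset.filter_true_of_mem hm
  rwa [h1] at h0

/-- Rising sun lemma for primes, windows to the left. -/
lemma rg_left (F : ℕ → ℝ) (hF : Monotone F) (m : ℕ) (B : Finset ℕ) (hB : ∀ p ∈ B, p.Prime)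
    (hw : ∀ p ∈ B, ∃ u, u < p ∧ m ≤ u ∧ (prIn u p : ℝ) ≤ F p - F u) (M : ℕ) (hmM : m ≤ M)
    (hM : ∀ p ∈ B, p ≤ M) : (B.card : ℝ) ≤ F M - F m := by
  have key : ∀ k0, m ≤ k0 → ((B.filter (fun k => k ≤ k0)).card : ℝ) ≤ F k0 - F m := by
    intro k0
    induction k0 using Nat.strong_induction_on with
    | _ k0 ih =>
      intro hmk0
      by_cases hne : (B.filter (fun k => k ≤ k0)).Nonempty
      · obtain ⟨k, hk, hmax⟩ : ∃ k ∈ B.filter (fun k => k ≤ k0),
            ∀ i ∈ B.filter (fun k => k ≤ k0), i ≤ k :=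
          ⟨_, Finset.max'_mem _ hne, fun i hi => Finset.le_max' _ i hi⟩
        obtain ⟨hkB, hk0k⟩ := Finset.mem_filter.1 hk
        obtain ⟨u, huk, hmu, hle⟩ := hw k hkB
        have ih' := ih u (by omega) hmu
        have hsub : B.filter (fun i => i ≤ k0) ⊆
            ((Ioc u k).filter Nat.Prime) ∪ B.filter (fun i => i ≤ u) := by
          intro i hi
          have h1 := hmax i hi
          rw [Finset.mem_union, Finset.mem_filter, Finset.mem_Ioc, Finset.mem_filter]
          rcases lt_or_ge u i with h | h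
          · exact Or.inl ⟨⟨h, h1⟩, hB i (Finset.mem_filter.1 hi).1⟩
          · exact Or.inr ⟨(Finset.mem_filter.1 hi).1, h⟩
        have hc : ((B.filter (fun i => i ≤ k0)).card : ℝ)
            ≤ (prIn u k : ℝ) + (B.filter (fun i => i ≤ u)).card := by
          have h1 := (Finset.card_le_card hsub).trans (Finset.card_union_le _ _)
          exact_mod_cast h1
        have hmono : F k ≤ F k0 := hF hk0k
        linarith only [hle, ih', hc, hmono]
      · rw [Finset.not_nonempty_iff_eq_empty] at hne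
        rw [hne]
        simpa using hF hmk0
  have h0 := key M hmM
  have h1 : B.filter (fun k => k ≤ M) = B := Finset.filter_true_of_mem hM
  rwa [h1] at h0

/-- A separated set in an interval is small. -/
lemma rg_sep (u v d : ℕ) (T : Finset ℕ) (hT : ∀ q ∈ T, u < q ∧ q ≤ v)
    (hd : ∀ q ∈ T, ∀ r ∈ T, q < r → q + d ≤ r) (huv : u < v) :
    T.card * d ≤ v + d - u - 1 := by
  have h1 : (T.biUnion (fun q => Ico q (q + d))).card = ∑ q ∈ T, (Ico q (q + d)).card := by
    apply card_biUnion
    intro q hq r hr hqr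
    show Disjoint (Ico q (q + d)) (Ico r (r + d))
    rw [disjoint_left]
    intro x hx hx'
    rw [mem_Ico] at hx hx'
    rcases lt_or_gt_of_ne hqr with h | h
    · have := hd q hq r hr h
      omega
    · have := hd r hr q hq h
      omega
  have h2 : T.biUnion (fun q => Ico q (q + d)) ⊆ Ico (u + 1) (v + d) := by
    intro x hx
    rw [mem_biUnion] at hx
    obtain ⟨q, hq, hx⟩ := hx
    rw [mem_Ico] at hx ⊢
    have := hT q hq
    omega
  have h3 := card_le_card h2
  rw [h1, Nat.card_Ico] at h3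
  have h4 : ∑ q ∈ T, (Ico q (q + d)).card = T.card * d := by
    rw [sum_congr rfl (g := fun _ => d) (fun q _ => by rw [Nat.card_Ico]; omega), sum_const,
      smul_eq_mul]
  omega

/-- The primes with a prime shortly after them. -/
noncomputable def rgS (y H s : ℕ) : Finset ℕ :=
  (Icc (y - H) (y + H)).filter (fun q => q.Prime ∧ ∃ h ∈ Icc 1 s, (q + h).Prime)

lemma rgS_card (y H s : ℕ) : (rgS y H s).card ≤ ∑ h ∈ Icc 1 s, prPairs y H h := by
  have h1 : rgS y H s ⊆ (Icc 1 s).biUnion (fun h =>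
      (Icc (y - H) (y + H)).filter (fun n => n.Prime ∧ (n + h).Prime)) := by
    intro q hq
    unfold rgS at hq
    rw [mem_filter] at hq
    obtain ⟨h2, h3, h, h4, h5⟩ := hq
    rw [mem_biUnion]
    exact ⟨h, h4, mem_filter.2 ⟨h2, h3, h5⟩⟩
  exact (card_le_card h1).trans card_biUnion_le

/-- The counting function of `rgS`. -/
noncomputable def rgF (y H s x : ℕ) : ℝ := (((rgS y H s).filter (fun q => q ≤ x)).card : ℝ)

lemma rgF_mono (y H s : ℕ) : Monotone (rgF y H s) := by
  intro a b hab
  unfold rgF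
  have : (rgS y H s).filter (fun q => q ≤ a) ⊆ (rgS y H s).filter (fun q => q ≤ b) := by
    intro q hq
    rw [mem_filter] at hq ⊢
    exact ⟨hq.1, hq.2.trans hab⟩
  exact_mod_cast card_le_card this

lemma rgF_sub (y H s u v : ℕ) (huv : u ≤ v) :
    rgF y H s v - rgF y H s u = (((rgS y H s).filter (fun q => u < q ∧ q ≤ v)).card : ℝ) := by
  unfold rgF
  have h1 : (rgS y H s).filter (fun q => q ≤ v) = (rgS y H s).filter (fun q => q ≤ u) ∪
      (rgS y H s).filter (fun q => u < q ∧ q ≤ v) := by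
    ext q
    rw [mem_union, mem_filter, mem_filter, mem_filter]
    constructor
    · rintro ⟨h2, h3⟩
      rcases le_or_gt q u with h | h
      · exact Or.inl ⟨h2, h⟩
      · exact Or.inr ⟨h2, h, h3⟩
    · rintro (⟨h2, h3⟩ | ⟨h2, h3, h4⟩)
      · exact ⟨h2, h3.trans huv⟩
      · exact ⟨h2, h4⟩
  have h2 : Disjoint ((rgS y H s).filter (fun q => q ≤ u))
      ((rgS y H s).filter (fun q => u < q ∧ q ≤ v)) := by
    rw [disjoint_left]
    intro q hq hq'
    rw [mem_filter] at hq hq'
    omega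
  rw [h1, card_union_of_disjoint h2]
  push_cast
  ring

lemma rgF_sub_le (y H s u v : ℕ) (huv : u ≤ v) :
    rgF y H s v - rgF y H s u ≤ ((rgS y H s).card : ℝ) := by
  rw [rgF_sub y H s u v huv]
  exact_mod_cast card_filter_le _ _

lemma rgF_sub_prIn (y H s u v : ℕ) (huv : u ≤ v) :
    rgF y H s v - rgF y H s u ≤ (prIn u v : ℝ) := by
  rw [rgF_sub y H s u v huv]
  unfold prIn
  have : (rgS y H s).filter (fun q => u < q ∧ q ≤ v) ⊆ (Ioc u v).filter Nat.Prime := by
    intro q hq
    unfold rgS at hq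
    rw [mem_filter, mem_filter] at hq
    rw [mem_filter, mem_Ioc]
    exact ⟨hq.2, hq.1.2.1⟩
  exact_mod_cast card_le_card this

/-- Many primes in an interval: at least half of them have a prime shortly after them. -/
lemma rg_dense (y H s u v : ℕ) (L t : ℝ) (hL : 0 < L) (ht : 0 < t) (hs : 2 * (L / t) < s + 1)
    (hu : y - H ≤ u) (hv : v ≤ y + H) (huv : u < v)
    (hd : 1 + t * ((v : ℝ) - u) / L < prIn u v) :
    (prIn u v : ℝ) ≤ 2 * (rgF y H s v - rgF y H s u) := by
  set P := (Ioc u v).filter Nat.Prime with hP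
  set S := (rgS y H s).filter (fun q => u < q ∧ q ≤ v) with hS
  have hSP : S ⊆ P := by
    intro q hq
    rw [hS, mem_filter] at hq
    unfold rgS at hq
    rw [mem_filter] at hq
    rw [hP, mem_filter, mem_Ioc]
    exact ⟨hq.2, hq.1.2.1⟩
  have h1 : (P \ S).card + S.card = P.card := by
    rw [card_sdiff_of_subset hSP]
    have := card_le_card hSP
    omega
  have h2 := rg_sep u v (s + 1) (P \ S) (by
    intro q hq
    rw [mem_sdiff, hP, mem_filter, mem_Ioc] at hq
    exact hq.1.1) (by
    intro q hq r hr hqr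
    by_contra hcon
    rw [mem_sdiff, hP, mem_filter, mem_Ioc] at hq hr
    apply hq.2
    rw [hS, mem_filter]
    refine ⟨?_, hq.1.1⟩
    unfold rgS
    rw [mem_filter, mem_Icc]
    refine ⟨by omega, hq.1.2, r - q, by rw [mem_Icc]; omega, ?_⟩
    have : q + (r - q) = r := by omega
    rw [this]
    exact hr.1.2) huv
  have h3 : ((P \ S).card : ℝ) * (s + 1) ≤ (v : ℝ) - u + s := by
    have h4 : (P \ S).card * (s + 1) + u ≤ v + s := by omega
    have h5 : ((P \ S).card : ℝ) * (s + 1) + u ≤ v + s := by exact_mod_cast h4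
    linarith
  have hn : (P.card : ℝ) = prIn u v := by
    unfold prIn
    rfl
  have h1' : ((P \ S).card : ℝ) + S.card = prIn u v := by
    rw [← hn]
    exact_mod_cast h1
  have h4 : t * ((v : ℝ) - u) / L < (prIn u v : ℝ) - 1 := by linarith
  have h5 : (v : ℝ) - u < ((prIn u v : ℝ) - 1) * (L / t) := by
    rw [div_lt_iff₀ hL] at h4
    rw [← mul_div_assoc, lt_div_iff₀ ht]
    linarith
  have hLt : 0 < L / t := by positivity
  have hs1 : (0 : ℝ) < (s : ℝ) + 1 := by linarith
  have h6 : 2 * ((P \ S).card : ℝ) < (prIn u v : ℝ) + 1 := by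
    by_contra hcon
    rw [not_lt] at hcon
    have h7 : ((P \ S).card : ℝ) - 1 ≥ ((prIn u v : ℝ) - 1) / 2 := by linarith
    have h8 : (((P \ S).card : ℝ) - 1) * (s + 1) < (v : ℝ) - u + 0 := by
      have : (((P \ S).card : ℝ) - 1) * (s + 1) = ((P \ S).card : ℝ) * (s + 1) - (s + 1) := by ring
      linarith
    have h9 : 0 < (prIn u v : ℝ) - 1 := by
      have h10 : 0 < (v : ℝ) - u := by
        have : (u : ℝ) < v := by exact_mod_cast huv
        linarith
      have h11 : 0 < t * ((v : ℝ) - u) / L := by positivity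
      linarith
    have h10 : ((prIn u v : ℝ) - 1) / 2 * (s + 1) ≤ (((P \ S).card : ℝ) - 1) * (s + 1) := by
      gcongr
    have h11 : ((prIn u v : ℝ) - 1) / 2 * (2 * (L / t)) ≤ ((prIn u v : ℝ) - 1) / 2 * (s + 1) := by
      gcongr
    linarith
  have h7 : 2 * (P \ S).card < P.card + 1 := by
    rw [← hn] at h6
    exact_mod_cast h6
  have h8 : P.card ≤ 2 * S.card := by omega
  rw [rgF_sub y H s u v huv.le, ← hn]
  exact_mod_cast h8

/-- Lower irregular primes. -/
lemma rg_low (y H : ℕ) (κ : ℝ) (hκ : 0 < κ) (B : Finset ℕ) (hB : B ⊆ prNear y H)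
    (hw : ∀ p ∈ B, ∃ u v : ℕ, u < p ∧ p ≤ v ∧ v ≤ u + H ∧ (prIn u v : ℝ) + 1 < κ * ((v : ℝ) - u)) :
    (B.card : ℝ) ≤ 6 * κ * H := by
  have hBp : ∀ p ∈ B, p.Prime ∧ y - H ≤ p ∧ p ≤ y + H := by
    intro p hp
    have := hB hp
    unfold prNear at this
    rw [mem_filter, mem_Icc] at this
    exact ⟨this.2, this.1⟩
  set B1 := B.filter (fun p => ∃ v, p < v ∧ v ≤ p + H ∧ 1 + (prIn p v : ℝ) ≤ κ * v - κ * p) with hB1
  set B2 := B.filter (fun p => ∃ u, u < p ∧ p ≤ u + H ∧ (prIn u p : ℝ) ≤ κ * p - κ * u) with hB2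
  have hF : Monotone (fun x : ℕ => κ * (x : ℝ)) := by
    intro a b hab
    have : (a : ℝ) ≤ b := by exact_mod_cast hab
    simp only
    gcongr
  have h1 := rg_right (fun x : ℕ => κ * (x : ℝ)) hF (y + 2 * H) B1
    (fun p hp => (hBp p (mem_filter.1 hp).1).1) (by
      intro p hp
      rw [hB1, mem_filter] at hp
      obtain ⟨h2, v, h3, h4, h5⟩ := hp
      have := hBp p h2
      exact ⟨v, h3, by omega, h5⟩) (y - H) (by omega)
    (fun p hp => (hBp p (mem_filter.1 hp).1).2.1)
  have h2 := rg_left (fun x : ℕ => κ * (x : ℝ)) hF (y - 2 * H) B2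
    (fun p hp => (hBp p (mem_filter.1 hp).1).1) (by
      intro p hp
      rw [hB2, mem_filter] at hp
      obtain ⟨h2, u, h3, h4, h5⟩ := hp
      have := hBp p h2
      exact ⟨u, h3, by omega, h5⟩) (y + H) (by omega)
    (fun p hp => (hBp p (mem_filter.1 hp).1).2.2)
  have h3 : B ⊆ B1 ∪ B2 := by
    intro p hp
    obtain ⟨u, v, hup, hpv, hvH, hle⟩ := hw p hp
    rw [mem_union, hB1, hB2, mem_filter, mem_filter]
    have hsp : prIn u v = prIn u p + prIn p v := rg_split hup.le hpv
    have hsp' : (prIn u v : ℝ) = prIn u p + prIn p v := by exact_mod_cast hsp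
    by_cases h4 : (prIn u p : ℝ) ≤ κ * p - κ * u
    · exact Or.inr ⟨hp, u, hup, by omega, h4⟩
    · rw [not_le] at h4
      have h5 : 1 + (prIn p v : ℝ) ≤ κ * v - κ * p := by
        rw [hsp'] at hle
        linarith
      refine Or.inl ⟨hp, v, ?_, by omega, h5⟩
      rcases Nat.eq_or_lt_of_le hpv with h6 | h6
      · subst h6
        have : (0 : ℝ) ≤ prIn p p := Nat.cast_nonneg _
        linarith
      · exact h6
  have h4 := (card_le_card h3).trans (card_union_le B1 B2)
  have h5 : (B.card : ℝ) ≤ B1.card + B2.card := by exact_mod_cast h4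
  have h6 : ((y + 2 * H : ℕ) : ℝ) - ((y - H : ℕ) : ℝ) ≤ 3 * H := by
    have : (y + 2 * H : ℕ) ≤ 3 * H + (y - H) := by omega
    have h7 : ((y + 2 * H : ℕ) : ℝ) ≤ 3 * H + ((y - H : ℕ) : ℝ) := by exact_mod_cast this
    linarith
  have h7 : ((y + H : ℕ) : ℝ) - ((y - 2 * H : ℕ) : ℝ) ≤ 3 * H := by
    have : (y + H : ℕ) ≤ 3 * H + (y - 2 * H) := by omega
    have h7 : ((y + H : ℕ) : ℝ) ≤ 3 * H + ((y - 2 * H : ℕ) : ℝ) := by exact_mod_cast this
    linarith
  have h8 : κ * ((y + 2 * H : ℕ) : ℝ) - κ * ((y - H : ℕ) : ℝ) ≤ κ * (3 * H) := by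
    rw [← mul_sub]
    gcongr
  have h9 : κ * ((y + H : ℕ) : ℝ) - κ * ((y - 2 * H : ℕ) : ℝ) ≤ κ * (3 * H) := by
    rw [← mul_sub]
    gcongr
  linarith

/-- Upper irregular primes. -/
lemma rg_up (y H s : ℕ) (L t : ℝ) (hL : 0 < L) (ht : 0 < t) (hs : 2 * (L / t) < s + 1)
    (B : Finset ℕ) (hB : B ⊆ prNear y H)
    (hw : ∀ p ∈ B, ∃ u v : ℕ, u < p ∧ p ≤ v ∧ v ≤ u + H ∧ 1 + t * ((v : ℝ) - u) / L < prIn u v) :
    (B.card : ℝ) ≤ 6 * (rgS y (16 * H) s).card := by
  have hBp : ∀ p ∈ B, p.Prime ∧ y - H ≤ p ∧ p ≤ y + H := by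
    intro p hp
    have := hB hp
    unfold prNear at this
    rw [mem_filter, mem_Icc] at this
    exact ⟨this.2, this.1⟩
  set G := rgF y (16 * H) s with hG
  set B1 := B.filter (fun p => ∃ v, p < v ∧ v ≤ p + H ∧ 1 + (prIn p v : ℝ) ≤ 4 * G v - 4 * G p)
    with hB1
  set B2 := B.filter (fun p => ∃ u, u < p ∧ p ≤ u + H ∧ (prIn u p : ℝ) ≤ 2 * G p - 2 * G u) with hB2
  have hGm : Monotone G := rgF_mono _ _ _
  have hF4 : Monotone (fun x : ℕ => 4 * G x) := fun a b hab => by
    have := hGm hab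
    simp only
    linarith
  have hF2 : Monotone (fun x : ℕ => 2 * G x) := fun a b hab => by
    have := hGm hab
    simp only
    linarith
  have h1 := rg_right (fun x : ℕ => 4 * G x) hF4 (y + 2 * H) B1
    (fun p hp => (hBp p (mem_filter.1 hp).1).1) (by
      intro p hp
      rw [hB1, mem_filter] at hp
      obtain ⟨h2, v, h3, h4, h5⟩ := hp
      have := hBp p h2
      exact ⟨v, h3, by omega, h5⟩) (y - H) (by omega)
    (fun p hp => (hBp p (mem_filter.1 hp).1).2.1)
  have h2 := rg_left (fun x : ℕ => 2 * G x) hF2 (y - 2 * H) B2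
    (fun p hp => (hBp p (mem_filter.1 hp).1).1) (by
      intro p hp
      rw [hB2, mem_filter] at hp
      obtain ⟨h2, u, h3, h4, h5⟩ := hp
      have := hBp p h2
      exact ⟨u, h3, by omega, h5⟩) (y + H) (by omega)
    (fun p hp => (hBp p (mem_filter.1 hp).1).2.2)
  have h3 : B ⊆ B1 ∪ B2 := by
    intro p hp
    obtain ⟨u, v, hup, hpv, hvH, hle⟩ := hw p hp
    have hpp := hBp p hp
    rw [mem_union, hB1, hB2, mem_filter, mem_filter]
    have hsp : prIn u v = prIn u p + prIn p v := rg_split hup.le hpv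
    have hsp' : (prIn u v : ℝ) = prIn u p + prIn p v := by exact_mod_cast hsp
    have h4 := rg_dense y (16 * H) s u v L t hL ht hs (by omega) (by omega) (by omega) hle
    rw [← hG] at h4
    by_cases h5 : (prIn u p : ℝ) ≤ 2 * G p - 2 * G u
    · exact Or.inr ⟨hp, u, hup, by omega, h5⟩
    · rw [not_le] at h5
      have h6 : (prIn p v : ℝ) < 2 * G v - 2 * G p := by
        rw [hsp'] at h4
        linarith
      have h7 : G v - G p ≤ prIn p v := rgF_sub_prIn y (16 * H) s p v hpv
      have h8 : (0 : ℝ) < prIn p v := by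
        by_contra hcon
        have : (0 : ℝ) ≤ prIn p v := Nat.cast_nonneg _
        linarith
      have h9 : (1 : ℝ) ≤ prIn p v := by
        have : 0 < prIn p v := by exact_mod_cast h8
        exact_mod_cast this
      refine Or.inl ⟨hp, v, ?_, by omega, by linarith⟩
      rcases Nat.eq_or_lt_of_le hpv with h6 | h6
      · subst h6
        linarith
      · exact h6
  have h4 := (card_le_card h3).trans (card_union_le B1 B2)
  have h5 : (B.card : ℝ) ≤ B1.card + B2.card := by exact_mod_cast h4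
  have h6 := rgF_sub_le y (16 * H) s (y - H) (y + 2 * H) (by omega)
  have h7 := rgF_sub_le y (16 * H) s (y - 2 * H) (y + H) (by omega)
  rw [← hG] at h6 h7
  linarith

/-- **Regular primes in one window.** -/
theorem reg_local (C : ℝ) (hC : 0 < C) : ∃ C' : ℝ, 0 < C' ∧ ∃ X₀ : ℕ, ∀ X : ℕ, X₀ ≤ X →
    ∀ y H : ℕ, (Real.log X) ^ 2 ≤ H → PairOK C (Real.log X) y (16 * H) → ∀ t : ℝ, 0 < t →
    (((prNear y H).filter (fun p => ¬ Regular X H t p)).card : ℝ) ≤
      C' * H / (t * Real.log X) := by
  have ev1 : ∀ᶠ X : ℕ in Filter.atTop, 4 ≤ Real.log X :=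
    (Real.tendsto_log_atTop.comp tendsto_natCast_atTop_atTop).eventually
      (Filter.eventually_ge_atTop _)
  obtain ⟨X₀, hX₀⟩ := Filter.eventually_atTop.1 ev1
  refine ⟨320 * (C + 1), by positivity, X₀, ?_⟩
  intro X hX y H hH hP t ht
  have hL4 := hX₀ X hX
  set L := Real.log X with hL
  have hL0 : 0 < L := by linarith
  have hHr : (0 : ℝ) ≤ H := Nat.cast_nonneg H
  rcases lt_or_ge t (1 / 4) with ht4 | ht4
  · have h1 := first_window C L y (16 * H) hC hL4 (by push_cast; nlinarith) hP
    have h2 : (prNear y H).filter (fun p => ¬ Regular X H t p) ⊆ prNear y (16 * H) := by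
      intro p hp
      rw [mem_filter] at hp
      unfold prNear at hp ⊢
      rw [mem_filter, mem_Icc] at hp ⊢
      exact ⟨by omega, hp.1.2⟩
    have h3 : (((prNear y H).filter (fun p => ¬ Regular X H t p)).card : ℝ) ≤
        ((prNear y (16 * H)).card : ℝ) := by exact_mod_cast card_le_card h2
    refine (h3.trans h1).trans ?_
    push_cast
    rw [div_le_div_iff₀ hL0 (by positivity)]
    have h4 : (20 * C + 20) * (16 * (H : ℝ)) * (t * L) = 320 * (C + 1) * H * L * t := by ring
    rw [h4]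
    have h5 : 320 * (C + 1) * (H : ℝ) * L * t ≤ 320 * (C + 1) * H * L * 1 := by
      gcongr
      linarith
    linarith
  · have hlow := rg_low y H (1 / (t * L)) (by positivity)
      ((prNear y H).filter (fun p => ∃ u v : ℕ, u < p ∧ p ≤ v ∧ v ≤ u + H ∧
        (prIn u v : ℝ) + 1 < 1 / (t * L) * ((v : ℝ) - u))) (filter_subset _ _)
      (fun p hp => (mem_filter.1 hp).2)
    set B1 := (prNear y H).filter (fun p => ∃ u v : ℕ, u < p ∧ p ≤ v ∧ v ≤ u + H ∧
        (prIn u v : ℝ) + 1 < 1 / (t * L) * ((v : ℝ) - u)) with hB1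
    set B2 := (prNear y H).filter (fun p => ∃ u v : ℕ, u < p ∧ p ≤ v ∧ v ≤ u + H ∧
        1 + t * ((v : ℝ) - u) / L < prIn u v) with hB2
    have h1 : (prNear y H).filter (fun p => ¬ Regular X H t p) ⊆ B1 ∪ B2 := by
      intro p hp
      rw [mem_filter] at hp
      obtain ⟨hp1, hp2⟩ := hp
      rw [mem_union, hB1, hB2, mem_filter, mem_filter]
      by_contra hcon
      rw [not_or] at hcon
      apply hp2
      intro u v hup hpv hvH
      constructor
      · by_contra h2
        apply hcon.1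
        refine ⟨hp1, u, v, hup, hpv, hvH, ?_⟩
        rw [not_le, ← hL] at h2
        have : 1 / (t * L) * ((v : ℝ) - u) = ((v : ℝ) - u) / (t * L) := by ring
        rw [this]
        linarith
      · by_contra h2
        apply hcon.2
        refine ⟨hp1, u, v, hup, hpv, hvH, ?_⟩
        rw [not_le, ← hL] at h2
        exact h2
    have h2 : (((prNear y H).filter (fun p => ¬ Regular X H t p)).card : ℝ) ≤
        B1.card + B2.card := by
      exact_mod_cast (card_le_card h1).trans (card_union_le B1 B2)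
    have h3 : (B2.card : ℝ) ≤ 192 * C * H / (t * L) := by
      rcases le_or_gt L t with htL | htL
      · have h4 : B2 = ∅ := by
          rw [hB2, filter_eq_empty_iff]
          rintro p hp ⟨u, v, hup, hpv, hvH, hle⟩
          have h5 := rg_le u v
          have h6 : (prIn u v : ℝ) ≤ (v : ℝ) - u := by
            have : prIn u v + u ≤ v := by omega
            have h7 : (prIn u v : ℝ) + u ≤ v := by exact_mod_cast this
            linarith
          have h7 : (v : ℝ) - u ≤ t * ((v : ℝ) - u) / L := by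
            rw [le_div_iff₀ hL0]
            have h8 : (0 : ℝ) ≤ (v : ℝ) - u := by
              have : (u : ℝ) ≤ v := by exact_mod_cast (hup.le.trans hpv)
              linarith
            nlinarith
          linarith
        rw [h4, card_empty, Nat.cast_zero]
        positivity
      · set s := ⌊2 * (L / t)⌋₊ with hs
        have hs1 : 2 * (L / t) < s + 1 := Nat.lt_floor_add_one _
        have hs2 : (s : ℝ) ≤ 2 * (L / t) := Nat.floor_le (by positivity)
        have hs3 : 2 * (L / t) ≤ 8 * L := by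
          rw [← mul_div_assoc, div_le_iff₀ ht]
          nlinarith
        have h4 := rg_up y H s L t hL0 ht hs1 B2 (filter_subset _ _)
          (fun p hp => (mem_filter.1 hp).2)
        have h5 := hP s (hs2.trans hs3)
        have h6 : ((rgS y (16 * H) s).card : ℝ) ≤ ∑ h ∈ Icc 1 s, (prPairs y (16 * H) h : ℝ) := by
          exact_mod_cast rgS_card y (16 * H) s
        have h7 : C * s * ((16 * H : ℕ) : ℝ) / L ^ 2 ≤ 32 * C * H / (t * L) := by
          push_cast
          have h8 : C * s * (16 * (H : ℝ)) / L ^ 2 ≤ C * (2 * (L / t)) * (16 * (H : ℝ)) / L ^ 2 := by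
            gcongr
          refine h8.trans (le_of_eq ?_)
          field_simp
          ring
        have h8 : 192 * C * H / (t * L) = 6 * (32 * C * H / (t * L)) := by ring
        rw [h8]
        linarith
    have h4 : 6 * (1 / (t * L)) * H + 192 * C * H / (t * L) ≤ 320 * (C + 1) * H / (t * L) := by
      have h5 : 6 * (1 / (t * L)) * H + 192 * C * H / (t * L) =
          (6 * (H : ℝ) + 192 * C * H) / (t * L) := by ring
      rw [h5]
      apply div_le_div_of_nonneg_right _ (by positivity)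
      nlinarith [mul_nonneg hC.le hHr]
    linarith

end Pool.Agent.H.MP_711652_nt.QW
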