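import Mathlib
import Pool.Agent.H.MP_711652_nt.QW.FinH
import Pool.Agent.H.MP_711652_nt.QW.GapS

set_option autoImplicit false

namespace Pool.Agent.H.MP_711652_nt.QW.ResGap

/-- The length of the longest prime-free interval `(z, z + g]` with `g ≤ 2 ^ j` and
`|z - p| ≤ 2 ^ j`. -/
noncomputable def longestGap (j p : ℕ) : ℕ :=
  sSup {g : ℕ | g ≤ 2 ^ j ∧ ∃ z : ℕ, p ≤ z + 2 ^ j ∧ z ≤ p + 2 ^ j ∧
    ∀ q : ℕ, z < q → q ≤ z + g → ¬ q.Prime}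

/-- The dyadic scales between `log X` and `H`. -/
noncomputable def scales (X H : ℕ) : Finset ℕ :=
  (Finset.range H).filter (fun j => ⌈Real.log X⌉₊ ≤ 2 ^ j ∧ 2 ^ j ≤ H)

lemma longestGap_eq (j p : ℕ) : longestGap j p = longGap j p := by
  unfold longestGap longGap
  congr 1
  ext g
  simp only [Set.mem_ofPred_eq]
  refine and_congr_right fun _ => exists_congr fun z => ?_
  rw [← and_assoc]
  refine and_congr_left fun _ => ?_
  rw [abs_le]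
  constructor
  · rintro ⟨h1, h2⟩
    have h3 : (p : ℝ) ≤ z + 2 ^ j := by exact_mod_cast h1
    have h4 : (z : ℝ) ≤ p + 2 ^ j := by exact_mod_cast h2
    constructor <;> linarith
  · rintro ⟨h1, h2⟩
    have h3 : (p : ℝ) ≤ z + 2 ^ j := by linarith
    have h4 : (z : ℝ) ≤ p + 2 ^ j := by linarith
    exact ⟨by exact_mod_cast h3, by exact_mod_cast h4⟩

/-- The integral test for the gaps at all scales, in windows. -/
theorem final : ∃ c : ℝ, 0 < c ∧ ∀ k : ℕ, ∃ C : ℝ, 0 < C ∧ ∃ B X₀ : ℕ, ∀ X : ℕ, X₀ ≤ X →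
    ∀ H₀ : ℕ, 1 ≤ H₀ → ∃ E : Finset ℕ, (E.card : ℝ) ≤ X * (Real.log X) ^ B / H₀ ∧
    ∀ y : ℕ, y < X → ∀ H : ℕ, H ≤ X → ((y ∉ E ∧ H₀ ≤ H) ∨ X ≤ H ^ k) →
    ∀ φ : ℝ → ℝ, Monotone φ → 0 ≤ φ 0 →
    (∀ n : ℕ, ∑ r ∈ Finset.range n, (2 : ℝ) ^ r * φ ((1 / 2) ^ r) ≤ 1) →
    ∑ p ∈ (Finset.Icc (y - H) (y + H)).filter Nat.Prime,
      Real.exp (c * ∑ j ∈ scales X H, φ ((longestGap j p : ℝ) / 2 ^ j)) ≤
        C * H / Real.log X := by
  classical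
  obtain ⟨c, hc, hgap⟩ := gap_local
  refine ⟨c, hc, fun k => ?_⟩
  obtain ⟨C, hC, B, X₀, hX₀⟩ := pairs_use_H k
  obtain ⟨C', hC', X₁, hX₁⟩ := hgap C hC
  refine ⟨C', hC', B, max X₀ X₁, fun X hX H₀ hH₀ => ?_⟩
  obtain ⟨E, hE, h2⟩ := hX₀ X (le_trans (le_max_left _ _) hX) H₀ hH₀
  refine ⟨E, hE, fun y hy H hH hyp φ hφ h00 hsum => ?_⟩
  obtain ⟨h3, h4, -⟩ := h2 y hy H hH hyp
  have h5 := hX₁ X (le_trans (le_max_right _ _) hX) y H h3 h4 φ hφ h00 hsum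
  refine le_trans (le_of_eq ?_) h5
  unfold prNear
  apply Finset.sum_congr rfl
  intro p _
  simp only [longestGap_eq]
  have hs : scales X H = (Finset.range H).filter
      (fun j => Real.log X ≤ 2 ^ j ∧ 2 ^ j ≤ H) := by
    unfold scales
    apply Finset.filter_congr
    intro j _
    refine and_congr_left fun _ => ?_
    rw [Nat.ceil_le]
    push_cast
    exact Iff.rfl
  rw [hs]

end Pool.Agent.H.MP_711652_nt.QW.ResGap
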