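import Mathlib
import Pool.Agent.H.MP_711652_nt.QW.JumpT
import Pool.Agent.H.MP_711652_nt.QW.L2C

set_option autoImplicit false

/-!
# Jumps of the density of the primes: result module
-/

namespace Pool.Agent.H.MP_711652_nt.QW.ResJumps

/-- The density of the primes in the interval `(u, v]`, in units of `1 / log X`. -/
noncomputable def density (X u v : ℕ) : ℝ :=
  ({p : ℕ | p.Prime ∧ u < p ∧ p ≤ v}.ncard : ℝ) * Real.log X / ((v : ℝ) - u)

/-- Around `y` the density of the primes makes at least `m` jumps of size `ε` over the scales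
between `h` and `X`: for each `i < m` there are two intervals `(u i, v i]` and `(u' i, v' i]` around
`y`, the first one not longer than the second one, with lengths between `h` and `X`, whose densities
of primes differ by at least `ε`, and the intervals for `i + 1` are at least twice as long as those
for `i`. -/
def Jumps (X h : ℕ) (ε : ℝ) (m y : ℕ) : Prop :=
  ∃ u v u' v' : ℕ → ℕ,
    (∀ i, i < m → u i ≤ y ∧ y ≤ v i ∧ u' i ≤ y ∧ y ≤ v' i ∧
      h ≤ v i - u i ∧ v i - u i ≤ v' i - u' i ∧ v' i - u' i ≤ X ∧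
      ε ≤ |density X (u i) (v i) - density X (u' i) (v' i)|) ∧
    ∀ i, i + 1 < m → 2 * (v' i - u' i) ≤ v (i + 1) - u (i + 1)

lemma density_eq (X u v : ℕ) : density X u v = dens X u v := by
  unfold density dens prIn
  have h : {p : ℕ | p.Prime ∧ u < p ∧ p ≤ v} = ↑((Finset.Ioc u v).filter Nat.Prime) := by
    ext p
    rw [Finset.mem_coe, Finset.mem_filter, Finset.mem_Ioc, Set.mem_ofPred_eq]
    tauto
  rw [h, Set.ncard_coe_finset]

lemma jumps_iff (X h : ℕ) (ε : ℝ) (m y : ℕ) : Jumps X h ε m y ↔ PChainH X h ε m y := by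
  unfold Jumps PChainH
  simp only [density_eq, Nat.sub_le_iff_le_add']

lemma chainR_of_jumps (X h : ℕ) (ε : ℝ) (m y : ℕ) (hJ : Jumps X h ε m y) :
    PChainR X h X ε m y := by
  obtain ⟨u, v, u', v', h1, h2⟩ := hJ
  refine ⟨u, v, u', v', fun i hi => ?_, h2⟩
  obtain ⟨g1, g2, g3, g4, g5, g6, g7, g8⟩ := h1 i hi
  refine ⟨g1, g2, g3, g4, ?_, g6, Nat.sub_le_iff_le_add'.1 g7, ?_⟩
  · rw [← Nat.cast_sub (g1.trans g2)]
    exact_mod_cast g5
  · rwa [density_eq, density_eq] at g8

/-- There are absolute constants `C`, `B`, `X₀` such that for all `X ≥ X₀`, all `h ≥ 1`, all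
`0 < ε ≤ 1` and all `m`, the number of the integers `y < X` around which the density of the primes
makes at least `m` jumps of size `ε` over the scales between `h` and `X` is at most
`C (1 + (log X) ^ B / h) exp (-ε² m / C) X`, and also at most `C X / (ε² m)` if `h ≥ log X`. -/
theorem final : ∃ C : ℝ, 0 < C ∧ ∃ B X₀ : ℕ, ∀ X : ℕ, X₀ ≤ X → ∀ h : ℕ, 1 ≤ h →
    ∀ ε : ℝ, 0 < ε → ε ≤ 1 → ∀ m : ℕ,
    ({y : ℕ | y < X ∧ Jumps X h ε m y}.ncard : ℝ) ≤
      C * (1 + (Real.log X) ^ B / h) * Real.exp (-(ε ^ 2 * m / C)) * X ∧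
    (Real.log X ≤ h →
      ({y : ℕ | y < X ∧ Jumps X h ε m y}.ncard : ℝ) * (ε ^ 2 * m) ≤ C * X) := by
  classical
  obtain ⟨C1, hC1, B, X₁, hmain⟩ := jumps_all
  obtain ⟨C2, hC2, X₂, htwo⟩ := jumps_two
  refine ⟨max C1 C2, lt_of_lt_of_le one_pos (hC1.trans (le_max_left _ _)), B, max (max X₁ X₂) 3,
    fun X hX h hh ε hε hε1 m => ⟨?_, ?_⟩⟩
  · have hX1 : X₁ ≤ X := ((le_max_left _ _).trans (le_max_left _ _)).trans hX
    have hX3 : 3 ≤ X := (le_max_right _ _).trans hX
    have hL : 0 ≤ Real.log X := Real.log_nonneg (by exact_mod_cast (by omega : 1 ≤ X))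
    have h1 := hmain X hX1 h hh ε hε hε1 m
    have hset : {y : ℕ | y < X ∧ Jumps X h ε m y} =
        ↑((Finset.range X).filter (fun y => PChainH X h ε m y)) := by
      ext y
      rw [Finset.mem_coe, Finset.mem_filter, Finset.mem_range, Set.mem_ofPred_eq, jumps_iff]
    rw [hset, Set.ncard_coe_finset]
    refine le_trans (le_of_eq (by congr)) (h1.trans ?_)
    have h2 : C1 ≤ max C1 C2 := le_max_left _ _
    have h3 : Real.exp (-(ε ^ 2 * m / C1)) ≤ Real.exp (-(ε ^ 2 * m / max C1 C2)) := by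
      apply Real.exp_le_exp.2
      apply neg_le_neg
      apply div_le_div_of_nonneg_left (by positivity) (by linarith) h2
    gcongr
  · intro hLh
    have hX2 : X₂ ≤ X := ((le_max_right _ _).trans (le_max_left _ _)).trans hX
    have h1 := htwo X hX2 h hLh ε hε m
    have hsub : {y : ℕ | y < X ∧ Jumps X h ε m y} ⊆
        ↑((Finset.range X).filter (fun y => PChainR X h X ε m y)) := by
      intro y hy
      rw [Finset.mem_coe, Finset.mem_filter, Finset.mem_range]
      exact ⟨hy.1, chainR_of_jumps X h ε m y hy.2⟩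
    have h2 : ({y : ℕ | y < X ∧ Jumps X h ε m y}.ncard : ℝ) ≤
        (((Finset.range X).filter (fun y => PChainR X h X ε m y)).card : ℝ) := by
      have h3 := Set.ncard_le_ncard hsub (Finset.finite_toSet _)
      rw [Set.ncard_coe_finset] at h3
      exact_mod_cast h3
    have h3 : C2 * (X : ℝ) ≤ max C1 C2 * X := by
      gcongr
      exact le_max_right _ _
    refine le_trans (mul_le_mul_of_nonneg_right h2 (by positivity)) (le_trans ?_ h3)
    refine le_trans (le_of_eq ?_) h1
    congr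

end Pool.Agent.H.MP_711652_nt.QW.ResJumps
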