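import Mathlib
import Pool.Agent.H.MP_711652_nt.QW.FinH
import Pool.Agent.H.MP_711652_nt.QW.RegS

set_option autoImplicit false

namespace Pool.Agent.H.MP_711652_nt.QW.ResReg

/-- The number of primes in `(u, v]`. -/
def primesIn (u v : ℕ) : ℕ := ((Finset.Ioc u v).filter Nat.Prime).card

/-- `p` is `t`-regular up to the scale `H` with respect to `log X`: every interval `(u, v]` of
length at most `H` that contains `p` has at least `(v - u) / (t log X) - 1` and at most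
`1 + t (v - u) / log X` primes. -/
def Regular (X H : ℕ) (t : ℝ) (p : ℕ) : Prop :=
  ∀ u v : ℕ, u < p → p ≤ v → v ≤ u + H →
    ((v : ℝ) - u) / (t * Real.log X) - 1 ≤ primesIn u v ∧
    (primesIn u v : ℝ) ≤ 1 + t * ((v : ℝ) - u) / Real.log X

lemma primesIn_eq (u v : ℕ) : primesIn u v = prIn u v := rfl

lemma regular_iff (X H : ℕ) (t : ℝ) (p : ℕ) : Regular X H t p ↔ QW.Regular X H t p := by
  unfold Regular QW.Regular
  simp only [primesIn_eq]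

/-- Regular primes in windows. -/
theorem final (k : ℕ) : ∃ C : ℝ, 0 < C ∧ ∃ B X₀ : ℕ, ∀ X : ℕ, X₀ ≤ X → ∀ H₀ : ℕ, 1 ≤ H₀ →
    ∃ E : Finset ℕ, (E.card : ℝ) ≤ X * (Real.log X) ^ B / H₀ ∧
    ∀ y : ℕ, y < X → ∀ H : ℕ, H ≤ X → ((y ∉ E ∧ H₀ ≤ H) ∨ X ≤ H ^ k) → ∀ t : ℝ, 0 < t →
      ({p : ℕ | p.Prime ∧ y ≤ p + H ∧ p ≤ y + H ∧ ¬ Regular X H t p}.ncard : ℝ) ≤
        C * H / (t * Real.log X) := by
  classical
  obtain ⟨C, hC, B, X₀, hX₀⟩ := pairs_use_H k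
  obtain ⟨C', hC', X₁, hX₁⟩ := reg_local C hC
  refine ⟨C', hC', B, max X₀ X₁, fun X hX H₀ hH₀ => ?_⟩
  obtain ⟨E, hE, h2⟩ := hX₀ X (le_trans (le_max_left _ _) hX) H₀ hH₀
  refine ⟨E, hE, fun y hy H hH hyp t ht => ?_⟩
  obtain ⟨h3, h4, -⟩ := h2 y hy H hH hyp
  have h5 := hX₁ X (le_trans (le_max_right _ _) hX) y H h3 h4 t ht
  have hset : {p : ℕ | p.Prime ∧ y ≤ p + H ∧ p ≤ y + H ∧ ¬ Regular X H t p} =
      ↑((prNear y H).filter (fun p => ¬ QW.Regular X H t p)) := by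
    ext p
    unfold prNear
    rw [Finset.mem_coe, Finset.mem_filter, Finset.mem_filter, Finset.mem_Icc, Set.mem_ofPred_eq,
      regular_iff]
    constructor
    · rintro ⟨h6, h7, h8, h9⟩
      exact ⟨⟨⟨by omega, h8⟩, h6⟩, h9⟩
    · rintro ⟨⟨⟨h7, h8⟩, h6⟩, h9⟩
      exact ⟨h6, by omega, h8, h9⟩
  rw [hset, Set.ncard_coe_finset]
  convert h5

end Pool.Agent.H.MP_711652_nt.QW.ResReg
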