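import Mathlib
import Pool.Agent.H.MP_711652_nt.QW.S1K
import Pool.Agent.H.MP_711652_nt.QW.QuarterS

set_option autoImplicit false

namespace Pool.Agent.H.MP_711652_nt.QW.ResTwo

/-- The number of primes in `(u, v]`. -/
def primesIn (u v : ℕ) : ℕ := ((Finset.Ioc u v).filter Nat.Prime).card

/-- Upper bounds around almost all integers and two-sided bounds around a quarter of the
integers, at all scales. -/
theorem final : ∀ ε : ℝ, 0 < ε → ∃ δ c : ℝ, 0 < δ ∧ 0 < c ∧ ∃ B X₀ : ℕ, ∀ X : ℕ, X₀ ≤ X →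
    (∀ H₀ : ℕ, 1 ≤ H₀ → (H₀ : ℝ) ≤ (X : ℝ) ^ c →
      ({y : ℕ | y < X ∧ ∃ u v : ℕ, u ≤ y ∧ y ≤ v ∧ u + H₀ ≤ v ∧ v ≤ u + X ∧
        (4 + ε) * ((v : ℝ) - u) / Real.log X < primesIn u v}.ncard : ℝ) ≤
          X * (Real.log X) ^ B / H₀) ∧
    (1 / 4 - ε) * X ≤ ({y : ℕ | y < X ∧ ∀ u v : ℕ, u ≤ y → y ≤ v →
      (Real.log X) ^ B ≤ (v : ℝ) - u → v ≤ u + X →
      δ * ((v : ℝ) - u) / Real.log X ≤ primesIn u v ∧
      (primesIn u v : ℝ) ≤ (4 + ε) * ((v : ℝ) - u) / Real.log X}.ncard : ℝ) := by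
  classical
  intro ε hε
  obtain ⟨c, hc, B₁, X₁, h1⟩ := primes_windows_H ε hε
  obtain ⟨δ, hδ, B₃, X₃, h3⟩ := quarter (ε / 2) (by linarith)
  obtain ⟨X₄, h4⟩ := Filter.eventually_atTop.1 ((ev_log_ge (2 + 2 / ε)).and
    (ev_log_pow_rpow (B₁ + 2) c hc))
  refine ⟨δ, c, hδ, hc, B₁ + B₃ + 1, X₁ + X₃ + X₄, fun X hX => ?_⟩
  obtain ⟨hL, hLc⟩ := h4 X (by omega)
  have hε2 : 0 < 2 / ε := by positivity
  have hL1 : 1 ≤ Real.log X := by linarith
  have hL0 : 0 < Real.log X := by linarith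
  have hXR : (0 : ℝ) ≤ X := Nat.cast_nonneg X
  -- the bad set
  have hbad : ∀ H₀ : ℕ, 1 ≤ H₀ → (H₀ : ℝ) ≤ (X : ℝ) ^ c →
      ({y : ℕ | y < X ∧ ∃ u v : ℕ, u ≤ y ∧ y ≤ v ∧ u + H₀ ≤ v ∧ v ≤ u + X ∧
        (4 + ε) * ((v : ℝ) - u) / Real.log X < primesIn u v}.ncard : ℝ) ≤
          X * (Real.log X) ^ B₁ / H₀ := by
    intro H₀ hH₀ hH₀c
    obtain ⟨E, hE, h5⟩ := h1 X (by omega) H₀ hH₀ hH₀c
    refine le_trans ?_ hE
    have hsub : {y : ℕ | y < X ∧ ∃ u v : ℕ, u ≤ y ∧ y ≤ v ∧ u + H₀ ≤ v ∧ v ≤ u + X ∧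
        (4 + ε) * ((v : ℝ) - u) / Real.log X < primesIn u v} ⊆ (E : Set ℕ) := by
      rintro y ⟨hy, u, v, huy, hyv, huv, hvX, hlt⟩
      by_contra hyE
      have h6 := h5 y hy (by simpa using hyE) u v huy hyv (by
        have : ((u + H₀ : ℕ) : ℝ) ≤ v := by exact_mod_cast huv
        push_cast at this
        linarith) hvX
      exact absurd hlt (not_lt.2 h6)
    have h6 := Set.ncard_le_ncard hsub (Finset.finite_toSet E)
    rw [Set.ncard_coe_finset] at h6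
    exact_mod_cast h6
  refine ⟨fun H₀ hH₀ hH₀c => (hbad H₀ hH₀ hH₀c).trans ?_, ?_⟩
  · have hH₀R : (0 : ℝ) < H₀ := by exact_mod_cast hH₀
    apply div_le_div_of_nonneg_right _ hH₀R.le
    exact mul_le_mul_of_nonneg_left (pow_le_pow_right₀ hL1 (by omega)) hXR
  -- the two-sided bounds
  obtain ⟨H₀, hH₀⟩ : ∃ H₀ : ℕ, H₀ = ⌈(Real.log X) ^ (B₁ + 1)⌉₊ := ⟨_, rfl⟩
  have hP1 : 1 ≤ (Real.log X) ^ (B₁ + 1) := one_le_pow₀ hL1
  have hH₀1 : 1 ≤ H₀ := by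
    rw [hH₀, Nat.one_le_ceil_iff]
    linarith
  have hH₀l : (Real.log X) ^ (B₁ + 1) ≤ H₀ := by
    rw [hH₀]
    exact Nat.le_ceil _
  have hH₀u : (H₀ : ℝ) ≤ (X : ℝ) ^ c := by
    have h5 : (H₀ : ℝ) < (Real.log X) ^ (B₁ + 1) + 1 := by
      rw [hH₀]
      exact Nat.ceil_lt_add_one (by linarith)
    have h6 : (Real.log X) ^ (B₁ + 2) = (Real.log X) ^ (B₁ + 1) * Real.log X := by ring
    have h7 : (Real.log X) ^ (B₁ + 1) * 2 ≤ (Real.log X) ^ (B₁ + 1) * Real.log X :=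
      mul_le_mul_of_nonneg_left (by linarith) (by linarith)
    linarith
  have h5 := hbad H₀ hH₀1 hH₀u
  have h6 := h3 X (by omega)
  set S := {y : ℕ | y < X ∧ ∀ u v : ℕ, u ≤ y → y ≤ v →
      (Real.log X) ^ (B₁ + B₃ + 1) ≤ (v : ℝ) - u → v ≤ u + X →
      δ * ((v : ℝ) - u) / Real.log X ≤ primesIn u v ∧
      (primesIn u v : ℝ) ≤ (4 + ε) * ((v : ℝ) - u) / Real.log X} with hS
  set T := {y : ℕ | y < X ∧ ∃ u v : ℕ, u ≤ y ∧ y ≤ v ∧ u + H₀ ≤ v ∧ v ≤ u + X ∧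
        (4 + ε) * ((v : ℝ) - u) / Real.log X < primesIn u v} with hT
  set F := (Finset.range X).filter (fun y => ∀ u v : ℕ, u ≤ y → y ≤ v →
      (Real.log X) ^ B₃ ≤ (v : ℝ) - u → v ≤ u + X →
      δ * ((v : ℝ) - u) / Real.log X ≤ prIn u v) with hF
  have hSfin : S.Finite := (Set.finite_lt_nat X).subset fun y hy => hy.1
  have hTfin : T.Finite := (Set.finite_lt_nat X).subset fun y hy => hy.1
  have hcov : (F : Set ℕ) ⊆ S ∪ T := by
    intro y hy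
    rw [Finset.mem_coe, hF, Finset.mem_filter, Finset.mem_range] at hy
    by_cases hyT : y ∈ T
    · exact Or.inr hyT
    · left
      refine ⟨hy.1, fun u v huy hyv huv hvX => ⟨?_, ?_⟩⟩
      · exact hy.2 u v huy hyv ((pow_le_pow_right₀ hL1 (by omega)).trans huv) hvX
      · by_contra hlt
        rw [not_le] at hlt
        apply hyT
        refine ⟨hy.1, u, v, huy, hyv, ?_, hvX, hlt⟩
        have huv' : u ≤ v := huy.trans hyv
        have h7 : (Real.log X) ^ (B₁ + 1) ≤ ((v - u : ℕ) : ℝ) := by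
          rw [Nat.cast_sub huv']
          exact (pow_le_pow_right₀ hL1 (by omega)).trans huv
        have h8 : H₀ ≤ v - u := by
          rw [hH₀]
          exact Nat.ceil_le.2 h7
        omega
  have h7 : F.card ≤ S.ncard + T.ncard := by
    rw [← Set.ncard_coe_finset]
    exact (Set.ncard_le_ncard hcov (hSfin.union hTfin)).trans (Set.ncard_union_le S T)
  have h8 : (F.card : ℝ) ≤ S.ncard + T.ncard := by exact_mod_cast h7
  have h9 : (T.ncard : ℝ) ≤ ε / 2 * X := by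
    refine h5.trans ?_
    have hH₀R : (0 : ℝ) < H₀ := by exact_mod_cast hH₀1
    rw [div_le_iff₀ hH₀R]
    have h10 : (Real.log X) ^ B₁ ≤ ε / 2 * (Real.log X) ^ (B₁ + 1) := by
      rw [pow_succ]
      have h11 : 1 ≤ ε / 2 * Real.log X := by
        have h12 : ε / 2 * (2 / ε) ≤ ε / 2 * Real.log X :=
          mul_le_mul_of_nonneg_left (by linarith) (by linarith)
        have h13 : ε / 2 * (2 / ε) = 1 := by field_simp
        linarith
      have h14 : 0 ≤ (Real.log X) ^ B₁ := by positivity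
      nlinarith [mul_le_mul_of_nonneg_left h11 h14]
    calc (X : ℝ) * (Real.log X) ^ B₁ ≤ X * (ε / 2 * (Real.log X) ^ (B₁ + 1)) :=
          mul_le_mul_of_nonneg_left h10 hXR
      _ ≤ X * (ε / 2 * H₀) := by gcongr
      _ = ε / 2 * X * H₀ := by ring
  have h10 : (1 / 4 - ε) * (X : ℝ) = (1 / 4 - ε / 2) * X - ε / 2 * X := by ring
  rw [h10]
  linarith

end Pool.Agent.H.MP_711652_nt.QW.ResTwo
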