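import Mathlib
import Pool.Agent.H.MP_711652_nt.QW.FinH
import Pool.Agent.H.MP_711652_nt.QW.TypS

set_option autoImplicit false

namespace Pool.Agent.H.MP_711652_nt.QW.ResTyp

/-- The number of primes in `(y, y + h]`. -/
def primeCount (y h : ℕ) : ℕ := ((Finset.Ioc y (y + h)).filter Nat.Prime).card

/-- `p` is typical for the range of scales `[a, b]`: there is a local density `μ > 0` such that
for every radius `r` between `a` and `b`, for all but at most `ε * (2 * r + 1)` of the natural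
numbers `z` with `|z - p| ≤ r`, all the intervals `(z, z + h]` with `a ≤ h ≤ b` contain
`(1 ± ε) μ h` primes. -/
def Typical (ε : ℝ) (a b p : ℕ) : Prop :=
  ∃ μ : ℝ, 0 < μ ∧ ∀ r : ℕ, a ≤ r → r ≤ b →
    ({z : ℕ | p ≤ z + r ∧ z ≤ p + r ∧ ∃ h : ℕ, a ≤ h ∧ h ≤ b ∧
      ε * (μ * h) < |(primeCount z h : ℝ) - μ * h|}.ncard : ℝ) ≤ ε * (2 * r + 1)

lemma primeCount_eq (y h : ℕ) : primeCount y h = Pool.Agent.H.MP_711652_nt.cnt y h := rfl

lemma typical_iff (ε : ℝ) (a b p : ℕ) :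
    Typical ε a b p ↔ Pool.Agent.H.MP_711652_nt.TypicalS ε a b p := by
  classical
  unfold Typical Pool.Agent.H.MP_711652_nt.TypicalS
  simp only [primeCount_eq]
  have hset : ∀ (μ : ℝ) (r : ℕ), {z : ℕ | p ≤ z + r ∧ z ≤ p + r ∧ ∃ h : ℕ, a ≤ h ∧ h ≤ b ∧
      ε * (μ * h) < |(Pool.Agent.H.MP_711652_nt.cnt z h : ℝ) - μ * h|} =
      ↑((Finset.Icc (p - r) (p + r)).filter (fun z => ∃ h, a ≤ h ∧ h ≤ b ∧
        ε * (μ * h) < |(Pool.Agent.H.MP_711652_nt.cnt z h : ℝ) - μ * h|)) := by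
    intro μ r
    ext y
    rw [Finset.mem_coe, Finset.mem_filter, Finset.mem_Icc, Set.mem_ofPred_eq]
    constructor
    · rintro ⟨h5, h6, h7⟩
      exact ⟨⟨by omega, h6⟩, h7⟩
    · rintro ⟨⟨h5, h6⟩, h7⟩
      exact ⟨by omega, h6, h7⟩
  constructor
  · rintro ⟨μ, ha, hc⟩
    refine ⟨μ, ha, fun r hr1 hr2 => ?_⟩
    have := hc r hr1 hr2
    rw [hset, Set.ncard_coe_finset] at this
    convert this
  · rintro ⟨μ, ha, hc⟩
    refine ⟨μ, ha, fun r hr1 hr2 => ?_⟩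
    rw [hset, Set.ncard_coe_finset]
    convert hc r hr1 hr2

/-- Typical scales in windows. -/
theorem final (k : ℕ) : ∃ C : ℝ, 0 < C ∧ ∃ B X₀ : ℕ, ∀ X : ℕ, X₀ ≤ X → ∀ H₀ : ℕ, 1 ≤ H₀ →
    ∃ E : Finset ℕ, (E.card : ℝ) ≤ X * (Real.log X) ^ B / H₀ ∧
    ∀ y : ℕ, y < X → ∀ H : ℕ, H ≤ X → ((y ∉ E ∧ H₀ ≤ H) ∨ X ≤ H ^ k) →
    ∀ ε : ℝ, 0 < ε → ε ≤ 1 → ∀ (J : ℕ) (a b : ℕ → ℕ),
    (∀ i, i < J → C * Real.log X ≤ ε * a i) →
    (∀ i, i < J → a i ≤ b i) →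
    (∀ i, i + 1 < J → C * b i ≤ ε * a (i + 1)) →
    (∀ i, i < J → C * b i ≤ H) →
    ∀ m : ℕ, ({p : ℕ | p.Prime ∧ y ≤ p + H ∧ p ≤ y + H ∧
      m ≤ {i : ℕ | i < J ∧ ¬ Typical ε (a i) (b i) p}.ncard}.ncard : ℝ) ≤
      C * Real.exp (-(ε ^ 3 * m / C)) * (H / Real.log X) := by
  classical
  obtain ⟨C, hC, B, X₀, hX₀⟩ := pairs_use_H k
  obtain ⟨C', hC', X₁, hX₁⟩ := typ_local C hC
  refine ⟨C', by linarith, B, max X₀ X₁, fun X hX H₀ hH₀ => ?_⟩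
  obtain ⟨E, hE, h2⟩ := hX₀ X (le_trans (le_max_left _ _) hX) H₀ hH₀
  refine ⟨E, hE, fun y hy H hH hyp ε hε hε1 J a b h1 h3 h4 h5 m => ?_⟩
  obtain ⟨h6, -, h7⟩ := h2 y hy H hH hyp
  have h8 := hX₁ X (le_trans (le_max_right _ _) hX) y H h6 h7 ε hε hε1 J a b h1 h3 h4 h5 m
  have hcard : ∀ p : ℕ, {i : ℕ | i < J ∧ ¬ Typical ε (a i) (b i) p}.ncard =
      ((Finset.range J).filter (fun i =>
        ¬ Pool.Agent.H.MP_711652_nt.TypicalS ε (a i) (b i) p)).card := by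
    intro p
    have : {i : ℕ | i < J ∧ ¬ Typical ε (a i) (b i) p} =
        ↑((Finset.range J).filter (fun i =>
          ¬ Pool.Agent.H.MP_711652_nt.TypicalS ε (a i) (b i) p)) := by
      ext i
      rw [Finset.mem_coe, Finset.mem_filter, Finset.mem_range, Set.mem_ofPred_eq, typical_iff]
    rw [this, Set.ncard_coe_finset]
  have hset : {p : ℕ | p.Prime ∧ y ≤ p + H ∧ p ≤ y + H ∧
      m ≤ {i : ℕ | i < J ∧ ¬ Typical ε (a i) (b i) p}.ncard} =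
      ↑((prNear y H).filter (fun p => m ≤ ((Finset.range J).filter (fun i =>
        ¬ Pool.Agent.H.MP_711652_nt.TypicalS ε (a i) (b i) p)).card)) := by
    ext p
    unfold prNear
    rw [Finset.mem_coe, Finset.mem_filter, Finset.mem_filter, Finset.mem_Icc, Set.mem_ofPred_eq,
      hcard]
    constructor
    · rintro ⟨h6, h7, h8, h9⟩
      exact ⟨⟨⟨by omega, h8⟩, h6⟩, h9⟩
    · rintro ⟨⟨⟨h7, h8⟩, h6⟩, h9⟩
      exact ⟨h6, by omega, h8, h9⟩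
  rw [hset, Set.ncard_coe_finset]
  convert h8

end Pool.Agent.H.MP_711652_nt.QW.ResTyp
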